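import Pool.Agent.MP_34f9b1_co.Sym.Fast

namespace Pool.Agent.MP_34f9b1_co.Sym

namespace Fast2

open Leaf

/-- The processed rows as a function. -/
abbrev OT : Type := Nat → Nat → Nat → Nat → (Nat → Nat → Nat → Bool) → Bool

/-- Continuation of the layout. -/
abbrev KT : Type := Nat → Nat → Nat → OT → Nat → Bool

/-- Loop over rows. -/
abbrev RT : Type := Nat → Nat → Nat → OT → Nat → KT → Bool

/-- Loop over terms. -/
abbrev TT : Type := Nat → Nat → Nat → (Nat → Nat → Nat → Bool) → Bool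

/-- Loop over followers. -/
abbrev FT : Type := Nat → Nat → Nat → Nat → Nat → (Nat → Nat → Nat → Nat → Bool) → Bool

/-- Loop over the pieces of a shortened row. -/
abbrev ST : Type := Nat → Nat → Nat → Nat → (Nat → Nat → Nat → Bool) → Bool

/-- Pass over the coordinates. -/
abbrev PT : Type := Nat → Nat → Nat → Nat → Nat → (Nat → Nat → Nat → Bool) → Bool

/-- Affine forms. -/
abbrev AT : Type := Nat → Nat → Nat → Nat → (Nat → Nat → Bool) → Bool

/-- One option. -/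
abbrev CT : Type := OT → Nat → Nat → Nat → Nat → (Nat → Nat → Nat → Bool) → Nat → Nat → Bool

/-- Options of one row. -/
abbrev VT : Type := Nat → Nat → Nat → Nat → OT → OT

/-- One group. -/
abbrev GT : Type := Nat → OT → Nat → Nat → Nat → Nat → Nat → Nat → Nat → Nat → Nat → (Nat → Nat → Bool) → Nat → Nat
    → Nat → Bool

/-- Step over full rows. -/
abbrev N1 : Type := Nat → Nat → Nat → RT → RT

/-- Step over shortened rows. -/
abbrev S1 : Type := Nat → Nat → Nat → Nat → Nat → Nat → Nat → RT → RT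

/-- One token. -/
abbrev TK : Type := Nat → Nat → Nat → Nat → (Nat → Bool) → Bool

/-- The check for one pattern. -/
structure U where
  f : Nat → Nat → Nat → Nat → Bool

/-- Continuation of the pass over the pattern. -/
abbrev GK : Type := Nat → Nat → Nat → Nat → PT → Nat → U

/-- Upper class of the group with key `ν`. -/
noncomputable def hi (ν : Nat) :
    Nat :=
  (Nat.shiftRight ν (nat_lit 3))

/-- Lower class. -/
noncomputable def lo (ν : Nat) :
    Nat :=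
  (Nat.sub (hi ν) (Nat.pow (nat_lit 2) (Nat.land (nat_lit 7) ν)))

/-- Node. -/
noncomputable def nu (ν : Nat) :
    Nat :=
  (Nat.shiftRight (Nat.add (nat_lit 64) (lo ν)) (Nat.land (nat_lit 7) ν))

/-- The key is valid. -/
noncomputable def okk (ν : Nat) :
    Bool :=
  (Nat.beq (Nat.add (Nat.add (Nat.sub (Nat.pow (nat_lit 2) (Nat.land (nat_lit 7) ν)) (hi ν))
    (Nat.sub (hi ν) (nat_lit 40))) (Nat.xor (Nat.shiftLeft (nu ν) (Nat.land (nat_lit 7) ν)) (Nat.add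
    (nat_lit 64) (lo ν)))) (nat_lit 0))

/-- Next upper class times eight. -/
noncomputable def nx (ν : Nat) :
    Nat :=
  (Nat.mul (nat_lit 8) (lo ν))

/-- Record. -/
noncomputable def rho (ν : Nat) :
    Nat :=
  (Nat.shiftRight (nu ν) (nat_lit 1))

/-- Offset in the record. -/
noncomputable def so (ν : Nat) :
    Nat :=
  (Nat.mul (nat_lit 16) (Nat.land (nat_lit 1) (nu ν)))

/-- Sizes. -/
noncomputable def av (Ol Mu ν : Nat) :
    Nat :=
  (Nat.add (Nat.mul (Nat.mul (nat_lit 32) (lo ν)) Ol) (Nat.mul (Nat.mul (nat_lit 32) (hi ν)) Mu))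

/-- Constant. -/
noncomputable def k1 (ν : Nat) :
    Nat :=
  (Nat.add (nat_lit 5368709120) (Nat.mul (nat_lit 262144) (lo ν)))

/-- Constant. -/
noncomputable def k2 (ν : Nat) :
    Nat :=
  (Nat.add (nat_lit 5368709120) (Nat.mul (nat_lit 262144) (hi ν)))

/-- Constant. -/
noncomputable def ca (Ol ν : Nat) :
    Nat :=
  (Nat.mul (Nat.sub (nat_lit 4398046511104) (Nat.mul (lo ν) (k1 ν))) Ol)

/-- Constant. -/
noncomputable def cb (ν : Nat) :
    Nat :=
  (Nat.add (Nat.mul (lo ν) (k2 ν)) (Nat.mul (nat_lit 33554432) (Nat.sub (hi ν) (lo ν))))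

/-- Constant. -/
noncomputable def cw (ν : Nat) :
    Nat :=
  (Nat.mul (nat_lit 16384) (Nat.sub (hi ν) (lo ν)))

/-- Constant. -/
noncomputable def ch (O G Ol Mu ν : Nat) :
    Nat :=
  (Nat.sub G (Nat.add (Nat.mul (nat_lit 5335154688) O) (Nat.mul (nat_lit 8192) (av Ol Mu ν))))

/-- Constant. -/
noncomputable def u0 (ν : Nat) :
    Nat :=
  (Nat.mul (Nat.mul (nat_lit 65536) (Nat.add (lo ν) (hi ν))) (Nat.mul (nat_lit 3) (lo ν)))

/-- Constant. -/
noncomputable def u1 (ν : Nat) :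
    Nat :=
  (Nat.mul (Nat.mul (nat_lit 65536) (Nat.add (lo ν) (hi ν))) (hi ν))

/-- Constant. -/
noncomputable def u2 (ν : Nat) :
    Nat :=
  (Nat.mul (Nat.mul (nat_lit 65536) (Nat.add (lo ν) (hi ν))) (Nat.sub (Nat.mul (nat_lit 3) (hi ν))
    (lo ν)))

/-- Coupled end of a group. -/
noncomputable def cq (k G Ol Mu W MW XS ν A R c m : Nat) :
    Bool :=
  (@Bool.rec (fun _ => Bool) false (Nat.beq (Nat.land G (Nat.sub (Nat.add A (Nat.mul (Nat.mul
    (Nat.pow (nat_lit 2) (Nat.add (nat_lit 16) c)) m) (av Ol Mu ν))) (Nat.add R (Nat.mul (Nat.pow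
    (nat_lit 2) (Nat.add (nat_lit 16) c)) (Fast.sufF (fun i => (Nat.land MW (Nat.shiftRight XS
    (Nat.mul W i)))) k m))))) G) (Nat.ble m k))

/-- Rows above the block. -/
noncomputable def obC (n1 : N1) (G XS HT : Nat) (κ : KT) (qb q um cn : Nat) (pv : OT) (t r : Nat) :
    Bool :=
  (@Bool.rec (fun _ => Bool) false (@Nat.rec (fun _ => RT) (fun p um cn pv r κ => κ p um cn pv r)
    (n1 XS HT) (Nat.land (nat_lit 7) r) t um cn pv (Nat.shiftRight r (nat_lit 3)) κ) (Nat.beq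
    (Nat.land G (Nat.land (Nat.sub (Nat.add G t) q) (Nat.sub (Nat.add G t) qb))) G))

/-- Shortened rows. -/
noncomputable def obB (af : AT) (n1 : N1) (s1 : S1) (tz : Nat → Nat → Nat) (O G W MW XS HT p um cn : Nat) (pv : OT) (κ
    : KT) (bi pb ps r : Nat) :
    Bool :=
  (@Bool.rec (fun _ => Bool) false (@Bool.rec (fun _ => Bool) false (@Nat.rec (fun _ => RT) (fun p
    um cn pv r κ => κ p um cn pv r) (s1 XS HT bi (Nat.land MW (Nat.shiftRight XS (Nat.mul W bi)))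
    (tz (Nat.add (Nat.sub (Nat.mul (nat_lit 16384) O) (Nat.add pb (Nat.mul (nat_lit 4) (Nat.land MW
    (Nat.shiftRight XS (Nat.mul W bi)))))) (Nat.land (Nat.sub (Nat.add G pb) (Nat.sub (Nat.mul
    (nat_lit 16384) O) (Nat.add pb (Nat.mul (nat_lit 4) (Nat.land MW (Nat.shiftRight XS (Nat.mul W
    bi))))))) (Nat.sub (Nat.land G (Nat.sub (Nat.add G pb) (Nat.sub (Nat.mul (nat_lit 16384) O)
    (Nat.add pb (Nat.mul (nat_lit 4) (Nat.land MW (Nat.shiftRight XS (Nat.mul W bi))))))))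
    (Nat.shiftRight (Nat.land G (Nat.sub (Nat.add G pb) (Nat.sub (Nat.mul (nat_lit 16384) O)
    (Nat.add pb (Nat.mul (nat_lit 4) (Nat.land MW (Nat.shiftRight XS (Nat.mul W bi)))))))) (nat_lit
    47))))) (Nat.land MW (Nat.shiftRight XS (Nat.mul W bi)))) (Nat.add pb (Nat.mul (nat_lit 2)
    (Nat.land MW (Nat.shiftRight XS (Nat.mul W bi)))))) (Nat.land (nat_lit 7) r) ps (Nat.lor um
    (Nat.pow (nat_lit 2) bi)) cn pv (Nat.shiftRight r (nat_lit 3)) (fun (q um cn : Nat) (pv : OT) (r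
    : Nat) => (af XS HT p r (obC n1 G XS HT κ (Nat.add pb (Nat.mul (nat_lit 4) (Nat.land MW
    (Nat.shiftRight XS (Nat.mul W bi))))) q um cn pv)))) (Nat.beq (Nat.land (Nat.mul (nat_lit 32767)
    O) (Nat.add (Nat.sub (Nat.mul (nat_lit 16384) O) (Nat.add pb (Nat.mul (nat_lit 4) (Nat.land MW
    (Nat.shiftRight XS (Nat.mul W bi)))))) (Nat.land (Nat.sub (Nat.add G pb) (Nat.sub (Nat.mul
    (nat_lit 16384) O) (Nat.add pb (Nat.mul (nat_lit 4) (Nat.land MW (Nat.shiftRight XS (Nat.mul W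
    bi))))))) (Nat.sub (Nat.land G (Nat.sub (Nat.add G pb) (Nat.sub (Nat.mul (nat_lit 16384) O)
    (Nat.add pb (Nat.mul (nat_lit 4) (Nat.land MW (Nat.shiftRight XS (Nat.mul W bi))))))))
    (Nat.shiftRight (Nat.land G (Nat.sub (Nat.add G pb) (Nat.sub (Nat.mul (nat_lit 16384) O)
    (Nat.add pb (Nat.mul (nat_lit 4) (Nat.land MW (Nat.shiftRight XS (Nat.mul W bi)))))))) (nat_lit
    47)))))) (Nat.add (Nat.sub (Nat.mul (nat_lit 16384) O) (Nat.add pb (Nat.mul (nat_lit 4)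
    (Nat.land MW (Nat.shiftRight XS (Nat.mul W bi)))))) (Nat.land (Nat.sub (Nat.add G pb) (Nat.sub
    (Nat.mul (nat_lit 16384) O) (Nat.add pb (Nat.mul (nat_lit 4) (Nat.land MW (Nat.shiftRight XS
    (Nat.mul W bi))))))) (Nat.sub (Nat.land G (Nat.sub (Nat.add G pb) (Nat.sub (Nat.mul (nat_lit
    16384) O) (Nat.add pb (Nat.mul (nat_lit 4) (Nat.land MW (Nat.shiftRight XS (Nat.mul W bi))))))))
    (Nat.shiftRight (Nat.land G (Nat.sub (Nat.add G pb) (Nat.sub (Nat.mul (nat_lit 16384) O)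
    (Nat.add pb (Nat.mul (nat_lit 4) (Nat.land MW (Nat.shiftRight XS (Nat.mul W bi)))))))) (nat_lit
    47))))))) (Nat.beq (Nat.land G (Nat.land (Nat.land (Nat.sub (Nat.add G pb) p) (Nat.sub (Nat.add
    G (Nat.mul (nat_lit 16384) O)) (Nat.add pb (Nat.mul (nat_lit 4) (Nat.land MW (Nat.shiftRight XS
    (Nat.mul W bi))))))) (Nat.sub (Nat.add G ps) p))) G))

/-- The block. -/
noncomputable def obA (af : AT) (n1 : N1) (s1 : S1) (tz : Nat → Nat → Nat) (k O G W MW XS HT : Nat) (κ : KT) (p um cn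
    : Nat) (pv : OT) (r : Nat) :
    Bool :=
  (@Bool.rec (fun _ => Bool) false (af XS HT p (Nat.shiftRight r (nat_lit 4)) (fun (pb t : Nat) =>
    (af XS HT p t (obB af n1 s1 tz O G W MW XS HT p um cn pv κ (Nat.land (nat_lit 15) r) pb))))
    (Nat.ble (Nat.succ (Nat.land (nat_lit 15) r)) k))

/-- Eight steps. -/
noncomputable def rep (f : (Nat → Nat → Bool) → Nat → Nat → Bool) (x : Nat → Nat → Bool) :
    Nat → Nat → Bool :=
  f (f (f (f (f (f (f (f x)))))))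

/-- Forty-one steps. -/
noncomputable def rep41 (f : (Nat → Nat → Bool) → Nat → Nat → Bool) :
    Nat → Nat → Bool :=
  f (f (f (f (f (f (f (f (f (rep f (rep f (rep f (rep f fun _ _ => false))))))))))))

/-- One at the start of each of eight rows. -/
noncomputable def cR  :
    Nat :=
  (Nat.div (Nat.sub (Nat.pow (nat_lit 2) (nat_lit 66048)) (nat_lit 1)) (Nat.sub (Nat.pow (nat_lit
    2) (nat_lit 8256)) (nat_lit 1)))

/-- Ones. -/
noncomputable def cO  :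
    Nat :=
  (Nat.div (Nat.sub (Nat.pow (nat_lit 2) (nat_lit 66048)) (nat_lit 1)) (nat_lit
    18446744073709551615))

/-- The two entries of a lane. -/
noncomputable def cM  :
    Nat :=
  (Nat.mul (nat_lit 281470681808895) cO)

/-- Guards. -/
noncomputable def cG  :
    Nat :=
  (Nat.mul (nat_lit 9223372039002259456) cO)

/-- Twice the lane number. -/
noncomputable def cI  :
    Nat :=
  (Nat.mul (nat_lit
    0x3e0000003e0000003c0000003c0000003a0000003a000000380000003800000036000000360000003400000034000000320000003200000030000000300000002e0000002e0000002c0000002c0000002a0000002a000000280000002800000026000000260000002400000024000000220000002200000020000000200000001e0000001e0000001c0000001c0000001a0000001a000000180000001800000016000000160000001400000014000000120000001200000010000000100000000e0000000e0000000c0000000c0000000a0000000a00000008000000080000000600000006000000040000000400000002000000020000000000000000)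
    cR)

/-- Four times the row number. -/
noncomputable def cD  :
    Nat :=
  (Nat.mul (Nat.mul (nat_lit 17179869188) (Nat.div (Nat.sub (Nat.pow (nat_lit 2) (nat_lit 8256))
    (nat_lit 1)) (nat_lit 18446744073709551615))) (Nat.add (nat_lit 0) (Nat.shiftLeft (Nat.add
    (nat_lit 1) (Nat.shiftLeft (Nat.add (nat_lit 2) (Nat.shiftLeft (Nat.add (nat_lit 3)
    (Nat.shiftLeft (Nat.add (nat_lit 4) (Nat.shiftLeft (Nat.add (nat_lit 5) (Nat.shiftLeft (Nat.add
    (nat_lit 6) (Nat.shiftLeft (nat_lit 7) (nat_lit 8256))) (nat_lit 8256))) (nat_lit 8256)))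
    (nat_lit 8256))) (nat_lit 8256))) (nat_lit 8256))) (nat_lit 8256))))

/-- The window of the table. -/
noncomputable def wm (ni nr : Nat) :
    Nat :=
  (Nat.mul (Nat.sub (Nat.pow (nat_lit 2) (Nat.mul (nat_lit 64) (Nat.succ ni))) (nat_lit 1))
    (Nat.land cR (Nat.sub (Nat.pow (nat_lit 2) (Nat.succ (Nat.mul (nat_lit 8256) nr))) (nat_lit
    1))))

/-- End of the layout. -/
noncomputable def fin (g2 : GT) (k O G XS av C0 h p0 p um cn : Nat) (pv : OT) (r : Nat) :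
    Bool :=
  (@Bool.rec (fun _ => Bool) false (@Bool.rec (fun _ => Bool) false (rep41 (fun (ih : Nat → Nat →
    Bool) (hi r : Nat) => (@Bool.rec (fun _ => Bool) (@Nat.rec (fun _ => Bool) false (fun ν _ =>
    ((g2 XS pv (Nat.sub (Nat.add G (Nat.mul (nat_lit 256) av)) (Nat.mul C0 O)) (Nat.mul (nat_lit
    1024) (Nat.sub (Nat.mul (Nat.sub (nat_lit 16384) (Nat.mul (nat_lit 128) (Nat.land (nat_lit 127)
    (Nat.shiftRight h (nat_lit 19))))) O) p)) (Nat.mul (nat_lit 1024) (Nat.sub (Nat.mul (Nat.sub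
    (nat_lit 7936) (Nat.mul (nat_lit 256) (Nat.land (nat_lit 31) (Nat.shiftRight h (nat_lit 31)))))
    O) p0)) (Nat.add (Nat.mul (nat_lit 8256) (Nat.sub (Nat.land (nat_lit 31) (Nat.shiftRight h
    (nat_lit 31))) (nat_lit 1))) (Nat.mul (nat_lit 64) (Nat.land (nat_lit 127) (Nat.shiftRight h
    (nat_lit 19))))) (Nat.land cM (wm (Nat.land (nat_lit 31) (Nat.shiftRight h (nat_lit 26)))
    (Nat.land (nat_lit 7) (Nat.shiftRight h (nat_lit 36))))) (Nat.land cG (wm (Nat.land (nat_lit 31)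
    (Nat.shiftRight h (nat_lit 26))) (Nat.land (nat_lit 7) (Nat.shiftRight h (nat_lit 36)))))
    (Nat.land cD (wm (Nat.land (nat_lit 31) (Nat.shiftRight h (nat_lit 26))) (Nat.land (nat_lit 7)
    (Nat.shiftRight h (nat_lit 36))))) (Nat.land cI (wm (Nat.land (nat_lit 31) (Nat.shiftRight h
    (nat_lit 26))) (Nat.land (nat_lit 7) (Nat.shiftRight h (nat_lit 36))))) (Nat.land cO (wm
    (Nat.land (nat_lit 31) (Nat.shiftRight h (nat_lit 26))) (Nat.land (nat_lit 7) (Nat.shiftRight h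
    (nat_lit 36)))))) ih r (Nat.land (nat_lit 2305843009213693951) r) ν)) (Nat.succ (Nat.add hi
    (Nat.land (nat_lit 7) (Nat.land (nat_lit 2305843009213693951) r))))) true (Nat.beq hi (nat_lit
    0)))) (Nat.mul (nat_lit 8) (Nat.land (nat_lit 63) (Nat.shiftRight h (nat_lit 13)))) r) (Nat.beq
    (Nat.land G (Nat.land (Nat.land (Nat.sub (Nat.add G (Nat.mul (Nat.sub (nat_lit 16384) (Nat.mul
    (nat_lit 128) (Nat.land (nat_lit 127) (Nat.shiftRight h (nat_lit 19))))) O)) p) (Nat.sub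
    (Nat.add G (Nat.mul (Nat.mul (nat_lit 128) (Nat.land (nat_lit 31) (Nat.shiftRight h (nat_lit
    26)))) O)) (Nat.sub (Nat.mul (Nat.sub (nat_lit 16384) (Nat.mul (nat_lit 128) (Nat.land (nat_lit
    127) (Nat.shiftRight h (nat_lit 19))))) O) p))) (Nat.land (Nat.sub (Nat.add G (Nat.mul (Nat.sub
    (nat_lit 7936) (Nat.mul (nat_lit 256) (Nat.land (nat_lit 31) (Nat.shiftRight h (nat_lit 31)))))
    O)) p0) (Nat.sub (Nat.add G (Nat.mul (Nat.mul (nat_lit 256) (Nat.land (nat_lit 7)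
    (Nat.shiftRight h (nat_lit 36)))) O)) (Nat.sub (Nat.mul (Nat.sub (nat_lit 7936) (Nat.mul
    (nat_lit 256) (Nat.land (nat_lit 31) (Nat.shiftRight h (nat_lit 31))))) O) p0))))) G)) (Nat.beq
    (Nat.add (Nat.xor (Nat.succ um) (Nat.pow (nat_lit 2) k)) (Nat.sub cn (nat_lit 12))) (nat_lit
    0)))

/-- The box with `k` intervals packed in a number. -/
noncomputable def unp (k : Nat) :
    Nat → Box :=
  @Nat.rec (fun _ => Nat → Box) (fun _ => []) (fun _ ih X => ((Nat.land (nat_lit 8191) X),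
    (Nat.land (nat_lit 8191) (Nat.shiftRight X (nat_lit 13)))) :: ih (Nat.shiftRight X (nat_lit
    26))) k

/-- The layout. -/
noncomputable def lay (af : AT) (n1 : N1) (ob : Nat → Nat → KT → KT) (fi : Nat → Nat → Nat → Nat → Nat → KT) (k O W MW
    X Uv r h XS av ac : Nat) :
    Bool :=
  (@Bool.rec (fun _ => Bool) false (af XS (@Bool.rec (fun _ => Nat) (Nat.land MW (Nat.shiftRight
    XS (Nat.mul W (Nat.sub k (nat_lit 1))))) (Nat.mul (Nat.land (nat_lit 4095) (Nat.shiftRight h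
    (nat_lit 1))) O) (Nat.beq (Nat.land (nat_lit 1) h) (nat_lit 0))) (nat_lit 0) (Nat.shiftRight r
    (nat_lit 43)) (fun (p0 t : Nat) => (@Nat.rec (fun _ => RT) (fun p um cn pv r κ => κ p um cn pv
    r) (n1 XS (@Bool.rec (fun _ => Nat) (Nat.land MW (Nat.shiftRight XS (Nat.mul W (Nat.sub k
    (nat_lit 1))))) (Nat.mul (Nat.land (nat_lit 4095) (Nat.shiftRight h (nat_lit 1))) O) (Nat.beq
    (Nat.land (nat_lit 1) h) (nat_lit 0)))) (Nat.land (nat_lit 7) (Nat.shiftRight h (nat_lit 40)))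
    p0 (nat_lit 0) (nat_lit 0) (fun _ A c r κ => κ A c r) t ((@Bool.rec (fun _ => KT → KT) (ob XS
    (@Bool.rec (fun _ => Nat) (Nat.land MW (Nat.shiftRight XS (Nat.mul W (Nat.sub k (nat_lit 1)))))
    (Nat.mul (Nat.land (nat_lit 4095) (Nat.shiftRight h (nat_lit 1))) O) (Nat.beq (Nat.land (nat_lit
    1) h) (nat_lit 0)))) (fun κ => κ) (Nat.beq (Nat.land (nat_lit 549755813888) h) (nat_lit 0))) (fi
    XS av (Nat.add (nat_lit 2147483649) (Nat.mul (nat_lit 64) ac)) h p0))))) (Nat.beq (Nat.add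
    (Nat.add (Nat.add (Nat.sub (Nat.land (nat_lit 63) (Nat.shiftRight h (nat_lit 13))) (nat_lit 40))
    (Nat.sub (Nat.add (Nat.land (nat_lit 127) (Nat.shiftRight h (nat_lit 19))) (Nat.land (nat_lit
    31) (Nat.shiftRight h (nat_lit 26)))) (nat_lit 128))) (Nat.sub (nat_lit 1) (Nat.mul (Nat.mul
    (Nat.land (nat_lit 63) (Nat.shiftRight h (nat_lit 13))) (Nat.land (nat_lit 31) (Nat.shiftRight h
    (nat_lit 26)))) (Nat.mul (Nat.land (nat_lit 7) (Nat.shiftRight h (nat_lit 36))) (Nat.land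
    (nat_lit 31) (Nat.shiftRight h (nat_lit 31))))))) (Nat.add (Nat.add (Nat.shiftRight (Nat.add
    (nat_lit 2147483649) (Nat.mul (nat_lit 64) ac)) (nat_lit 47)) (Nat.sub (Nat.add (Nat.land
    (nat_lit 31) (Nat.shiftRight h (nat_lit 31))) (Nat.land (nat_lit 7) (Nat.shiftRight h (nat_lit
    36)))) (nat_lit 31))) (@Bool.rec (fun _ => Nat) (Nat.sub (Nat.land (nat_lit 8191)
    (Nat.shiftRight Uv (Nat.mul (nat_lit 26) (Nat.sub k (nat_lit 1))))) (Nat.mul (nat_lit 32)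
    (Nat.land (nat_lit 63) (Nat.shiftRight h (nat_lit 13))))) (Nat.add (Nat.sub (Nat.land (nat_lit
    4095) (Nat.shiftRight h (nat_lit 1))) (Nat.mul (nat_lit 32) (Nat.land (nat_lit 63)
    (Nat.shiftRight h (nat_lit 13))))) (Nat.sub (nat_lit 8388608) (Nat.add (arL (unp k X)) (Nat.mul
    (Nat.land (nat_lit 4095) (Nat.shiftRight h (nat_lit 1))) (Nat.land (nat_lit 4095)
    (Nat.shiftRight h (nat_lit 1))))))) (Nat.beq (Nat.land (nat_lit 1) h) (nat_lit 0))))) (nat_lit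
    0)))

/-- All parts of the check that depend only on the pattern. -/
noncomputable def mk2 (tb : Nat → Nat) (k O G Mu Ol W MW V G4 K4 A4 B4 : Nat) (pp : PT) :
    U :=
  (fun (lm : Nat → Nat → Nat) (tz : Nat → Nat → Nat) (oa : CT) (ob : CT) (tm : Nat → Nat → Nat →
    TT → TT) (ft : Nat → Nat → ST → ST) (g2 : GT) => (fun (af : AT) (oN : VT) (oS : VT) (fs : Nat →
    Nat → Nat → Nat → FT → FT) => (fun (n2 : Nat → Nat → Nat → OT → Nat → KT → RT → Nat → Nat → Nat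
    → Nat → Nat → Nat → Nat → Bool) (s2 : Nat → Nat → Nat → Nat → OT → Nat → KT → RT → Nat → Nat →
    Nat → Nat → Nat → Nat → Nat → Bool) => (fun (n1 : N1) (s1 : S1) => U.mk (fun (X Lv Uv r : Nat)
    => (pp Lv Uv (nat_lit 0) (nat_lit 0) (nat_lit 0) (lay af n1 (obA af n1 s1 tz k O G W MW) (fin g2
    k O G) k O W MW X Uv r (Nat.land (nat_lit 8796093022207) r))))) (fun (XS HT _j : Nat) (ih : RT)
    (p um cn : Nat) (pv : OT) (r : Nat) (κ : KT) => (@Bool.rec (fun _ => Bool) false (@Bool.rec (fun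
    _ => Bool) false (@Bool.rec (fun _ => Bool) false (@Nat.rec (fun _ => FT) (fun _ S C um r κ => κ
    S C um r) (fs XS (Nat.add (Nat.sub (Nat.mul (nat_lit 16384) O) (Nat.add p (Nat.mul (nat_lit 4)
    (Nat.land MW (Nat.shiftRight XS (Nat.mul W (Nat.land (nat_lit 15) r))))))) (Nat.land (Nat.sub
    (Nat.add G p) (Nat.sub (Nat.mul (nat_lit 16384) O) (Nat.add p (Nat.mul (nat_lit 4) (Nat.land MW
    (Nat.shiftRight XS (Nat.mul W (Nat.land (nat_lit 15) r)))))))) (Nat.sub (Nat.land G (Nat.sub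
    (Nat.add G p) (Nat.sub (Nat.mul (nat_lit 16384) O) (Nat.add p (Nat.mul (nat_lit 4) (Nat.land MW
    (Nat.shiftRight XS (Nat.mul W (Nat.land (nat_lit 15) r))))))))) (Nat.shiftRight (Nat.land G
    (Nat.sub (Nat.add G p) (Nat.sub (Nat.mul (nat_lit 16384) O) (Nat.add p (Nat.mul (nat_lit 4)
    (Nat.land MW (Nat.shiftRight XS (Nat.mul W (Nat.land (nat_lit 15) r))))))))) (nat_lit 47)))))
    (tz (Nat.add (Nat.sub (Nat.mul (nat_lit 16384) O) (Nat.add p (Nat.mul (nat_lit 4) (Nat.land MW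
    (Nat.shiftRight XS (Nat.mul W (Nat.land (nat_lit 15) r))))))) (Nat.land (Nat.sub (Nat.add G p)
    (Nat.sub (Nat.mul (nat_lit 16384) O) (Nat.add p (Nat.mul (nat_lit 4) (Nat.land MW
    (Nat.shiftRight XS (Nat.mul W (Nat.land (nat_lit 15) r)))))))) (Nat.sub (Nat.land G (Nat.sub
    (Nat.add G p) (Nat.sub (Nat.mul (nat_lit 16384) O) (Nat.add p (Nat.mul (nat_lit 4) (Nat.land MW
    (Nat.shiftRight XS (Nat.mul W (Nat.land (nat_lit 15) r))))))))) (Nat.shiftRight (Nat.land G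
    (Nat.sub (Nat.add G p) (Nat.sub (Nat.mul (nat_lit 16384) O) (Nat.add p (Nat.mul (nat_lit 4)
    (Nat.land MW (Nat.shiftRight XS (Nat.mul W (Nat.land (nat_lit 15) r))))))))) (nat_lit 47)))))
    (Nat.land MW (Nat.shiftRight XS (Nat.mul W (Nat.land (nat_lit 15) r)))))) (Nat.land (nat_lit 7)
    (Nat.shiftRight r (nat_lit 5))) (Nat.land (nat_lit 15) r) (Nat.land MW (Nat.shiftRight XS
    (Nat.mul W (Nat.land (nat_lit 15) r)))) (Nat.mul (nat_lit 2483027968) O) (Nat.lor um (Nat.pow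
    (nat_lit 2) (Nat.land (nat_lit 15) r))) (Nat.shiftRight r (nat_lit 8)) (n2 HT p cn pv r κ ih
    (Nat.add p (Nat.mul (nat_lit 4) (Nat.land MW (Nat.shiftRight XS (Nat.mul W (Nat.land (nat_lit
    15) r)))))) (Nat.add (Nat.sub (Nat.mul (nat_lit 16384) O) (Nat.add p (Nat.mul (nat_lit 4)
    (Nat.land MW (Nat.shiftRight XS (Nat.mul W (Nat.land (nat_lit 15) r))))))) (Nat.land (Nat.sub
    (Nat.add G p) (Nat.sub (Nat.mul (nat_lit 16384) O) (Nat.add p (Nat.mul (nat_lit 4) (Nat.land MW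
    (Nat.shiftRight XS (Nat.mul W (Nat.land (nat_lit 15) r)))))))) (Nat.sub (Nat.land G (Nat.sub
    (Nat.add G p) (Nat.sub (Nat.mul (nat_lit 16384) O) (Nat.add p (Nat.mul (nat_lit 4) (Nat.land MW
    (Nat.shiftRight XS (Nat.mul W (Nat.land (nat_lit 15) r))))))))) (Nat.shiftRight (Nat.land G
    (Nat.sub (Nat.add G p) (Nat.sub (Nat.mul (nat_lit 16384) O) (Nat.add p (Nat.mul (nat_lit 4)
    (Nat.land MW (Nat.shiftRight XS (Nat.mul W (Nat.land (nat_lit 15) r))))))))) (nat_lit 47)))))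
    (tz (Nat.add (Nat.sub (Nat.mul (nat_lit 16384) O) (Nat.add p (Nat.mul (nat_lit 4) (Nat.land MW
    (Nat.shiftRight XS (Nat.mul W (Nat.land (nat_lit 15) r))))))) (Nat.land (Nat.sub (Nat.add G p)
    (Nat.sub (Nat.mul (nat_lit 16384) O) (Nat.add p (Nat.mul (nat_lit 4) (Nat.land MW
    (Nat.shiftRight XS (Nat.mul W (Nat.land (nat_lit 15) r)))))))) (Nat.sub (Nat.land G (Nat.sub
    (Nat.add G p) (Nat.sub (Nat.mul (nat_lit 16384) O) (Nat.add p (Nat.mul (nat_lit 4) (Nat.land MW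
    (Nat.shiftRight XS (Nat.mul W (Nat.land (nat_lit 15) r))))))))) (Nat.shiftRight (Nat.land G
    (Nat.sub (Nat.add G p) (Nat.sub (Nat.mul (nat_lit 16384) O) (Nat.add p (Nat.mul (nat_lit 4)
    (Nat.land MW (Nat.shiftRight XS (Nat.mul W (Nat.land (nat_lit 15) r))))))))) (nat_lit 47)))))
    (Nat.land MW (Nat.shiftRight XS (Nat.mul W (Nat.land (nat_lit 15) r))))))) (Nat.beq (Nat.land
    (Nat.mul (nat_lit 32767) O) (Nat.add (Nat.sub (Nat.mul (nat_lit 16384) O) (Nat.add p (Nat.mul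
    (nat_lit 4) (Nat.land MW (Nat.shiftRight XS (Nat.mul W (Nat.land (nat_lit 15) r))))))) (Nat.land
    (Nat.sub (Nat.add G p) (Nat.sub (Nat.mul (nat_lit 16384) O) (Nat.add p (Nat.mul (nat_lit 4)
    (Nat.land MW (Nat.shiftRight XS (Nat.mul W (Nat.land (nat_lit 15) r)))))))) (Nat.sub (Nat.land G
    (Nat.sub (Nat.add G p) (Nat.sub (Nat.mul (nat_lit 16384) O) (Nat.add p (Nat.mul (nat_lit 4)
    (Nat.land MW (Nat.shiftRight XS (Nat.mul W (Nat.land (nat_lit 15) r))))))))) (Nat.shiftRight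
    (Nat.land G (Nat.sub (Nat.add G p) (Nat.sub (Nat.mul (nat_lit 16384) O) (Nat.add p (Nat.mul
    (nat_lit 4) (Nat.land MW (Nat.shiftRight XS (Nat.mul W (Nat.land (nat_lit 15) r)))))))))
    (nat_lit 47)))))) (Nat.add (Nat.sub (Nat.mul (nat_lit 16384) O) (Nat.add p (Nat.mul (nat_lit 4)
    (Nat.land MW (Nat.shiftRight XS (Nat.mul W (Nat.land (nat_lit 15) r))))))) (Nat.land (Nat.sub
    (Nat.add G p) (Nat.sub (Nat.mul (nat_lit 16384) O) (Nat.add p (Nat.mul (nat_lit 4) (Nat.land MW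
    (Nat.shiftRight XS (Nat.mul W (Nat.land (nat_lit 15) r)))))))) (Nat.sub (Nat.land G (Nat.sub
    (Nat.add G p) (Nat.sub (Nat.mul (nat_lit 16384) O) (Nat.add p (Nat.mul (nat_lit 4) (Nat.land MW
    (Nat.shiftRight XS (Nat.mul W (Nat.land (nat_lit 15) r))))))))) (Nat.shiftRight (Nat.land G
    (Nat.sub (Nat.add G p) (Nat.sub (Nat.mul (nat_lit 16384) O) (Nat.add p (Nat.mul (nat_lit 4)
    (Nat.land MW (Nat.shiftRight XS (Nat.mul W (Nat.land (nat_lit 15) r))))))))) (nat_lit 47)))))))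
    (Nat.beq (Nat.land G (Nat.sub (Nat.add G (Nat.mul (nat_lit 16384) O)) (Nat.add p (Nat.mul
    (nat_lit 4) (Nat.land MW (Nat.shiftRight XS (Nat.mul W (Nat.land (nat_lit 15) r)))))))) G))
    (Nat.ble (Nat.succ (Nat.land (nat_lit 15) r)) k))) (fun (XS HT bi Xb Tb Yb _j : Nat) (ih : RT)
    (p um cn : Nat) (pv : OT) (r : Nat) (κ : KT) => (@Bool.rec (fun _ => Bool) false (@Bool.rec (fun
    _ => Bool) false (@Nat.rec (fun _ => ST) (fun _ S um r κ => κ S um r) (ft XS) (Nat.land (nat_lit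
    7) r) bi (nat_lit 0) um (Nat.shiftRight r (nat_lit 10)) (s2 Xb Tb Yb cn pv r κ ih (@Bool.rec
    (fun _ => Nat) (Nat.land MW (Nat.shiftRight XS (Nat.mul W (Nat.land (nat_lit 15) (Nat.shiftRight
    r (nat_lit 10)))))) HT (Nat.beq (Nat.land (nat_lit 7) r) (nat_lit 0))) (Nat.add p (Nat.mul
    (nat_lit 4) (@Bool.rec (fun _ => Nat) (Nat.land MW (Nat.shiftRight XS (Nat.mul W (Nat.land
    (nat_lit 15) (Nat.shiftRight r (nat_lit 10)))))) HT (Nat.beq (Nat.land (nat_lit 7) r) (nat_lit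
    0))))) (Nat.add (Nat.sub (Nat.mul (nat_lit 16384) O) (Nat.add p (Nat.mul (nat_lit 4) (@Bool.rec
    (fun _ => Nat) (Nat.land MW (Nat.shiftRight XS (Nat.mul W (Nat.land (nat_lit 15) (Nat.shiftRight
    r (nat_lit 10)))))) HT (Nat.beq (Nat.land (nat_lit 7) r) (nat_lit 0)))))) (Nat.land (Nat.sub
    (Nat.add G p) (Nat.sub (Nat.mul (nat_lit 16384) O) (Nat.add p (Nat.mul (nat_lit 4) (@Bool.rec
    (fun _ => Nat) (Nat.land MW (Nat.shiftRight XS (Nat.mul W (Nat.land (nat_lit 15) (Nat.shiftRight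
    r (nat_lit 10)))))) HT (Nat.beq (Nat.land (nat_lit 7) r) (nat_lit 0))))))) (Nat.sub (Nat.land G
    (Nat.sub (Nat.add G p) (Nat.sub (Nat.mul (nat_lit 16384) O) (Nat.add p (Nat.mul (nat_lit 4)
    (@Bool.rec (fun _ => Nat) (Nat.land MW (Nat.shiftRight XS (Nat.mul W (Nat.land (nat_lit 15)
    (Nat.shiftRight r (nat_lit 10)))))) HT (Nat.beq (Nat.land (nat_lit 7) r) (nat_lit 0))))))))
    (Nat.shiftRight (Nat.land G (Nat.sub (Nat.add G p) (Nat.sub (Nat.mul (nat_lit 16384) O) (Nat.add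
    p (Nat.mul (nat_lit 4) (@Bool.rec (fun _ => Nat) (Nat.land MW (Nat.shiftRight XS (Nat.mul W
    (Nat.land (nat_lit 15) (Nat.shiftRight r (nat_lit 10)))))) HT (Nat.beq (Nat.land (nat_lit 7) r)
    (nat_lit 0)))))))) (nat_lit 47))))) (tz (Nat.add (Nat.sub (Nat.mul (nat_lit 16384) O) (Nat.add p
    (Nat.mul (nat_lit 4) (@Bool.rec (fun _ => Nat) (Nat.land MW (Nat.shiftRight XS (Nat.mul W
    (Nat.land (nat_lit 15) (Nat.shiftRight r (nat_lit 10)))))) HT (Nat.beq (Nat.land (nat_lit 7) r)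
    (nat_lit 0)))))) (Nat.land (Nat.sub (Nat.add G p) (Nat.sub (Nat.mul (nat_lit 16384) O) (Nat.add
    p (Nat.mul (nat_lit 4) (@Bool.rec (fun _ => Nat) (Nat.land MW (Nat.shiftRight XS (Nat.mul W
    (Nat.land (nat_lit 15) (Nat.shiftRight r (nat_lit 10)))))) HT (Nat.beq (Nat.land (nat_lit 7) r)
    (nat_lit 0))))))) (Nat.sub (Nat.land G (Nat.sub (Nat.add G p) (Nat.sub (Nat.mul (nat_lit 16384)
    O) (Nat.add p (Nat.mul (nat_lit 4) (@Bool.rec (fun _ => Nat) (Nat.land MW (Nat.shiftRight XS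
    (Nat.mul W (Nat.land (nat_lit 15) (Nat.shiftRight r (nat_lit 10)))))) HT (Nat.beq (Nat.land
    (nat_lit 7) r) (nat_lit 0)))))))) (Nat.shiftRight (Nat.land G (Nat.sub (Nat.add G p) (Nat.sub
    (Nat.mul (nat_lit 16384) O) (Nat.add p (Nat.mul (nat_lit 4) (@Bool.rec (fun _ => Nat) (Nat.land
    MW (Nat.shiftRight XS (Nat.mul W (Nat.land (nat_lit 15) (Nat.shiftRight r (nat_lit 10)))))) HT
    (Nat.beq (Nat.land (nat_lit 7) r) (nat_lit 0)))))))) (nat_lit 47))))) (@Bool.rec (fun _ => Nat)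
    (Nat.land MW (Nat.shiftRight XS (Nat.mul W (Nat.land (nat_lit 15) (Nat.shiftRight r (nat_lit
    10)))))) HT (Nat.beq (Nat.land (nat_lit 7) r) (nat_lit 0)))))) (Nat.beq (Nat.land (Nat.mul
    (nat_lit 32767) O) (Nat.add (Nat.sub (Nat.mul (nat_lit 16384) O) (Nat.add p (Nat.mul (nat_lit 4)
    (@Bool.rec (fun _ => Nat) (Nat.land MW (Nat.shiftRight XS (Nat.mul W (Nat.land (nat_lit 15)
    (Nat.shiftRight r (nat_lit 10)))))) HT (Nat.beq (Nat.land (nat_lit 7) r) (nat_lit 0))))))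
    (Nat.land (Nat.sub (Nat.add G p) (Nat.sub (Nat.mul (nat_lit 16384) O) (Nat.add p (Nat.mul
    (nat_lit 4) (@Bool.rec (fun _ => Nat) (Nat.land MW (Nat.shiftRight XS (Nat.mul W (Nat.land
    (nat_lit 15) (Nat.shiftRight r (nat_lit 10)))))) HT (Nat.beq (Nat.land (nat_lit 7) r) (nat_lit
    0))))))) (Nat.sub (Nat.land G (Nat.sub (Nat.add G p) (Nat.sub (Nat.mul (nat_lit 16384) O)
    (Nat.add p (Nat.mul (nat_lit 4) (@Bool.rec (fun _ => Nat) (Nat.land MW (Nat.shiftRight XS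
    (Nat.mul W (Nat.land (nat_lit 15) (Nat.shiftRight r (nat_lit 10)))))) HT (Nat.beq (Nat.land
    (nat_lit 7) r) (nat_lit 0)))))))) (Nat.shiftRight (Nat.land G (Nat.sub (Nat.add G p) (Nat.sub
    (Nat.mul (nat_lit 16384) O) (Nat.add p (Nat.mul (nat_lit 4) (@Bool.rec (fun _ => Nat) (Nat.land
    MW (Nat.shiftRight XS (Nat.mul W (Nat.land (nat_lit 15) (Nat.shiftRight r (nat_lit 10)))))) HT
    (Nat.beq (Nat.land (nat_lit 7) r) (nat_lit 0)))))))) (nat_lit 47)))))) (Nat.add (Nat.sub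
    (Nat.mul (nat_lit 16384) O) (Nat.add p (Nat.mul (nat_lit 4) (@Bool.rec (fun _ => Nat) (Nat.land
    MW (Nat.shiftRight XS (Nat.mul W (Nat.land (nat_lit 15) (Nat.shiftRight r (nat_lit 10)))))) HT
    (Nat.beq (Nat.land (nat_lit 7) r) (nat_lit 0)))))) (Nat.land (Nat.sub (Nat.add G p) (Nat.sub
    (Nat.mul (nat_lit 16384) O) (Nat.add p (Nat.mul (nat_lit 4) (@Bool.rec (fun _ => Nat) (Nat.land
    MW (Nat.shiftRight XS (Nat.mul W (Nat.land (nat_lit 15) (Nat.shiftRight r (nat_lit 10)))))) HT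
    (Nat.beq (Nat.land (nat_lit 7) r) (nat_lit 0))))))) (Nat.sub (Nat.land G (Nat.sub (Nat.add G p)
    (Nat.sub (Nat.mul (nat_lit 16384) O) (Nat.add p (Nat.mul (nat_lit 4) (@Bool.rec (fun _ => Nat)
    (Nat.land MW (Nat.shiftRight XS (Nat.mul W (Nat.land (nat_lit 15) (Nat.shiftRight r (nat_lit
    10)))))) HT (Nat.beq (Nat.land (nat_lit 7) r) (nat_lit 0)))))))) (Nat.shiftRight (Nat.land G
    (Nat.sub (Nat.add G p) (Nat.sub (Nat.mul (nat_lit 16384) O) (Nat.add p (Nat.mul (nat_lit 4)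
    (@Bool.rec (fun _ => Nat) (Nat.land MW (Nat.shiftRight XS (Nat.mul W (Nat.land (nat_lit 15)
    (Nat.shiftRight r (nat_lit 10)))))) HT (Nat.beq (Nat.land (nat_lit 7) r) (nat_lit 0))))))))
    (nat_lit 47))))))) (Nat.beq (Nat.land G (Nat.sub (Nat.add G (Nat.mul (nat_lit 16384) O))
    (Nat.add p (Nat.mul (nat_lit 4) (@Bool.rec (fun _ => Nat) (Nat.land MW (Nat.shiftRight XS
    (Nat.mul W (Nat.land (nat_lit 15) (Nat.shiftRight r (nat_lit 10)))))) HT (Nat.beq (Nat.land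
    (nat_lit 7) r) (nat_lit 0))))))) G)))) (fun (HT p cn : Nat) (pv : OT) (r : Nat) (κ : KT) (ih :
    RT) (q Z T1 S C um r1 : Nat) => (@Bool.rec (fun _ => Bool) false (ih q um (Nat.succ cn) (fun (ν
    A c t : Nat) (κ : Nat → Nat → Nat → Bool) => (@Bool.rec (fun _ => Bool) (oN Z (Nat.sub (Nat.add
    (Nat.mul (nat_lit 2) C) (Nat.mul (nat_lit 536870912) O)) (Nat.mul (nat_lit 8192) S)) (Nat.sub
    (Nat.add T1 (Nat.mul (nat_lit 3221225472) O)) (Nat.mul (nat_lit 8192) S)) (Nat.add (Nat.sub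
    (Nat.add T1 (Nat.mul (nat_lit 3221225472) O)) (Nat.mul (nat_lit 8192) S)) (tz Z HT)) pv ν A c t
    κ) (pv ν A c (Nat.shiftRight t (nat_lit 2)) κ) (Nat.beq (Nat.land (nat_lit 3) t) (nat_lit 0))))
    r1 κ) (@Bool.rec (fun _ => Bool) (@Bool.rec (fun _ => Bool) false (Nat.beq (Nat.add p q)
    (Nat.mul (nat_lit 16384) O)) (Nat.beq (Nat.land (nat_lit 4095) r) (nat_lit 304))) (@Bool.rec
    (fun _ => Bool) (Nat.beq (Nat.land G (Nat.sub (Nat.add G C) (Nat.add (Nat.mul (nat_lit 4096) S)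
    (Nat.mul (nat_lit 2415919104) O)))) G) true (Nat.beq (Nat.land (nat_lit 7) (Nat.shiftRight r
    (nat_lit 5))) (nat_lit 0))) (Nat.beq (Nat.land (nat_lit 16) r) (nat_lit 0))))) (fun (Xb Tb Yb cn
    : Nat) (pv : OT) (r : Nat) (κ : KT) (ih : RT) (H q Z Tc S um r1 : Nat) => (@Bool.rec (fun _ =>
    Bool) false (@Bool.rec (fun _ => Bool) false (ih q um (Nat.succ cn) (fun (ν A c t : Nat) (κ :
    Nat → Nat → Nat → Bool) => (@Bool.rec (fun _ => Bool) (oS Z (Nat.sub (Nat.add (Nat.mul (nat_lit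
    2) Tc) (Nat.mul (nat_lit 3221225472) O)) (Nat.mul (nat_lit 8192) S)) (Nat.sub (Nat.add Tb
    (Nat.mul (nat_lit 2130706432) O)) (Nat.mul (nat_lit 8192) (Nat.add S Xb))) (@Bool.rec (fun _ =>
    Nat) (lm (Nat.sub (Nat.add (Nat.mul (nat_lit 2) Tc) (Nat.mul (nat_lit 3221225472) O)) (Nat.mul
    (nat_lit 8192) S)) (capV O (Nat.land (nat_lit 15) (Nat.shiftRight r (nat_lit 4))) Tb (Nat.add S
    Xb))) (nat_lit 0) (Nat.beq (Nat.land (nat_lit 8) r) (nat_lit 0))) pv ν A c t κ) (pv ν A c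
    (Nat.shiftRight t (nat_lit 2)) κ) (Nat.beq (Nat.land (nat_lit 3) t) (nat_lit 0)))) r1 κ)
    (@Bool.rec (fun _ => Bool) (Nat.beq (Nat.land G (Nat.sub (Nat.add G (@Bool.rec (fun _ => Nat)
    (@Bool.rec (fun _ => Nat) (lm (Nat.sub (Nat.add (Nat.mul (nat_lit 2) Tc) (Nat.mul (nat_lit
    3221225472) O)) (Nat.mul (nat_lit 8192) S)) (capV O (Nat.land (nat_lit 15) (Nat.shiftRight r
    (nat_lit 4))) Tb (Nat.add S Xb))) (nat_lit 0) (Nat.beq (Nat.land (nat_lit 8) r) (nat_lit 0)))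
    (lm (Nat.sub (Nat.add (Nat.mul (nat_lit 2) Tc) (Nat.mul (nat_lit 3221225472) O)) (Nat.mul
    (nat_lit 8192) S)) (Nat.add (Nat.sub (Nat.add Tb (Nat.mul (nat_lit 2130706432) O)) (Nat.mul
    (nat_lit 8192) (Nat.add S Xb))) (Nat.mul (nat_lit 2) Tc))) (Nat.beq (Nat.land (nat_lit 512) r)
    (nat_lit 0)))) (Nat.mul (nat_lit 5368709120) O))) G) true (Nat.beq (Nat.land (nat_lit 7) r)
    (nat_lit 0)))) (@Bool.rec (fun _ => Bool) (Fast.capTF O G (Nat.land (nat_lit 15) (Nat.shiftRight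
    r (nat_lit 4))) (Fast.ls G (Nat.add Z (Nat.mul (nat_lit 2) H)) (Nat.mul (nat_lit 8192) O)) Yb
    (Fast.bt r (nat_lit 8))) true (Nat.beq (Nat.land (nat_lit 8) r) (nat_lit 0)))))) (fun (XS HT
    base r : Nat) (κ : Nat → Nat → Bool) => (@Nat.rec (fun _ => TT) (fun p q r κ => κ p q r) (tm XS
    HT) (Nat.land (nat_lit 7) (Nat.shiftRight r (nat_lit 18))) (Nat.add (@Bool.rec (fun _ => Nat)
    base (nat_lit 0) (Nat.beq (Nat.land (nat_lit 1) r) (nat_lit 0))) (Nat.mul (Nat.land (nat_lit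
    131071) (Nat.shiftRight r (nat_lit 1))) O)) (Nat.mul (nat_lit 32768) O) (Nat.shiftRight r
    (nat_lit 21)) (fun (p q t : Nat) => (@Bool.rec (fun _ => Bool) false (κ (Nat.sub p q) t)
    (Nat.beq (Nat.land G (Nat.land (Nat.sub (Nat.add G p) q) (Nat.sub (Nat.add G (Nat.mul (nat_lit
    16384) O)) (Nat.sub p q)))) G))))) (fun (Z R1 R2 R3 : Nat) (pv : OT) (ν A c r : Nat) (κ : Nat →
    Nat → Nat → Bool) => ((@Bool.rec (fun _ => CT) ob oa (Nat.beq (Nat.land (nat_lit 3) r) (nat_lit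
    1))) pv ν A c r κ (lm (lm R1 (Nat.add R2 (tz Z (av Ol Mu ν)))) (Nat.add R3 (Nat.mul (nat_lit
    4096) (av Ol Mu ν)))) (Nat.land (nat_lit 32767) r))) (fun (Z R1 R2 R3 : Nat) (pv : OT) (ν A c r
    : Nat) (κ : Nat → Nat → Nat → Bool) => ((@Bool.rec (fun _ => CT) ob oa (Nat.beq (Nat.land
    (nat_lit 3) r) (nat_lit 1))) pv ν A c r κ (@Bool.rec (fun _ => Nat) R3 (lm R1 (Nat.add R2
    (Nat.mul (nat_lit 2) (tz Z (av Ol Mu ν))))) (Nat.beq (Nat.land (nat_lit 4) r) (nat_lit 0)))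
    (Nat.land (nat_lit 32767) r))) (fun (XS Z T1 _j : Nat) (ih : FT) (pi S C um r : Nat) (κ : Nat →
    Nat → Nat → Nat → Bool) => (@Bool.rec (fun _ => Bool) false (ih (Nat.land (nat_lit 15) r)
    (Nat.add S (Nat.land MW (Nat.shiftRight XS (Nat.mul W (Nat.land (nat_lit 15) r))))) (lm C
    (Nat.sub (Nat.add (Nat.add T1 (Nat.mul (nat_lit 268435456) O)) (tz Z (Nat.land MW
    (Nat.shiftRight XS (Nat.mul W (Nat.land (nat_lit 15) r)))))) (Nat.mul (nat_lit 4096) (Nat.add S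
    (Nat.land MW (Nat.shiftRight XS (Nat.mul W (Nat.land (nat_lit 15) r)))))))) (Nat.lor um (Nat.pow
    (nat_lit 2) (Nat.land (nat_lit 15) r))) (Nat.shiftRight r (nat_lit 4)) κ) (Nat.beq (Nat.add
    (Nat.sub (Nat.succ pi) (Nat.land (nat_lit 15) r)) (Nat.sub (Nat.succ (Nat.land (nat_lit 15) r))
    k)) (nat_lit 0))))) (fun (X Y : Nat) => (Nat.sub X (Nat.land (Nat.sub (Nat.add G X) Y) (Nat.sub
    (Nat.land G (Nat.sub (Nat.add G X) Y)) (Nat.shiftRight (Nat.land G (Nat.sub (Nat.add G X) Y))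
    (nat_lit 47)))))) (fun (Z X : Nat) => (Nat.sub (Nat.mul (nat_lit 1090519040) O) (Nat.mod
    (Nat.land (Nat.add (Nat.add K4 (Nat.mul X A4)) (Nat.mul (Nat.land (Nat.add Z (Nat.add (Nat.mul
    (nat_lit 2) X) (Nat.sub G (Nat.mul (nat_lit 8192) O)))) (Nat.sub (Nat.land G (Nat.add Z (Nat.add
    (Nat.mul (nat_lit 2) X) (Nat.sub G (Nat.mul (nat_lit 8192) O))))) (Nat.shiftRight (Nat.land G
    (Nat.add Z (Nat.add (Nat.mul (nat_lit 2) X) (Nat.sub G (Nat.mul (nat_lit 8192) O))))) (nat_lit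
    47)))) B4)) (Nat.sub (Nat.land G4 (Nat.add (Nat.add K4 (Nat.mul X A4)) (Nat.mul (Nat.land
    (Nat.add Z (Nat.add (Nat.mul (nat_lit 2) X) (Nat.sub G (Nat.mul (nat_lit 8192) O)))) (Nat.sub
    (Nat.land G (Nat.add Z (Nat.add (Nat.mul (nat_lit 2) X) (Nat.sub G (Nat.mul (nat_lit 8192)
    O))))) (Nat.shiftRight (Nat.land G (Nat.add Z (Nat.add (Nat.mul (nat_lit 2) X) (Nat.sub G
    (Nat.mul (nat_lit 8192) O))))) (nat_lit 47)))) B4))) (Nat.shiftRight (Nat.land G4 (Nat.add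
    (Nat.add K4 (Nat.mul X A4)) (Nat.mul (Nat.land (Nat.add Z (Nat.add (Nat.mul (nat_lit 2) X)
    (Nat.sub G (Nat.mul (nat_lit 8192) O)))) (Nat.sub (Nat.land G (Nat.add Z (Nat.add (Nat.mul
    (nat_lit 2) X) (Nat.sub G (Nat.mul (nat_lit 8192) O))))) (Nat.shiftRight (Nat.land G (Nat.add Z
    (Nat.add (Nat.mul (nat_lit 2) X) (Nat.sub G (Nat.mul (nat_lit 8192) O))))) (nat_lit 47)))) B4)))
    (nat_lit 47)))) MW))) (fun (pv : OT) (ν A c r : Nat) (κ : Nat → Nat → Nat → Bool) (M o : Nat) =>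
    (@Bool.rec (fun _ => Bool) false (pv ν (Nat.add A (Nat.add (Nat.mul (lo ν) M) (Nat.add (ca Ol ν)
    (Nat.mul (Nat.sub (Nat.add (nat_lit 4398046511104) (Nat.mul (Nat.land (nat_lit 4095)
    (Nat.shiftRight o (nat_lit 3))) (cw ν))) (cb ν)) Mu)))) (Nat.succ c) (Nat.shiftRight r (nat_lit
    15)) κ) (Nat.beq (Nat.land G (Nat.sub (Nat.add M (ch O G Ol Mu ν)) (Nat.mul (Nat.land (nat_lit
    4095) (Nat.shiftRight o (nat_lit 3))) (Nat.mul (nat_lit 16384) O)))) G))) (fun (pv : OT) (ν A c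
    r : Nat) (κ : Nat → Nat → Nat → Bool) (M o : Nat) => (pv ν (Nat.add A (Nat.sub (Nat.add (Nat.mul
    (Nat.shiftRight o (nat_lit 6)) M) (Nat.add (Nat.mul (Nat.sub (nat_lit 4398046511104) (Nat.mul
    (Nat.shiftRight o (nat_lit 6)) (Nat.add (k1 ν) (Nat.mul (nat_lit 65536) (Nat.mul (Nat.land
    (nat_lit 7) (Nat.shiftRight o (nat_lit 3))) (Nat.shiftRight o (nat_lit 6))))))) Ol) (Nat.mul
    (Nat.sub (nat_lit 4398046511104) (Nat.mul (Nat.shiftRight o (nat_lit 6)) (Nat.add (k2 ν)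
    (Nat.mul (nat_lit 65536) (Nat.mul (Nat.land (nat_lit 7) (Nat.shiftRight o (nat_lit 3)))
    (Nat.shiftRight o (nat_lit 6))))))) Mu))) (Nat.land (Nat.sub (Nat.add G (Nat.add (Nat.mul
    (Nat.shiftRight o (nat_lit 6)) M) (Nat.add (Nat.mul (Nat.sub (nat_lit 4398046511104) (Nat.mul
    (Nat.shiftRight o (nat_lit 6)) (Nat.add (k1 ν) (Nat.mul (nat_lit 65536) (Nat.mul (Nat.land
    (nat_lit 7) (Nat.shiftRight o (nat_lit 3))) (Nat.shiftRight o (nat_lit 6))))))) Ol) (Nat.mul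
    (Nat.sub (nat_lit 4398046511104) (Nat.mul (Nat.shiftRight o (nat_lit 6)) (Nat.add (k2 ν)
    (Nat.mul (nat_lit 65536) (Nat.mul (Nat.land (nat_lit 7) (Nat.shiftRight o (nat_lit 3)))
    (Nat.shiftRight o (nat_lit 6))))))) Mu)))) (Nat.add (Nat.mul (Nat.sub (Nat.add (nat_lit
    4398046511104) (Nat.mul (Nat.succ (Nat.land (nat_lit 7) (Nat.shiftRight o (nat_lit 3)))) (u0
    ν))) (Nat.mul (Nat.succ (Nat.land (nat_lit 7) (Nat.shiftRight o (nat_lit 3)))) (u1 ν))) Ol)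
    (Nat.mul (Nat.add (nat_lit 4398046511104) (Nat.mul (Nat.succ (Nat.land (nat_lit 7)
    (Nat.shiftRight o (nat_lit 3)))) (u2 ν))) Mu))) (Nat.sub (Nat.land G (Nat.sub (Nat.add G
    (Nat.add (Nat.mul (Nat.shiftRight o (nat_lit 6)) M) (Nat.add (Nat.mul (Nat.sub (nat_lit
    4398046511104) (Nat.mul (Nat.shiftRight o (nat_lit 6)) (Nat.add (k1 ν) (Nat.mul (nat_lit 65536)
    (Nat.mul (Nat.land (nat_lit 7) (Nat.shiftRight o (nat_lit 3))) (Nat.shiftRight o (nat_lit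
    6))))))) Ol) (Nat.mul (Nat.sub (nat_lit 4398046511104) (Nat.mul (Nat.shiftRight o (nat_lit 6))
    (Nat.add (k2 ν) (Nat.mul (nat_lit 65536) (Nat.mul (Nat.land (nat_lit 7) (Nat.shiftRight o
    (nat_lit 3))) (Nat.shiftRight o (nat_lit 6))))))) Mu)))) (Nat.add (Nat.mul (Nat.sub (Nat.add
    (nat_lit 4398046511104) (Nat.mul (Nat.succ (Nat.land (nat_lit 7) (Nat.shiftRight o (nat_lit
    3)))) (u0 ν))) (Nat.mul (Nat.succ (Nat.land (nat_lit 7) (Nat.shiftRight o (nat_lit 3)))) (u1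
    ν))) Ol) (Nat.mul (Nat.add (nat_lit 4398046511104) (Nat.mul (Nat.succ (Nat.land (nat_lit 7)
    (Nat.shiftRight o (nat_lit 3)))) (u2 ν))) Mu)))) (Nat.shiftRight (Nat.land G (Nat.sub (Nat.add G
    (Nat.add (Nat.mul (Nat.shiftRight o (nat_lit 6)) M) (Nat.add (Nat.mul (Nat.sub (nat_lit
    4398046511104) (Nat.mul (Nat.shiftRight o (nat_lit 6)) (Nat.add (k1 ν) (Nat.mul (nat_lit 65536)
    (Nat.mul (Nat.land (nat_lit 7) (Nat.shiftRight o (nat_lit 3))) (Nat.shiftRight o (nat_lit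
    6))))))) Ol) (Nat.mul (Nat.sub (nat_lit 4398046511104) (Nat.mul (Nat.shiftRight o (nat_lit 6))
    (Nat.add (k2 ν) (Nat.mul (nat_lit 65536) (Nat.mul (Nat.land (nat_lit 7) (Nat.shiftRight o
    (nat_lit 3))) (Nat.shiftRight o (nat_lit 6))))))) Mu)))) (Nat.add (Nat.mul (Nat.sub (Nat.add
    (nat_lit 4398046511104) (Nat.mul (Nat.succ (Nat.land (nat_lit 7) (Nat.shiftRight o (nat_lit
    3)))) (u0 ν))) (Nat.mul (Nat.succ (Nat.land (nat_lit 7) (Nat.shiftRight o (nat_lit 3)))) (u1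
    ν))) Ol) (Nat.mul (Nat.add (nat_lit 4398046511104) (Nat.mul (Nat.succ (Nat.land (nat_lit 7)
    (Nat.shiftRight o (nat_lit 3)))) (u2 ν))) Mu)))) (nat_lit 47)))))) (Nat.succ c) (Nat.shiftRight
    r (nat_lit 15)) κ)) (fun (XS HT _j : Nat) (ih : TT) (p q r : Nat) (κ : Nat → Nat → Nat → Bool)
    => (@Bool.rec (fun _ => Bool) false (@Bool.rec (fun _ => Bool) (ih p (Nat.add q (Nat.mul
    (Nat.land (nat_lit 15) (Nat.shiftRight r (nat_lit 5))) (@Bool.rec (fun _ => Nat) (Nat.land MW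
    (Nat.shiftRight XS (Nat.mul W (Nat.land (nat_lit 15) r)))) HT (Nat.beq (Nat.land (nat_lit 15) r)
    (nat_lit 15))))) (Nat.shiftRight r (nat_lit 9)) κ) (ih (Nat.add p (Nat.mul (Nat.land (nat_lit
    15) (Nat.shiftRight r (nat_lit 5))) (@Bool.rec (fun _ => Nat) (Nat.land MW (Nat.shiftRight XS
    (Nat.mul W (Nat.land (nat_lit 15) r)))) HT (Nat.beq (Nat.land (nat_lit 15) r) (nat_lit 15))))) q
    (Nat.shiftRight r (nat_lit 9)) κ) (Nat.beq (Nat.land (nat_lit 16) r) (nat_lit 0))) (Nat.beq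
    (Nat.land (nat_lit 1) (Nat.shiftRight V (Nat.land (nat_lit 15) r))) (nat_lit 1)))) (fun (XS _j :
    Nat) (ih : ST) (pi S um r : Nat) (κ : Nat → Nat → Nat → Bool) => (@Bool.rec (fun _ => Bool)
    false (ih (Nat.land (nat_lit 15) r) (Nat.add S (Nat.land MW (Nat.shiftRight XS (Nat.mul W
    (Nat.land (nat_lit 15) r))))) (Nat.lor um (Nat.pow (nat_lit 2) (Nat.land (nat_lit 15) r)))
    (Nat.shiftRight r (nat_lit 4)) κ) (Nat.beq (Nat.add (Nat.sub (Nat.succ pi) (Nat.land (nat_lit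
    15) r)) (Nat.sub (Nat.succ (Nat.land (nat_lit 15) r)) k)) (nat_lit 0)))) (fun (XS : Nat) (pv :
    OT) (B0 IR XR s0 TM TG TD TI TO : Nat) (ih : Nat → Nat → Bool) (r h ν : Nat) => (@Bool.rec (fun
    _ => Bool) false (@Bool.rec (fun _ => Bool) false (pv ν (Nat.add (Nat.add B0 (Nat.mul (Nat.land
    (nat_lit 1023) (Nat.shiftRight h (nat_lit 3))) IR)) (Nat.add (Nat.mul (Nat.land (nat_lit 65535)
    (Nat.shiftRight h (nat_lit 23))) (Nat.mul (nat_lit 65536) Ol)) (Nat.mul (Nat.land (nat_lit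
    65535) (Nat.shiftRight h (nat_lit 39))) (Nat.mul (nat_lit 65536) Mu)))) (nat_lit 0)
    (Nat.shiftRight r (nat_lit 61)) (fun (A c t : Nat) => (@Bool.rec (fun _ => Bool) false (ih (nx
    ν) t) (@Bool.rec (fun _ => Bool) (cq k G Ol Mu W MW XS ν A (Nat.add (Nat.mul c (Nat.mul (nat_lit
    4398046511104) O)) (Nat.mul (Nat.land (nat_lit 1023) (Nat.shiftRight h (nat_lit 13))) XR))
    (Nat.land (nat_lit 3) (Nat.shiftRight h (nat_lit 55))) (Nat.shiftRight h (nat_lit 57))) (Nat.beq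
    (Nat.land G (Nat.sub A (Nat.add (Nat.mul c (Nat.mul (nat_lit 4398046511104) O)) (Nat.mul
    (Nat.land (nat_lit 1023) (Nat.shiftRight h (nat_lit 13))) XR)))) G) (Nat.beq (Nat.land (nat_lit
    3) (Nat.shiftRight h (nat_lit 55))) (nat_lit 0)))))) (Nat.beq (Nat.land TG (Nat.sub (Nat.add
    (Nat.add (Nat.land TM (Nat.shiftRight (tb (rho ν)) (Nat.add s0 (so ν)))) TG) (Nat.mul (Nat.land
    (nat_lit 1023) (Nat.shiftRight h (nat_lit 13))) TD)) (Nat.add (Nat.mul (Nat.land (nat_lit 1023)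
    (Nat.shiftRight h (nat_lit 3))) TI) (Nat.mul (Nat.add (Nat.land (nat_lit 65535) (Nat.shiftRight
    h (nat_lit 23))) (Nat.shiftLeft (Nat.land (nat_lit 65535) (Nat.shiftRight h (nat_lit 39)))
    (nat_lit 32))) TO)))) TG)) (okk ν)))

/-- Ones. -/
noncomputable def on (n : Nat) :
    Nat :=
  (Nat.div (Nat.sub (Nat.pow (nat_lit 2) (Nat.mul (nat_lit 48) n)) (nat_lit 1)) (nat_lit
    281474976710655))

/-- One coordinate. -/
noncomputable def gk2 (κ : GK) (O nf : Nat) (pp : PT) (e T U2 w M : Nat) :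
    U :=
  (κ T U2 O nf (fun (Lv Uv XS av ac : Nat) (κ : Nat → Nat → Nat → Bool) => (pp (Nat.shiftRight Lv
    (nat_lit 26)) (Nat.shiftRight Uv (nat_lit 26)) (Nat.add XS (Nat.shiftLeft (Nat.add (Nat.mul
    (Nat.land (nat_lit 8191) Lv) O) (Nat.mul (Nat.sub (Nat.land (nat_lit 8191) Uv) (Nat.land
    (nat_lit 8191) Lv)) M)) w)) (Nat.add av (Nat.mul (Nat.add (Nat.land (nat_lit 8191) Lv) (Nat.land
    (nat_lit 8191) Uv)) (Nat.add (Nat.mul (Nat.land (nat_lit 8191) Lv) O) (Nat.mul (Nat.sub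
    (Nat.land (nat_lit 8191) Uv) (Nat.land (nat_lit 8191) Lv)) M)))) (Nat.add ac (Nat.mul (Nat.add
    (Nat.land (nat_lit 8191) Lv) (Nat.land (nat_lit 8191) Uv)) (Nat.add (Nat.land (nat_lit 8191) Lv)
    (Nat.land (nat_lit 8191) Uv)))) κ)) (Nat.add e (Nat.xor M (Nat.land M O))))

/-- The indicator of one coordinate. -/
noncomputable def gk (κ : GK) (j n s T T2 O nf : Nat) (pp : PT) (e : Nat) :
    U :=
  (gk2 κ O nf pp e (@Bool.rec (fun _ => Nat) T (Nat.add T (Nat.shiftLeft T2 (Nat.mul (nat_lit 48)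
    (Nat.sub n s)))) (Nat.beq s (nat_lit 0))) (Nat.add T (Nat.shiftLeft T2 (Nat.mul (nat_lit 48)
    (Nat.sub n s)))) (Nat.mul (Nat.mul (nat_lit 96) nf) j) (Nat.shiftLeft (Nat.mul (on (Nat.sub n
    s)) T2) (Nat.mul (nat_lit 48) n)))

/-- Pass over the pattern. -/
noncomputable def go (fuel : Nat) :
    Nat → Nat → Nat → Nat → GK → U :=
  @Nat.rec (fun _ => Nat → Nat → Nat → Nat → GK → U) (fun _ _ n _ κ => (@Nat.rec (fun _ => U)
    (U.mk fun _ _ _ _ => false) (fun n _ => (@Nat.rec (fun _ => U) (U.mk fun _ _ _ _ => false) (fun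
    O _ => (κ (Nat.add (nat_lit 1) (Nat.pow (nat_lit 2) (Nat.mul (nat_lit 48) n))) (Nat.add (nat_lit
    1) (Nat.pow (nat_lit 2) (Nat.mul (nat_lit 48) n))) O n (fun _ _ XS av ac κ => κ XS av ac)
    (nat_lit 0))) (Nat.succ (on (Nat.mul (nat_lit 2) n))))) (Nat.succ n))) (fun _ ih p j n m κ => ih
    (Nat.shiftRight p (nat_lit 26)) (Nat.succ j) (Nat.sub (Nat.mul (nat_lit 2) n) (Nat.mul (Nat.sub
    (nat_lit 1) (Nat.land (nat_lit 1) p)) m)) n (gk κ j n (Nat.mul (Nat.sub (nat_lit 1) (Nat.land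
    (nat_lit 1) p)) m))) fuel

/-- Four blocks. -/
noncomputable def p4 (W a b c d : Nat) :
    Nat :=
  (Nat.add (Nat.add a (Nat.shiftLeft b W)) (Nat.shiftLeft (Nat.add c (Nat.shiftLeft d W)) (Nat.mul
    (nat_lit 2) W)))

/-- Zero if the four lines are in convex position. -/
noncomputable def eP (a1 b1 a2 b2 a3 b3 a4 b4 : Nat) :
    Nat :=
  (Nat.add (Nat.add (Nat.add (Nat.xor a1 (nat_lit 1024)) (Nat.add (Nat.sub a1 a2) (Nat.add
    (Nat.sub a2 a3) (Nat.add (Nat.sub a3 a4) (Nat.shiftRight a4 (nat_lit 14)))))) (Nat.add (Nat.sub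
    b1 b2) (Nat.add (Nat.sub (Nat.succ b2) b3) (Nat.add (Nat.sub b3 b4) (Nat.shiftRight b4 (nat_lit
    15)))))) (Nat.add (Nat.sub (Nat.mul (Nat.sub a2 a1) (Nat.sub b3 b2)) (Nat.mul (Nat.sub a3 a2)
    (Nat.sub b2 b1))) (Nat.sub (Nat.mul (Nat.sub a3 a2) (Nat.sub b4 b3)) (Nat.mul (Nat.sub a4 a3)
    (Nat.sub b3 b2)))))

/-- Constants. -/
noncomputable def mk3 (tb : Nat → Nat) (a1 b1 a2 b2 a3 b3 a4 b4 k O G Ol W : Nat) (pp : PT) :
    U :=
  (mk2 tb k O G (Nat.sub O Ol) Ol W (Nat.sub (Nat.pow (nat_lit 2) W) (nat_lit 1)) (Nat.add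
    (nat_lit 32767) (Nat.pow (nat_lit 2) k)) (p4 W G G G G) (Nat.sub (p4 W G G G G) (Nat.mul
    (Nat.mul (nat_lit 4096) O) (p4 W (nat_lit 0) (Nat.mul (nat_lit 4) (Nat.sub a2 a1)) (Nat.mul
    (nat_lit 4) (Nat.sub a3 a2)) (Nat.mul (nat_lit 4) (Nat.sub a4 a3))))) (p4 W (nat_lit 0) (Nat.mul
    (nat_lit 4) (Nat.sub a2 a1)) (Nat.mul (nat_lit 4) (Nat.sub a3 a2)) (Nat.mul (nat_lit 4) (Nat.sub
    a4 a3))) (p4 W b1 (Nat.sub b2 b1) (Nat.sub b3 b2) (Nat.sub b4 b3)) pp)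

/-- Tests of the pattern and of the profile. -/
noncomputable def mk4 (tb : Nat → Nat) (a1 b1 a2 b2 a3 b3 a4 b4 k _T _T2 O n : Nat) (pp : PT) (e : Nat) :
    U :=
  (@Bool.rec (fun _ => U) (U.mk fun _ _ _ _ => false) (@Nat.rec (fun _ => U) (U.mk fun _ _ _ _ =>
    false) (fun G _ => (mk3 tb a1 b1 a2 b2 a3 b3 a4 b4 k O G (on n) (Nat.mul (nat_lit 96) n) pp))
    (Nat.succ (Nat.shiftLeft O (nat_lit 47)))) (Nat.beq (Nat.add (eP a1 b1 a2 b2 a3 b3 a4 b4)
    (Nat.add (Nat.sub (nat_lit 1) k) e)) (nat_lit 0)))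

/-- The check for the key `kp`. -/
noncomputable def mk1 (P : Prof) (tb : Nat → Nat) (kp : Nat) :
    U :=
  @Prof.rec (fun _ => U) (fun a1 b1 a2 b2 a3 b3 a4 b4 => (go (Nat.land (nat_lit 15) kp)
    (Nat.shiftRight kp (nat_lit 25)) (nat_lit 0) (nat_lit 1) (nat_lit 0) (mk4 tb a1 b1 a2 b2 a3 b3
    a4 b4 (Nat.land (nat_lit 15) kp)))) P

/-- Ones. -/
noncomputable def bO  :
    Nat :=
  nat_lit
    0x40000010000004000001000000400000100000040000010000004000001000000400000100000040000010000004000001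

/-- Guards. -/
noncomputable def bG  :
    Nat :=
  nat_lit
    0x80000020000008000002000000800000200000080000020000008000002000000800000200000080000020000008000002000000

/-- One end in each lane. -/
noncomputable def bM  :
    Nat :=
  nat_lit
    0x7ffc001fff0007ffc001fff0007ffc001fff0007ffc001fff0007ffc001fff0007ffc001fff0007ffc001fff0007ffc001fff

/-- Guards and bound. -/
noncomputable def bU  :
    Nat :=
  nat_lit
    0x80040020010008004002001000800400200100080040020010008004002001000800400200100080040020010008004002001000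

/-- Test for zero. -/
noncomputable def bZ  :
    Nat :=
  nat_lit
    0x7fffffdffffff7fffffdffffff7fffffdffffff7fffffdffffff7fffffdffffff7fffffdffffff7fffffdffffff7fffffdffffff

/-- A leaf from the two vectors of ends. -/
noncomputable def leaf1 (P : Prof) (tb : Nat → Nat) (k X r Lv Uv : Nat) :
    Bool :=
  (@Bool.rec (fun _ => Bool) false (@Nat.rec (fun _ => Bool) false (fun kp _ => (mk1 P tb kp).f X
    Lv Uv r) (Nat.succ (Nat.add k (Nat.land bG (Nat.add bZ (Nat.add (Nat.xor Lv (Nat.shiftLeft Lv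
    (nat_lit 26))) (Nat.xor Uv (Nat.shiftLeft Uv (nat_lit 26))))))))) (Nat.beq (Nat.land bG
    (Nat.land (Nat.sub (Nat.add bG Uv) Lv) (Nat.sub bU Uv))) bG))

/-- A leaf. -/
noncomputable def leafF (P : Prof) (tb : Nat → Nat) (k X r : Nat) :
    Bool :=
  (leaf1 P tb k X r (Nat.land bM X) (Nat.land bM (Nat.shiftRight X (nat_lit 13))))

/-- Lower the upper ends. -/
noncomputable def cutU (i m X : Nat) :
    Nat :=
  (Nat.sub X (Nat.shiftLeft (Nat.land (Nat.sub (Nat.add bG (Nat.land bM (Nat.shiftRight X (Nat.add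
    (nat_lit 13) (Nat.mul (nat_lit 26) i))))) (Nat.mul m bO)) (Nat.sub (Nat.land bG (Nat.sub
    (Nat.add bG (Nat.land bM (Nat.shiftRight X (Nat.add (nat_lit 13) (Nat.mul (nat_lit 26) i)))))
    (Nat.mul m bO))) (Nat.shiftRight (Nat.land bG (Nat.sub (Nat.add bG (Nat.land bM (Nat.shiftRight
    X (Nat.add (nat_lit 13) (Nat.mul (nat_lit 26) i))))) (Nat.mul m bO))) (nat_lit 25)))) (Nat.add
    (nat_lit 13) (Nat.mul (nat_lit 26) i))))

/-- Raise the lower ends. -/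
noncomputable def cutL (i m X : Nat) :
    Nat :=
  (Nat.add X (Nat.land (Nat.sub (Nat.add (Nat.shiftLeft (Nat.shiftRight bO (Nat.mul (nat_lit 26)
    (Nat.sub (nat_lit 15) i))) (nat_lit 25)) (Nat.mul m (Nat.shiftRight bO (Nat.mul (nat_lit 26)
    (Nat.sub (nat_lit 15) i))))) (Nat.land (Nat.mul (nat_lit 8191) (Nat.shiftRight bO (Nat.mul
    (nat_lit 26) (Nat.sub (nat_lit 15) i)))) X)) (Nat.sub (Nat.land (Nat.shiftLeft (Nat.shiftRight
    bO (Nat.mul (nat_lit 26) (Nat.sub (nat_lit 15) i))) (nat_lit 25)) (Nat.sub (Nat.add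
    (Nat.shiftLeft (Nat.shiftRight bO (Nat.mul (nat_lit 26) (Nat.sub (nat_lit 15) i))) (nat_lit 25))
    (Nat.mul m (Nat.shiftRight bO (Nat.mul (nat_lit 26) (Nat.sub (nat_lit 15) i))))) (Nat.land
    (Nat.mul (nat_lit 8191) (Nat.shiftRight bO (Nat.mul (nat_lit 26) (Nat.sub (nat_lit 15) i))))
    X))) (Nat.shiftRight (Nat.land (Nat.shiftLeft (Nat.shiftRight bO (Nat.mul (nat_lit 26) (Nat.sub
    (nat_lit 15) i))) (nat_lit 25)) (Nat.sub (Nat.add (Nat.shiftLeft (Nat.shiftRight bO (Nat.mul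
    (nat_lit 26) (Nat.sub (nat_lit 15) i))) (nat_lit 25)) (Nat.mul m (Nat.shiftRight bO (Nat.mul
    (nat_lit 26) (Nat.sub (nat_lit 15) i))))) (Nat.land (Nat.mul (nat_lit 8191) (Nat.shiftRight bO
    (Nat.mul (nat_lit 26) (Nat.sub (nat_lit 15) i)))) X))) (nat_lit 25)))))

/-- Cap, deepen, prune. -/
noncomputable def rare (ih : TK) (k X s r : Nat) (κ : Nat → Bool) :
    Bool :=
  (@Bool.rec (fun _ => Bool) (@Bool.rec (fun _ => Bool) (@Bool.rec (fun _ => Bool) false (κ s)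
    (Nat.ble (nat_lit 8388609) (arL (unp k X)))) (@Bool.rec (fun _ => Bool) false (ih (Nat.succ k)
    (Nat.add X (Nat.shiftLeft (Nat.land (nat_lit 8191) (Nat.shiftRight X (Nat.sub (Nat.mul (nat_lit
    26) k) (nat_lit 13)))) (Nat.add (nat_lit 13) (Nat.mul (nat_lit 26) k)))) s (Nat.shiftRight r
    (nat_lit 2)) κ) (Nat.beq (Nat.add (Nat.sub (nat_lit 1) k) (Nat.sub k (nat_lit 14))) (nat_lit
    0))) (Nat.beq (Nat.land (nat_lit 3) r) (nat_lit 2))) (@Bool.rec (fun _ => Bool) false (@Bool.rec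
    (fun _ => Bool) false (ih k (cutU (Nat.land (nat_lit 15) (Nat.shiftRight (Nat.land (nat_lit
    262143) r) (nat_lit 2))) (Nat.shiftRight (Nat.land (nat_lit 262143) r) (nat_lit 6)) X) s
    (Nat.shiftRight r (nat_lit 18)) κ) (Nat.ble (nat_lit 8388609) (arL (unp k (cutL (Nat.land
    (nat_lit 15) (Nat.shiftRight (Nat.land (nat_lit 262143) r) (nat_lit 2))) (Nat.shiftRight
    (Nat.land (nat_lit 262143) r) (nat_lit 6)) X))))) (Nat.ble (Nat.succ (Nat.land (nat_lit 15)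
    (Nat.shiftRight (Nat.land (nat_lit 262143) r) (nat_lit 2)))) k)) (Nat.beq (Nat.land (nat_lit 3)
    r) (nat_lit 1)))

/-- One operation. -/
noncomputable def tokS (lf : Nat → Nat → Nat → Bool) (ih : TK) (k X s r : Nat) (κ : Nat → Bool) :
    Bool :=
  (@Bool.rec (fun _ => Bool) (@Bool.rec (fun _ => Bool) (rare ih k X s r κ) (@Bool.rec (fun _ =>
    Bool) false (κ s) (lf k X (Nat.shiftRight r (nat_lit 3)))) (Nat.beq (Nat.land (nat_lit 7) r)
    (nat_lit 7))) (@Bool.rec (fun _ => Bool) false (ih k (cutU (Nat.land (nat_lit 15)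
    (Nat.shiftRight (Nat.land (nat_lit 262143) r) (nat_lit 2))) (Nat.shiftRight (Nat.land (nat_lit
    262143) r) (nat_lit 6)) X) (Nat.add k (Nat.shiftLeft (Nat.add (cutL (Nat.land (nat_lit 15)
    (Nat.shiftRight (Nat.land (nat_lit 262143) r) (nat_lit 2))) (Nat.shiftRight (Nat.land (nat_lit
    262143) r) (nat_lit 6)) X) (Nat.shiftLeft s (Nat.mul (nat_lit 26) k))) (nat_lit 4)))
    (Nat.shiftRight r (nat_lit 18)) κ) (Nat.ble (Nat.succ (Nat.land (nat_lit 15) (Nat.shiftRight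
    (Nat.land (nat_lit 262143) r) (nat_lit 2)))) k)) (Nat.beq (Nat.land (nat_lit 3) r) (nat_lit 0)))

/-- One token. -/
noncomputable def tok (lf : Nat → Nat → Nat → Bool) (fuel : Nat) :
    TK :=
  @Nat.rec (fun _ => TK) (fun _ _ _ _ _ => false) (fun _ => tokS lf) fuel

/-- Run the tokens on the packed stack. -/
noncomputable def runP (lf : Nat → Nat → Nat → Bool) (e : Nat) (ts : List Nat) :
    Nat → Bool :=
  @List.rec Nat (fun _ => Nat → Bool) (fun s => (Nat.beq s e)) (fun t _ ih s => (tokS lf (tokS lf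
    (tok lf (nat_lit 198))) (Nat.land (nat_lit 15) s) (Nat.land (Nat.sub (Nat.pow (nat_lit 2)
    (Nat.mul (nat_lit 26) (Nat.land (nat_lit 15) s))) (nat_lit 1)) (Nat.shiftRight s (nat_lit 4)))
    (Nat.shiftRight (Nat.shiftRight s (nat_lit 4)) (Nat.mul (nat_lit 26) (Nat.land (nat_lit 15) s)))
    t ih)) ts

/-- Row `r` of record `n` with the two middle entries of each lane exchanged. -/
def tcOf (tb : Nat → Nat) (n r : Nat) : Nat :=
  Nat.add (Nat.add
    (Nat.land (Nat.shiftRight (tb n) (Nat.mul 8256 (Nat.sub r 1)))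
      (Nat.mul 18446462598732906495 (ones 64 129)))
    (Nat.mul 65536 (Nat.land (Nat.shiftRight (Nat.shiftRight (tb n) (Nat.mul 8256 (Nat.sub r 1))) 32)
      (Nat.mul 65535 (ones 64 129)))))
    (Nat.mul 4294967296 (Nat.land
      (Nat.shiftRight (Nat.shiftRight (tb n) (Nat.mul 8256 (Nat.sub r 1))) 16)
      (Nat.mul 65535 (ones 64 129))))

/-- Read a packed stack. -/
noncomputable def decN (fuel : Nat) : Nat → List Box :=
  @Nat.rec (fun _ => Nat → List Box) (fun _ => [])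
    (fun _ ih s => cond (Nat.beq s 0) [] (unp (Nat.land 15 s) (Nat.shiftRight s 4) ::
      ih (Nat.shiftRight (Nat.shiftRight s 4) (Nat.mul 26 (Nat.land 15 s))))) fuel

/-- Read a packed stack. -/
noncomputable def dec (s : Nat) : List Box := decN s s

/-- Every property preserved by `runP` passes from the stack `e` to the stack `s`. -/
def RunOK (lf : Nat → Nat → Nat → Bool) (s e : Nat) : Prop :=
  ∀ G : Nat → Prop, (∀ e ts s, runP lf e ts s = true → G e → G s) → G e → G s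

theorem RunOK.refl {lf : Nat → Nat → Nat → Bool} {s : Nat} : RunOK lf s s := fun _ _ h => h

theorem RunOK.step {lf : Nat → Nat → Nat → Bool} {s e : Nat} (ts : List Nat) (m : Nat)
    (h : runP lf m ts s = true) (r : RunOK lf m e) : RunOK lf s e :=
  fun G hG he => hG _ _ _ h (r G hG he)

theorem RunOK.trans {lf : Nat → Nat → Nat → Bool} {s m e : Nat} (h : RunOK lf s m)
    (r : RunOK lf m e) : RunOK lf s e := fun G hG he => h G hG (r G hG he)

end Fast2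

end Pool.Agent.MP_34f9b1_co.Sym
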