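import Pool.Agent.MP_34f9b1_co.Sym.LChk
import Mathlib.Data.List.Perm.Subperm
import Mathlib.Data.Nat.Bitwise

-- ======== part 0: formerly Pool.Agent.MP_34f9b1_co.Sym.Spec4
section MrgPart0

namespace Pool.Agent.MP_34f9b1_co.Sym

open Leaf

/-- The list `l` (padded with zeros) lies in the box `b`. -/
def InB (b : Box) (l : List ℝ) : Prop :=
  ∀ i < b.length, ((b.getD i (0, 0)).1 : ℝ) ≤ 4096 * l.getD i 0 ∧
    4096 * l.getD i 0 ≤ (b.getD i (0, 0)).2

/-- Every long sorted list of area at most one half in the box can be packed. -/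
def Good (P : Prof) (b : Box) : Prop :=
  ∀ E, Ext P E → ∀ l, Srt l → sqs l ≤ 1 / 2 → 16 ≤ l.length → InB b l → Pk E (fun _ => True) l

/-- TREE. -/
def TreeStmt : Prop :=
  ∀ P : Prof, (Good P [(0, 4096)] → PackP P) ∧
    ∀ lf : Box → ℕ → Bool, (∀ b r, lf b r = true → Good P b) →
      ∀ e ts st, Tree.run lf e ts st = true → (∀ b ∈ e, Good P b) → ∀ b ∈ st, Good P b

/-- `Ol` and `Mu` split the lanes, and every value in `[0, 1]` is a mean of `Mu`. -/
def Tv (c : Cx) (Ol Mu : ℕ) : Prop :=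
  (∀ i, dg 48 Ol i + dg 48 Mu i = if i < c.n then 1 else 0) ∧
    ∀ f : ℝ, 0 ≤ f → f ≤ 1 → ∃ ω ∈ c.W, ev 48 c.n ω Mu = f

/-- VEC: a point of a box is a mean of the vertices. -/
def VecStmt : Prop :=
  ∀ (b : Box) (l : List ℝ), okB b = true → Srt l → InB b l →
    ∃ c : Cx, c.w = 48 ∧ c.n = (nv (pat b 0 4097 4097) (b.length + 1)).1 ∧
      (∀ i < b.length, Eqv c (nth (vecs (pat b 0 4097 4097) (ones 48 c.n) b 0 b.length) i)
        (4096 * l.getD i 0) 4096) ∧
      Tv c (Nat.sub (ones 48 c.n) (mk (pat b 0 4097 4097) b.length 0))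
        (mk (pat b 0 4097 4097) b.length 0)

/-- The fixed data of a leaf: `a i` are the explicit sizes, `m` bounds the other sizes. -/
structure Ctx where
  P : Prof
  c : Cx
  xs : List ℕ
  k : ℕ
  HT : ℕ
  a : ℕ → ℝ
  ht : ℝ
  m : ℝ
  w48 : c.w = 48
  bd : P.bd = true
  k15 : k ≤ 15
  xe : ∀ i < k, Eqv c (nth xs i) (4096 * a i) 4096
  he : Eqv c HT (4096 * ht) 4096
  anti : ∀ i j, i ≤ j → j < k → a j ≤ a i
  ma : ∀ i < k, m ≤ a i
  m0 : 0 ≤ m
  mh : m ≤ ht
  two : 1 < k → a 0 + a 1 ≤ 1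

/-- The vector `X` represents the level `x`. -/
def Lev (c : Cx) (X : ℕ) (x : ℝ) : Prop := Eqv c X (16384 * (x + 1 / 2)) 16384

/-- The explicit sizes selected by the mask `um`. -/
noncomputable def pcs (k : ℕ) (a : ℕ → ℝ) (um : ℕ) : List ℝ :=
  ((List.range k).filter fun i => um.testBit i).map a

/-- The record `w` bounds the residual length `D` from below. -/
def RwOK (P : Prof) (c : Cx) (m : ℝ) (w : Rw) (D : ℝ → ℝ) : Prop :=
  ∃ z x1 x2 x3 : ℝ, Hi c w.z (16384 * (z + 1 / 2)) 16384 ∧ Lo c w.r1 x1 5502926848 ∧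
    Lo c w.r2 x2 5502926848 ∧ Lo c w.r3 x3 5502926848 ∧ ∀ a, 0 ≤ a → a ≤ m →
      (w.sh = true → min x1 (x2 + 2 * (16777216 * Tz P a z + 1073741824)) ≤
          33554432 * (D a + a) + 5368709120 ∧ x3 ≤ 33554432 * (D a + a) + 5368709120) ∧
      (w.sh = false → min (min x1 (x2 + (16777216 * Tz P a z + 1073741824)))
          (x3 + 16777216 * a) ≤ 33554432 * (D a + a) + 5368709120)

/-- Forced area of a list of rows. -/
def LL (Ds : List (ℝ → ℝ)) (a s : ℝ) : Prop :=
  ∃ ss : List ℝ, List.Forall₂ (fun D x => Fr D a x) Ds ss ∧ ss.sum ≤ s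

/-- State of the layout: the strip `[x0, x]` holds the pieces `um` and the rows `rs`. -/
def St (X : Ctx) (H : (ℝ → ℝ → ℝ) → Prop) (x0 x : ℝ) (um : ℕ) (rs : List Rw) : Prop :=
  ∃ Ds, List.Forall₂ (RwOK X.P X.c X.m) rs Ds ∧
    ∀ E, Ext X.P E → H E → MS E (Strip x0 x) (pcs X.k X.a um) X.m (LL Ds)

/-- `H` holds for a room function or for its mirror image. -/
def Symm (P : Prof) (H : (ℝ → ℝ → ℝ) → Prop) : Prop :=
  ∀ E, Ext P E → H E ∨ H fun a y => E a (-y)

/-- BASE: room, affine levels, masks. -/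
structure BaseStmt : Prop where
  ok : ∀ P : Prof, P.bd = true → P.ok
  range : ∀ {c X x B}, Eqv c X x B → 0 ≤ x ∧ x ≤ B
  nonneg : ∀ {c X x B}, Lo c X x B → 0 ≤ x
  tev : ∀ {P : Prof} {c : Cx} {Z A : ℕ} {z a : ℝ}, c.w = 48 → P.bd = true →
    Hi c Z (16384 * (z + 1 / 2)) 16384 → Eqv c A (4096 * a) 4096 →
    Lo c (tz P (ones 48 c.n) (grd 48 c.n) Z A) (16777216 * Tz P a z + 1073741824) 1107296256
  zz : ∀ {c : Cx} {p q : ℕ} {x h : ℝ}, c.w = 48 → Lev c p x → Lev c q (x + h) →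
    Hi c (lmax 47 (grd 48 c.n) p (Nat.sub (Nat.mul 16384 (ones 48 c.n)) q))
      (16384 * (zz x h + 1 / 2)) 16384
  step : ∀ {c : Cx} {p A : ℕ} {x h : ℝ}, c.w = 48 → Lev c p x → Eqv c A (4096 * h) 4096 →
    lge (grd 48 c.n) (Nat.mul 16384 (ones 48 c.n)) (Nat.add p (Nat.mul 4 A)) = true →
    Lev c (Nat.add p (Nat.mul 4 A)) (x + h)
  aff : ∀ (X : Ctx) {base r : ℕ} {x : ℝ} {κ : ℕ → ℕ → Bool}, Lev X.c base x →
    aff X.xs X.k X.HT (ones 48 X.c.n) (grd 48 X.c.n) base r κ = true →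
    ∃ p r' y, κ p r' = true ∧ Lev X.c p y
  zero : ∀ {c : Cx}, c.w = 48 → Lev c 0 (-1 / 2)
  le : ∀ {c : Cx} {p q : ℕ} {x y : ℝ}, c.w = 48 → Lev c p x → Lev c q y →
    lge (grd 48 c.n) p q = true → y ≤ x
  pcs0 : ∀ k a, pcs k a 0 = []
  pcs1 : ∀ k a um i, List.Subperm (pcs k a (Nat.lor um (Nat.pow 2 i))) (pcs k a um ++ [a i])
  pcs2 : ∀ k a um, Nat.succ um = Nat.pow 2 k → pcs k a um = (List.range k).map a
  ll0 : ∀ {a s}, 0 ≤ s → LL [] a s
  ll1 : ∀ {D Ds a s}, Plus (LL Ds) (Fr D) a s → LL (D :: Ds) a s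

/-- ROWN: full rows. -/
def RowNStmt : Prop :=
  ∀ (X : Ctx) (H : (ℝ → ℝ → ℝ) → Prop) (cnt p um : ℕ) (rs : List Rw) (r : ℕ)
    (κ : ℕ → ℕ → List Rw → ℕ → Bool) (x0 x : ℝ), Lev X.c p x → x0 ≤ x → St X H x0 x um rs →
    rowsN X.P X.xs X.k X.HT (ones 48 X.c.n) (grd 48 X.c.n) cnt p um rs r κ = true →
    ∃ q um' rs' r' y, κ q um' rs' r' = true ∧ Lev X.c q y ∧ x ≤ y ∧ St X H x0 y um' rs'

/-- OBST: the block and the shortened rows. -/
def ObstStmt : Prop :=
  ∀ (X : Ctx) (p um : ℕ) (rs : List Rw) (r : ℕ) (κ : ℕ → ℕ → List Rw → ℕ → Bool) (x0 x : ℝ),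
    Lev X.c p x → x0 ≤ x → St X (fun _ => True) x0 x um rs →
    obst X.P X.xs X.k X.HT (ones 48 X.c.n) (grd 48 X.c.n) p um rs r κ = true →
    ∃ H q um' rs' r' y, Symm X.P H ∧ κ q um' rs' r' = true ∧ Lev X.c q y ∧ x ≤ y ∧
      St X H x0 y um' rs'

/-- The two-valued vectors have the mean given by `f`. -/
def TvE (c : Cx) (Ol Mu : ℕ) (f : ℝ) : Prop :=
  ∀ c0 c1 : ℕ, c0 < 2 ^ 47 → c1 < 2 ^ 47 →
    Eqv c (tv Ol Mu c0 c1) (c0 * (1 - f) + c1 * f) (max c0 c1)

/-- OPTS: forced areas of the rows. -/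
def OptsStmt : Prop :=
  ∀ (P : Prof) (c : Cx) (m f a : ℝ) (Ol Mu AV lo hi : ℕ), c.w = 48 → P.bd = true →
    TvE c Ol Mu f → lo < hi → hi ≤ 40 → 0 ≤ f → f ≤ 1 → 128 * a = lo + f * (hi - lo) → a ≤ m →
    Eqv c AV (4096 * a) 1280 →
    ∀ (rs : List Rw) (Ds : List (ℝ → ℝ)) (ss : List ℝ), List.Forall₂ (RwOK P c m) rs Ds →
      List.Forall₂ (fun D x => Fr D a x) Ds ss →
      ∀ (A n r B : ℕ) (κ : ℕ → ℕ → ℕ → Bool) (x : ℝ), Lo c A x B →
        B + rs.length * 2 ^ 43 < 2 ^ 47 →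
        opts P (ones 48 c.n) Ol Mu (grd 48 c.n) AV lo hi rs A n r κ = true →
        ∃ A' d r', κ A' (n + d) r' = true ∧ d ≤ rs.length ∧
          Lo c A' (x + 4294967296 * ss.sum + d * 4398046511104) (B + rs.length * 2 ^ 43)

/-- GRP: the groups of classes exclude every refused size `a`; `s` is the sum of the forced
areas, `R` the explicit area and `rest` the pieces after the refused one. -/
def GrpStmt : Prop :=
  ∀ (X : Ctx) (tc : ℕ → ℕ → ℕ) (rs : List Rw) (Ds : List (ℝ → ℝ)) (ss rest : List ℝ)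
    (Ol Mu A0 C0 IR XR i0 ni r0 nr fuel hi r : ℕ) (E : ℝ → ℝ → ℝ) (t b a x0 : ℝ),
    TabGood X.P tc → Ext X.P E → Tv X.c Ol Mu → List.Forall₂ (RwOK X.P X.c X.m) rs Ds →
    List.Forall₂ (fun D x => Fr D a x) Ds ss → rs.length ≤ 12 → Srt (a :: rest) → a ≤ X.m →
    1 ≤ ni → ni ≤ 31 → i0 + ni ≤ 128 → 1 ≤ nr → nr ≤ 7 → 1 ≤ r0 → r0 + nr ≤ 31 →
    Eqv X.c IR (64 * (256 * (1 / 2 - t) - 2 * i0)) (128 * ni) →
    Eqv X.c XR (64 * (256 * (b + 1 / 2) - (132 + 4 * r0))) (256 * nr) → -b ≤ t →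
    Lo X.c A0 x0 (2 ^ 38) → C0 ≤ 2 ^ 38 → 1 ≤ hi → hi ≤ 40 → 128 * a ≤ hi →
    groups X.P tc X.xs rs X.k (ones 48 X.c.n) Ol Mu (grd 48 X.c.n) A0 C0 IR XR i0 (ni + 1) r0
      (nr + 1) fuel hi r = true →
    Pk E (Out t b) (a :: rest) ∨ (C0 : ℝ) ≤ x0 + 4294967296 * (ss.sum + sqs (a :: rest))

/-- FIN: end of the layout. -/
def FinStmt : Prop :=
  ∀ (X : Ctx) (H : (ℝ → ℝ → ℝ) → Prop) (tc : ℕ → ℕ → ℕ) (b : Box) (l : List ℝ)
    (Ol Mu h p0 p um r : ℕ) (rs : List Rw) (x0 x : ℝ), TabGood X.P tc → b.length = X.k →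
    okB b = true → Srt l → sqs l ≤ 1 / 2 → X.k < l.length → (∀ i < X.k, X.a i = l.getD i 0) →
    X.m = l.getD X.k 0 → Tv X.c Ol Mu → 1 ≤ Nat.land h 63 → Nat.land h 63 ≤ 40 →
    128 * X.m ≤ Nat.land h 63 → Lev X.c p0 x0 → Lev X.c p x → x0 ≤ x → St X H x0 x um rs →
    fin X.P tc b X.xs X.k (ones 48 X.c.n) Ol Mu (grd 48 X.c.n) h p0 p um rs r = true →
    ∀ E, Ext X.P E → H E → Pk E (fun _ => True) l

/-- LEAF. -/
def LeafStmt : Prop :=
  ∀ (P : Prof) (tc : ℕ → ℕ → ℕ), P.bd = true → TabGood P tc →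
    ∀ b r, leaf P tc b r = true → Good P b

end Pool.Agent.MP_34f9b1_co.Sym

end MrgPart0

-- ======== part 1: formerly Pool.Agent.MP_34f9b1_co.Sym.Base
section MrgPart1

namespace Pool.Agent.MP_34f9b1_co.Sym

open Leaf

namespace Base

theorem ev_nonneg (c : Cx) {ω : ℕ → ℝ} (h : ω ∈ c.W) (X : ℕ) : 0 ≤ ev c.w c.n ω X :=
  Finset.sum_nonneg fun i _ => mul_nonneg (c.pos ω h i) (Nat.cast_nonneg _)

theorem ev_le (c : Cx) {ω : ℕ → ℝ} (h : ω ∈ c.W) {X B : ℕ} (hb : Bd c.w c.n X B) :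
    ev c.w c.n ω X ≤ B := by
  have h1 : ev c.w c.n ω X ≤ ∑ i ∈ Finset.range c.n, ω i * (B : ℝ) :=
    Finset.sum_le_sum fun i _ =>
      mul_le_mul_of_nonneg_left (by exact_mod_cast (hb i).1) (c.pos ω h i)
  rw [← Finset.sum_mul, c.tot ω h, one_mul] at h1
  exact h1

theorem lt48 {c : Cx} (hw : c.w = 48) {n : ℕ} (h : n < 281474976710656) : n < 2 ^ c.w := by
  have e : (2 : ℕ) ^ c.w = 281474976710656 := by rw [hw]; norm_num
  exact e ▸ h

theorem lt47 {c : Cx} (hw : c.w = 48) {n : ℕ} (h : n < 140737488355328) : n < 2 ^ (c.w - 1) := by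
  have e : (2 : ℕ) ^ (c.w - 1) = 140737488355328 := by rw [hw]; norm_num
  exact e ▸ h

theorem bd_spec {P : Prof} (h : P.bd = true) :
    P.a1 = 1024 ∧ 1024 ≤ P.a2 ∧ 1024 ≤ P.a3 ∧ 1024 ≤ P.a4 ∧ P.a2 ≤ 16383 ∧ P.a3 ≤ 16383 ∧
      P.a4 ≤ 16383 ∧ P.b1 ≤ 32767 ∧ P.b2 ≤ 32767 ∧ P.b3 ≤ 32767 ∧ P.b4 ≤ 32767 := by
  simp only [Prof.bd, Bool.and_eq_true, Nat.beq_eq, Nat.ble_eq] at h
  obtain ⟨⟨⟨⟨⟨⟨⟨⟨⟨⟨h1, h2⟩, h3⟩, h4⟩, h5⟩, h6⟩, h7⟩, h8⟩, h9⟩, h10⟩, h11⟩ := h
  exact ⟨h1, h2, h3, h4, h5, h6, h7, h8, h9, h10, h11⟩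

theorem tln_lo (hl : LnStmt) {c : Cx} (hw : c.w = 48) {OA Y α β : ℕ} {a y : ℝ}
    (hα : α ≤ 16383) (hβ : β ≤ 32767) (h1 : Lo c OA (16384 * (1 - a)) 16384)
    (h2 : Hi c Y (16384 * y) 24576) :
    Lo c (tln α β OA (Nat.mul 1073741824 (ones c.w c.n)) Y)
      (16777216 * ln α β a y + 1073741824) (α * 16384 + 1073741824) := by
  have k1 := hl.lo_mul α h1 (lt48 hw (by omega))
  have k2 := hl.hi_mul β h2 (lt48 hw (by omega))
  have k3 := hl.lo_bsub 1073741824 k1 k2 (by omega) (lt48 hw (by omega))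
  refine hl.lo_mono k3 (le_of_eq ?_) le_rfl
  unfold ln
  push_cast
  ring

theorem mul_min_add {u v k b : ℝ} (hk : 0 ≤ k) :
    min (k * u + b) (k * v + b) = k * min u v + b := by
  rw [mul_min_of_nonneg _ _ hk, min_add_add_right]

theorem tev_lo (hl : LnStmt) {P : Prof} {c : Cx} {Z A : ℕ} {z a : ℝ} (hw : c.w = 48)
    (hP : P.bd = true) (hZ : Hi c Z (16384 * (z + 1 / 2)) 16384) (hA : Eqv c A (4096 * a) 4096) :
    Lo c (tz P (ones 48 c.n) (grd 48 c.n) Z A) (16777216 * Tz P a z + 1073741824) 1107296256 := by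
  obtain ⟨e1, -, -, -, u2, u3, u4, v1, v2, v3, v4⟩ := bd_spec hP
  have a4l := hl.lo_mul 4 hA.1 (lt48 hw (by omega))
  have a4h := hl.hi_mul 4 hA.2 (lt48 hw (by omega))
  have a2h := hl.hi_mul 2 hA.2 (lt48 hw (by omega))
  have oa : Lo c (Nat.sub (Nat.mul 16384 (ones c.w c.n)) (Nat.mul 4 A)) (16384 * (1 - a)) 16384 := by
    refine hl.lo_mono (hl.lo_csub 16384 a4h (by omega) (lt48 hw (by omega))) (le_of_eq ?_) le_rfl
    push_cast
    ring
  have za := hl.hi_add hZ a2h (lt48 hw (by omega))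
  have c8 := (hl.const c 8192 (lt48 hw (by omega))).1
  have hy : Hi c (lsub (c.w - 1) (grd c.w c.n) (Nat.add Z (Nat.mul 2 A))
      (Nat.mul 8192 (ones c.w c.n))) (16384 * max 0 (z + a / 2)) 24576 := by
    refine hl.hi_mono (hl.hi_lsub za c8 (lt47 hw (by omega)) (lt47 hw (by omega))) ?_ (by omega)
    rw [mul_max_of_nonneg _ _ (by norm_num : (0 : ℝ) ≤ 16384)]
    refine max_le_max (by norm_num) (le_of_eq ?_)
    push_cast
    ring
  have t1 := hl.lo_mono (tln_lo hl hw (α := P.a1) (by omega) v1 oa hy) le_rfl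
    (B' := 1090519040) (by omega)
  have t2 := hl.lo_mono (tln_lo hl hw u2 v2 oa hy) le_rfl (B' := 1342177280) (by omega)
  have t3 := hl.lo_mono (tln_lo hl hw u3 v3 oa hy) le_rfl (B' := 1342177280) (by omega)
  have t4 := hl.lo_mono (tln_lo hl hw u4 v4 oa hy) le_rfl (B' := 1342177280) (by omega)
  have q1 : 1090519040 < 2 ^ (c.w - 1) := lt47 hw (by norm_num)
  have q2 : 1342177280 < 2 ^ (c.w - 1) := lt47 hw (by norm_num)
  have m1 := hl.lo_mono (hl.lo_min t1 t2 q1 q2) (mul_min_add (by norm_num)).le (min_le_left _ _)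
  have m2 := hl.lo_mono (hl.lo_min t3 t4 q2 q2) (mul_min_add (by norm_num)).le (min_le_left _ _)
  have m3 := hl.lo_mono (hl.lo_min m1 m2 q1 q2) (mul_min_add (by norm_num)).le (min_le_left _ _)
  have a1k := hl.lo_mul 1024 a4l (lt48 hw (by norm_num))
  have fin := hl.lo_add a1k m3 (lt48 hw (by norm_num))
  have res := hl.lo_mono fin (x' := 16777216 * Tz P a z + 1073741824) (B' := 1107296256)
    (by unfold Tz Tf; push_cast; exact le_of_eq (by ring)) (by norm_num)
  have e47 : c.w - 1 = 47 := by rw [hw]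
  rw [e47, hw] at res
  unfold tz tev
  exact res

theorem terms_zero (xs : List ℕ) (k HT p q r : ℕ) (κ : ℕ → ℕ → ℕ → Bool) :
    terms xs k HT 0 p q r κ = κ p q r := rfl

theorem terms_succ (xs : List ℕ) (k HT n p q r : ℕ) (κ : ℕ → ℕ → ℕ → Bool) :
    terms xs k HT (n + 1) p q r κ =
      ((Nat.beq (Nat.land r 15) 15 || Nat.blt (Nat.land r 15) k) &&
        cond (Nat.testBit r 4)
          (terms xs k HT n p (Nat.add q (Nat.mul (Nat.land (Nat.shiftRight r 5) 15)
            (cond (Nat.beq (Nat.land r 15) 15) HT (nth xs (Nat.land r 15)))))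
            (Nat.shiftRight r 9) κ)
          (terms xs k HT n (Nat.add p (Nat.mul (Nat.land (Nat.shiftRight r 5) 15)
            (cond (Nat.beq (Nat.land r 15) 15) HT (nth xs (Nat.land r 15))))) q
            (Nat.shiftRight r 9) κ)) := rfl

theorem eqv_mono (hl : LnStmt) {c : Cx} {X : ℕ} {x : ℝ} {B B' : ℕ} (h : Eqv c X x B)
    (hb : B ≤ B') : Eqv c X x B' :=
  ⟨hl.lo_mono h.1 le_rfl hb, hl.hi_mono h.2 le_rfl hb⟩

theorem eqv_add (hl : LnStmt) {c : Cx} {X Y : ℕ} {x y : ℝ} {A B : ℕ} (h : Eqv c X x A)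
    (h' : Eqv c Y y B) (hb : A + B < 2 ^ c.w) : Eqv c (Nat.add X Y) (x + y) (A + B) :=
  ⟨hl.lo_add h.1 h'.1 hb, hl.hi_add h.2 h'.2 hb⟩

theorem eqv_mul (hl : LnStmt) {c : Cx} {X : ℕ} {x : ℝ} {A : ℕ} (k : ℕ) (h : Eqv c X x A)
    (hb : k * A < 2 ^ c.w) : Eqv c (Nat.mul k X) (k * x) (k * A) :=
  ⟨hl.lo_mul k h.1 hb, hl.hi_mul k h.2 hb⟩

theorem land_le (r m : ℕ) : Nat.land r m ≤ m := Nat.and_le_right

theorem terms_sound (hl : LnStmt) (X : Ctx) (κ : ℕ → ℕ → ℕ → Bool) :
    ∀ (n p q r B : ℕ) (x y : ℝ), B + 61440 * n < 140737488355328 → Eqv X.c p x B →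
      Eqv X.c q y B → terms X.xs X.k X.HT n p q r κ = true →
      ∃ p' q' r' x' y', κ p' q' r' = true ∧ Eqv X.c p' x' (B + 61440 * n) ∧
        Eqv X.c q' y' (B + 61440 * n) := by
  have hw := X.w48
  intro n
  induction n with
  | zero =>
    intro p q r B x y _ hp hq h
    exact ⟨p, q, r, x, y, h, hp, hq⟩
  | succ n ih =>
    intro p q r B x y hB hp hq h
    have e : B + 61440 + 61440 * n = B + 61440 * (n + 1) := by ring
    have hB1 : B + 61440 + 61440 * n < 140737488355328 := e.trans_lt hB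
    have hB2 : B + 61440 < 2 ^ X.c.w :=
      lt48 hw (((Nat.le_add_right _ _).trans_lt hB1).trans (by norm_num))
    rw [terms_succ, Bool.and_eq_true] at h
    obtain ⟨h1, h2⟩ := h
    have hV : ∃ v : ℝ, Eqv X.c
        (cond (Nat.beq (Nat.land r 15) 15) X.HT (nth X.xs (Nat.land r 15))) v 4096 := by
      cases hb : Nat.beq (Nat.land r 15) 15 with
      | true => exact ⟨_, X.he⟩
      | false =>
        rw [hb, Bool.false_or, Nat.blt_eq] at h1
        exact ⟨_, X.xe _ h1⟩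
    obtain ⟨v, hv⟩ := hV
    have hs := land_le (Nat.shiftRight r 5) 15
    have hm := eqv_mono hl (eqv_mul hl (Nat.land (Nat.shiftRight r 5) 15) hv
      (lt48 hw (by omega))) (B' := 61440) (by omega)
    cases hb : Nat.testBit r 4 with
    | true =>
      rw [hb, cond_true] at h2
      have := ih _ _ _ (B + 61440) _ _ hB1 (eqv_mono hl hp (Nat.le_add_right _ _))
        (eqv_add hl hq hm hB2) h2
      rwa [e] at this
    | false =>
      rw [hb, cond_false] at h2
      have := ih _ _ _ (B + 61440) _ _ hB1 (eqv_add hl hp hm hB2)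
        (eqv_mono hl hq (Nat.le_add_right _ _)) h2
      rwa [e] at this

theorem aff_eq (xs : List ℕ) (k HT O G base r : ℕ) (κ : ℕ → ℕ → Bool) :
    aff xs k HT O G base r κ = terms xs k HT (Nat.land (Nat.shiftRight r 18) 7)
      (Nat.add (cond (Nat.testBit r 0) base 0) (Nat.mul (Nat.land (Nat.shiftRight r 1) 131071) O))
      (Nat.mul 32768 O) (Nat.shiftRight r 21) fun p q r =>
        lge G p q && (lge G (Nat.mul 16384 O) (Nat.sub p q) && κ (Nat.sub p q) r) := rfl

theorem eqv_zero (hl : LnStmt) (c : Cx) : Eqv c 0 0 0 := by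
  have h := hl.const c 0 (Nat.two_pow_pos _)
  have e : Nat.mul 0 (ones c.w c.n) = 0 := Nat.zero_mul _
  rw [e, Nat.cast_zero] at h
  exact h

theorem aff_sound (hd : DgStmt) (hl : LnStmt) (X : Ctx) {base r : ℕ} {x : ℝ}
    {κ : ℕ → ℕ → Bool} (hb : Lev X.c base x)
    (h : aff X.xs X.k X.HT (ones 48 X.c.n) (grd 48 X.c.n) base r κ = true) :
    ∃ p r' y, κ p r' = true ∧ Lev X.c p y := by
  have hw := X.w48
  rw [aff_eq, ← hw] at h
  have h0 : ∃ v : ℝ, Eqv X.c (cond (Nat.testBit r 0) base 0) v 16384 := by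
    cases Nat.testBit r 0 with
    | true => exact ⟨_, hb⟩
    | false => exact ⟨_, eqv_mono hl (eqv_zero hl X.c) (by omega)⟩
  obtain ⟨v, hv⟩ := h0
  have s1 := land_le (Nat.shiftRight r 1) 131071
  have s2 := land_le (Nat.shiftRight r 18) 7
  have c1 := eqv_mono hl (hl.const X.c (Nat.land (Nat.shiftRight r 1) 131071)
    (lt48 hw (by omega))) s1
  have c2 := eqv_mono hl (hl.const X.c 32768 (lt48 hw (by omega)))
    (B' := 16384 + 131071) (by omega)
  obtain ⟨p, q, r', x', y', hk, hp, hq⟩ := terms_sound hl X _ _ _ _ _ (16384 + 131071) _ _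
    (by omega) (eqv_add hl hv c1 (lt48 hw (by omega))) c2 h
  rw [Bool.and_eq_true, Bool.and_eq_true] at hk
  obtain ⟨k1, k2, k3⟩ := hk
  have hw0 : 0 < X.c.w := by omega
  have hle := hd.lge hw0 hp.1.1 hq.1.1 (lt47 hw (by omega)) (lt47 hw (by omega)) k1
  have l1 := hl.lo_sub hp.1 hq.2 hle
  have l2 := hl.hi_sub hp.2 hq.1 hle
  have l3 := hl.bd_of 16384 hw0 l1.1 (lt47 hw (by omega)) (lt47 hw (by omega)) k2
  refine ⟨_, r', (x' - y') / 16384 - 1 / 2, k3, ?_⟩
  have e : 16384 * ((x' - y') / 16384 - 1 / 2 + 1 / 2) = x' - y' := by ring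
  unfold Lev
  rw [e]
  exact ⟨⟨l3, l1.2⟩, ⟨l3, l2.2⟩⟩

theorem pcs_lor (k : ℕ) (a : ℕ → ℝ) (um i : ℕ) :
    List.Subperm (pcs k a (Nat.lor um (Nat.pow 2 i))) (pcs k a um ++ [a i]) := by
  have h : List.Subperm ((List.range k).filter fun j => (Nat.lor um (Nat.pow 2 i)).testBit j)
      (((List.range k).filter fun j => um.testBit j) ++ [i]) := by
    refine List.subperm_of_subset (List.nodup_range.filter _) ?_
    intro j hj
    rw [List.mem_filter] at hj
    obtain ⟨h1, h2⟩ := hj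
    have h3 : (um ||| 2 ^ i).testBit j = true := h2
    rw [Nat.testBit_or, Bool.or_eq_true, Nat.testBit_two_pow] at h3
    rw [List.mem_append, List.mem_filter, List.mem_singleton]
    rcases h3 with h3 | h3
    · exact Or.inl ⟨h1, h3⟩
    · exact Or.inr (of_decide_eq_true h3).symm
  obtain ⟨l, h1, h2⟩ := h
  refine ⟨l.map a, h1.map a, ?_⟩
  have := h2.map a
  rwa [List.map_append] at this

end Base

open Base in
theorem base (hd : DgStmt) (hl : LnStmt) : BaseStmt where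
  ok P h := by
    obtain ⟨h1, h2, h3, h4, -⟩ := bd_spec h
    exact ⟨h1.ge, h2, h3, h4⟩
  range := by
    intro c X x B h
    obtain ⟨ω, hω⟩ := c.ne
    exact ⟨(ev_nonneg c hω X).trans (h.1.2 ω hω), (h.2.2 ω hω).trans (ev_le c hω h.1.1)⟩
  nonneg := by
    intro c X x B h
    obtain ⟨ω, hω⟩ := c.ne
    exact (ev_nonneg c hω X).trans (h.2 ω hω)
  tev := fun hw hP hZ hA => tev_lo hl hw hP hZ hA
  zz := by
    intro c p q x h hw hp hq
    have h1 := hl.hi_csub 16384 hq.1 le_rfl (lt48 hw (by omega))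
    have h2 := hl.hi_max hp.2 h1 (lt47 hw (by omega)) (lt47 hw (by omega))
    have h3 := hl.hi_mono h2 (x' := 16384 * (zz x h + 1 / 2)) (B' := 16384) (by
      unfold zz
      rcases le_total x (-x - h) with h4 | h4
      · rw [max_eq_right h4]
        refine le_max_of_le_right (le_of_eq ?_)
        push_cast
        ring
      · rw [max_eq_left h4]
        exact le_max_left _ _) (by omega)
    rw [hw] at h3
    exact h3
  step := by
    intro c p A x h hw hp hA hk
    have h1 := eqv_add hl hp (eqv_mul hl 4 hA (lt48 hw (by omega))) (lt48 hw (by omega))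
    rw [← hw] at hk
    have h2 := hl.bd_of 16384 (by omega) h1.1.1 (lt47 hw (by omega)) (lt47 hw (by omega)) hk
    have e : 16384 * (x + h + 1 / 2) = 16384 * (x + 1 / 2) + ((4 : ℕ) : ℝ) * (4096 * h) := by
      push_cast
      ring
    unfold Lev
    rw [e]
    exact ⟨⟨h2, h1.1.2⟩, ⟨h2, h1.2.2⟩⟩
  aff := fun X _ _ _ _ hb h => aff_sound hd hl X hb h
  zero := by
    intro c _
    have e : (16384 : ℝ) * (-1 / 2 + 1 / 2) = 0 := by norm_num
    unfold Lev
    rw [e]
    exact eqv_mono hl (eqv_zero hl c) (by omega)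
  le := by
    intro c p q x y hw hp hq hk
    rw [← hw] at hk
    have := hl.le_of hp.1 hq.2 (lt47 hw (by omega)) (lt47 hw (by omega)) hk
    linarith
  pcs0 k a := by simp [pcs]
  pcs1 := pcs_lor
  pcs2 k a um h := by
    have e : um = 2 ^ k - 1 := by
      have : um + 1 = 2 ^ k := h
      omega
    unfold pcs
    rw [List.filter_eq_self.2]
    intro i hi
    rw [e, Nat.testBit_two_pow_sub_one]
    exact decide_eq_true (List.mem_range.1 hi)
  ll0 := fun h => ⟨[], List.Forall₂.nil, h⟩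
  ll1 := by
    intro D Ds a s h
    obtain ⟨s1, s2, h1, ⟨ss, h2, h3⟩, h4⟩ := h
    refine ⟨s2 :: ss, List.Forall₂.cons h4 h2, ?_⟩
    rw [List.sum_cons]
    linarith

end Pool.Agent.MP_34f9b1_co.Sym

end MrgPart1

-- ======== part 2: formerly Pool.Agent.MP_34f9b1_co.Sym.RowN
section MrgPart2

namespace Pool.Agent.MP_34f9b1_co.Sym

open Leaf

namespace RowN

lemma fol_succ (P : Prof) (xs : List ℕ) (k O G Z T1 cnt pi S C um r : ℕ)
    (κ : ℕ → ℕ → ℕ → ℕ → Bool) : fol P xs k O G Z T1 (cnt + 1) pi S C um r κ =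
    frc (Nat.land r 15) fun i =>
      Nat.blt pi i && Nat.blt i k && frc (Nat.add S (nth xs i)) fun S' =>
        frc (lmin 47 G C (Nat.sub (Nat.add (Nat.add T1 (tz P O G Z (nth xs i)))
          (Nat.mul 268435456 O)) (Nat.mul 4096 S'))) fun C' =>
        fol P xs k O G Z T1 cnt i S' C' (Nat.lor um (Nat.pow 2 i)) (Nat.shiftRight r 4) κ := rfl

lemma rowsN_succ (P : Prof) (xs : List ℕ) (k HT O G cnt p um : ℕ) (rs : List Rw) (r : ℕ)
    (κ : ℕ → ℕ → List Rw → ℕ → Bool) : rowsN P xs k HT O G (cnt + 1) p um rs r κ =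
    frc (Nat.land r 15) fun i => Nat.blt i k &&
      frc (Nat.add p (Nat.mul 4 (nth xs i))) fun q => lge G (Nat.mul 16384 O) q &&
      frc (lmax 47 G p (Nat.sub (Nat.mul 16384 O) q)) fun Z =>
      frc (tz P O G Z (nth xs i)) fun T1 =>
      fol P xs k O G Z T1 (Nat.land (Nat.shiftRight r 5) 7) i (nth xs i)
        (Nat.mul 2483027968 O) (Nat.lor um (Nat.pow 2 i)) (Nat.shiftRight r 8) fun S C um r' =>
        cond (Nat.testBit r 4)
          (Nat.beq (Nat.land r 4095) 304 && Nat.beq (Nat.add p q) (Nat.mul 16384 O))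
          (Nat.beq (Nat.land (Nat.shiftRight r 5) 7) 0 ||
            lge G C (Nat.add (Nat.mul 4096 S) (Nat.mul 2415919104 O))) &&
        frc (Nat.sub (Nat.add (Nat.mul 2 C) (Nat.mul 536870912 O)) (Nat.mul 8192 S)) fun R1 =>
        frc (Nat.sub (Nat.add T1 (Nat.mul 3221225472 O)) (Nat.mul 8192 S)) fun R2 =>
        frc (Nat.add R2 (tz P O G Z HT)) fun R3 =>
        frc r' fun r' => rowsN P xs k HT O G cnt q um (⟨false, Z, R1, R2, R3⟩ :: rs) r' κ := rfl

lemma cb_snoc {P : Prof} {T z C C' x : ℝ} (hC : C' ≤ C) : ∀ (fs : List ℝ) (S : ℝ),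
    CB P T z C S fs → C' ≤ T + Tz P x z - (S + fs.sum + x) → CB P T z C' S (fs ++ [x])
  | [], S, _, h => ⟨by simpa using h, trivial⟩
  | y :: fs, S, h0, h => ⟨hC.trans h0.1, cb_snoc hC fs (S + y) h0.2 (by
      rw [List.sum_cons] at h; linarith)⟩

lemma land15 (r : ℕ) : Nat.land r 15 = r % 16 := Nat.and_two_pow_sub_one_eq_mod r 4

lemma land7 (r : ℕ) : Nat.land r 7 = r % 8 := Nat.and_two_pow_sub_one_eq_mod r 3

lemma land4095 (r : ℕ) : Nat.land r 4095 = r % 4096 := Nat.and_two_pow_sub_one_eq_mod r 12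

lemma shr (r n : ℕ) : Nat.shiftRight r n = r / 2 ^ n := Nat.shiftRight_eq_div_pow r n

/-- The room on the axis is at least one. -/
lemma one_le_tz {P : Prof} (hP : P.ok) {a z : ℝ} (ha : a ≤ 1) (hz : z + a / 2 ≤ 0) :
    1 ≤ Tz P a z := by
  obtain ⟨h1, h2, h3, h4⟩ := hP
  have key : ∀ α β : ℕ, 1024 ≤ α → 1 - a ≤ ln α β a 0 := fun α β h => by
    have h' : (1024 : ℝ) ≤ α := by exact_mod_cast h
    rw [ln, le_div_iff₀ (by norm_num)]
    nlinarith
  rw [Tz, max_eq_left hz, Tf]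
  have := le_min (le_min (key _ P.b1 h1) (key _ P.b2 h2)) (le_min (key _ P.b3 h3) (key _ P.b4 h4))
  linarith

section Lanes
variable (hl : LnStmt) {c : Cx} (hw : c.w = 48)
include hl hw

lemma cst (k : ℕ) (h : k < 2 ^ 48) : Eqv c (Nat.mul k (ones 48 c.n)) k k := by
  have := hl.const c k (by rw [hw]; exact h)
  rwa [hw] at this

lemma bsub {X Y A B : ℕ} {x y : ℝ} (k : ℕ) (h1 : Lo c X x A) (h2 : Hi c Y y B) (h3 : B ≤ k)
    (h4 : A + k < 2 ^ 48) :
    Lo c (Nat.sub (Nat.add X (Nat.mul k (ones 48 c.n))) Y) (x + k - y) (A + k) := by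
  have := hl.lo_bsub k h1 h2 h3 (by rw [hw]; exact h4)
  rwa [hw] at this

lemma lmn {X Y A B : ℕ} {x y : ℝ} (h1 : Lo c X x A) (h2 : Lo c Y y B) (h3 : A < 2 ^ 47)
    (h4 : B < 2 ^ 47) : Lo c (lmin 47 (grd 48 c.n) X Y) (min x y) (min A B) := by
  have := hl.lo_min h1 h2 (by rw [hw]; exact h3) (by rw [hw]; exact h4)
  rwa [hw] at this

lemma leof {X Y A B : ℕ} {x y : ℝ} (h1 : Lo c X x A) (h2 : Hi c Y y B) (h3 : A < 2 ^ 47)
    (h4 : B < 2 ^ 47) (h : lge (grd 48 c.n) X Y = true) : y ≤ x :=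
  hl.le_of h1 h2 (by rw [hw]; exact h3) (by rw [hw]; exact h4) (by rw [hw]; exact h)

lemma ladd {X Y A B : ℕ} {x y : ℝ} (h1 : Lo c X x A) (h2 : Lo c Y y B) (h : A + B < 2 ^ 48) :
    Lo c (Nat.add X Y) (x + y) (A + B) := hl.lo_add h1 h2 (by rw [hw]; exact h)

lemma hadd {X Y A B : ℕ} {x y : ℝ} (h1 : Hi c X x A) (h2 : Hi c Y y B) (h : A + B < 2 ^ 48) :
    Hi c (Nat.add X Y) (x + y) (A + B) := hl.hi_add h1 h2 (by rw [hw]; exact h)

lemma lmul {X A : ℕ} {x : ℝ} (k : ℕ) (h1 : Lo c X x A) (h : k * A < 2 ^ 48) :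
    Lo c (Nat.mul k X) (k * x) (k * A) := hl.lo_mul k h1 (by rw [hw]; exact h)

lemma hmul {X A : ℕ} {x : ℝ} (k : ℕ) (h1 : Hi c X x A) (h : k * A < 2 ^ 48) :
    Hi c (Nat.mul k X) (k * x) (k * A) := hl.hi_mul k h1 (by rw [hw]; exact h)

end Lanes

/-- Invariant of the followers of the first piece `h`. -/
structure Inv (X : Ctx) (base : List ℝ) (h z : ℝ) (n pi S C um : ℕ) (fs : List ℝ) (C0 : ℝ) :
    Prop where
  lt : pi < X.k
  eS : Eqv X.c S (4096 * (h + fs.sum)) (4096 * n)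
  lC : Lo X.c C (16777216 * C0 + 2415919104) 2483027968
  cb : CB X.P (Tz X.P h z) z C0 h fs
  srt : (h :: fs).Pairwise fun x y => y ≤ x
  ge : ∀ x ∈ h :: fs, X.a pi ≤ x
  sub : List.Subperm (pcs X.k X.a um) (base ++ h :: fs)

theorem fol_ok (hd : DgStmt) (hl : LnStmt) (hb : BaseStmt) (X : Ctx) {base : List ℝ} {h z : ℝ}
    {Z T1 : ℕ} {κ : ℕ → ℕ → ℕ → ℕ → Bool} (hZ : Hi X.c Z (16384 * (z + 1 / 2)) 16384)
    (hT : Lo X.c T1 (16777216 * Tz X.P h z + 1073741824) 1107296256) (cnt : ℕ) :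
    ∀ (n pi S C um r : ℕ) (fs : List ℝ) (C0 : ℝ), n + cnt ≤ 8 → Inv X base h z n pi S C um fs C0 →
      fol X.P X.xs X.k (ones 48 X.c.n) (grd 48 X.c.n) Z T1 cnt pi S C um r κ = true →
      ∃ n' pi' S' C' um' r' fs' C1, n' ≤ 8 ∧ κ S' C' um' r' = true ∧
        Inv X base h z n' pi' S' C' um' fs' C1 ∧ (cnt = 0 → fs' = fs) ∧
        (cnt = 1 → fs' = fs ++ [X.a (Nat.land r 15)] ∧ Nat.land r 15 < X.k) := by
  induction cnt with
  | zero =>
    intro n pi S C um r fs C0 hn I hf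
    exact ⟨n, pi, S, C, um, r, fs, C0, hn, hf, I, fun _ => rfl, fun h => absurd h (by simp)⟩
  | succ cnt ih =>
    intro n pi S C um r fs C0 hn I hf
    rw [fol_succ] at hf
    simp only [hd.frc, Bool.and_eq_true, Nat.blt_eq] at hf
    obtain ⟨⟨h1, h2⟩, h3⟩ := hf
    generalize Nat.land r 15 = i at *
    have hw := X.w48
    have hx := X.xe i h2
    have hn' : n ≤ 7 := by omega
    have eS : Eqv X.c (Nat.add S (nth X.xs i)) (4096 * (h + (fs ++ [X.a i]).sum))
        (4096 * (n + 1)) := by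
      have e : 4096 * (h + (fs ++ [X.a i]).sum) = 4096 * (h + fs.sum) + 4096 * X.a i := by
        rw [List.sum_append, List.sum_singleton]; ring
      rw [e, Nat.mul_succ]
      exact ⟨ladd hl hw I.eS.1 hx.1 (by omega), hadd hl hw I.eS.2 hx.2 (by omega)⟩
    have hC := lmn hl hw I.lC (bsub hl hw 268435456
      (ladd hl hw hT (hb.tev hw X.bd hZ hx) (by norm_num)) (hmul hl hw 4096 eS.2 (by omega))
      (by omega) (by norm_num)) (by norm_num) (by norm_num)
    have hai : X.a i ≤ X.a pi := X.anti pi i h1.le h2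
    obtain ⟨n', pi', S', C', um', r', fs', C1, g1, g2, g3, g4, -⟩ := ih (n + 1) i _ _ _ _
      (fs ++ [X.a i]) (min C0 (Tz X.P h z + Tz X.P (X.a i) z - (h + fs.sum + X.a i))) (by omega)
      ⟨h2, eS, hl.lo_mono hC (by
          rw [List.sum_append, List.sum_singleton]
          push_cast
          rcases le_total C0 (Tz X.P h z + Tz X.P (X.a i) z - (h + fs.sum + X.a i)) with e | e
          · rw [min_eq_left e]; exact min_le_left _ _
          · rw [min_eq_right e]; exact (min_le_right _ _).trans (le_of_eq (by ring)))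
          (by norm_num),
        cb_snoc (min_le_left _ _) fs h I.cb (min_le_right _ _),
        by
          rw [← List.cons_append, List.pairwise_append]
          refine ⟨I.srt, List.pairwise_singleton _ _, fun x hx y hy => ?_⟩
          rw [List.mem_singleton.1 hy]
          exact hai.trans (I.ge x hx),
        fun x hx => by
          rw [← List.cons_append, List.mem_append, List.mem_singleton] at hx
          rcases hx with hx | hx
          · exact hai.trans (I.ge x hx)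
          · exact hx.ge,
        (hb.pcs1 _ _ _ _).trans (by
          rw [← List.cons_append, ← List.append_assoc]
          exact (List.subperm_append_right _).2 I.sub)⟩ h3
    exact ⟨n', pi', S', C', um', r', fs', C1, g1, g2, g3, fun h => absurd h (by simp),
      fun h => ⟨g4 (by omega), h2⟩⟩

end RowN

open RowN in
theorem rowN (hd : DgStmt) (hl : LnStmt) (hb : BaseStmt) (hp : PkStmt) (hr : RowStmt) :
    RowNStmt := by
  intro X H cnt
  induction cnt with
  | zero => exact fun p um rs r κ x0 x h1 _ h3 h4 => ⟨p, um, rs, r, x, h4, h1, le_rfl, h3⟩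
  | succ cnt ih =>
    intro p um rs r κ x0 x hp1 hx0 hS hf
    rw [rowsN_succ] at hf
    simp only [hd.frc, Bool.and_eq_true, Nat.blt_eq] at hf
    obtain ⟨hi, hq, hf⟩ := hf
    have hw := X.w48
    have hok := hb.ok X.P X.bd
    obtain ⟨i, hie⟩ : ∃ i, Nat.land r 15 = i := ⟨_, rfl⟩
    rw [hie] at hi hq hf
    have hx := X.xe i hi
    have hQ := hb.step hw hp1 hx hq
    have hZ := hb.zz hw hp1 hQ
    have hT := hb.tev hw X.bd hZ hx
    have hTt := hb.tev hw X.bd hZ X.he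
    have hlo : -1 / 2 ≤ x := by linarith [(hb.range hp1).1]
    have hhi : x + X.a i ≤ 1 / 2 := by
      have := (hb.range hQ).2
      push_cast at this
      linarith
    have h0 : 0 ≤ X.a i := X.m0.trans (X.ma i hi)
    obtain ⟨n, pi, S, C, um', r', fs, C0, hn, hκ, I, g0, g1⟩ := fol_ok hd hl hb X
      (base := pcs X.k X.a um) hZ hT _ 1 i _ _ _ _ [] 4
      (by rw [land7]; omega)
      ⟨hi, by simpa using hx, hl.lo_mono (cst hl hw 2483027968 (by norm_num)).1 (by norm_num) le_rfl,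
        trivial, List.pairwise_singleton _ _, fun y hy => (List.mem_singleton.1 hy).ge,
        hb.pcs1 _ _ _ _⟩ hf
    rw [Bool.and_eq_true] at hκ
    obtain ⟨hc, hκ⟩ := hκ
    have hm : ∀ y ∈ X.a i :: fs, X.m ≤ y := fun y hy => (X.ma pi I.lt).trans (I.ge y hy)
    have hs : Srt (X.a i :: fs) := ⟨I.srt, fun y hy => X.m0.trans (hm y hy)⟩
    have hfe : ∀ E, Ext X.P E → Feas E x (X.a i) (X.a i :: fs) := by
      intro E hE
      cases ht : Nat.testBit r 4
      · rw [ht, cond_false, Bool.or_eq_true, Nat.beq_eq] at hc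
        refine hr.feasB hok hE hlo hhi hs I.cb fun hne => ?_
        rcases hc with hc | hc
        · exact absurd (g0 hc) hne
        · have := leof hl hw I.lC (hadd hl hw (hmul hl hw 4096 I.eS.2 (by omega))
            (cst hl hw 2415919104 (by norm_num)).2 (by omega)) (by norm_num) (by omega) hc
          push_cast at this
          linarith
      · rw [ht, cond_true, Bool.and_eq_true, Nat.beq_eq, Nat.beq_eq, land4095] at hc
        obtain ⟨c1, c2⟩ := hc
        rw [land15] at hie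
        have hi0 : i = 0 := by omega
        obtain ⟨g2, g3⟩ := g1 (by rw [land7, shr]; omega)
        have e1 : Nat.land (Nat.shiftRight r 8) 15 = 1 := by rw [land15, shr]; omega
        rw [e1] at g2 g3
        subst hi0
        have hk := cst hl hw 16384 (by norm_num)
        rw [← c2] at hk
        obtain ⟨ω, hω⟩ := X.c.ne
        have k1 := (hk.2.2 ω hω).trans ((ladd hl hw hp1.1 hQ.1 (by norm_num)).2 ω hω)
        have k2 := ((hadd hl hw hp1.2 hQ.2 (by norm_num)).2 ω hω).trans (hk.1.2 ω hω)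
        push_cast at k1 k2
        have hz : zz x (X.a 0) = -X.a 0 / 2 := by
          rw [zz, show x = -X.a 0 / 2 by linarith, max_eq_left (le_of_eq (by ring))]
        have h2 := X.two g3
        have h10 := X.anti 0 1 zero_le_one g3
        have h1 : 0 ≤ X.a 1 := X.m0.trans (X.ma 1 g3)
        have t0 : 1 ≤ Tz X.P (X.a 0) (zz x (X.a 0)) := one_le_tz hok (by linarith) (by linarith)
        have t1 : 1 ≤ Tz X.P (X.a 1) (zz x (X.a 0)) := one_le_tz hok (by linarith) (by linarith)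
        subst g2
        refine hr.feasB (C := 2 - (X.a 0 + X.a 1)) hok hE hlo hhi hs ⟨by linarith, trivial⟩
          fun _ => ?_
        rw [List.nil_append, List.sum_singleton]
        linarith
    have h8 := hmul hl hw 8192 I.eS.2 (by omega)
    have R1 := bsub hl hw 536870912 (lmul hl hw 2 I.lC (by norm_num)) h8 (by omega) (by norm_num)
    have R2 := bsub hl hw 3221225472 hT h8 (by omega) (by norm_num)
    have R3 := ladd hl hw R2 hTt (by norm_num)
    obtain ⟨Ds, hD, hM⟩ := hS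
    obtain ⟨q, um'', rs', r'', y, k1, k2, k3, k4⟩ := ih _ um' _ r' κ x0 (x + X.a i) hQ
      (by linarith) ⟨(fun a => max (DB X.P x (X.a i) (X.a i + fs.sum) C0 X.ht a)
        (DC X.P x (X.a i) (X.a i + fs.sum) a)) :: Ds, List.Forall₂.cons
        ⟨zz x (X.a i), _, _, _, hZ, R1, hl.lo_mono R2 le_rfl (by norm_num),
          hl.lo_mono R3 le_rfl (by norm_num), fun a _ _ => ⟨fun h => absurd h (by simp), fun _ => by
            have e := le_max_left (DB X.P x (X.a i) (X.a i + fs.sum) C0 X.ht a)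
              (DC X.P x (X.a i) (X.a i + fs.sum) a)
            refine le_trans ?_ (add_le_add_left (mul_le_mul_of_nonneg_left
              (add_le_add_left e a) (by norm_num)) _)
            rw [DB]
            push_cast
            simp only [min_def]
            split_ifs <;> linarith⟩⟩ hD,
        fun E hE hH => hp.ms_mono (fun s hs => hs.elim
            (fun h => ⟨h.1, le_trans h.2 (by linarith)⟩) fun h => ⟨le_trans hx0 h.1, h.2⟩)
          I.sub le_rfl (fun _ _ _ _ h => hb.ll1 h)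
          (hp.ms_union (fun s t hs ht => Or.inr (Or.inr (Or.inl (le_trans hs.2 ht.1))))
            (hM E hE hH) (hr.rowB hok hE hlo hhi hs hm X.mh I.cb (hfe E hE)))⟩ hκ
    exact ⟨q, um'', rs', r'', y, k1, k2, by linarith, k4⟩

end Pool.Agent.MP_34f9b1_co.Sym

end MrgPart2

-- ======== part 3: formerly Pool.Agent.MP_34f9b1_co.Sym.Opts
section MrgPart3

namespace Pool.Agent.MP_34f9b1_co.Sym

open Leaf

namespace OptsP

lemma land_le (x m : ℕ) : Nat.land x m ≤ m := Nat.and_le_right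

lemma opts_nil (P : Prof) (O Ol Mu G AV lo hi A n r : ℕ) (κ : ℕ → ℕ → ℕ → Bool) :
    opts P O Ol Mu G AV lo hi [] A n r κ = κ A n r := rfl

lemma opts_cons (P : Prof) (O Ol Mu G AV lo hi : ℕ) (w : Rw) (rs : List Rw) (A n r : ℕ)
    (κ : ℕ → ℕ → ℕ → Bool) :
    opts P O Ol Mu G AV lo hi (w :: rs) A n r κ =
      cond (Nat.beq (Nat.land r 3) 0) (opts P O Ol Mu G AV lo hi rs A n (Nat.shiftRight r 2) κ)
        (cond (Nat.beq (Nat.land r 3) 1)
          (o1ok Ol Mu G lo hi (Nat.land (Nat.shiftRight r 3) 4095)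
              (mval P O G AV w (Nat.testBit r 2)) &&
            opts P O Ol Mu G AV lo hi rs
              (Nat.add A (o1 Ol Mu lo hi (Nat.land (Nat.shiftRight r 3) 4095)
                (mval P O G AV w (Nat.testBit r 2)))) (Nat.succ n) (Nat.shiftRight r 15) κ)
          (opts P O Ol Mu G AV lo hi rs
            (Nat.add A (o2 Ol Mu G lo hi (Nat.land (Nat.shiftRight r 3) 7)
              (Nat.land (Nat.shiftRight r 6) 511) (mval P O G AV w (Nat.testBit r 2))))
            (Nat.succ n) (Nat.shiftRight r 15) κ)) := rfl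

lemma lmin48 (hl : LnStmt) {c : Cx} (hw : c.w = 48) {X Y : ℕ} {x y : ℝ} {A B : ℕ}
    (hX : Lo c X x A) (hY : Lo c Y y B) (hA : A < 2 ^ 47) (hB : B < 2 ^ 47) :
    Lo c (lmin 47 (grd 48 c.n) X Y) (min x y) (min A B) := by
  have h := hl.lo_min hX hY (by rw [hw]; exact hA) (by rw [hw]; exact hB)
  rw [hw] at h
  exact h

lemma add48 (hl : LnStmt) {c : Cx} (hw : c.w = 48) {X Y : ℕ} {x y : ℝ} {A B : ℕ}
    (hX : Lo c X x A) (hY : Lo c Y y B) (h : A + B < 2 ^ 48) :
    Lo c (Nat.add X Y) (x + y) (A + B) :=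
  hl.lo_add hX hY (by rw [hw]; exact h)

lemma mul48 (hl : LnStmt) {c : Cx} (hw : c.w = 48) {X : ℕ} {x : ℝ} {A : ℕ} (k : ℕ)
    (hX : Lo c X x A) (h : k * A < 2 ^ 48) : Lo c (Nat.mul k X) (k * x) (k * A) :=
  hl.lo_mul k hX (by rw [hw]; exact h)

lemma le48 (hl : LnStmt) {c : Cx} (hw : c.w = 48) {X Y : ℕ} {x y : ℝ} {A B : ℕ}
    (hX : Lo c X x A) (hY : Hi c Y y B) (hA : A < 2 ^ 47) (hB : B < 2 ^ 47)
    (h : lge (grd 48 c.n) X Y = true) : y ≤ x :=
  hl.le_of hX hY (by rw [hw]; exact hA) (by rw [hw]; exact hB) (by rw [hw]; exact h)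

lemma mval_lo (hl : LnStmt) (hb : BaseStmt) {P : Prof} {c : Cx} {m a : ℝ} {AV : ℕ} {w : Rw}
    {D : ℝ → ℝ} (hw : c.w = 48) (hP : P.bd = true) (h0 : 0 ≤ a) (hm : a ≤ m)
    (hA : Eqv c AV (4096 * a) 1280) (h : RwOK P c m w D) (alt : Bool) :
    Lo c (mval P (ones 48 c.n) (grd 48 c.n) AV w alt) (33554432 * (D a + a) + 5368709120)
      5502926848 := by
  obtain ⟨z, x1, x2, x3, hz, h1, h2, h3, hD⟩ := h
  obtain ⟨hs, hn⟩ := hD a h0 hm
  have hA' : Eqv c AV (4096 * a) 4096 :=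
    ⟨hl.lo_mono hA.1 le_rfl (by norm_num), hl.hi_mono hA.2 le_rfl (by norm_num)⟩
  have hT := hb.tev hw hP hz hA'
  unfold mval
  cases hsh : w.sh with
  | true =>
    obtain ⟨hs1, hs2⟩ := hs hsh
    cases alt with
    | true => exact hl.lo_mono h3 hs2 le_rfl
    | false =>
      have e1 := mul48 hl hw 2 hT (by norm_num)
      have e2 := add48 hl hw h2 e1 (by norm_num)
      have e3 := lmin48 hl hw h1 e2 (by norm_num) (by norm_num)
      refine hl.lo_mono e3 ?_ (min_le_left _ _)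
      simpa using hs1
  | false =>
    have hn1 := hn hsh
    have e2 := add48 hl hw h2 hT (by norm_num)
    have e3 := lmin48 hl hw h1 e2 (by norm_num) (by norm_num)
    have e4 := mul48 hl hw 4096 hA.1 (by norm_num)
    have e5 := add48 hl hw h3 e4 (by norm_num)
    have e6 := lmin48 hl hw e3 e5 (by norm_num) (by norm_num)
    refine hl.lo_mono e6 ?_ ((min_le_left _ _).trans (min_le_left _ _))
    refine le_trans (le_of_eq ?_) hn1
    congr 2
    push_cast
    ring

lemma o1ok_le (hl : LnStmt) {c : Cx} {f a y : ℝ} {Ol Mu lo hi d M : ℕ} (hw : c.w = 48)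
    (ht : TvE c Ol Mu f) (hlo : lo < hi) (hhi : hi ≤ 40) (ha : 128 * a = lo + f * (hi - lo))
    (hd : d ≤ 4095) (hM : Lo c M (33554432 * (y + a) + 5368709120) 5502926848)
    (h : o1ok Ol Mu (grd 48 c.n) lo hi d M = true) : ((d : ℝ) - 2048) / 2048 ≤ y := by
  unfold o1ok at h
  simp only [Nat.add_eq, Nat.mul_eq] at h
  have e := (ht (5335154688 + 16384 * d + 262144 * lo) (5335154688 + 16384 * d + 262144 * hi)
    (by omega) (by omega)).2
  have := le48 hl hw hM e (by norm_num) (by omega) h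
  push_cast at this
  linarith

lemma o1_lo (hl : LnStmt) {c : Cx} {f a y : ℝ} {Ol Mu lo hi d M : ℕ} (hw : c.w = 48)
    (ht : TvE c Ol Mu f) (hlo : lo < hi) (hhi : hi ≤ 40) (ha : 128 * a = lo + f * (hi - lo))
    (hd : d ≤ 4095) (hM : Lo c M (33554432 * (y + a) + 5368709120) 5502926848) :
    Lo c (o1 Ol Mu lo hi d M)
      (4294967296 * ((lo : ℝ) / 128 * y + ((d : ℝ) - 2048) / 2048 * (a - lo / 128)) +
        4398046511104) (2 ^ 43) := by
  unfold o1
  simp only [Nat.add_eq, Nat.mul_eq, Nat.sub_eq]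
  obtain ⟨k, rfl⟩ : ∃ k, hi = lo + k := ⟨hi - lo, by omega⟩
  rw [Nat.add_sub_cancel_left]
  have b1 : lo * (5368709120 + 262144 * lo) ≤ 40 * (5368709120 + 262144 * 40) :=
    Nat.mul_le_mul (by omega) (by omega)
  have b2 : lo * (5368709120 + 262144 * (lo + k)) ≤ 40 * (5368709120 + 262144 * 40) :=
    Nat.mul_le_mul (by omega) (by omega)
  have b3 : 16384 * d * k ≤ 16384 * 4095 * 40 := Nat.mul_le_mul (by omega) (by omega)
  have e := (ht (4398046511104 - lo * (5368709120 + 262144 * lo))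
    (4398046511104 + 16384 * d * k - (lo * (5368709120 + 262144 * (lo + k)) + 33554432 * k))
    (by omega) (by omega)).1
  have e1 := mul48 hl hw lo hM (by omega)
  have e2 := add48 hl hw e1 e (by omega)
  refine hl.lo_mono e2 (le_of_eq ?_) (by omega)
  rw [Nat.cast_sub (by omega), Nat.cast_sub (by omega)]
  push_cast at ha ⊢
  have ha' : a = (lo + f * k) / 128 := by linarith
  rw [ha']
  ring

lemma o2_lo (hl : LnStmt) {c : Cx} {f a y : ℝ} {Ol Mu lo hi n s M : ℕ} (hw : c.w = 48)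
    (ht : TvE c Ol Mu f) (hlo : lo < hi) (hhi : hi ≤ 40) (ha : 128 * a = lo + f * (hi - lo))
    (hn : n ≤ 7) (hs : s ≤ 511) (hM : Lo c M (33554432 * (y + a) + 5368709120) 5502926848) :
    Lo c (o2 Ol Mu (grd 48 c.n) lo hi n s M)
      (4294967296 * min ((s : ℝ) / 128 * y - n * ((s : ℝ) / 128) ^ 2 / 4)
        ((n + 1) * (2 * (((lo : ℝ) + hi) / 256) * a - (((lo : ℝ) + hi) / 256) ^ 2)) +
        4398046511104) (2 ^ 43) := by
  have hu : o2 Ol Mu (grd 48 c.n) lo hi n s M = lmin 47 (grd 48 c.n)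
      (Nat.add (Nat.mul s M) (tv Ol Mu
        (4398046511104 - s * (5368709120 + 262144 * lo + 65536 * (n * s)))
        (4398046511104 - s * (5368709120 + 262144 * hi + 65536 * (n * s)))))
      (tv Ol Mu
        (4398046511104 + 65536 * (n + 1) * (lo + hi) * (3 * lo) - 65536 * (n + 1) * (lo + hi) * hi)
        (4398046511104 + 65536 * (n + 1) * (lo + hi) * (3 * hi - lo))) := rfl
  rw [hu]
  have b0 : n * s ≤ 7 * 511 := Nat.mul_le_mul hn hs
  have b1 : s * (5368709120 + 262144 * lo + 65536 * (n * s)) ≤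
      511 * (5368709120 + 262144 * 40 + 65536 * (7 * 511)) := Nat.mul_le_mul hs (by omega)
  have b2 : s * (5368709120 + 262144 * hi + 65536 * (n * s)) ≤
      511 * (5368709120 + 262144 * 40 + 65536 * (7 * 511)) := Nat.mul_le_mul hs (by omega)
  have b3 : 65536 * (n + 1) * (lo + hi) ≤ 65536 * 8 * 80 := Nat.mul_le_mul (by omega) (by omega)
  have b4 : 65536 * (n + 1) * (lo + hi) * (3 * lo) ≤ 65536 * 8 * 80 * 120 :=
    Nat.mul_le_mul b3 (by omega)
  have b5 : 65536 * (n + 1) * (lo + hi) * hi ≤ 65536 * 8 * 80 * 120 :=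
    Nat.mul_le_mul b3 (by omega)
  have b6 : 65536 * (n + 1) * (lo + hi) * (3 * hi - lo) ≤ 65536 * 8 * 80 * 120 :=
    Nat.mul_le_mul b3 (by omega)
  have e := (ht (4398046511104 - s * (5368709120 + 262144 * lo + 65536 * (n * s)))
    (4398046511104 - s * (5368709120 + 262144 * hi + 65536 * (n * s))) (by omega) (by omega)).1
  have e' := (ht
    (4398046511104 + 65536 * (n + 1) * (lo + hi) * (3 * lo) - 65536 * (n + 1) * (lo + hi) * hi)
    (4398046511104 + 65536 * (n + 1) * (lo + hi) * (3 * hi - lo)) (by omega) (by omega)).1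
  have e1 := mul48 hl hw s hM (by omega)
  have e2 := add48 hl hw e1 e (by omega)
  have e3 := lmin48 hl hw e2 e' (by omega) (by omega)
  refine hl.lo_mono e3 (le_of_eq ?_) ((min_le_right _ _).trans (by omega))
  rw [Nat.cast_sub (by omega), Nat.cast_sub (by omega), Nat.cast_sub (by omega)]
  have h3 : ((3 * hi - lo : ℕ) : ℝ) = 3 * hi - lo := by
    rw [Nat.cast_sub (by omega)]
    push_cast
    ring
  have ha' : a = (lo + f * (hi - lo)) / 128 := by linarith
  rw [mul_min_of_nonneg _ _ (by norm_num : (0 : ℝ) ≤ 4294967296), ← min_add_add_right]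
  push_cast [h3]
  rw [ha']
  congr 1 <;> ring

end OptsP

open OptsP in
theorem optsS (_hd : DgStmt) (hl : LnStmt) (hb : BaseStmt) (hp : PkStmt) : OptsStmt := by
  intro P c m f a Ol Mu AV lo hi hw hP ht hlo hhi hf0 hf1 ha hm hA rs
  have hlh : (lo : ℝ) < hi := by exact_mod_cast hlo
  have hlo0 : (0 : ℝ) ≤ lo := Nat.cast_nonneg _
  have hfk : 0 ≤ f * ((hi : ℝ) - lo) := mul_nonneg hf0 (by linarith)
  have h0 : 0 ≤ a := by linarith
  induction rs with
  | nil =>
    intro Ds ss h1 h2 A n r B κ x hx _ h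
    cases h1
    cases h2
    exact ⟨A, 0, r, h, le_rfl, hl.lo_mono hx (by simp) (by simp)⟩
  | cons w rs ih =>
    intro Ds ss h1 h2 A n r B κ x hx hB h
    obtain _ | ⟨hw1, h1⟩ := h1
    obtain _ | ⟨hs1, h2⟩ := h2
    rename_i D Ds s ss
    rw [List.length_cons] at hB
    have hB2 : B + rs.length * 2 ^ 43 ≤ B + (rs.length + 1) * 2 ^ 43 :=
      Nat.add_le_add_left (Nat.mul_le_mul_right _ (Nat.le_succ _)) _
    have hB1 : B + rs.length * 2 ^ 43 < 2 ^ 47 := lt_of_le_of_lt hB2 hB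
    have hM := mval_lo hl hb hw hP h0 hm hA hw1 (Nat.testBit r 2)
    have step : ∀ (Y r' : ℕ) (y : ℝ), Lo c Y (4294967296 * y + 4398046511104) (2 ^ 43) → y ≤ s →
        opts P (ones 48 c.n) Ol Mu (grd 48 c.n) AV lo hi rs (Nat.add A Y) (Nat.succ n) r' κ =
          true →
        ∃ A' d r', κ A' (n + d) r' = true ∧ d ≤ (w :: rs).length ∧
          Lo c A' (x + 4294967296 * (s :: ss).sum + d * 4398046511104)
            (B + (w :: rs).length * 2 ^ 43) := by
      intro Y r' y hY hy h'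
      have e := add48 hl hw hx hY (by omega)
      obtain ⟨A', d, r'', k1, k2, k3⟩ := ih Ds ss h1 h2 _ _ _ _ κ _ e (by omega) h'
      refine ⟨A', d + 1, r'', ?_, by rw [List.length_cons]; omega, hl.lo_mono k3 ?_ ?_⟩
      · rw [show n + (d + 1) = Nat.succ n + d by omega]
        exact k1
      · rw [List.sum_cons]
        push_cast
        linarith
      · rw [List.length_cons]
        omega
    rw [opts_cons] at h
    cases e0 : Nat.beq (Nat.land r 3) 0 with
    | true =>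
      rw [e0, cond_true] at h
      obtain ⟨A', d, r'', k1, k2, k3⟩ := ih Ds ss h1 h2 _ _ _ _ κ _ hx hB1 h
      refine ⟨A', d, r'', k1, Nat.le_succ_of_le k2, hl.lo_mono k3 ?_ hB2⟩
      have := hp.area0 hs1
      rw [List.sum_cons]
      linarith
    | false =>
      rw [e0, cond_false] at h
      cases e1 : Nat.beq (Nat.land r 3) 1 with
      | true =>
        rw [e1, cond_true, Bool.and_eq_true] at h
        have hd4 := land_le (Nat.shiftRight r 3) 4095
        have k := o1ok_le hl hw ht hlo hhi ha hd4 hM h.1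
        exact step _ _ _ (o1_lo hl hw ht hlo hhi ha hd4 hM)
          (hp.area1 hs1 (by positivity) (by linarith) le_rfl k) h.2
      | false =>
        rw [e1, cond_false] at h
        exact step _ _ _ (o2_lo hl hw ht hlo hhi ha (land_le _ 7) (land_le _ 511) hM)
          (hp.area2 _ _ _ hs1 h0 (by positivity) le_rfl) h

end Pool.Agent.MP_34f9b1_co.Sym

end MrgPart3

-- ======== part 4: formerly Pool.Agent.MP_34f9b1_co.Sym.Fin
section MrgPart4

namespace Pool.Agent.MP_34f9b1_co.Sym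

open Leaf

namespace FinP

lemma sqs_nil : sqs [] = 0 := rfl

lemma sqs_cons (a : ℝ) (l : List ℝ) : sqs (a :: l) = a ^ 2 + sqs l := by
  simp [sqs]

lemma sqs_append (l m : List ℝ) : sqs (l ++ m) = sqs l + sqs m := by
  simp [sqs]

lemma sqs_nonneg (l : List ℝ) : 0 ≤ sqs l := by
  induction l with
  | nil => exact le_rfl
  | cons a l ih => rw [sqs_cons]; positivity

lemma okB_cons (x : ℕ × ℕ) (b : Box) :
    okB (x :: b) = (Nat.ble x.1 x.2 && Nat.ble x.2 4096 && okB b) := rfl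

lemma arV_cons (x : ℕ × ℕ) (b : Box) (X : ℕ) (t : List ℕ) :
    arV (x :: b) (X :: t) = Nat.add (Nat.mul (Nat.add x.1 x.2) X) (arV b t) := rfl

lemma arC_cons (x : ℕ × ℕ) (b : Box) :
    arC (x :: b) = (x.1 + x.2) * (x.1 + x.2) + arC b := rfl

lemma land_le (x m : ℕ) : Nat.land x m ≤ m := Nat.and_le_right

lemma lo_zero (hl : LnStmt) (c : Cx) (B : ℕ) : Lo c 0 0 B := by
  have h := (hl.const c 0 (Nat.two_pow_pos _)).1
  rw [Nat.mul_eq, Nat.zero_mul] at h
  exact hl.lo_mono h (by simp) (Nat.zero_le _)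

lemma arC_le (b : Box) (h : okB b = true) : arC b ≤ b.length * 67108864 := by
  induction b with
  | nil => exact le_rfl
  | cons x b ih =>
    simp only [okB_cons, Bool.and_eq_true, Nat.ble_eq] at h
    obtain ⟨⟨h1, h2⟩, h3⟩ := h
    have h4 : (x.1 + x.2) * (x.1 + x.2) ≤ 8192 * 8192 := Nat.mul_le_mul (by omega) (by omega)
    have := ih h3
    rw [arC_cons, List.length_cons]
    omega

lemma arV_lo (hl : LnStmt) {c : Cx} (hw : c.w = 48) (b : Box) :
    ∀ (xs : List ℕ) (l : List ℝ), okB b = true → b.length ≤ 15 → b.length ≤ l.length →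
      (∀ i < b.length, Eqv c (nth xs i) (4096 * l.getD i 0) 4096) →
      ∃ y : ℝ, Lo c (arV b xs) y (b.length * 33554432) ∧
        256 * y ≤ 64 * (arC b : ℝ) + 4294967296 * sqs (l.take b.length) := by
  induction b with
  | nil => exact fun xs l _ _ _ _ => ⟨0, lo_zero hl c _, by simp [sqs_nil]⟩
  | cons x b ih =>
    intro xs l h h15 hlen he
    rcases xs with _ | ⟨X, t⟩
    · refine ⟨0, lo_zero hl c _, ?_⟩
      have := sqs_nonneg (l.take (x :: b).length)
      rw [mul_zero]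
      positivity
    rcases l with _ | ⟨a, l⟩
    · simp at hlen
    simp only [okB_cons, Bool.and_eq_true, Nat.ble_eq] at h
    obtain ⟨⟨h1, h2⟩, h3⟩ := h
    rw [List.length_cons] at h15 he
    rw [List.length_cons, List.length_cons] at hlen
    obtain ⟨y, hy, hy'⟩ := ih t l h3 (by omega) (by omega) fun i hi => he (i + 1) (by omega)
    have h0 : Lo c X (4096 * a) 4096 := (he 0 (by omega)).1
    have h5 := hl.lo_mul (Nat.add x.1 x.2) h0 (by rw [hw, Nat.add_eq]; omega)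
    have h6 := hl.lo_add h5 hy (by rw [hw, Nat.add_eq]; omega)
    refine ⟨_, hl.lo_mono h6 le_rfl (by rw [Nat.add_eq, List.length_cons]; omega), ?_⟩
    rw [List.length_cons, List.take_succ_cons, sqs_cons, arC_cons, Nat.add_eq]
    push_cast
    nlinarith [sq_nonneg ((x.1 : ℝ) + x.2 - 8192 * a)]

/-- The distance of a level from a constant level. -/
lemma gap (hd : DgStmt) (hl : LnStmt) {c : Cx} (hw : c.w = 48) {p u B : ℕ} {x : ℝ}
    (hp : Lev c p x) (hu : u ≤ 16384) (hB : B ≤ 16384)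
    (h1 : lge (grd 48 c.n) (Nat.mul u (ones 48 c.n)) p = true)
    (h2 : lge (grd 48 c.n) (Nat.mul B (ones 48 c.n)) (Nat.sub (Nat.mul u (ones 48 c.n)) p) = true) :
    Eqv c (Nat.sub (Nat.mul u (ones 48 c.n)) p) (u - 16384 * (x + 1 / 2)) B := by
  have hc := hl.const c u (by rw [hw]; omega)
  rw [← hw] at h1 h2 ⊢
  have h47 : 16384 < 2 ^ (c.w - 1) := by rw [hw]; omega
  have h3 := hd.lge (by omega) hc.1.1 hp.1.1 (by omega) h47 h1
  have h4 := hl.lo_sub hc.1 hp.2 h3
  have h5 := hl.hi_sub hc.2 hp.1 h3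
  have h6 := hl.bd_of B (by omega) h4.1 (by omega) (by omega) h2
  exact ⟨⟨h6, h4.2⟩, h6, h5.2⟩

lemma map_getD (l : List ℝ) (k : ℕ) (hk : k ≤ l.length) :
    (List.range k).map (fun i => l.getD i 0) = l.take k := by
  refine List.ext_getElem (by simp [hk]) fun i h1 h2 => ?_
  have : i < l.length := by simp at h1; omega
  simp [this]

lemma srt_drop {l : List ℝ} (h : Srt l) (k : ℕ) : Srt (l.drop k) :=
  ⟨h.1.sublist (List.drop_sublist k l), fun x hx => h.2 x (List.mem_of_mem_drop hx)⟩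

lemma getD_eq (l : List ℝ) {i : ℕ} (hi : i < l.length) : l.getD i 0 = l[i] := by simp [hi]

lemma getD_anti {l : List ℝ} (h : Srt l) {i j : ℕ} (hij : i ≤ j) (hj : j < l.length) :
    l.getD j 0 ≤ l.getD i 0 := by
  rw [getD_eq _ hj, getD_eq _ (by omega : i < l.length)]
  rcases hij.eq_or_lt with rfl | hlt
  · exact le_rfl
  · exact List.pairwise_iff_getElem.1 h.1 i j _ _ hlt

lemma le_of_mem_drop {l : List ℝ} (h : Srt l) {k : ℕ} {x : ℝ} (hx : x ∈ l.drop k) :
    x ≤ l.getD k 0 := by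
  obtain ⟨i, hi, rfl⟩ := List.mem_iff_getElem.1 hx
  rw [List.length_drop] at hi
  rw [List.getElem_drop, ← getD_eq]
  exact getD_anti h (by omega) (by omega)

end FinP

open FinP in
theorem finS (hd : DgStmt) (hl : LnStmt) (hb : BaseStmt) (hp : PkStmt) (hg : GrpStmt) :
    FinStmt := by
  intro X H tc b l Ol Mu h p0 p um r rs x0 x hT hk hok hs hq hlen ha hm hTv h1 h40 hmh L0 L1 hx
    hSt hf E hE hH
  unfold fin at hf
  simp only [hd.frc, Bool.and_eq_true, Nat.beq_eq, Nat.ble_eq] at hf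
  have b1 := land_le (Nat.shiftRight h 13) 31
  have b2 := land_le (Nat.shiftRight h 23) 7
  generalize Nat.land (Nat.shiftRight h 6) 127 = i0 at hf
  generalize Nat.land (Nat.shiftRight h 13) 31 = ni at hf b1
  generalize Nat.land (Nat.shiftRight h 18) 31 = r0 at hf
  generalize Nat.land (Nat.shiftRight h 23) 7 = nr at hf b2
  obtain ⟨⟨⟨⟨⟨⟨⟨c1, c2⟩, c3⟩, c4⟩, c5⟩, c6⟩, c7⟩, d1, d2, d3, d4, d5⟩ := hf
  rw [Nat.add_eq] at c4 c7
  have e1 : Nat.sub 16384 (Nat.mul 128 i0) = 16384 - 128 * i0 := rfl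
  have e2 : Nat.sub 7936 (Nat.mul 256 r0) = 7936 - 256 * r0 := rfl
  have g1 := gap hd hl X.w48 L1 (by rw [e1]; omega) (by rw [Nat.mul_eq]; omega) d1 d2
  have g2 := gap hd hl X.w48 L0 (by rw [e2]; omega) (by rw [Nat.mul_eq]; omega) d3 d4
  have v1 : ((Nat.sub 16384 (Nat.mul 128 i0) : ℕ) : ℝ) - 16384 * (x + 1 / 2) =
      64 * (256 * (1 / 2 - x) - 2 * i0) := by
    rw [e1, Nat.cast_sub (by omega)]; push_cast; ring
  have v2 : ((Nat.sub 7936 (Nat.mul 256 r0) : ℕ) : ℝ) - 16384 * (x0 + 1 / 2) =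
      64 * (256 * (-x0 + 1 / 2) - (132 + 4 * r0)) := by
    rw [e2, Nat.cast_sub (by omega)]; push_cast; ring
  rw [v1] at g1
  rw [v2] at g2
  have k15 := X.k15
  obtain ⟨y, hy, hy'⟩ := arV_lo hl X.w48 b X.xs l hok (by omega) (by omega)
    fun i hi => ha i (hk ▸ hi) ▸ X.xe i (hk ▸ hi)
  have hA := hl.lo_mono (hl.lo_mul 256 hy (by rw [X.w48]; omega)) le_rfl
    (show _ ≤ 2 ^ 38 by omega)
  have hC := arC_le b hok
  obtain ⟨Ds, hD, hM⟩ := hSt
  have hM := hM E hE hH
  have e3 : pcs X.k X.a um = l.take X.k := by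
    rw [hb.pcs2 _ _ _ c1, ← map_getD l X.k hlen.le]
    exact List.map_congr_left fun i hi => ha i (List.mem_range.1 hi)
  rw [e3] at hM
  have hsep : Sep (Strip x0 x) (Out x (-x0)) := by
    rintro s t ⟨s1, s2⟩ (t1 | t1)
    · exact Or.inr (Or.inr (Or.inl (le_trans s2 t1)))
    · rw [neg_neg] at t1
      exact Or.inr (Or.inr (Or.inr (le_trans t1 s1)))
  rcases hp.ms_run hsep hM (srt_drop hs X.k) (fun z hz => hm ▸ le_of_mem_drop hs hz) with
    h2 | ⟨l1, a, l2, e4, ⟨ss, s1, s2⟩, s3⟩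
  · rw [List.take_append_drop] at h2
    exact hp.mono (fun _ _ => trivial) h2
  exfalso
  have hs' := srt_drop hs X.k
  have ham : a ≤ X.m := hm ▸ le_of_mem_drop hs (by rw [e4]; simp)
  rw [e4] at hs'
  have hs2 : Srt (a :: l2) :=
    ⟨hs'.1.sublist (List.sublist_append_right _ _), fun z hz => hs'.2 z (by simp [hz])⟩
  rcases hg X tc rs Ds ss l2 Ol Mu _ _ _ _ i0 ni r0 nr 41 _ r E x (-x0) a _ hT hE hTv hD s1 c2
    hs2 ham c3 b1 c4 c5 b2 c6 c7 g1 g2 (by rw [neg_neg]; exact hx) hA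
    (by rw [Nat.add_eq, Nat.mul_eq]; omega) h1 h40 (by linarith) d5 with h3 | h3
  · exact s3 h3
  · have e5 : sqs l = sqs (l.take X.k) + (sqs l1 + sqs (a :: l2)) := by
      rw [← sqs_append, ← e4, ← sqs_append, List.take_append_drop]
    rw [Nat.add_eq, Nat.mul_eq] at h3
    rw [hk] at hy'
    push_cast at h3
    linarith

end Pool.Agent.MP_34f9b1_co.Sym

end MrgPart4

-- ======== part 5: formerly Pool.Agent.MP_34f9b1_co.Sym.LeafA
section MrgPart5

namespace Pool.Agent.MP_34f9b1_co.Sym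

open Leaf

namespace FinP

lemma arL_cons (x : ℕ × ℕ) (b : Box) : arL (x :: b) = x.1 * x.1 + arL b := rfl

lemma lastU_cons (x : ℕ × ℕ) (b : Box) (u : ℕ) : lastU (x :: b) u = lastU b x.2 := rfl

lemma lastU_eq (b : Box) : ∀ (x : ℕ × ℕ) (u : ℕ),
    lastU (x :: b) u = ((x :: b).getD b.length (0, 0)).2 := by
  induction b with
  | nil => exact fun _ _ => rfl
  | cons y b ih => exact fun x u => (lastU_cons x _ u).trans (ih y x.2)

lemma arL_le (b : Box) : ∀ l : List ℝ, b.length ≤ l.length → InB b l →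
    (arL b : ℝ) ≤ 16777216 * sqs (l.take b.length) := by
  induction b with
  | nil => exact fun l _ _ => by simp [sqs_nil, show arL [] = 0 from rfl]
  | cons x b ih =>
    intro l hlen h
    rcases l with _ | ⟨a, l⟩
    · simp at hlen
    rw [List.length_cons, List.length_cons] at hlen
    have h1 := ih l (by omega) fun i hi => h (i + 1) (by rw [List.length_cons]; omega)
    have h0 : (x.1 : ℝ) ≤ 4096 * a := (h 0 (by simp)).1
    rw [List.length_cons, List.take_succ_cons, sqs_cons, arL_cons]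
    push_cast
    have h2 : (0 : ℝ) ≤ x.1 := Nat.cast_nonneg _
    nlinarith [mul_self_le_mul_self h2 h0]

lemma sqs_take (l : List ℝ) {k : ℕ} (hk : k < l.length) :
    sqs (l.take k) + l.getD k 0 ^ 2 ≤ sqs l := by
  have e : sqs l = sqs (l.take k) + sqs (l.drop k) := by
    rw [← sqs_append, List.take_append_drop]
  rw [e, List.drop_eq_getElem_cons hk, sqs_cons, getD_eq _ hk]
  have := sqs_nonneg (l.drop (k + 1))
  linarith

lemma two_le {l : List ℝ} (hq : sqs l ≤ 1 / 2) (h : 2 ≤ l.length) :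
    l.getD 0 0 + l.getD 1 0 ≤ 1 := by
  rcases l with _ | ⟨a, _ | ⟨b, l⟩⟩
  · simp at h
  · simp at h
  rw [sqs_cons, sqs_cons] at hq
  have := sqs_nonneg l
  show a + b ≤ 1
  nlinarith [sq_nonneg (a - b), sq_nonneg (a + b - 1)]

lemma getD_nonneg {l : List ℝ} (h : Srt l) {k : ℕ} (hk : k < l.length) : 0 ≤ l.getD k 0 := by
  rw [getD_eq _ hk]
  exact h.2 _ (List.getElem_mem hk)

/-- The bound on the sizes of the tail. -/
lemma tail_bd (hl : LnStmt) {c : Cx} (hw : c.w = 48) {b : Box} {l : List ℝ} {xs : List ℕ}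
    {t : Bool} {d hi : ℕ} (hs : Srt l) (hq : sqs l ≤ 1 / 2) (h1 : 1 ≤ b.length)
    (hlen : b.length < l.length) (hb : InB b l) (hd : d ≤ 4095)
    (he : ∀ i < b.length, Eqv c (nth xs i) (4096 * l.getD i 0) 4096)
    (h : cond t (Nat.ble (lastU b 0) (Nat.mul 32 hi))
      (Nat.ble d (Nat.mul 32 hi) && Nat.ble 8388608 (Nat.add (arL b) (Nat.mul d d))) = true) :
    ∃ ht : ℝ, Eqv c (cond t (nth xs (Nat.pred b.length)) (Nat.mul d (ones 48 c.n))) (4096 * ht)
      4096 ∧ l.getD b.length 0 ≤ ht ∧ 128 * l.getD b.length 0 ≤ hi := by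
  cases t
  · simp only [cond_false, Bool.and_eq_true, Nat.ble_eq, Nat.mul_eq, Nat.add_eq] at h ⊢
    obtain ⟨h2, h3⟩ := h
    have h4 := hl.const c d (by rw [hw]; omega)
    rw [hw, Nat.mul_eq] at h4
    have h5 := arL_le b l hlen.le hb
    have h6 := sqs_take l hlen
    have h7 : (8388608 : ℝ) ≤ arL b + d * d := by exact_mod_cast h3
    have h8 : (d : ℝ) ≤ 32 * hi := by exact_mod_cast h2
    have h9 : 4096 * l.getD b.length 0 ≤ d :=
      abs_le_of_sq_le_sq' (by nlinarith) (Nat.cast_nonneg d) |>.2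
    refine ⟨d / 4096, ?_, by linarith, by linarith⟩
    rw [mul_div_cancel₀ _ (by norm_num)]
    exact ⟨hl.lo_mono h4.1 le_rfl (by omega), hl.hi_mono h4.2 le_rfl (by omega)⟩
  · simp only [cond_true, Nat.ble_eq, Nat.mul_eq] at h ⊢
    rcases b with _ | ⟨x, b⟩
    · simp at h1
    rw [lastU_eq] at h
    rw [List.length_cons] at hlen he ⊢
    have h2 := (hb b.length (by simp)).2
    have h3 := getD_anti hs (Nat.le_succ b.length) hlen
    have h4 : (((x :: b).getD b.length (0, 0)).2 : ℝ) ≤ 32 * hi := by exact_mod_cast h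
    exact ⟨l.getD b.length 0, he b.length (by omega), h3, by linarith⟩

end FinP

open FinP in
theorem leafS (hd : DgStmt) (hl : LnStmt) (hb : BaseStmt) (hp : PkStmt) (hv : VecStmt)
    (hn : RowNStmt) (ho : ObstStmt) (hf : FinStmt) : LeafStmt := by
  intro P tc hP hT b r h E hE l hs hq hlen hin
  unfold leaf at h
  simp only [hd.frc, Bool.and_eq_true, Nat.ble_eq] at h
  obtain ⟨⟨⟨k1, k15⟩, hok⟩, ⟨⟨h1, h40⟩, h2⟩, h3⟩ := h
  obtain ⟨c, hw, hcn, he, hTv⟩ := hv b l hok hs hin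
  rw [show Nat.succ b.length = b.length + 1 from rfl, ← hcn] at h3
  obtain ⟨ht, t1, t2, t3⟩ := tail_bd hl hw hs hq k1 (by omega) hin (land_le _ _) he h2
  let X : Ctx :=
    { P := P, c := c, xs := _, k := b.length, HT := _, a := fun i => l.getD i 0, ht := ht
      m := l.getD b.length 0, w48 := hw, bd := hP, k15 := k15, xe := he, he := t1
      anti := fun i j hij hj => getD_anti hs hij (by omega)
      ma := fun i hi => getD_anti hs hi.le (by omega)
      m0 := getD_nonneg hs (by omega), mh := t2, two := fun _ => two_le hq (by omega) }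
  obtain ⟨p0, r1, x0, h4, L0⟩ := hb.aff X (hb.zero hw) h3
  have S0 : St X (fun _ => True) x0 x0 0 [] := by
    refine ⟨[], List.Forall₂.nil, fun E _ _ => ?_⟩
    rw [hb.pcs0]
    exact hp.ms_mono (Q := Strip x0 x0) (fun _ h => h) (List.Subperm.refl _) le_rfl
      (fun _ _ _ _ h => hb.ll0 h) hp.ms_nil
  obtain ⟨q, um, rs, r2, y, h5, L1, hy, S1⟩ := hn X _ _ p0 0 [] r1 _ x0 x0 L0 le_rfl S0 h4
  have key := fun H p um r rs x => hf X H tc b l _ _ _ p0 p um r rs x0 x hT rfl hok hs hq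
    (show b.length < _ by omega) (fun _ _ => rfl) rfl hTv h1 h40 t3 L0
  cases hr : Nat.testBit r 39
  · rw [hr, cond_false] at h5
    exact key _ q um r2 rs y L1 hy S1 h5 E hE trivial
  · rw [hr, cond_true] at h5
    obtain ⟨H, q', um', rs', r3, y', hS, h6, L2, hy', S2⟩ := ho X q um rs r2 _ x0 y L1 hy S1 h5
    have h7 := key H q' um' r3 rs' y' L2 (hy.trans hy') S2 h6
    rcases hS E hE with h8 | h8
    · exact h7 E hE h8
    · exact hp.mirror (h7 _ (hp.ext_mirror hE) h8)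

end Pool.Agent.MP_34f9b1_co.Sym

end MrgPart5

-- ======== part 6: formerly Pool.Agent.MP_34f9b1_co.Sym.Fast
section MrgPart6

namespace Pool.Agent.MP_34f9b1_co.Sym

namespace Fast

open Leaf

/-- Conjunction. -/
noncomputable def an (a b : Bool) : Bool := @Bool.rec (fun _ => Bool) false b a

/-- Disjunction. -/
noncomputable def orr (a b : Bool) : Bool := @Bool.rec (fun _ => Bool) b true a

/-- Choice of a number. -/
noncomputable def cN (c : Bool) (a b : Nat) : Nat := @Bool.rec (fun _ => Nat) b a c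

/-- Choice of a truth value. -/
noncomputable def cB (c : Bool) (a b : Bool) : Bool := @Bool.rec (fun _ => Bool) b a c

/-- Evaluate `x` first. -/
noncomputable def fb (x : Nat) (f : Nat → Bool) : Bool :=
  @Nat.rec (fun _ => Bool) false (fun a _ => f a) (Nat.succ x)

/-- Bit test. -/
def bt (r i : Nat) : Bool := Nat.beq (Nat.land (Nat.shiftRight r i) 1) 1

/-- Length. -/
noncomputable def len {α : Type} (l : List α) : Nat :=
  List.rec (motive := fun _ => Nat) 0 (fun _ _ r => Nat.succ r) l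

/-- `lsub 47`. -/
def ls (G X Y : Nat) : Nat :=
  Nat.land (Nat.sub (Nat.add X G) Y) (Nat.sub (Nat.land (Nat.sub (Nat.add X G) Y) G)
    (Nat.shiftRight (Nat.land (Nat.sub (Nat.add X G) Y) G) 47))

/-- `lmin 47`. -/
def lm (G X Y : Nat) : Nat :=
  Nat.sub X (Nat.land (Nat.sub (Nat.add X G) Y) (Nat.sub (Nat.land (Nat.sub (Nat.add X G) Y) G)
    (Nat.shiftRight (Nat.land (Nat.sub (Nat.add X G) Y) G) 47)))

/-- Core of `Leaf.tz`. -/
def tz2 (P : Prof) (G A OA KO Y : Nat) : Nat :=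
  Nat.add (Nat.mul 1024 A)
    (lm G (lm G (Nat.sub (Nat.add (Nat.mul P.a1 OA) KO) (Nat.mul P.b1 Y))
        (Nat.sub (Nat.add (Nat.mul P.a2 OA) KO) (Nat.mul P.b2 Y)))
      (lm G (Nat.sub (Nat.add (Nat.mul P.a3 OA) KO) (Nat.mul P.b3 Y))
        (Nat.sub (Nat.add (Nat.mul P.a4 OA) KO) (Nat.mul P.b4 Y))))

/-- `Leaf.tz`. -/
def tzF (P : Prof) (O G Z X : Nat) : Nat :=
  tz2 P G (Nat.mul 4 X) (Nat.sub (Nat.mul 16384 O) (Nat.mul 4 X)) (Nat.mul 1073741824 O)
    (ls G (Nat.add Z (Nat.mul 2 X)) (Nat.mul 8192 O))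

/-- Parameter of the strip from `p` to `q`. -/
def zF (O G p q : Nat) : Nat :=
  Nat.add (Nat.sub (Nat.mul 16384 O) q) (ls G p (Nat.sub (Nat.mul 16384 O) q))

/-- First pass: length, repetition pattern, `arC`, `arL`, last upper end. -/
noncomputable def pass1 (b : Box) : Nat → Nat → Nat → Nat → Nat → Nat →
    (Nat → Nat → Nat → Nat → Nat → Bool) → Bool :=
  List.rec (motive := fun _ => Nat → Nat → Nat → Nat → Nat → Nat →
      (Nat → Nat → Nat → Nat → Nat → Bool) → Bool)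
    (fun i _ pu p ac al κ => κ i p ac al pu)
    (fun x _ r i pl pu p ac al κ => an (Nat.ble x.1 x.2) (an (Nat.ble x.2 4096)
      (r (Nat.succ i) x.1 x.2
        (Nat.add p (cN (an (Nat.beq x.1 pl) (Nat.beq x.2 pu)) (Nat.pow 2 i) 0))
        (Nat.add ac (Nat.mul (Nat.add x.1 x.2) (Nat.add x.1 x.2)))
        (Nat.add al (Nat.mul x.1 x.1)) κ))) b

/-- One step of the second pass. -/
noncomputable def step2 (W i d XS av s X : Nat)
    (r : Nat → Nat → Nat → Nat → (Nat → Nat → Bool) → Bool) (κ : Nat → Nat → Bool) : Bool :=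
  an (Nat.ble (Nat.succ X) (Nat.pow 2 W))
    (r (Nat.succ i) (Nat.sub d 1) (Nat.add XS (Nat.shiftLeft X (Nat.mul W i)))
      (Nat.add av (Nat.mul s X)) κ)

/-- Second pass: the vertex vectors packed with stride `W`, and `arV`. -/
noncomputable def pass2 (p O W : Nat) (b : Box) :
    Nat → Nat → Nat → Nat → (Nat → Nat → Bool) → Bool :=
  List.rec (motive := fun _ => Nat → Nat → Nat → Nat → (Nat → Nat → Bool) → Bool)
    (fun _ _ XS av κ => κ XS av)
    (fun x _ r i d XS av κ => step2 W i d XS av (Nat.add x.1 x.2)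
      (Nat.add (Nat.mul x.1 O) (Nat.mul (Nat.sub x.2 x.1) (mk p i d))) r κ) b

/-- `Leaf.suf`. -/
noncomputable def sufF (xf : Nat → Nat) (k m : Nat) : Nat :=
  Nat.rec (motive := fun _ => Nat) 0 (fun j r => Nat.add r (xf (Nat.sub (Nat.sub k 1) j))) m

/-- `Leaf.terms`. -/
noncomputable def termsF (xf : Nat → Nat) (k HT cnt : Nat) :
    Nat → Nat → Nat → (Nat → Nat → Nat → Bool) → Bool :=
  Nat.rec (motive := fun _ => Nat → Nat → Nat → (Nat → Nat → Nat → Bool) → Bool)
    (fun p q r κ => κ p q r)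
    (fun _ ih p q r κ =>
      an (orr (Nat.beq (Nat.land r 15) 15) (Nat.ble (Nat.succ (Nat.land r 15)) k))
        (cB (bt r 4)
          (ih p (Nat.add q (Nat.mul (Nat.land (Nat.shiftRight r 5) 15)
            (cN (Nat.beq (Nat.land r 15) 15) HT (xf (Nat.land r 15))))) (Nat.shiftRight r 9) κ)
          (ih (Nat.add p (Nat.mul (Nat.land (Nat.shiftRight r 5) 15)
            (cN (Nat.beq (Nat.land r 15) 15) HT (xf (Nat.land r 15))))) q
            (Nat.shiftRight r 9) κ))) cnt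

/-- `Leaf.aff`. -/
noncomputable def affF (xf : Nat → Nat) (k HT O G base r : Nat) (κ : Nat → Nat → Bool) : Bool :=
  termsF xf k HT (Nat.land (Nat.shiftRight r 18) 7)
    (Nat.add (cN (bt r 0) base 0) (Nat.mul (Nat.land (Nat.shiftRight r 1) 131071) O))
    (Nat.mul 32768 O) (Nat.shiftRight r 21) fun p q r =>
      an (lge G p q) (an (lge G (Nat.mul 16384 O) (Nat.sub p q)) (κ (Nat.sub p q) r))

/-- `Leaf.fol`. -/
noncomputable def folF (P : Prof) (xf : Nat → Nat) (k O G Z T1 cnt : Nat) :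
    Nat → Nat → Nat → Nat → Nat → (Nat → Nat → Nat → Nat → Bool) → Bool :=
  Nat.rec (motive := fun _ => Nat → Nat → Nat → Nat → Nat → (Nat → Nat → Nat → Nat → Bool) → Bool)
    (fun _ S C um r κ => κ S C um r)
    (fun _ ih pi S C um r κ =>
      an (an (Nat.ble (Nat.succ pi) (Nat.land r 15)) (Nat.ble (Nat.succ (Nat.land r 15)) k))
        (ih (Nat.land r 15) (Nat.add S (xf (Nat.land r 15)))
          (lm G C (Nat.sub (Nat.add (Nat.add T1 (tzF P O G Z (xf (Nat.land r 15))))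
            (Nat.mul 268435456 O)) (Nat.mul 4096 (Nat.add S (xf (Nat.land r 15))))))
          (Nat.lor um (Nat.pow 2 (Nat.land r 15))) (Nat.shiftRight r 4) κ)) cnt

/-- One full row. -/
noncomputable def rowN1 (P : Prof) (xf : Nat → Nat) (k HT O G p um : Nat) (rs : List Rw) (r : Nat)
    (κ : Nat → Nat → List Rw → Nat → Bool)
    (ih : Nat → Nat → List Rw → Nat → (Nat → Nat → List Rw → Nat → Bool) → Bool)
    (X q Z T1 : Nat) : Bool :=
  an (Nat.ble (Nat.succ (Nat.land r 15)) k) (an (lge G (Nat.mul 16384 O) q)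
    (folF P xf k O G Z T1 (Nat.land (Nat.shiftRight r 5) 7) (Nat.land r 15) X
      (Nat.mul 2483027968 O) (Nat.lor um (Nat.pow 2 (Nat.land r 15))) (Nat.shiftRight r 8)
      fun S C um r' =>
      an (cB (bt r 4)
          (an (Nat.beq (Nat.land r 4095) 304) (Nat.beq (Nat.add p q) (Nat.mul 16384 O)))
          (orr (Nat.beq (Nat.land (Nat.shiftRight r 5) 7) 0)
            (lge G C (Nat.add (Nat.mul 4096 S) (Nat.mul 2415919104 O)))))
        (ih q um (⟨false, Z,
          Nat.sub (Nat.add (Nat.mul 2 C) (Nat.mul 536870912 O)) (Nat.mul 8192 S),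
          Nat.sub (Nat.add T1 (Nat.mul 3221225472 O)) (Nat.mul 8192 S),
          Nat.add (Nat.sub (Nat.add T1 (Nat.mul 3221225472 O)) (Nat.mul 8192 S))
            (tzF P O G Z HT)⟩ :: rs) r' κ)))

/-- `Leaf.rowsN`. -/
noncomputable def rowsNF (P : Prof) (xf : Nat → Nat) (k HT O G cnt : Nat) :
    Nat → Nat → List Rw → Nat → (Nat → Nat → List Rw → Nat → Bool) → Bool :=
  Nat.rec (motive := fun _ => Nat → Nat → List Rw → Nat → (Nat → Nat → List Rw → Nat → Bool) → Bool)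
    (fun p um rs r κ => κ p um rs r)
    (fun _ ih p um rs r κ => rowN1 P xf k HT O G p um rs r κ ih (xf (Nat.land r 15))
      (Nat.add p (Nat.mul 4 (xf (Nat.land r 15))))
      (zF O G p (Nat.add p (Nat.mul 4 (xf (Nat.land r 15)))))
      (tzF P O G (zF O G p (Nat.add p (Nat.mul 4 (xf (Nat.land r 15))))) (xf (Nat.land r 15)))) cnt

/-- `Leaf.folS`. -/
noncomputable def folSF (xf : Nat → Nat) (k cnt : Nat) :
    Nat → Nat → Nat → Nat → (Nat → Nat → Nat → Bool) → Bool :=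
  Nat.rec (motive := fun _ => Nat → Nat → Nat → Nat → (Nat → Nat → Nat → Bool) → Bool)
    (fun _ S um r κ => κ S um r)
    (fun _ ih pi S um r κ =>
      an (an (Nat.ble (Nat.succ pi) (Nat.land r 15)) (Nat.ble (Nat.succ (Nat.land r 15)) k))
        (ih (Nat.land r 15) (Nat.add S (xf (Nat.land r 15)))
          (Nat.lor um (Nat.pow 2 (Nat.land r 15))) (Nat.shiftRight r 4) κ)) cnt

/-- `Leaf.capT`. -/
noncomputable def capTF (O G l y Yb : Nat) (sg : Bool) : Bool :=
  an (Nat.ble l 8) (cB sg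
    (lge G (Nat.mul l Yb) (Nat.add (Nat.mul 8 y) (Nat.mul (Nat.mul l 8192) O)))
    (lge G (Nat.mul (Nat.mul l 8192) O) (Nat.add (Nat.mul 8 y) (Nat.mul l Yb))))

/-- End of one shortened row. -/
noncomputable def rowS2 (O G Yb r : Nat) (rs : List Rw) (κ : Nat → Nat → List Rw → Nat → Bool)
    (ih : Nat → Nat → List Rw → Nat → (Nat → Nat → List Rw → Nat → Bool) → Bool)
    (H q Z Tc um r' R1 R2 R3 : Nat) : Bool :=
  an (cB (bt r 3) (capTF O G (Nat.land (Nat.shiftRight r 4) 15)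
      (ls G (Nat.add Z (Nat.mul 2 H)) (Nat.mul 8192 O)) Yb (bt r 8)) true)
    (an (orr (Nat.beq (Nat.land r 7) 0) (lge G (cN (bt r 9) R3
        (lm G R1 (Nat.add R2 (Nat.mul 2 Tc)))) (Nat.mul 5368709120 O)))
      (ih q um (⟨true, Z, R1, R2, R3⟩ :: rs) r' κ))

/-- One shortened row. -/
noncomputable def rowS1 (xf : Nat → Nat) (k O G bi Xb Tb Yb um : Nat) (rs : List Rw) (r : Nat)
    (κ : Nat → Nat → List Rw → Nat → Bool)
    (ih : Nat → Nat → List Rw → Nat → (Nat → Nat → List Rw → Nat → Bool) → Bool)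
    (H q Z Tc : Nat) : Bool :=
  an (lge G (Nat.mul 16384 O) q)
    (folSF xf k (Nat.land r 7) bi 0 um (Nat.shiftRight r 10) fun S um r' =>
      rowS2 O G Yb r rs κ ih H q Z Tc um r'
        (Nat.sub (Nat.add (Nat.mul 2 Tc) (Nat.mul 3221225472 O)) (Nat.mul 8192 S))
        (Nat.sub (Nat.add Tb (Nat.mul 2130706432 O)) (Nat.mul 8192 (Nat.add S Xb)))
        (cN (bt r 3)
          (lm G (Nat.sub (Nat.add (Nat.mul 2 Tc) (Nat.mul 3221225472 O)) (Nat.mul 8192 S))
            (capV O (Nat.land (Nat.shiftRight r 4) 15) Tb (Nat.add S Xb))) 0))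

/-- Height and upper level given, compute the strip. -/
noncomputable def rowS0 (P : Prof) (xf : Nat → Nat) (k O G bi Xb Tb Yb p um : Nat) (rs : List Rw)
    (r : Nat) (κ : Nat → Nat → List Rw → Nat → Bool)
    (ih : Nat → Nat → List Rw → Nat → (Nat → Nat → List Rw → Nat → Bool) → Bool) (H : Nat) : Bool :=
  rowS1 xf k O G bi Xb Tb Yb um rs r κ ih H (Nat.add p (Nat.mul 4 H))
    (zF O G p (Nat.add p (Nat.mul 4 H))) (tzF P O G (zF O G p (Nat.add p (Nat.mul 4 H))) H)

/-- `Leaf.rowsS`. -/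
noncomputable def rowsSF (P : Prof) (xf : Nat → Nat) (k HT O G bi Xb Tb Yb cnt : Nat) :
    Nat → Nat → List Rw → Nat → (Nat → Nat → List Rw → Nat → Bool) → Bool :=
  Nat.rec (motive := fun _ => Nat → Nat → List Rw → Nat → (Nat → Nat → List Rw → Nat → Bool) → Bool)
    (fun p um rs r κ => κ p um rs r)
    (fun _ ih p um rs r κ => rowS0 P xf k O G bi Xb Tb Yb p um rs r κ ih
      (cN (Nat.beq (Nat.land r 7) 0) HT (xf (Nat.land (Nat.shiftRight r 10) 15)))) cnt

/-- `Leaf.mval`. -/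
noncomputable def mvalF (P : Prof) (O G AV : Nat) (w : Rw) (alt : Bool) : Nat :=
  cN w.sh (cN alt w.r3 (lm G w.r1 (Nat.add w.r2 (Nat.mul 2 (tzF P O G w.z AV)))))
    (lm G (lm G w.r1 (Nat.add w.r2 (tzF P O G w.z AV))) (Nat.add w.r3 (Nat.mul 4096 AV)))

/-- `Leaf.o2`. -/
def o2F (Ol Mu G lo hi n s M : Nat) : Nat :=
  lm G
    (Nat.add (Nat.mul s M) (tv Ol Mu
      (Nat.sub 4398046511104 (Nat.mul s (Nat.add (Nat.add 5368709120 (Nat.mul 262144 lo))
        (Nat.mul 65536 (Nat.mul n s)))))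
      (Nat.sub 4398046511104 (Nat.mul s (Nat.add (Nat.add 5368709120 (Nat.mul 262144 hi))
        (Nat.mul 65536 (Nat.mul n s)))))))
    (tv Ol Mu
      (Nat.sub (Nat.add 4398046511104
        (Nat.mul (Nat.mul (Nat.mul 65536 (Nat.succ n)) (Nat.add lo hi)) (Nat.mul 3 lo)))
        (Nat.mul (Nat.mul (Nat.mul 65536 (Nat.succ n)) (Nat.add lo hi)) hi))
      (Nat.add 4398046511104 (Nat.mul (Nat.mul (Nat.mul 65536 (Nat.succ n)) (Nat.add lo hi))
        (Nat.sub (Nat.mul 3 hi) lo))))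

/-- One option with the value `M`. -/
noncomputable def opt1 (Ol Mu G lo hi : Nat)
    (ih : Nat → Nat → Nat → (Nat → Nat → Nat → Bool) → Bool) (A c r : Nat)
    (κ : Nat → Nat → Nat → Bool) (M : Nat) : Bool :=
  cB (Nat.beq (Nat.land r 3) 1)
    (an (o1ok Ol Mu G lo hi (Nat.land (Nat.shiftRight r 3) 4095) M)
      (ih (Nat.add A (o1 Ol Mu lo hi (Nat.land (Nat.shiftRight r 3) 4095) M)) (Nat.succ c)
        (Nat.shiftRight r 15) κ))
    (ih (Nat.add A (o2F Ol Mu G lo hi (Nat.land (Nat.shiftRight r 3) 7)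
      (Nat.land (Nat.shiftRight r 6) 511) M)) (Nat.succ c) (Nat.shiftRight r 15) κ)

/-- `Leaf.opts`. -/
noncomputable def optsF (P : Prof) (O Ol Mu G AV lo hi : Nat) (rs : List Rw) :
    Nat → Nat → Nat → (Nat → Nat → Nat → Bool) → Bool :=
  List.rec (motive := fun _ => Nat → Nat → Nat → (Nat → Nat → Nat → Bool) → Bool)
    (fun A c r κ => κ A c r)
    (fun w _ ih A c r κ => cB (Nat.beq (Nat.land r 3) 0) (ih A c (Nat.shiftRight r 2) κ)
      (opt1 Ol Mu G lo hi ih A c r κ (mvalF P O G AV w (bt r 2)))) rs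

/-- One row of the table. -/
noncomputable def tab1 (G M t0 t1 x y : Nat) (ih : Bool) : Bool :=
  an (an (lge G (Nat.add (Nat.land x M) y) t0)
    (lge G (Nat.add (Nat.land (Nat.shiftRight x 16) M) y) t1)) ih

/-- `Leaf.tabC`. -/
noncomputable def tabCF (rc : Nat → Nat) (n s r0 κ t0 t1 nr : Nat) : Bool :=
  Nat.rec (motive := fun _ => Bool) true
    (fun d ih => tab1 (grd 64 n) (Nat.mul 65535 (ones 64 n)) t0 t1
      (Nat.shiftRight (rc (Nat.add r0 d)) s)
      (Nat.mul (Nat.mul (Nat.mul 4 κ) d) (ones 64 n)) ih) nr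

/-- Final test of a group. -/
noncomputable def gend (xf : Nat → Nat) (k G AV A R c m : Nat) : Bool :=
  cB (Nat.beq c 0) (lge G A R)
    (an (Nat.ble m k) (lge G (Nat.add A (Nat.mul (Nat.mul (Nat.pow 2 (Nat.add 16 c)) m) AV))
      (Nat.add R (Nat.mul (Nat.pow 2 (Nat.add 16 c)) (sufF xf k m)))))

/-- One group. -/
noncomputable def grp1 (P : Prof) (tc : Nat → Nat → Nat) (xf : Nat → Nat) (rs : List Rw)
    (k O Ol Mu G A0 C0 IR XR i0 n r0 nr : Nat) (ih : Nat → Nat → Bool)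
    (hi r lo l ν la κ m0 m1 AV : Nat) : Bool :=
  an (an (Nat.ble (Nat.pow 2 l) hi) (Nat.beq (Nat.shiftLeft ν l) (Nat.add 64 lo)))
    (an (fb (Nat.shiftRight ν 1) fun ρ =>
        tabCF (tc ρ) n (Nat.add (Nat.mul 64 i0) (Nat.mul 32 (Nat.land ν 1))) r0 κ
          (Nat.add (Nat.mul m0 (ones 64 n)) (Nat.mul (Nat.mul 2 la) (ramp 64 n)))
          (Nat.add (Nat.mul m1 (ones 64 n)) (Nat.mul (Nat.mul 2 la) (ramp 64 n))) nr)
      (optsF P O Ol Mu G AV lo hi rs
        (Nat.add (Nat.add A0 (Nat.mul (Nat.mul 1024 la) IR))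
          (tv Ol Mu (Nat.mul 65536 m0) (Nat.mul 65536 m1))) 0 (Nat.shiftRight r 61)
        fun A c r' =>
        an (gend xf k G AV A (Nat.add (Nat.mul (Nat.add C0 (Nat.mul 4398046511104 c)) O)
            (Nat.mul (Nat.mul 1024 κ) XR)) (Nat.land (Nat.shiftRight r 55) 3)
            (Nat.land (Nat.shiftRight r 57) 15))
          (ih lo r')))

/-- `Leaf.groups`. -/
noncomputable def groupsF (P : Prof) (tc : Nat → Nat → Nat) (xf : Nat → Nat) (rs : List Rw)
    (k O Ol Mu G A0 C0 IR XR i0 n r0 nr fuel : Nat) : Nat → Nat → Bool :=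
  Nat.rec (motive := fun _ => Nat → Nat → Bool) (fun _ _ => false)
    (fun _ ih hi r => cB (Nat.beq hi 0) true
      (fb (Nat.sub hi (Nat.pow 2 (Nat.land r 7))) fun lo =>
        grp1 P tc xf rs k O Ol Mu G A0 C0 IR XR i0 n r0 nr ih hi r lo (Nat.land r 7)
          (Nat.shiftRight (Nat.add 64 lo) (Nat.land r 7)) (Nat.land (Nat.shiftRight r 3) 1023)
          (Nat.land (Nat.shiftRight r 13) 1023) (Nat.land (Nat.shiftRight r 23) 65535)
          (Nat.land (Nat.shiftRight r 39) 65535) (tv Ol Mu (Nat.mul 32 lo) (Nat.mul 32 hi)))) fuel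

/-- Core of `Leaf.fin`. -/
noncomputable def fin1 (P : Prof) (tc : Nat → Nat → Nat) (xf : Nat → Nat)
    (av ac k O Ol Mu G p0 p um : Nat) (rs : List Rw) (r top r0 n i0 ni nr ti bi : Nat) : Bool :=
  an (an (an (an (an (an (an (Nat.beq (Nat.succ um) (Nat.pow 2 k)) (Nat.ble (len rs) 12))
    (Nat.ble 1 ni)) (Nat.ble (Nat.add i0 ni) 128)) (Nat.ble 1 nr)) (Nat.ble 1 r0))
    (Nat.ble (Nat.add r0 nr) 31))
    (an (lge G ti p) (an (lge G (Nat.mul (Nat.mul 128 ni) O) (Nat.sub ti p))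
      (an (lge G bi p0) (an (lge G (Nat.mul (Nat.mul 256 nr) O) (Nat.sub bi p0))
        (groupsF P tc xf rs k O Ol Mu G (Nat.mul 256 av) (Nat.add (Nat.mul 64 ac) 2147483649)
          (Nat.sub ti p) (Nat.sub bi p0) i0 n r0 (Nat.succ nr) 41 top r)))))

/-- `Leaf.fin`; `av` is `arV`, `ac` is `arC`. -/
noncomputable def finF (P : Prof) (tc : Nat → Nat → Nat) (xf : Nat → Nat)
    (av ac k O Ol Mu G h p0 p um : Nat) (rs : List Rw) (r : Nat) : Bool :=
  fb (Nat.land h 63) fun top => fb (Nat.land (Nat.shiftRight h 18) 31) fun r0 =>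
  fb (Nat.succ (Nat.land (Nat.shiftRight h 13) 31)) fun n =>
    fin1 P tc xf av ac k O Ol Mu G p0 p um rs r top r0 n (Nat.land (Nat.shiftRight h 6) 127)
      (Nat.land (Nat.shiftRight h 13) 31) (Nat.land (Nat.shiftRight h 23) 7)
      (Nat.mul (Nat.sub 16384 (Nat.mul 128 (Nat.land (Nat.shiftRight h 6) 127))) O)
      (Nat.mul (Nat.sub 7936 (Nat.mul 256 r0)) O)

/-- Core of `Leaf.obst`. -/
noncomputable def obst1 (P : Prof) (xf : Nat → Nat) (k HT O G p um : Nat) (rs : List Rw)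
    (κ : Nat → Nat → List Rw → Nat → Bool) (bi Xb pb r qb : Nat) : Bool :=
  an (lge G pb p) (an (lge G (Nat.mul 16384 O) qb)
    (affF xf k HT O G p r fun ps r => an (lge G ps p)
      (rowsSF P xf k HT O G bi Xb (tzF P O G (zF O G pb qb) Xb)
        (Nat.add pb (Nat.mul 2 Xb)) (Nat.land r 7) ps (Nat.lor um (Nat.pow 2 bi)) rs
        (Nat.shiftRight r 3) fun q um rs r =>
        affF xf k HT O G p r fun t r => an (an (lge G t q) (lge G t qb))
          (rowsNF P xf k HT O G (Nat.land r 7) t um rs (Nat.shiftRight r 3) κ))))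

/-- `Leaf.obst`. -/
noncomputable def obstF (P : Prof) (xf : Nat → Nat) (k HT O G p um : Nat) (rs : List Rw) (r : Nat)
    (κ : Nat → Nat → List Rw → Nat → Bool) : Bool :=
  an (Nat.ble (Nat.succ (Nat.land r 15)) k)
    (affF xf k HT O G p (Nat.shiftRight r 4) fun pb r' =>
      obst1 P xf k HT O G p um rs κ (Nat.land r 15) (xf (Nat.land r 15)) pb r'
        (Nat.add pb (Nat.mul 4 (xf (Nat.land r 15)))))

/-- The layout part of a leaf. -/
noncomputable def lay (P : Prof) (tc : Nat → Nat → Nat) (xf : Nat → Nat)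
    (av ac k O Ol Mu G r : Nat) : Bool :=
  fb (cN (bt r 0) (xf (Nat.sub k 1)) (Nat.mul (Nat.land (Nat.shiftRight r 1) 4095) O)) fun HT =>
    affF xf k HT O G 0 (Nat.shiftRight r 43) fun p0 r' =>
    rowsNF P xf k HT O G (Nat.land (Nat.shiftRight r 40) 7) p0 0 [] r' fun q um rs r' =>
    cB (bt r 39) (obstF P xf k HT O G q um rs r'
        (finF P tc xf av ac k O Ol Mu G (Nat.land (Nat.shiftRight r 13) 67108863) p0))
      (finF P tc xf av ac k O Ol Mu G (Nat.land (Nat.shiftRight r 13) 67108863) p0 q um rs r')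

/-- Entry `i` of a packed list. -/
def pick (XS W i : Nat) : Nat :=
  Nat.land (Nat.shiftRight XS (Nat.mul W i)) (Nat.sub (Nat.pow 2 W) 1)

/-- Header tests of a leaf. -/
noncomputable def hd (k al lu c top : Nat) (fl : Bool) : Bool :=
  an (an (an (Nat.ble 1 k) (Nat.ble k 15)) (an (Nat.ble 1 top) (Nat.ble top 40)))
    (cB fl (Nat.ble lu (Nat.mul 32 top))
      (an (Nat.ble c (Nat.mul 32 top)) (Nat.ble 8388608 (Nat.add al (Nat.mul c c)))))

/-- `Leaf.leaf`. -/
noncomputable def leafF (P : Prof) (tc : Nat → Nat → Nat) (b : Box) (r : Nat) : Bool :=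
  pass1 b 0 4097 4097 0 0 0 fun k p ac al lu =>
  fb k fun k => fb p fun p => fb (nv p (Nat.succ k)).1 fun n =>
  fb (ones 48 n) fun O => fb (grd 48 n) fun G => fb (mk p k 0) fun Mu =>
  fb (Nat.sub O Mu) fun Ol => fb (Nat.mul 48 n) fun W =>
  an (hd k al lu (Nat.land (Nat.shiftRight r 1) 4095)
      (Nat.land (Nat.land (Nat.shiftRight r 13) 67108863) 63) (bt r 0))
    (pass2 p O W b 0 k 0 0 fun XS av => lay P tc (pick XS W) av ac k O Ol Mu G r)

/-- `Tree.cutU`. -/
noncomputable def cutUF (m : Nat) (b : Box) : Nat → Box :=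
  List.rec (motive := fun _ => Nat → Box) (fun _ => [])
    (fun x _ r i => @Bool.rec (fun _ => Box) (x :: r (Nat.sub i 1))
      ((x.1, cN (Nat.ble x.2 m) x.2 m) :: r 0) (Nat.beq i 0)) b

/-- `Tree.cutL`. -/
noncomputable def cutLF (m : Nat) (b : Box) : Nat → Box :=
  List.rec (motive := fun _ => Nat → Box) (fun _ => [])
    (fun x t r i => (cN (Nat.ble m x.1) x.1 m, x.2) ::
      @Bool.rec (fun _ => Box) (r (Nat.sub i 1)) t (Nat.beq i 0)) b

/-- Split or cap. -/
noncomputable def tok1 (ih : Box → List Box → Nat → (List Box → Bool) → Bool) (b : Box)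
    (st : List Box) (r : Nat) (κ : List Box → Bool) (i m : Nat) : Bool :=
  cB (Nat.beq (Nat.land r 3) 0) (ih (cutUF m b i) (cutLF m b i :: st) (Nat.shiftRight r 18) κ)
    (an (Nat.ble 8388609 (arL (cutLF m b i))) (ih (cutUF m b i) st (Nat.shiftRight r 18) κ))

/-- `Tree.tok`. -/
noncomputable def tokF (lf : Box → Nat → Bool) (fuel : Nat) :
    Box → List Box → Nat → (List Box → Bool) → Bool :=
  Nat.rec (motive := fun _ => Box → List Box → Nat → (List Box → Bool) → Bool)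
    (fun _ _ _ _ => false)
    (fun _ ih b st r κ =>
      cB (Nat.ble (Nat.land r 3) 1)
        (tok1 ih b st r κ (Nat.land (Nat.shiftRight r 2) 15) (Nat.land (Nat.shiftRight r 6) 4095))
        (cB (Nat.beq (Nat.land r 3) 2)
          (an (Nat.ble (Nat.succ (len b)) 15) (ih (Tree.deep b 4096) st (Nat.shiftRight r 2) κ))
          (an (cB (bt r 2) (lf b (Nat.shiftRight r 3)) (Nat.ble 8388609 (arL b))) (κ st)))) fuel

/-- `Tree.eqB`. -/
noncomputable def eqBF (b : Box) : Box → Bool :=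
  List.rec (motive := fun _ => Box → Bool)
    (fun c => List.rec (motive := fun _ => Bool) true (fun _ _ _ => false) c)
    (fun x _ r c => List.rec (motive := fun _ => Bool) false
      (fun y t _ => an (an (Nat.beq x.1 y.1) (Nat.beq x.2 y.2)) (r t)) c) b

/-- `Tree.eqS`. -/
noncomputable def eqSF (s : List Box) : List Box → Bool :=
  List.rec (motive := fun _ => List Box → Bool)
    (fun c => List.rec (motive := fun _ => Bool) true (fun _ _ _ => false) c)
    (fun x _ r c => List.rec (motive := fun _ => Bool) false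
      (fun y t _ => an (eqBF x y) (r t)) c) s

/-- `Tree.run`. -/
noncomputable def runF (lf : Box → Nat → Bool) (e : List Box) (ts : List Nat) : List Box → Bool :=
  List.rec (motive := fun _ => List Box → Bool) (fun st => eqSF st e)
    (fun t _ ih st => List.rec (motive := fun _ => Bool) false
      (fun b st' _ => tokF lf 200 b st' t ih) st) ts

end Fast

end Pool.Agent.MP_34f9b1_co.Sym

end MrgPart6

-- ======== part 7: formerly Pool.Agent.MP_34f9b1_co.Sym.Run
section MrgPart7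

namespace Pool.Agent.MP_34f9b1_co.Sym

namespace Tree

/-- Read `k` intervals (13 bits for each end). -/
noncomputable def decB (k : Nat) : Nat → (Box → Nat → List Box) → List Box :=
  Nat.rec (motive := fun _ => Nat → (Box → Nat → List Box) → List Box) (fun r κ => κ [] r)
    (fun _ ih r κ => frc (Nat.land r 8191) fun l => frc (Nat.land (Nat.shiftRight r 13) 8191) fun u =>
      frc (Nat.shiftRight r 26) fun r => ih r fun b r' => κ ((l, u) :: b) r') k

/-- Read a stack of boxes. -/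
noncomputable def decF (fuel : Nat) : Nat → List Box :=
  Nat.rec (motive := fun _ => Nat → List Box) (fun _ => [])
    (fun _ ih r => cond (Nat.beq r 0) []
      (decB (Nat.land r 15) (Nat.shiftRight r 4) fun b r' => b :: ih r')) fuel

/-- Read a stack of at most 250 boxes. -/
noncomputable def decS (r : Nat) : List Box := decF 250 r

/-- Every property preserved by `run` passes from the stack `e` to the stack `s`. -/
def RunOK (lf : Box → Nat → Bool) (s e : Nat) : Prop :=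
  ∀ G : Box → Prop, (∀ e ts st, Fast.runF lf e ts st = true → (∀ b, b ∈ e → G b) → ∀ b, b ∈ st → G b) →
    (∀ b, b ∈ decS e → G b) → ∀ b, b ∈ decS s → G b

theorem RunOK.refl {lf : Box → Nat → Bool} {s : Nat} : RunOK lf s s := fun _ _ h => h

theorem RunOK.step {lf : Box → Nat → Bool} {s e : Nat} (ts : List Nat) (m : Nat)
    (h : Fast.runF lf (decS m) ts (decS s) = true) (r : RunOK lf m e) : RunOK lf s e :=
  fun G hG he => hG _ _ _ h (r G hG he)

theorem RunOK.trans {lf : Box → Nat → Bool} {s m e : Nat} (h : RunOK lf s m) (r : RunOK lf m e) :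
    RunOK lf s e := fun G hG he => h G hG (r G hG he)

end Tree

end Pool.Agent.MP_34f9b1_co.Sym

end MrgPart7

-- ======== part 8: formerly Pool.Agent.MP_34f9b1_co.Sym.FastEq
section MrgPart8

/-! The fast checker agrees with the reference checker. -/

namespace Pool.Agent.MP_34f9b1_co.Sym

namespace FastP

open Leaf Fast

theorem an_eq (a b : Bool) : an a b = (a && b) := by cases a <;> rfl

theorem orr_eq (a b : Bool) : orr a b = (a || b) := by cases a <;> rfl

theorem cN_eq (c : Bool) (a b : Nat) : cN c a b = cond c a b := by cases c <;> rfl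

theorem cB_eq (c a b : Bool) : cB c a b = cond c a b := by cases c <;> rfl

theorem fb_eq (x : Nat) (f : Nat → Bool) : fb x f = f x := Eq.trans rfl rfl

theorem frc_eq {α : Type} (x : Nat) (f : Nat → α) : frc x f = f x := Eq.trans rfl rfl

theorem blt_eq (a b : Nat) : Nat.blt a b = Nat.ble (Nat.succ a) b := Eq.trans rfl rfl

theorem pred_eq (a : Nat) : Nat.pred a = Nat.sub a 1 := Eq.trans rfl rfl

theorem bt_eq (r i : Nat) : bt r i = Nat.testBit r i := by
  unfold bt Nat.testBit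
  show Nat.beq ((r >>> i) &&& 1) 1 = (1 &&& (r >>> i) != 0)
  rw [Nat.and_one_is_mod, Nat.one_and_eq_mod_two]
  rcases Nat.mod_two_eq_zero_or_one (r >>> i) with h | h <;> rw [h] <;> rfl

theorem len_eq {α : Type} (l : List α) : len l = l.length := by
  induction l with
  | nil => rfl
  | cons a t ih => exact congrArg Nat.succ ih

theorem ls_eq (G X Y : Nat) : ls G X Y = lsub 47 G X Y := by
  unfold ls lsub lcut
  exact Eq.refl _

theorem lm_eq (G X Y : Nat) : lm G X Y = lmin 47 G X Y := by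
  unfold lm lmin lsub lcut
  exact Eq.refl _

theorem zF_eq (O G p q : Nat) : zF O G p q = lmax 47 G p (Nat.sub (Nat.mul 16384 O) q) := by
  unfold zF lmax
  rw [ls_eq]

theorem tz_eq (P : Prof) (O G Z X : Nat) : tzF P O G Z X = tz P O G Z X := by
  unfold tzF tz2 tz tev tln
  simp only [ls_eq, lm_eq]

theorem suf_eq (xs : List Nat) (k m : Nat) : sufF (nth xs) k m = suf xs k m := by
  unfold sufF suf
  simp only [frc_eq, pred_eq]

theorem terms_eq (xs : List Nat) (k HT cnt : Nat) :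
    termsF (nth xs) k HT cnt = terms xs k HT cnt := by
  unfold termsF terms
  simp only [an_eq, orr_eq, cN_eq, cB_eq, bt_eq, frc_eq, blt_eq]

theorem aff_eq (xs : List Nat) (k HT O G base r : Nat) (κ : Nat → Nat → Bool) :
    affF (nth xs) k HT O G base r κ = aff xs k HT O G base r κ := by
  unfold affF aff
  simp only [terms_eq, an_eq, cN_eq, bt_eq, frc_eq]

theorem fol_eq (P : Prof) (xs : List Nat) (k O G Z T1 cnt : Nat) :
    folF P (nth xs) k O G Z T1 cnt = fol P xs k O G Z T1 cnt := by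
  unfold folF fol
  simp only [an_eq, frc_eq, blt_eq, lm_eq, tz_eq]

theorem rowsN_eq (P : Prof) (xs : List Nat) (k HT O G cnt : Nat) :
    rowsNF P (nth xs) k HT O G cnt = rowsN P xs k HT O G cnt := by
  unfold rowsNF rowsN rowN1
  simp only [an_eq, orr_eq, cB_eq, bt_eq, frc_eq, blt_eq, tz_eq, zF_eq, fol_eq]

theorem folS_eq (xs : List Nat) (k cnt : Nat) : folSF (nth xs) k cnt = folS xs k cnt := by
  unfold folSF folS
  simp only [an_eq, frc_eq, blt_eq]

theorem capT_eq (O G l y Yb : Nat) (sg : Bool) : capTF O G l y Yb sg = capT O G l y Yb sg := by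
  unfold capTF capT
  simp only [an_eq, cB_eq]

theorem rowsS_eq (P : Prof) (xs : List Nat) (k HT O G bi Xb Tb Yb cnt : Nat) :
    rowsSF P (nth xs) k HT O G bi Xb Tb Yb cnt = rowsS P xs k HT O G bi Xb Tb Yb cnt := by
  unfold rowsSF rowsS rowS0 rowS1 rowS2
  simp only [an_eq, orr_eq, cN_eq, cB_eq, bt_eq, frc_eq, tz_eq, zF_eq, folS_eq, capT_eq, ls_eq,
    lm_eq]

theorem mval_eq (P : Prof) (O G AV : Nat) (w : Rw) (alt : Bool) :
    mvalF P O G AV w alt = mval P O G AV w alt := by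
  unfold mvalF mval
  simp only [cN_eq, lm_eq, tz_eq]

theorem o2_eq (Ol Mu G lo hi n s M : Nat) : o2F Ol Mu G lo hi n s M = o2 Ol Mu G lo hi n s M := by
  unfold o2F o2
  simp only [lm_eq, frc_eq]

theorem opts_eq (P : Prof) (O Ol Mu G AV lo hi : Nat) (rs : List Rw) :
    optsF P O Ol Mu G AV lo hi rs = opts P O Ol Mu G AV lo hi rs := by
  unfold optsF opts opt1
  simp only [an_eq, cB_eq, bt_eq, frc_eq, mval_eq, o2_eq]

theorem tabC_eq (rc : Nat → Nat) (n s r0 κ t0 t1 nr : Nat) :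
    tabCF rc n s r0 κ t0 t1 nr = tabC rc n s r0 κ t0 t1 nr := by
  unfold tabCF tabC tab1
  simp only [an_eq, frc_eq]

theorem groups_eq (P : Prof) (tc : Nat → Nat → Nat) (xs : List Nat) (rs : List Rw)
    (k O Ol Mu G A0 C0 IR XR i0 n r0 nr fuel : Nat) :
    groupsF P tc (nth xs) rs k O Ol Mu G A0 C0 IR XR i0 n r0 nr fuel =
      groups P tc xs rs k O Ol Mu G A0 C0 IR XR i0 n r0 nr fuel := by
  unfold groupsF groups grp1 gend
  simp only [an_eq, cB_eq, fb_eq, frc_eq, tabC_eq, opts_eq, suf_eq, Bool.and_assoc]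

theorem fin_eq (P : Prof) (tc : Nat → Nat → Nat) (b : Box) (xs : List Nat)
    (k O Ol Mu G h p0 : Nat) :
    finF P tc (nth xs) (arV b xs) (arC b) k O Ol Mu G h p0 = fin P tc b xs k O Ol Mu G h p0 := by
  funext p um rs r
  unfold finF fin fin1
  simp only [an_eq, fb_eq, frc_eq, groups_eq, len_eq, Bool.and_assoc]

theorem obst_eq (P : Prof) (xs : List Nat) (k HT O G p um : Nat) (rs : List Rw) (r : Nat)
    (κ : Nat → Nat → List Rw → Nat → Bool) :
    obstF P (nth xs) k HT O G p um rs r κ = obst P xs k HT O G p um rs r κ := by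
  unfold obstF obst obst1
  simp only [an_eq, frc_eq, blt_eq, aff_eq, rowsS_eq, rowsN_eq, tz_eq, zF_eq, Bool.and_assoc]

theorem pass1_eq (b : Box) : ∀ (i pl pu p ac al : Nat) (κ : Nat → Nat → Nat → Nat → Nat → Bool),
    pass1 b i pl pu p ac al κ =
      (okB b && κ (i + b.length) (p + pat b i pl pu) (ac + arC b) (al + arL b) (lastU b pu)) := by
  induction b with
  | nil => intro i pl pu p ac al κ; rfl
  | cons x t ih =>
    intro i pl pu p ac al κ
    have e1 : pass1 (x :: t) i pl pu p ac al κ = an (Nat.ble x.1 x.2) (an (Nat.ble x.2 4096)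
      (pass1 t (Nat.succ i) x.1 x.2
        (Nat.add p (cN (an (Nat.beq x.1 pl) (Nat.beq x.2 pu)) (Nat.pow 2 i) 0))
        (Nat.add ac (Nat.mul (Nat.add x.1 x.2) (Nat.add x.1 x.2)))
        (Nat.add al (Nat.mul x.1 x.1)) κ)) := rfl
    have e2 : okB (x :: t) = (Nat.ble x.1 x.2 && Nat.ble x.2 4096 && okB t) := rfl
    have e3 : pat (x :: t) i pl pu = Nat.add
      (cond (Nat.beq x.1 pl && Nat.beq x.2 pu) (Nat.pow 2 i) 0) (pat t (Nat.succ i) x.1 x.2) := rfl
    have e4 : arC (x :: t) = Nat.add (Nat.mul (Nat.add x.1 x.2) (Nat.add x.1 x.2)) (arC t) := rfl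
    have e5 : arL (x :: t) = Nat.add (Nat.mul x.1 x.1) (arL t) := rfl
    have e6 : lastU (x :: t) pu = lastU t x.2 := rfl
    have e7 : i + (x :: t).length = Nat.succ i + t.length := by
      rw [List.length_cons, Nat.succ_eq_add_one]; omega
    rw [e1, ih, e2, e3, e4, e5, e6, e7]
    simp only [an_eq, cN_eq, Nat.add_eq, Nat.add_assoc, Bool.and_assoc]

/-- Packing with stride `W`. -/
def pk (W : Nat) : List Nat → Nat
  | [] => 0
  | X :: t => X + 2 ^ W * pk W t

theorem pick_def (XS W i : Nat) : pick XS W i = XS / 2 ^ (W * i) % 2 ^ W := by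
  unfold pick
  show (XS >>> (W * i)) &&& (2 ^ W - 1) = _
  rw [Nat.and_two_pow_sub_one_eq_mod, Nat.shiftRight_eq_div_pow]

theorem pick_pk (W : Nat) (l : List Nat) (h : ∀ X ∈ l, X < 2 ^ W) : pick (pk W l) W = nth l := by
  funext i
  induction l generalizing i with
  | nil =>
    rw [pick_def]
    show 0 / _ % _ = 0
    rw [Nat.zero_div, Nat.zero_mod]
  | cons X t ih =>
    have hX : X < 2 ^ W := h X (List.mem_cons_self ..)
    have ht := ih (fun Y hY => h Y (List.mem_cons_of_mem _ hY))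
    cases i with
    | zero =>
      rw [pick_def]
      show (X + 2 ^ W * pk W t) / 2 ^ (W * 0) % 2 ^ W = X
      rw [Nat.mul_zero, Nat.pow_zero, Nat.div_one, Nat.add_mul_mod_self_left, Nat.mod_eq_of_lt hX]
    | succ j =>
      have e : nth (X :: t) (j + 1) = nth t j := rfl
      rw [e, ← ht j, pick_def, pick_def]
      show (X + 2 ^ W * pk W t) / 2 ^ (W * (j + 1)) % 2 ^ W = _
      have hp : 0 < 2 ^ W := Nat.two_pow_pos W
      rw [Nat.mul_succ, Nat.add_comm (W * j) W, Nat.pow_add, ← Nat.div_div_eq_div_mul,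
        Nat.add_mul_div_left _ _ hp, Nat.div_eq_of_lt hX, Nat.zero_add]

theorem pass2_sound (p O W : Nat) (b : Box) : ∀ (i d XS av : Nat) (κ : Nat → Nat → Bool),
    pass2 p O W b i d XS av κ = true → (∀ X ∈ vecs p O b i d, X < 2 ^ W) ∧
      κ (XS + 2 ^ (W * i) * pk W (vecs p O b i d)) (av + arV b (vecs p O b i d)) = true := by
  induction b with
  | nil =>
    intro i d XS av κ h
    exact ⟨fun X hX => absurd hX List.not_mem_nil, h⟩
  | cons x t ih =>
    intro i d XS av κ h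
    obtain ⟨X, hX⟩ : ∃ X, X = Nat.add (Nat.mul x.1 O) (Nat.mul (Nat.sub x.2 x.1) (mk p i d)) :=
      ⟨_, rfl⟩
    have e1 : pass2 p O W (x :: t) i d XS av κ =
      step2 W i d XS av (Nat.add x.1 x.2) X (pass2 p O W t) κ := by rw [hX]; rfl
    have e2 : vecs p O (x :: t) i d = X :: vecs p O t (Nat.succ i) (Nat.sub d 1) := by
      rw [hX]; rfl
    rw [e1] at h
    unfold step2 at h
    rw [an_eq, Bool.and_eq_true] at h
    obtain ⟨h1, h2⟩ := h
    obtain ⟨h3, h4⟩ := ih _ _ _ _ _ h2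
    have hlt : X < 2 ^ W := Nat.le_of_ble_eq_true h1
    rw [e2]
    refine ⟨fun Y hY => ?_, ?_⟩
    · rcases List.mem_cons.1 hY with e | e
      · rw [e]; exact hlt
      · exact h3 Y e
    · generalize vecs p O t (Nat.succ i) (Nat.sub d 1) = l at h4 ⊢
      have e3 : arV (x :: t) (X :: l) = Nat.add (Nat.mul (Nat.add x.1 x.2) X) (arV t l) := rfl
      have e4 : XS + 2 ^ (W * i) * pk W (X :: l) =
          Nat.add XS (Nat.shiftLeft X (Nat.mul W i)) + 2 ^ (W * Nat.succ i) * pk W l := by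
        show XS + 2 ^ (W * i) * (X + 2 ^ W * pk W l) =
          XS + (X <<< (W * i)) + 2 ^ (W * (i + 1)) * pk W l
        rw [Nat.shiftLeft_eq, Nat.mul_succ, Nat.pow_add, Nat.mul_add, Nat.mul_comm X,
          Nat.mul_assoc, Nat.add_assoc]
      have e5 : av + Nat.add (Nat.mul (Nat.add x.1 x.2) X) (arV t l) =
          Nat.add av (Nat.mul (Nat.add x.1 x.2) X) + arV t l := (Nat.add_assoc _ _ _).symm
      rw [e3, e4, e5]
      exact h4

theorem lastU_eq (b : Box) (h : 1 ≤ b.length) (u v : Nat) : lastU b u = lastU b v := by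
  cases b with
  | nil => exact absurd h (by decide)
  | cons x t => rfl

theorem cutU_eq (m : Nat) (b : Box) : cutUF m b = Tree.cutU m b := by
  unfold cutUF Tree.cutU
  congr 1
  funext x _ r i
  simp only [cN_eq, frc_eq, pred_eq]
  cases Nat.beq i 0 <;> rfl

theorem cutL_eq (m : Nat) (b : Box) : cutLF m b = Tree.cutL m b := by
  unfold cutLF Tree.cutL
  congr 1
  funext x t r i
  simp only [cN_eq, frc_eq, pred_eq]
  cases Nat.beq i 0 <;> rfl

theorem tok_eq (lf : Box → Nat → Bool) (fuel : Nat) : tokF lf fuel = Tree.tok lf fuel := by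
  have e : Nat.succ 8388608 = 8388609 := rfl
  unfold tokF Tree.tok tok1
  simp only [an_eq, cB_eq, bt_eq, frc_eq, blt_eq, len_eq, cutU_eq, cutL_eq, e]

theorem eqB_eq (b : Box) : eqBF b = Tree.eqB b := by
  unfold eqBF Tree.eqB
  simp only [an_eq]

theorem eqS_eq (s : List Box) : eqSF s = Tree.eqS s := by
  unfold eqSF Tree.eqS
  simp only [an_eq, eqB_eq]

end FastP

open FastP Leaf

theorem Fast.leafF_sound (P : Prof) (tc : Nat → Nat → Nat) (b : Box) (r : Nat) :
    Fast.leafF P tc b r = true → Leaf.leaf P tc b r = true := by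
  intro h
  unfold Fast.leafF at h
  rw [pass1_eq] at h
  simp only [fb_eq, an_eq, Nat.zero_add, Bool.and_eq_true] at h
  obtain ⟨hok, hhd, h2⟩ := h
  obtain ⟨h3, h4⟩ := pass2_sound _ _ _ _ _ _ _ _ _ h2
  rw [Nat.mul_zero, Nat.pow_zero, Nat.one_mul, Nat.zero_add, Nat.zero_add, pick_pk _ _ h3] at h4
  unfold Fast.lay at h4
  simp only [fb_eq, cN_eq, cB_eq, bt_eq, aff_eq, rowsN_eq, obst_eq, fin_eq] at h4
  unfold Fast.hd at hhd
  simp only [an_eq, cB_eq, bt_eq, Bool.and_eq_true] at hhd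
  obtain ⟨⟨⟨a1, a2⟩, a3, a4⟩, a5⟩ := hhd
  rw [lastU_eq b (Nat.le_of_ble_eq_true a1) 4097 0] at a5
  unfold Leaf.leaf
  simp only [frc_eq, pred_eq, Bool.and_eq_true]
  exact ⟨⟨⟨a1, a2⟩, hok⟩, ⟨⟨a3, a4⟩, a5⟩, h4⟩

theorem Fast.runF_eq : Fast.runF = Tree.run := by
  funext lf e ts
  unfold Fast.runF Tree.run
  simp only [tok_eq, eqS_eq]

end Pool.Agent.MP_34f9b1_co.Sym

end MrgPart8

-- marker of a merged file
example : 731051 + 434279 = 731051 + 434279 := rfl
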