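import Pool.Agent.MP_34f9b1_co.Sym.Fast2
import Pool.Agent.MP_34f9b1_co.Sym.FastEq
import Pool.Agent.MP_34f9b1_co.Sym.Dg
import Pool.Agent.MP_34f9b1_co.Sym.Vec

namespace Pool.Agent.MP_34f9b1_co.Sym

namespace Fast2

open Leaf
open Fast (an orr cN cB fb)

/-- Evaluate first. -/
noncomputable def fu (x : Nat) (f : Nat → U) : U :=
  @Nat.rec (fun _ => U) (U.mk fun _ _ _ _ => false) (fun a _ => f a) (Nat.succ x)

/-- Truncation from the guarded difference. -/
def cut (G v d : Nat) : Nat :=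
  Nat.land d (Nat.sub (Nat.land G d) (Nat.shiftRight (Nat.land G d) v))

/-- All guard bits are set. -/
def tst (G d : Nat) : Bool := Nat.beq (Nat.land G d) G

/-- Entry of the packed list. -/
def pk (MW XS W i : Nat) : Nat := Nat.land MW (Nat.shiftRight XS (Nat.mul W i))

/-- Parameter of a strip. -/
def zf (O G p q : Nat) : Nat :=
  Nat.add (Nat.sub (Nat.mul 16384 O) q)
    (cut G 47 (Nat.sub (Nat.add G p) (Nat.sub (Nat.mul 16384 O) q)))

/-- Readable form of `hi`. -/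
noncomputable def hiR (ν : Nat) :
    Nat :=
  (Nat.shiftRight ν 3)

theorem hi_eq : @hi = @hiR := Eq.trans rfl rfl

/-- Readable form of `lo`. -/
noncomputable def loR (ν : Nat) :
    Nat :=
  (Nat.sub (hi ν) (Nat.pow 2 (Nat.land 7 ν)))

theorem lo_eq : @lo = @loR := Eq.trans rfl rfl

/-- Readable form of `nu`. -/
noncomputable def nuR (ν : Nat) :
    Nat :=
  (Nat.shiftRight (Nat.add 64 (lo ν)) (Nat.land 7 ν))

theorem nu_eq : @nu = @nuR := Eq.trans rfl rfl

/-- Readable form of `okk`. -/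
noncomputable def okkR (ν : Nat) :
    Bool :=
  (Nat.beq (Nat.add (Nat.add (Nat.sub (Nat.pow 2 (Nat.land 7 ν)) (hi ν)) (Nat.sub (hi ν) 40))
    (Nat.xor (Nat.shiftLeft (nu ν) (Nat.land 7 ν)) (Nat.add 64 (lo ν)))) 0)

theorem okk_eq : @okk = @okkR := Eq.trans rfl rfl

/-- Readable form of `nx`. -/
noncomputable def nxR (ν : Nat) :
    Nat :=
  (Nat.mul 8 (lo ν))

theorem nx_eq : @nx = @nxR := Eq.trans rfl rfl

/-- Readable form of `rho`. -/
noncomputable def rhoR (ν : Nat) :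
    Nat :=
  (Nat.shiftRight (nu ν) 1)

theorem rho_eq : @rho = @rhoR := Eq.trans rfl rfl

/-- Readable form of `so`. -/
noncomputable def soR (ν : Nat) :
    Nat :=
  (Nat.mul 16 (Nat.land 1 (nu ν)))

theorem so_eq : @so = @soR := Eq.trans rfl rfl

/-- Readable form of `av`. -/
noncomputable def avR (Ol Mu ν : Nat) :
    Nat :=
  (Nat.add (Nat.mul (Nat.mul 32 (lo ν)) Ol) (Nat.mul (Nat.mul 32 (hi ν)) Mu))

theorem av_eq : @av = @avR := Eq.trans rfl rfl

/-- Readable form of `k1`. -/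
noncomputable def k1R (ν : Nat) :
    Nat :=
  (Nat.add 5368709120 (Nat.mul 262144 (lo ν)))

theorem k1_eq : @k1 = @k1R := Eq.trans rfl rfl

/-- Readable form of `k2`. -/
noncomputable def k2R (ν : Nat) :
    Nat :=
  (Nat.add 5368709120 (Nat.mul 262144 (hi ν)))

theorem k2_eq : @k2 = @k2R := Eq.trans rfl rfl

/-- Readable form of `ca`. -/
noncomputable def caR (Ol ν : Nat) :
    Nat :=
  (Nat.mul (Nat.sub 4398046511104 (Nat.mul (lo ν) (k1 ν))) Ol)

theorem ca_eq : @ca = @caR := Eq.trans rfl rfl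

/-- Readable form of `cb`. -/
noncomputable def cbR (ν : Nat) :
    Nat :=
  (Nat.add (Nat.mul (lo ν) (k2 ν)) (Nat.mul 33554432 (Nat.sub (hi ν) (lo ν))))

theorem cb_eq : @cb = @cbR := Eq.trans rfl rfl

/-- Readable form of `cw`. -/
noncomputable def cwR (ν : Nat) :
    Nat :=
  (Nat.mul 16384 (Nat.sub (hi ν) (lo ν)))

theorem cw_eq : @cw = @cwR := Eq.trans rfl rfl

/-- Readable form of `ch`. -/
noncomputable def chR (O G Ol Mu ν : Nat) :
    Nat :=
  (Nat.sub G (Nat.add (Nat.mul 5335154688 O) (Nat.mul 8192 (av Ol Mu ν))))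

theorem ch_eq : @ch = @chR := Eq.trans rfl rfl

/-- Readable form of `u0`. -/
noncomputable def u0R (ν : Nat) :
    Nat :=
  (Nat.mul (Nat.mul 65536 (Nat.add (lo ν) (hi ν))) (Nat.mul 3 (lo ν)))

theorem u0_eq : @u0 = @u0R := Eq.trans rfl rfl

/-- Readable form of `u1`. -/
noncomputable def u1R (ν : Nat) :
    Nat :=
  (Nat.mul (Nat.mul 65536 (Nat.add (lo ν) (hi ν))) (hi ν))

theorem u1_eq : @u1 = @u1R := Eq.trans rfl rfl

/-- Readable form of `u2`. -/
noncomputable def u2R (ν : Nat) :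
    Nat :=
  (Nat.mul (Nat.mul 65536 (Nat.add (lo ν) (hi ν))) (Nat.sub (Nat.mul 3 (hi ν)) (lo ν)))

theorem u2_eq : @u2 = @u2R := Eq.trans rfl rfl

/-- Readable form of `cq`. -/
noncomputable def cqR (k G Ol Mu W MW XS ν A R c m : Nat) :
    Bool :=
  (an (Nat.ble m k) (tst G (Nat.sub (Nat.add A (Nat.mul (Nat.mul (Nat.pow 2 (Nat.add 16 c)) m) (av
    Ol Mu ν))) (Nat.add R (Nat.mul (Nat.pow 2 (Nat.add 16 c)) (Fast.sufF (fun i => (pk MW XS W i)) k
    m))))))

theorem cq_eq : @cq = @cqR := Eq.trans rfl rfl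

/-- One more row. -/
noncomputable def layer (o : VT) (Z R1 R2 R3 : Nat) (pv : OT) : OT := fun ν A c t κ =>
  cB (Nat.beq (Nat.land 3 t) 0) (pv ν A c (Nat.shiftRight t 2) κ) (o Z R1 R2 R3 pv ν A c t κ)

/-- Readable form of `obC`. -/
noncomputable def obCR (n1 : N1) (G XS HT : Nat) (κ : KT) (qb q um cn : Nat) (pv : OT) (t r : Nat) :
    Bool :=
  (an (tst G (Nat.land (Nat.sub (Nat.add G t) q) (Nat.sub (Nat.add G t) qb))) (@Nat.rec (fun _ =>
    RT) (fun p um cn pv r κ => κ p um cn pv r) (n1 XS HT) (Nat.land 7 r) t um cn pv (Nat.shiftRight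
    r 3) κ))

theorem obC_eq : @obC = @obCR := Eq.trans rfl rfl

/-- Readable form of `obB`. -/
noncomputable def obBR (af : AT) (n1 : N1) (s1 : S1) (tz : Nat → Nat → Nat) (O G W MW XS HT p um cn : Nat) (pv : OT) (κ
    : KT) (bi pb ps r : Nat) :
    Bool :=
  (an (tst G (Nat.land (Nat.land (Nat.sub (Nat.add G pb) p) (Nat.sub (Nat.add G (Nat.mul 16384 O))
    (Nat.add pb (Nat.mul 4 (pk MW XS W bi))))) (Nat.sub (Nat.add G ps) p))) (an (Nat.beq (Nat.land
    (Nat.mul 32767 O) (zf O G pb (Nat.add pb (Nat.mul 4 (pk MW XS W bi))))) (zf O G pb (Nat.add pb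
    (Nat.mul 4 (pk MW XS W bi))))) (@Nat.rec (fun _ => RT) (fun p um cn pv r κ => κ p um cn pv r)
    (s1 XS HT bi (pk MW XS W bi) (tz (zf O G pb (Nat.add pb (Nat.mul 4 (pk MW XS W bi)))) (pk MW XS
    W bi)) (Nat.add pb (Nat.mul 2 (pk MW XS W bi)))) (Nat.land 7 r) ps (Nat.lor um (Nat.pow 2 bi))
    cn pv (Nat.shiftRight r 3) (fun (q um cn : Nat) (pv : OT) (r : Nat) => (af XS HT p r (obC n1 G
    XS HT κ (Nat.add pb (Nat.mul 4 (pk MW XS W bi))) q um cn pv))))))

theorem obB_eq : @obB = @obBR := Eq.trans rfl rfl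

/-- Readable form of `obA`. -/
noncomputable def obAR (af : AT) (n1 : N1) (s1 : S1) (tz : Nat → Nat → Nat) (k O G W MW XS HT : Nat) (κ : KT) (p um cn
    : Nat) (pv : OT) (r : Nat) :
    Bool :=
  (an (Nat.ble (Nat.succ (Nat.land 15 r)) k) (af XS HT p (Nat.shiftRight r 4) (fun (pb t : Nat) =>
    (af XS HT p t (obB af n1 s1 tz O G W MW XS HT p um cn pv κ (Nat.land 15 r) pb)))))

theorem obA_eq : @obA = @obAR := Eq.trans rfl rfl

/-- Head of a group. -/
noncomputable def g1 (g : (Nat → Nat → Bool) → Nat → Nat → Nat → Bool) (ih : Nat → Nat → Bool)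
    (hi r : Nat) : Bool :=
  (cB (Nat.beq hi 0) true (fb (Nat.add hi (Nat.land 7 (Nat.land 2305843009213693951 r))) fun ν =>
    (g ih r (Nat.land 2305843009213693951 r) ν)))

/-- Readable form of `wm`. -/
noncomputable def wmR (ni nr : Nat) :
    Nat :=
  (Nat.mul (Nat.sub (Nat.pow 2 (Nat.mul 64 (Nat.succ ni))) 1) (Nat.land cR (Nat.sub (Nat.pow 2
    (Nat.succ (Nat.mul 8256 nr))) 1)))

theorem wm_eq : @wm = @wmR := Eq.trans rfl rfl

/-- Readable form of `fin`. -/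
noncomputable def finR (g2 : GT) (k O G XS av C0 h p0 p um cn : Nat) (pv : OT) (r : Nat) :
    Bool :=
  (an (Nat.beq (Nat.add (Nat.xor (Nat.succ um) (Nat.pow 2 k)) (Nat.sub cn 12)) 0) (an (tst G
    (Nat.land (Nat.land (Nat.sub (Nat.add G (Nat.mul (Nat.sub 16384 (Nat.mul 128 (Nat.land 127
    (Nat.shiftRight h 19)))) O)) p) (Nat.sub (Nat.add G (Nat.mul (Nat.mul 128 (Nat.land 31
    (Nat.shiftRight h 26))) O)) (Nat.sub (Nat.mul (Nat.sub 16384 (Nat.mul 128 (Nat.land 127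
    (Nat.shiftRight h 19)))) O) p))) (Nat.land (Nat.sub (Nat.add G (Nat.mul (Nat.sub 7936 (Nat.mul
    256 (Nat.land 31 (Nat.shiftRight h 31)))) O)) p0) (Nat.sub (Nat.add G (Nat.mul (Nat.mul 256
    (Nat.land 7 (Nat.shiftRight h 36))) O)) (Nat.sub (Nat.mul (Nat.sub 7936 (Nat.mul 256 (Nat.land
    31 (Nat.shiftRight h 31)))) O) p0))))) (rep41 (g1 (g2 XS pv (Nat.sub (Nat.add G (Nat.mul 256
    av)) (Nat.mul C0 O)) (Nat.mul 1024 (Nat.sub (Nat.mul (Nat.sub 16384 (Nat.mul 128 (Nat.land 127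
    (Nat.shiftRight h 19)))) O) p)) (Nat.mul 1024 (Nat.sub (Nat.mul (Nat.sub 7936 (Nat.mul 256
    (Nat.land 31 (Nat.shiftRight h 31)))) O) p0)) (Nat.add (Nat.mul 8256 (Nat.sub (Nat.land 31
    (Nat.shiftRight h 31)) 1)) (Nat.mul 64 (Nat.land 127 (Nat.shiftRight h 19)))) (Nat.land cM (wm
    (Nat.land 31 (Nat.shiftRight h 26)) (Nat.land 7 (Nat.shiftRight h 36)))) (Nat.land cG (wm
    (Nat.land 31 (Nat.shiftRight h 26)) (Nat.land 7 (Nat.shiftRight h 36)))) (Nat.land cD (wm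
    (Nat.land 31 (Nat.shiftRight h 26)) (Nat.land 7 (Nat.shiftRight h 36)))) (Nat.land cI (wm
    (Nat.land 31 (Nat.shiftRight h 26)) (Nat.land 7 (Nat.shiftRight h 36)))) (Nat.land cO (wm
    (Nat.land 31 (Nat.shiftRight h 26)) (Nat.land 7 (Nat.shiftRight h 36)))))) (Nat.mul 8 (Nat.land
    63 (Nat.shiftRight h 13))) r)))

theorem fin_eq : @fin = @finR := Eq.trans rfl rfl

/-- Readable form of `unp`. -/
noncomputable def unpR (k : Nat) :
    Nat → Box :=
  @Nat.rec (fun _ => Nat → Box) (fun _ => []) (fun _ ih X => ((Nat.land 8191 X), (Nat.land 8191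
    (Nat.shiftRight X 13))) :: ih (Nat.shiftRight X 26)) k

theorem unp_eq : @unp = @unpR := Eq.trans rfl rfl

/-- Readable form of `lay`. -/
noncomputable def layR (af : AT) (n1 : N1) (ob : Nat → Nat → KT → KT) (fi : Nat → Nat → Nat → Nat → Nat → KT) (k O W MW
    X Uv r h XS av ac : Nat) :
    Bool :=
  (an (Nat.beq (Nat.add (Nat.add (Nat.add (Nat.sub (Nat.land 63 (Nat.shiftRight h 13)) 40)
    (Nat.sub (Nat.add (Nat.land 127 (Nat.shiftRight h 19)) (Nat.land 31 (Nat.shiftRight h 26)))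
    128)) (Nat.sub 1 (Nat.mul (Nat.mul (Nat.land 63 (Nat.shiftRight h 13)) (Nat.land 31
    (Nat.shiftRight h 26))) (Nat.mul (Nat.land 7 (Nat.shiftRight h 36)) (Nat.land 31 (Nat.shiftRight
    h 31)))))) (Nat.add (Nat.add (Nat.shiftRight (Nat.add 2147483649 (Nat.mul 64 ac)) 47) (Nat.sub
    (Nat.add (Nat.land 31 (Nat.shiftRight h 31)) (Nat.land 7 (Nat.shiftRight h 36))) 31)) (cN
    (Nat.beq (Nat.land 1 h) 0) (Nat.add (Nat.sub (Nat.land 4095 (Nat.shiftRight h 1)) (Nat.mul 32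
    (Nat.land 63 (Nat.shiftRight h 13)))) (Nat.sub 8388608 (Nat.add (arL (unp k X)) (Nat.mul
    (Nat.land 4095 (Nat.shiftRight h 1)) (Nat.land 4095 (Nat.shiftRight h 1)))))) (Nat.sub (Nat.land
    8191 (Nat.shiftRight Uv (Nat.mul 26 (Nat.sub k 1)))) (Nat.mul 32 (Nat.land 63 (Nat.shiftRight h
    13))))))) 0) (af XS (cN (Nat.beq (Nat.land 1 h) 0) (Nat.mul (Nat.land 4095 (Nat.shiftRight h 1))
    O) (pk MW XS W (Nat.sub k 1))) 0 (Nat.shiftRight r 43) (fun (p0 t : Nat) => (@Nat.rec (fun _ =>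
    RT) (fun p um cn pv r κ => κ p um cn pv r) (n1 XS (cN (Nat.beq (Nat.land 1 h) 0) (Nat.mul
    (Nat.land 4095 (Nat.shiftRight h 1)) O) (pk MW XS W (Nat.sub k 1)))) (Nat.land 7 (Nat.shiftRight
    h 40)) p0 0 0 (fun _ A c r κ => κ A c r) t ((@Bool.rec (fun _ => KT → KT) (ob XS (cN (Nat.beq
    (Nat.land 1 h) 0) (Nat.mul (Nat.land 4095 (Nat.shiftRight h 1)) O) (pk MW XS W (Nat.sub k 1))))
    (fun κ => κ) (Nat.beq (Nat.land 549755813888 h) 0)) (fi XS av (Nat.add 2147483649 (Nat.mul 64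
    ac)) h p0))))))

theorem lay_eq : @lay = @layR := Eq.trans rfl rfl

/-- A part of `mk2`. -/
noncomputable def lmK (G : Nat) :
    Nat → Nat → Nat :=
  fun (X Y : Nat) =>
    (Nat.sub X (cut G 47 (Nat.sub (Nat.add G X) Y)))

/-- A part of `mk2`. -/
noncomputable def tzK (O G MW G4 K4 A4 B4 : Nat) :
    Nat → Nat → Nat :=
  fun (Z X : Nat) =>
    (Nat.sub (Nat.mul 1090519040 O) (Nat.mod (cut G4 47 (Nat.add (Nat.add K4 (Nat.mul X A4))
    (Nat.mul (cut G 47 (Nat.add Z (Nat.add (Nat.mul 2 X) (Nat.sub G (Nat.mul 8192 O))))) B4))) MW))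

/-- A part of `mk2`. -/
noncomputable def oaK (O G Ol Mu : Nat) :
    CT :=
  fun (pv : OT) (ν A c r : Nat) (κ : Nat → Nat → Nat → Bool) (M o : Nat) =>
    (an (tst G (Nat.sub (Nat.add M (ch O G Ol Mu ν)) (Nat.mul (Nat.land 4095 (Nat.shiftRight o 3))
    (Nat.mul 16384 O)))) (pv ν (Nat.add A (Nat.add (Nat.mul (lo ν) M) (Nat.add (ca Ol ν) (Nat.mul
    (Nat.sub (Nat.add 4398046511104 (Nat.mul (Nat.land 4095 (Nat.shiftRight o 3)) (cw ν))) (cb ν))
    Mu)))) (Nat.succ c) (Nat.shiftRight r 15) κ))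

/-- A part of `mk2`. -/
noncomputable def obK (G Ol Mu : Nat) :
    CT :=
  fun (pv : OT) (ν A c r : Nat) (κ : Nat → Nat → Nat → Bool) (M o : Nat) =>
    (pv ν (Nat.add A (Nat.sub (Nat.add (Nat.mul (Nat.shiftRight o 6) M) (Nat.add (Nat.mul (Nat.sub
    4398046511104 (Nat.mul (Nat.shiftRight o 6) (Nat.add (k1 ν) (Nat.mul 65536 (Nat.mul (Nat.land 7
    (Nat.shiftRight o 3)) (Nat.shiftRight o 6)))))) Ol) (Nat.mul (Nat.sub 4398046511104 (Nat.mul
    (Nat.shiftRight o 6) (Nat.add (k2 ν) (Nat.mul 65536 (Nat.mul (Nat.land 7 (Nat.shiftRight o 3))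
    (Nat.shiftRight o 6)))))) Mu))) (cut G 47 (Nat.sub (Nat.add G (Nat.add (Nat.mul (Nat.shiftRight
    o 6) M) (Nat.add (Nat.mul (Nat.sub 4398046511104 (Nat.mul (Nat.shiftRight o 6) (Nat.add (k1 ν)
    (Nat.mul 65536 (Nat.mul (Nat.land 7 (Nat.shiftRight o 3)) (Nat.shiftRight o 6)))))) Ol) (Nat.mul
    (Nat.sub 4398046511104 (Nat.mul (Nat.shiftRight o 6) (Nat.add (k2 ν) (Nat.mul 65536 (Nat.mul
    (Nat.land 7 (Nat.shiftRight o 3)) (Nat.shiftRight o 6)))))) Mu)))) (Nat.add (Nat.mul (Nat.sub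
    (Nat.add 4398046511104 (Nat.mul (Nat.succ (Nat.land 7 (Nat.shiftRight o 3))) (u0 ν))) (Nat.mul
    (Nat.succ (Nat.land 7 (Nat.shiftRight o 3))) (u1 ν))) Ol) (Nat.mul (Nat.add 4398046511104
    (Nat.mul (Nat.succ (Nat.land 7 (Nat.shiftRight o 3))) (u2 ν))) Mu)))))) (Nat.succ c)
    (Nat.shiftRight r 15) κ)

/-- A part of `mk2`. -/
noncomputable def tmK (W MW V : Nat) :
    Nat → Nat → Nat → TT → TT :=
  fun (XS HT _j : Nat) (ih : TT) (p q r : Nat) (κ : Nat → Nat → Nat → Bool) =>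
    (an (Nat.beq (Nat.land 1 (Nat.shiftRight V (Nat.land 15 r))) 1) (cB (Nat.beq (Nat.land 16 r) 0)
    (ih (Nat.add p (Nat.mul (Nat.land 15 (Nat.shiftRight r 5)) (cN (Nat.beq (Nat.land 15 r) 15) HT
    (pk MW XS W (Nat.land 15 r))))) q (Nat.shiftRight r 9) κ) (ih p (Nat.add q (Nat.mul (Nat.land 15
    (Nat.shiftRight r 5)) (cN (Nat.beq (Nat.land 15 r) 15) HT (pk MW XS W (Nat.land 15 r)))))
    (Nat.shiftRight r 9) κ)))

/-- A part of `mk2`. -/
noncomputable def ftK (k W MW : Nat) :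
    Nat → Nat → ST → ST :=
  fun (XS _j : Nat) (ih : ST) (pi S um r : Nat) (κ : Nat → Nat → Nat → Bool) =>
    (an (Nat.beq (Nat.add (Nat.sub (Nat.succ pi) (Nat.land 15 r)) (Nat.sub (Nat.succ (Nat.land 15
    r)) k)) 0) (ih (Nat.land 15 r) (Nat.add S (pk MW XS W (Nat.land 15 r))) (Nat.lor um (Nat.pow 2
    (Nat.land 15 r))) (Nat.shiftRight r 4) κ))

/-- A part of `mk2`. -/
noncomputable def g2K (tb : Nat → Nat) (k O G Mu Ol W MW : Nat) :
    GT :=
  fun (XS : Nat) (pv : OT) (B0 IR XR s0 TM TG TD TI TO : Nat) (ih : Nat → Nat → Bool) (r h ν : Nat) =>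
    (an (okk ν) (an (tst TG (Nat.sub (Nat.add (Nat.add (Nat.land TM (Nat.shiftRight (tb (rho ν))
    (Nat.add s0 (so ν)))) TG) (Nat.mul (Nat.land 1023 (Nat.shiftRight h 13)) TD)) (Nat.add (Nat.mul
    (Nat.land 1023 (Nat.shiftRight h 3)) TI) (Nat.mul (Nat.add (Nat.land 65535 (Nat.shiftRight h
    23)) (Nat.shiftLeft (Nat.land 65535 (Nat.shiftRight h 39)) 32)) TO)))) (pv ν (Nat.add (Nat.add
    B0 (Nat.mul (Nat.land 1023 (Nat.shiftRight h 3)) IR)) (Nat.add (Nat.mul (Nat.land 65535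
    (Nat.shiftRight h 23)) (Nat.mul 65536 Ol)) (Nat.mul (Nat.land 65535 (Nat.shiftRight h 39))
    (Nat.mul 65536 Mu)))) 0 (Nat.shiftRight r 61) (fun (A c t : Nat) => (an (cB (Nat.beq (Nat.land 3
    (Nat.shiftRight h 55)) 0) (tst G (Nat.sub A (Nat.add (Nat.mul c (Nat.mul 4398046511104 O))
    (Nat.mul (Nat.land 1023 (Nat.shiftRight h 13)) XR)))) (cq k G Ol Mu W MW XS ν A (Nat.add
    (Nat.mul c (Nat.mul 4398046511104 O)) (Nat.mul (Nat.land 1023 (Nat.shiftRight h 13)) XR))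
    (Nat.land 3 (Nat.shiftRight h 55)) (Nat.shiftRight h 57))) (ih (nx ν) t))))))

/-- A part of `mk2`. -/
noncomputable def afK (O G : Nat) (tm : Nat → Nat → Nat → TT → TT) :
    AT :=
  fun (XS HT base r : Nat) (κ : Nat → Nat → Bool) =>
    (@Nat.rec (fun _ => TT) (fun p q r κ => κ p q r) (tm XS HT) (Nat.land 7 (Nat.shiftRight r 18))
    (Nat.add (cN (Nat.beq (Nat.land 1 r) 0) 0 base) (Nat.mul (Nat.land 131071 (Nat.shiftRight r 1))
    O)) (Nat.mul 32768 O) (Nat.shiftRight r 21) (fun (p q t : Nat) => (an (tst G (Nat.land (Nat.sub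
    (Nat.add G p) q) (Nat.sub (Nat.add G (Nat.mul 16384 O)) (Nat.sub p q)))) (κ (Nat.sub p q) t))))

/-- A part of `mk2`. -/
noncomputable def oNK (Ol Mu : Nat) (tz lm : Nat → Nat → Nat) (oa ob : CT) :
    VT :=
  fun (Z R1 R2 R3 : Nat) (pv : OT) (ν A c r : Nat) (κ : Nat → Nat → Nat → Bool) =>
    ((@Bool.rec (fun _ => CT) ob oa (Nat.beq (Nat.land 3 r) 1)) pv ν A c r κ (lm (lm R1 (Nat.add R2
    (tz Z (av Ol Mu ν)))) (Nat.add R3 (Nat.mul 4096 (av Ol Mu ν)))) (Nat.land 32767 r))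

/-- A part of `mk2`. -/
noncomputable def oSK (Ol Mu : Nat) (tz lm : Nat → Nat → Nat) (oa ob : CT) :
    VT :=
  fun (Z R1 R2 R3 : Nat) (pv : OT) (ν A c r : Nat) (κ : Nat → Nat → Nat → Bool) =>
    ((@Bool.rec (fun _ => CT) ob oa (Nat.beq (Nat.land 3 r) 1)) pv ν A c r κ (cN (Nat.beq (Nat.land
    4 r) 0) (lm R1 (Nat.add R2 (Nat.mul 2 (tz Z (av Ol Mu ν))))) R3) (Nat.land 32767 r))

/-- A part of `mk2`. -/
noncomputable def fsK (k O W MW : Nat) (tz lm : Nat → Nat → Nat) :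
    Nat → Nat → Nat → Nat → FT → FT :=
  fun (XS Z T1 _j : Nat) (ih : FT) (pi S C um r : Nat) (κ : Nat → Nat → Nat → Nat → Bool) =>
    (an (Nat.beq (Nat.add (Nat.sub (Nat.succ pi) (Nat.land 15 r)) (Nat.sub (Nat.succ (Nat.land 15
    r)) k)) 0) (ih (Nat.land 15 r) (Nat.add S (pk MW XS W (Nat.land 15 r))) (lm C (Nat.sub (Nat.add
    (Nat.add T1 (Nat.mul 268435456 O)) (tz Z (pk MW XS W (Nat.land 15 r)))) (Nat.mul 4096 (Nat.add S
    (pk MW XS W (Nat.land 15 r)))))) (Nat.lor um (Nat.pow 2 (Nat.land 15 r))) (Nat.shiftRight r 4)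
    κ))

/-- A part of `mk2`. -/
noncomputable def n2K (O G : Nat) (tz : Nat → Nat → Nat) (oN : VT) :
    Nat → Nat → Nat → OT → Nat → KT → RT → Nat → Nat → Nat → Nat → Nat → Nat → Nat → Bool :=
  fun (HT p cn : Nat) (pv : OT) (r : Nat) (κ : KT) (ih : RT) (q Z T1 S C um r1 : Nat) =>
    (an (cB (Nat.beq (Nat.land 16 r) 0) (orr (Nat.beq (Nat.land 7 (Nat.shiftRight r 5)) 0) (tst G
    (Nat.sub (Nat.add G C) (Nat.add (Nat.mul 4096 S) (Nat.mul 2415919104 O))))) (an (Nat.beq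
    (Nat.land 4095 r) 304) (Nat.beq (Nat.add p q) (Nat.mul 16384 O)))) (ih q um (Nat.succ cn) (layer
    oN Z (Nat.sub (Nat.add (Nat.mul 2 C) (Nat.mul 536870912 O)) (Nat.mul 8192 S)) (Nat.sub (Nat.add
    T1 (Nat.mul 3221225472 O)) (Nat.mul 8192 S)) (Nat.add (Nat.sub (Nat.add T1 (Nat.mul 3221225472
    O)) (Nat.mul 8192 S)) (tz Z HT)) pv) r1 κ))

/-- A part of `mk2`. -/
noncomputable def s2K (O G : Nat) (lm : Nat → Nat → Nat) (oS : VT) :
    Nat → Nat → Nat → Nat → OT → Nat → KT → RT → Nat → Nat → Nat → Nat → Nat → Nat → Nat → Bool :=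
  fun (Xb Tb Yb cn : Nat) (pv : OT) (r : Nat) (κ : KT) (ih : RT) (H q Z Tc S um r1 : Nat) =>
    (an (orr (Nat.beq (Nat.land 8 r) 0) (Fast.capTF O G (Nat.land 15 (Nat.shiftRight r 4)) (Fast.ls
    G (Nat.add Z (Nat.mul 2 H)) (Nat.mul 8192 O)) Yb (Fast.bt r 8))) (an (orr (Nat.beq (Nat.land 7
    r) 0) (tst G (Nat.sub (Nat.add G (cN (Nat.beq (Nat.land 512 r) 0) (lm (Nat.sub (Nat.add (Nat.mul
    2 Tc) (Nat.mul 3221225472 O)) (Nat.mul 8192 S)) (Nat.add (Nat.sub (Nat.add Tb (Nat.mul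
    2130706432 O)) (Nat.mul 8192 (Nat.add S Xb))) (Nat.mul 2 Tc))) (cN (Nat.beq (Nat.land 8 r) 0) 0
    (lm (Nat.sub (Nat.add (Nat.mul 2 Tc) (Nat.mul 3221225472 O)) (Nat.mul 8192 S)) (capV O (Nat.land
    15 (Nat.shiftRight r 4)) Tb (Nat.add S Xb)))))) (Nat.mul 5368709120 O)))) (ih q um (Nat.succ cn)
    (layer oS Z (Nat.sub (Nat.add (Nat.mul 2 Tc) (Nat.mul 3221225472 O)) (Nat.mul 8192 S)) (Nat.sub
    (Nat.add Tb (Nat.mul 2130706432 O)) (Nat.mul 8192 (Nat.add S Xb))) (cN (Nat.beq (Nat.land 8 r)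
    0) 0 (lm (Nat.sub (Nat.add (Nat.mul 2 Tc) (Nat.mul 3221225472 O)) (Nat.mul 8192 S)) (capV O
    (Nat.land 15 (Nat.shiftRight r 4)) Tb (Nat.add S Xb)))) pv) r1 κ)))

/-- A part of `mk2`. -/
noncomputable def n1K (k O G W MW : Nat) (tz : Nat → Nat → Nat) (fs : Nat → Nat → Nat → Nat → FT → FT) (n2 : Nat → Nat
    → Nat → OT → Nat → KT → RT → Nat → Nat → Nat → Nat → Nat → Nat → Nat → Bool) :
    N1 :=
  fun (XS HT _j : Nat) (ih : RT) (p um cn : Nat) (pv : OT) (r : Nat) (κ : KT) =>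
    (an (Nat.ble (Nat.succ (Nat.land 15 r)) k) (an (tst G (Nat.sub (Nat.add G (Nat.mul 16384 O))
    (Nat.add p (Nat.mul 4 (pk MW XS W (Nat.land 15 r)))))) (an (Nat.beq (Nat.land (Nat.mul 32767 O)
    (zf O G p (Nat.add p (Nat.mul 4 (pk MW XS W (Nat.land 15 r)))))) (zf O G p (Nat.add p (Nat.mul 4
    (pk MW XS W (Nat.land 15 r)))))) (@Nat.rec (fun _ => FT) (fun _ S C um r κ => κ S C um r) (fs XS
    (zf O G p (Nat.add p (Nat.mul 4 (pk MW XS W (Nat.land 15 r))))) (tz (zf O G p (Nat.add p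
    (Nat.mul 4 (pk MW XS W (Nat.land 15 r))))) (pk MW XS W (Nat.land 15 r)))) (Nat.land 7
    (Nat.shiftRight r 5)) (Nat.land 15 r) (pk MW XS W (Nat.land 15 r)) (Nat.mul 2483027968 O)
    (Nat.lor um (Nat.pow 2 (Nat.land 15 r))) (Nat.shiftRight r 8) (n2 HT p cn pv r κ ih (Nat.add p
    (Nat.mul 4 (pk MW XS W (Nat.land 15 r)))) (zf O G p (Nat.add p (Nat.mul 4 (pk MW XS W (Nat.land
    15 r))))) (tz (zf O G p (Nat.add p (Nat.mul 4 (pk MW XS W (Nat.land 15 r))))) (pk MW XS W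
    (Nat.land 15 r))))))))

/-- A part of `mk2`. -/
noncomputable def s1K (O G W MW : Nat) (tz : Nat → Nat → Nat) (ft : Nat → Nat → ST → ST) (s2 : Nat → Nat → Nat → Nat →
    OT → Nat → KT → RT → Nat → Nat → Nat → Nat → Nat → Nat → Nat → Bool) :
    S1 :=
  fun (XS HT bi Xb Tb Yb _j : Nat) (ih : RT) (p um cn : Nat) (pv : OT) (r : Nat) (κ : KT) =>
    (an (tst G (Nat.sub (Nat.add G (Nat.mul 16384 O)) (Nat.add p (Nat.mul 4 (cN (Nat.beq (Nat.land 7
    r) 0) HT (pk MW XS W (Nat.land 15 (Nat.shiftRight r 10)))))))) (an (Nat.beq (Nat.land (Nat.mul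
    32767 O) (zf O G p (Nat.add p (Nat.mul 4 (cN (Nat.beq (Nat.land 7 r) 0) HT (pk MW XS W (Nat.land
    15 (Nat.shiftRight r 10)))))))) (zf O G p (Nat.add p (Nat.mul 4 (cN (Nat.beq (Nat.land 7 r) 0)
    HT (pk MW XS W (Nat.land 15 (Nat.shiftRight r 10)))))))) (@Nat.rec (fun _ => ST) (fun _ S um r κ
    => κ S um r) (ft XS) (Nat.land 7 r) bi 0 um (Nat.shiftRight r 10) (s2 Xb Tb Yb cn pv r κ ih (cN
    (Nat.beq (Nat.land 7 r) 0) HT (pk MW XS W (Nat.land 15 (Nat.shiftRight r 10)))) (Nat.add p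
    (Nat.mul 4 (cN (Nat.beq (Nat.land 7 r) 0) HT (pk MW XS W (Nat.land 15 (Nat.shiftRight r 10))))))
    (zf O G p (Nat.add p (Nat.mul 4 (cN (Nat.beq (Nat.land 7 r) 0) HT (pk MW XS W (Nat.land 15
    (Nat.shiftRight r 10))))))) (tz (zf O G p (Nat.add p (Nat.mul 4 (cN (Nat.beq (Nat.land 7 r) 0)
    HT (pk MW XS W (Nat.land 15 (Nat.shiftRight r 10))))))) (cN (Nat.beq (Nat.land 7 r) 0) HT (pk MW
    XS W (Nat.land 15 (Nat.shiftRight r 10)))))))))

/-- The check for one pattern, from its parts. -/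
noncomputable def runC (k O G W MW : Nat) (pp : PT) (tz : Nat → Nat → Nat) (af : AT) (n1 : N1) (s1 : S1) (g2 : GT) :
    Nat → Nat → Nat → Nat → Bool :=
  (fun (X Lv Uv r : Nat) => (pp Lv Uv 0 0 0 (lay af n1 (obA af n1 s1 tz k O G W MW) (fin g2 k O G)
    k O W MW X Uv r (Nat.land 8796093022207 r))))

theorem mk2_eq (tb : Nat → Nat) (k O G Mu Ol W MW V G4 K4 A4 B4 : Nat) (pp : PT) :
    mk2 tb k O G Mu Ol W MW V G4 K4 A4 B4 pp = U.mk (runC k O G W MW pp (tzK O G MW G4 K4 A4 B4) (afK O G (tmK W MW V)) (n1K k O G W MW (tzK O G MW G4 K4 A4 B4) (fsK k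
    O W MW (tzK O G MW G4 K4 A4 B4) (lmK G)) (n2K O G (tzK O G MW G4 K4 A4 B4) (oNK Ol Mu (tzK O G
    MW G4 K4 A4 B4) (lmK G) (oaK O G Ol Mu) (obK G Ol Mu)))) (s1K O G W MW (tzK O G MW G4 K4 A4 B4)
    (ftK k W MW) (s2K O G (lmK G) (oSK Ol Mu (tzK O G MW G4 K4 A4 B4) (lmK G) (oaK O G Ol Mu) (obK G
    Ol Mu)))) (g2K tb k O G Mu Ol W MW)) :=
  Eq.trans rfl rfl

/-- Readable form of `on`. -/
noncomputable def onR (n : Nat) :
    Nat :=
  (Nat.div (Nat.sub (Nat.pow 2 (Nat.mul 48 n)) 1) 281474976710655)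

theorem on_eq : @on = @onR := Eq.trans rfl rfl

/-- Readable form of `gk2`. -/
noncomputable def gk2R (κ : GK) (O nf : Nat) (pp : PT) (e T U2 w M : Nat) :
    U :=
  (κ T U2 O nf (fun (Lv Uv XS av ac : Nat) (κ : Nat → Nat → Nat → Bool) => (pp (Nat.shiftRight Lv
    26) (Nat.shiftRight Uv 26) (Nat.add XS (Nat.shiftLeft (Nat.add (Nat.mul (Nat.land 8191 Lv) O)
    (Nat.mul (Nat.sub (Nat.land 8191 Uv) (Nat.land 8191 Lv)) M)) w)) (Nat.add av (Nat.mul (Nat.add
    (Nat.land 8191 Lv) (Nat.land 8191 Uv)) (Nat.add (Nat.mul (Nat.land 8191 Lv) O) (Nat.mul (Nat.sub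
    (Nat.land 8191 Uv) (Nat.land 8191 Lv)) M)))) (Nat.add ac (Nat.mul (Nat.add (Nat.land 8191 Lv)
    (Nat.land 8191 Uv)) (Nat.add (Nat.land 8191 Lv) (Nat.land 8191 Uv)))) κ)) (Nat.add e (Nat.xor M
    (Nat.land M O))))

theorem gk2_eq : @gk2 = @gk2R := Eq.trans rfl rfl

/-- Readable form of `gk`. -/
noncomputable def gkR (κ : GK) (j n s T T2 O nf : Nat) (pp : PT) (e : Nat) :
    U :=
  (gk2 κ O nf pp e (cN (Nat.beq s 0) (Nat.add T (Nat.shiftLeft T2 (Nat.mul 48 (Nat.sub n s)))) T)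
    (Nat.add T (Nat.shiftLeft T2 (Nat.mul 48 (Nat.sub n s)))) (Nat.mul (Nat.mul 96 nf) j)
    (Nat.shiftLeft (Nat.mul (on (Nat.sub n s)) T2) (Nat.mul 48 n)))

theorem gk_eq : @gk = @gkR := Eq.trans rfl rfl

/-- Readable form of `go`. -/
noncomputable def goR (fuel : Nat) :
    Nat → Nat → Nat → Nat → GK → U :=
  @Nat.rec (fun _ => Nat → Nat → Nat → Nat → GK → U) (fun _ _ n _ κ => (fu n fun n => (fu (on
    (Nat.mul 2 n)) fun O => (κ (Nat.add 1 (Nat.pow 2 (Nat.mul 48 n))) (Nat.add 1 (Nat.pow 2 (Nat.mul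
    48 n))) O n (fun _ _ XS av ac κ => κ XS av ac) 0)))) (fun _ ih p j n m κ => ih (Nat.shiftRight p
    26) (Nat.succ j) (Nat.sub (Nat.mul 2 n) (Nat.mul (Nat.sub 1 (Nat.land 1 p)) m)) n (gk κ j n
    (Nat.mul (Nat.sub 1 (Nat.land 1 p)) m))) fuel

theorem go_eq : @go = @goR := Eq.trans rfl rfl

/-- Readable form of `p4`. -/
noncomputable def p4R (W a b c d : Nat) :
    Nat :=
  (Nat.add (Nat.add a (Nat.shiftLeft b W)) (Nat.shiftLeft (Nat.add c (Nat.shiftLeft d W)) (Nat.mul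
    2 W)))

theorem p4_eq : @p4 = @p4R := Eq.trans rfl rfl

/-- Readable form of `eP`. -/
noncomputable def ePR (a1 b1 a2 b2 a3 b3 a4 b4 : Nat) :
    Nat :=
  (Nat.add (Nat.add (Nat.add (Nat.xor a1 1024) (Nat.add (Nat.sub a1 a2) (Nat.add (Nat.sub a2 a3)
    (Nat.add (Nat.sub a3 a4) (Nat.shiftRight a4 14))))) (Nat.add (Nat.sub b1 b2) (Nat.add (Nat.sub
    (Nat.succ b2) b3) (Nat.add (Nat.sub b3 b4) (Nat.shiftRight b4 15))))) (Nat.add (Nat.sub (Nat.mul
    (Nat.sub a2 a1) (Nat.sub b3 b2)) (Nat.mul (Nat.sub a3 a2) (Nat.sub b2 b1))) (Nat.sub (Nat.mul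
    (Nat.sub a3 a2) (Nat.sub b4 b3)) (Nat.mul (Nat.sub a4 a3) (Nat.sub b3 b2)))))

theorem eP_eq : @eP = @ePR := Eq.trans rfl rfl

/-- Readable form of `mk3`. -/
noncomputable def mk3R (tb : Nat → Nat) (a1 b1 a2 b2 a3 b3 a4 b4 k O G Ol W : Nat) (pp : PT) :
    U :=
  (mk2 tb k O G (Nat.sub O Ol) Ol W (Nat.sub (Nat.pow 2 W) 1) (Nat.add 32767 (Nat.pow 2 k)) (p4 W
    G G G G) (Nat.sub (p4 W G G G G) (Nat.mul (Nat.mul 4096 O) (p4 W 0 (Nat.mul 4 (Nat.sub a2 a1))
    (Nat.mul 4 (Nat.sub a3 a2)) (Nat.mul 4 (Nat.sub a4 a3))))) (p4 W 0 (Nat.mul 4 (Nat.sub a2 a1))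
    (Nat.mul 4 (Nat.sub a3 a2)) (Nat.mul 4 (Nat.sub a4 a3))) (p4 W b1 (Nat.sub b2 b1) (Nat.sub b3
    b2) (Nat.sub b4 b3)) pp)

theorem mk3_eq : @mk3 = @mk3R := Eq.trans rfl rfl

/-- Readable form of `mk4`. -/
noncomputable def mk4R (tb : Nat → Nat) (a1 b1 a2 b2 a3 b3 a4 b4 k _T _T2 O n : Nat) (pp : PT) (e : Nat) :
    U :=
  (@Bool.rec (fun _ => U) (U.mk fun _ _ _ _ => false) (fu (Nat.shiftLeft O 47) fun G => (mk3 tb a1
    b1 a2 b2 a3 b3 a4 b4 k O G (on n) (Nat.mul 96 n) pp)) (Nat.beq (Nat.add (eP a1 b1 a2 b2 a3 b3 a4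
    b4) (Nat.add (Nat.sub 1 k) e)) 0))

theorem mk4_eq : @mk4 = @mk4R := Eq.trans rfl rfl

/-- Readable form of `mk1`. -/
noncomputable def mk1R (P : Prof) (tb : Nat → Nat) (kp : Nat) :
    U :=
  @Prof.rec (fun _ => U) (fun a1 b1 a2 b2 a3 b3 a4 b4 => (go (Nat.land 15 kp) (Nat.shiftRight kp
    25) 0 1 0 (mk4 tb a1 b1 a2 b2 a3 b3 a4 b4 (Nat.land 15 kp)))) P

theorem mk1_eq : @mk1 = @mk1R := Eq.trans rfl rfl

/-- Readable form of `leaf1`. -/
noncomputable def leaf1R (P : Prof) (tb : Nat → Nat) (k X r Lv Uv : Nat) :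
    Bool :=
  (an (tst bG (Nat.land (Nat.sub (Nat.add bG Uv) Lv) (Nat.sub bU Uv))) (fb (Nat.add k (Nat.land bG
    (Nat.add bZ (Nat.add (Nat.xor Lv (Nat.shiftLeft Lv 26)) (Nat.xor Uv (Nat.shiftLeft Uv 26))))))
    fun kp => (mk1 P tb kp).f X Lv Uv r))

theorem leaf1_eq : @leaf1 = @leaf1R := Eq.trans rfl rfl

/-- Readable form of `leafF`. -/
noncomputable def leafFR (P : Prof) (tb : Nat → Nat) (k X r : Nat) :
    Bool :=
  (leaf1 P tb k X r (Nat.land bM X) (Nat.land bM (Nat.shiftRight X 13)))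

theorem leafF_eq : @leafF = @leafFR := Eq.trans rfl rfl

/-- Readable form of `cutU`. -/
noncomputable def cutUR (i m X : Nat) :
    Nat :=
  (Nat.sub X (Nat.shiftLeft (cut bG 25 (Nat.sub (Nat.add bG (Nat.land bM (Nat.shiftRight X
    (Nat.add 13 (Nat.mul 26 i))))) (Nat.mul m bO))) (Nat.add 13 (Nat.mul 26 i))))

theorem cutU_eq : @cutU = @cutUR := Eq.trans rfl rfl

/-- Readable form of `cutL`. -/
noncomputable def cutLR (i m X : Nat) :
    Nat :=
  (Nat.add X (cut (Nat.shiftLeft (Nat.shiftRight bO (Nat.mul 26 (Nat.sub 15 i))) 25) 25 (Nat.sub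
    (Nat.add (Nat.shiftLeft (Nat.shiftRight bO (Nat.mul 26 (Nat.sub 15 i))) 25) (Nat.mul m
    (Nat.shiftRight bO (Nat.mul 26 (Nat.sub 15 i))))) (Nat.land (Nat.mul 8191 (Nat.shiftRight bO
    (Nat.mul 26 (Nat.sub 15 i)))) X))))

theorem cutL_eq : @cutL = @cutLR := Eq.trans rfl rfl

/-- Readable form of `rare`. -/
noncomputable def rareR (ih : TK) (k X s r : Nat) (κ : Nat → Bool) :
    Bool :=
  (cB (Nat.beq (Nat.land 3 r) 1) (an (Nat.ble (Nat.succ (Nat.land 15 (Nat.shiftRight (Nat.land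
    262143 r) 2))) k) (an (Nat.ble 8388609 (arL (unp k (cutL (Nat.land 15 (Nat.shiftRight (Nat.land
    262143 r) 2)) (Nat.shiftRight (Nat.land 262143 r) 6) X)))) (ih k (cutU (Nat.land 15
    (Nat.shiftRight (Nat.land 262143 r) 2)) (Nat.shiftRight (Nat.land 262143 r) 6) X) s
    (Nat.shiftRight r 18) κ))) (cB (Nat.beq (Nat.land 3 r) 2) (an (Nat.beq (Nat.add (Nat.sub 1 k)
    (Nat.sub k 14)) 0) (ih (Nat.succ k) (Nat.add X (Nat.shiftLeft (Nat.land 8191 (Nat.shiftRight X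
    (Nat.sub (Nat.mul 26 k) 13))) (Nat.add 13 (Nat.mul 26 k)))) s (Nat.shiftRight r 2) κ)) (an
    (Nat.ble 8388609 (arL (unp k X))) (κ s))))

theorem rare_eq : @rare = @rareR := Eq.trans rfl rfl

/-- Readable form of `tokS`. -/
noncomputable def tokSR (lf : Nat → Nat → Nat → Bool) (ih : TK) (k X s r : Nat) (κ : Nat → Bool) :
    Bool :=
  (cB (Nat.beq (Nat.land 3 r) 0) (an (Nat.ble (Nat.succ (Nat.land 15 (Nat.shiftRight (Nat.land
    262143 r) 2))) k) (ih k (cutU (Nat.land 15 (Nat.shiftRight (Nat.land 262143 r) 2))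
    (Nat.shiftRight (Nat.land 262143 r) 6) X) (Nat.add k (Nat.shiftLeft (Nat.add (cutL (Nat.land 15
    (Nat.shiftRight (Nat.land 262143 r) 2)) (Nat.shiftRight (Nat.land 262143 r) 6) X) (Nat.shiftLeft
    s (Nat.mul 26 k))) 4)) (Nat.shiftRight r 18) κ)) (cB (Nat.beq (Nat.land 7 r) 7) (an (lf k X
    (Nat.shiftRight r 3)) (κ s)) (rare ih k X s r κ)))

theorem tokS_eq : @tokS = @tokSR := Eq.trans rfl rfl

/-- Readable form of `runP`. -/
noncomputable def runPR (lf : Nat → Nat → Nat → Bool) (e : Nat) (ts : List Nat) :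
    Nat → Bool :=
  @List.rec Nat (fun _ => Nat → Bool) (fun s => (Nat.beq s e)) (fun t _ ih s => (tokS lf (tokS lf
    (tok lf 198)) (Nat.land 15 s) (Nat.land (Nat.sub (Nat.pow 2 (Nat.mul 26 (Nat.land 15 s))) 1)
    (Nat.shiftRight s 4)) (Nat.shiftRight (Nat.shiftRight s 4) (Nat.mul 26 (Nat.land 15 s))) t ih))
    ts

theorem runP_eq : @runP = @runPR := Eq.trans rfl rfl

end Fast2

end Pool.Agent.MP_34f9b1_co.Sym

/-! The second fast checker: levels, rows and options. -/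

namespace Pool.Agent.MP_34f9b1_co.Sym

namespace Fast2

open Leaf
open Fast (an orr cN cB fb bt ls lm tzF zF termsF affF folF folSF rowsNF rowsSF optsF len obstF)
open FastP (an_eq orr_eq cN_eq cB_eq fb_eq bt_eq)

theorem lc (a b : Nat) : Nat.land a b = Nat.land b a := Nat.land_comm a b

theorem ac (a b : Nat) : Nat.add a b = Nat.add b a := Nat.add_comm a b

theorem an_iff {a b : Bool} : an a b = true ↔ a = true ∧ b = true := by
  rw [an_eq, Bool.and_eq_true]

theorem beq_iff {a b : Nat} : Nat.beq a b = true ↔ a = b :=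
  ⟨Nat.eq_of_beq_eq_true, fun h => h ▸ Nat.beq_refl a⟩

theorem ble_iff {a b : Nat} : Nat.ble a b = true ↔ a ≤ b :=
  ⟨Nat.le_of_ble_eq_true, Nat.ble_eq_true_of_le⟩

theorem tst_eq (G d : Nat) : tst G d = Nat.beq (Nat.land d G) G := by
  unfold tst; rw [lc]

theorem tst_gd (G X Y : Nat) : tst G (Nat.sub (Nat.add G X) Y) = lge G X Y := by
  unfold lge; rw [tst_eq, ac]

theorem tst_and (G a b : Nat) : tst G (Nat.land a b) = an (tst G a) (tst G b) := by
  rw [Bool.eq_iff_iff, an_iff]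
  unfold tst
  rw [beq_iff, beq_iff, beq_iff]
  show G &&& (a &&& b) = G ↔ G &&& a = G ∧ G &&& b = G
  constructor
  · intro h
    constructor
    · rw [← h, Nat.and_assoc, Nat.and_assoc, Nat.and_comm b a, ← Nat.and_assoc a a, Nat.and_self]
    · rw [← h, Nat.and_assoc, Nat.and_assoc, Nat.and_self]
  · rintro ⟨h1, h2⟩
    rw [← Nat.and_assoc, h1, h2]

theorem cut_eq (G v d : Nat) : cut G v d = lcut v G d := by
  unfold cut lcut; rw [lc G d]

theorem cut_gd (G X Y : Nat) : cut G 47 (Nat.sub (Nat.add G X) Y) = ls G X Y := by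
  rw [cut_eq, FastP.ls_eq, ac]; rfl

theorem lmK_eq (G : Nat) : lmK G = lm G := by
  funext X Y
  unfold lmK
  rw [cut_gd]; rfl

theorem zf_eq (O G p q : Nat) : zf O G p q = zF O G p q := by
  unfold zf zF; rw [cut_gd]

theorem bit_eq (i r : Nat) : Nat.beq (Nat.land (2 ^ i) r) 0 = !bt r i := by
  rw [bt_eq, Bool.eq_iff_iff, beq_iff]
  show 2 ^ i &&& r = 0 ↔ _
  rw [Nat.two_pow_and]
  cases Nat.testBit r i <;> simp

theorem bit0 (r : Nat) : Nat.beq (Nat.land 1 r) 0 = !bt r 0 := bit_eq 0 r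
theorem bit2 (r : Nat) : Nat.beq (Nat.land 4 r) 0 = !bt r 2 := bit_eq 2 r
theorem bit3 (r : Nat) : Nat.beq (Nat.land 8 r) 0 = !bt r 3 := bit_eq 3 r
theorem bit4 (r : Nat) : Nat.beq (Nat.land 16 r) 0 = !bt r 4 := bit_eq 4 r
theorem bit9 (r : Nat) : Nat.beq (Nat.land 512 r) 0 = !bt r 9 := bit_eq 9 r

theorem cB_not (c a b : Bool) : cB (!c) a b = cB c b a := by cases c <;> rfl
theorem cN_not (c : Bool) (a b : Nat) : cN (!c) a b = cN c b a := by cases c <;> rfl
theorem orr_not (c a : Bool) : orr (!c) a = cB c a true := by cases c <;> rfl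

theorem fld_and (m M s x : Nat) (h : Nat.land m (Nat.shiftRight M s) = m) :
    Nat.land m (Nat.shiftRight (Nat.land M x) s) = Nat.land (Nat.shiftRight x s) m := by
  have h' : m &&& (M >>> s) = m := h
  show m &&& ((M &&& x) >>> s) = (x >>> s) &&& m
  rw [Nat.shiftRight_and_distrib, ← Nat.and_assoc, h', Nat.and_comm]

theorem shr_and (M s x : Nat) :
    Nat.shiftRight (Nat.land M x) s = Nat.land (Nat.shiftRight x s) (Nat.shiftRight M s) := by
  show (M &&& x) >>> s = (x >>> s) &&& (M >>> s)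
  rw [Nat.shiftRight_and_distrib, Nat.and_comm]

theorem two_sub (a b c d : Nat) :
    Nat.beq (Nat.add (Nat.sub a b) (Nat.sub c d)) 0 = an (Nat.ble a b) (Nat.ble c d) := by
  rw [Bool.eq_iff_iff, an_iff, beq_iff, ble_iff, ble_iff]
  show a - b + (c - d) = 0 ↔ _
  omega

theorem land_le (r m : Nat) : Nat.land r m ≤ m := Nat.and_le_right

theorem vbit : ∀ k ≤ 15, ∀ i ≤ 15,
    Nat.beq (Nat.land 1 (Nat.shiftRight (Nat.add 32767 (Nat.pow 2 k)) i)) 1 =
      orr (Nat.beq i 15) (Nat.ble (Nat.succ i) k) := by decide +kernel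

theorem terms_eq {k : Nat} (hk : k ≤ 15) (W MW XS HT cnt : Nat) :
    @Nat.rec (fun _ => TT) (fun p q r κ => κ p q r)
      (tmK W MW (Nat.add 32767 (Nat.pow 2 k)) XS HT) cnt = termsF (pk MW XS W) k HT cnt := by
  unfold termsF
  congr 1
  funext _ ih p q r κ
  unfold tmK
  rw [lc 15 r, vbit k hk _ (land_le r 15), bit4, cB_not, lc 15]

theorem aff_eq {k : Nat} (hk : k ≤ 15) (O G W MW XS HT base r : Nat) (κ : Nat → Nat → Bool) :
    afK O G (tmK W MW (Nat.add 32767 (Nat.pow 2 k))) XS HT base r κ =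
      affF (pk MW XS W) k HT O G base r κ := by
  unfold afK affF
  rw [terms_eq hk, lc 7, lc 131071, bit0, cN_not]
  congr 1
  funext p q t
  rw [tst_and, tst_gd, tst_gd, an_eq, an_eq, an_eq, an_eq, Bool.and_assoc]

theorem terms_mono (xf : Nat → Nat) (k HT cnt : Nat) {κ κ' : Nat → Nat → Nat → Bool}
    (h : ∀ p q r, κ p q r = true → κ' p q r = true) :
    ∀ p q r, termsF xf k HT cnt p q r κ = true → termsF xf k HT cnt p q r κ' = true := by
  induction cnt with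
  | zero => exact h
  | succ j ih =>
    intro p q r
    unfold termsF at ih ⊢
    simp only [an_iff]
    rintro ⟨h1, h2⟩
    refine ⟨h1, ?_⟩
    cases hb : bt r 4 <;> rw [hb] at h2 <;> exact ih _ _ _ h2

theorem aff_mono {xf : Nat → Nat} {k HT O G base r : Nat} {κ κ' : Nat → Nat → Bool}
    (h : ∀ p r, κ p r = true → κ' p r = true) (h1 : affF xf k HT O G base r κ = true) :
    affF xf k HT O G base r κ' = true := by
  unfold affF at h1 ⊢
  refine terms_mono _ _ _ _ (fun p q r => ?_) _ _ _ h1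
  simp only [an_iff]
  exact fun ⟨a, b, c⟩ => ⟨a, b, h _ _ c⟩

theorem aff_false (xf : Nat → Nat) (k HT O G base r : Nat) :
    affF xf k HT O G base r (fun _ _ => false) = false := by
  unfold affF
  generalize Nat.land (Nat.shiftRight r 18) 7 = cnt
  generalize Nat.add _ _ = p
  generalize Nat.mul 32768 O = q
  generalize Nat.shiftRight r 21 = r
  induction cnt generalizing p q r with
  | zero =>
    show an _ (an _ false) = false
    simp only [an_eq, Bool.and_false]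
  | succ j ih =>
    unfold termsF at ih ⊢
    dsimp only
    rw [ih, ih, an_eq, cB_eq, Bool.cond_self, Bool.and_false]

theorem fol_imp {P : Prof} {k O G W MW XS Z T1 : Nat} {tz : Nat → Nat → Nat}
    (hz : ∀ i, tz Z (pk MW XS W i) = tzF P O G Z (pk MW XS W i))
    {κ κ' : Nat → Nat → Nat → Nat → Bool} (h : ∀ S C u r, κ S C u r = true → κ' S C u r = true)
    (cnt : Nat) : ∀ pi S C um r, @Nat.rec (fun _ => FT) (fun _ S C um r κ => κ S C um r)
      (fsK k O W MW tz (lm G) XS Z T1) cnt pi S C um r κ = true →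
      folF P (pk MW XS W) k O G Z T1 cnt pi S C um r κ' = true := by
  induction cnt with
  | zero => exact fun _ => h
  | succ j ih =>
    intro pi S C um r h1
    unfold folF at ih ⊢
    dsimp only at h1 ⊢
    unfold fsK at h1
    rw [two_sub, lc 15, hz, an_iff] at h1
    rw [an_iff]
    refine ⟨h1.1, ih _ _ _ _ _ ?_⟩
    have e : ∀ a b c : Nat, Nat.add (Nat.add a b) c = Nat.add (Nat.add a c) b :=
      Nat.add_right_comm
    rw [e T1]
    exact h1.2

theorem folS_imp {k W MW XS : Nat} {κ κ' : Nat → Nat → Nat → Bool}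
    (h : ∀ S u r, κ S u r = true → κ' S u r = true) (cnt : Nat) :
    ∀ pi S um r, @Nat.rec (fun _ => ST) (fun _ S um r κ => κ S um r)
      (ftK k W MW XS) cnt pi S um r κ = true → folSF (pk MW XS W) k cnt pi S um r κ' = true := by
  induction cnt with
  | zero => exact fun _ => h
  | succ j ih =>
    intro pi S um r h1
    unfold folSF at ih ⊢
    dsimp only at h1 ⊢
    unfold ftK at h1
    rw [two_sub, lc 15, an_iff] at h1
    rw [an_iff]
    exact ⟨h1.1, ih _ _ _ _ h1.2⟩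

theorem okk_iff {ν : Nat} : okk ν = true ↔ (2 ^ (Nat.land 7 ν) ≤ hi ν ∧ hi ν ≤ 40) ∧
    Nat.shiftLeft (nu ν) (Nat.land 7 ν) = Nat.add 64 (lo ν) := by
  rw [okk_eq]
  unfold okkR
  rw [beq_iff]
  show 2 ^ (Nat.land 7 ν) - hi ν + (hi ν - 40) + (_ ^^^ _) = 0 ↔ _
  rw [Nat.add_eq_zero_iff, Nat.xor_eq_zero_iff]
  exact and_congr_left fun _ => by omega

theorem lo_le (ν : Nat) : lo ν ≤ hi ν := by
  rw [lo_eq]; exact Nat.sub_le _ _

theorem opt_eq {O G Ol Mu ν : Nat} (hG : G = 2 ^ 47 * O) (hO : Ol + Mu = O) (hν : hi ν ≤ 40)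
    (pv : OT) (A c r M : Nat) (κ : Nat → Nat → Nat → Bool) :
    (@Bool.rec (fun _ => CT) (obK G Ol Mu) (oaK O G Ol Mu) (Nat.beq (Nat.land 3 r) 1))
      pv ν A c r κ M (Nat.land 32767 r) = Fast.opt1 Ol Mu G (lo ν) (hi ν) (pv ν) A c r κ M := by
  unfold Fast.opt1
  rw [lc 3]
  cases Nat.beq (Nat.land r 3) 1
  · show obK G Ol Mu pv ν A c r κ M (Nat.land 32767 r) = pv ν _ _ _ _
    unfold obK Fast.o2F
    have e1 : ∀ a b z : Nat, Nat.mul a (Nat.mul (Nat.mul 65536 b) z) =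
        Nat.mul (Nat.mul (Nat.mul 65536 a) b) z := fun a b z => by
      show a * (65536 * b * z) = 65536 * a * b * z
      ring
    have e2 : Nat.shiftRight 32767 6 = 511 := by decide
    rw [cut_gd, fld_and 7 32767 3 r (by decide), shr_and, e2, k1_eq, k2_eq, u0_eq, u1_eq, u2_eq]
    unfold k1R k2R u0R u1R u2R
    rw [e1, e1, e1]
    rfl
  · show oaK O G Ol Mu pv ν A c r κ M (Nat.land 32767 r) = an _ _
    unfold oaK o1ok o1 tv lge
    rw [fld_and 4095 32767 3 r (by decide), ch_eq, ca_eq, cb_eq, cw_eq, tst_eq]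
    unfold chR caR cbR cwR
    rw [av_eq, k1_eq, k2_eq]
    unfold avR k1R k2R
    have hl := lo_le ν
    generalize lo ν = l at hl ⊢
    generalize hi ν = h at hl hν ⊢
    generalize Nat.land (Nat.shiftRight r 3) 4095 = d
    have e1 : Nat.mul d (Nat.mul 16384 (Nat.sub h l)) = Nat.mul (Nat.mul 16384 d) (Nat.sub h l) := by
      show d * (16384 * (h - l)) = 16384 * d * (h - l)
      ring
    have e2 : Nat.sub (Nat.add M (Nat.sub G (Nat.add (Nat.mul 5335154688 O) (Nat.mul 8192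
        (Nat.add (Nat.mul (Nat.mul 32 l) Ol) (Nat.mul (Nat.mul 32 h) Mu))))))
        (Nat.mul d (Nat.mul 16384 O)) = Nat.sub (Nat.add M G) (Nat.add
        (Nat.mul (Nat.add (Nat.add 5335154688 (Nat.mul 16384 d)) (Nat.mul 262144 l)) Ol)
        (Nat.mul (Nat.add (Nat.add 5335154688 (Nat.mul 16384 d)) (Nat.mul 262144 h)) Mu)) := by
      show M + (G - (5335154688 * O + 8192 * (32 * l * Ol + 32 * h * Mu))) - d * (16384 * O) =
        M + G - ((5335154688 + 16384 * d + 262144 * l) * Ol +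
          (5335154688 + 16384 * d + 262144 * h) * Mu)
      have h1 : l * Ol ≤ 40 * Ol := Nat.mul_le_mul_right _ (by omega)
      have h2 : h * Mu ≤ 40 * Mu := Nat.mul_le_mul_right _ hν
      have h3 : (5335154688 + 16384 * d + 262144 * l) * Ol +
          (5335154688 + 16384 * d + 262144 * h) * Mu =
          5335154688 * O + 262144 * (l * Ol + h * Mu) + d * (16384 * O) := by
        rw [← hO]; ring
      rw [h3, Nat.mul_assoc 32 l, Nat.mul_assoc 32 h]
      omega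
    rw [e1, e2]

/-- The function `pv` runs the options of the rows `rs`. -/
def Rel (P : Prof) (O G Ol Mu : Nat) (pv : OT) (rs : List Rw) : Prop :=
  ∀ ν, okk ν = true → pv ν = optsF P O Ol Mu G (av Ol Mu ν) (lo ν) (hi ν) rs

theorem rel_nil (P : Prof) (O G Ol Mu : Nat) : Rel P O G Ol Mu (fun _ A c r κ => κ A c r) [] :=
  fun _ _ => rfl

/-- Standing facts on the constants. -/
structure Ctx (P : Prof) (O G Ol Mu W MW XS HT : Nat) (tz : Nat → Nat → Nat) (B : Nat → Prop) :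
    Prop where
  hG : G = 2 ^ 47 * O
  hO : Ol + Mu = O
  hx : ∀ i, B (pk MW XS W i)
  hH : B HT
  ha : ∀ ν, okk ν = true → B (av Ol Mu ν)
  hz : ∀ Z X, Nat.land (Nat.mul 32767 O) Z = Z → B X → tz Z X = tzF P O G Z X

section

variable {P : Prof} {O G Ol Mu W MW XS HT : Nat} {tz : Nat → Nat → Nat} {B : Nat → Prop}
  (C : Ctx P O G Ol Mu W MW XS HT tz B)

include C

theorem rel_N {Z : Nat} (hZ : Nat.land (Nat.mul 32767 O) Z = Z) (R1 R2 R3 : Nat) {pv : OT}
    {rs : List Rw} (h : Rel P O G Ol Mu pv rs) :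
    Rel P O G Ol Mu (layer (oNK Ol Mu tz (lm G) (oaK O G Ol Mu) (obK G Ol Mu)) Z R1 R2 R3 pv)
      (⟨false, Z, R1, R2, R3⟩ :: rs) := by
  intro ν hν
  funext A c t κ
  unfold layer oNK
  rw [opt_eq C.hG C.hO (okk_iff.1 hν).1.2, h ν hν, C.hz _ _ hZ (C.ha ν hν), lc 3]
  rfl

theorem rel_S {Z : Nat} (hZ : Nat.land (Nat.mul 32767 O) Z = Z) (R1 R2 R3 : Nat) {pv : OT}
    {rs : List Rw} (h : Rel P O G Ol Mu pv rs) :
    Rel P O G Ol Mu (layer (oSK Ol Mu tz (lm G) (oaK O G Ol Mu) (obK G Ol Mu)) Z R1 R2 R3 pv)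
      (⟨true, Z, R1, R2, R3⟩ :: rs) := by
  intro ν hν
  funext A c t κ
  unfold layer oSK
  rw [opt_eq C.hG C.hO (okk_iff.1 hν).1.2, h ν hν, C.hz _ _ hZ (C.ha ν hν), lc 3, bit2, cN_not]
  rfl

end

/-- Related continuations. -/
def KR (P : Prof) (O G Ol Mu : Nat) (κ : KT) (κ' : Nat → Nat → List Rw → Nat → Bool) : Prop :=
  ∀ p um pv rs r, Rel P O G Ol Mu pv rs → κ p um (len rs) pv r = true → κ' p um rs r = true

/-- The step over full rows. -/
noncomputable def n1C (k O G Ol Mu W MW : Nat) (tz : Nat → Nat → Nat) : N1 :=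
  n1K k O G W MW tz (fsK k O W MW tz (lm G))
    (n2K O G tz (oNK Ol Mu tz (lm G) (oaK O G Ol Mu) (obK G Ol Mu)))

/-- The step over shortened rows. -/
noncomputable def s1C (k O G Ol Mu W MW : Nat) (tz : Nat → Nat → Nat) : S1 :=
  s1K O G W MW tz (ftK k W MW) (s2K O G (lm G) (oSK Ol Mu tz (lm G) (oaK O G Ol Mu) (obK G Ol Mu)))

section

variable {P : Prof} {k O G Ol Mu W MW XS HT : Nat} {tz : Nat → Nat → Nat} {B : Nat → Prop}
  (C : Ctx P O G Ol Mu W MW XS HT tz B)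

include C

theorem rowsN_imp {κ : KT} {κ' : Nat → Nat → List Rw → Nat → Bool} (h : KR P O G Ol Mu κ κ')
    (cnt : Nat) : KR P O G Ol Mu (fun p um cn pv r => @Nat.rec (fun _ => RT)
      (fun p um cn pv r κ => κ p um cn pv r) (n1C k O G Ol Mu W MW tz XS HT) cnt p um cn pv r κ)
      fun p um rs r => rowsNF P (pk MW XS W) k HT O G cnt p um rs r κ' := by
  induction cnt with
  | zero => exact h
  | succ j ih =>
    intro p um pv rs r hr h1
    unfold rowsNF KR at ih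
    unfold rowsNF
    dsimp only at h1 ih ⊢
    generalize @Nat.rec (fun _ => RT) _ _ j = R at h1 ih
    unfold n1C n1K at h1
    unfold Fast.rowN1
    simp only [an_iff, tst_gd, zf_eq, beq_iff, lc 15, lc 7] at h1
    obtain ⟨a1, a2, a3, a4⟩ := h1
    rw [an_iff, an_iff]
    refine ⟨a1, a2, ?_⟩
    rw [C.hz _ _ a3 (C.hx _)] at a4
    refine fol_imp (fun i => C.hz _ _ a3 (C.hx i)) (fun S c u t h2 => ?_) _ _ _ _ _ _ a4
    unfold n2K at h2
    rw [bit4, cB_not, tst_gd, lc 7, lc 4095, C.hz _ _ a3 C.hH, an_iff] at h2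
    rw [an_iff]
    exact ⟨h2.1, ih _ _ _ _ _ (rel_N C a3 _ _ _ hr) h2.2⟩

theorem rowsS_imp {κ : KT} {κ' : Nat → Nat → List Rw → Nat → Bool} (h : KR P O G Ol Mu κ κ')
    (bi Xb Tb Yb cnt : Nat) : KR P O G Ol Mu (fun p um cn pv r => @Nat.rec (fun _ => RT)
      (fun p um cn pv r κ => κ p um cn pv r) (s1C k O G Ol Mu W MW tz XS HT bi Xb Tb Yb) cnt
        p um cn pv r κ)
      fun p um rs r => rowsSF P (pk MW XS W) k HT O G bi Xb Tb Yb cnt p um rs r κ' := by
  induction cnt with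
  | zero => exact h
  | succ j ih =>
    intro p um pv rs r hr h1
    unfold rowsSF KR at ih
    unfold rowsSF
    dsimp only at h1 ih ⊢
    generalize @Nat.rec (fun _ => RT) _ _ j = R at h1 ih
    unfold s1C s1K at h1
    unfold Fast.rowS0 Fast.rowS1
    simp only [an_iff, tst_gd, zf_eq, beq_iff, lc 15, lc 7] at h1
    have hB : B (cN (Nat.beq (Nat.land r 7) 0) HT
        (pk MW XS W (Nat.land (Nat.shiftRight r 10) 15))) := by
      cases Nat.beq (Nat.land r 7) 0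
      · exact C.hx _
      · exact C.hH
    generalize cN (Nat.beq (Nat.land r 7) 0) HT
      (pk MW XS W (Nat.land (Nat.shiftRight r 10) 15)) = H at h1 hB ⊢
    obtain ⟨a2, a3, a4⟩ := h1
    rw [an_iff]
    refine ⟨a2, ?_⟩
    rw [C.hz _ _ a3 hB] at a4
    refine folS_imp (fun S u t h2 => ?_) _ _ _ _ _ a4
    unfold s2K at h2
    unfold Fast.rowS2
    rw [bit3, bit9, orr_not, cN_not, cN_not, tst_gd, lc 7, lc 15, an_iff, an_iff] at h2
    rw [an_iff, an_iff]
    exact ⟨h2.1, h2.2.1, ih _ _ _ _ _ (rel_S C a3 _ _ _ hr) h2.2.2⟩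

theorem ob_imp (hk : k ≤ 15) {κ : KT} {κ' : Nat → Nat → List Rw → Nat → Bool}
    (h : KR P O G Ol Mu κ κ') : KR P O G Ol Mu
      (obA (afK O G (tmK W MW (Nat.add 32767 (Nat.pow 2 k)))) (n1C k O G Ol Mu W MW tz)
        (s1C k O G Ol Mu W MW tz) tz k O G W MW XS HT κ)
      fun p um rs r => obstF P (pk MW XS W) k HT O G p um rs r κ' := by
  intro p um pv rs r hr h1
  rw [obA_eq] at h1
  unfold obAR at h1
  rw [aff_eq hk, lc 15, an_iff] at h1
  unfold obstF
  show an _ _ = true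
  rw [an_iff]
  refine ⟨h1.1, aff_mono (fun pb t h2 => ?_) h1.2⟩
  rw [aff_eq hk] at h2
  unfold Fast.obst1
  have key : ∀ (a : Bool) {κ1 κ2 : Nat → Nat → Bool}, (∀ x y, κ1 x y = true → a = true ∧ κ2 x y = true) →
      affF (pk MW XS W) k HT O G p t κ1 = true →
      a = true ∧ affF (pk MW XS W) k HT O G p t κ2 = true := by
    intro a κ1 κ2 g h3
    refine ⟨?_, aff_mono (fun x y h4 => (g x y h4).2) h3⟩
    cases a
    · exact absurd (aff_mono (κ' := fun _ _ => false) (fun x y h4 => (g x y h4).1) h3)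
        (by rw [aff_false]; decide)
    · rfl
  rw [an_eq, an_eq, ← Bool.and_assoc, Bool.and_eq_true]
  refine key _ (fun ps s h3 => ?_) h2
  rw [obB_eq] at h3
  unfold obBR at h3
  simp only [an_iff, tst_and, tst_gd, zf_eq, beq_iff, lc 7] at h3
  obtain ⟨⟨⟨a1, a2⟩, a3⟩, a4, a5⟩ := h3
  rw [C.hz _ _ a4 (C.hx _)] at a5
  rw [a1, a2, an_iff]
  refine ⟨rfl, a3, rowsS_imp C (fun q u pw rs' y hw h4 => ?_) _ _ _ _ _ _ _ _ _ _ hr a5⟩
  rw [aff_eq hk] at h4
  refine aff_mono (fun x z h5 => ?_) h4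
  rw [obC_eq] at h5
  unfold obCR at h5
  rw [tst_and, tst_gd, tst_gd, lc 7, an_iff] at h5
  rw [an_iff]
  exact ⟨h5.1, rowsN_imp C h _ _ _ _ _ _ hw h5.2⟩

end

end Fast2

end Pool.Agent.MP_34f9b1_co.Sym

/-! Lane calculus of any width, and the room function of the second fast checker. -/

namespace Pool.Agent.MP_34f9b1_co.Sym

namespace Fast2

open Fast (tzF ls lm)

/-- The vector `X` has the lanes `f i` below `n` and zero lanes from `n` on. -/
def Lv (w n X : ℕ) (f : ℕ → ℕ) : Prop := ∀ i, dg w X i = if i < n then f i else 0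

theorem dg_ext {w X Y : ℕ} (hw : 0 < w) (h : ∀ i, dg w X i = dg w Y i) : X = Y :=
  le_antisymm (DG.le_of_dg hw X fun i => (h i).le) (DG.le_of_dg hw Y fun i => (h i).ge)

theorem of_bd {w n X B : ℕ} (h : Bd w n X B) : Lv w n X (dg w X) := by
  intro i
  split_ifs with hi
  · rfl
  · exact (h i).2 (by omega)

namespace Lv

variable {w n m X Y : ℕ} {f g : ℕ → ℕ}

theorem val (h : Lv w n X f) {i : ℕ} (hi : i < n) : dg w X i = f i := by
  rw [h i, if_pos hi]

theorem congr (h : Lv w n X f) (e : ∀ i < n, f i = g i) : Lv w n X g := by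
  intro i
  rw [h i]
  split_ifs with hi
  · exact e i hi
  · rfl

theorem ext (hw : 0 < w) (h : Lv w n X f) (h' : Lv w n Y g) (e : ∀ i < n, f i = g i) : X = Y :=
  dg_ext hw fun i => by rw [h.congr e i, h' i]

theorem le (hw : 0 < w) (h : Lv w n X f) (h' : Lv w n Y g) (e : ∀ i < n, f i ≤ g i) : X ≤ Y :=
  DG.le_of_dg hw X fun i => by
    rw [h i, h' i]
    split_ifs with hi
    · exact e i hi
    · rfl

theorem bd {B : ℕ} (h : Lv w n X f) (e : ∀ i < n, f i ≤ B) : Bd w n X B := by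
  intro i
  rw [h i]
  split_ifs with hi
  · exact ⟨e i hi, fun h' => absurd hi (by omega)⟩
  · exact ⟨Nat.zero_le _, fun _ => rfl⟩

theorem mul (k : ℕ) (h : Lv w n X f) (b : ∀ i < n, k * f i < 2 ^ w) :
    Lv w n (k * X) fun i => k * f i := by
  intro i
  rw [DG.mul' i, h i]
  · split_ifs <;> simp
  · intro j
    rw [h j]
    split_ifs with hj
    · exact b j hj
    · simp

theorem one (hw : 0 < w) (n : ℕ) : Lv w n (ones w n) fun _ => 1 := DG.ones' hw n

theorem const (hw : 0 < w) (n k : ℕ) (hk : k < 2 ^ w) : Lv w n (k * ones w n) fun _ => k :=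
  DG.cmul hw hk n

theorem zero (w n : ℕ) : Lv w n 0 fun _ => 0 := fun i => by rw [DG.dg_zero, ite_self]

theorem add (h : Lv w n X f) (h' : Lv w n Y g) (b : ∀ i < n, f i + g i < 2 ^ w) :
    Lv w n (X + Y) fun i => f i + g i := by
  intro i
  rw [DG.add' i, h i, h' i]
  · split_ifs <;> simp
  · intro j
    rw [h j, h' j]
    split_ifs with hj
    · exact b j hj
    · simp

theorem sub (hw : 0 < w) (h : Lv w n X f) (h' : Lv w n Y g) (b : ∀ i < n, g i ≤ f i) :
    Lv w n (X - Y) fun i => f i - g i := by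
  intro i
  rw [DG.sub' hw i, h i, h' i]
  · split_ifs <;> simp
  · intro j
    rw [h j, h' j]
    split_ifs with hj
    · exact b j hj
    · simp

theorem land (h : Lv w n X f) (Y : ℕ) : Lv w n (X &&& Y) fun i => f i &&& dg w Y i := by
  intro i
  rw [DG.land', h i]
  split_ifs <;> simp

theorem lsub {v : ℕ} (h : Lv (v + 1) n X f) (h' : Lv (v + 1) n Y g)
    (b : ∀ i < n, f i < 2 ^ v) (b' : ∀ i < n, g i < 2 ^ v) :
    Lv (v + 1) n (Sym.lsub v (grd (v + 1) n) X Y) fun i => f i - g i := by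
  intro i
  have hp := Nat.two_pow_pos v
  have := DG.lsub' (w := v + 1) (A := 2 ^ v - 1) (B := 2 ^ v - 1) (by omega)
    (h.bd fun j hj => by have := b j hj; omega) (h'.bd fun j hj => by have := b' j hj; omega)
    (by rw [Nat.add_sub_cancel]; omega) (by rw [Nat.add_sub_cancel]; omega) i
  refine this.trans ?_
  rw [h i, h' i]
  split_ifs <;> simp

theorem lmin {v : ℕ} (h : Lv (v + 1) n X f) (h' : Lv (v + 1) n Y g)
    (b : ∀ i < n, f i < 2 ^ v) (b' : ∀ i < n, g i < 2 ^ v) :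
    Lv (v + 1) n (Sym.lmin v (grd (v + 1) n) X Y) fun i => min (f i) (g i) :=
  (h.sub (by omega) (h.lsub h' b b') fun _ _ => Nat.sub_le _ _).congr fun i _ => by
    show f i - (f i - g i) = _
    omega

theorem lge_iff {v : ℕ} (h : Lv (v + 1) n X f) (h' : Lv (v + 1) n Y g)
    (b : ∀ i < n, f i < 2 ^ v) (b' : ∀ i < n, g i < 2 ^ v) :
    lge (grd (v + 1) n) X Y = true ↔ ∀ i < n, g i ≤ f i := by
  have hp := Nat.two_pow_pos v
  have hX : Bd (v + 1) n X (2 ^ v - 1) := h.bd fun j hj => by have := b j hj; omega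
  have hY : Bd (v + 1) n Y (2 ^ v - 1) := h'.bd fun j hj => by have := b' j hj; omega
  have hl : 2 ^ v - 1 < 2 ^ (v + 1 - 1) := by rw [Nat.add_sub_cancel]; omega
  constructor
  · intro e i hi
    have := DG.lge' (by omega) hX hY hl hl e i
    rwa [h.val hi, h'.val hi] at this
  · intro e
    refine beq_iff.2 (dg_ext (w := v + 1) (by omega) fun i => ?_)
    show dg _ ((X + _ - Y) &&& _) i = _
    rw [DG.land', DG.diff (by omega) hX hY hl hl, DG.grd' (by omega), Nat.add_sub_cancel]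
    split_ifs with hi
    · have := e i hi
      have := b i hi
      rw [h.val hi, h'.val hi, DG.top_bit (by omega), if_pos (by omega)]
    · rfl

theorem shr {k : ℕ} (h : Lv w (m + k) X f) : Lv w m (X >>> (w * k)) fun i => f (i + k) := by
  intro i
  rw [DG.shr', h (i + k)]
  by_cases hi : i < m
  · rw [if_pos hi, if_pos (by omega)]
  · rw [if_neg hi, if_neg (by omega)]

theorem cat (h : Lv w n X f) (h' : Lv w m Y g) :
    Lv w (n + m) (X + Y <<< (w * n)) fun i => if i < n then f i else g (i - n) := by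
  intro i
  have hp := Nat.two_pow_pos w
  rw [DG.add' i fun j => by
    have h1 := DG.lt' w X j
    have h2 := DG.lt' w Y (j - n)
    rw [DG.shl']
    split_ifs with hj
    · omega
    · rw [h j, if_neg hj]; omega, DG.shl', h i, h' (i - n)]
  dsimp only
  split_ifs <;> omega

theorem lt (h : Lv w n X f) (hw : 0 < w) : X < 2 ^ (w * n) := by
  have h1 : X >>> (w * n) = 0 := dg_ext hw fun i => by
    rw [DG.shr', h, if_neg (by omega), DG.dg_zero]
  rw [Nat.shiftRight_eq_div_pow, Nat.div_eq_zero_iff] at h1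
  have := Nat.two_pow_pos (w * n)
  omega

end Lv

theorem grd_eq (v n : ℕ) : grd (v + 1) n = 2 ^ v * ones (v + 1) n := by
  show ones _ n <<< v = _
  rw [Nat.shiftLeft_eq, Nat.mul_comm]

theorem ones_add {w : ℕ} (hw : 0 < w) (n m : ℕ) :
    ones w (n + m) = ones w n + ones w m <<< (w * n) :=
  (Lv.one hw (n + m)).ext hw ((Lv.one hw n).cat (Lv.one hw m)) fun _ _ => (ite_self _).symm

theorem ones_mul {w : ℕ} (hw : 0 < w) (n : ℕ) : (2 ^ w - 1) * ones w n + 1 = 2 ^ (w * n) := by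
  induction n with
  | zero =>
    have : ones w 0 = 0 := by
      show (2 ^ (w * 0) - 1) / (2 ^ w - 1) = 0
      simp
    rw [this]; simp
  | succ n ih =>
    rw [DG.ones_succ hw, Nat.mul_succ w, Nat.pow_add, ← ih]
    obtain ⟨e, he⟩ : ∃ e, 2 ^ w = e + 1 := ⟨2 ^ w - 1, by have := Nat.two_pow_pos w; omega⟩
    rw [he, Nat.add_sub_cancel]
    ring

theorem lsub_cat {v n m a b c d : ℕ} {fa fb fc fd : ℕ → ℕ} (ha : Lv (v + 1) n a fa)
    (hb : Lv (v + 1) m b fb) (hc : Lv (v + 1) n c fc) (hd : Lv (v + 1) m d fd)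
    (ba : ∀ i < n, fa i < 2 ^ v) (bb : ∀ i < m, fb i < 2 ^ v) (bc : ∀ i < n, fc i < 2 ^ v)
    (bd : ∀ i < m, fd i < 2 ^ v) :
    lsub v (grd (v + 1) (n + m)) (a + b <<< ((v + 1) * n)) (c + d <<< ((v + 1) * n)) =
      lsub v (grd (v + 1) n) a c + lsub v (grd (v + 1) m) b d <<< ((v + 1) * n) := by
  refine ((ha.cat hb).lsub (hc.cat hd) (fun i hi => ?_) fun i hi => ?_).ext (by omega)
    ((ha.lsub hc ba bc).cat (hb.lsub hd bb bd)) fun i hi => ?_
  · split_ifs with h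
    · exact ba i h
    · exact bb _ (by omega)
  · split_ifs with h
    · exact bc i h
    · exact bd _ (by omega)
  · split_ifs <;> rfl

theorem p4_mul (W c a1 a2 a3 a4 : ℕ) :
    c * p4 W a1 a2 a3 a4 = p4 W (c * a1) (c * a2) (c * a3) (c * a4) := by
  rw [p4_eq]
  show c * (a1 + a2 <<< W + (a3 + a4 <<< W) <<< (2 * W)) =
    c * a1 + (c * a2) <<< W + (c * a3 + (c * a4) <<< W) <<< (2 * W)
  simp only [Nat.shiftLeft_eq]
  ring

theorem p4_add (W a1 a2 a3 a4 b1 b2 b3 b4 : ℕ) :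
    p4 W a1 a2 a3 a4 + p4 W b1 b2 b3 b4 = p4 W (a1 + b1) (a2 + b2) (a3 + b3) (a4 + b4) := by
  rw [p4_eq]
  show (a1 + a2 <<< W + (a3 + a4 <<< W) <<< (2 * W)) + (b1 + b2 <<< W + (b3 + b4 <<< W) <<< (2 * W)) =
    a1 + b1 + (a2 + b2) <<< W + (a3 + b3 + (a4 + b4) <<< W) <<< (2 * W)
  simp only [Nat.shiftLeft_eq]
  ring

theorem p4_def (w n a1 a2 a3 a4 : ℕ) : p4 (w * n) a1 a2 a3 a4 =
    a1 + a2 <<< (w * n) + (a3 + a4 <<< (w * n)) <<< (w * (n + n)) := by
  rw [p4_eq, ← Nat.two_mul, Nat.mul_left_comm]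
  rfl

theorem p4_mod {W a1 a2 a3 a4 : ℕ} (h : a1 + a2 + a3 + a4 < 2 ^ W - 1) :
    p4 W a1 a2 a3 a4 % (2 ^ W - 1) = a1 + a2 + a3 + a4 := by
  rw [p4_eq]
  show (a1 + a2 <<< W + (a3 + a4 <<< W) <<< (2 * W)) % _ = _
  simp only [Nat.shiftLeft_eq]
  rw [Nat.two_mul, Nat.pow_add]
  obtain ⟨e, he⟩ : ∃ e, 2 ^ W = e + 1 := ⟨2 ^ W - 1, by omega⟩
  rw [he, Nat.add_sub_cancel] at h ⊢
  have : a1 + a2 * (e + 1) + (a3 + a4 * (e + 1)) * ((e + 1) * (e + 1)) =
      a1 + a2 + a3 + a4 + e * (a2 + a3 * (e + 2) + a4 * (e * e + 3 * e + 3)) := by ring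
  rw [this, Nat.add_mul_mod_self_left, Nat.mod_eq_of_lt h]

theorem grd4 (n : ℕ) : p4 (48 * n) (grd 48 n) (grd 48 n) (grd 48 n) (grd 48 n) =
    grd 48 (n + n + (n + n)) := by
  have e := grd_eq 47
  rw [e, e, ← p4_mul, p4_def, ones_add (by norm_num), ones_add (by norm_num)]

theorem eP_spec {a1 b1 a2 b2 a3 b3 a4 b4 : ℕ} (h : eP a1 b1 a2 b2 a3 b3 a4 b4 = 0) :
    (a1 = 1024 ∧ a1 ≤ a2 ∧ a2 ≤ a3 ∧ a3 ≤ a4 ∧ a4 < 16384) ∧
      (b1 ≤ b2 ∧ b2 < b3 ∧ b3 ≤ b4 ∧ b4 < 32768) ∧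
      (a2 - a1) * (b3 - b2) ≤ (a3 - a2) * (b2 - b1) ∧
      (a3 - a2) * (b4 - b3) ≤ (a4 - a3) * (b3 - b2) := by
  rw [eP_eq] at h
  have h' : (a1 ^^^ 1024) + (a1 - a2 + (a2 - a3 + (a3 - a4 + a4 >>> 14))) +
      (b1 - b2 + (b2 + 1 - b3 + (b3 - b4 + b4 >>> 15))) +
      ((a2 - a1) * (b3 - b2) - (a3 - a2) * (b2 - b1) +
        ((a3 - a2) * (b4 - b3) - (a4 - a3) * (b3 - b2))) = 0 := h
  simp only [Nat.add_eq_zero_iff, Nat.sub_eq_zero_iff_le, Nat.xor_eq_zero_iff,
    Nat.shiftRight_eq_div_pow] at h'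
  obtain ⟨⟨⟨h1, h2, h3, h4, h5⟩, h6, h7, h8, h9⟩, h10⟩ := h'
  exact ⟨⟨h1, h2, h3, h4, by omega⟩, ⟨h6, h7, h8, by omega⟩, h10⟩

theorem chain {p q r s u y : ℕ} (h : p * s ≤ r * q) (hs : 0 < s) (h1 : r * u ≤ s * y) :
    p * u ≤ q * y := by
  refine Nat.le_of_mul_le_mul_left ?_ hs
  calc s * (p * u) = p * s * u := by ring
    _ ≤ r * q * u := Nat.mul_le_mul_right _ h
    _ = q * (r * u) := by ring
    _ ≤ q * (s * y) := Nat.mul_le_mul_left _ h1
    _ = s * (q * y) := by ring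

theorem relu {c K L M A1 A2 A3 B0 B1 B2 B3 : ℕ} (hT : B0 + B1 + B2 + B3 ≤ L) (hM : M = c + K + L)
    (g1 : A2 ≤ B2 → A1 ≤ B1) (g2 : A3 < B3 → A2 ≤ B2) :
    M - (B0 + (B1 - A1) + (B2 - A2) + (B3 - A3)) = c + min
      (min (K + L - B0) (K + A1 + L - (B0 + B1)))
      (min (K + A1 + A2 + L - (B0 + B1 + B2)) (K + A1 + A2 + A3 + L - (B0 + B1 + B2 + B3))) := by
  obtain ⟨T, rfl⟩ := Nat.exists_eq_add_of_le hT
  have e1 : K + (B0 + B1 + B2 + B3 + T) - B0 = K + T + B1 + B2 + B3 := by omega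
  have e2 : K + A1 + (B0 + B1 + B2 + B3 + T) - (B0 + B1) = K + A1 + T + B2 + B3 := by omega
  have e3 : K + A1 + A2 + (B0 + B1 + B2 + B3 + T) - (B0 + B1 + B2) = K + A1 + A2 + T + B3 := by
    omega
  have e4 : K + A1 + A2 + A3 + (B0 + B1 + B2 + B3 + T) - (B0 + B1 + B2 + B3) =
      K + A1 + A2 + A3 + T := by omega
  rw [e1, e2, e3, e4, hM]
  refine Nat.sub_eq_of_eq_add ?_
  rcases Nat.lt_or_ge A3 B3 with h | h
  · have h2 := g2 h
    have h1 := g1 h2
    omega
  · rw [Nat.sub_eq_zero_of_le h]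
    omega

theorem tz_lane {b1 d1 d2 d3 e1 e2 e3 x y : ℕ} (hx : x ≤ 4096) (hy : y ≤ 32767)
    (hb : b1 + e1 + e2 + e3 ≤ 32767) (h2 : 0 < e2) (c1 : d1 * e2 ≤ d2 * e1)
    (c2 : d2 * e3 ≤ d3 * e2) :
    y * b1 + (x * (4 * d1) + y * e1 - 4096 * (4 * d1)) + (x * (4 * d2) + y * e2 - 4096 * (4 * d2)) +
      (x * (4 * d3) + y * e3 - 4096 * (4 * d3)) ≤ 1090519040 ∧
    1090519040 - (y * b1 + (x * (4 * d1) + y * e1 - 4096 * (4 * d1)) +
      (x * (4 * d2) + y * e2 - 4096 * (4 * d2)) + (x * (4 * d3) + y * e3 - 4096 * (4 * d3))) =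
    1024 * (4 * x) + min
      (min (1024 * (16384 - 4 * x) + 1073741824 - b1 * y)
        ((1024 + d1) * (16384 - 4 * x) + 1073741824 - (b1 + e1) * y))
      (min ((1024 + d1 + d2) * (16384 - 4 * x) + 1073741824 - (b1 + e1 + e2) * y)
        ((1024 + d1 + d2 + d3) * (16384 - 4 * x) + 1073741824 - (b1 + e1 + e2 + e3) * y)) := by
  obtain ⟨u, hu⟩ : ∃ u, 4096 = x + u := ⟨4096 - x, by omega⟩
  have e0 : 16384 - 4 * x = 4 * u := by omega
  have k : ∀ d, 4096 * (4 * d) = x * (4 * d) + d * (4 * u) := fun d => by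
    rw [show 4096 * (4 * d) = (x + u) * (4 * d) from congrArg (· * (4 * d)) hu]; ring
  have hm : (b1 + e1 + e2 + e3) * y ≤ 32767 * 32767 := Nat.mul_le_mul hb hy
  have g1 := chain (u := 4 * u) (y := y) c1 h2
  have g2 : d3 * (4 * u) < e3 * y → d2 * (4 * u) ≤ e2 * y := fun h =>
    chain c2 (Nat.pos_of_ne_zero fun h0 => by rw [h0] at h; omega) h.le
  rw [e0, k, k, k, Nat.mul_comm y, Nat.mul_comm y, Nat.mul_comm y, Nat.mul_comm y]
  rw [Nat.add_mul, Nat.add_mul, Nat.add_mul] at hm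
  rw [Nat.add_sub_add_left, Nat.add_sub_add_left, Nat.add_sub_add_left, Nat.add_mul _ d3,
    Nat.add_mul _ d2, Nat.add_mul _ d1, Nat.add_mul _ e3, Nat.add_mul _ e2, Nat.add_mul _ e1]
  exact ⟨by omega, relu (by omega) (by omega) g1 g2⟩

theorem tz_eq {a1 b1 a2 b2 a3 b3 a4 b4 n Z X : ℕ} (h : eP a1 b1 a2 b2 a3 b3 a4 b4 = 0) (hn : 0 < n)
    (hZ : Bd 48 n Z 32767) (hX : Bd 48 n X 4096) {O G W : ℕ} (hO : O = ones 48 n)
    (hG : G = grd 48 n) (hW : W = 48 * n) :
    tzK O G (Nat.sub (Nat.pow 2 W) 1) (p4 W G G G G)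
      (Nat.sub (p4 W G G G G) (Nat.mul (Nat.mul 4096 O) (p4 W 0 (Nat.mul 4 (Nat.sub a2 a1))
        (Nat.mul 4 (Nat.sub a3 a2)) (Nat.mul 4 (Nat.sub a4 a3)))))
      (p4 W 0 (Nat.mul 4 (Nat.sub a2 a1)) (Nat.mul 4 (Nat.sub a3 a2)) (Nat.mul 4 (Nat.sub a4 a3)))
      (p4 W b1 (Nat.sub b2 b1) (Nat.sub b3 b2) (Nat.sub b4 b3)) Z X =
      tzF ⟨a1, b1, a2, b2, a3, b3, a4, b4⟩ O G Z X := by
  obtain ⟨⟨rfl, p1, p2, p3, p4'⟩, ⟨q1, q2, q3, q4⟩, c1, c2⟩ := eP_spec h
  obtain ⟨d1, rfl⟩ := Nat.exists_eq_add_of_le p1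
  obtain ⟨d2, rfl⟩ := Nat.exists_eq_add_of_le p2
  obtain ⟨d3, rfl⟩ := Nat.exists_eq_add_of_le p3
  obtain ⟨e1, rfl⟩ := Nat.exists_eq_add_of_le q1
  obtain ⟨e2, rfl⟩ := Nat.exists_eq_add_of_le q2.le
  obtain ⟨e3, rfl⟩ := Nat.exists_eq_add_of_le q3
  simp only [Nat.add_sub_cancel_left] at c1 c2
  have w0 : 0 < 48 := by norm_num
  have lZ := of_bd hZ
  have lX := of_bd hX
  have bZ := fun i => (hZ i).1
  have bX := fun i => (hX i).1
  have lc := fun k hk => Lv.const w0 n k hk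
  rw [← hO] at lc
  have l1 := lZ.add (lX.mul 2 fun i _ => by have := bX i; omega) fun i _ => by
    have := bX i; have := bZ i; omega
  have lY := Lv.lsub (v := 47) l1 (lc 8192 (by omega))
    (fun i _ => by have := bX i; have := bZ i; omega) fun i _ => by omega
  have hGO : G = 2 ^ 47 * O := by rw [hG, hO]; exact grd_eq 47 n
  have eY : cut G 47 (Nat.add Z (Nat.add (Nat.mul 2 X) (Nat.sub G (Nat.mul 8192 O)))) =
      lsub 47 (grd 48 n) (Z + 2 * X) (8192 * O) := by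
    rw [cut_eq, ← hG]
    show lcut 47 G (Z + (2 * X + (G - 8192 * O))) = lcut 47 G (Z + 2 * X + G - 8192 * O)
    congr 1
    omega
  rw [FastP.tz_eq]
  unfold tzK Leaf.tz tev tln
  simp only [Nat.add_eq, Nat.sub_eq, Nat.mul_eq, Nat.pow_eq, Nat.add_sub_cancel_left] at eY ⊢
  rw [eY, hG]
  generalize lsub 47 (grd 48 n) (Z + 2 * X) (8192 * O) = Y at lY
  have bY : ∀ i, dg 48 Z i + 2 * dg 48 X i - 8192 ≤ 32767 := fun i => by
    have := bX i; have := bZ i; omega
  have blk : ∀ {d e : ℕ}, d < 16384 → e < 32768 →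
      Lv 48 n (X * (4 * d) + Y * e) (fun i => dg 48 X i * (4 * d) +
        (dg 48 Z i + 2 * dg 48 X i - 8192) * e) ∧
      (∀ i < n, dg 48 X i * (4 * d) + (dg 48 Z i + 2 * dg 48 X i - 8192) * e < 2 ^ 31) ∧
      Lv 48 n (4096 * O * (4 * d)) (fun _ => 4096 * (4 * d)) ∧
      ∀ i < n, 4096 * (4 * d) < 2 ^ 47 := by
    intro d e hd he
    have k1 : ∀ i, 4 * d * dg 48 X i ≤ 65536 * 4096 := fun i => Nat.mul_le_mul (by omega) (bX i)
    have k2 : ∀ i, e * (dg 48 Z i + 2 * dg 48 X i - 8192) ≤ 32767 * 32767 := fun i =>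
      Nat.mul_le_mul (by omega) (bY i)
    refine ⟨?_, fun i _ => ?_, ?_, fun i _ => by omega⟩
    · rw [Nat.mul_comm X, Nat.mul_comm Y]
      refine ((lX.mul _ fun i _ => by have := k1 i; omega).add
        (Lv.mul _ lY fun i _ => by have := k2 i; omega) fun i _ => by
          have := k1 i; have := k2 i; omega).congr fun i _ => ?_
      rw [Nat.mul_comm (dg 48 X i), Nat.mul_comm _ e]
    · have := k1 i
      have := k2 i
      rw [Nat.mul_comm (dg 48 X i), Nat.mul_comm _ e]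
      omega
    · rw [Nat.mul_right_comm]
      exact lc _ (by omega)
  obtain ⟨x0, y0, z0, t0⟩ := blk (d := 0) (e := b1) (by omega) (by omega)
  obtain ⟨x1, y1, z1, t1⟩ := blk (d := d1) (e := e1) (by omega) (by omega)
  obtain ⟨x2, y2, z2, t2⟩ := blk (d := d2) (e := e2) (by omega) (by omega)
  obtain ⟨x3, y3, z3, t3⟩ := blk (d := d3) (e := e3) (by omega) (by omega)
  have up : ∀ {f : ℕ → ℕ}, (∀ i < n, f i < 2 ^ 31) → ∀ i < n, f i < 2 ^ 47 := fun h i hi => by
    have := h i hi; omega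
  have two : ∀ {f g : ℕ → ℕ}, (∀ i < n, f i < 2 ^ 47) → (∀ i < n, g i < 2 ^ 47) →
      ∀ i < n + n, (if i < n then f i else g (i - n)) < 2 ^ 47 := fun h h' i hi => by
    split_ifs with hj
    · exact h i hj
    · exact h' _ (by omega)
  have eD : cut (p4 W (grd 48 n) (grd 48 n) (grd 48 n) (grd 48 n)) 47
      (p4 W (grd 48 n) (grd 48 n) (grd 48 n) (grd 48 n) -
        4096 * O * p4 W 0 (4 * d1) (4 * d2) (4 * d3) + X * p4 W 0 (4 * d1) (4 * d2) (4 * d3) +
        Y * p4 W b1 e1 e2 e3) = p4 W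
      (lsub 47 (grd 48 n) (X * (4 * 0) + Y * b1) (4096 * O * (4 * 0)))
      (lsub 47 (grd 48 n) (X * (4 * d1) + Y * e1) (4096 * O * (4 * d1)))
      (lsub 47 (grd 48 n) (X * (4 * d2) + Y * e2) (4096 * O * (4 * d2)))
      (lsub 47 (grd 48 n) (X * (4 * d3) + Y * e3) (4096 * O * (4 * d3))) := by
    have hle : 4096 * O * p4 W 0 (4 * d1) (4 * d2) (4 * d3) ≤
        p4 W (grd 48 n) (grd 48 n) (grd 48 n) (grd 48 n) := by
      have k : ∀ d, d < 16384 → ∃ c, grd 48 n = 4096 * O * (4 * d) + c := fun d hd =>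
        Nat.exists_eq_add_of_le (by
          rw [← hG, hGO, Nat.mul_right_comm]; exact Nat.mul_le_mul_right _ (by omega))
      obtain ⟨u1, v1⟩ := k d1 (by omega)
      obtain ⟨u2, v2⟩ := k d2 (by omega)
      obtain ⟨u3, v3⟩ := k d3 (by omega)
      have := p4_add W (4096 * O * 0) (4096 * O * (4 * d1)) (4096 * O * (4 * d2))
        (4096 * O * (4 * d3)) (grd 48 n) u1 u2 u3
      rw [← v1, ← v2, ← v3, ← p4_mul, Nat.mul_zero, Nat.zero_add] at this
      omega
    rw [hW, p4_def 48 n (lsub _ _ _ _),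
      ← lsub_cat (v := 47) x0 x1 z0 z1 (up y0) (up y1) t0 t1,
      ← lsub_cat (v := 47) x2 x3 z2 z3 (up y2) (up y3) t2 t3,
      ← lsub_cat (v := 47) (x0.cat x1) (x2.cat x3) (z0.cat z1) (z2.cat z3) (two (up y0) (up y1))
        (two (up y2) (up y3)) (two t0 t1) (two t2 t3), ← p4_def, ← p4_def, ← p4_add,
      ← p4_mul _ X, ← p4_mul _ Y, ← p4_mul _ (4096 * O), ← grd4, cut_eq, ← hW]
    unfold lsub
    congr 1
    simp only [Nat.add_eq, Nat.sub_eq, Nat.mul_zero]
    omega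
  have r0 := Lv.lsub (v := 47) x0 z0 (up y0) t0
  have r1 := Lv.lsub (v := 47) x1 z1 (up y1) t1
  have r2 := Lv.lsub (v := 47) x2 z2 (up y2) t2
  have r3 := Lv.lsub (v := 47) x3 z3 (up y3) t3
  have s1 := r0.add r1 fun i hi => by have := y0 i hi; have := y1 i hi; omega
  have s2 := s1.add r2 fun i hi => by have := y0 i hi; have := y1 i hi; have := y2 i hi; omega
  have s3 := s2.add r3 fun i hi => by
    have := y0 i hi; have := y1 i hi; have := y2 i hi; have := y3 i hi; omega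
  have hlt := s3.le w0 (lc (2 ^ 34) (by omega)) fun i hi => by
    have := y0 i hi; have := y1 i hi; have := y2 i hi; have := y3 i hi; omega
  have hO1 : 0 < O := by
    rw [hO, show n = n - 1 + 1 by omega, DG.ones_succ w0]; omega
  have hM := ones_mul w0 n
  rw [← hO, ← hW] at hM
  rw [eD]
  refine (congrArg _ (p4_mod (lt_of_le_of_lt hlt (by omega)))).trans ?_
  have lA := lX.mul 4 fun i _ => by have := bX i; omega
  have lU := (lc 16384 (by omega)).sub w0 lA fun i _ => by have := bX i; omega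
  have ln : ∀ {a b : ℕ}, a < 16384 → b < 32768 →
      Lv 48 n (a * (16384 * O - 4 * X) + 1073741824 * O - b * Y) (fun i =>
        a * (16384 - 4 * dg 48 X i) + 1073741824 - b * (dg 48 Z i + 2 * dg 48 X i - 8192)) ∧
      ∀ i < n, a * (16384 - 4 * dg 48 X i) + 1073741824 -
        b * (dg 48 Z i + 2 * dg 48 X i - 8192) < 2 ^ 46 := by
    intro a b ha hb
    have k1 : ∀ i, a * (16384 - 4 * dg 48 X i) ≤ 16384 * 16384 := fun i =>
      Nat.mul_le_mul (by omega) (by omega)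
    have k2 : ∀ i, b * (dg 48 Z i + 2 * dg 48 X i - 8192) ≤ 32767 * 32767 := fun i =>
      Nat.mul_le_mul (by omega) (bY i)
    refine ⟨((lU.mul a fun i _ => by have := k1 i; omega).add (lc 1073741824 (by omega))
      fun i _ => by have := k1 i; omega).sub w0 (Lv.mul b lY fun i _ => by have := k2 i; omega)
      fun i _ => by have := k2 i; omega, fun i _ => by have := k1 i; omega⟩
  obtain ⟨m1, n1⟩ := ln (a := 1024) (b := b1) (by omega) (by omega)
  obtain ⟨m2, n2⟩ := ln (a := 1024 + d1) (b := b1 + e1) (by omega) (by omega)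
  obtain ⟨m3, n3⟩ := ln (a := 1024 + d1 + d2) (b := b1 + e1 + e2) (by omega) (by omega)
  obtain ⟨m4, n4⟩ := ln (a := 1024 + d1 + d2 + d3) (b := b1 + e1 + e2 + e3) (by omega) (by omega)
  have up' : ∀ {f : ℕ → ℕ}, (∀ i < n, f i < 2 ^ 46) → ∀ i < n, f i < 2 ^ 47 := fun h i hi => by
    have := h i hi; omega
  have mn : ∀ {f g : ℕ → ℕ}, (∀ i < n, f i < 2 ^ 46) → ∀ i < n, min (f i) (g i) < 2 ^ 46 :=
    fun h i hi => lt_of_le_of_lt (min_le_left _ _) (h i hi)
  have m5 := Lv.lmin (v := 47) (Lv.lmin (v := 47) m1 m2 (up' n1) (up' n2))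
    (Lv.lmin (v := 47) m3 m4 (up' n3) (up' n4)) (up' (mn n1)) (up' (mn n3))
  have hl := fun i => tz_lane (bX i) (bY i) (show b1 + e1 + e2 + e3 ≤ 32767 by omega)
    (by omega) c1 c2
  refine ((lc 1090519040 (by omega)).sub w0 s3 fun i hi => ?_).ext w0
    ((lA.mul 1024 fun i _ => by have := bX i; omega).add m5 fun i hi => ?_) fun i _ => ?_
  · have := (hl i).1
    simp only [Nat.mul_zero, Nat.zero_add, Nat.sub_zero]
    exact this
  · refine lt_of_le_of_lt (Nat.add_le_add_left ((min_le_left _ _).trans (min_le_left _ _)) _) ?_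
    have := n1 i hi
    have := bX i
    omega
  · rw [← (hl i).2]
    simp only [Nat.mul_zero, Nat.zero_add, Nat.sub_zero]

end Fast2

end Pool.Agent.MP_34f9b1_co.Sym

/-! The table test of the second fast checker. -/

namespace Pool.Agent.MP_34f9b1_co.Sym

namespace Fast2

open Fast (tabCF)

/-- The vector `X` has the lanes `f j` on `p` and zero lanes elsewhere. -/
def Mv (p : ℕ → Prop) [DecidablePred p] (X : ℕ) (f : ℕ → ℕ) : Prop :=
  ∀ j, dg 32 X j = if p j then f j else 0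

section

variable {p : ℕ → Prop} [DecidablePred p] {X Y : ℕ} {f g : ℕ → ℕ}

theorem Mv.congr (h : Mv p X f) (e : ∀ j, p j → f j = g j) : Mv p X g := by
  intro j
  rw [h j]
  split_ifs with hj
  · exact e j hj
  · rfl

theorem Mv.add (h : Mv p X f) (h' : Mv p Y g) (b : ∀ j, p j → f j + g j < 2 ^ 32) :
    Mv p (X + Y) fun j => f j + g j := by
  intro i
  rw [DG.add' i, h i, h' i]
  · split_ifs <;> simp
  · intro j
    rw [h j, h' j]
    split_ifs with hj
    · exact b j hj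
    · omega

theorem Mv.mul (k : ℕ) (h : Mv p X f) (b : ∀ j, p j → k * f j < 2 ^ 32) :
    Mv p (k * X) fun j => k * f j := by
  intro i
  rw [DG.mul' i, h i]
  · split_ifs <;> simp
  · intro j
    rw [h j]
    split_ifs with hj
    · exact b j hj
    · omega

theorem Mv.test {G : ℕ} (hG : Mv p G fun _ => 2 ^ 31) (h : Mv p X f) (h' : Mv p Y g)
    (b : ∀ j, p j → f j < 2 ^ 31) (b' : ∀ j, p j → g j < 2 ^ 31)
    (e : tst G (X + G - Y) = true) (j : ℕ) (hj : p j) : g j ≤ f j := by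
  have h1 : ∀ i, dg 32 (X + G) i = if p i then f i + 2 ^ 31 else 0 :=
    h.add hG fun i hi => by have := b i hi; omega
  have hG' : ∀ i, dg 32 G i = if p i then 2 ^ 31 else 0 := hG
  have h2 : G &&& (X + G - Y) = G := beq_iff.1 e
  have h3 := congrArg (fun Z => dg 32 Z j) h2
  simp only [DG.land'] at h3
  have := b j hj
  have := b' j hj
  rw [DG.sub' (by omega) j fun i => by
    rw [h1 i, h' i]
    split_ifs with hi
    · have := b' i hi; omega
    · rfl, h1, h', hG', if_pos hj, if_pos hj, if_pos hj, Nat.and_comm,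
    DG.top_bit (by omega)] at h3
  split_ifs at h3
  omega

theorem Mv.mask (h : Mv p X fun _ => 2 ^ 32 - 1) (c : ℕ) : Mv p (Nat.land c X) (dg 32 c) := by
  intro j
  show dg 32 (c &&& X) j = _
  rw [DG.land', h]
  split_ifs
  · rw [Nat.and_two_pow_sub_one_eq_mod, Nat.mod_eq_of_lt (DG.lt' _ _ _)]
  · exact Nat.and_zero _

end

theorem cR_low : ∀ nr < 8, Nat.land cR (Nat.sub (Nat.pow 2 (Nat.succ (Nat.mul 8256 nr))) 1) =
    ones (32 * 258) (nr + 1) := by decide +kernel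

theorem consts : ∀ d < 8, ∀ c < 258, dg 32 cM (258 * d + c) = 65535 ∧
    dg 32 cG (258 * d + c) = 2 ^ 31 ∧ dg 32 cD (258 * d + c) = 4 * d ∧
    dg 32 cO (258 * d + c) = 1 - c % 2 ∧ (c < 64 → dg 32 cI (258 * d + c) = 2 * (c / 2)) := by
  decide +kernel

theorem win {m c : ℕ} (hm : 0 < m) (hc : c ≤ m) (n j : ℕ) :
    dg 32 ((2 ^ 32 - 1) * ones 32 c * ones (32 * m) n) j =
      if j / m < n ∧ j % m < c then 2 ^ 32 - 1 else 0 := by
  have l := Lv.const (w := 32) (by omega) c (2 ^ 32 - 1) (by omega)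
  have hlt := lt_of_lt_of_le (l.lt (by omega))
    (Nat.pow_le_pow_right (by omega) (Nat.mul_le_mul_left 32 hc))
  conv_lhs => rw [← Nat.div_add_mod j m]
  rw [DG.split' 32 m _ _ _ (Nat.mod_lt _ hm), DG.cmul (by omega) hlt]
  by_cases h1 : j / m < n
  · simp only [l (j % m), h1, true_and, if_true]
  · simp only [h1, false_and, if_false, DG.dg_zero]

theorem wm_mv {ni nr : ℕ} (hi : ni < 32) (hr : nr < 8) :
    Mv (fun j => j / 258 ≤ nr ∧ j % 258 < 2 * (ni + 1)) (wm ni nr) fun _ => 2 ^ 32 - 1 := by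
  intro j
  rw [wm_eq]
  unfold wmR
  rw [cR_low nr hr]
  have e : Nat.sub (Nat.pow 2 (Nat.mul 64 (Nat.succ ni))) 1 =
      (2 ^ 32 - 1) * ones 32 (2 * (ni + 1)) := by
    have := ones_mul (w := 32) (by omega) (2 * (ni + 1))
    rw [Nat.sub_eq, Nat.pow_eq, Nat.mul_eq, Nat.succ_eq_add_one, show 64 * (ni + 1) = 32 * (2 * (ni + 1)) by omega, ← this, Nat.add_sub_cancel]
  rw [e]
  refine (win (by omega) (by omega) _ j).trans ?_
  simp only [Nat.lt_succ_iff]

theorem fld_dg {w a : ℕ} (h : a + 16 ≤ w) (T s L : ℕ) :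
    dg w (T >>> s) L / 2 ^ a % 2 ^ 16 = T / 2 ^ (s + w * L + a) % 2 ^ 16 := by
  apply Nat.eq_of_testBit_eq
  intro j
  rw [Nat.testBit_mod_two_pow, Nat.testBit_mod_two_pow, Nat.testBit_div_two_pow,
    Nat.testBit_div_two_pow, DG.tb, Nat.testBit_shiftRight]
  by_cases hj : j < 16
  · have h1 : j + a < w := by omega
    have h2 : s + (w * L + (j + a)) = j + (s + w * L + a) := by omega
    simp only [hj, h1, h2, decide_true, Bool.true_and]
  · simp only [hj, decide_false, Bool.false_and]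

theorem tab_lanes {T s ni nr κ la m0 m1 : ℕ} (hi : ni < 32) (hr : nr < 8) (hκ : κ ≤ 1023)
    (hl : la ≤ 1023) (h0 : m0 ≤ 65535) (h1 : m1 ≤ 65535)
    (h : tst (Nat.land cG (wm ni nr)) (Nat.sub (Nat.add (Nat.add (Nat.land (Nat.land cM (wm ni nr))
      (Nat.shiftRight T s)) (Nat.land cG (wm ni nr))) (Nat.mul κ (Nat.land cD (wm ni nr))))
      (Nat.add (Nat.mul la (Nat.land cI (wm ni nr)))
        (Nat.mul (Nat.add m0 (Nat.shiftLeft m1 32)) (Nat.land cO (wm ni nr))))) = true)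
    {d i : ℕ} (hd : d ≤ nr) (hj : i ≤ ni) :
    m0 + 2 * la * i ≤ T / 2 ^ (s + 8256 * d + 64 * i) % 2 ^ 16 + 4 * κ * d ∧
      m1 + 2 * la * i ≤ T / 2 ^ (s + 8256 * d + 64 * i + 32) % 2 ^ 16 + 4 * κ * d := by
  have W := wm_mv hi hr
  have K : ∀ j, j / 258 ≤ nr ∧ j % 258 < 2 * (ni + 1) → _ := fun j hj => by
    have := consts (j / 258) (by omega) (j % 258) (by omega)
    rw [Nat.div_add_mod] at this
    exact this
  have mM := (W.mask cM).congr (g := fun _ => 65535) fun j hj => (K j hj).1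
  have mG := (W.mask cG).congr (g := fun _ => 2 ^ 31) fun j hj => (K j hj).2.1
  have mD := (W.mask cD).congr (g := fun j => 4 * (j / 258)) fun j hj => (K j hj).2.2.1
  have mO := (W.mask cO).congr (g := fun j => 1 - j % 258 % 2) fun j hj => (K j hj).2.2.2.1
  have mI := (W.mask cI).congr (g := fun j => 2 * (j % 258 / 2)) fun j hj =>
    (K j hj).2.2.2.2 (by omega)
  generalize Nat.land cM (wm ni nr) = TM at h mM
  generalize Nat.land cG (wm ni nr) = TG at h mG
  generalize Nat.land cD (wm ni nr) = TD at h mD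
  generalize Nat.land cO (wm ni nr) = TO at h mO
  generalize Nat.land cI (wm ni nr) = TI at h mI
  have mS : Mv (fun j => j / 258 ≤ nr ∧ j % 258 < 2 * (ni + 1)) (TO <<< (32 * 1))
      fun j => j % 258 % 2 := by
    intro j
    rw [DG.shl', mO]
    dsimp only
    split_ifs <;> omega
  have mT : Mv (fun j => j / 258 ≤ nr ∧ j % 258 < 2 * (ni + 1)) (TM &&& T >>> s)
      fun j => T / 2 ^ (s + 32 * j + 0) % 2 ^ 16 := by
    intro j
    rw [DG.land', mM]
    split_ifs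
    · dsimp only
      rw [← fld_dg (by omega), Nat.pow_zero, Nat.div_one, Nat.and_comm]
      exact Nat.and_two_pow_sub_one_eq_mod _ 16
    · exact Nat.zero_and _
  have b1 : ∀ j, j / 258 ≤ nr → κ * (4 * (j / 258)) ≤ 1023 * 28 := fun j hj =>
    Nat.mul_le_mul hκ (by omega)
  have b2 : ∀ j, la * (2 * (j % 258 / 2)) ≤ 1023 * 258 := fun j => Nat.mul_le_mul hl (by omega)
  have b3 : ∀ j, m0 * (1 - j % 258 % 2) ≤ 65535 * 1 := fun j => Nat.mul_le_mul h0 (by omega)
  have b4 : ∀ j, m1 * (j % 258 % 2) ≤ 65535 * 1 := fun j => Nat.mul_le_mul h1 (by omega)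
  have X := mT.add (mD.mul κ fun j hj => by have := b1 j hj.1; omega) fun j hj => by
    have := b1 j hj.1; omega
  have Y := (mI.mul la fun j _ => by have := b2 j; omega).add
    ((mO.mul m0 fun j _ => by have := b3 j; omega).add (mS.mul m1 fun j _ => by have := b4 j; omega)
      fun j _ => by have := b3 j; have := b4 j; omega) fun j _ => by
    have := b2 j; have := b3 j; have := b4 j; omega
  have e : tst TG ((TM &&& T >>> s) + κ * TD + TG -
      (la * TI + (m0 * TO + m1 * TO <<< (32 * 1)))) = true := by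
    have e1 : m0 * TO + m1 * TO <<< (32 * 1) = (m0 + m1 <<< 32) * TO := by
      rw [Nat.shiftLeft_eq, Nat.shiftLeft_eq]
      ring
    rw [e1, Nat.add_right_comm]
    exact h
  have R := mG.test X Y (fun j hj => by have := b1 j hj.1; omega)
    (fun j _ => by have := b2 j; have := b3 j; have := b4 j; omega) e
  have r0 := R (258 * d + 2 * i) (by omega)
  have r1 := R (258 * d + 2 * i + 1) (by omega)
  rw [show (258 * d + 2 * i) % 258 = 2 * i by omega, show (258 * d + 2 * i) / 258 = d by omega,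
    show 2 * i / 2 = i by omega, show 2 * i % 2 = 0 by omega,
    show s + 32 * (258 * d + 2 * i) + 0 = s + 8256 * d + 64 * i by omega] at r0
  rw [show (258 * d + 2 * i + 1) % 258 = 2 * i + 1 by omega,
    show (258 * d + 2 * i + 1) / 258 = d by omega, show (2 * i + 1) / 2 = i by omega,
    show (2 * i + 1) % 2 = 1 by omega,
    show s + 32 * (258 * d + 2 * i + 1) + 0 = s + 8256 * d + 64 * i + 32 by omega] at r1
  rw [show 2 * la * i = la * (2 * i) by ring, show 4 * κ * d = κ * (4 * d) by ring]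
  omega

theorem lv_ramp (n : ℕ) (hn : n ≤ 2 ^ 64) : Lv 64 n (ramp 64 n) fun i => i := by
  induction n with
  | zero => exact (Lv.zero 64 0).congr fun _ h => absurd h (by omega)
  | succ n ih =>
    have h1 := Lv.const (w := 64) (by omega) 1 n (by omega)
    rw [show ones 64 1 = 1 by decide, Nat.mul_one] at h1
    refine ((ih (by omega)).cat h1).congr fun i hi => ?_
    split_ifs <;> omega

theorem and_out {u : ℕ} (hu : u < 2 ^ 64) :
    u &&& 18446462598732906495 = u % 65536 + 281474976710656 * (u / 281474976710656) := by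
  have k := fun c => DG.land' 16 u 18446462598732906495 c
  have k0 := k 0
  have k1 := k 1
  have k2 := k 2
  have k3 := k 3
  rw [show dg 16 18446462598732906495 0 = 2 ^ 16 - 1 by decide,
    Nat.and_two_pow_sub_one_eq_mod] at k0
  rw [show dg 16 18446462598732906495 1 = 0 by decide, Nat.and_zero] at k1
  rw [show dg 16 18446462598732906495 2 = 0 by decide, Nat.and_zero] at k2
  rw [show dg 16 18446462598732906495 3 = 2 ^ 16 - 1 by decide,
    Nat.and_two_pow_sub_one_eq_mod] at k3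
  have hle : u &&& 18446462598732906495 ≤ u := Nat.and_le_left
  simp only [DG.eq'] at k0 k1 k2 k3
  generalize u &&& 18446462598732906495 = a at *
  omega

theorem sub16 (n y : ℕ) {s : ℕ} (h : s + 16 ≤ 64) :
    Lv 64 n (y >>> s &&& 65535 * ones 64 n) fun i => dg 64 y i / 2 ^ s % 2 ^ 16 :=
  fun i => DG.sublane' (v := 16) n y i h (by omega)

theorem four {a b c d : ℕ} (ha : a < 65536) (hb : b < 65536) (hc : c < 65536) (hd : d < 65536) :
    (a + 281474976710656 * d + 65536 * b + 4294967296 * c) / 2 ^ 0 % 2 ^ 16 = a ∧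
    (a + 281474976710656 * d + 65536 * b + 4294967296 * c) / 2 ^ 16 % 2 ^ 16 = b ∧
    (a + 281474976710656 * d + 65536 * b + 4294967296 * c) / 2 ^ 32 % 2 ^ 16 = c ∧
    (a + 281474976710656 * d + 65536 * b + 4294967296 * c) / 2 ^ 48 % 2 ^ 16 = d :=
  ⟨by omega, by omega, by omega, by omega⟩

theorem tc_fld (tb : ℕ → ℕ) (ρ r : ℕ) {L b e : ℕ} (hL : L < 129) (hb : b < 2) (he : e < 2) :
    dg 64 (tcOf tb ρ r) L / 2 ^ (32 * b + 16 * e) % 2 ^ 16 =
      tb ρ / 2 ^ (8256 * (r - 1) + 64 * L + (16 * b + 32 * e)) % 2 ^ 16 := by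
  rw [← fld_dg (w := 64) (by omega)]
  unfold tcOf
  simp only [Nat.add_eq, Nat.mul_eq, Nat.sub_eq, Nat.shiftRight_eq, Nat.land_eq]
  generalize tb ρ >>> (8256 * (r - 1)) = y
  have l1 : Lv 64 129 (y &&& 18446462598732906495 * ones 64 129) fun i =>
      dg 64 y i % 65536 + 281474976710656 * (dg 64 y i / 281474976710656) := by
    rw [Nat.and_comm]
    refine ((Lv.const (by omega) 129 _ (by omega)).land y).congr fun i _ => ?_
    rw [Nat.and_comm, and_out (DG.lt' _ _ _)]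
  have l2 : Lv 64 129 (y >>> 32 &&& 65535 * ones 64 129) fun i => dg 64 y i / 2 ^ 32 % 2 ^ 16 :=
    sub16 129 y (by omega)
  have l3 : Lv 64 129 (y >>> 16 &&& 65535 * ones 64 129) fun i => dg 64 y i / 2 ^ 16 % 2 ^ 16 :=
    sub16 129 y (by omega)
  have hu := DG.lt' 64 y
  have l4 := (l1.add (l2.mul 65536 fun i _ => by omega) fun i _ => by have := hu i; omega).add
    (l3.mul 4294967296 fun i _ => by omega) fun i _ => by have := hu i; omega
  rw [l4.val hL]
  have := hu L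
  generalize dg 64 y L = u at this
  have k := four (a := u % 65536) (b := u / 2 ^ 32 % 2 ^ 16) (c := u / 2 ^ 16 % 2 ^ 16)
    (d := u / 281474976710656) (by omega) (by omega) (by omega) (by omega)
  obtain rfl | rfl : b = 0 ∨ b = 1 := by omega
  all_goals obtain rfl | rfl : e = 0 ∨ e = 1 := by omega
  · exact k.1.trans (by omega)
  · exact k.2.1
  · exact k.2.2.1
  · exact k.2.2.2.trans (by omega)

theorem tab_imp (tb : ℕ → ℕ) {ρ b i0 r0 ni κ la m0 m1 : ℕ} (hb : b < 2) (hi : ni < 32)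
    (hs : i0 + ni ≤ 128) (h1 : 1 ≤ r0) (hκ : κ ≤ 1023) (hl : la ≤ 1023) (h0 : m0 ≤ 65535)
    (h1' : m1 ≤ 65535) (c : ℕ) (hc : c ≤ 8) (h : ∀ d < c, ∀ i ≤ ni,
      m0 + 2 * la * i ≤ tb ρ / 2 ^ (8256 * (r0 - 1) + 64 * i0 + 16 * b + 8256 * d + 64 * i) %
        2 ^ 16 + 4 * κ * d ∧ m1 + 2 * la * i ≤
      tb ρ / 2 ^ (8256 * (r0 - 1) + 64 * i0 + 16 * b + 8256 * d + 64 * i + 32) % 2 ^ 16 +
        4 * κ * d) :
    tabCF (tcOf tb ρ) (ni + 1) (64 * i0 + 32 * b) r0 κ
      (m0 * ones 64 (ni + 1) + 2 * la * ramp 64 (ni + 1))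
      (m1 * ones 64 (ni + 1) + 2 * la * ramp 64 (ni + 1)) c = true := by
  induction c with
  | zero => rfl
  | succ d ih =>
    have hd := h d (by omega)
    have b1 : 4 * κ * d ≤ 4092 * 8 := Nat.mul_le_mul (by omega) (by omega)
    have b2 : ∀ i < ni + 1, 2 * la * i ≤ 2046 * 32 := fun i _ =>
      Nat.mul_le_mul (by omega) (by omega)
    have key : ∀ e m, e < 2 → m ≤ 65535 → (∀ i ≤ ni, m + 2 * la * i ≤ tb ρ / 2 ^ (8256 * (r0 - 1) +
        64 * i0 + 16 * b + 8256 * d + 64 * i + 32 * e) % 2 ^ 16 + 4 * κ * d) →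
        lge (grd 64 (ni + 1)) ((tcOf tb ρ (r0 + d) >>> (64 * i0 + 32 * b) >>> (16 * e) &&&
          65535 * ones 64 (ni + 1)) + 4 * κ * d * ones 64 (ni + 1))
          (m * ones 64 (ni + 1) + 2 * la * ramp 64 (ni + 1)) = true := by
      intro e m he hm hh
      have l1 : Lv 64 (ni + 1) (tcOf tb ρ (r0 + d) >>> (64 * i0 + 32 * b) >>> (16 * e) &&&
          65535 * ones 64 (ni + 1)) fun i => tb ρ / 2 ^ (8256 * (r0 - 1) + 64 * i0 + 16 * b +
            8256 * d + 64 * i + 32 * e) % 2 ^ 16 := by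
        rw [← Nat.shiftRight_add, Nat.add_assoc, Nat.shiftRight_add]
        refine (sub16 _ _ (by omega)).congr fun i hi => ?_
        rw [DG.shr', tc_fld tb ρ _ (by omega) hb he]
        congr 3
        omega
      refine (Lv.lge_iff (v := 63) (l1.add (Lv.const (by omega) _ _ (by omega)) fun i _ => by omega)
        ((Lv.const (by omega) _ m (by omega)).add ((lv_ramp _ (by omega)).mul _ fun i hi => by
          have := b2 i hi; omega) fun i hi => by have := b2 i hi; omega) (fun i _ => by omega)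
        fun i hi => by have := b2 i hi; omega).2 fun i hi => hh i (by omega)
    have k0 := key 0 m0 (by omega) h0 fun i hi => (hd i hi).1
    have k1 := key 1 m1 (by omega) h1' fun i hi => (hd i hi).2
    exact an_iff.2 ⟨an_iff.2 ⟨k0, k1⟩, ih (by omega) fun d' hd' => h d' (by omega)⟩

end Fast2

end Pool.Agent.MP_34f9b1_co.Sym

/-! The second fast checker: groups and layout. -/

namespace Pool.Agent.MP_34f9b1_co.Sym

namespace Fast2

open Leaf
open Fast (an orr cN cB fb bt ls lm tzF zF affF rowsNF optsF len obstF groupsF finF)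
open FastP (an_eq orr_eq cN_eq cB_eq fb_eq bt_eq)

theorem opts_imp (P : Prof) (O Ol Mu G AV l h D : ℕ) {κ κ' : ℕ → ℕ → ℕ → Bool}
    (e : ∀ A c r, κ (A + D) c r = true → κ' A c r = true) (rs : List Rw) : ∀ A c r,
    optsF P O Ol Mu G AV l h rs (A + D) c r κ = true → optsF P O Ol Mu G AV l h rs A c r κ' = true := by
  induction rs with
  | nil => exact e
  | cons w t ih =>
    intro A c r h1
    unfold optsF at ih h1 ⊢
    dsimp only at h1 ⊢
    generalize @List.rec Rw _ _ _ t = R at ih h1 ⊢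
    unfold Fast.opt1 at h1 ⊢
    have k : ∀ x, Nat.add (A + D) x = Nat.add A x + D := fun x => Nat.add_right_comm A D x
    rw [k, k] at h1
    cases hb : Nat.beq (Nat.land r 3) 0 <;> rw [hb] at h1
    · cases hc : Nat.beq (Nat.land r 3) 1 <;> rw [hc] at h1
      · exact ih _ _ _ h1
      · exact an_iff.2 ⟨(an_iff.1 h1).1, ih _ _ _ (an_iff.1 h1).2⟩
    · exact ih _ _ _ h1

/-- Iteration. -/
noncomputable def iter (f : (ℕ → ℕ → Bool) → ℕ → ℕ → Bool) (n : ℕ) : ℕ → ℕ → Bool :=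
  @Nat.rec (fun _ => ℕ → ℕ → Bool) (fun _ _ => false) (fun _ ih => f ih) n

theorem rep41_eq (f : (ℕ → ℕ → Bool) → ℕ → ℕ → Bool) : rep41 f = iter f 41 := Eq.trans rfl rfl

theorem key_spec (t : ℕ) {l : ℕ} (hl : l ≤ 7) :
    hi (Nat.add (Nat.mul 8 t) l) = t ∧ Nat.land 7 (Nat.add (Nat.mul 8 t) l) = l := by
  rw [hi_eq, lc]
  show (8 * t + l) >>> 3 = t ∧ (8 * t + l) &&& (2 ^ 3 - 1) = l
  rw [Nat.shiftRight_eq_div_pow, Nat.and_two_pow_sub_one_eq_mod]
  omega

theorem low61 (r : ℕ) : Nat.land 7 (Nat.land 2305843009213693951 r) = Nat.land r 7 :=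
  fld_and 7 _ 0 r (by decide)

theorem groups_imp {P : Prof} {tb : ℕ → ℕ} {k O G Ol Mu W MW XS A0 C0 IR XR i0 ni r0 nr : ℕ}
    {pv : OT} {rs : List Rw} (hG : G = 2 ^ 47 * O) (hC : C0 < 2 ^ 47) (hi' : ni < 32) (hr : nr < 8)
    (hs : i0 + ni ≤ 128) (h1 : 1 ≤ r0) (R : Rel P O G Ol Mu pv rs) (fuel : ℕ) : ∀ t r,
    iter (g1 (g2K tb k O G Mu Ol W MW XS pv (Nat.sub (Nat.add G A0) (Nat.mul C0 O))
      (Nat.mul 1024 IR) (Nat.mul 1024 XR) (Nat.add (Nat.mul 8256 (Nat.sub r0 1)) (Nat.mul 64 i0))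
      (Nat.land cM (wm ni nr)) (Nat.land cG (wm ni nr)) (Nat.land cD (wm ni nr))
      (Nat.land cI (wm ni nr)) (Nat.land cO (wm ni nr)))) fuel (Nat.mul 8 t) r = true →
    groupsF P (tcOf tb) (pk MW XS W) rs k O Ol Mu G A0 C0 IR XR i0 (Nat.succ ni) r0 (Nat.succ nr)
      fuel t r = true := by
  have hCO : C0 * O ≤ G := by rw [hG]; exact Nat.mul_le_mul_right _ hC.le
  induction fuel with
  | zero => exact fun _ _ h => h
  | succ j ih =>
    intro t r h
    unfold iter groupsF at ih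
    unfold iter at h
    unfold groupsF
    dsimp only at h ⊢
    generalize @Nat.rec (fun _ => ℕ → ℕ → Bool) _ _ j = R1 at ih h
    generalize @Nat.rec (fun _ => ℕ → ℕ → Bool) _ _ j = R2 at ih ⊢
    cases ht : Nat.beq t 0
    swap
    · rfl
    have h8 : Nat.beq (Nat.mul 8 t) 0 = false := by
      rw [Bool.eq_false_iff] at ht ⊢
      intro h0
      have : 8 * t = 0 := beq_iff.1 h0
      exact ht (beq_iff.2 (by omega))
    unfold g1 at h
    rw [h8, low61, cB_eq, cond_false, fb_eq] at h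
    rw [cB_eq, cond_false, fb_eq]
    obtain ⟨e1, e2⟩ := key_spec t (land_le r 7)
    generalize Nat.add (Nat.mul 8 t) (Nat.land r 7) = ν at h e1 e2
    unfold g2K at h
    rw [fld_and 1023 _ 3 r (by decide), fld_and 1023 _ 13 r (by decide),
      fld_and 65535 _ 23 r (by decide), fld_and 65535 _ 39 r (by decide),
      fld_and 3 _ 55 r (by decide), shr_and _ 57 r,
      show Nat.shiftRight 2305843009213693951 57 = 15 by decide, an_iff, an_iff] at h
    obtain ⟨a1, a2, a3⟩ := h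
    rw [R ν a1] at a3
    have e3 : lo ν = Nat.sub t (Nat.pow 2 (Nat.land r 7)) := by
      rw [lo_eq]; unfold loR; rw [e1, e2]
    have e4 : nu ν = Nat.shiftRight (Nat.add 64 (lo ν)) (Nat.land r 7) := by
      rw [nu_eq]; unfold nuR; rw [e2]
    have e5 : av Ol Mu ν = tv Ol Mu (Nat.mul 32 (lo ν)) (Nat.mul 32 t) := by
      rw [av_eq]; unfold avR tv; rw [e1]
    obtain ⟨⟨b1, -⟩, b2⟩ := okk_iff.1 a1
    rw [e1, e2] at b1
    rw [e2] at b2
    rw [← e3, ← e4, ← e5]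
    unfold Fast.grp1
    rw [an_iff, an_iff, an_iff, fb_eq]
    have bl := land_le (Nat.shiftRight r 3) 1023
    have bk := land_le (Nat.shiftRight r 13) 1023
    have b0 := land_le (Nat.shiftRight r 23) 65535
    have b1' := land_le (Nat.shiftRight r 39) 65535
    generalize Nat.land (Nat.shiftRight r 3) 1023 = la at a2 a3 bl ⊢
    generalize Nat.land (Nat.shiftRight r 13) 1023 = κ at a2 a3 bk ⊢
    generalize Nat.land (Nat.shiftRight r 23) 65535 = m0 at a2 a3 b0 ⊢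
    generalize Nat.land (Nat.shiftRight r 39) 65535 = m1 at a2 a3 b1' ⊢
    refine ⟨⟨ble_iff.2 b1, beq_iff.2 b2⟩, ?_, ?_⟩
    · rw [rho_eq, so_eq] at a2
      unfold rhoR soR at a2
      rw [lc 1] at a2
      exact tab_imp tb (Nat.lt_succ_of_le (land_le _ 1)) hi' hs h1 bk bl b0 b1' _ hr
        fun d hd i hi => tab_lanes hi' hr bk bl b0 b1' a2 (Nat.le_of_lt_succ hd) hi
    · have eA : Nat.add (Nat.add (Nat.sub (Nat.add G A0) (Nat.mul C0 O))
          (Nat.mul la (Nat.mul 1024 IR))) (Nat.add (Nat.mul m0 (Nat.mul 65536 Ol))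
            (Nat.mul m1 (Nat.mul 65536 Mu))) = Nat.add (Nat.add A0 (Nat.mul (Nat.mul 1024 la) IR))
          (tv Ol Mu (Nat.mul 65536 m0) (Nat.mul 65536 m1)) + (G - C0 * O) := by
        unfold tv
        simp only [Nat.add_eq, Nat.sub_eq, Nat.mul_eq]
        rw [Nat.mul_left_comm la, Nat.mul_left_comm m0, Nat.mul_left_comm m1, Nat.mul_assoc,
          Nat.mul_assoc, Nat.mul_assoc]
        omega
      rw [eA, e1] at a3
      refine opts_imp _ _ _ _ _ _ _ _ _ (fun A c s h => ?_) _ _ _ _ a3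
      rw [an_iff, nx_eq] at h
      rw [an_iff]
      refine ⟨?_, ih _ _ h.2⟩
      have eR : ∀ x y, Nat.sub (Nat.add (A + (G - C0 * O)) x) (Nat.add (Nat.add
          (Nat.mul c (Nat.mul 4398046511104 O)) (Nat.mul κ (Nat.mul 1024 XR))) y) =
          Nat.sub (Nat.add (Nat.add A x) G) (Nat.add (Nat.add (Nat.mul (Nat.add C0
            (Nat.mul 4398046511104 c)) O) (Nat.mul (Nat.mul 1024 κ) XR)) y) := by
        intro x y
        simp only [Nat.add_eq, Nat.sub_eq, Nat.mul_eq]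
        rw [Nat.mul_left_comm c, Nat.mul_left_comm κ, Nat.add_mul, Nat.mul_assoc, Nat.mul_assoc]
        omega
      have h2 := h.1
      rw [cq_eq] at h2
      unfold cqR at h2
      unfold Fast.gend lge
      rw [tst_eq, tst_eq, eR] at h2
      have e0 := eR 0 0
      exact e0 ▸ h2

theorem fld2 (m M a s x : ℕ) (h : Nat.land m (Nat.shiftRight M s) = m) :
    Nat.land (Nat.shiftRight (Nat.land (Nat.shiftRight x a) M) s) m =
      Nat.land (Nat.shiftRight x (a + s)) m := by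
  rw [lc _ m, lc _ M, fld_and _ _ _ _ h]
  exact congrArg (fun y => Nat.land y m) (Nat.shiftRight_add x a s).symm

theorem fin_imp {P : Prof} {tb : ℕ → ℕ} {k O G Ol Mu W MW XS av ac r p0 : ℕ} (hG : G = 2 ^ 47 * O)
    (hC : Nat.add 2147483649 (Nat.mul 64 ac) < 2 ^ 47)
    (h1 : 1 ≤ Nat.land (Nat.shiftRight r 26) 31)
    (h2 : Nat.add (Nat.land (Nat.shiftRight r 19) 127) (Nat.land (Nat.shiftRight r 26) 31) ≤ 128)
    (h3 : 1 ≤ Nat.land (Nat.shiftRight r 36) 7) (h4 : 1 ≤ Nat.land (Nat.shiftRight r 31) 31)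
    (h5 : Nat.add (Nat.land (Nat.shiftRight r 31) 31) (Nat.land (Nat.shiftRight r 36) 7) ≤ 31) :
    KR P O G Ol Mu (fin (g2K tb k O G Mu Ol W MW) k O G XS av (Nat.add 2147483649 (Nat.mul 64 ac))
      (Nat.land 8796093022207 r) p0) (finF P (tcOf tb) (pk MW XS W) av ac k O Ol Mu G
        (Nat.land (Nat.shiftRight r 13) 67108863) p0) := by
  intro p um pv rs s R h
  rw [fin_eq] at h
  unfold finR at h
  rw [fld_and 127 _ 19 r (by decide), fld_and 31 _ 26 r (by decide), fld_and 31 _ 31 r (by decide),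
    fld_and 7 _ 36 r (by decide), fld_and 63 _ 13 r (by decide), rep41_eq] at h
  simp only [an_iff, tst_and, tst_gd, beq_iff] at h
  obtain ⟨a1, ⟨⟨a2, a3⟩, a4, a5⟩, a6⟩ := h
  unfold finF Fast.fin1
  rw [fb_eq, fb_eq, fb_eq, fld2 31 _ 13 18 r (by decide), fld2 31 _ 13 13 r (by decide),
    fld2 127 _ 13 6 r (by decide), fld2 7 _ 13 23 r (by decide),
    show Nat.land (Nat.land (Nat.shiftRight r 13) 67108863) 63 = _ from fld2 63 _ 13 0 r (by decide),
    Fast2.ac (Nat.mul 64 _)]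
  have a7 : (Nat.succ um ^^^ 2 ^ k) + (len rs - 12) = 0 := a1
  rw [Nat.add_eq_zero_iff, Nat.xor_eq_zero_iff, Nat.sub_eq_zero_iff_le] at a7
  simp only [an_iff, beq_iff, ble_iff]
  exact ⟨⟨⟨⟨⟨⟨⟨a7.1, a7.2⟩, h1⟩, h2⟩, h3⟩, h4⟩, h5⟩, a2, a3, a4, a5, groups_imp hG hC
    (Nat.lt_succ_of_le (land_le _ 31)) (Nat.lt_succ_of_le (land_le _ 7)) h2 h4 R _ _ _ a6⟩

theorem add0 {a b : ℕ} : Nat.add a b = 0 ↔ a = 0 ∧ b = 0 := Nat.add_eq_zero_iff

theorem sub0 {a b : ℕ} : Nat.sub a b = 0 ↔ a ≤ b := Nat.sub_eq_zero_iff_le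

theorem lay_imp {P : Prof} {tb : ℕ → ℕ} {k O G Ol Mu W MW X Uv XS av ac r : ℕ} {tz : ℕ → ℕ → ℕ}
    {B : ℕ → Prop} (hk : k ≤ 15) (hk1 : 1 ≤ k) (C : Ctx P O G Ol Mu W MW XS 0 tz B)
    (hc : ∀ c ≤ 4095, B (Nat.mul c O))
    (h : lay (afK O G (tmK W MW (Nat.add 32767 (Nat.pow 2 k)))) (n1C k O G Ol Mu W MW tz)
      (obA (afK O G (tmK W MW (Nat.add 32767 (Nat.pow 2 k)))) (n1C k O G Ol Mu W MW tz)
        (s1C k O G Ol Mu W MW tz) tz k O G W MW) (fin (g2K tb k O G Mu Ol W MW) k O G)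
      k O W MW X Uv r (Nat.land 8796093022207 r) XS av ac = true) :
    Fast.hd k (arL (unp k X)) (Nat.land 8191 (Nat.shiftRight Uv (Nat.mul 26 (Nat.sub k 1))))
      (Nat.land (Nat.shiftRight r 1) 4095)
      (Nat.land (Nat.land (Nat.shiftRight r 13) 67108863) 63) (bt r 0) = true ∧
    Fast.lay P (tcOf tb) (pk MW XS W) av ac k O Ol Mu G r = true := by
  rw [lay_eq] at h
  unfold layR at h
  have f0 : Nat.land 1 (Nat.land 8796093022207 r) = Nat.land 1 r :=
    (fld_and 1 _ 0 r (by decide)).trans (lc _ _)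
  have f1 : Nat.beq (Nat.land 549755813888 (Nat.land 8796093022207 r)) 0 = !bt r 39 := by
    rw [← bit_eq]
    exact congrArg (fun y => Nat.beq y 0) ((fld_and _ _ 0 r (by decide)).trans (lc _ _))
  rw [fld_and 127 _ 19 r (by decide), fld_and 31 _ 26 r (by decide), fld_and 31 _ 31 r (by decide),
    fld_and 7 _ 36 r (by decide), fld_and 63 _ 13 r (by decide), fld_and 4095 _ 1 r (by decide),
    fld_and 7 _ 40 r (by decide), f0, f1, bit0, cN_not, cN_not, aff_eq hk, an_iff, beq_iff] at h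
  obtain ⟨a1, a2⟩ := h
  rw [show Nat.land (Nat.land (Nat.shiftRight r 13) 67108863) 63 = Nat.land (Nat.shiftRight r 13) 63
    from fld2 63 _ 13 0 r (by decide)]
  simp only [add0, sub0] at a1
  obtain ⟨⟨⟨b1, b2⟩, b0⟩, ⟨b7, b8⟩, b9⟩ := a1
  obtain ⟨⟨b3, b4⟩, b5, b6⟩ := (Nat.mul_ne_zero_iff.1 (Nat.ne_of_gt b0)).imp
    Nat.mul_ne_zero_iff.1 Nat.mul_ne_zero_iff.1
  constructor
  · unfold Fast.hd
    simp only [an_iff, ble_iff]
    refine ⟨⟨⟨hk1, hk⟩, Nat.pos_of_ne_zero b3, b1⟩, ?_⟩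
    cases hb : bt r 0 <;> rw [hb, cN_eq] at b9
    · rw [cond_false, add0, sub0, sub0] at b9
      exact an_iff.2 ⟨ble_iff.2 b9.1, ble_iff.2 b9.2⟩
    · rw [cond_true, sub0] at b9
      exact ble_iff.2 b9
  · unfold Fast.lay
    rw [fb_eq]
    have hB : B (cN (bt r 0) (pk MW XS W (Nat.sub k 1))
        (Nat.mul (Nat.land (Nat.shiftRight r 1) 4095) O)) := by
      cases bt r 0
      · exact hc _ (land_le _ _)
      · exact C.hx _
    generalize cN (bt r 0) (pk MW XS W (Nat.sub k 1))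
      (Nat.mul (Nat.land (Nat.shiftRight r 1) 4095) O) = HT at a2 hB ⊢
    have C' : Ctx P O G Ol Mu W MW XS HT tz B := ⟨C.hG, C.hO, C.hx, hB, C.ha, C.hz⟩
    have hC : Nat.add 2147483649 (Nat.mul 64 ac) < 2 ^ 47 := by
      have : (2147483649 + 64 * ac) >>> 47 = 0 := b7
      rw [Nat.shiftRight_eq_div_pow] at this
      show 2147483649 + 64 * ac < _
      omega
    refine aff_mono (fun p0 t h => ?_) a2
    have F := fin_imp (P := P) (tb := tb) (k := k) (Ol := Ol) (Mu := Mu) (W := W) (MW := MW)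
      (XS := XS) (av := av) (p0 := p0) C.hG hC (Nat.pos_of_ne_zero b4) b2 (Nat.pos_of_ne_zero b5)
      (Nat.pos_of_ne_zero b6) b8
    refine rowsN_imp C' ?_ _ p0 0 _ [] t (rel_nil P O G Ol Mu) h
    intro p um pv rs s R h2
    beta_reduce
    cases hb : bt r 39 <;> rw [hb] at h2
    · rw [cB_eq, cond_false]
      exact F p um pv rs s R h2
    · rw [cB_eq, cond_true]
      exact ob_imp C' hk F p um pv rs s R h2

end Fast2

end Pool.Agent.MP_34f9b1_co.Sym

/-! The second fast checker: the pass over the pattern, and soundness of a leaf. -/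

namespace Pool.Agent.MP_34f9b1_co.Sym

namespace Fast2

open Leaf VecAux
open Fast (an cN fb bt)
open FastP (cN_eq fb_eq)

theorem fu_eq (x : ℕ) (f : ℕ → U) : fu x f = f x := Eq.trans rfl rfl

theorem on_ones (n : ℕ) : on n = ones 48 n := by
  rw [on_eq]
  unfold onR ones
  rw [show Nat.pred (Nat.pow 2 48) = 281474976710655 by decide, FastP.pred_eq]

/-- Duplication steps `j`, ..., `j + d - 1`. -/
noncomputable def dups (p j X d : ℕ) : ℕ :=
  Nat.rec (motive := fun _ => ℕ) X (fun k r => dup 48 (nv p (j + k)).1 (s0 p (j + k)) r) d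

theorem dups_succ (p j X d : ℕ) :
    dups p j X (d + 1) = dups p (j + 1) (dup 48 (nv p j).1 (s0 p j) X) d := by
  induction d with
  | zero => rfl
  | succ d ih =>
    show dup 48 _ _ (dups p j X (d + 1)) = dup 48 _ _ (dups p (j + 1) _ d)
    rw [ih, Nat.add_right_comm j 1 d, Nat.add_assoc]

/-- The box with the lower ends in `L` and the upper ends in `U`. -/
def bx : ℕ → ℕ → ℕ → Box
  | 0, _, _ => []
  | k + 1, L, U => (Nat.land 8191 L, Nat.land 8191 U) :: bx k (L >>> 26) (U >>> 26)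

theorem go_spec (pt : ℕ) (fuel : ℕ) : ∀ (p j : ℕ) (κ : GK), s0 pt (j + fuel) = 0 →
    (∀ i < fuel, (1 - Nat.land 1 (p >>> (26 * i))) * (nv pt (j + i)).2 = s0 pt (j + i)) →
    ∃ T T2 pp e, go fuel p j (nv pt j).1 (nv pt j).2 κ =
      κ T T2 (on (Nat.mul 2 (nv pt (j + fuel)).1)) (nv pt (j + fuel)).1 pp e ∧
      (∀ X < 2 ^ (48 * (nv pt j).1), dups pt j X (fuel + 1) = X % 2 ^ (48 * (nv pt j).2) * T +
        X / 2 ^ (48 * (nv pt j).2) * 2 ^ (48 * (nv pt j).2) * T2) ∧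
      ∀ L U XS av ac k, pp L U XS av ac k =
        k (XS + 2 ^ (96 * (nv pt (j + fuel)).1 * j) * FastP.pk (96 * (nv pt (j + fuel)).1)
          (vecs pt (on (Nat.mul 2 (nv pt (j + fuel)).1)) (bx fuel L U) j fuel))
          (av + arV (bx fuel L U)
            (vecs pt (on (Nat.mul 2 (nv pt (j + fuel)).1)) (bx fuel L U) j fuel))
          (ac + arC (bx fuel L U)) := by
  induction fuel with
  | zero =>
    intro p j κ h0 _
    refine ⟨_, _, _, _, by rw [go_eq]; unfold goR; rw [Nat.rec_zero, fu_eq, fu_eq]; rfl,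
      fun X _ => ?_, fun _ _ _ _ _ _ => rfl⟩
    rw [← Nat.add_mul, Nat.mod_add_div']
    show dup 48 _ (s0 pt (j + 0)) X = _
    rw [h0]
    show X + (X >>> 0) <<< (48 * (nv pt j).1) = X * (1 + 2 ^ (48 * (nv pt j).1))
    rw [Nat.shiftRight_zero, Nat.shiftLeft_eq, Nat.mul_add, Nat.mul_one]
  | succ f ih =>
    intro p j κ h0 h
    have hs : Nat.mul (Nat.sub 1 (Nat.land 1 p)) (nv pt j).2 = s0 pt j := h 0 (Nat.succ_pos f)
    have ej : j + 1 + f = j + (f + 1) := by omega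
    obtain ⟨T, T2, pp, e, h1, h2, h3⟩ := ih (p >>> 26) (j + 1) (gk κ j (nv pt j).1 (s0 pt j))
      (by rw [ej]; exact h0) fun i hi => by
        have := h (i + 1) (by omega)
        rwa [Nat.mul_succ, Nat.add_comm (26 * i), Nat.shiftRight_add, ← Nat.add_assoc,
          Nat.add_right_comm] at this
    rw [ej] at h1 h3
    rw [nv_succ] at h2
    dsimp only at h2
    have hle := s0_le pt j
    have hm := nv_le pt j
    have hc := s0_cases pt j
    have eM : Nat.shiftLeft (Nat.mul (on (Nat.sub (nv pt j).1 (s0 pt j))) T2)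
        (Nat.mul 48 (nv pt j).1) = mk pt j (f + 1) := by
      have e1 : mk pt j (f + 1) = dups pt (j + 1)
        (ones 48 (2 * (nv pt j).1 - s0 pt j) - ones 48 (nv pt j).1) (f + 1) := rfl
      rw [e1, h2 _ (lt_of_le_of_lt (Nat.sub_le _ _) ((Lv.one (by omega) _).lt (by omega))),
        show 2 * (nv pt j).1 - s0 pt j = (nv pt j).1 + ((nv pt j).1 - s0 pt j) by omega,
        ones_add (by omega), Nat.add_sub_cancel_left, Nat.shiftLeft_eq, Nat.mul_mod_left,
        Nat.mul_div_cancel _ (Nat.two_pow_pos _), Nat.zero_mul, Nat.zero_add, on_ones]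
      show (_ * T2) <<< _ = _
      rw [Nat.shiftLeft_eq, Nat.mul_right_comm]
      rfl
    have h4 : go (f + 1) p j (nv pt j).1 (nv pt j).2 κ =
        go f (p >>> 26) (j + 1) (nv pt (j + 1)).1 (nv pt (j + 1)).2
          (gk κ j (nv pt j).1 (s0 pt j)) := by
      rw [go_eq]
      unfold goR
      dsimp only
      rw [hs]
      rfl
    rw [h1, gk_eq] at h4
    unfold gkR at h4
    rw [gk2_eq] at h4
    unfold gk2R at h4
    refine ⟨_, _, _, _, h4, fun X hX => ?_, fun L U XS av ac k => ?_⟩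
    · rw [dups_succ]
      generalize (nv pt j).1 = n at *
      generalize (nv pt j).2 = m at *
      generalize s0 pt j = s at *
      have e1 : dup 48 n s X = X + X / 2 ^ (48 * s) * 2 ^ (48 * n) := by
        show X + (X >>> (48 * s)) <<< (48 * n) = _
        rw [Nat.shiftLeft_eq, Nat.shiftRight_eq_div_pow]
      have e2 : 2 ^ (48 * n) = 2 ^ (48 * s) * 2 ^ (48 * (n - s)) := by
        rw [← Nat.pow_add]; congr 1; omega
      have e3 : X / 2 ^ (48 * s) < 2 ^ (48 * (n - s)) := Nat.div_lt_of_lt_mul (e2 ▸ hX)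
      have e4 : 2 ^ (48 * (2 * n - s)) = 2 ^ (48 * (n - s)) * 2 ^ (48 * n) := by
        rw [← Nat.pow_add]; congr 1; omega
      have e5 := Nat.mul_le_mul_right (2 ^ (48 * n)) (Nat.succ_le_of_lt e3)
      rw [Nat.succ_mul] at e5
      rw [e1, h2 _ (by omega), Nat.add_mul_mod_self_right, Nat.mod_eq_of_lt hX,
        Nat.add_mul_div_right _ _ (Nat.two_pow_pos _), Nat.div_eq_of_lt hX, Nat.zero_add, cN_eq]
      simp only [Nat.add_eq, Nat.mul_eq, Nat.sub_eq, Nat.shiftLeft_eq', Nat.shiftLeft_eq]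
      cases hb : Nat.beq s 0
      · obtain rfl : s = m := by
          rcases hc with h | h
          · rw [h] at hb; cases hb
          · exact h.2
        rw [cond_false, e2]
        conv_lhs => enter [1, 1]; rw [← Nat.mod_add_div' X (2 ^ (48 * s))]
        ring
      · obtain rfl : s = 0 := beq_iff.1 hb
        rw [cond_true, ← Nat.add_mul, Nat.mod_add_div', Nat.mul_zero, Nat.pow_zero, Nat.div_one,
          Nat.sub_zero]
        ring
    · rw [h3, eM]
      show _ = k (_ + _ * FastP.pk _ (vecs _ _ (_ :: _) _ _)) (_ + arV (_ :: _) (vecs _ _ (_ :: _) _ _))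
        (_ + arC (_ :: _))
      rw [vecs_cons, Nat.add_sub_cancel]
      refine congr (congr (congrArg k ?_) (Nat.add_assoc _ _ _)) (Nat.add_assoc _ _ _)
      rw [FastP.pk]
      simp only [Nat.add_eq, Nat.mul_eq, Nat.sub_eq, Nat.shiftLeft_eq', Nat.shiftLeft_eq,
        Nat.shiftRight_eq]
      ring

theorem bx_len (k : ℕ) : ∀ L U, (bx k L U).length = k := by
  induction k with
  | zero => exact fun _ _ => rfl
  | succ k ih => exact fun L U => congrArg Nat.succ (ih _ _)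

theorem shr_succ (X i : ℕ) : X >>> 26 >>> (26 * i) = X >>> (26 * (i + 1)) := by
  rw [← Nat.shiftRight_add, Nat.mul_succ, Nat.add_comm]

theorem bx_unp (k : ℕ) : ∀ L U X, (∀ i < k, Nat.land 8191 (L >>> (26 * i)) =
      Nat.land 8191 (X >>> (26 * i)) ∧ Nat.land 8191 (U >>> (26 * i)) =
      Nat.land 8191 (X >>> 13 >>> (26 * i))) → bx k L U = unp k X := by
  rw [unp_eq]
  induction k with
  | zero => exact fun _ _ _ _ => rfl
  | succ k ih =>
    intro L U X h
    have h0 := h 0 (Nat.succ_pos k)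
    show (Nat.land 8191 L, Nat.land 8191 U) :: _ = (Nat.land 8191 X, Nat.land 8191 (X >>> 13)) :: _
    refine congrArg₂ List.cons (Prod.ext h0.1 h0.2) (ih _ _ (X >>> 26) fun i hi => ?_)
    rw [shr_succ, shr_succ, shr_succ, ← Nat.shiftRight_add X, Nat.add_comm 26, Nat.shiftRight_add,
      shr_succ]
    exact h (i + 1) (by omega)

theorem bx_ok (k : ℕ) : ∀ L U, (∀ i < k, Nat.land 8191 (L >>> (26 * i)) ≤
      Nat.land 8191 (U >>> (26 * i)) ∧ Nat.land 8191 (U >>> (26 * i)) ≤ 4096) →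
    okB (bx k L U) = true := by
  induction k with
  | zero => exact fun _ _ _ => rfl
  | succ k ih =>
    intro L U h
    have h0 := h 0 (Nat.succ_pos k)
    unfold bx
    rw [okB_cons, Bool.and_eq_true, Bool.and_eq_true, ble_iff, ble_iff]
    refine ⟨h0, ih _ _ fun i hi => ?_⟩
    rw [shr_succ, shr_succ]
    exact h (i + 1) (by omega)

theorem bx_last (k : ℕ) : ∀ L U u, lastU (bx (k + 1) L U) u = Nat.land 8191 (U >>> (26 * k)) := by
  induction k with
  | zero =>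
    intro L U u
    rw [Nat.mul_zero, Nat.shiftRight_zero]
    rfl
  | succ k ih =>
    intro L U u
    rw [← shr_succ, ← ih (L >>> 26) _ (Nat.land 8191 U)]
    rfl

theorem bx_pat (k : ℕ) : ∀ L U pl pu,
    Nat.testBit (pat (bx k L U) 0 pl pu) 0 =
      decide (0 < k ∧ Nat.land 8191 L = pl ∧ Nat.land 8191 U = pu) ∧
    ∀ j, Nat.testBit (pat (bx k L U) 0 pl pu) (j + 1) = decide (j + 1 < k ∧
      Nat.land 8191 (L >>> (26 * (j + 1))) = Nat.land 8191 (L >>> (26 * j)) ∧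
      Nat.land 8191 (U >>> (26 * (j + 1))) = Nat.land 8191 (U >>> (26 * j))) := by
  induction k with
  | zero =>
    intro L U pl pu
    unfold bx
    rw [pat_nil]
    simp
  | succ k ih =>
    intro L U pl pu
    unfold bx
    rw [pat_cons, pat_shift]
    dsimp only
    obtain ⟨i0, i1⟩ := ih (L >>> 26) (U >>> 26) (Nat.land 8191 L) (Nat.land 8191 U)
    generalize pat (bx k (L >>> 26) (U >>> 26)) 0 (Nat.land 8191 L) (Nat.land 8191 U) = q at i0 i1
    refine ⟨?_, fun j => ?_⟩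
    · rw [Nat.testBit_zero, decide_eq_decide, ← beq_iff (b := pl), ← beq_iff (b := pu),
        ← Bool.and_eq_true]
      cases (Nat.beq (Nat.land 8191 L) pl && Nat.beq (Nat.land 8191 U) pu)
      · simp
      · simp only [cond_true, and_true]; omega
    · have e : (cond (Nat.beq (Nat.land 8191 L) pl && Nat.beq (Nat.land 8191 U) pu) (2 ^ 0) 0 +
          2 * q) / 2 = q := by
        cases (Nat.beq (Nat.land 8191 L) pl && Nat.beq (Nat.land 8191 U) pu)
        · simp only [cond_false]; omega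
        · simp only [cond_true]; omega
      rw [Nat.testBit_succ, e]
      cases j with
      | zero => rw [i0]; simp only [Nat.succ_lt_succ_iff]; rfl
      | succ j => rw [i1, shr_succ, shr_succ, shr_succ, shr_succ]; simp only [Nat.succ_lt_succ_iff]

theorem vecs_bd (p : ℕ) (b : Box) : ∀ i, okB b = true →
    ∀ X ∈ vecs p (ones 48 (nv p (i + 1 + b.length)).1) b i b.length,
      Bd 48 (nv p (i + 1 + b.length)).1 X 4096 := by
  induction b with
  | nil => exact fun _ _ X hX => absurd hX List.not_mem_nil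
  | cons x t ih =>
    intro i h X hX
    rw [okB_cons, Bool.and_eq_true, Bool.and_eq_true, ble_iff, ble_iff] at h
    rw [vecs_cons, List.mem_cons] at hX
    rcases hX with rfl | hX
    · exact bd_vec dgs (bd_mk dgs p i _) h.1.1 h.1.2
    · have e : i + 1 + (x :: t).length = i + 1 + 1 + t.length := by
        rw [List.length_cons]; omega
      rw [e] at hX ⊢
      exact ih (i + 1) h.2 X hX

theorem nth_bd {n : ℕ} (l : List ℕ) (h : ∀ X ∈ l, Bd 48 n X 4096) : ∀ i, Bd 48 n (nth l i) 4096 := by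
  induction l with
  | nil => exact fun _ => (Lv.zero 48 n).bd fun _ _ => Nat.zero_le _
  | cons x t ih =>
    intro i
    cases i with
    | zero => exact h x (List.mem_cons_self ..)
    | succ i => exact ih (fun X hX => h X (List.mem_cons_of_mem _ hX)) i

theorem bO_eq : bO = ones 26 16 := by decide +kernel
theorem bG_eq : bG = grd 26 16 := by decide +kernel
theorem bM_eq : bM = 8191 * bO := by decide +kernel
theorem bU_eq : bU = 4096 * bO + bG := by decide +kernel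
theorem bZ_eq : bZ = 33554431 * bO := by decide +kernel

theorem lv_c (c : ℕ) (h : c < 2 ^ 26) : Lv 26 16 (c * bO) fun _ => c := by
  rw [bO_eq]; exact Lv.const (by omega) _ _ h

theorem lv_G : Lv 26 16 bG fun _ => 2 ^ 25 := by
  rw [bG_eq]; exact DG.grd' (by omega) _

theorem low13 (X i : ℕ) : Nat.land 8191 (X >>> (26 * i)) = dg 26 X i % 8192 := by
  rw [lc, DG.eq', Nat.mod_mod_of_dvd _ (by decide), ← Nat.shiftRight_eq_div_pow]
  exact Nat.and_two_pow_sub_one_eq_mod _ 13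

theorem lv_M (X : ℕ) : Lv 26 16 (Nat.land bM X) fun i => dg 26 X i % 8192 := by
  rw [bM_eq]
  refine ((lv_c 8191 (by omega)).land X).congr fun i _ => ?_
  rw [Nat.and_comm]
  exact Nat.and_two_pow_sub_one_eq_mod _ 13

theorem dg_xor (w X Y i : ℕ) : dg w (X ^^^ Y) i = dg w X i ^^^ dg w Y i := by
  apply Nat.eq_of_testBit_eq
  intro j
  rw [Nat.testBit_xor, DG.tb, DG.tb, DG.tb, Nat.testBit_xor]
  cases decide (j < w) <;> simp

theorem xor_spec {L : ℕ} {f : ℕ → ℕ} (h : Lv 26 16 L f) (b : ∀ i, f i < 8192) (i : ℕ) :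
    dg 26 (L ^^^ L <<< (26 * 1)) i < 8192 ∧ (1 ≤ i → i < 16 →
      (dg 26 (L ^^^ L <<< (26 * 1)) i = 0 ↔ f i = f (i - 1))) := by
  have k : ∀ j, dg 26 L j < 2 ^ 13 := fun j => by
    have := b j
    rw [h j]
    split_ifs <;> omega
  rw [dg_xor, DG.shl']
  refine ⟨Nat.xor_lt_two_pow (n := 13) (k i) (by have := k (i - 1); split_ifs <;> omega),
    fun h1 h2 => ?_⟩
  rw [if_neg (by omega), Nat.xor_eq_zero_iff, h.val h2, h.val (by omega)]

theorem key_bits {k L U : ℕ} {f g : ℕ → ℕ} (hk : k ≤ 15) (hL : Lv 26 16 L f) (hU : Lv 26 16 U g)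
    (bf : ∀ i, f i < 8192) (bg : ∀ i, g i < 8192) {kp : ℕ} (e : kp = k + (bG &&&
      (bZ + ((L ^^^ L <<< (26 * 1)) + (U ^^^ U <<< (26 * 1)))))) :
    Nat.land 15 kp = k ∧ ∀ i, i + 1 < 16 → Nat.land 1 (kp >>> 25 >>> (26 * (i + 1))) =
      if f (i + 1) = f i ∧ g (i + 1) = g i then 0 else 1 := by
  have x := xor_spec hL bf
  have y := xor_spec hU bg
  generalize L ^^^ L <<< (26 * 1) = A at x e
  generalize U ^^^ U <<< (26 * 1) = B at y e
  have z : ∀ i, dg 26 bZ i = if i < 16 then 33554431 else 0 := by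
    rw [bZ_eq]; exact lv_c 33554431 (by omega)
  have s1 : ∀ i, dg 26 (A + B) i = _ := fun i => DG.add' i fun j => by
    have := (x j).1; have := (y j).1; omega
  have s2 : ∀ i, dg 26 (bZ + (A + B)) i = _ := fun i => DG.add' i fun j => by
    have := (x j).1
    have := (y j).1
    rw [s1, z]
    split_ifs <;> omega
  have l1 := (lv_G.land (bZ + (A + B))).congr
    (g := fun i => if dg 26 A i + dg 26 B i = 0 then 0 else 2 ^ 25) fun i hi => by
    have := (x i).1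
    have := (y i).1
    rw [s2, s1, z, if_pos hi, Nat.and_comm, DG.top_bit (by omega)]
    split_ifs <;> omega
  have l0 : Lv 26 16 k fun i => if i < 1 then k else 0 := by
    have h1 := Lv.const (w := 26) (by omega) 1 k (by omega)
    rw [show ones 26 1 = 1 by decide, Nat.mul_one] at h1
    intro i
    rw [h1]
    beta_reduce
    split_ifs <;> omega
  have l2 := l0.add l1 fun i _ => by split_ifs <;> omega
  rw [← e] at l2
  constructor
  · have := l2.val (i := 0) (by omega)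
    rw [DG.zero'] at this
    rw [lc]
    show kp &&& (2 ^ 4 - 1) = k
    rw [Nat.and_two_pow_sub_one_eq_mod]
    split_ifs at this <;> omega
  · intro i hi
    have h1 := l2.val hi
    have h2 := (x (i + 1)).2 (by omega) hi
    have h3 := (y (i + 1)).2 (by omega) hi
    rw [Nat.add_sub_cancel] at h2 h3
    rw [DG.eq', ← Nat.shiftRight_eq_div_pow, if_neg (by omega)] at h1
    rw [← Nat.shiftRight_add, Nat.add_comm 25, Nat.shiftRight_add, Nat.shiftRight_eq_div_pow _ 25]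
    show 1 &&& _ = _
    rw [Nat.one_and_eq_mod_two]
    simp only [← h2, ← h3]
    split_ifs at h1 ⊢ <;> omega

theorem bd_z {n Z : ℕ} (h : Nat.land (Nat.mul 32767 (ones 48 n)) Z = Z) : Bd 48 n Z 32767 := by
  rw [← h]
  exact ((Lv.const (by omega) n 32767 (by omega)).land Z).bd fun _ _ => Nat.and_le_left

theorem s0_zero (p : ℕ) : s0 p 0 = 0 := by
  unfold s0
  cases Nat.testBit p 0 <;> rfl

theorem lv_low (n : ℕ) : Lv 48 (2 * n) (ones 48 n) fun i => if i < n then 1 else 0 := fun i => by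
  rw [DG.ones' (by omega)]
  beta_reduce
  split_ifs <;> omega

theorem ones_le (n : ℕ) : ones 48 n ≤ ones 48 (2 * n) :=
  (lv_low n).le (by omega) (Lv.one (by omega) _) fun i _ => by split_ifs <;> omega

theorem ctx_ok {a1 b1 a2 b2 a3 b3 a4 b4 n XS : ℕ} (h : eP a1 b1 a2 b2 a3 b3 a4 b4 = 0) (hn : 0 < n)
    {O G W : ℕ} (hx : ∀ i, Bd 48 (2 * n) (pk (Nat.sub (Nat.pow 2 W) 1) XS W i) 4096)
    (hO : O = ones 48 (2 * n)) (hG : G = grd 48 (2 * n)) (hW : W = 96 * n) :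
    Ctx ⟨a1, b1, a2, b2, a3, b3, a4, b4⟩ O G (ones 48 n) (Nat.sub O (ones 48 n)) W
      (Nat.sub (Nat.pow 2 W) 1) XS 0 (tzK O G (Nat.sub (Nat.pow 2 W) 1) (p4 W G G G G)
      (Nat.sub (p4 W G G G G) (Nat.mul (Nat.mul 4096 O) (p4 W 0 (Nat.mul 4 (Nat.sub a2 a1))
        (Nat.mul 4 (Nat.sub a3 a2)) (Nat.mul 4 (Nat.sub a4 a3)))))
      (p4 W 0 (Nat.mul 4 (Nat.sub a2 a1)) (Nat.mul 4 (Nat.sub a3 a2)) (Nat.mul 4 (Nat.sub a4 a3)))
      (p4 W b1 (Nat.sub b2 b1) (Nat.sub b3 b2) (Nat.sub b4 b3)))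
      fun Y => Bd 48 (2 * n) Y 4096 := by
  refine ⟨by rw [hG, hO]; exact grd_eq 47 _, Nat.add_sub_cancel' (hO ▸ ones_le n), hx,
    (Lv.zero _ _).bd fun _ _ => Nat.zero_le _, fun ν hν => ?_,
    fun Z Y hZ hY => tz_eq h (by omega) (bd_z (hO ▸ hZ)) hY hO hG (by omega)⟩
  have l2 := lv_low n
  have l3 := (Lv.one (w := 48) (by omega) (2 * n)).sub (by omega) l2 fun i _ => by
    split_ifs <;> omega
  have h1 := (okk_iff.1 hν).1.2
  have h2 := lo_le ν
  rw [av_eq, hO]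
  have k1 : ∀ i, 32 * lo ν * (if i < n then 1 else 0) ≤ 1280 * 1 := fun i =>
    Nat.mul_le_mul (by omega) (by split_ifs <;> omega)
  have k2 : ∀ i, 32 * hi ν * (1 - if i < n then 1 else 0) ≤ 1280 * 1 := fun i =>
    Nat.mul_le_mul (by omega) (by omega)
  exact ((l2.mul (32 * lo ν) fun i _ => by have := k1 i; omega).add
    (l3.mul (32 * hi ν) fun i _ => by have := k2 i; omega) fun i _ => by
      have := k1 i; have := k2 i; omega).bd fun i _ => by have := k1 i; have := k2 i; omega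

theorem leaf1_sound {P : Prof} {tb : ℕ → ℕ} {k X r L U : ℕ} {f g : ℕ → ℕ} (hk : k ≤ 15)
    (lL : Lv 26 16 L f) (lU : Lv 26 16 U g) (bf : ∀ i, f i < 8192) (bg : ∀ i, g i < 8192)
    (eb : bx k L U = unp k X) (h : leaf1 P tb k X r L U = true) :
    1 ≤ k ∧ leaf P (tcOf tb) (bx k L U) r = true := by
  rw [leaf1_eq] at h
  unfold leaf1R at h
  rw [an_iff, tst_and, an_iff, tst_gd, tst_eq, fb_eq, bU_eq, mk1_eq] at h
  obtain ⟨⟨a1, a2⟩, a3⟩ := h
  rw [bG_eq] at a1
  have c1 := (Lv.lge_iff (v := 25) lU lL (fun i _ => by have := bg i; omega)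
    fun i _ => by have := bf i; omega).1 a1
  have c2 := (Lv.lge_iff (v := 25) (lv_c 4096 (by omega)) lU (fun i _ => by omega)
    fun i _ => by have := bg i; omega).1 (bG_eq ▸ a2)
  have fL : ∀ i < 16, Nat.land 8191 (L >>> (26 * i)) = f i := fun i hi => by
    rw [low13, lL.val hi, Nat.mod_eq_of_lt (bf i)]
  have fU : ∀ i < 16, Nat.land 8191 (U >>> (26 * i)) = g i := fun i hi => by
    rw [low13, lU.val hi, Nat.mod_eq_of_lt (bg i)]
  have hok : okB (bx k L U) = true := bx_ok _ _ _ fun i hi => by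
    rw [fL i (by omega), fU i (by omega)]
    exact ⟨c1 i (by omega), c2 i (by omega)⟩
  obtain ⟨kp, hkp, a4⟩ : ∃ kp, kp = _ ∧ (mk1R P tb kp).f X L U r = true := ⟨_, rfl, a3⟩
  obtain ⟨d1, d2⟩ := key_bits hk lL lU bf bg hkp
  obtain ⟨p1, q1, p2, q2, p3, q3, p4', q4⟩ := P
  unfold mk1R at a4
  dsimp only at a4
  rw [d1] at a4
  have hp := (bx_pat k L U 4097 4097).2
  have hl := bx_len k L U
  have hv := vecs_bd (pat (bx k L U) 0 4097 4097) (bx k L U) 0 hok
  unfold leaf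
  simp only [FastP.frc_eq, FastP.pred_eq, Bool.and_eq_true]
  rw [hl] at hv ⊢
  generalize pat (bx k L U) 0 4097 4097 = pt at hp hv ⊢
  have h0 : s0 pt k = 0 := by
    cases k with
    | zero => exact s0_zero pt
    | succ j =>
      unfold s0
      rw [hp, decide_eq_false fun h => Nat.lt_irrefl _ h.1, cond_false]
  obtain ⟨T, T2, pp, e, g1, -, g3⟩ := go_spec pt k (Nat.shiftRight kp 25) 0
    (mk4 tb p1 q1 p2 q2 p3 q3 p4' q4 k) (by rwa [Nat.zero_add]) fun i hi => by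
      rw [Nat.zero_add]
      cases i with
      | zero => exact (s0_zero pt).symm
      | succ j =>
        unfold s0
        rw [Nat.shiftRight_eq, d2 j (by omega), hp, fL _ (by omega), fL _ (by omega),
          fU _ (by omega), fU _ (by omega)]
        split_ifs with h
        · rw [decide_eq_true ⟨hi, h⟩, cond_true, Nat.sub_zero, Nat.one_mul]
        · rw [decide_eq_false fun h' => h h'.2, cond_false, Nat.sub_self, Nat.zero_mul]
  rw [Nat.zero_add] at g1 g3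
  rw [show go k _ 0 1 0 _ = _ from g1, mk4_eq] at a4
  unfold mk4R at a4
  have eN : (nv pt (Nat.succ k)).1 = 2 * (nv pt k).1 := by
    rw [Nat.succ_eq_add_one, nv_succ, h0, Nat.sub_zero]
  have eM : mk pt k 0 = Nat.sub (ones 48 (2 * (nv pt k).1)) (ones 48 (nv pt k).1) := by
    rw [mk_zero, eN]
  have hn : 0 < (nv pt k).1 := by
    clear * -
    induction k with
    | zero => exact Nat.one_pos
    | succ j ih => exact lt_of_lt_of_le ih (n_mono pt j)
  rw [Nat.zero_add, Nat.add_comm 1, eN] at hv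
  rw [eN, eM]
  rw [on_ones, Nat.mul_eq (x := 2)] at a4 g3
  generalize (nv pt k).1 = n at *
  cases hc : Nat.beq (Nat.add (eP p1 q1 p2 q2 p3 q3 p4' q4) (Nat.add (Nat.sub 1 k) e)) 0 <;>
    rw [hc] at a4
  · cases a4
  rw [beq_iff, add0, add0, sub0] at hc
  dsimp only at a4
  rw [fu_eq, mk3_eq, show Nat.shiftLeft (ones 48 (2 * n)) 47 = grd 48 (2 * n) from rfl] at a4
  unfold mk3R at a4
  rw [mk2_eq, lmK_eq, on_ones] at a4
  unfold runC at a4
  dsimp only at a4
  rw [g3] at a4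
  have eW : 96 * n = 48 * (2 * n) := by omega
  have ex : pk (Nat.sub (Nat.pow 2 (96 * n)) 1) (0 + 2 ^ (96 * n * 0) * FastP.pk (96 * n)
      (vecs pt (ones 48 (2 * n)) (bx k L U) 0 k)) (96 * n) =
      nth (vecs pt (ones 48 (2 * n)) (bx k L U) 0 k) := by
    rw [Nat.mul_zero, Nat.pow_zero, Nat.one_mul, Nat.zero_add, ← FastP.pick_pk (96 * n) _
      fun Y hY => eW ▸ (of_bd (hv Y hY)).lt (by omega)]
    funext i
    exact lc _ _
  obtain ⟨m1, m2⟩ := lay_imp hk hc.2.1 (ctx_ok hc.1 hn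
    (by rw [ex]; exact nth_bd _ hv) rfl rfl rfl)
    (fun c h => (Lv.const (by omega) _ c (by omega)).bd fun _ _ => by omega) a4
  obtain ⟨j, rfl⟩ : ∃ j, k = j + 1 := ⟨k - 1, by omega⟩
  unfold Fast.lay at m2
  rw [ex, Nat.zero_add (arV _ _), Nat.zero_add (arC _)] at m2
  simp only [fb_eq, cN_eq, FastP.cB_eq, FastP.bt_eq, FastP.aff_eq, FastP.rowsN_eq, FastP.obst_eq,
    FastP.fin_eq] at m2
  unfold Fast.hd at m1
  simp only [FastP.an_eq, FastP.cB_eq, FastP.bt_eq, Bool.and_eq_true] at m1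
  obtain ⟨⟨⟨b1, b2⟩, b3, b4⟩, b5⟩ := m1
  rw [← eb] at b5
  rw [bx_last, show Nat.sub (ones 48 (2 * n)) (Nat.sub (ones 48 (2 * n)) (ones 48 n)) = ones 48 n
    from Nat.sub_sub_self (ones_le n)]
  exact ⟨hc.2.1, ⟨⟨b1, b2⟩, hok⟩, ⟨⟨b3, b4⟩, b5⟩, m2⟩

theorem leafF_sound {P : Prof} {tb : ℕ → ℕ} {k X r : ℕ} (hk : k ≤ 15)
    (h : leafF P tb k X r = true) : 1 ≤ k ∧ leaf P (tcOf tb) (unp k X) r = true := by
  rw [leafF_eq] at h
  have lL := lv_M X
  have lU := lv_M (Nat.shiftRight X 13)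
  have eb : bx k (Nat.land bM X) (Nat.land bM (Nat.shiftRight X 13)) = unp k X :=
    bx_unp _ _ _ _ fun i hi => by
      rw [low13, low13, low13, low13, lL.val (by omega), lU.val (by omega), Nat.mod_mod,
        Nat.mod_mod]
      exact ⟨rfl, rfl⟩
  rw [← eb]
  exact leaf1_sound hk lL lU (fun _ => Nat.mod_lt _ (by omega)) (fun _ => Nat.mod_lt _ (by omega))
    eb h

end Fast2

end Pool.Agent.MP_34f9b1_co.Sym

/-! The second fast checker: the packed stack. -/

namespace Pool.Agent.MP_34f9b1_co.Sym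

namespace Fast2

open Leaf
open Fast (an cB bt tokF)
open FastP (cB_eq bt_eq)

/-- The box with lower ends `l` and upper ends `u`. -/
def bf : ℕ → (ℕ → ℕ) → (ℕ → ℕ) → Box
  | 0, _, _ => []
  | k + 1, l, u => (l 0, u 0) :: bf k (fun j => l (j + 1)) fun j => u (j + 1)

theorem bf_congr (k : ℕ) : ∀ {l u l' u' : ℕ → ℕ}, (∀ j < k, l j = l' j ∧ u j = u' j) →
    bf k l u = bf k l' u' := by
  induction k with
  | zero => exact fun _ => rfl
  | succ k ih =>
    intro l u l' u' h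
    unfold bf
    rw [(h 0 (Nat.succ_pos k)).1, (h 0 (Nat.succ_pos k)).2,
      ih fun j hj => h (j + 1) (Nat.succ_lt_succ hj)]

theorem bf_len (k : ℕ) : ∀ l u, (bf k l u).length = k := by
  induction k with
  | zero => exact fun _ _ => rfl
  | succ k ih => exact fun _ _ => congrArg Nat.succ (ih _ _)

theorem unp_bf (k : ℕ) : ∀ X, unp k X =
    bf k (fun j => dg 26 X j % 8192) fun j => dg 26 X j / 8192 := by
  rw [unp_eq]
  induction k with
  | zero => exact fun _ => rfl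
  | succ k ih =>
    intro X
    have e : unpR (k + 1) X = (Nat.land 8191 X, Nat.land 8191 (X >>> 13)) :: unpR k (X >>> 26) := rfl
    have k0 : ∀ Y, Nat.land 8191 Y = Y % 8192 := fun Y =>
      (lc _ _).trans (Nat.and_two_pow_sub_one_eq_mod Y 13)
    rw [e, ih, k0, k0, bf, DG.zero', Nat.shiftRight_eq_div_pow, Nat.shiftRight_eq_div_pow]
    simp only [DG.succ']
    congr 2 <;> omega

theorem cond_min (a m : ℕ) : cond (Nat.ble a m) a m = min a m := by
  cases h : Nat.ble a m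
  · have : ¬ a ≤ m := fun h' => by rw [ble_iff.2 h'] at h; cases h
    rw [cond_false]; omega
  · have := ble_iff.1 h
    rw [cond_true]; omega

theorem cond_max (a m : ℕ) : cond (Nat.ble m a) a m = max a m := by
  cases h : Nat.ble m a
  · have : ¬ m ≤ a := fun h' => by rw [ble_iff.2 h'] at h; cases h
    rw [cond_false]; omega
  · have := ble_iff.1 h
    rw [cond_true]; omega

theorem cutU_bf (m k : ℕ) : ∀ l u i, Tree.cutU m (bf k l u) i =
    bf k l fun j => if j < i then u j else min (u j) m := by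
  induction k with
  | zero => exact fun _ _ _ => rfl
  | succ k ih =>
    intro l u i
    unfold bf
    cases i with
    | zero =>
      show (l 0, cond (Nat.ble (u 0) m) (u 0) m) :: Tree.cutU m _ 0 = _
      rw [ih, cond_min]
      rfl
    | succ i =>
      show (l 0, u 0) :: Tree.cutU m _ i = _
      rw [ih]
      simp only [Nat.succ_lt_succ_iff, Nat.succ_pos, if_true]

theorem cutL_bf (m k : ℕ) : ∀ l u i, Tree.cutL m (bf k l u) i =
    bf k (fun j => if j < i + 1 then max (l j) m else l j) u := by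
  induction k with
  | zero => exact fun _ _ _ => rfl
  | succ k ih =>
    intro l u i
    unfold bf
    cases i with
    | zero =>
      show (cond (Nat.ble m (l 0)) (l 0) m, u 0) :: bf k _ _ = _
      rw [cond_max]
      simp only [Nat.succ_lt_succ_iff, Nat.succ_pos, if_true, Nat.not_lt_zero, if_false]
    | succ i =>
      show (cond (Nat.ble m (l 0)) (l 0) m, u 0) :: Tree.cutL m _ i = _
      rw [ih, cond_max]
      simp only [Nat.succ_lt_succ_iff, Nat.succ_pos, if_true]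

theorem deep_bf (k : ℕ) : ∀ l u c, Tree.deep (bf (k + 1) l u) c =
    bf (k + 2) (fun j => if j < k + 1 then l j else 0) fun j => if j < k + 1 then u j else u k := by
  induction k with
  | zero => exact fun _ _ _ => rfl
  | succ k ih =>
    intro l u c
    have e : ∀ x b, Tree.deep (x :: b) c = x :: Tree.deep b x.2 := fun _ _ => rfl
    rw [bf, e, ih, bf.eq_2 _ _ (k + 2)]
    simp only [Nat.succ_lt_succ_iff, Nat.succ_pos, if_true]

theorem lv_of_lt {k X : ℕ} (h : X < 2 ^ (26 * k)) : Lv 26 k X (dg 26 X) := by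
  intro i
  split_ifs with hi
  · rfl
  · rw [DG.eq', Nat.div_eq_of_lt (lt_of_lt_of_le h (Nat.pow_le_pow_right (by omega) (by omega))),
      Nat.zero_mod]

theorem dg13 (X j : ℕ) : dg 26 (X >>> 13) j % 8192 = dg 26 X j / 8192 := by
  rw [DG.eq', DG.eq', Nat.shiftRight_eq_div_pow, Nat.div_div_eq_div_mul, Nat.mul_comm,
    ← Nat.div_div_eq_div_mul]
  omega

theorem cutU_unp {k i m X : ℕ} (hk : k ≤ 15) (hm : m ≤ 4095) (h : X < 2 ^ (26 * k)) :
    cutU i m X < 2 ^ (26 * k) ∧ unp k (cutU i m X) = Tree.cutU m (unp k X) i := by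
  rw [cutU_eq]
  unfold cutUR
  refine ⟨lt_of_le_of_lt (Nat.sub_le _ _) h, ?_⟩
  have l0 := lv_of_lt h
  have l1 := (lv_M (Nat.shiftRight X (Nat.add 13 (Nat.mul 26 i)))).congr
    (g := fun j => dg 26 X (j + i) / 8192) fun j _ => by
      rw [← dg13, ← DG.shr', ← Nat.shiftRight_add]; rfl
  have bX := DG.lt' 26 X
  have l2 := (Lv.lsub (v := 25) l1 (lv_c m (by omega)) (fun j _ => by have := bX (j + i); omega)
    fun _ _ => by omega).mul 8192 fun j _ => by have := bX (j + i); omega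
  rw [cut_eq, ac bG, bG_eq, Nat.shiftLeft_eq', Nat.add_eq (x := 13), Nat.shiftLeft_add,
    Nat.shiftLeft_eq _ 13, Nat.mul_comm _ (2 ^ 13)]
  have l3 : ∀ j, dg 26 ((8192 * lsub 25 (grd 26 16) (Nat.land bM (Nat.shiftRight X (13 + 26 * i)))
      (m * bO)) <<< (26 * i)) j = if j < i then 0 else 8192 * (dg 26 X j / 8192 - m) := fun j => by
    rw [DG.shl']
    split_ifs with hj
    · rfl
    · refine (l2 (j - i)).trans ?_
      beta_reduce
      rw [Nat.sub_add_cancel (by omega)]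
      split_ifs with h2
      · rfl
      · rw [l0 j, if_neg (by omega)]
        omega
  rw [unp_bf, unp_bf, cutU_bf]
  refine bf_congr k fun j _ => ?_
  have := DG.sub' (by omega) j (X := X) fun j => (l3 j).le.trans (by split_ifs <;> omega)
  rw [l3] at this
  refine ⟨(congrArg (· % 8192) this).trans ?_, (congrArg (· / 8192) this).trans ?_⟩ <;>
    split_ifs <;> omega

theorem cutL_unp {k i m X : ℕ} (hk : k ≤ 15) (hi : i < k) (hm : m ≤ 4095) (h : X < 2 ^ (26 * k)) :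
    cutL i m X < 2 ^ (26 * k) ∧ unp k (cutL i m X) = Tree.cutL m (unp k X) i := by
  rw [cutL_eq]
  unfold cutLR
  have eO : Nat.shiftRight bO (Nat.mul 26 (Nat.sub 15 i)) = ones 26 (i + 1) := by
    have := Lv.one (w := 26) (by omega) 16
    rw [← bO_eq, show 16 = i + 1 + (15 - i) by omega] at this
    exact this.shr.ext (by omega) (Lv.one (by omega) _) fun _ _ => rfl
  have l0 := lv_of_lt h
  have bX := DG.lt' 26 X
  have l1 := ((Lv.const (w := 26) (by omega) (i + 1) 8191 (by omega)).land X).congr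
    (g := fun j => dg 26 X j % 8192) fun j _ => by
      rw [Nat.and_comm]; exact Nat.and_two_pow_sub_one_eq_mod _ 13
  have l2 := Lv.lsub (v := 25) (Lv.const (by omega) (i + 1) m (by omega)) l1 (fun _ _ => by omega)
    fun _ _ => by omega
  rw [eO, cut_eq, ac (Nat.shiftLeft _ _)]
  have l3 : Lv 26 k (lsub 25 (grd 26 (i + 1)) (m * ones 26 (i + 1)) (8191 * ones 26 (i + 1) &&& X))
      fun j => if j < i + 1 then m - dg 26 X j % 8192 else 0 := fun j => by
    refine (l2 j).trans ?_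
    beta_reduce
    split_ifs <;> omega
  have l4 := l0.add l3 fun j _ => by have := bX j; split_ifs <;> omega
  refine ⟨l4.lt (by omega), ?_⟩
  rw [unp_bf, unp_bf, cutL_bf]
  refine bf_congr k fun j hj => ?_
  have := l4.val hj
  refine ⟨(congrArg (· % 8192) this).trans ?_, (congrArg (· / 8192) this).trans ?_⟩ <;>
    split_ifs <;> omega

theorem deep_unp {k X Y : ℕ} (h : X < 2 ^ (26 * (k + 1))) (e : Y = Nat.add X (Nat.shiftLeft
    (Nat.land 8191 (Nat.shiftRight X (Nat.sub (Nat.mul 26 (k + 1)) 13)))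
    (Nat.add 13 (Nat.mul 26 (k + 1))))) :
    Y < 2 ^ (26 * (k + 2)) ∧ unp (k + 2) Y = Tree.deep (unp (k + 1) X) 4096 := by
  have e1 : Nat.land 8191 (Nat.shiftRight X (Nat.sub (Nat.mul 26 (k + 1)) 13)) =
      dg 26 X k / 8192 := by
    rw [← dg13, ← low13, ← Nat.shiftRight_add, Nat.sub_eq, Nat.mul_eq,
      show 26 * (k + 1) - 13 = 13 + 26 * k by omega]
    rfl
  have bX := DG.lt' 26 X
  have l1 := Lv.const (w := 26) (by omega) 1 (8192 * (dg 26 X k / 8192)) (by have := bX k; omega)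
  rw [show ones 26 1 = 1 by decide, Nat.mul_one] at l1
  have l2 := (lv_of_lt h).cat l1
  rw [e1, Nat.shiftLeft_eq', Nat.add_eq (x := 13), Nat.shiftLeft_add, Nat.shiftLeft_eq _ 13,
    Nat.mul_comm _ (2 ^ 13)] at e
  rw [show X + (8192 * (dg 26 X k / 8192)) <<< (26 * (k + 1)) = Y from e.symm] at l2
  refine ⟨l2.lt (by omega), ?_⟩
  rw [unp_bf, unp_bf, deep_bf]
  refine bf_congr _ fun j hj => ?_
  rw [l2.val hj]
  split_ifs <;> omega

theorem unp_mod (k X : ℕ) : unp k (X % 2 ^ (26 * k)) = unp k X := by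
  rw [unp_bf, unp_bf]
  refine bf_congr k fun j hj => ?_
  rw [← Nat.and_two_pow_sub_one_eq_mod, show X &&& 2 ^ (26 * k) - 1 = low 26 k X from rfl, DG.low',
    if_pos hj]
  exact ⟨rfl, rfl⟩

theorem decN_succ (f s : ℕ) : decN (f + 1) s = cond (Nat.beq s 0) []
    (unp (Nat.land 15 s) (s >>> 4) :: decN f (s >>> 4 >>> (26 * Nat.land 15 s))) := rfl

theorem shr_lt {s : ℕ} (h : s ≠ 0) (a : ℕ) : s >>> 4 >>> a < s := by
  refine lt_of_le_of_lt (Nat.shiftRight_le _ _) ?_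
  rw [Nat.shiftRight_eq_div_pow]
  omega

theorem decN_eq (f : ℕ) : ∀ g s, s ≤ f → s ≤ g → decN f s = decN g s := by
  induction f with
  | zero =>
    intro g s h _
    obtain rfl : s = 0 := by omega
    cases g <;> rfl
  | succ f ih =>
    intro g s h h'
    rcases Nat.eq_zero_or_pos s with rfl | hs
    · cases g <;> rfl
    obtain ⟨g, rfl⟩ : ∃ g', g = g' + 1 := ⟨g - 1, by omega⟩
    have := shr_lt hs.ne' (26 * Nat.land 15 s)
    rw [decN_succ, decN_succ, ih g _ (by omega) (by omega)]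

theorem dec_cons {s : ℕ} (h : s ≠ 0) :
    dec s = unp (Nat.land 15 s) (s >>> 4) :: dec (s >>> 4 >>> (26 * Nat.land 15 s)) := by
  have h1 := shr_lt h (26 * Nat.land 15 s)
  have h2 : Nat.beq s 0 = false := Bool.eq_false_iff.2 fun h' => h (beq_iff.1 h')
  unfold dec
  rw [decN_eq s (s - 1 + 1) s le_rfl (by omega), decN_succ, h2, cond_false,
    decN_eq (s - 1) _ _ (by omega) le_rfl]

theorem dec_push {k Y : ℕ} (h1 : 1 ≤ k) (hk : k ≤ 15) (hY : Y < 2 ^ (26 * k)) (s : ℕ) :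
    dec (Nat.add k (Nat.shiftLeft (Nat.add Y (Nat.shiftLeft s (Nat.mul 26 k))) 4)) =
      unp k Y :: dec s := by
  simp only [Nat.add_eq, Nat.mul_eq, Nat.shiftLeft_eq', Nat.shiftLeft_eq]
  have e1 : Nat.land 15 (k + (Y + s * 2 ^ (26 * k)) * 2 ^ 4) = k :=
    ((lc _ _).trans (Nat.and_two_pow_sub_one_eq_mod _ 4)).trans (by omega)
  have e2 : (k + (Y + s * 2 ^ (26 * k)) * 2 ^ 4) >>> 4 = Y + s * 2 ^ (26 * k) := by
    rw [Nat.shiftRight_eq_div_pow]; omega
  rw [dec_cons (by omega), e1, e2, ← unp_mod, Nat.add_mul_mod_self_right, Nat.mod_eq_of_lt hY,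
    Nat.shiftRight_eq_div_pow, Nat.add_mul_div_right _ _ (Nat.two_pow_pos _), Nat.div_eq_of_lt hY,
    Nat.zero_add]

theorem eqB_refl (b : Box) : Tree.eqB b b = true := by
  induction b with
  | nil => rfl
  | cons x t ih =>
    show (Nat.beq x.1 x.1 && Nat.beq x.2 x.2 && Tree.eqB t t) = true
    rw [Nat.beq_refl, Nat.beq_refl, ih]; rfl

theorem eqS_refl (s : List Box) : Tree.eqS s s = true := by
  induction s with
  | nil => rfl
  | cons x t ih =>
    show (Tree.eqB x x && Tree.eqS t t) = true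
    rw [eqB_refl, ih]; rfl

section

variable {lf2 : ℕ → ℕ → ℕ → Bool} {lf : Box → ℕ → Bool}
  (H : ∀ k X r, k ≤ 15 → lf2 k X r = true → 1 ≤ k ∧ lf (unp k X) r = true)

include H

theorem tok_imp {κ : ℕ → Bool} {κ' : List Box → Bool} (e : ∀ s, κ s = true → κ' (dec s) = true)
    (fuel : ℕ) : ∀ k X s r, k ≤ 15 → X < 2 ^ (26 * k) → tok lf2 fuel k X s r κ = true →
      1 ≤ k ∧ tokF lf fuel (unp k X) (dec s) r κ' = true := by
  induction fuel with
  | zero => exact fun _ _ _ _ _ _ h => absurd h Bool.false_ne_true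
  | succ f ih =>
    intro k X s r hk hX h
    have h1 : tokS lf2 (tok lf2 f) k X s r κ = true := h
    unfold tokF at ih ⊢
    dsimp only
    generalize @Nat.rec (fun _ => Box → List Box → ℕ → (List Box → Bool) → Bool) _ _ f = R at ih ⊢
    rw [tokS_eq] at h1
    unfold tokSR at h1
    rw [rare_eq] at h1
    unfold rareR at h1
    unfold Fast.tok1
    rw [fld_and 15 _ 2 r (by decide), shr_and _ 6 r, show Nat.shiftRight 262143 6 = 4095 by decide,
      lc 3, lc 7] at h1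
    rw [FastP.cutU_eq, FastP.cutL_eq, FastP.len_eq]
    have hm := land_le (Nat.shiftRight r 6) 4095
    generalize Nat.land (Nat.shiftRight r 2) 15 = i at h1 ⊢
    generalize Nat.land (Nat.shiftRight r 6) 4095 = m at h1 hm ⊢
    have e3 : Nat.land r 3 = r % 4 := Nat.and_two_pow_sub_one_eq_mod r 2
    have e7 : Nat.land r 7 = r % 8 := Nat.and_two_pow_sub_one_eq_mod r 3
    have e2 : bt r 2 = Nat.beq (r / 4 % 2) 1 := by
      unfold bt
      rw [Nat.shiftRight_eq, Nat.shiftRight_eq_div_pow, Nat.land_eq, Nat.and_one_is_mod]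
    rw [e3, e7] at h1
    rw [e3, e2]
    obtain ⟨u1, u2⟩ := cutU_unp (i := i) hk hm hX
    have h8 : r % 8 = r % 4 + 4 * (r / 4 % 2) := by omega
    rw [h8] at h1
    have h4 : r % 4 = 0 ∨ r % 4 = 1 ∨ r % 4 = 2 ∨ r % 4 = 3 := by omega
    have h2 : r / 4 % 2 = 0 ∨ r / 4 % 2 = 1 := by omega
    have op0 : an (Nat.ble (Nat.succ i) k) (tok lf2 f k (cutU i m X) (Nat.add k (Nat.shiftLeft
        (Nat.add (cutL i m X) (Nat.shiftLeft s (Nat.mul 26 k))) 4)) (Nat.shiftRight r 18) κ) = true →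
        1 ≤ k ∧ R (Tree.cutU m (unp k X) i) (Tree.cutL m (unp k X) i :: dec s)
          (Nat.shiftRight r 18) κ' = true := fun h => by
      rw [an_iff, ble_iff] at h
      obtain ⟨l1, l2⟩ := cutL_unp hk h.1 hm hX
      have := ih _ _ _ _ hk u1 h.2
      rwa [u2, dec_push this.1 hk l1, l2] at this
    have op1 : an (Nat.ble (Nat.succ i) k) (an (Nat.ble 8388609 (arL (unp k (cutL i m X))))
        (tok lf2 f k (cutU i m X) s (Nat.shiftRight r 18) κ)) = true →
        1 ≤ k ∧ an (Nat.ble 8388609 (arL (Tree.cutL m (unp k X) i)))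
          (R (Tree.cutU m (unp k X) i) (dec s) (Nat.shiftRight r 18) κ') = true := fun h => by
      rw [an_iff, an_iff, ble_iff] at h
      have := ih _ _ _ _ hk u1 h.2.2
      rw [← (cutL_unp hk h.1 hm hX).2, ← u2]
      exact ⟨this.1, an_iff.2 ⟨h.2.1, this.2⟩⟩
    have op2 : an (Nat.beq (Nat.add (Nat.sub 1 k) (Nat.sub k 14)) 0) (tok lf2 f (Nat.succ k)
        (Nat.add X (Nat.shiftLeft (Nat.land 8191 (Nat.shiftRight X (Nat.sub (Nat.mul 26 k) 13)))
        (Nat.add 13 (Nat.mul 26 k)))) s (Nat.shiftRight r 2) κ) = true →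
        1 ≤ k ∧ an (Nat.ble (Nat.succ (unp k X).length) 15)
          (R (Tree.deep (unp k X) 4096) (dec s) (Nat.shiftRight r 2) κ') = true := fun h => by
      rw [an_iff, beq_iff, add0, sub0, sub0] at h
      obtain ⟨⟨a1, a2⟩, a3⟩ := h
      obtain ⟨j, rfl⟩ : ∃ j, k = j + 1 := ⟨k - 1, by omega⟩
      obtain ⟨d1, d2⟩ := deep_unp hX rfl
      have := (ih _ _ _ _ (by omega) d1 a3).2
      rw [d2] at this
      refine ⟨a1, an_iff.2 ⟨ble_iff.2 ?_, this⟩⟩
      rw [unp_bf, bf_len]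
      omega
    rcases h4 with h4 | h4 | h4 | h4 <;> rcases h2 with h2 | h2 <;> rw [h4, h2] at h1 ⊢
    · exact op0 h1
    · exact op0 h1
    · exact op1 h1
    · exact op1 h1
    · exact op2 h1
    · exact op2 h1
    · have h3 : an (Nat.ble 8388609 (arL (unp k X))) (κ s) = true := h1
      rw [an_iff] at h3
      refine ⟨Nat.pos_of_ne_zero fun h0 => ?_, an_iff.2 ⟨h3.1, e s h3.2⟩⟩
      rw [h0, unp_bf] at h3
      exact absurd h3.1 Bool.false_ne_true
    · have h3 : an (lf2 k X (Nat.shiftRight r 3)) (κ s) = true := h1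
      rw [an_iff] at h3
      exact ⟨(H _ _ _ hk h3.1).1, an_iff.2 ⟨(H _ _ _ hk h3.1).2, e s h3.2⟩⟩

theorem runP_sound (e : ℕ) (ts : List ℕ) : ∀ s, runP lf2 e ts s = true →
    Tree.run lf (dec e) ts (dec s) = true := by
  rw [runP_eq]
  induction ts with
  | nil =>
    intro s h
    rw [show s = e from beq_iff.1 h]
    exact eqS_refl _
  | cons t ts ih =>
    intro s h
    have e1 : Nat.land (Nat.sub (Nat.pow 2 (Nat.mul 26 (Nat.land 15 s))) 1) (Nat.shiftRight s 4) =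
        s >>> 4 % 2 ^ (26 * Nat.land 15 s) :=
      (lc _ _).trans (Nat.and_two_pow_sub_one_eq_mod _ _)
    have h1 : tok lf2 200 (Nat.land 15 s) (Nat.land (Nat.sub (Nat.pow 2 (Nat.mul 26 (Nat.land 15 s)))
      1) (Nat.shiftRight s 4)) (s >>> 4 >>> (26 * Nat.land 15 s)) t (runPR lf2 e ts) = true := h
    rw [e1] at h1
    obtain ⟨a1, a2⟩ := tok_imp H ih 200 _ _ _ _ Nat.and_le_left
      (Nat.mod_lt _ (Nat.two_pow_pos _)) h1
    rw [unp_mod, FastP.tok_eq] at a2
    rw [dec_cons (s := s) fun h0 => by rw [h0] at a1; exact absurd a1 (by decide)]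
    exact a2

/-- A checked run from the root box to the empty stack. -/
theorem RunOK.good {G : Box → Prop}
    (hG : ∀ e ts st, Tree.run lf e ts st = true → (∀ b ∈ e, G b) → ∀ b ∈ st, G b)
    (h : RunOK lf2 536870913 0) : G [(0, 4096)] := by
  refine h (fun s => ∀ b ∈ dec s, G b) (fun e ts s hr => hG _ ts _ (runP_sound H e ts s hr))
    (fun b hb => absurd hb List.not_mem_nil) _ ?_
  rw [dec_cons (by decide)]
  exact List.mem_cons.2 (Or.inl (by decide +kernel))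

end

/-- Soundness of the second fast checker. -/
theorem good_of {P : Prof} {tb : ℕ → ℕ} {G : Box → Prop}
    (hG : ∀ e ts st, Tree.run (leaf P (tcOf tb)) e ts st = true → (∀ b ∈ e, G b) → ∀ b ∈ st, G b)
    (h : RunOK (leafF P tb) 536870913 0) : G [(0, 4096)] :=
  h.good (fun _ _ _ hk hl => leafF_sound hk hl) hG

end Fast2

end Pool.Agent.MP_34f9b1_co.Sym
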