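namespace Pool.Agent.MP_34f9b1_co.Sym

/-- Digit `i` of `X` in base `2 ^ w`. -/
def dg (w X i : Nat) : Nat := Nat.land (Nat.shiftRight X (Nat.mul w i)) (Nat.pred (Nat.pow 2 w))

/-- `n` lanes equal to one. -/
def ones (w n : Nat) : Nat := Nat.div (Nat.pred (Nat.pow 2 (Nat.mul w n))) (Nat.pred (Nat.pow 2 w))

/-- Guard bits of `n` lanes. -/
def grd (w n : Nat) : Nat := Nat.shiftLeft (ones w n) (Nat.pred w)

/-- Lanewise test `Y ≤ X`. -/
def lge (G X Y : Nat) : Bool := Nat.beq (Nat.land (Nat.sub (Nat.add X G) Y) G) G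

/-- Lanewise truncated difference from the guarded difference `d`; `v` is the lane width less one. -/
def lcut (v G d : Nat) : Nat :=
  Nat.land d (Nat.sub (Nat.land d G) (Nat.shiftRight (Nat.land d G) v))

/-- Lanewise truncated difference. -/
def lsub (v G X Y : Nat) : Nat := lcut v G (Nat.sub (Nat.add X G) Y)

/-- Lanewise minimum. -/
def lmin (v G X Y : Nat) : Nat := Nat.sub X (lsub v G X Y)

/-- Lanewise maximum. -/
def lmax (v G X Y : Nat) : Nat := Nat.add Y (lsub v G X Y)

/-- Append a copy of the lanes from `s` on after lane `n`. -/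
def dup (w n s X : Nat) : Nat :=
  Nat.add X (Nat.shiftLeft (Nat.shiftRight X (Nat.mul w s)) (Nat.mul w n))

/-- The lanes below `k`. -/
def low (w k X : Nat) : Nat := Nat.land X (Nat.pred (Nat.pow 2 (Nat.mul w k)))

/-- Evaluate `x` before passing it on. -/
def frc {α : Type} (x : Nat) (f : Nat → α) : α :=
  Nat.rec (motive := fun _ => α) (f 0) (fun n _ => f n) (Nat.succ x)

end Pool.Agent.MP_34f9b1_co.Sym
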