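namespace Pool.Agent.MP_34f9b1_co.Sym

/-- Four lines `(a - b * y) / 1024` bounding chord lengths from below. -/
structure Prof where
  a1 : Nat
  b1 : Nat
  a2 : Nat
  b2 : Nat
  a3 : Nat
  b3 : Nat
  a4 : Nat
  b4 : Nat

end Pool.Agent.MP_34f9b1_co.Sym
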