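import Mathlib.Analysis.Convex.Topology
import Mathlib.Analysis.InnerProductSpace.PiL2
import Pool.Agent.MP_34f9b1_co.Sym.Prof
import Mathlib.Analysis.LocallyConvex.Separation
import Mathlib.MeasureTheory.Integral.Bochner.Set
import Mathlib.MeasureTheory.Function.Floor
import Mathlib.MeasureTheory.Measure.Lebesgue.Basic

-- ======== part 0: formerly Pool.Agent.MP_34f9b1_co.Sym.Defs
section MrgPart0

namespace Pool.Agent.MP_34f9b1_co.Sym

/-- Normalised symmetric body: inside the unit square and containing the rotated polar. -/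
structure Nrm (K : Set (ℝ × ℝ)) : Prop where
  cvx : Convex ℝ K
  cpt : IsCompact K
  sym : ∀ x y, (x, y) ∈ K → (-x, -y) ∈ K
  box : ∀ x y, (x, y) ∈ K → x ≤ 1 / 2 ∧ y ≤ 1 / 2
  rad : ∀ x y : ℝ, (∀ p ∈ K, |x * p.2 - y * p.1| ≤ 1 / 4) → (x, y) ∈ K

/-- All intercepts are at least one. -/
def Prof.ok (P : Prof) : Prop := 1024 ≤ P.a1 ∧ 1024 ≤ P.a2 ∧ 1024 ≤ P.a3 ∧ 1024 ≤ P.a4

/-- One line of a profile, homogenised. -/
noncomputable def ln (α β : ℕ) (a y : ℝ) : ℝ := (α * (1 - a) - β * y) / 1024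

/-- Lower bound for the horizontal room of a piece of size `a` centred at height `± y`. -/
noncomputable def Tf (P : Prof) (a y : ℝ) : ℝ :=
  a + min (min (ln P.a1 P.b1 a y) (ln P.a2 P.b2 a y)) (min (ln P.a3 P.b3 a y) (ln P.a4 P.b4 a y))

/-- Signed distance of the strip `[p, p + h]` from the axis. -/
noncomputable def zz (p h : ℝ) : ℝ := max p (-p - h)

/-- Room of a piece of size `a` in a strip with parameter `z`. -/
noncomputable def Tz (P : Prof) (a z : ℝ) : ℝ := Tf P a (max 0 (z + a / 2))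

/-- Height of the centre of a piece of size `a` in the strip `[p, p + h]`. -/
noncomputable def yc (p h a : ℝ) : ℝ := max (p + a / 2) (min 0 (p + h - a / 2))

/-- The horizontal chords of `K` are bounded below by the profile. -/
def RowP (P : Prof) (K : Set (ℝ × ℝ)) : Prop :=
  ∀ η, 0 ≤ η → η ≤ 1 / 2 → ∃ x x', (x, η) ∈ K ∧ (-x', η) ∈ K ∧ Tf P 0 η ≤ x + x'

/-- `E a y` is the right end of the room of a piece of size `a` at height `y`,
`-E a (-y)` its left end. -/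
structure Ext (P : Prof) (E : ℝ → ℝ → ℝ) : Prop where
  e1 : ∀ a y, 0 ≤ a → |y| ≤ (1 - a) / 2 → Tf P a |y| ≤ E a y + E a (-y)
  e2 : ∀ a y, 0 ≤ a → |y| ≤ (1 - a) / 2 → E a y ≤ 1 / 2
  e3 : ∀ a a' y l, 0 ≤ a' → a' ≤ a → |y| ≤ (1 - a) / 2 → 0 ≤ l → l ≤ 1 →
    (1 - l) / 2 + l * E a y ≤ E a' (l * y)
  e4 : ∀ a y, 0 ≤ a → |y| ≤ (1 - a) / 2 → a / 2 ≤ E a y

/-- A placed piece: size and centre. -/
structure Pc where
  a : ℝ
  x : ℝ
  y : ℝ

/-- Admissible position. -/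
def In (E : ℝ → ℝ → ℝ) (s : Pc) : Prop :=
  |s.y| ≤ (1 - s.a) / 2 ∧ s.a / 2 - E s.a (-s.y) ≤ s.x ∧ s.x ≤ E s.a s.y - s.a / 2

/-- The circumscribed squares do not overlap. -/
def Dis (s t : Pc) : Prop :=
  s.x + s.a / 2 ≤ t.x - t.a / 2 ∨ t.x + t.a / 2 ≤ s.x - s.a / 2 ∨
    s.y + s.a / 2 ≤ t.y - t.a / 2 ∨ t.y + t.a / 2 ≤ s.y - s.a / 2

/-- The sizes `l` can be packed inside the region `Q`. -/
def Pk (E : ℝ → ℝ → ℝ) (Q : Pc → Prop) (l : List ℝ) : Prop :=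
  ∃ S : List Pc, (S.map Pc.a).Perm l ∧ S.Pairwise Dis ∧ ∀ s ∈ S, In E s ∧ Q s

/-- Above the level `t`. -/
def Ab (t : ℝ) (s : Pc) : Prop := t ≤ s.y - s.a / 2

/-- Below the level `q`. -/
def Be (q : ℝ) (s : Pc) : Prop := s.y + s.a / 2 ≤ q

/-- Right of the wall `w`. -/
def Rt (w : ℝ) (s : Pc) : Prop := w ≤ s.x - s.a / 2

/-- Left of the wall `w`. -/
def Lf (w : ℝ) (s : Pc) : Prop := s.x + s.a / 2 ≤ w

/-- Inside the horizontal strip `[p, q]`. -/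
def Strip (p q : ℝ) (s : Pc) : Prop := Ab p s ∧ Be q s

/-- Above `t` or below `-b`. -/
def Out (t b : ℝ) (s : Pc) : Prop := Ab t s ∨ Be (-b) s

/-- Separated regions. -/
def Sep (Q R : Pc → Prop) : Prop := ∀ s t, Q s → R t → Dis s t

/-- Non-increasing list of nonnegative sizes. -/
def Srt (l : List ℝ) : Prop := l.Pairwise (fun x y => y ≤ x) ∧ ∀ x ∈ l, 0 ≤ x

/-- Sum of squares. -/
noncomputable def sqs (l : List ℝ) : ℝ := (l.map fun x => x ^ 2).sum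

/-- Every sorted list of total area at most one half can be packed. -/
def PackP (P : Prof) : Prop :=
  ∀ E, Ext P E → ∀ l, Srt l → sqs l ≤ 1 / 2 → Pk E (fun _ => True) l

/-- Contiguous placement of a list in the strip `[p, p + h]`, starting at abscissa `x`. -/
def Line (E : ℝ → ℝ → ℝ) (p h : ℝ) : ℝ → List ℝ → Prop
  | _, [] => True
  | x, a :: m => In E ⟨a, x + a / 2, yc p h a⟩ ∧ Line E p h (x + a) m

/-- Some contiguous placement exists. -/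
def Feas (E : ℝ → ℝ → ℝ) (p h : ℝ) (l : List ℝ) : Prop := ∃ m x, List.Perm m l ∧ Line E p h x m

/-- A family of slots inside `Q` already holding `ex`: further sorted pieces of size at most `m`
are accepted one by one, and when `a` is refused the accepted area `s` satisfies `L a s`. -/
def MS (E : ℝ → ℝ → ℝ) (Q : Pc → Prop) (ex : List ℝ) (m : ℝ) (L : ℝ → ℝ → Prop) : Prop :=
  ∃ F : List ℝ → Prop, F [] ∧ (∀ l, Srt l → (∀ x ∈ l, x ≤ m) → F l → Pk E Q (ex ++ l)) ∧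
    ∀ l a, Srt (l ++ [a]) → (∀ x ∈ l ++ [a], x ≤ m) → F l → F (l ++ [a]) ∨ L a (sqs l)

/-- The area `s` dominates that of pieces of size at least `a` and total length above `D a`. -/
def Fr (D : ℝ → ℝ) (a s : ℝ) : Prop :=
  ∃ r : List ℝ, (∀ x ∈ r, a ≤ x) ∧ D a < r.sum ∧ sqs r ≤ s

/-- Sum of two forced areas. -/
def Plus (L L' : ℝ → ℝ → Prop) (a s : ℝ) : Prop := ∃ s1 s2, s1 + s2 ≤ s ∧ L a s1 ∧ L' a s2

/-- `C` bounds the two-sided rule for the followers `fs`, after partial sum `S`. -/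
def CB (P : Prof) (T1 z C : ℝ) : ℝ → List ℝ → Prop
  | _, [] => True
  | S, x :: fs => C ≤ T1 + Tz P x z - (S + x) ∧ CB P T1 z C (S + x) fs

/-- Residual length of a full row. -/
noncomputable def DB (P : Prof) (p h S C ht a : ℝ) : ℝ :=
  min (min C ((Tz P h (zz p h) + Tz P a (zz p h)) / 2))
    ((Tz P h (zz p h) + Tz P ht (zz p h) + a) / 2) - S - a

/-- Residual length of a full row for the one-sided insertion rule. -/
noncomputable def DC (P : Prof) (p h S a : ℝ) : ℝ := Tz P a (zz p h) - S - 2 * a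

/-- Residual length of a fresh row of height `h` at level `t`. -/
noncomputable def DT (P : Prof) (t h a : ℝ) : ℝ :=
  min ((Tz P h (zz t h) + Tz P a (zz t h)) / 2) (Tz P h (zz t h) + a / 2) - h - a

/-- `DT` at a lattice point. -/
noncomputable def DL (P : Prof) (N t h a : ℕ) : ℝ :=
  DT P ((t : ℝ) / N - 1 / 2) ((h : ℝ) / N) ((a : ℝ) / N)

/-- Vertex values of the tangent to the square on class `j`. -/
noncomputable def cc (N j e : ℕ) : ℝ :=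
  if j = 0 then 0 else (((j : ℝ) + e) ^ 2 - 1 / 4) / (N : ℝ) ^ 2

/-- Valid vertex values `g bit e e'` on the cell `(τ, j, j')`. -/
def GOK (P : Prof) (N τ j j' : ℕ) (g : ℕ → ℕ → ℕ → ℝ) : Prop :=
  (∀ i ≤ 1, ∀ e ≤ 1, ∀ e' ≤ 1, g i e e' ≤ 0) ∨
  (∃ D0 : ℝ, ∀ i ≤ 1, ∀ e ≤ 1, ∀ e' ≤ 1, D0 ≤ DL P N (τ + i) (j + e) (j' + e') ∧
    g i e e' ≤ (j' : ℝ) / N * DL P N (τ + i) (j + e) (j' + e') + D0 * ((e' : ℝ) / N)) ∨
  (∃ (n : ℕ) (σ a0 : ℝ), 0 ≤ σ ∧ ∀ i ≤ 1, ∀ e ≤ 1, ∀ e' ≤ 1,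
    g i e e' ≤ min (σ * DL P N (τ + i) (j + e) (j' + e') - n * σ ^ 2 / 4)
      ((n + 1) * (2 * a0 * (((j' : ℝ) + e') / N) - a0 ^ 2)))

/-- All cells are valid. -/
def GV (P : Prof) (N J : ℕ) (g : ℕ → ℕ → ℕ → ℕ → ℕ → ℕ → ℝ) : Prop :=
  ∀ τ < N, ∀ j ≤ J, ∀ j' ≤ j, GOK P N τ j j' (g τ j j')

/-- Bellman inequalities for opening a row. -/
def Up (N J : ℕ) (g : ℕ → ℕ → ℕ → ℕ → ℕ → ℕ → ℝ) (X : ℕ → ℕ → ℕ → ℝ) : Prop :=
  ∀ τ < N, ∀ j ≤ J, ∀ j' ≤ j, ∀ i ≤ 1, ∀ e ≤ 1, ∀ e' ≤ 1, τ + i + (j + e) ≤ N →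
    X (τ + i) j e ≤ cc N j e + g τ j j' i e e' + X (τ + i + (j + e)) j' e'

/-- Terminal inequalities. -/
def Sw (N J : ℕ) (X : ℕ → ℕ → ℕ → ℝ) (Z : ℕ → ℕ → ℝ) : Prop :=
  ∀ t ≤ N, ∀ j ≤ J, ∀ e ≤ 1, N ≤ t + (j + e) → X t j e ≤ Z j e

/-- The terminal values `Z0`, `Z1` lie below the one-sided table on `[x0, x0 + c]`. -/
def Itp (J x0 c : ℕ) (V : ℕ → ℕ → ℕ → ℝ) (Z0 Z1 : ℕ → ℕ → ℝ) : Prop :=
  ∀ x ≤ c, ∀ j ≤ J, ∀ e ≤ 1, ∀ e' ≤ 1,
    c * Z0 j e + x * (Z1 j e' - Z0 j e') ≤ c * V (x0 + x) j e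

end Pool.Agent.MP_34f9b1_co.Sym

end MrgPart0

-- ======== part 1: formerly Pool.Agent.MP_34f9b1_co.Sym.Spec
section MrgPart1

namespace Pool.Agent.MP_34f9b1_co.Sym

/-- GEO1: linear normalisation of a centrally symmetric figure. -/
def Geo1Stmt : Prop :=
  ∀ (F : Set (EuclideanSpace ℝ (Fin 2))) (c : EuclideanSpace ℝ (Fin 2)), IsCompact F → Convex ℝ F →
    (interior F).Nonempty → (∀ x ∈ F, c + c - x ∈ F) →
    ∃ (K : Set (ℝ × ℝ)) (L : EuclideanSpace ℝ (Fin 2) ≃ₗ[ℝ] ℝ × ℝ), Nrm K ∧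
      ∀ x, x ∈ F ↔ L (x - c) ∈ K

/-- GEO3: the room function of a normalised body. -/
def Geo3Stmt : Prop :=
  ∀ (P : Prof) (K : Set (ℝ × ℝ)), Nrm K → RowP P K → ∃ E, Ext P E ∧
    ∀ s : Pc, 0 ≤ s.a → In E s → ∀ p ∈ K, (s.x + s.a * p.1, s.y + s.a * p.2) ∈ K

/-- GEO2 for a list of profiles: rows or columns obey one of them. -/
def Cover (Ps : List Prof) : Prop :=
  ∀ K, Nrm K → ∃ P ∈ Ps, RowP P K ∨ RowP P {p | p.swap ∈ K}

/-- GLUE: homothets of a symmetric figure with total area at most one half. -/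
def HomStmt : Prop :=
  ∀ (F : Set (EuclideanSpace ℝ (Fin 2))) (c : EuclideanSpace ℝ (Fin 2)), IsCompact F → Convex ℝ F →
    (interior F).Nonempty → (∀ x ∈ F, c + c - x ∈ F) →
    ∀ (n : ℕ) (r : Fin n → ℝ), (∀ i, 0 < r i) → ∑ i, r i ^ 2 ≤ 1 / 2 →
    ∃ z : Fin n → EuclideanSpace ℝ (Fin 2), (∀ i, (fun p => z i + r i • p) '' F ⊆ F) ∧
      ∀ i j, i ≠ j → Disjoint (interior ((fun p => z i + r i • p) '' F))
        (interior ((fun p => z j + r j • p) '' F))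

/-- GLUE. -/
def GlueStmt : Prop :=
  Geo1Stmt → Geo3Stmt → ∀ Ps, Cover Ps → (∀ P ∈ Ps, PackP P) → HomStmt

/-- PK: structural facts on packings and slot families. -/
structure PkStmt : Prop where
  mono : ∀ {E Q Q' l}, (∀ s, Q s → Q' s) → Pk E Q l → Pk E Q' l
  sub : ∀ {E Q l l'}, List.Subperm l' l → Pk E Q l → Pk E Q l'
  union : ∀ {E Q R l l'}, Sep Q R → Pk E Q l → Pk E R l' →
    Pk E (fun s => Q s ∨ R s) (l ++ l')
  flip : ∀ {E b l}, Pk E (Ab b) l → Pk E (Be (-b)) l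
  ext_mirror : ∀ {P E}, Ext P E → Ext P fun a y => E a (-y)
  mirror : ∀ {E l}, Pk (fun a y => E a (-y)) (fun _ => True) l → Pk E (fun _ => True) l
  ms_nil : ∀ {E Q m}, MS E Q [] m fun _ s => 0 ≤ s
  ms_mono : ∀ {E Q Q' ex ex' m m' L L'}, (∀ s, Q s → Q' s) → List.Subperm ex' ex → m' ≤ m →
    (∀ a s, 0 ≤ a → a ≤ m' → L a s → L' a s) → MS E Q ex m L → MS E Q' ex' m' L'
  ms_union : ∀ {E Q R ex ex' m L L'}, Sep Q R → MS E Q ex m L → MS E R ex' m L' →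
    MS E (fun s => Q s ∨ R s) (ex ++ ex') m (Plus L L')
  ms_run : ∀ {E Q O ex m L l}, Sep Q O → MS E Q ex m L → Srt l → (∀ x ∈ l, x ≤ m) →
    Pk E (fun s => Q s ∨ O s) (ex ++ l) ∨
      ∃ l1 a l2, l = l1 ++ a :: l2 ∧ L a (sqs l1) ∧ ¬ Pk E O (a :: l2)
  area0 : ∀ {D a s}, Fr D a s → 0 ≤ s
  area1 : ∀ {D a s lo d d0}, Fr D a s → 0 ≤ lo → lo ≤ a → d ≤ D a → d0 ≤ d →
    lo * d + d0 * (a - lo) ≤ s
  area2 : ∀ {D a s d} (n : ℕ) (σ a0 : ℝ), Fr D a s → 0 ≤ a → 0 ≤ σ → d ≤ D a →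
    min (σ * d - n * σ ^ 2 / 4) ((n + 1) * (2 * a0 * a - a0 ^ 2)) ≤ s

/-- ROW: the slots. -/
structure RowStmt : Prop where
  tz_le : ∀ {P E p h a}, Ext P E → -1 / 2 ≤ p → p + h ≤ 1 / 2 → 0 ≤ a → a ≤ h →
    Tz P a (zz p h) ≤ 1
  feasB : ∀ {P E p h fs C}, P.ok → Ext P E → -1 / 2 ≤ p → p + h ≤ 1 / 2 → Srt (h :: fs) →
    CB P (Tz P h (zz p h)) (zz p h) C h fs → (fs ≠ [] → h + fs.sum ≤ C) → Feas E p h (h :: fs)
  feasC : ∀ {P E p h fs a}, P.ok → Ext P E → -1 / 2 ≤ p → p + h ≤ 1 / 2 → Srt (h :: fs ++ [a]) →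
    Feas E p h (h :: fs) → h + fs.sum + 2 * a ≤ Tz P a (zz p h) → Feas E p h (h :: fs ++ [a])
  rowB : ∀ {P E p h fs C m ht}, P.ok → Ext P E → -1 / 2 ≤ p → p + h ≤ 1 / 2 → Srt (h :: fs) →
    (∀ x ∈ h :: fs, m ≤ x) → m ≤ ht → CB P (Tz P h (zz p h)) (zz p h) C h fs →
    Feas E p h (h :: fs) →
    MS E (Strip p (p + h)) (h :: fs) m
      (Fr fun a => max (DB P p h (h + fs.sum) C ht a) (DC P p h (h + fs.sum) a))
  rowS : ∀ {P E p h w fs m} (cap : ℝ → ℝ), Ext P E → -1 / 2 ≤ p → p + h ≤ 1 / 2 → 0 ≤ h →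
    Srt fs → (∀ x ∈ fs, m ≤ x ∧ x ≤ h) → m ≤ h →
    (fs ≠ [] → w + fs.sum ≤ E h (yc p h h) ∧ fs.sum ≤ Tz P h (zz p h)) →
    (∀ a, 0 ≤ a → a ≤ m → w + cap a ≤ E a (yc p h a)) →
    MS E (fun s => Strip p (p + h) s ∧ Rt w s) fs m
      (Fr fun a => min (cap a) (Tz P h (zz p h)) - fs.sum - a)
  blk : ∀ {P E q k m}, Ext P E → -1 / 2 ≤ q → q + k ≤ 1 / 2 → 0 ≤ k →
    MS E (fun s => Strip q (q + k) s ∧ Lf (k - E k (-(q + k / 2))) s) [k] m fun _ s => 0 ≤ s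
  side : ∀ {P E q k}, Ext P E → -1 / 2 ≤ q → q + k ≤ 1 / 2 → 0 ≤ k →
    Tz P k (zz q k) / 2 ≤ E k (-(q + k / 2)) ∨ Tz P k (zz q k) / 2 ≤ E k (q + k / 2)
  cap1 : ∀ {P E q k p h a}, Ext P E → -1 / 2 ≤ p → p + h ≤ 1 / 2 → 0 ≤ a → a ≤ h →
    Tz P k (zz q k) / 2 ≤ E k (-(q + k / 2)) →
    (k - E k (-(q + k / 2))) + (Tz P k (zz q k) / 2 + Tz P a (zz p h) - 1 / 2 - k) ≤
      E a (yc p h a)
  cap2 : ∀ {P E q k p h a l}, Ext P E → -1 / 2 ≤ q → q + k ≤ 1 / 2 → -1 / 2 ≤ p →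
    p + h ≤ 1 / 2 → 0 ≤ a → a ≤ h → a ≤ k → 0 ≤ l → l ≤ 1 →
    max 0 (zz p h + h / 2) ≤ l * |q + k / 2| → Tz P k (zz q k) / 2 ≤ E k (-(q + k / 2)) →
    (k - E k (-(q + k / 2))) + ((1 - l) / 2 + (1 + l) * Tz P k (zz q k) / 2 - k) ≤
      E a (yc p h a)

/-- TAIL: next-fit rows above `t`, then below `-b`. -/
def TailStmt : Prop :=
  ∀ (P : Prof) (N J x0 c : ℕ) (g : ℕ → ℕ → ℕ → ℕ → ℕ → ℕ → ℝ) (V U0 U1 : ℕ → ℕ → ℕ → ℝ)
    (Z0 Z1 : ℕ → ℕ → ℝ), P.ok → 0 < N → 0 < c → x0 + c ≤ N → GV P N J g →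
    Up N J g V → Sw N J V (cc N) → Up N J g U0 → Sw N J U0 Z0 → Up N J g U1 → Sw N J U1 Z1 →
    Itp J x0 c V Z0 Z1 →
    ∀ E, Ext P E → ∀ (t b a : ℝ) (l : List ℝ) (τ j : ℕ), Srt (a :: l) → j ≤ J →
      (j : ℝ) ≤ N * a → N * a ≤ j + 1 → τ < N → (τ : ℝ) ≤ N * (t + 1 / 2) →
      N * (t + 1 / 2) ≤ τ + 1 → (x0 : ℝ) ≤ N * (b + 1 / 2) → N * (b + 1 / 2) ≤ x0 + c → -b ≤ t →
      ∀ μ0 μ1 lam κ : ℝ,
        (∀ i ≤ 1, μ0 - lam * ((τ : ℝ) + i) ≤ U0 (τ + i) j 0 ∧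
          μ1 - lam * ((τ : ℝ) + i) ≤ U0 (τ + i) j 1 ∧
          μ0 - lam * ((τ : ℝ) + i) - κ * c ≤ U1 (τ + i) j 0 ∧
          μ1 - lam * ((τ : ℝ) + i) - κ * c ≤ U1 (τ + i) j 1) →
        Pk E (Out t b) (a :: l) ∨
          μ0 + (μ1 - μ0) * (N * a - j) - lam * (N * (t + 1 / 2)) - κ * (N * (b + 1 / 2) - x0) ≤
            sqs (a :: l)

end Pool.Agent.MP_34f9b1_co.Sym

end MrgPart1

-- ======== part 2: formerly Pool.Agent.MP_34f9b1_co.Sym.Geo1
section MrgPart2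

namespace Pool.Agent.MP_34f9b1_co.Sym

namespace Geo1

/-- The polar of a planar set, with functionals written as pairs. -/
def pol (K : Set (ℝ × ℝ)) : Set (ℝ × ℝ) := {n | ∀ p ∈ K, n.1 * p.1 + n.2 * p.2 ≤ 1}

theorem pol_closed (K : Set (ℝ × ℝ)) : IsClosed (pol K) := by
  have : pol K = ⋂ p ∈ K, {n : ℝ × ℝ | n.1 * p.1 + n.2 * p.2 ≤ 1} := by
    ext n
    simp [pol]
  rw [this]
  exact isClosed_biInter fun p _ => isClosed_le (by fun_prop) continuous_const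

theorem pol_compact {K : Set (ℝ × ℝ)} {ε : ℝ} (hε : 0 < ε)
    (hb : ∀ p : ℝ × ℝ, |p.1| ≤ ε → |p.2| ≤ ε → p ∈ K) : IsCompact (pol K) := by
  refine ((isCompact_Icc (a := -(1 / ε)) (b := 1 / ε)).prod
    (isCompact_Icc (a := -(1 / ε)) (b := 1 / ε))).of_isClosed_subset (pol_closed K) ?_
  intro n hn
  have e1 : |ε| ≤ ε := (abs_of_pos hε).le
  have e2 : |-ε| ≤ ε := by rw [abs_neg]; exact e1
  have e0 : |(0 : ℝ)| ≤ ε := by rw [abs_zero]; exact hε.le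
  have h1 := hn (ε, 0) (hb _ e1 e0)
  have h2 := hn (-ε, 0) (hb _ e2 e0)
  have h3 := hn (0, ε) (hb _ e0 e1)
  have h4 := hn (0, -ε) (hb _ e0 e2)
  simp only at h1 h2 h3 h4
  refine ⟨⟨?_, ?_⟩, ?_, ?_⟩
  · rw [neg_le, le_div_iff₀ hε]; linarith
  · rw [le_div_iff₀ hε]; linarith
  · rw [neg_le, le_div_iff₀ hε]; linarith
  · rw [le_div_iff₀ hε]; linarith

theorem exists_pair {K : Set (ℝ × ℝ)} (hK : IsCompact K) {ε : ℝ} (hε : 0 < ε)
    (hb : ∀ p : ℝ × ℝ, |p.1| ≤ ε → |p.2| ≤ ε → p ∈ K) :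
    ∃ m ∈ pol K, ∃ n ∈ pol K, 0 < m.1 * n.2 - m.2 * n.1 ∧
      ∀ v ∈ pol K, ∀ w ∈ pol K, v.1 * w.2 - v.2 * w.1 ≤ m.1 * n.2 - m.2 * n.1 := by
  obtain ⟨R, hR, hB⟩ := hK.isBounded.exists_pos_norm_le
  have hc := pol_compact hε hb
  have h1 : ((1 / R, 0) : ℝ × ℝ) ∈ pol K := by
    intro p hp
    have := (le_abs_self _).trans ((norm_fst_le p).trans (hB p hp))
    simp only [zero_mul, add_zero, one_div]
    rw [inv_mul_le_iff₀ hR]
    linarith
  have h2 : ((0, 1 / R) : ℝ × ℝ) ∈ pol K := by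
    intro p hp
    have := (le_abs_self _).trans ((norm_snd_le p).trans (hB p hp))
    simp only [zero_mul, zero_add, one_div]
    rw [inv_mul_le_iff₀ hR]
    linarith
  have hf : Continuous fun z : (ℝ × ℝ) × (ℝ × ℝ) => z.1.1 * z.2.2 - z.1.2 * z.2.1 := by fun_prop
  obtain ⟨⟨m, n⟩, ⟨hm, hn⟩, hmax⟩ :=
    (hc.prod hc).exists_isMaxOn ⟨((1 / R, 0), (0, 1 / R)), h1, h2⟩ hf.continuousOn
  have key : ∀ v ∈ pol K, ∀ w ∈ pol K, v.1 * w.2 - v.2 * w.1 ≤ m.1 * n.2 - m.2 * n.1 :=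
    fun v hv w hw => hmax (a := (v, w)) ⟨hv, hw⟩
  refine ⟨m, hm, n, hn, lt_of_lt_of_le ?_ (key _ h1 _ h2), key⟩
  have : 0 < 1 / R := one_div_pos.mpr hR
  simp only [mul_zero, sub_zero]
  exact mul_pos this this

/-- The coordinates attached to two independent functionals. -/
noncomputable def crd (m n : ℝ × ℝ) (h : m.1 * n.2 - m.2 * n.1 ≠ 0) : (ℝ × ℝ) ≃ₗ[ℝ] ℝ × ℝ where
  toFun p := ((m.1 * p.1 + m.2 * p.2) / 2, (n.1 * p.1 + n.2 * p.2) / 2)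
  invFun q := (2 * (n.2 * q.1 - m.2 * q.2) / (m.1 * n.2 - m.2 * n.1),
    2 * (m.1 * q.2 - n.1 * q.1) / (m.1 * n.2 - m.2 * n.1))
  map_add' p q := by
    ext <;> simp only [Prod.fst_add, Prod.snd_add, Prod.mk_add_mk] <;> ring
  map_smul' t p := by
    ext <;> simp only [Prod.smul_fst, Prod.smul_snd, smul_eq_mul, RingHom.id_apply] <;> ring
  left_inv p := by
    ext <;> simp only <;> rw [div_eq_iff h] <;> ring
  right_inv q := by
    ext <;> simp only [← mul_div_assoc, ← add_div] <;>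
      rw [div_div, div_eq_iff (mul_ne_zero h two_ne_zero)] <;> ring

theorem crd_apply (m n : ℝ × ℝ) (h : m.1 * n.2 - m.2 * n.1 ≠ 0) (p : ℝ × ℝ) :
    crd m n h p = ((m.1 * p.1 + m.2 * p.2) / 2, (n.1 * p.1 + n.2 * p.2) / 2) := rfl

theorem sep {K : Set (ℝ × ℝ)} (hK : IsClosed K) (hc : Convex ℝ K) (h0 : (0 : ℝ × ℝ) ∈ K)
    {q : ℝ × ℝ} (hq : q ∉ K) : ∃ v ∈ pol K, 1 < v.1 * q.1 + v.2 * q.2 := by
  obtain ⟨f, u, h1, h2⟩ := geometric_hahn_banach_closed_point hc hK hq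
  have hu : 0 < u := by simpa using h1 0 h0
  have hf : ∀ p : ℝ × ℝ, f (1, 0) / u * p.1 + f (0, 1) / u * p.2 = f p / u := by
    intro p
    have : p = p.1 • ((1, 0) : ℝ × ℝ) + p.2 • ((0, 1) : ℝ × ℝ) := by ext <;> simp
    conv_rhs => rw [this, map_add, map_smul, map_smul, smul_eq_mul, smul_eq_mul]
    ring
  refine ⟨(f (1, 0) / u, f (0, 1) / u), fun p hp => ?_, ?_⟩
  · simp only
    rw [hf, div_le_one hu]
    exact (h1 p hp).le
  · simp only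
    rw [hf, one_lt_div hu]
    exact h2

theorem core {K : Set (ℝ × ℝ)} (hK : IsCompact K) (hc : Convex ℝ K) (hs : ∀ p ∈ K, -p ∈ K)
    {ε : ℝ} (hε : 0 < ε) (hb : ∀ p : ℝ × ℝ, |p.1| ≤ ε → |p.2| ≤ ε → p ∈ K) :
    ∃ M : (ℝ × ℝ) ≃ₗ[ℝ] ℝ × ℝ, Nrm (M '' K) := by
  obtain ⟨m, hm, n, hn, hpos, hmax⟩ := exists_pair hK hε hb
  refine ⟨crd m n hpos.ne', ?_, ?_, ?_, ?_, ?_⟩
  · exact hc.linear_image (crd m n hpos.ne').toLinearMap
  · refine hK.image ?_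
    change Continuous fun p : ℝ × ℝ =>
      (((m.1 * p.1 + m.2 * p.2) / 2, (n.1 * p.1 + n.2 * p.2) / 2) : ℝ × ℝ)
    fun_prop
  · rintro x y ⟨p, hp, e⟩
    exact ⟨-p, hs p hp, by rw [map_neg, e]; rfl⟩
  · rintro x y ⟨p, hp, e⟩
    rw [crd_apply, Prod.mk.injEq] at e
    have h1 := hm p hp
    have h2 := hn p hp
    constructor <;> linarith [e.1, e.2]
  · intro x y h
    obtain ⟨q, hq⟩ := (crd m n hpos.ne').surjective (x, y)
    refine ⟨q, ?_, hq⟩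
    by_contra hqK
    obtain ⟨v, hv, h1⟩ := sep hK.isClosed hc (hb 0 (by simpa using hε.le) (by simpa using hε.le)) hqK
    rw [crd_apply, Prod.mk.injEq] at hq
    obtain ⟨ex, ey⟩ := hq
    have hw : ((2 * (x * n.1 - y * m.1), 2 * (x * n.2 - y * m.2)) : ℝ × ℝ) ∈ pol K := by
      intro p hp
      have := (le_abs_self _).trans (h _ ⟨p, hp, rfl⟩)
      rw [crd_apply] at this
      simp only at this ⊢
      linarith
    have h2 := hmax v hv _ hw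
    simp only at h2
    have h3 : v.1 * (2 * (x * n.2 - y * m.2)) - v.2 * (2 * (x * n.1 - y * m.1)) =
        (v.1 * q.1 + v.2 * q.2) * (m.1 * n.2 - m.2 * n.1) := by
      rw [← ex, ← ey]
      ring
    rw [h3] at h2
    nlinarith

end Geo1

theorem geo1 : Geo1Stmt := by
  intro F c hF hc hi hs
  let e : EuclideanSpace ℝ (Fin 2) ≃L[ℝ] ℝ × ℝ :=
    (EuclideanSpace.equiv (Fin 2) ℝ).trans (ContinuousLinearEquiv.finTwoArrow ℝ ℝ)
  have hint : c ∈ interior F := by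
    obtain ⟨p, hp⟩ := hi
    have := hc.combo_interior_self_mem_interior hp (hs p (interior_subset hp))
      (a := 1 / 2) (b := 1 / 2) (by norm_num) (by norm_num) (by norm_num)
    have e2 : (1 / 2 : ℝ) • p + (1 / 2 : ℝ) • (c + c - p) = c := by module
    rwa [e2] at this
  have hmem : ∀ q, q ∈ (fun x => e (x - c)) '' F ↔ c + e.symm q ∈ F := by
    intro q
    constructor
    · rintro ⟨x, hx, rfl⟩
      simpa using hx
    · intro h
      exact ⟨_, h, by simp⟩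
  have hnb : (fun q => c + e.symm q) ⁻¹' F ∈ nhds (0 : ℝ × ℝ) := by
    refine ContinuousAt.preimage_mem_nhds (by fun_prop) ?_
    simpa using mem_interior_iff_mem_nhds.mp hint
  obtain ⟨ε, hε, hb⟩ := Metric.nhds_basis_closedBall.mem_iff.mp hnb
  obtain ⟨M, hM⟩ := Geo1.core (K := (fun x => e (x - c)) '' F) (hF.image (by fun_prop)) (by
      intro p hp q hq a b ha hb' hab
      rw [hmem] at hp hq ⊢
      have := hc hp hq ha hb' hab
      have e2 : a • (c + e.symm p) + b • (c + e.symm q) = c + e.symm (a • p + b • q) := by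
        rw [map_add, map_smul, map_smul, smul_add, smul_add, add_add_add_comm, ← add_smul, hab,
          one_smul]
      rwa [e2] at this) (by
      intro p hp
      rw [hmem] at hp ⊢
      have := hs _ hp
      have e2 : c + c - (c + e.symm p) = c + e.symm (-p) := by
        rw [map_neg]
        abel
      rwa [e2] at this) hε (by
      intro p h1 h2
      rw [hmem]
      apply hb
      rw [mem_closedBall_zero_iff, Prod.norm_def]
      exact max_le h1 h2)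
  refine ⟨_, e.toLinearEquiv.trans M, hM, fun x => ?_⟩
  rw [LinearEquiv.trans_apply, M.injective.mem_set_image, hmem]
  simp

end Pool.Agent.MP_34f9b1_co.Sym

end MrgPart2

-- ======== part 3: formerly Pool.Agent.MP_34f9b1_co.Sym.Av
section MrgPart3

namespace Pool.Agent.MP_34f9b1_co.Sym.Tail

open MeasureTheory Set

/-- Average over a common random shift of three rounded positions. -/
noncomputable def Av (x y z : ℝ) (F : ℕ → ℕ → ℕ → ℝ) : ℝ :=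
  ∫ th in Ico (0 : ℝ) 1, F ⌊x + th⌋₊ ⌊y + th⌋₊ ⌊z + th⌋₊

variable {x y z : ℝ} {F G : ℕ → ℕ → ℕ → ℝ}

theorem integ (x y z : ℝ) (F : ℕ → ℕ → ℕ → ℝ) :
    IntegrableOn (fun th : ℝ => F ⌊x + th⌋₊ ⌊y + th⌋₊ ⌊z + th⌋₊) (Ico 0 1) := by
  have hm : Measurable fun th : ℝ => F ⌊x + th⌋₊ ⌊y + th⌋₊ ⌊z + th⌋₊ :=
    (measurable_of_countable fun p : ℕ × ℕ × ℕ => F p.1 p.2.1 p.2.2).comp
      ((measurable_const_add x).nat_floor.prodMk ((measurable_const_add y).nat_floor.prodMk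
        (measurable_const_add z).nat_floor))
  obtain ⟨M, hM⟩ := ((finite_Iic (⌊x + 1⌋₊, ⌊y + 1⌋₊, ⌊z + 1⌋₊)).image
    fun p : ℕ × ℕ × ℕ => ‖F p.1 p.2.1 p.2.2‖).bddAbove
  refine Measure.integrableOn_of_bounded (M := M) (by simp) hm.aestronglyMeasurable ?_
  refine (ae_restrict_iff' measurableSet_Ico).2 (ae_of_all _ fun th h => hM
    ⟨(⌊x + th⌋₊, ⌊y + th⌋₊, ⌊z + th⌋₊), ⟨?_, ?_, ?_⟩, rfl⟩) <;>
  exact Nat.floor_mono (by linarith [h.2])

theorem av_mono (h : ∀ th, 0 ≤ th → th < 1 →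
    F ⌊x + th⌋₊ ⌊y + th⌋₊ ⌊z + th⌋₊ ≤ G ⌊x + th⌋₊ ⌊y + th⌋₊ ⌊z + th⌋₊) :
    Av x y z F ≤ Av x y z G :=
  setIntegral_mono_on (integ x y z F) (integ x y z G) measurableSet_Ico fun th ht => h th ht.1 ht.2

theorem av_add : Av x y z (fun a b c => F a b c + G a b c) = Av x y z F + Av x y z G :=
  integral_add (integ x y z F) (integ x y z G)

theorem av_mul (k : ℝ) : Av x y z (fun a b c => k * F a b c) = k * Av x y z F :=
  integral_const_mul _ _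

theorem av_const (k : ℝ) : Av x y z (fun _ _ _ => k) = k := by
  simp [Av]

theorem int_floor (hx : 0 ≤ x) : ∫ th in Ico (0 : ℝ) 1, (⌊x + th⌋₊ : ℝ) = x := by
  have h1 := Nat.floor_le hx
  have h2 := Nat.lt_floor_add_one x
  have h3 : ∀ th ∈ Ico (0 : ℝ) 1, (⌊x + th⌋₊ : ℝ) =
      ⌊x⌋₊ + (Ico (⌊x⌋₊ + 1 - x) 1).indicator (fun _ => (1 : ℝ)) th := by
    intro th h
    by_cases h4 : ⌊x⌋₊ + 1 - x ≤ th
    · rw [indicator_of_mem (show th ∈ Ico _ _ from ⟨h4, h.2⟩),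
        (Nat.floor_eq_iff (by linarith [h.1]) (n := ⌊x⌋₊ + 1)).2
          ⟨by push_cast; linarith, by push_cast; linarith [h.2]⟩]
      push_cast; rfl
    · rw [indicator_of_notMem fun h5 => h4 h5.1,
        (Nat.floor_eq_iff (by linarith [h.1]) (n := ⌊x⌋₊)).2 ⟨by linarith [h.1], by linarith⟩,
        add_zero]
  rw [setIntegral_congr_fun measurableSet_Ico h3, integral_add (by simp)
    ((integrable_const _).indicator measurableSet_Ico), setIntegral_indicator measurableSet_Ico,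
    inter_eq_right.2 (Ico_subset_Ico_left (by linarith))]
  simp only [integral_const, MeasurableSet.univ, measureReal_restrict_apply, univ_inter,
    Real.volume_real_Ico, smul_eq_mul]
  rw [max_eq_left (by linarith), max_eq_left (by linarith)]
  ring

theorem av_aff (hx : 0 ≤ x) (hy : 0 ≤ y) (hz : 0 ≤ z) (k0 k1 k2 k3 : ℝ) :
    Av x y z (fun a b c => k0 + k1 * a + k2 * b + k3 * c) = k0 + k1 * x + k2 * y + k3 * z := by
  rw [av_add, av_add, av_add, av_const, av_mul, av_mul, av_mul]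
  simp only [Av, int_floor hx, int_floor hy, int_floor hz]

/-- Jensen's inequality at one point. -/
def Jn (x y z : ℝ) (f : ℝ → ℝ → ℝ → ℝ) : Prop := Av x y z (fun a b c => f a b c) ≤ f x y z

variable {f g : ℝ → ℝ → ℝ → ℝ}

theorem jn_aff (hx : 0 ≤ x) (hy : 0 ≤ y) (hz : 0 ≤ z) (k0 k1 k2 k3 : ℝ)
    (h : ∀ a b c, f a b c = k0 + k1 * a + k2 * b + k3 * c) : Jn x y z f := by
  simp only [Jn, h, av_aff hx hy hz, le_refl]

theorem Jn.add (h1 : Jn x y z f) (h2 : Jn x y z g) : Jn x y z fun a b c => f a b c + g a b c := by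
  rw [Jn, av_add]
  exact add_le_add h1 h2

theorem Jn.mul (h1 : Jn x y z f) {k : ℝ} (hk : 0 ≤ k) : Jn x y z fun a b c => k * f a b c := by
  rw [Jn, av_mul]
  exact mul_le_mul_of_nonneg_left h1 hk

theorem Jn.min (h1 : Jn x y z f) (h2 : Jn x y z g) :
    Jn x y z fun a b c => min (f a b c) (g a b c) :=
  le_min ((av_mono fun _ _ _ => min_le_left _ _).trans h1)
    ((av_mono fun _ _ _ => min_le_right _ _).trans h2)

theorem Jn.congr (h1 : Jn x y z f) (h : ∀ a b c, g a b c = f a b c) : Jn x y z g := by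
  simpa only [Jn, h] using h1

theorem jn_tz (hx : 0 ≤ x) (hy : 0 ≤ y) (hz : 0 ≤ z) (P : Prof) (r k1 k2 k3 : ℝ) :
    Jn x y z fun a b c => Tz P (k1 * a + k2 * b + k3 * c) (zz (r * a - 1 / 2) (r * (b - a))) := by
  have h0 : Jn x y z fun a b c => -max 0 (zz (r * a - 1 / 2) (r * (b - a)) +
      (k1 * a + k2 * b + k3 * c) / 2) := by
    refine ((jn_aff (f := fun _ _ _ => 0) hx hy hz 0 0 0 0 fun _ _ _ => by ring).min
      (((jn_aff (f := fun a _ _ => -(r * a - 1 / 2)) hx hy hz (1 / 2) (-r) 0 0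
        fun _ _ _ => by ring).min
      (jn_aff (f := fun a b _ => -(-(r * a - 1 / 2) - r * (b - a))) hx hy hz (-1 / 2) 0 r 0
        fun _ _ _ => by ring)).add
      (jn_aff (f := fun a b c => -((k1 * a + k2 * b + k3 * c) / 2)) hx hy hz 0 (-k1 / 2) (-k2 / 2)
        (-k3 / 2) fun _ _ _ => by ring))).congr fun a b c => ?_
    rw [zz, min_neg_neg, ← neg_add, ← min_neg_neg, neg_zero]
  have h1 : ∀ α β : ℕ, Jn x y z fun a b c => ln α β (k1 * a + k2 * b + k3 * c)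
      (max 0 (zz (r * a - 1 / 2) (r * (b - a)) + (k1 * a + k2 * b + k3 * c) / 2)) := by
    intro α β
    refine ((jn_aff (f := fun a b c => α * (1 - (k1 * a + k2 * b + k3 * c)) / 1024) hx hy hz
      (α / 1024) (-α * k1 / 1024) (-α * k2 / 1024) (-α * k3 / 1024) fun _ _ _ => by ring).add
      (h0.mul (k := β / 1024) (by positivity))).congr fun a b c => ?_
    rw [ln]; ring
  exact (jn_aff (f := fun a b c => k1 * a + k2 * b + k3 * c) hx hy hz 0 k1 k2 k3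
    fun _ _ _ => by ring).add (((h1 _ _).min (h1 _ _)).min ((h1 _ _).min (h1 _ _)))

theorem jn_dt (hx : 0 ≤ x) (hy : 0 ≤ y) (hz : 0 ≤ z) (P : Prof) (r : ℝ) :
    Jn x y z fun a b c => DT P (r * a - 1 / 2) (r * (b - a)) (r * (c - b)) := by
  have h1 := (jn_tz hx hy hz P r (-r) r 0).congr
    (g := fun a b _ => Tz P (r * (b - a)) (zz (r * a - 1 / 2) (r * (b - a)))) fun a b c => by
      congr 1; ring
  have h2 := (jn_tz hx hy hz P r 0 (-r) r).congr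
    (g := fun a b c => Tz P (r * (c - b)) (zz (r * a - 1 / 2) (r * (b - a)))) fun a b c => by
      congr 1; ring
  refine ((((h1.add h2).mul (k := 1 / 2) (by norm_num)).min (h1.add
    (jn_aff (f := fun _ b c => r * (c - b) / 2) hx hy hz 0 0 (-r / 2) (r / 2)
      fun _ _ _ => by ring))).add
    (jn_aff (f := fun a _ c => r * (a - c)) hx hy hz 0 r 0 (-r) fun _ _ _ => by ring)).congr
    fun a b c => ?_
  rw [DT, div_eq_inv_mul (_ + _) 2, one_div]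
  ring

theorem step {u d : ℝ} {j : ℕ} (hu : 0 ≤ u) (h1 : (j : ℝ) ≤ d) (h2 : d ≤ j + 1) :
    ∃ e ≤ 1, ⌊u + d⌋₊ = ⌊u⌋₊ + (j + e) := by
  have h3 := Nat.floor_le hu
  have h4 := Nat.lt_floor_add_one u
  have h5 : ⌊u⌋₊ + j ≤ ⌊u + d⌋₊ := Nat.le_floor (by push_cast; linarith)
  have h6 : ⌊u + d⌋₊ < ⌊u⌋₊ + j + 2 :=
    (Nat.floor_lt (by linarith [Nat.cast_nonneg (α := ℝ) j])).2 (by push_cast; linarith)
  exact ⟨⌊u + d⌋₊ - (⌊u⌋₊ + j), by omega, by omega⟩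

theorem cell {th : ℝ} {τ : ℕ} (h0 : 0 ≤ th) (h1 : th < 1) (h2 : (τ : ℝ) ≤ x) (h3 : x ≤ τ + 1) :
    ∃ i ≤ 1, ⌊x + th⌋₊ = τ + i := by
  obtain ⟨i, h4, h5⟩ := step h0 h2 h3
  exact ⟨i, h4, by rw [add_comm, h5, Nat.floor_eq_zero.2 h1, zero_add]⟩

theorem step' {th d : ℝ} {j : ℕ} (hx : 0 ≤ x) (h0 : 0 ≤ th) (h1 : (j : ℝ) ≤ d) (h2 : d ≤ j + 1) :
    ∃ e ≤ 1, ⌊x + d + th⌋₊ = ⌊x + th⌋₊ + (j + e) := by
  rw [add_right_comm]
  exact step (add_nonneg hx h0) h1 h2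

theorem floor_le {th : ℝ} {N : ℕ} (h1 : th < 1) (h : x ≤ N) : ⌊x + th⌋₊ ≤ N :=
  Nat.lt_succ_iff.1 ((Nat.floor_lt' N.succ_ne_zero).2 (by push_cast; linarith))

end Pool.Agent.MP_34f9b1_co.Sym.Tail

end MrgPart3

-- ======== part 4: formerly Pool.Agent.MP_34f9b1_co.Sym.Spec2
section MrgPart4

namespace Pool.Agent.MP_34f9b1_co.Sym

/-- Residual length at a lattice point for rule `w` (`0`: two-sided rule, else insertion rule). -/
noncomputable def DW (P : Prof) (N w t h a : ℕ) : ℝ :=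
  if w = 0 then DL P N t h a
  else DC P ((t : ℝ) / N - 1 / 2) ((h : ℝ) / N) ((h : ℝ) / N) ((a : ℝ) / N)

/-- Valid vertex values `g bit e e'` on the cell `(τ, j, j')`, with a choice of the rule. -/
def GOK2 (P : Prof) (N τ j j' : ℕ) (g : ℕ → ℕ → ℕ → ℝ) : Prop :=
  (∀ i ≤ 1, ∀ e ≤ 1, ∀ e' ≤ 1, g i e e' ≤ 0) ∨
  (∃ (w : ℕ) (D0 : ℝ), ∀ i ≤ 1, ∀ e ≤ 1, ∀ e' ≤ 1, D0 ≤ DW P N w (τ + i) (j + e) (j' + e') ∧
    g i e e' ≤ (j' : ℝ) / N * DW P N w (τ + i) (j + e) (j' + e') + D0 * ((e' : ℝ) / N)) ∨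
  (∃ (w n : ℕ) (σ a0 : ℝ), 0 ≤ σ ∧ ∀ i ≤ 1, ∀ e ≤ 1, ∀ e' ≤ 1,
    g i e e' ≤ min (σ * DW P N w (τ + i) (j + e) (j' + e') - n * σ ^ 2 / 4)
      ((n + 1) * (2 * a0 * (((j' : ℝ) + e') / N) - a0 ^ 2)))

/-- All cells are valid. -/
def GV2 (P : Prof) (N J : ℕ) (g : ℕ → ℕ → ℕ → ℕ → ℕ → ℕ → ℝ) : Prop :=
  ∀ τ < N, ∀ j ≤ J, ∀ j' ≤ j, GOK2 P N τ j j' (g τ j j')

/-- TAIL2: as `TailStmt` with both rules allowed in the cells. -/
def Tail2Stmt : Prop :=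
  ∀ (P : Prof) (N J x0 c : ℕ) (g : ℕ → ℕ → ℕ → ℕ → ℕ → ℕ → ℝ) (V U0 U1 : ℕ → ℕ → ℕ → ℝ)
    (Z0 Z1 : ℕ → ℕ → ℝ), P.ok → 0 < N → 0 < c → x0 + c ≤ N → GV2 P N J g →
    Up N J g V → Sw N J V (cc N) → Up N J g U0 → Sw N J U0 Z0 → Up N J g U1 → Sw N J U1 Z1 →
    Itp J x0 c V Z0 Z1 →
    ∀ E, Ext P E → ∀ (t b a : ℝ) (l : List ℝ) (τ j : ℕ), Srt (a :: l) → j ≤ J →
      (j : ℝ) ≤ N * a → N * a ≤ j + 1 → τ < N → (τ : ℝ) ≤ N * (t + 1 / 2) →
      N * (t + 1 / 2) ≤ τ + 1 → (x0 : ℝ) ≤ N * (b + 1 / 2) → N * (b + 1 / 2) ≤ x0 + c → -b ≤ t →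
      ∀ μ0 μ1 lam κ : ℝ,
        (∀ i ≤ 1, μ0 - lam * ((τ : ℝ) + i) ≤ U0 (τ + i) j 0 ∧
          μ1 - lam * ((τ : ℝ) + i) ≤ U0 (τ + i) j 1 ∧
          μ0 - lam * ((τ : ℝ) + i) - κ * c ≤ U1 (τ + i) j 0 ∧
          μ1 - lam * ((τ : ℝ) + i) - κ * c ≤ U1 (τ + i) j 1) →
        Pk E (Out t b) (a :: l) ∨
          μ0 + (μ1 - μ0) * (N * a - j) - lam * (N * (t + 1 / 2)) - κ * (N * (b + 1 / 2) - x0) ≤
            sqs (a :: l)

end Pool.Agent.MP_34f9b1_co.Sym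

end MrgPart4

-- ======== part 5: formerly Pool.Agent.MP_34f9b1_co.Sym.Tail2
section MrgPart5

namespace Pool.Agent.MP_34f9b1_co.Sym

namespace Tail2

open Tail

theorem sqs_cons (a : ℝ) (l : List ℝ) : sqs (a :: l) = a ^ 2 + sqs l := by
  simp [sqs]

theorem sqs_app (l l' : List ℝ) : sqs (l ++ l') = sqs l + sqs l' := by
  simp [sqs]

theorem sqs_nonneg (l : List ℝ) : 0 ≤ sqs l :=
  List.sum_nonneg fun x hx => by
    obtain ⟨y, -, rfl⟩ := List.mem_map.1 hx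
    positivity

theorem cc_le {N j : ℕ} {h : ℝ} (hN : 0 < N) :
    (1 - (N * h - j)) * cc N j 0 + (N * h - j) * cc N j 1 ≤ h ^ 2 := by
  have h0 : (0 : ℝ) < N := by exact_mod_cast hN
  unfold cc
  split_ifs with h1
  · simpa using sq_nonneg h
  · rw [← mul_div_assoc, ← mul_div_assoc, ← add_div, div_le_iff₀ (by positivity)]
    push_cast
    linarith [sq_nonneg (N * h - j - 1 / 2)]

/-- Average of a function of the class bit. -/
theorem av_bit {x d z : ℝ} {j : ℕ} (hx : 0 ≤ x) (hz : 0 ≤ z) (h1 : (j : ℝ) ≤ d) (h2 : d ≤ j + 1)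
    (Z : ℕ → ℝ) :
    Av x (x + d) z (fun a b _ => Z (b - a - j)) = (1 - (d - j)) * Z 0 + (d - j) * Z 1 := by
  have h3 : 0 ≤ x + d := by linarith [Nat.cast_nonneg (α := ℝ) j]
  have h4 := av_aff hx h3 hz (Z 0 - j * (Z 1 - Z 0)) (-(Z 1 - Z 0)) (Z 1 - Z 0) 0
  have h5 : ∀ th, 0 ≤ th → Z (⌊x + d + th⌋₊ - ⌊x + th⌋₊ - j) = Z 0 - j * (Z 1 - Z 0) +
      -(Z 1 - Z 0) * ⌊x + th⌋₊ + (Z 1 - Z 0) * ⌊x + d + th⌋₊ + 0 * ⌊z + th⌋₊ := by
    intro th h0
    obtain ⟨e, he, h6⟩ := step' hx h0 h1 h2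
    rw [h6, Nat.add_sub_cancel_left, Nat.add_sub_cancel_left]
    interval_cases e <;> push_cast <;> ring
  refine (le_antisymm (av_mono fun th h0 _ => (h5 th h0).le)
    (av_mono fun th h0 _ => (h5 th h0).ge)).trans (h4.trans (by ring))

/-- Residual length of a fresh row for the rule `w`. -/
noncomputable def DR (P : Prof) (w : ℕ) (t h a : ℝ) : ℝ :=
  if w = 0 then DT P t h a else DC P t h h a

theorem jn_dr {x y z : ℝ} (hx : 0 ≤ x) (hy : 0 ≤ y) (hz : 0 ≤ z) (P : Prof) (w : ℕ) (r : ℝ) :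
    Jn x y z fun a b c => DR P w (r * a - 1 / 2) (r * (b - a)) (r * (c - b)) := by
  by_cases hw : w = 0
  · exact (jn_dt hx hy hz P r).congr fun a b c => if_pos hw
  · refine ((jn_tz hx hy hz P r 0 (-r) r).add
      (jn_aff (f := fun a b c => -(r * (b - a)) - 2 * (r * (c - b))) hx hy hz 0 r r (-2 * r)
        fun _ _ _ => by ring)).congr fun a b c => ?_
    rw [DR, if_neg hw, DC, show 0 * a + -r * b + r * c = r * (c - b) by ring]
    ring

/-- The averaged cell values are dominated by the area of the followers. -/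
theorem av_g (hp : PkStmt) {P : Prof} {N τ j j' : ℕ} {g : ℕ → ℕ → ℕ → ℝ} (hN : 0 < N)
    (hg : GOK2 P N τ j j' g) {t h a s : ℝ} {D : ℝ → ℝ} (h1 : (τ : ℝ) ≤ N * (t + 1 / 2))
    (h2 : N * (t + 1 / 2) ≤ τ + 1) (h3 : (j : ℝ) ≤ N * h) (h4 : N * h ≤ j + 1)
    (h5 : (j' : ℝ) ≤ N * a) (h6 : N * a ≤ j' + 1) (hD : ∀ w, DR P w t h a ≤ D a)
    (hF : Fr D a s) :
    Av (N * (t + 1 / 2)) (N * (t + 1 / 2) + N * h) (N * (t + 1 / 2) + N * h + N * a)
      (fun A B C => g (A - τ) (B - A - j) (C - B - j')) ≤ s := by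
  have h0 : (0 : ℝ) < N := by exact_mod_cast hN
  set x := (N : ℝ) * (t + 1 / 2) with hx
  have hx0 : 0 ≤ x := (Nat.cast_nonneg τ).trans h1
  have hy0 : 0 ≤ x + N * h := add_nonneg hx0 ((Nat.cast_nonneg j).trans h3)
  have hz0 : 0 ≤ x + N * h + N * a := add_nonneg hy0 ((Nat.cast_nonneg j').trans h5)
  have ha : 0 ≤ a := by
    exact nonneg_of_mul_nonneg_right ((Nat.cast_nonneg j').trans h5) h0
  have key : ∀ th, 0 ≤ th → th < 1 → ∃ i ≤ 1, ∃ e ≤ 1, ∃ e' ≤ 1,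
      g (⌊x + th⌋₊ - τ) (⌊x + N * h + th⌋₊ - ⌊x + th⌋₊ - j)
        (⌊x + N * h + N * a + th⌋₊ - ⌊x + N * h + th⌋₊ - j') = g i e e' ∧
      (∀ w, DR P w ((N : ℝ)⁻¹ * ⌊x + th⌋₊ - 1 / 2) ((N : ℝ)⁻¹ * (⌊x + N * h + th⌋₊ - ⌊x + th⌋₊))
        ((N : ℝ)⁻¹ * (⌊x + N * h + N * a + th⌋₊ - ⌊x + N * h + th⌋₊)) =
        DW P N w (τ + i) (j + e) (j' + e')) ∧
      (⌊x + N * h + N * a + th⌋₊ : ℝ) = ⌊x + N * h + th⌋₊ + (j' + e') := by
    intro th t0 t1
    obtain ⟨i, hi, e1⟩ := cell t0 t1 h1 h2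
    obtain ⟨e, he, e2⟩ := step' hx0 t0 h3 h4
    obtain ⟨e', he', e3⟩ := step' hy0 t0 h5 h6
    refine ⟨i, hi, e, he, e', he', ?_, fun w => ?_, ?_⟩
    · rw [e3, e2, e1]
      simp only [Nat.add_sub_cancel_left]
    · rw [e3, e2, e1]
      refine Eq.trans ?_ (show DR P w (((τ + i : ℕ) : ℝ) / N - 1 / 2) (((j + e : ℕ) : ℝ) / N)
        (((j' + e' : ℕ) : ℝ) / N) = _ from rfl)
      congr 1 <;> push_cast <;> ring
    · rw [e3]; push_cast; ring
  obtain ⟨d, hd⟩ : ∃ d : ℕ → ℝ, ∀ w, d w = Av x (x + N * h) (x + N * h + N * a) fun A B C =>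
    DR P w ((N : ℝ)⁻¹ * A - 1 / 2) ((N : ℝ)⁻¹ * (B - A)) ((N : ℝ)⁻¹ * (C - B)) :=
    ⟨_, fun _ => rfl⟩
  have hJ : ∀ w, d w ≤ D a := fun w => by
    refine (hd w).le.trans ((jn_dr hx0 hy0 hz0 P w (N : ℝ)⁻¹).trans (le_trans (le_of_eq ?_) (hD w)))
    show DR P w _ _ _ = DR P w t h a
    congr 1
    · rw [hx]; field_simp; ring
    · field_simp; ring
    · field_simp; ring
  rcases hg with hg | ⟨w, D0, hg⟩ | ⟨w, n, σ, a0, hσ, hg⟩
  · refine le_trans (av_mono (G := fun _ _ _ => 0) fun th t0 t1 => ?_)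
      ((av_const 0).le.trans (hp.area0 hF))
    obtain ⟨i, hi, e, he, e', he', e1, -⟩ := key th t0 t1
    exact e1 ▸ hg i hi e he e' he'
  · have h7 : D0 ≤ d w := by
      refine ((av_const D0).ge.trans (av_mono fun th t0 t1 => ?_)).trans (hd w).ge
      obtain ⟨i, hi, e, he, e', he', -, e2, -⟩ := key th t0 t1
      exact e2 w ▸ (hg i hi e he e' he').1
    refine le_trans ?_ (hp.area1 (lo := j' / N) hF (by positivity)
      (by rw [div_le_iff₀ h0]; linarith) (hJ w) h7)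
    refine (av_mono (G := fun A B C => (j' : ℝ) / N * DR P w ((N : ℝ)⁻¹ * A - 1 / 2)
      ((N : ℝ)⁻¹ * (B - A)) ((N : ℝ)⁻¹ * (C - B)) +
      (-D0 * j' / N + 0 * A + -D0 / N * B + D0 / N * C)) fun th t0 t1 => ?_).trans (le_of_eq ?_)
    · obtain ⟨i, hi, e, he, e', he', e1, e2, e3⟩ := key th t0 t1
      rw [e1, e2, e3]
      exact (hg i hi e he e' he').2.trans (le_of_eq (by ring))
    · rw [av_add, av_mul, av_aff hx0 hy0 hz0, ← hd]
      field_simp; ring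
  · refine le_trans (le_min ?_ ?_) (hp.area2 n σ a0 hF ha hσ (hJ w))
    · refine (av_mono (G := fun A B C => σ * DR P w ((N : ℝ)⁻¹ * A - 1 / 2)
        ((N : ℝ)⁻¹ * (B - A)) ((N : ℝ)⁻¹ * (C - B)) + -(n * σ ^ 2 / 4)) fun th t0 t1 => ?_).trans
        (le_of_eq ?_)
      · obtain ⟨i, hi, e, he, e', he', e1, e2, -⟩ := key th t0 t1
        rw [e1, e2]
        exact (hg i hi e he e' he').trans (min_le_left _ _)
      · rw [av_add, av_mul, av_const, ← hd]; ring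
    · refine (av_mono (G := fun A B C => (n + 1) * (-2 * a0 * 0 - a0 ^ 2) + 0 * A +
        -((n + 1) * 2 * a0 / N) * B + (n + 1) * 2 * a0 / N * C) fun th t0 t1 => ?_).trans
        (le_of_eq ?_)
      · obtain ⟨i, hi, e, he, e', he', e1, -, e3⟩ := key th t0 t1
        rw [e1, e3]
        exact ((hg i hi e he e' he').trans (min_le_right _ _)).trans (le_of_eq (by ring))
      · rw [av_aff hx0 hy0 hz0]
        field_simp; ring

theorem av_two {x y : ℝ} (z z' : ℝ) (F : ℕ → ℕ → ℝ) :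
    Av x y z (fun A B _ => F A B) = Av x y z' fun A B _ => F A B := rfl

theorem av_shift {x y z : ℝ} (w : ℝ) (F : ℕ → ℕ → ℝ) :
    Av x y z (fun A B _ => F A B) = Av w x y fun _ A B => F A B := rfl

theorem cls {N j : ℕ} {a h : ℝ} (ha : 0 ≤ N * a) (h1 : N * a ≤ N * h) (h2 : N * h ≤ j + 1) :
    ∃ j' ≤ j, (j' : ℝ) ≤ N * a ∧ N * a ≤ j' + 1 := by
  rcases le_total ⌊N * a⌋₊ j with h3 | h3
  · exact ⟨_, h3, Nat.floor_le ha, (Nat.lt_floor_add_one _).le⟩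
  · exact ⟨j, le_rfl, (Nat.cast_le.2 h3).trans (Nat.floor_le ha), h1.trans h2⟩

/-- Next-fit rows above a level, with a reserve region `Rg`. -/
theorem top (hp : PkStmt) (hr : RowStmt) {P : Prof} {N J : ℕ}
    {g : ℕ → ℕ → ℕ → ℕ → ℕ → ℕ → ℝ} {X : ℕ → ℕ → ℕ → ℝ} {Z : ℕ → ℕ → ℝ} (hP : P.ok) (hN : 0 < N)
    (hG : GV2 P N J g) (hU : Up N J g X) (hS : Sw N J X Z) {E : ℝ → ℝ → ℝ} (hE : Ext P E)
    {Rg : Pc → Prop} {t0 : ℝ} (ht0 : -1 / 2 ≤ t0) (hsep : Sep (Ab t0) Rg)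
    (hRg : ∀ (a : ℝ) (l : List ℝ) (j : ℕ), Srt (a :: l) → j ≤ J → (j : ℝ) ≤ N * a →
      N * a ≤ j + 1 → Pk E Rg (a :: l) ∨
        (1 - (N * a - j)) * Z j 0 + (N * a - j) * Z j 1 ≤ sqs (a :: l)) (n : ℕ) :
    ∀ (l : List ℝ) (h t z : ℝ) (j : ℕ), l.length < n → Srt (h :: l) → j ≤ J → (j : ℝ) ≤ N * h →
      N * h ≤ j + 1 → t0 ≤ t → t ≤ 1 / 2 → Pk E (fun s => Ab t s ∨ Rg s) (h :: l) ∨
        Av (N * (t + 1 / 2)) (N * (t + 1 / 2) + N * h) z (fun A B _ => X A j (B - A - j)) ≤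
          sqs (h :: l) := by
  have h0 : (0 : ℝ) < N := by exact_mod_cast hN
  induction n with
  | zero => exact fun l _ _ _ _ h => absurd h (Nat.not_lt_zero _)
  | succ n ih =>
    intro l h t z j hl hs hj h1 h2 h3 h4
    have hx0 : 0 ≤ (N : ℝ) * (t + 1 / 2) := mul_nonneg h0.le (by linarith)
    have hx1 : (N : ℝ) * (t + 1 / 2) ≤ N := by linarith only [mul_le_mul_of_nonneg_left h4 h0.le]
    have hh : 0 ≤ h := hs.2 h List.mem_cons_self
    by_cases h5 : t + h ≤ 1 / 2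
    · have h6 : -1 / 2 ≤ t := ht0.trans h3
      have hs1 : Srt [h] := ⟨List.pairwise_singleton _ _, fun x hx => by
        rw [List.mem_singleton.1 hx]; exact hh⟩
      have hm := hr.rowB (C := 2) (m := h) (ht := h) (fs := []) hP hE h6 h5 hs1
        (fun x hx => (List.mem_singleton.1 hx).ge) le_rfl trivial
        (hr.feasB (C := 2) hP hE h6 h5 hs1 trivial fun h => absurd rfl h)
      have hs2 := List.pairwise_cons.1 hs.1
      rcases hp.ms_run (O := fun s => Ab (t + h) s ∨ Rg s) (l := l) (fun s s' q1 q2 => by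
          rcases q2 with q2 | q2
          · exact Or.inr (Or.inr (Or.inl (le_trans q1.2 q2)))
          · exact hsep s s' (h3.trans q1.1) q2) hm
        ⟨hs2.2, fun x hx => hs.2 x (List.mem_cons_of_mem _ hx)⟩ hs2.1 with
        h7 | ⟨l1, a, l2, rfl, h7, h8⟩
      · refine Or.inl (hp.mono (fun s q => ?_) h7)
        rcases q with q | q | q
        · exact Or.inl q.1
        · exact Or.inl (le_trans (by linarith) q)
        · exact Or.inr q
      have ha : a ∈ l1 ++ a :: l2 := by simp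
      have ha0 := hs.2 a (List.mem_cons_of_mem _ ha)
      have ha1 := hs2.1 a ha
      obtain ⟨j', q1, q2, q3⟩ := cls (mul_nonneg h0.le ha0) (mul_le_mul_of_nonneg_left ha1 h0.le) h2
      obtain ⟨τ, q4, q5, q6⟩ := cls (N := N) (j := N - 1) (h := 1) hx0
        (by linarith) (by rw [Nat.cast_pred hN]; linarith)
      have h9 := (ih l2 a (t + h) 0 j' (by simp at hl; omega)
        ⟨(List.pairwise_append.1 hs2.2).2.1, fun x hx =>
          hs.2 x (List.mem_cons_of_mem _ (List.mem_append_right _ hx))⟩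
        (q1.trans hj) q2 q3 (by linarith) h5).resolve_left h8
      have h10 := av_g hp hN (hG τ (by omega) j hj j' q1) q5 q6 h1 h2 q2 q3 (fun w => by
        rw [DR, List.sum_nil, add_zero]
        split_ifs
        · refine le_trans ?_ (le_max_left _ _)
          have := hr.tz_le hE h6 h5 hh le_rfl
          have := hr.tz_le hE h6 h5 ha0 ha1
          rw [DB, DT, min_eq_right (a := 2) (by linarith)]
          refine le_of_eq ?_
          congr 3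
          ring
        · exact le_max_right _ _) h7
      have h11 := (av_bit (z := N * (t + 1 / 2) + N * h + N * a) hx0 (by positivity) h1 h2
        (cc N j)).le.trans (cc_le hN)
      rw [show (N : ℝ) * (t + h + 1 / 2) = N * (t + 1 / 2) + N * h by ring] at h9
      right
      rw [sqs_cons, sqs_app, ← add_assoc]
      refine le_trans ?_ (add_le_add (add_le_add h11 h10) h9)
      rw [av_two z (N * (t + 1 / 2) + N * h + N * a) fun A B => X A j (B - A - j),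
        av_shift (N * (t + 1 / 2)) fun A B => X A j' (B - A - j'), ← av_add, ← av_add]
      refine av_mono fun th t0 t1 => ?_
      obtain ⟨i, hi, e1⟩ := cell t0 t1 q5 q6
      obtain ⟨e, he, e2⟩ := step' hx0 t0 h1 h2
      obtain ⟨e', he', e3⟩ := step' (x := N * (t + 1 / 2) + N * h) (by positivity) t0 q2 q3
      have e4 := floor_le (x := N * (t + 1 / 2) + N * h) (N := N) t1
        (by linarith only [mul_le_mul_of_nonneg_left h5 h0.le])
      rw [e2, e1] at e4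
      rw [e3, e2, e1]
      simp only [Nat.add_sub_cancel_left]
      exact hU τ (by omega) j hj j' q1 i hi e he e' he' e4
    · refine (hRg h l j hs hj h1 h2).imp (hp.mono fun s => Or.inr) fun h6 => le_trans ?_ h6
      rw [← av_bit hx0 le_rfl h1 h2 (Z j), av_two z 0 fun A B => X A j (B - A - j)]
      refine av_mono fun th t0 t1 => ?_
      obtain ⟨e, he, e2⟩ := step' hx0 t0 h1 h2
      have e4 : N ≤ ⌊N * (t + 1 / 2) + N * h + th⌋₊ := Nat.le_floor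
        (by linarith only [mul_le_mul_of_nonneg_left (not_le.1 h5).le h0.le, t0])
      rw [e2] at e4
      rw [e2]
      simp only [Nat.add_sub_cancel_left]
      exact hS _ (floor_le t1 hx1) j hj e he e4

end Tail2

open Tail Tail2 in
theorem tail2 (h : PkStmt) (hr : RowStmt) : Tail2Stmt := by
  intro P N J x0 c g V U0 U1 Z0 Z1 hP hN hc hxc hG uV sV u0 s0 u1 s1 hI E hE t b a l τ j hs hj
    j1 j2 hτ t1 t2 b1 b2 hbt μ0 μ1 lam κ hμ
  have h0 : (0 : ℝ) < N := by exact_mod_cast hN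
  have c0 : (0 : ℝ) < c := by exact_mod_cast hc
  have hb0 : 0 ≤ (N : ℝ) * (b + 1 / 2) := (Nat.cast_nonneg _).trans b1
  have ht0 : 0 ≤ (N : ℝ) * (t + 1 / 2) := (Nat.cast_nonneg _).trans t1
  have hb1 : -1 / 2 ≤ b := by linarith only [nonneg_of_mul_nonneg_right hb0 h0]
  have hb2 : b ≤ 1 / 2 := by
    have : (x0 : ℝ) + c ≤ N := by exact_mod_cast hxc
    exact le_of_mul_le_mul_left (by linarith only [this, b2]) h0
  have ht1 : -1 / 2 ≤ t := by linarith only [nonneg_of_mul_nonneg_right ht0 h0]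
  have ht2 : t ≤ 1 / 2 := by
    have : (τ : ℝ) + 1 ≤ N := by exact_mod_cast hτ
    exact le_of_mul_le_mul_left (by linarith only [this, t2]) h0
  obtain ⟨s, hsc⟩ : ∃ s : ℝ, s * c = N * (b + 1 / 2) - x0 := ⟨_, div_mul_cancel₀ _ c0.ne'⟩
  have r0 : 0 ≤ s := nonneg_of_mul_nonneg_left (by linarith only [hsc, b1]) c0
  have r1 : 0 ≤ 1 - s := nonneg_of_mul_nonneg_left (by linarith only [hsc, b2]) c0
  have key := top h hr (X := fun p q r => (1 - s) * U0 p q r + s * U1 p q r)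
    (Z := fun q r => (1 - s) * Z0 q r + s * Z1 q r) hP hN hG
    (fun τ q1 j q2 j' q3 i q4 e q5 e' q6 q7 => by
      linarith [mul_le_mul_of_nonneg_left (u0 τ q1 j q2 j' q3 i q4 e q5 e' q6 q7) r1,
        mul_le_mul_of_nonneg_left (u1 τ q1 j q2 j' q3 i q4 e q5 e' q6 q7) r0])
    (fun t q1 j q2 e q3 q4 => add_le_add (mul_le_mul_of_nonneg_left (s0 t q1 j q2 e q3 q4) r1)
      (mul_le_mul_of_nonneg_left (s1 t q1 j q2 e q3 q4) r0)) hE (Rg := Be (-b)) ht1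
    (fun s s' q1 q2 => Or.inr (Or.inr (Or.inr (le_trans q2 (hbt.trans q1)))))
    (fun a l j hs hj j1 j2 => by
      refine (top h hr hP hN hG uV sV hE (Rg := fun _ => False) hb1 (fun _ _ _ q => q.elim)
        (fun a l j _ _ _ _ => Or.inr ((cc_le hN).trans (by
          rw [sqs_cons]; linarith [sqs_nonneg l]))) _ l a b 0 j (Nat.lt_succ_self _) hs hj j1 j2
        le_rfl hb2).imp (fun q => h.flip (h.mono (fun s q => q.resolve_right id) q))
        fun q => le_trans ?_ q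
      obtain ⟨e', he', k0, k1⟩ : ∃ e' ≤ 1, Z1 j 0 - Z0 j 0 ≤ Z1 j e' - Z0 j e' ∧
          Z1 j 1 - Z0 j 1 ≤ Z1 j e' - Z0 j e' := by
        rcases le_total (Z1 j 0 - Z0 j 0) (Z1 j 1 - Z0 j 1) with q | q
        · exact ⟨1, le_rfl, q, le_rfl⟩
        · exact ⟨0, zero_le_one, le_rfl, q⟩
      set k := Z1 j e' - Z0 j e' with hk
      have q1 : Av (N * (b + 1 / 2)) (N * (b + 1 / 2) + N * a) 0
          (fun A B _ => c * Z0 j (B - A - j) + (-k * x0 + k * A + 0 * B + 0 * (0 : ℕ))) ≤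
          Av (N * (b + 1 / 2)) (N * (b + 1 / 2) + N * a) 0
          (fun A B _ => c * V A j (B - A - j)) := by
        refine av_mono fun th t0 t1 => ?_
        obtain ⟨e, he, e2⟩ := step' hb0 t0 j1 j2
        obtain ⟨x, hx⟩ := Nat.exists_eq_add_of_le
          (Nat.le_floor (show (x0 : ℝ) ≤ N * (b + 1 / 2) + th by linarith))
        have e4 := floor_le (N := x0 + c) t1 (by push_cast; exact b2)
        rw [e2, hx]
        simp only [Nat.add_sub_cancel_left]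
        refine le_trans (le_of_eq ?_) (hI x (by omega) j hj e he e' he')
        push_cast; ring
      have q2 := av_aff hb0 (add_nonneg hb0 ((Nat.cast_nonneg _).trans j1)) le_rfl (-k * x0) k 0 0
      simp only [zero_mul, add_zero] at q1 q2
      rw [av_add, av_mul, av_mul, av_bit hb0 le_rfl j1 j2, q2] at q1
      refine le_of_mul_le_mul_left (le_trans ?_ q1) c0
      have f0 : 0 ≤ N * a - j := by linarith
      have f1 : 0 ≤ 1 - (N * a - j) := by linarith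
      have q3 : -k * x0 + k * (N * (b + 1 / 2)) = c * (s * k) := by
        linear_combination (-k) * hsc
      rw [q3, ← mul_add]
      refine mul_le_mul_of_nonneg_left ?_ c0.le
      linarith [mul_le_mul_of_nonneg_left k0 (mul_nonneg f1 r0),
        mul_le_mul_of_nonneg_left k1 (mul_nonneg f0 r0)])
    _ l a t 0 j (Nat.lt_succ_self _) hs hj j1 j2 le_rfl ht2
  refine key.imp id fun q => le_trans ?_ q
  have q1 := av_aff ht0 (add_nonneg ht0 ((Nat.cast_nonneg _).trans j1)) le_rfl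
    (μ0 - (μ1 - μ0) * j - κ * (s * c)) (-lam - (μ1 - μ0)) (μ1 - μ0) 0
  refine le_trans (le_of_eq ?_) (q1.ge.trans (av_mono fun th t0 t3 => ?_))
  · rw [hsc]; ring
  · obtain ⟨i, hi, e1⟩ := cell t0 t3 t1 t2
    obtain ⟨e, he, e2⟩ := step' ht0 t0 j1 j2
    obtain ⟨m1, m2, m3, m4⟩ := hμ i hi
    rw [e2, e1]
    simp only [Nat.add_sub_cancel_left]
    interval_cases e <;> push_cast
    · linarith [mul_le_mul_of_nonneg_left m1 r1, mul_le_mul_of_nonneg_left m3 r0]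
    · linarith [mul_le_mul_of_nonneg_left m2 r1, mul_le_mul_of_nonneg_left m4 r0]

end Pool.Agent.MP_34f9b1_co.Sym

end MrgPart5

-- marker of a merged file
example : 731051 + 509764 = 731051 + 509764 := rfl
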