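import Mathlib.Algebra.BigOperators.Intervals
import Mathlib.Data.Real.Basic
import Mathlib.Algebra.Order.BigOperators.Ring.Finset
import Pool.Agent.MP_34f9b1_co.Sym.Lane
import Pool.Agent.MP_34f9b1_co.Sym.Prof
import Pool.Agent.MP_34f9b1_co.Sym.Tail2
import Mathlib.Tactic.Ring
import Mathlib.Tactic.Linarith
import Mathlib.Tactic.IntervalCases

-- ======== part 0: formerly Pool.Agent.MP_34f9b1_co.Sym.LSpec
section MrgPart0

namespace Pool.Agent.MP_34f9b1_co.Sym

/-- All lanes are at most `B` and vanish from lane `n` on. -/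
def Bd (w n X B : ℕ) : Prop := ∀ i, dg w X i ≤ B ∧ (n ≤ i → dg w X i = 0)

/-- Lane width, number of lanes and a set of probability weights on the lanes. -/
structure Cx where
  w : ℕ
  n : ℕ
  W : Set (ℕ → ℝ)
  hw : 2 ≤ w
  ne : W.Nonempty
  pos : ∀ ω ∈ W, ∀ i, 0 ≤ ω i
  tot : ∀ ω ∈ W, ∑ i ∈ Finset.range n, ω i = 1

/-- Weighted mean of the lanes. -/
noncomputable def ev (w n : ℕ) (ω : ℕ → ℝ) (X : ℕ) : ℝ :=
  ∑ i ∈ Finset.range n, ω i * (dg w X i : ℝ)

/-- The lanes are bounded by `B` and their mean is at most `x`. -/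
def Lo (c : Cx) (X : ℕ) (x : ℝ) (B : ℕ) : Prop :=
  Bd c.w c.n X B ∧ ∀ ω ∈ c.W, ev c.w c.n ω X ≤ x

/-- The lanes are bounded by `B` and their mean is at least `x`. -/
def Hi (c : Cx) (X : ℕ) (x : ℝ) (B : ℕ) : Prop :=
  Bd c.w c.n X B ∧ ∀ ω ∈ c.W, x ≤ ev c.w c.n ω X

/-- The lanes are bounded by `B` and their mean is `x`. -/
def Eqv (c : Cx) (X : ℕ) (x : ℝ) (B : ℕ) : Prop := Lo c X x B ∧ Hi c X x B

/-- DG: digit calculus. -/
structure DgStmt : Prop where
  lt : ∀ w X i, dg w X i < 2 ^ w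
  eq : ∀ w X i, dg w X i = X / 2 ^ (w * i) % 2 ^ w
  add : ∀ {w X Y}, (∀ i, dg w X i + dg w Y i < 2 ^ w) → ∀ i,
    dg w (Nat.add X Y) i = dg w X i + dg w Y i
  sub : ∀ {w X Y}, 0 < w → (∀ i, dg w Y i ≤ dg w X i) → ∀ i,
    dg w (Nat.sub X Y) i = dg w X i - dg w Y i
  mul : ∀ {w k X}, (∀ i, k * dg w X i < 2 ^ w) → ∀ i, dg w (Nat.mul k X) i = k * dg w X i
  shr : ∀ w X k i, dg w (Nat.shiftRight X (Nat.mul w k)) i = dg w X (i + k)
  shl : ∀ w X k i, dg w (Nat.shiftLeft X (Nat.mul w k)) i = if i < k then 0 else dg w X (i - k)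
  land : ∀ w X Y i, dg w (Nat.land X Y) i = dg w X i &&& dg w Y i
  ones : ∀ {w} n i, 0 < w → dg w (ones w n) i = if i < n then 1 else 0
  low : ∀ w k X i, dg w (low w k X) i = if i < k then dg w X i else 0
  split : ∀ w m X i r, r < m → dg w X (m * i + r) = dg w (dg (w * m) X i) r
  sublane : ∀ {w s v} n X i, s + v ≤ w → 0 < w →
    dg w (Nat.land (Nat.shiftRight X s) (Nat.mul (2 ^ v - 1) (Sym.ones w n))) i =
      if i < n then dg w X i / 2 ^ s % 2 ^ v else 0
  lge : ∀ {w n X Y A B}, 0 < w → Bd w n X A → Bd w n Y B → A < 2 ^ (w - 1) → B < 2 ^ (w - 1) →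
    lge (grd w n) X Y = true → ∀ i, dg w Y i ≤ dg w X i
  lsub : ∀ {w n X Y A B}, 0 < w → Bd w n X A → Bd w n Y B → A < 2 ^ (w - 1) → B < 2 ^ (w - 1) →
    ∀ i, dg w (lsub (w - 1) (grd w n) X Y) i = dg w X i - dg w Y i
  lmin : ∀ {w n X Y A B}, 0 < w → Bd w n X A → Bd w n Y B → A < 2 ^ (w - 1) → B < 2 ^ (w - 1) →
    ∀ i, dg w (lmin (w - 1) (grd w n) X Y) i = min (dg w X i) (dg w Y i)
  lmax : ∀ {w n X Y A B}, 0 < w → Bd w n X A → Bd w n Y B → A < 2 ^ (w - 1) → B < 2 ^ (w - 1) →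
    ∀ i, dg w (lmax (w - 1) (grd w n) X Y) i = max (dg w X i) (dg w Y i)
  dup : ∀ {w n s X B}, 0 < w → s ≤ n → Bd w n X B → Bd w (2 * n - s) (dup w n s X) B ∧
    ∀ i, dg w (dup w n s X) i = if i < n then dg w X i else dg w X (i - n + s)
  frc : ∀ {α : Type} (x : ℕ) (f : ℕ → α), frc x f = f x

/-- LN: calculus of weighted means; `o` is `ones c.w c.n`, `G` is `grd c.w c.n`. -/
structure LnStmt : Prop where
  lo_mono : ∀ {c X x x' B B'}, Lo c X x B → x ≤ x' → B ≤ B' → Lo c X x' B'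
  hi_mono : ∀ {c X x x' B B'}, Hi c X x B → x' ≤ x → B ≤ B' → Hi c X x' B'
  const : ∀ (c : Cx) k, k < 2 ^ c.w → Eqv c (Nat.mul k (ones c.w c.n)) k k
  lo_add : ∀ {c X Y x y A B}, Lo c X x A → Lo c Y y B → A + B < 2 ^ c.w →
    Lo c (Nat.add X Y) (x + y) (A + B)
  hi_add : ∀ {c X Y x y A B}, Hi c X x A → Hi c Y y B → A + B < 2 ^ c.w →
    Hi c (Nat.add X Y) (x + y) (A + B)
  lo_mul : ∀ {c X x A} k, Lo c X x A → k * A < 2 ^ c.w → Lo c (Nat.mul k X) (k * x) (k * A)
  hi_mul : ∀ {c X x A} k, Hi c X x A → k * A < 2 ^ c.w → Hi c (Nat.mul k X) (k * x) (k * A)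
  lo_sub : ∀ {c X Y x y A B}, Lo c X x A → Hi c Y y B → (∀ i, dg c.w Y i ≤ dg c.w X i) →
    Lo c (Nat.sub X Y) (x - y) A
  hi_sub : ∀ {c X Y x y A B}, Hi c X x A → Lo c Y y B → (∀ i, dg c.w Y i ≤ dg c.w X i) →
    Hi c (Nat.sub X Y) (x - y) A
  lo_bsub : ∀ {c X Y x y A B} k, Lo c X x A → Hi c Y y B → B ≤ k → A + k < 2 ^ c.w →
    Lo c (Nat.sub (Nat.add X (Nat.mul k (ones c.w c.n))) Y) (x + k - y) (A + k)
  hi_bsub : ∀ {c X Y x y A B} k, Hi c X x A → Lo c Y y B → B ≤ k → A + k < 2 ^ c.w →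
    Hi c (Nat.sub (Nat.add X (Nat.mul k (ones c.w c.n))) Y) (x + k - y) (A + k)
  lo_csub : ∀ {c Y y B} k, Hi c Y y B → B ≤ k → k < 2 ^ c.w →
    Lo c (Nat.sub (Nat.mul k (ones c.w c.n)) Y) (k - y) k
  hi_csub : ∀ {c Y y B} k, Lo c Y y B → B ≤ k → k < 2 ^ c.w →
    Hi c (Nat.sub (Nat.mul k (ones c.w c.n)) Y) (k - y) k
  lo_min : ∀ {c X Y x y A B}, Lo c X x A → Lo c Y y B → A < 2 ^ (c.w - 1) → B < 2 ^ (c.w - 1) →
    Lo c (lmin (c.w - 1) (grd c.w c.n) X Y) (min x y) (min A B)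
  hi_max : ∀ {c X Y x y A B}, Hi c X x A → Hi c Y y B → A < 2 ^ (c.w - 1) → B < 2 ^ (c.w - 1) →
    Hi c (lmax (c.w - 1) (grd c.w c.n) X Y) (max x y) (max A B)
  hi_lsub : ∀ {c X Y x y A B}, Hi c X x A → Lo c Y y B → A < 2 ^ (c.w - 1) → B < 2 ^ (c.w - 1) →
    Hi c (lsub (c.w - 1) (grd c.w c.n) X Y) (max 0 (x - y)) A
  le_of : ∀ {c X Y x y A B}, Lo c X x A → Hi c Y y B → A < 2 ^ (c.w - 1) → B < 2 ^ (c.w - 1) →
    lge (grd c.w c.n) X Y = true → y ≤ x
  bd_of : ∀ {w n X A} k, 0 < w → Bd w n X A → A < 2 ^ (w - 1) → k < 2 ^ (w - 1) →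
    lge (grd w n) (Nat.mul k (ones w n)) X = true → Bd w n X k
  point : ∀ w n i, 2 ≤ w → i < n → ∃ c : Cx, c.w = w ∧ c.n = n ∧
    (∀ X x B, Lo c X x B ↔ Bd w n X B ∧ (dg w X i : ℝ) ≤ x) ∧
    ∀ X x B, Hi c X x B ↔ Bd w n X B ∧ x ≤ (dg w X i : ℝ)
  dup : ∀ (w n s : ℕ) (ω : ℕ → ℝ) (f : ℝ), 0 < w → s ≤ n → (∀ i, 0 ≤ ω i) →
    ∑ i ∈ Finset.range n, ω i = 1 → 0 ≤ f → f ≤ ∑ i ∈ Finset.Ico s n, ω i →
    ∃ ω' : ℕ → ℝ, (∀ i, 0 ≤ ω' i) ∧ ∑ i ∈ Finset.range (2 * n - s), ω' i = 1 ∧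
      ∑ i ∈ Finset.Ico n (2 * n - s), ω' i = f ∧
      ∀ X B, Bd w n X B → ev w (2 * n - s) ω' (dup w n s X) = ev w n ω X

end Pool.Agent.MP_34f9b1_co.Sym

end MrgPart0

-- ======== part 1: formerly Pool.Agent.MP_34f9b1_co.Sym.Dg
section MrgPart1

namespace Pool.Agent.MP_34f9b1_co.Sym

namespace DG

theorem eq' (w X i : ℕ) : dg w X i = X / 2 ^ (w * i) % 2 ^ w := by
  show (X >>> (w * i)) &&& (2 ^ w - 1) = _
  rw [Nat.and_two_pow_sub_one_eq_mod, Nat.shiftRight_eq_div_pow]

theorem lt' (w X i : ℕ) : dg w X i < 2 ^ w := by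
  rw [eq']; exact Nat.mod_lt _ (Nat.two_pow_pos w)

theorem tb (w X i j : ℕ) :
    (dg w X i).testBit j = (decide (j < w) && X.testBit (w * i + j)) := by
  show ((X >>> (w * i)) &&& (2 ^ w - 1)).testBit j = _
  rw [Nat.testBit_and, Nat.testBit_two_pow_sub_one, Nat.testBit_shiftRight, Bool.and_comm]

theorem zero' (w X : ℕ) : dg w X 0 = X % 2 ^ w := by
  rw [eq']; simp

theorem succ' (w X i : ℕ) : dg w X (i + 1) = dg w (X / 2 ^ w) i := by
  rw [eq', eq', Nat.div_div_eq_div_mul, ← Nat.pow_add, Nat.mul_succ, Nat.add_comm (w * i) w]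

theorem cons_zero {w : ℕ} (q : ℕ) {r : ℕ} (hr : r < 2 ^ w) : dg w (2 ^ w * q + r) 0 = r := by
  rw [zero', Nat.mul_add_mod, Nat.mod_eq_of_lt hr]

theorem cons_succ {w : ℕ} (q : ℕ) {r : ℕ} (hr : r < 2 ^ w) (i : ℕ) :
    dg w (2 ^ w * q + r) (i + 1) = dg w q i := by
  rw [succ', Nat.mul_add_div (Nat.two_pow_pos w), Nat.div_eq_of_lt hr, Nat.add_zero]

theorem add' {w : ℕ} (i : ℕ) : ∀ {X Y : ℕ}, (∀ i, dg w X i + dg w Y i < 2 ^ w) →
    dg w (X + Y) i = dg w X i + dg w Y i := by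
  have key : ∀ X Y : ℕ, X + Y = 2 ^ w * (X / 2 ^ w + Y / 2 ^ w) + (X % 2 ^ w + Y % 2 ^ w) := by
    intro X Y
    have h1 := Nat.div_add_mod X (2 ^ w)
    have h2 := Nat.div_add_mod Y (2 ^ w)
    rw [Nat.mul_add]; omega
  induction i with
  | zero =>
    intro X Y h
    have h0 := h 0
    rw [zero', zero'] at h0
    rw [key X Y, cons_zero _ h0, zero', zero']
  | succ i ih =>
    intro X Y h
    have h0 := h 0
    rw [zero', zero'] at h0
    rw [key X Y, cons_succ _ h0, succ', succ']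
    exact ih fun j => by rw [← succ', ← succ']; exact h (j + 1)

theorem le_of_dg {w : ℕ} (hw : 0 < w) (Y : ℕ) : ∀ {X : ℕ}, (∀ i, dg w Y i ≤ dg w X i) → Y ≤ X := by
  induction Y using Nat.strong_induction_on with
  | _ Y ih =>
    intro X h
    rcases Nat.eq_zero_or_pos Y with rfl | hY
    · exact Nat.zero_le _
    have h0 := h 0
    rw [zero', zero'] at h0
    have h1 : Y / 2 ^ w ≤ X / 2 ^ w :=
      ih _ (Nat.div_lt_self hY (Nat.one_lt_two_pow (by omega)))
        fun j => by rw [← succ', ← succ']; exact h (j + 1)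
    have h2 := Nat.div_add_mod X (2 ^ w)
    have h3 := Nat.div_add_mod Y (2 ^ w)
    have h4 := Nat.mul_le_mul_left (2 ^ w) h1
    omega

theorem sub' {w : ℕ} (hw : 0 < w) (i : ℕ) : ∀ {X Y : ℕ}, (∀ i, dg w Y i ≤ dg w X i) →
    dg w (X - Y) i = dg w X i - dg w Y i := by
  have key : ∀ X Y : ℕ, (∀ i, dg w Y i ≤ dg w X i) →
      X - Y = 2 ^ w * (X / 2 ^ w - Y / 2 ^ w) + (X % 2 ^ w - Y % 2 ^ w) := by
    intro X Y h
    have h0 := h 0
    rw [zero', zero'] at h0
    have h1 : Y / 2 ^ w ≤ X / 2 ^ w :=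
      le_of_dg hw _ fun j => by rw [← succ', ← succ']; exact h (j + 1)
    have h2 := Nat.div_add_mod X (2 ^ w)
    have h3 := Nat.div_add_mod Y (2 ^ w)
    have h4 := Nat.mul_le_mul_left (2 ^ w) h1
    rw [Nat.mul_sub]; omega
  have hlt : ∀ X Y : ℕ, X % 2 ^ w - Y % 2 ^ w < 2 ^ w := fun X Y =>
    lt_of_le_of_lt (Nat.sub_le _ _) (Nat.mod_lt _ (Nat.two_pow_pos w))
  induction i with
  | zero =>
    intro X Y h
    rw [key X Y h, cons_zero _ (hlt X Y), zero', zero']
  | succ i ih =>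
    intro X Y h
    rw [key X Y h, cons_succ _ (hlt X Y), succ', succ']
    exact ih fun j => by rw [← succ', ← succ']; exact h (j + 1)

theorem mul' {w k : ℕ} (i : ℕ) : ∀ {X : ℕ}, (∀ i, k * dg w X i < 2 ^ w) →
    dg w (k * X) i = k * dg w X i := by
  have key : ∀ X : ℕ, k * X = 2 ^ w * (k * (X / 2 ^ w)) + k * (X % 2 ^ w) := by
    intro X
    rw [Nat.mul_left_comm, ← Nat.mul_add, Nat.div_add_mod]
  induction i with
  | zero =>
    intro X h
    have h0 := h 0
    rw [zero'] at h0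
    rw [key X, cons_zero _ h0, zero']
  | succ i ih =>
    intro X h
    have h0 := h 0
    rw [zero'] at h0
    rw [key X, cons_succ _ h0, succ']
    exact ih fun j => by rw [← succ']; exact h (j + 1)

theorem shr' (w X k i : ℕ) : dg w (X >>> (w * k)) i = dg w X (i + k) := by
  apply Nat.eq_of_testBit_eq
  intro j
  rw [tb, tb, Nat.testBit_shiftRight, Nat.mul_add]
  congr 2; omega

theorem shl' (w X k i : ℕ) :
    dg w (X <<< (w * k)) i = if i < k then 0 else dg w X (i - k) := by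
  apply Nat.eq_of_testBit_eq
  intro j
  rw [tb, Nat.testBit_shiftLeft]
  by_cases hj : j < w
  · split_ifs with h
    · have h1 : w * (i + 1) ≤ w * k := Nat.mul_le_mul_left w h
      rw [Nat.mul_succ] at h1
      have h2 : ¬ (w * i + j ≥ w * k) := by omega
      simp [h2]
    · obtain ⟨d, rfl⟩ := Nat.exists_eq_add_of_le (Nat.le_of_not_lt h)
      rw [tb, Nat.add_sub_cancel_left, Nat.mul_add]
      have h2 : w * k + w * d + j ≥ w * k := by omega
      have h3 : w * k + w * d + j - w * k = w * d + j := by omega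
      simp [h2, h3]
  · split_ifs with h
    · simp [hj]
    · rw [tb]; simp [hj]

theorem land' (w X Y i : ℕ) : dg w (X &&& Y) i = dg w X i &&& dg w Y i := by
  apply Nat.eq_of_testBit_eq
  intro j
  rw [Nat.testBit_and, tb, tb, tb, Nat.testBit_and]
  cases decide (j < w) <;> simp

theorem ones_succ {w : ℕ} (hw : 0 < w) (n : ℕ) : ones w (n + 1) = 2 ^ w * ones w n + 1 := by
  show (2 ^ (w * (n + 1)) - 1) / (2 ^ w - 1) = 2 ^ w * ((2 ^ (w * n) - 1) / (2 ^ w - 1)) + 1
  have h1 : 1 < 2 ^ w := Nat.one_lt_two_pow (by omega)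
  have hd : 2 ^ w - 1 ∣ 2 ^ (w * n) - 1 := by
    rw [Nat.pow_mul]
    generalize 2 ^ w = b at h1
    obtain ⟨e, rfl⟩ : ∃ e, b = e + 1 := ⟨b - 1, by omega⟩
    rw [Nat.add_sub_cancel]
    have : ∀ m : ℕ, ∃ c, (e + 1) ^ m = e * c + 1 := by
      intro m
      induction m with
      | zero => exact ⟨0, by simp⟩
      | succ m ih =>
        obtain ⟨c, hc⟩ := ih
        refine ⟨c * (e + 1) + 1, ?_⟩
        rw [Nat.pow_succ, hc, Nat.add_mul, Nat.one_mul, Nat.mul_add e, Nat.mul_one, Nat.mul_assoc,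
          Nat.add_assoc]
    obtain ⟨c, hc⟩ := this n
    exact ⟨c, by rw [hc, Nat.add_sub_cancel]⟩
  obtain ⟨c, hc⟩ := hd
  have h2 : 0 < 2 ^ (w * n) := Nat.two_pow_pos _
  have h3 : 2 ^ (w * n) = (2 ^ w - 1) * c + 1 := by omega
  rw [hc, Nat.mul_div_cancel_left _ (by omega), Nat.mul_succ, Nat.pow_add, h3]
  obtain ⟨e, he⟩ : ∃ e, 2 ^ w = e + 1 := ⟨2 ^ w - 1, by omega⟩
  rw [he, Nat.add_sub_cancel]
  have h4 : (e * c + 1) * (e + 1) - 1 = e * ((e + 1) * c + 1) := by
    rw [Nat.add_mul, Nat.one_mul, ← Nat.add_assoc, Nat.add_sub_cancel, Nat.mul_add e, Nat.mul_one,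
      Nat.mul_assoc, Nat.mul_comm c]
  rw [h4, Nat.mul_div_cancel_left _ (by omega)]

theorem dg_zero (w i : ℕ) : dg w 0 i = 0 := by
  rw [eq']; simp

theorem ones' {w : ℕ} (hw : 0 < w) (n : ℕ) : ∀ i, dg w (ones w n) i = if i < n then 1 else 0 := by
  have h1 : 1 < 2 ^ w := Nat.one_lt_two_pow (by omega)
  induction n with
  | zero =>
    intro i
    have : ones w 0 = 0 := by
      show (2 ^ (w * 0) - 1) / (2 ^ w - 1) = 0
      simp
    rw [this, dg_zero]; simp
  | succ n ih =>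
    intro i
    rw [ones_succ hw]
    cases i with
    | zero => rw [cons_zero _ h1]; simp
    | succ i => rw [cons_succ _ h1, ih]; simp

theorem low' (w k X i : ℕ) : dg w (low w k X) i = if i < k then dg w X i else 0 := by
  apply Nat.eq_of_testBit_eq
  intro j
  rw [tb]
  show (_ && (X &&& (2 ^ (w * k) - 1)).testBit _) = _
  rw [Nat.testBit_and, Nat.testBit_two_pow_sub_one]
  by_cases hj : j < w
  · split_ifs with h
    · have h1 : w * (i + 1) ≤ w * k := Nat.mul_le_mul_left w h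
      rw [Nat.mul_succ] at h1
      have h2 : w * i + j < w * k := by omega
      rw [tb]; simp [h2]
    · have h1 : w * k ≤ w * i := Nat.mul_le_mul_left w (Nat.le_of_not_lt h)
      have h2 : ¬ (w * i + j < w * k) := by omega
      simp [h2]
  · split_ifs with h
    · rw [tb]; simp [hj]
    · simp [hj]

theorem split' (w m X i r : ℕ) (hr : r < m) :
    dg w X (m * i + r) = dg w (dg (w * m) X i) r := by
  apply Nat.eq_of_testBit_eq
  intro j
  rw [tb, tb, tb]
  by_cases hj : j < w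
  · have h1 : w * (r + 1) ≤ w * m := Nat.mul_le_mul_left w hr
    rw [Nat.mul_succ] at h1
    have h2 : w * r + j < w * m := by omega
    rw [Nat.mul_add, Nat.mul_assoc, Nat.add_assoc]
    simp [h2]
  · simp [hj]

theorem cmul {w k : ℕ} (hw : 0 < w) (hk : k < 2 ^ w) (n i : ℕ) :
    dg w (k * ones w n) i = if i < n then k else 0 := by
  rw [mul' i fun j => by
    rw [ones' hw]; split_ifs
    · rwa [Nat.mul_one]
    · exact Nat.two_pow_pos w, ones' hw]
  split_ifs <;> simp

theorem sublane' {w s v : ℕ} (n X i : ℕ) (h : s + v ≤ w) (hw : 0 < w) :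
    dg w ((X >>> s) &&& ((2 ^ v - 1) * ones w n)) i =
      if i < n then dg w X i / 2 ^ s % 2 ^ v else 0 := by
  have h1 : 2 ^ v ≤ 2 ^ w := Nat.pow_le_pow_right (by omega) (by omega)
  have h2 : 0 < 2 ^ v := Nat.two_pow_pos v
  rw [land', cmul hw (by omega)]
  split_ifs with hi
  · apply Nat.eq_of_testBit_eq
    intro j
    rw [Nat.testBit_and, Nat.testBit_two_pow_sub_one, Nat.testBit_mod_two_pow,
      Nat.testBit_div_two_pow, tb, tb, Nat.testBit_shiftRight]
    by_cases hj : j < v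
    · have h3 : j < w := by omega
      have h4 : j + s < w := by omega
      have h5 : s + (w * i + j) = w * i + (j + s) := by omega
      simp [hj, h3, h4, h5]
    · simp [hj]
  · simp

theorem half {w : ℕ} (hw : 0 < w) : 2 ^ w = 2 * 2 ^ (w - 1) := by
  obtain ⟨v, rfl⟩ : ∃ v, w = v + 1 := ⟨w - 1, by omega⟩
  rw [Nat.add_sub_cancel, Nat.pow_succ, Nat.mul_comm]

theorem grd' {w : ℕ} (hw : 0 < w) (n i : ℕ) :
    dg w (grd w n) i = if i < n then 2 ^ (w - 1) else 0 := by
  show dg w (ones w n <<< (w - 1)) i = _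
  have h1 := half hw
  have h2 : 0 < 2 ^ (w - 1) := Nat.two_pow_pos _
  rw [Nat.shiftLeft_eq, Nat.mul_comm, cmul hw (by omega)]

theorem diff {w n X Y A B : ℕ} (hw : 0 < w) (hX : Bd w n X A) (hY : Bd w n Y B)
    (hA : A < 2 ^ (w - 1)) (hB : B < 2 ^ (w - 1)) (i : ℕ) :
    dg w (X + grd w n - Y) i = if i < n then dg w X i + 2 ^ (w - 1) - dg w Y i else 0 := by
  have h1 := half hw
  have ha : ∀ j, dg w (X + grd w n) j = dg w X j + if j < n then 2 ^ (w - 1) else 0 := by
    intro j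
    rw [add' j fun l => by
      have := (hX l).1
      rw [grd' hw]; split_ifs <;> omega, grd' hw]
  rw [sub' hw i fun l => by
    have h2 := (hY l).1
    have h3 := (hY l).2
    rw [ha]; split_ifs <;> omega, ha]
  have h2 := (hX i).2
  split_ifs <;> omega

theorem top_bit {v d : ℕ} (hd : d < 2 * 2 ^ v) :
    d &&& 2 ^ v = if 2 ^ v ≤ d then 2 ^ v else 0 := by
  apply Nat.eq_of_testBit_eq
  intro j
  rw [Nat.testBit_and, Nat.testBit_two_pow]
  split_ifs with h
  · rw [Nat.testBit_two_pow]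
    by_cases hj : v = j
    · subst hj
      rw [Nat.testBit_of_two_pow_le_and_two_pow_add_one_gt h (by rw [Nat.pow_succ]; omega)]
      simp
    · simp [hj]
  · by_cases hj : v = j
    · subst hj
      rw [Nat.testBit_lt_two_pow (by omega)]
      simp
    · simp [hj]

theorem lge' {w n X Y A B : ℕ} (hw : 0 < w) (hX : Bd w n X A) (hY : Bd w n Y B)
    (hA : A < 2 ^ (w - 1)) (hB : B < 2 ^ (w - 1)) (h : lge (grd w n) X Y = true) (i : ℕ) :
    dg w Y i ≤ dg w X i := by
  have h1 : (X + grd w n - Y) &&& grd w n = grd w n := Nat.eq_of_beq_eq_true h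
  have h2 := congrArg (fun Z => dg w Z i) h1
  simp only [land', diff hw hX hY hA hB, grd' hw] at h2
  have h3 := (hX i).1
  have h4 := (hY i).1
  have h5 := (hY i).2
  by_cases hi : i < n
  · rw [if_pos hi, if_pos hi, top_bit (by omega)] at h2
    split_ifs at h2 <;> omega
  · omega

theorem lsub' {w n X Y A B : ℕ} (hw : 0 < w) (hX : Bd w n X A) (hY : Bd w n Y B)
    (hA : A < 2 ^ (w - 1)) (hB : B < 2 ^ (w - 1)) (i : ℕ) :
    dg w (lsub (w - 1) (grd w n) X Y) i = dg w X i - dg w Y i := by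
  show dg w ((X + grd w n - Y) &&& (((X + grd w n - Y) &&& grd w n) -
    (((X + grd w n - Y) &&& grd w n) >>> (w - 1)))) i = _
  have hD := diff hw hX hY hA hB
  generalize X + grd w n - Y = D at hD ⊢
  have hp : 0 < 2 ^ (w - 1) := Nat.two_pow_pos _
  have hM : ∀ j, dg w (D &&& grd w n) j =
      if j < n ∧ dg w Y j ≤ dg w X j then 2 ^ (w - 1) else 0 := by
    intro j
    have h3 := (hX j).1
    have h4 := (hY j).1
    rw [land', hD, grd' hw]
    by_cases hj : j < n
    · rw [if_pos hj, if_pos hj, top_bit (by omega)]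
      split_ifs <;> omega
    · simp [hj]
  have hS : ∀ j, dg w ((D &&& grd w n) >>> (w - 1)) j =
      if j < n ∧ dg w Y j ≤ dg w X j then 1 else 0 := by
    intro j
    have h3 := (hX j).1
    have h4 := (hY j).1
    have e : grd w n >>> (w - 1) = (2 ^ 1 - 1) * ones w n := by
      show (ones w n <<< (w - 1)) >>> (w - 1) = _
      rw [Nat.shiftLeft_shiftRight]; simp
    rw [Nat.shiftRight_and_distrib, e, sublane' n D j (by omega) hw, hD]
    by_cases hj : j < n
    · rw [if_pos hj, if_pos hj]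
      split_ifs with h
      · have : (dg w X j + 2 ^ (w - 1) - dg w Y j) / 2 ^ (w - 1) = 1 :=
          Nat.div_eq_of_lt_le (by omega) (by omega)
        rw [this]; rfl
      · rw [Nat.div_eq_of_lt (by omega)]; rfl
    · simp [hj]
  rw [land', sub' hw i fun l => by rw [hM, hS]; split_ifs <;> omega, hM, hS, hD]
  have h3 := (hX i).1
  have h4 := (hY i).1
  have h5 := (hX i).2
  by_cases h : i < n ∧ dg w Y i ≤ dg w X i
  · rw [if_pos h, if_pos h, if_pos h.1, Nat.and_two_pow_sub_one_eq_mod]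
    have e : dg w X i + 2 ^ (w - 1) - dg w Y i = dg w X i - dg w Y i + 2 ^ (w - 1) := by omega
    rw [e, Nat.add_mod_right, Nat.mod_eq_of_lt (by omega)]
  · rw [if_neg h, if_neg h, Nat.sub_zero, Nat.and_zero]
    omega

theorem dup' {w n s X B : ℕ} (hX : Bd w n X B) (i : ℕ) :
    dg w (dup w n s X) i = if i < n then dg w X i else dg w X (i - n + s) := by
  show dg w (X + (X >>> (w * s)) <<< (w * n)) i = _
  rw [add' i fun l => by
    have h1 := (hX l).2
    have h2 := lt' w X l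
    have h3 := lt' w X (l - n + s)
    rw [shl', shr']; split_ifs <;> omega, shl', shr']
  have h1 := (hX i).2
  split_ifs <;> omega

end DG

theorem dgs : DgStmt where
  lt := DG.lt'
  eq := DG.eq'
  add := fun h i => DG.add' i h
  sub := fun hw h i => DG.sub' hw i h
  mul := fun h i => DG.mul' i h
  shr := DG.shr'
  shl := DG.shl'
  land := DG.land'
  ones := fun n i hw => DG.ones' hw n i
  low := DG.low'
  split := DG.split'
  sublane := fun n X i h hw => DG.sublane' n X i h hw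
  lge := fun hw hX hY hA hB h i => DG.lge' hw hX hY hA hB h i
  lsub := fun hw hX hY hA hB i => DG.lsub' hw hX hY hA hB i
  lmin := fun {w n X Y A B} hw hX hY hA hB i => by
    show dg w (X - lsub (w - 1) (grd w n) X Y) i = _
    rw [DG.sub' hw i fun l => by rw [DG.lsub' hw hX hY hA hB]; omega, DG.lsub' hw hX hY hA hB]
    omega
  lmax := fun {w n X Y A B} hw hX hY hA hB i => by
    show dg w (Y + lsub (w - 1) (grd w n) X Y) i = _
    rw [DG.add' i fun l => by
      have h1 := DG.lt' w X l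
      have h2 := DG.lt' w Y l
      rw [DG.lsub' hw hX hY hA hB]; omega, DG.lsub' hw hX hY hA hB]
    omega
  dup := fun {w n s X B} _ hs hX => ⟨fun i => by
    have h1 := hX i
    have h2 := hX (i - n + s)
    rw [DG.dup' hX]
    split_ifs <;> omega, DG.dup' hX⟩
  frc := fun _ _ => rfl

end Pool.Agent.MP_34f9b1_co.Sym

end MrgPart1

-- ======== part 2: formerly Pool.Agent.MP_34f9b1_co.Sym.G2Chk
section MrgPart2

namespace Pool.Agent.MP_34f9b1_co.Sym.G2

/-- Search tree: a leaf holds multipliers, a node a variable and a cut. -/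
inductive Tr
  | l (c : Nat)
  | n (w : Nat) (a b : Tr)

/-- A node of a profile: height, certified width, bound for the homogeneous coordinates, tree. -/
structure Nd where
  y : Nat
  w : Nat
  t : Nat
  tr : Tr

/-- The lane at bit offset `s`. -/
def gl (X s : Nat) : Nat := Nat.land (Nat.shiftRight X s) 0xffffffffffffffffffffffff

/-- Bit offset stored at position `t` of the table entry `e`. -/
def fld (e t : Nat) : Nat := Nat.land (Nat.shiftRight e t) 4095

/-- Table entry of a fact. -/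
def ent (q : Nat) : Nat :=
  Nat.shiftRight (nat_lit 0x2407207801e02406001203600c06603006c07802a02a05401804e00c05a07801201807203000c07201e06c01200c07207800602407801203000c07e01806c07801202a06c01804800c07207207204804e01201201200603c03607207204205401201201200604203000601e07802400607e06607800c06000602a07803000607e05a07800c05401201e07802400607206606c00c06001202a07803000607205a06c00c05407e07e00c04207e00600601207804207e07e01804207200600601206c04207e07e02404806600600601206003c07e07e03004805a00600601205403c07e07e07e07e07e00600607800600607e07e07e07e07200600606c00600607e07e07e07e06600600606000600607e07e07e07e05a00600605400600607e07e00c07207e00600603607801207e07e01807207200600603606c01207e07e02407206600600603006001207e07e03007205a00600603005401201806c07e07e04e06c01807200600603006c07e07e04805401805a00600600c07207e07e03607801207e00600602407207e07e03006001206600600607e07e07e07e03000600603600600607804807805404200c03c03600c03007e07e07805402400600603600c03007805407e07e03600c03001e00600607e07e07803c02a00600604e00c0480)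
    (Nat.mul (nat_lit 120) q)

/-- A linearised product plus a variable plus a constant. -/
def vec (ci cj si sj sk c : Nat) : Nat :=
  Nat.add (Nat.add c (Nat.shiftLeft 65536 sk)) (Nat.add (Nat.shiftLeft cj si) (Nat.shiftLeft ci sj))

/-- Constant lane plus the scalar product with a box side, which is stored in reverse order. -/
def sm (D B : Nat) : Nat :=
  Nat.add (gl D 0) (gl (Nat.mul (Nat.shiftRight D 96) (Nat.shiftRight B 96)) 1920)

/-- Final test of a leaf. -/
def fin (LO HI L G : Nat) : Bool :=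
  Nat.ble (Nat.succ (sm (lsub 95 (grd 96 22) G L) HI)) (sm (lsub 95 (grd 96 22) L G) LO)

/-- Bit test. -/
def bit (r m : Nat) : Bool := Nat.beq (Nat.land r m) 0

/-- Add one row; `ci`, `cj`, `cl`, `cm` are the corners. -/
def stp (ih : Nat → Nat → Nat → Bool) (c L G e m ci cj cl cm : Nat) : Bool :=
  ih (Nat.shiftRight c (nat_lit 24))
    (Nat.add L (Nat.mul m (Nat.add
      (Nat.add (Nat.mul cl cm) (Nat.shiftLeft (nat_lit 65536)
        (Nat.land (Nat.shiftRight e (nat_lit 24)) (nat_lit 4095))))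
      (Nat.add (Nat.shiftLeft cj (Nat.land e (nat_lit 4095)))
        (Nat.shiftLeft ci (Nat.land (Nat.shiftRight e (nat_lit 12)) (nat_lit 4095)))))))
    (Nat.add G (Nat.mul m (Nat.add
      (Nat.add (Nat.mul ci cj) (Nat.shiftLeft (nat_lit 65536)
        (Nat.land (Nat.shiftRight e (nat_lit 60)) (nat_lit 4095))))
      (Nat.add (Nat.shiftLeft cm (Nat.land (Nat.shiftRight e (nat_lit 36)) (nat_lit 4095)))
        (Nat.shiftLeft cl (Nat.land (Nat.shiftRight e (nat_lit 48)) (nat_lit 4095)))))))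

/-- Read the corners. -/
def stq (ih : Nat → Nat → Nat → Bool) (c L G e B B' B'' : Nat) : Bool :=
  stp ih c L G e (Nat.land (Nat.shiftRight c (nat_lit 7)) (nat_lit 131071))
    (Nat.land (Nat.shiftRight B (Nat.land (Nat.shiftRight e (nat_lit 72)) (nat_lit 4095)))
      (nat_lit 0xffffffffffffffffffffffff))
    (Nat.land (Nat.shiftRight B (Nat.land (Nat.shiftRight e (nat_lit 84)) (nat_lit 4095)))
      (nat_lit 0xffffffffffffffffffffffff))
    (Nat.land (Nat.shiftRight B' (Nat.land (Nat.shiftRight e (nat_lit 96)) (nat_lit 4095)))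
      (nat_lit 0xffffffffffffffffffffffff))
    (Nat.land (Nat.shiftRight B'' (Nat.land (Nat.shiftRight e (nat_lit 108)) (nat_lit 4095)))
      (nat_lit 0xffffffffffffffffffffffff))

/-- Choice of a box side. -/
noncomputable def sel (c m X Y : Nat) : Nat :=
  Bool.rec (motive := fun _ => Nat) Y X (Nat.beq (Nat.land c m) (nat_lit 0))

/-- Sum the rows of a leaf and test the box. -/
noncomputable def rows (LO HI f : Nat) : Nat → Nat → Nat → Bool :=
  Nat.rec (motive := fun _ => Nat → Nat → Nat → Bool) (fun _ _ _ => false)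
    (fun _ ih c L G => Bool.rec (motive := fun _ => Bool)
      (stq ih c L G (ent (Nat.land c (nat_lit 31))) (sel c (nat_lit 32) LO HI)
        (sel c (nat_lit 64) LO HI) (sel c (nat_lit 64) HI LO))
      (frc L fun L' => frc G fun G' => fin LO HI L' G') (Nat.beq c (nat_lit 0))) f

/-- Check a tree on a box. -/
noncomputable def chk (t : Tr) : Nat → Nat → Bool :=
  Tr.rec (motive := fun _ => Nat → Nat → Bool)
    (fun c LO HI => frc (Nat.land c 16777215) fun z => rows LO HI 17 c z z)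
    (fun w _ _ ia ib LO HI => frc (Nat.mul 96 (Nat.land w 31)) fun s => and
      (frc (Nat.xor (Nat.sub HI (Nat.shiftLeft (Nat.sub (gl HI s) (Nat.shiftRight w 5)) s))
        (gl w 0)) fun H => ia LO H)
      (frc (Nat.xor (Nat.add LO (Nat.shiftLeft (Nat.sub (Nat.shiftRight w 5) (gl LO s)) s))
        (gl w 0)) fun L => ib L HI)) t

/-- Pack a list into lanes. -/
noncomputable def pk (l : List Nat) : Nat :=
  List.rec (motive := fun _ => Nat) 0 (fun a _ s => Nat.add (Nat.mul (Nat.pow 2 96) s) a) l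

/-- Lower ends of the root box. -/
def lo0 (u v y w : Nat) : List Nat :=
  [0, 65536, 0, 65536, 0, 65536, 0, 65536, 0, 0, 0, 0, 0, 0, 0, w, v, u, y, 32768, 65536, 0]

/-- Upper ends of the root box. -/
def hi0 (u v y w t : Nat) : List Nat :=
  [0, 131072, 131072, t, t, 131072, 131072, t, t, 65536, 65536, 65536, 65536, 65536, 65536,
    w, v, u, y, 32768, 65536, 0]

/-- A node is justified. -/
noncomputable def just (u v : Nat) (d : Nd) : Bool :=
  cond (Nat.beq d.w 0) (Nat.ble d.y 65536)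
    (cond (Nat.beq d.t 0) (and (Nat.beq d.y 32768) (Nat.ble d.w u))
      (and (and (and (Nat.ble d.t 8388608) (Nat.ble d.w 131072)) (and (Nat.ble v 131072)
        (and (Nat.ble d.y 65536) (Nat.ble 4294967296 (Nat.mul d.t (Nat.sub 65536 d.y))))))
        (frc (pk (lo0 u v d.y d.w)) fun L => frc (pk (hi0 u v d.y d.w d.t)) fun H => chk d.tr L H)))

/-- A line is below two nodes. -/
def und (a b y w y' w' : Nat) : Bool :=
  and (Nat.ble (131072 * a) (1024 * w + b * y)) (Nat.ble (131072 * a) (1024 * w' + b * y'))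

/-- The nodes of a bin. -/
noncomputable def nodes (P : Prof) (u v : Nat) (l : List Nd) : Nat → Nat → Bool :=
  List.rec (motive := fun _ => Nat → Nat → Bool) (fun y _ => Nat.ble 65536 y)
    (fun d _ ih y w => and (and (just u v d) (or (or (und P.a1 P.b1 y w d.y d.w)
      (und P.a2 P.b2 y w d.y d.w)) (or (und P.a3 P.b3 y w d.y d.w) (und P.a4 P.b4 y w d.y d.w))))
      (ih d.y d.w)) l

/-- The chain of bins. -/
noncomputable def chain : Nat → List Prof → List (Nat × List Nd) → Bool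
  | u, P :: Ps, b :: bs => and (nodes P u b.1 b.2 0 131072) (chain b.1 Ps bs)
  | u, _, _ => Nat.ble 131072 u

end Pool.Agent.MP_34f9b1_co.Sym.G2

end MrgPart2

-- ======== part 3: formerly Pool.Agent.MP_34f9b1_co.Sym.Patches
section MrgPart3

namespace Pool.Agent.MP_34f9b1_co.Sym

/-- The list of profiles. -/
def Ps : List Prof :=
  [⟨1024, 1026, 1351, 1787, 5681, 11263, 8855, 17712⟩,
   ⟨1024, 922, 1109, 1265, 3129, 6051, 5235, 10472⟩,
   ⟨1024, 820, 1138, 1277, 2169, 3998, 3983, 7967⟩,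
   ⟨1024, 717, 1193, 1394, 1880, 3327, 3399, 6800⟩,
   ⟨1024, 594, 1271, 1583, 1833, 3218, 3524, 7049⟩]

end Pool.Agent.MP_34f9b1_co.Sym

end MrgPart3

-- ======== part 4: formerly Pool.Agent.MP_34f9b1_co.Sym.TChk
section MrgPart4

namespace Pool.Agent.MP_34f9b1_co.Sym

/-- `f lo && ... && f (lo + n - 1)`. -/
noncomputable def allR (lo n : Nat) (f : Nat → Bool) : Bool :=
  Nat.rec (motive := fun _ => Bool) true (fun k r => and (frc (Nat.add lo k) f) r) n

/-- Lane `i` holds `i`. -/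
noncomputable def ramp (w n : Nat) : Nat :=
  Nat.rec (motive := fun _ => Nat) 0 (fun k r => Nat.add r (Nat.shiftLeft k (Nat.mul w k))) n

/-- One line of the profile, with bias `KO`. -/
def tln (α β OA KO Y : Nat) : Nat := Nat.sub (Nat.add (Nat.mul α OA) KO) (Nat.mul β Y)

/-- Lanes of `Tf`; `A` is the size, `OA` its complement, `Y` the height. -/
def tev (P : Prof) (v G KO A OA Y : Nat) : Nat :=
  Nat.add (Nat.mul 1024 A)
    (lmin v G (lmin v G (tln P.a1 P.b1 OA KO Y) (tln P.a2 P.b2 OA KO Y))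
      (lmin v G (tln P.a3 P.b3 OA KO Y) (tln P.a4 P.b4 OA KO Y)))

/-- Size bounds on a profile. -/
def Prof.bd (P : Prof) : Bool :=
  Nat.beq P.a1 1024 && Nat.ble 1024 P.a2 && Nat.ble 1024 P.a3 && Nat.ble 1024 P.a4 &&
    Nat.ble P.a2 16383 && Nat.ble P.a3 16383 && Nat.ble P.a4 16383 &&
    Nat.ble P.b1 32767 && Nat.ble P.b2 32767 && Nat.ble P.b3 32767 && Nat.ble P.b4 32767

namespace Tab

/-- `512 z + 256` for rows of height `H / 256`; lane `i` is the level `1/2 - i/256`. -/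
noncomputable def z2 (H : Nat) : Nat :=
  lmax 31 (grd 32 257) (Nat.sub (Nat.mul 512 (ones 32 257)) (Nat.mul 2 (ramp 32 257)))
    (lsub 31 (grd 32 257) (Nat.mul 2 (ramp 32 257)) (Nat.mul (Nat.mul 2 H) (ones 32 257)))

/-- `2^19 Tz + 2^25` for the size `A / 256`. -/
noncomputable def tz (P : Prof) (H A : Nat) : Nat :=
  tev P 31 (grd 32 257) (Nat.mul 33554432 (ones 32 257)) (Nat.mul (Nat.mul 2 A) (ones 32 257))
    (Nat.mul (Nat.sub 512 (Nat.mul 2 A)) (ones 32 257))
    (lsub 31 (grd 32 257) (Nat.add (z2 H) (Nat.mul A (ones 32 257))) (Nat.mul 256 (ones 32 257)))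

/-- `2^20 DW + 2^26 + 2^20`. -/
noncomputable def dfull (P : Prof) (w H A : Nat) : Nat :=
  cond (Nat.beq w 0)
    (Nat.add
      (lmin 31 (grd 32 257) (Nat.add (tz P H H) (tz P H A))
        (Nat.add (Nat.mul 2 (tz P H H)) (Nat.mul (Nat.mul 2048 A) (ones 32 257))))
      (Nat.mul (Nat.sub 1048576 (Nat.mul 4096 (Nat.add H A))) (ones 32 257)))
    (Nat.add (Nat.mul 2 (tz P H A))
      (Nat.mul (Nat.sub 1048576 (Nat.mul 4096 (Nat.add H (Nat.mul 2 A)))) (ones 32 257)))

/-- `2^15 DW + 2129920`, rounded down. -/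
noncomputable def dw (P : Prof) (w H A : Nat) : Nat :=
  Nat.land (Nat.shiftRight (dfull P w H A) 5) (Nat.mul 134217727 (ones 32 257))

/-- Cell lanes `u = 255 - τ`: first the lower vertex, then the upper vertex. -/
noncomputable def dpr (P : Prof) (w H A : Nat) : Nat :=
  Nat.add (Nat.shiftRight (dw P w H A) 32) (Nat.shiftLeft (low 32 256 (dw P w H A)) 8192)

/-- The eight vertices, block `bit + 2 e + 4 e'`; `j1 = j + 1`, `k1 = k + 1`. -/
noncomputable def d8 (P : Prof) (w j j1 k k1 : Nat) : Nat :=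
  Nat.add (Nat.add (dpr P w j k) (Nat.shiftLeft (dpr P w j1 k) 16384))
    (Nat.shiftLeft (Nat.add (dpr P w j k1) (Nat.shiftLeft (dpr P w j1 k1) 16384)) 32768)

/-- Minimum of the two halves of a vector of `2 n` lanes. -/
def hmin (n X : Nat) : Nat := lmin 31 (grd 32 n) (low 32 n X) (Nat.shiftRight X (Nat.mul 32 n))

/-- `c0` on the first 1024 lanes, `c1` on the next 1024. -/
def cvec (c0 c1 : Nat) : Nat :=
  Nat.add (Nat.mul c0 (ones 32 1024)) (Nat.shiftLeft (Nat.mul c1 (ones 32 1024)) 32768)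

/-- First option, unit `2^-23`, bias `1207959552`. -/
def val1 (k D : Nat) : Nat :=
  Nat.add (Nat.add (Nat.mul k D)
      (Nat.shiftLeft (dup 32 512 0 (dup 32 256 0 (hmin 256 (hmin 512 (hmin 1024 D))))) 32768))
    (cvec (Nat.sub 1207959552 (Nat.mul k 2129920))
      (Nat.sub 1207959552 (Nat.mul (Nat.succ k) 2129920)))

/-- Second option. -/
def val2 (k n s D : Nat) : Nat :=
  lmin 31 (grd 32 2048)
    (Nat.add (Nat.mul s D) (Nat.mul (Nat.sub (Nat.sub 1207959552 (Nat.mul s 2129920))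
      (Nat.mul (Nat.mul 32 n) (Nat.mul s s))) (ones 32 2048)))
    (cvec (Nat.sub (Nat.add 1207959552 (Nat.mul (Nat.mul 128 (Nat.succ n)) (Nat.mul k k)))
        (Nat.mul 32 (Nat.succ n)))
      (Nat.add 1207959552 (Nat.mul (Nat.mul 32 (Nat.succ n))
        (Nat.mul (Nat.add (Nat.mul 2 k) 1) (Nat.add (Nat.mul 2 k) 3)))))

/-- Option with code `c`: type (2 bits), rule (1), `n` (3), slope (9). -/
noncomputable def val (P : Prof) (j j1 k k1 c : Nat) : Nat :=
  cond (Nat.beq (Nat.land c 3) 0) (Nat.mul 1207959552 (ones 32 2048))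
    (frc (Nat.land (Nat.shiftRight c 2) 1) fun w =>
      cond (Nat.beq (Nat.land c 3) 1) (val1 k (d8 P w j j1 k k1))
        (val2 k (Nat.land (Nat.shiftRight c 3) 7) (Nat.land (Nat.shiftRight c 6) 511)
          (d8 P w j j1 k k1)))

/-- Full lanes below `u` in each of eight blocks of 256 lanes. -/
def msk (u : Nat) : Nat :=
  dup 32 1024 0 (dup 32 512 0 (dup 32 256 0 (Nat.pred (Nat.pow 2 (Nat.mul 32 u)))))

/-- Complement of `msk`. -/
def cmsk (u : Nat) : Nat := Nat.sub (msk 256) (msk u)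

/-- Piecewise choice of options: code (16 bits), end of the segment (9 bits), rest. -/
noncomputable def seg (P : Prof) (j j1 k k1 fuel : Nat) : Nat → Nat :=
  Nat.rec (motive := fun _ => Nat → Nat) (fun _ => Nat.mul 1207959552 (ones 32 2048))
    (fun _ r o => cond (Nat.beq o 0) (Nat.mul 1207959552 (ones 32 2048))
      (frc (Nat.land (Nat.shiftRight o 16) 511) fun u =>
        cond (Nat.ble 256 u) (val P j j1 k k1 (Nat.land o 65535))
          (Nat.add (Nat.land (val P j j1 k k1 (Nat.land o 65535)) (msk u))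
            (Nat.land (r (Nat.shiftRight o 25)) (cmsk u))))) fuel

/-- Minimum over the two cells at a level, from the pair of blocks `x`. -/
def gmin (x : Nat) : Nat :=
  lmin 31 (grd 32 257)
    (Nat.add (low 32 256 (Nat.shiftRight x 8192)) (Nat.shiftLeft 1610612736 8192))
    (Nat.add (Nat.shiftLeft (low 32 256 x) 32) 1610612736)

/-- `2^23 cc`. -/
def cq (j h : Nat) : Nat := cond (Nat.beq j 0) 0 (Nat.sub (Nat.mul 128 (Nat.mul h h)) 32)

/-- Eight copies with stride 257. -/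
def rep8 (x : Nat) : Nat := dup 32 1028 0 (dup 32 514 0 (dup 32 257 0 x))

/-- Right-hand side, shifted by `h` and replicated. -/
def rhs (j h x : Nat) : Nat :=
  rep8 (Nat.shiftRight (Nat.add (gmin x) (Nat.mul (cq j h) (ones 32 257))) (Nat.mul 32 h))

/-- Two records side by side. -/
def cat2 (n x y : Nat) : Nat := Nat.add x (Nat.shiftLeft y (Nat.mul 32 n))

/-- Eight records of 257 lanes side by side (used only to write data). -/
def cat8 (a b c d e f g h : Nat) : Nat :=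
  cat2 1028 (cat2 514 (cat2 257 a b) (cat2 257 c d)) (cat2 514 (cat2 257 e f) (cat2 257 g h))

/-- Table values times `128`; `tb j b` holds the rows `8 b, ..., 8 b + 7` of class `j`. -/
def xu (tb : Nat → Nat → Nat) (j e b : Nat) : Nat :=
  Nat.mul 128 (Nat.land (Nat.shiftRight (tb j b) (Nat.mul 16 e)) (Nat.mul 65535 (ones 32 2056)))

/-- Row `r` of class `j` starts at lane zero. -/
def row (tb : Nat → Nat → Nat) (j r : Nat) : Nat :=
  frc (Nat.shiftRight r 3) fun b => Nat.shiftRight (tb j b) (Nat.mul 8224 (Nat.land r 7))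

/-- Full lanes from `h` on in each block. -/
def hmsk (h : Nat) : Nat :=
  rep8 (Nat.sub (Nat.pred (Nat.pow 2 8224)) (Nat.pred (Nat.pow 2 (Nat.mul 32 h))))

/-- Guard minus the left-hand side. -/
def lhs (tb : Nat → Nat → Nat) (j e h b : Nat) : Nat :=
  Nat.sub (grd 32 2056) (Nat.shiftRight
    (Nat.land (Nat.add (xu tb j e b) (Nat.mul 1207959552 (ones 32 2056))) (hmsk h)) (Nat.mul 32 h))

/-- One block of Bellman inequalities. -/
def upB (tb : Nat → Nat → Nat) (j e h k e' R b : Nat) : Bool :=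
  Nat.beq (Nat.land (Nat.add (Nat.add (xu tb k e' b) R) (lhs tb j e h b)) (grd 32 2056))
    (grd 32 2056)

/-- All four blocks. -/
def upE (tb : Nat → Nat → Nat) (j e h k e' x : Nat) : Bool :=
  frc (rhs j h x) fun R => upB tb j e h k e' R 0 && upB tb j e h k e' R 1 &&
    upB tb j e h k e' R 2 && upB tb j e h k e' R 3

/-- The pair of classes `(j, k)`. -/
noncomputable def upK (P : Prof) (tb og : Nat → Nat → Nat) (j j1 k : Nat) : Bool :=
  frc (Nat.succ k) fun k1 => frc (seg P j j1 k k1 16 (og j k)) fun g =>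
    upE tb j 0 j k 0 g && upE tb j 1 j1 k 0 (Nat.shiftRight g 16384) &&
      upE tb j 0 j k 1 (Nat.shiftRight g 32768) && upE tb j 1 j1 k 1 (Nat.shiftRight g 49152)

/-- The pairs `k ≤ j` in a block of four by four classes. -/
noncomputable def upQ (P : Prof) (tb og : Nat → Nat → Nat) (j0 k0 : Nat) : Bool :=
  allR j0 4 fun j => frc (Nat.succ j) fun j1 => allR k0 4 fun k => Nat.blt j k || upK P tb og j j1 k

/-- Half `e` of the first `n` lanes. -/
def half (n e x : Nat) : Nat :=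
  Nat.land (Nat.shiftRight x (Nat.mul 16 e)) (Nat.mul 65535 (ones 32 n))

/-- Terminal inequalities of row `r`. -/
def swE (tu : Nat → Nat → Nat) (j r e n : Nat) : Bool :=
  lge (grd 32 n) (Nat.mul
    (cond (Nat.beq r 0) (cond (Nat.beq j 0) 0 (Nat.pred (Nat.mul (Nat.pred n) (Nat.pred n))))
      (Nat.land (Nat.shiftRight (tu j r) (Nat.mul 16 e)) 65535)) (ones 32 n)) (half n e (tu j r))

/-- Entry `(i, e)` of a record. -/
def ent (x i e : Nat) : Nat :=
  Nat.land (Nat.shiftRight x (Nat.add (Nat.mul 32 i) (Nat.mul 16 e))) 65535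

/-- `4 a + x b ≤ 4 v + x c`. -/
def it1 (x a b c v : Nat) : Bool :=
  Nat.ble (Nat.add (Nat.mul 4 a) (Nat.mul x b)) (Nat.add (Nat.mul 4 v) (Nat.mul x c))

/-- Interpolation between the rows with terminal pairs `p`, `q` at offset `x`, value pair `v`. -/
def itX (p q v x : Nat) : Bool :=
  it1 x (ent p 0 0) (ent q 0 0) (ent p 0 0) (ent v 0 0) &&
    it1 x (ent p 0 0) (ent q 0 1) (ent p 0 1) (ent v 0 0) &&
    it1 x (ent p 0 1) (ent q 0 0) (ent p 0 0) (ent v 0 1) &&
    it1 x (ent p 0 1) (ent q 0 1) (ent p 0 1) (ent v 0 1)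

/-- Rows `r`, `r + 1` sit at the levels `132 + 4 r`, `136 + 4 r`, lanes `124 - 4 r`, `120 - 4 r`. -/
def itR (tu : Nat → Nat → Nat) (j r : Nat) : Bool :=
  frc (Nat.land (tu j r) 4294967295) fun p => frc (Nat.land (tu j (Nat.succ r)) 4294967295) fun q =>
    frc (low 32 5 (Nat.shiftRight (tu j 0) (Nat.mul 32 (Nat.sub 120 (Nat.mul 4 r))))) fun v =>
      itX p q (Nat.shiftRight v 128) 0 && itX p q (Nat.shiftRight v 96) 1 &&
        itX p q (Nat.shiftRight v 64) 2 && itX p q (Nat.shiftRight v 32) 3 && itX p q v 4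

/-- Sixteen bits at offset `s` of the first 129 lanes of width 64. -/
def q16 (x s : Nat) : Nat := Nat.land (Nat.shiftRight x s) (Nat.mul 65535 (ones 64 129))

/-- The interpolant `m` lies below half `e` of the record `x`. -/
def lk1 (x e m : Nat) : Bool :=
  lge (grd 64 129) (Nat.mul 2 (q16 x (Nat.mul 16 e))) m &&
    lge (grd 64 129) (Nat.mul 4 (q16 x (Nat.add 32 (Nat.mul 16 e))))
      (low 64 128 (Nat.add m (Nat.shiftRight m 64)))

/-- The coarse class `g` of row `r` lies below the classes `2 g`, `2 g + 1`. -/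
def lkG (tu tc : Nat → Nat → Nat) (g r : Nat) : Bool :=
  frc (q16 (tc (Nat.add 32 (Nat.shiftRight g 1)) r) (Nat.mul 32 (Nat.land g 1))) fun c0 =>
    frc (q16 (tc (Nat.add 32 (Nat.shiftRight g 1)) r) (Nat.add 16 (Nat.mul 32 (Nat.land g 1))))
      fun c1 =>
      lk1 (tu (Nat.mul 2 g) r) 0 (Nat.mul 2 c0) && lk1 (tu (Nat.mul 2 g) r) 1 (Nat.add c0 c1) &&
        lk1 (tu (Nat.succ (Nat.mul 2 g)) r) 0 (Nat.add c0 c1) &&
        lk1 (tu (Nat.succ (Nat.mul 2 g)) r) 1 (Nat.mul 2 c1)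

/-- Node `ν` lies below its two children. -/
def hiN (tc : Nat → Nat → Nat) (ν r : Nat) : Bool :=
  frc (q16 (tc (Nat.shiftRight ν 1) r) (Nat.mul 32 (Nat.land ν 1))) fun p0 =>
    frc (q16 (tc (Nat.shiftRight ν 1) r) (Nat.add 16 (Nat.mul 32 (Nat.land ν 1)))) fun p1 =>
      lge (grd 64 129) (q16 (tc ν r) 0) p0 &&
        lge (grd 64 129) (Nat.mul 2 (q16 (tc ν r) 16)) (Nat.add p0 p1) &&
        lge (grd 64 129) (Nat.mul 2 (q16 (tc ν r) 32)) (Nat.add p0 p1) &&
        lge (grd 64 129) (q16 (tc ν r) 48) p1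

/-- Terminal and interpolation checks of class `j`. -/
noncomputable def swJ (tb : Nat → Nat → Nat) (j : Nat) : Bool :=
  frc (Nat.add j 1) fun n => frc (Nat.add j 2) fun n' =>
    allR 0 32 (fun r => swE (row tb) j r 0 n && swE (row tb) j r 1 n') &&
      allR 1 30 (itR (row tb) j)

/-- Link checks of the coarse class `g`. -/
noncomputable def lkA (tb tc : Nat → Nat → Nat) (g : Nat) : Bool := allR 1 31 (lkG (row tb) tc g)

/-- Hierarchy checks of node `ν`. -/
noncomputable def hiA (tc : Nat → Nat → Nat) (ν : Nat) : Bool := allR 1 31 (hiN tc ν)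

end Tab

/-- `f lo = true ∧ ... ∧ f (lo + n - 1) = true`, the form in which data files are proved. -/
def AllN (f : Nat → Bool) : Nat → Nat → Prop
  | 0, _ => True
  | n + 1, lo => f lo = true ∧ AllN f n (Nat.succ lo)

/-- Block number `x` of pairs of classes. -/
noncomputable def upX (P : Prof) (tb og : Nat → Nat → Nat) (x : Nat) : Bool :=
  Nat.blt (Nat.div x 20) (Nat.mod x 20) ||
    Tab.upQ P tb og (Nat.mul 4 (Nat.div x 20)) (Nat.mul 4 (Nat.mod x 20))

/-- The cheap checks number `x`. -/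
noncomputable def swX (tb tc : Nat → Nat → Nat) (x : Nat) : Bool :=
  frc x fun x => frc (Nat.mul 2 x) (Tab.swJ tb) && frc (Nat.succ (Nat.mul 2 x)) (Tab.swJ tb) &&
    Tab.lkA tb tc x &&
    (Nat.ble 38 x || frc (cond (Nat.ble 18 x) (Nat.add x 14) (cond (Nat.ble 8 x) (Nat.add x 8)
      (cond (Nat.ble 3 x) (Nat.add x 5) (cond (Nat.ble 1 x) (Nat.add x 3) 2)))) (Tab.hiA tc))

end Pool.Agent.MP_34f9b1_co.Sym

end MrgPart4

-- ======== part 5: formerly Pool.Agent.MP_34f9b1_co.Sym.Spec3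
section MrgPart5

namespace Pool.Agent.MP_34f9b1_co.Sym

/-- Table entry of row `r`, lane `L`, class `j`, end `e`. -/
def un (tb : ℕ → ℕ → ℕ) (r L j e : ℕ) : ℕ :=
  dg 32 (tb j (r / 8)) (257 * (r % 8) + L) / 2 ^ (16 * e) % 65536

/-- The table of row `r` at level `t`. -/
noncomputable def Uv (tb : ℕ → ℕ → ℕ) (r t j e : ℕ) : ℝ := (un tb r (256 - t) j e : ℝ) / 65536

/-- The vertex values of the pair of classes `(j, k)`. -/
noncomputable def gs (P : Prof) (og : ℕ → ℕ → ℕ) (j k : ℕ) : ℕ :=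
  Tab.seg P j (j + 1) k (k + 1) 16 (og j k)

/-- The vertex values as reals. -/
noncomputable def Gv (P : Prof) (og : ℕ → ℕ → ℕ) (τ j k i e e' : ℕ) : ℝ :=
  ((dg 32 (gs P og j k) (256 * (i + 2 * e + 4 * e') + (255 - τ)) : ℝ) - 1207959552) / 8388608

/-- Coarse table entry of node `ν`, row `r`, lane `I`, end `e`. -/
def cn (tc : ℕ → ℕ → ℕ) (ν r I e : ℕ) : ℕ :=
  dg 64 (tc (ν / 2) r) I / 2 ^ (32 * (ν % 2) + 16 * e) % 65536

/-- All checks of a table. -/
structure TabChk (P : Prof) (tb og tc : ℕ → ℕ → ℕ) : Prop where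
  bd : P.bd = true
  up : ∀ j ≤ 79, ∀ k ≤ j, Tab.upK P tb og j (j + 1) k = true
  sw : ∀ j ≤ 79, Tab.swJ tb j = true
  lk : ∀ g < 40, Tab.lkA tb tc g = true
  hi : ∀ l ν, 1 ≤ l → 64 ≤ ν * 2 ^ l → (ν + 1) * 2 ^ l ≤ 104 → Tab.hiA tc ν = true

/-- TABG: from the data form to `TabChk`. -/
def TabGStmt : Prop :=
  ∀ (P : Prof) (tb og tc : ℕ → ℕ → ℕ), P.bd = true → AllN (upX P tb og) 280 0 →
    AllN (upX P tb og) 120 280 → AllN (swX tb tc) 40 0 → TabChk P tb og tc

/-- TABA: the vertex values are valid and small. -/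
def TabAStmt : Prop :=
  ∀ (P : Prof) (og : ℕ → ℕ → ℕ), P.bd = true → GV2 P 256 79 (Gv P og) ∧
    ∀ j ≤ 79, ∀ k ≤ j, Bd 32 2048 (gs P og j k) 1610612736

/-- TABB: the Bellman inequalities. -/
def TabBStmt : Prop :=
  ∀ (P : Prof) (tb og : ℕ → ℕ → ℕ), (∀ j ≤ 79, ∀ k ≤ j, Bd 32 2048 (gs P og j k) 1610612736) →
    (∀ j ≤ 79, ∀ k ≤ j, Tab.upK P tb og j (j + 1) k = true) →
    ∀ r < 32, Up 256 79 (Gv P og) (Uv tb r)

/-- TABC: terminal and interpolation inequalities. -/
def TabCStmt : Prop :=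
  ∀ tb : ℕ → ℕ → ℕ, (∀ j ≤ 79, Tab.swJ tb j = true) → Sw 256 79 (Uv tb 0) (cc 256) ∧
    (∀ r, 1 ≤ r → r ≤ 31 → Sw 256 79 (Uv tb r) (Uv tb r 256)) ∧
    ∀ r, 1 ≤ r → r ≤ 30 → Itp 79 (132 + 4 * r) 4 (Uv tb 0) (Uv tb r 256) (Uv tb (r + 1) 256)

/-- The bilinear interpolant of every node lies below the fine table. -/
def Link (tb tc : ℕ → ℕ → ℕ) : Prop :=
  ∀ l ν lo r L j e y y' : ℕ, ν * 2 ^ l = 64 + lo → lo + 2 ^ l ≤ 40 → 1 ≤ r → r ≤ 31 → L ≤ 256 →
    e ≤ 1 → 2 * lo ≤ j → j < 2 * (lo + 2 ^ l) → j + e = 2 * lo + y → y + y' = 2 * 2 ^ l →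
    y' * (cn tc ν r (L / 2) 0 + cn tc ν r ((L + 1) / 2) 0) +
      y * (cn tc ν r (L / 2) 1 + cn tc ν r ((L + 1) / 2) 1) ≤ 4 * 2 ^ l * un tb r L j e

/-- TABL: link and hierarchy. -/
def TabLStmt : Prop :=
  ∀ tb tc : ℕ → ℕ → ℕ, (∀ g < 40, Tab.lkA tb tc g = true) →
    (∀ l ν, 1 ≤ l → 64 ≤ ν * 2 ^ l → (ν + 1) * 2 ^ l ≤ 104 → Tab.hiA tc ν = true) → Link tb tc

/-- What the leaves use of a table. -/
def TabGood (P : Prof) (tc : ℕ → ℕ → ℕ) : Prop :=
  ∀ E, Ext P E → ∀ l ν lo I0 nI r0 nr μ0 μ1 la κ : ℕ, ν * 2 ^ l = 64 + lo → lo + 2 ^ l ≤ 40 →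
    1 ≤ nI → I0 + nI ≤ 128 → 1 ≤ nr → 1 ≤ r0 → r0 + nr ≤ 31 →
    (∀ dI ≤ nI, ∀ dr ≤ nr, μ0 + 2 * la * dI ≤ cn tc ν (r0 + dr) (I0 + dI) 0 + 4 * κ * dr ∧
      μ1 + 2 * la * dI ≤ cn tc ν (r0 + dr) (I0 + dI) 1 + 4 * κ * dr) →
    ∀ (t b a f : ℝ) (rest : List ℝ), Srt (a :: rest) → 0 ≤ f → f ≤ 1 →
      128 * a = lo + f * 2 ^ l → (2 * I0 : ℝ) ≤ 256 * (1 / 2 - t) →
      256 * (1 / 2 - t) ≤ 2 * (I0 + nI) → (132 + 4 * r0 : ℝ) ≤ 256 * (b + 1 / 2) →
      256 * (b + 1 / 2) ≤ 132 + 4 * (r0 + nr) → -b ≤ t →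
      Pk E (Out t b) (a :: rest) ∨
        μ0 + (μ1 - μ0) * f + la * (256 * (1 / 2 - t) - 2 * I0) -
          κ * (256 * (b + 1 / 2) - (132 + 4 * r0)) ≤ 65536 * sqs (a :: rest)

/-- TABD: assembly. -/
def TabDStmt : Prop :=
  Tail2Stmt → TabAStmt → TabBStmt → TabCStmt → TabLStmt →
    ∀ (P : Prof) (tb og tc : ℕ → ℕ → ℕ), TabChk P tb og tc → TabGood P tc

end Pool.Agent.MP_34f9b1_co.Sym

end MrgPart5

-- ======== part 6: formerly Pool.Agent.MP_34f9b1_co.Sym.TabL
section MrgPart6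

namespace Pool.Agent.MP_34f9b1_co.Sym

namespace TabL

open Tab

theorem allR_succ (lo n : ℕ) (f : ℕ → Bool) :
    allR lo (n + 1) f = (frc (Nat.add lo n) f && allR lo n f) := rfl

theorem allR_get (hd : DgStmt) (lo : ℕ) (f : ℕ → Bool) :
    ∀ n, allR lo n f = true → ∀ x, lo ≤ x → x < lo + n → f x = true := by
  intro n
  induction n with
  | zero => intro _ x h1 h2; omega
  | succ n ih =>
    intro h x h1 h2
    rw [allR_succ, Bool.and_eq_true, hd.frc] at h
    by_cases hx : x = lo + n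
    · subst hx; exact h.1
    · exact ih h.2 x h1 (by omega)

theorem sub16 (hd : DgStmt) (n x s : ℕ) (hs : s ≤ 48) (i : ℕ) :
    dg 64 (Nat.land (Nat.shiftRight x s) (Nat.mul 65535 (ones 64 n))) i =
      if i < n then dg 64 x i / 2 ^ s % 65536 else 0 := by
  have h := hd.sublane (w := 64) (s := s) (v := 16) n x i (by omega) (by omega)
  have e1 : (2 : ℕ) ^ 16 - 1 = 65535 := by norm_num
  have e2 : (2 : ℕ) ^ 16 = 65536 := by norm_num
  rw [e1, e2] at h
  exact h

theorem q16_dg (hd : DgStmt) (x s : ℕ) (hs : s ≤ 48) (i : ℕ) :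
    dg 64 (q16 x s) i = if i < 129 then dg 64 x i / 2 ^ s % 65536 else 0 :=
  sub16 hd 129 x s hs i

theorem q16_bd (hd : DgStmt) (x s : ℕ) (hs : s ≤ 48) : Bd 64 129 (q16 x s) 65535 := by
  intro i
  rw [q16_dg hd x s hs]
  constructor
  · split_ifs
    · have := Nat.mod_lt (dg 64 x i / 2 ^ s) (show 0 < 65536 by omega)
      omega
    · omega
  · intro h
    rw [if_neg (by omega)]

theorem mul_dg (hd : DgStmt) {X B : ℕ} (k : ℕ) (hX : Bd 64 129 X B) (hk : k ≤ 4)
    (hB : B ≤ 1000000) (i : ℕ) : dg 64 (Nat.mul k X) i = k * dg 64 X i := by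
  refine hd.mul (fun i => ?_) i
  have h1 := (hX i).1
  calc k * dg 64 X i ≤ 4 * 1000000 := Nat.mul_le_mul hk (by omega)
    _ < 2 ^ 64 := by norm_num

theorem mul_bd (hd : DgStmt) {X B : ℕ} (k : ℕ) (hX : Bd 64 129 X B) (hk : k ≤ 4)
    (hB : B ≤ 1000000) : Bd 64 129 (Nat.mul k X) (k * B) := by
  intro i
  rw [mul_dg hd k hX hk hB]
  exact ⟨Nat.mul_le_mul_left _ (hX i).1, fun h => by rw [(hX i).2 h, Nat.mul_zero]⟩

theorem add_dg (hd : DgStmt) {X Y A B : ℕ} (hX : Bd 64 129 X A) (hY : Bd 64 129 Y B)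
    (hA : A ≤ 1000000) (hB : B ≤ 1000000) (i : ℕ) :
    dg 64 (Nat.add X Y) i = dg 64 X i + dg 64 Y i := by
  refine hd.add (fun i => ?_) i
  have h1 := (hX i).1
  have h2 := (hY i).1
  calc dg 64 X i + dg 64 Y i ≤ 1000000 + 1000000 := by omega
    _ < 2 ^ 64 := by norm_num

theorem add_bd (hd : DgStmt) {X Y A B : ℕ} (hX : Bd 64 129 X A) (hY : Bd 64 129 Y B)
    (hA : A ≤ 1000000) (hB : B ≤ 1000000) : Bd 64 129 (Nat.add X Y) (A + B) := by
  intro i
  rw [add_dg hd hX hY hA hB]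
  exact ⟨Nat.add_le_add (hX i).1 (hY i).1, fun h => by rw [(hX i).2 h, (hY i).2 h]⟩

theorem lge_dg (hd : DgStmt) {X Y A B : ℕ} (hX : Bd 64 129 X A) (hY : Bd 64 129 Y B)
    (hA : A ≤ 1000000) (hB : B ≤ 1000000) (h : lge (grd 64 129) X Y = true) (i : ℕ) :
    dg 64 Y i ≤ dg 64 X i :=
  hd.lge (by omega) hX hY (lt_of_le_of_lt hA (by norm_num)) (lt_of_le_of_lt hB (by norm_num)) h i

theorem shr_dg (hd : DgStmt) (m i : ℕ) : dg 64 (Nat.shiftRight m 64) i = dg 64 m (i + 1) :=
  hd.shr 64 m 1 i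

theorem lk1_get (hd : DgStmt) (x e m : ℕ) (he : e ≤ 1) (hm : Bd 64 129 m 131070)
    (h : lk1 x e m = true) :
    (∀ I ≤ 128, dg 64 m I ≤ 2 * (dg 64 x I / 2 ^ (16 * e) % 65536)) ∧
      ∀ I < 128, dg 64 m I + dg 64 m (I + 1) ≤ 4 * (dg 64 x I / 2 ^ (32 + 16 * e) % 65536) := by
  unfold lk1 at h
  rw [Bool.and_eq_true] at h
  obtain ⟨h1, h2⟩ := h
  have s1 : Nat.mul 16 e ≤ 48 := by show 16 * e ≤ 48; omega
  have s2 : Nat.add 32 (Nat.mul 16 e) ≤ 48 := by show 32 + 16 * e ≤ 48; omega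
  have b1 := q16_bd hd x _ s1
  have b2 := q16_bd hd x _ s2
  have bs : Bd 64 129 (Nat.shiftRight m 64) 131070 := by
    intro i
    rw [shr_dg hd]
    exact ⟨(hm _).1, fun h => (hm _).2 (by omega)⟩
  have ba := add_bd hd hm bs (by omega) (by omega)
  have bl : Bd 64 129 (low 64 128 (Nat.add m (Nat.shiftRight m 64))) (131070 + 131070) := by
    intro i
    rw [hd.low]
    constructor
    · split_ifs
      · exact (ba i).1
      · omega
    · intro h
      rw [if_neg (by omega)]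
  constructor
  · intro I hI
    have := lge_dg hd (mul_bd hd 2 b1 (by omega) (by omega)) hm (by omega) (by omega) h1 I
    rw [mul_dg hd 2 b1 (by omega) (by omega), q16_dg hd x _ s1, if_pos (by omega)] at this
    exact this
  · intro I hI
    have := lge_dg hd (mul_bd hd 4 b2 (by omega) (by omega)) bl (by omega) (by omega) h2 I
    rw [mul_dg hd 4 b2 (by omega) (by omega), q16_dg hd x _ s2, if_pos (by omega), hd.low,
      if_pos hI, add_dg hd hm bs (by omega) (by omega), shr_dg hd] at this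
    exact this

theorem shr3 (r : ℕ) : Nat.shiftRight r 3 = r / 8 := Nat.shiftRight_eq_div_pow r 3

theorem shr1 (r : ℕ) : Nat.shiftRight r 1 = r / 2 := Nat.shiftRight_eq_div_pow r 1

theorem land7 (r : ℕ) : Nat.land r 7 = r % 8 := Nat.and_two_pow_sub_one_eq_mod r 3

theorem land1 (r : ℕ) : Nat.land r 1 = r % 2 := Nat.and_two_pow_sub_one_eq_mod r 1

theorem row_dg (hd : DgStmt) (tb : ℕ → ℕ → ℕ) (j r L : ℕ) :
    dg 32 (row tb j r) L = dg 32 (tb j (r / 8)) (257 * (r % 8) + L) := by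
  unfold row
  rw [hd.frc, shr3, land7]
  have e : Nat.mul 8224 (r % 8) = Nat.mul 32 (257 * (r % 8)) := by
    show 8224 * (r % 8) = 32 * (257 * (r % 8))
    omega
  rw [e, hd.shr, Nat.add_comm]

theorem row_even (hd : DgStmt) (tb : ℕ → ℕ → ℕ) (j r I e : ℕ) (he : e ≤ 1) :
    dg 64 (row tb j r) I / 2 ^ (16 * e) % 65536 = un tb r (2 * I) j e := by
  unfold un
  rw [← row_dg hd]
  have h := hd.split 32 2 (row tb j r) I 0 (by omega)
  rw [Nat.add_zero] at h
  rw [h, hd.eq 32]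
  generalize dg (32 * 2) (row tb j r) I = Y
  interval_cases e
  · norm_num
  · norm_num
    omega

theorem row_odd (hd : DgStmt) (tb : ℕ → ℕ → ℕ) (j r I e : ℕ) (he : e ≤ 1) :
    dg 64 (row tb j r) I / 2 ^ (32 + 16 * e) % 65536 = un tb r (2 * I + 1) j e := by
  unfold un
  rw [← row_dg hd]
  have h := hd.split 32 2 (row tb j r) I 1 (by omega)
  rw [h, hd.eq 32]
  generalize dg (32 * 2) (row tb j r) I = Y
  interval_cases e
  · norm_num
  · norm_num
    omega

theorem lk1_un (hd : DgStmt) (tb : ℕ → ℕ → ℕ) (j r e m : ℕ) (he : e ≤ 1)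
    (hm : Bd 64 129 m 131070) (h : lk1 (row tb j r) e m = true) (L : ℕ) (hL : L ≤ 256) :
    dg 64 m (L / 2) + dg 64 m ((L + 1) / 2) ≤ 4 * un tb r L j e := by
  obtain ⟨h1, h2⟩ := lk1_get hd _ e m he hm h
  rcases Nat.even_or_odd' L with ⟨I, rfl | rfl⟩
  · have := h1 I (by omega)
    rw [row_even hd tb j r I e he] at this
    rw [show 2 * I / 2 = I by omega, show (2 * I + 1) / 2 = I by omega]
    omega
  · have := h2 I (by omega)
    rw [row_odd hd tb j r I e he] at this
    rw [show (2 * I + 1) / 2 = I by omega, show (2 * I + 1 + 1) / 2 = I + 1 by omega]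
    exact this

theorem cn_q16 (hd : DgStmt) (tc : ℕ → ℕ → ℕ) (ν r I e a s : ℕ) (he : e ≤ 1) (hI : I ≤ 128)
    (ha : a = ν / 2) (hs : s = 32 * (ν % 2) + 16 * e) :
    dg 64 (q16 (tc a r) s) I = cn tc ν r I e := by
  rw [q16_dg hd _ _ (by omega), if_pos (by omega), ha, hs]
  rfl

theorem lkG_get (hd : DgStmt) (tb tc : ℕ → ℕ → ℕ) (g r : ℕ) (h : lkG (row tb) tc g r = true)
    (L : ℕ) (hL : L ≤ 256) :
    2 * (cn tc (64 + g) r (L / 2) 0 + cn tc (64 + g) r ((L + 1) / 2) 0) ≤
        4 * un tb r L (2 * g) 0 ∧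
      (cn tc (64 + g) r (L / 2) 0 + cn tc (64 + g) r ((L + 1) / 2) 0) +
        (cn tc (64 + g) r (L / 2) 1 + cn tc (64 + g) r ((L + 1) / 2) 1) ≤
          4 * un tb r L (2 * g) 1 ∧
      (cn tc (64 + g) r (L / 2) 0 + cn tc (64 + g) r ((L + 1) / 2) 0) +
        (cn tc (64 + g) r (L / 2) 1 + cn tc (64 + g) r ((L + 1) / 2) 1) ≤
          4 * un tb r L (2 * g + 1) 0 ∧
      2 * (cn tc (64 + g) r (L / 2) 1 + cn tc (64 + g) r ((L + 1) / 2) 1) ≤
        4 * un tb r L (2 * g + 1) 1 := by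
  unfold lkG at h
  rw [hd.frc, hd.frc, shr1, land1] at h
  simp only [Bool.and_eq_true] at h
  obtain ⟨⟨⟨h1, h2⟩, h3⟩, h4⟩ := h
  have s0 : Nat.mul 32 (g % 2) = 32 * ((64 + g) % 2) + 16 * 0 := by
    show 32 * (g % 2) = _
    omega
  have s1 : Nat.add 16 (Nat.mul 32 (g % 2)) = 32 * ((64 + g) % 2) + 16 * 1 := by
    show 16 + 32 * (g % 2) = _
    omega
  have ha : Nat.add 32 (g / 2) = (64 + g) / 2 := by
    show 32 + g / 2 = _
    omega
  have b0 := q16_bd hd (tc (Nat.add 32 (g / 2)) r) (Nat.mul 32 (g % 2)) (by omega)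
  have b1 := q16_bd hd (tc (Nat.add 32 (g / 2)) r) (Nat.add 16 (Nat.mul 32 (g % 2))) (by omega)
  have c0 := fun I hI => cn_q16 hd tc (64 + g) r I 0 _ _ (by omega) hI ha s0
  have c1 := fun I hI => cn_q16 hd tc (64 + g) r I 1 _ _ (by omega) hI ha s1
  generalize q16 (tc (Nat.add 32 (g / 2)) r) (Nat.mul 32 (g % 2)) = X0 at *
  generalize q16 (tc (Nat.add 32 (g / 2)) r) (Nat.add 16 (Nat.mul 32 (g % 2))) = X1 at *
  have k1 := lk1_un hd tb _ r 0 _ (by omega) (mul_bd hd 2 b0 (by omega) (by omega)) h1 L hL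
  have k2 := lk1_un hd tb _ r 1 _ (by omega) (add_bd hd b0 b1 (by omega) (by omega)) h2 L hL
  have k3 := lk1_un hd tb _ r 0 _ (by omega) (add_bd hd b0 b1 (by omega) (by omega)) h3 L hL
  have k4 := lk1_un hd tb _ r 1 _ (by omega) (mul_bd hd 2 b1 (by omega) (by omega)) h4 L hL
  rw [mul_dg hd 2 b0 (by omega) (by omega), mul_dg hd 2 b0 (by omega) (by omega)] at k1
  rw [add_dg hd b0 b1 (by omega) (by omega), add_dg hd b0 b1 (by omega) (by omega)] at k2 k3
  rw [mul_dg hd 2 b1 (by omega) (by omega), mul_dg hd 2 b1 (by omega) (by omega)] at k4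
  rw [← c0 _ (show L / 2 ≤ 128 by omega), ← c0 _ (show (L + 1) / 2 ≤ 128 by omega),
    ← c1 _ (show L / 2 ≤ 128 by omega), ← c1 _ (show (L + 1) / 2 ≤ 128 by omega)]
  have e1 : Nat.mul 2 g = 2 * g := rfl
  have e2 : Nat.succ (2 * g) = 2 * g + 1 := rfl
  rw [e1] at k1 k2 k3 k4
  rw [e2] at k3 k4
  refine ⟨?_, ?_, ?_, ?_⟩ <;> omega

theorem hiN_get (hd : DgStmt) (tc : ℕ → ℕ → ℕ) (ν r : ℕ) (h : hiN tc ν r = true)
    (I : ℕ) (hI : I ≤ 128) :
    cn tc ν r I 0 ≤ cn tc (2 * ν) r I 0 ∧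
      cn tc ν r I 0 + cn tc ν r I 1 ≤ 2 * cn tc (2 * ν) r I 1 ∧
      cn tc ν r I 0 + cn tc ν r I 1 ≤ 2 * cn tc (2 * ν + 1) r I 0 ∧
      cn tc ν r I 1 ≤ cn tc (2 * ν + 1) r I 1 := by
  unfold hiN at h
  rw [hd.frc, hd.frc, shr1, land1] at h
  simp only [Bool.and_eq_true] at h
  obtain ⟨⟨⟨h1, h2⟩, h3⟩, h4⟩ := h
  have s0 : Nat.mul 32 (ν % 2) = 32 * (ν % 2) + 16 * 0 := by
    show 32 * (ν % 2) = _
    omega
  have s1 : Nat.add 16 (Nat.mul 32 (ν % 2)) = 32 * (ν % 2) + 16 * 1 := by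
    show 16 + 32 * (ν % 2) = _
    omega
  have b0 := q16_bd hd (tc (ν / 2) r) (Nat.mul 32 (ν % 2)) (by omega)
  have b1 := q16_bd hd (tc (ν / 2) r) (Nat.add 16 (Nat.mul 32 (ν % 2))) (by omega)
  have c0 := cn_q16 hd tc ν r I 0 _ _ (by omega) hI rfl s0
  have c1 := cn_q16 hd tc ν r I 1 _ _ (by omega) hI rfl s1
  have a0 := q16_bd hd (tc ν r) 0 (by omega)
  have a1 := q16_bd hd (tc ν r) 16 (by omega)
  have a2 := q16_bd hd (tc ν r) 32 (by omega)
  have a3 := q16_bd hd (tc ν r) 48 (by omega)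
  have d0 := cn_q16 hd tc (2 * ν) r I 0 ν 0 (by omega) hI (by omega) (by omega)
  have d1 := cn_q16 hd tc (2 * ν) r I 1 ν 16 (by omega) hI (by omega) (by omega)
  have d2 := cn_q16 hd tc (2 * ν + 1) r I 0 ν 32 (by omega) hI (by omega) (by omega)
  have d3 := cn_q16 hd tc (2 * ν + 1) r I 1 ν 48 (by omega) hI (by omega) (by omega)
  generalize q16 (tc (ν / 2) r) (Nat.mul 32 (ν % 2)) = X0 at *
  generalize q16 (tc (ν / 2) r) (Nat.add 16 (Nat.mul 32 (ν % 2))) = X1 at *
  have k1 := lge_dg hd a0 b0 (by omega) (by omega) h1 I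
  have k2 := lge_dg hd (mul_bd hd 2 a1 (by omega) (by omega))
    (add_bd hd b0 b1 (by omega) (by omega)) (by omega) (by omega) h2 I
  have k3 := lge_dg hd (mul_bd hd 2 a2 (by omega) (by omega))
    (add_bd hd b0 b1 (by omega) (by omega)) (by omega) (by omega) h3 I
  have k4 := lge_dg hd a3 b1 (by omega) (by omega) h4 I
  rw [mul_dg hd 2 a1 (by omega) (by omega), add_dg hd b0 b1 (by omega) (by omega)] at k2
  rw [mul_dg hd 2 a2 (by omega) (by omega), add_dg hd b0 b1 (by omega) (by omega)] at k3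
  rw [← c0, ← c1, ← d0, ← d1, ← d2, ← d3]
  exact ⟨k1, k2, k3, k4⟩

theorem left_step {y z P0 P1 A0 A1 W : ℕ} (h0 : P0 ≤ A0) (h1 : P0 + P1 ≤ 2 * A1)
    (h : z * A0 + y * A1 ≤ W) : (2 * z + y) * P0 + y * P1 ≤ 2 * W := by
  have a := Nat.mul_le_mul_left z h0
  have b := Nat.mul_le_mul_left y h1
  nlinarith

theorem right_step {y z P0 P1 B0 B1 W : ℕ} (h0 : P0 + P1 ≤ 2 * B0) (h1 : P1 ≤ B1)
    (h : z * B0 + y * B1 ≤ W) : z * P0 + (z + 2 * y) * P1 ≤ 2 * W := by
  have a := Nat.mul_le_mul_left z h0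
  have b := Nat.mul_le_mul_left y h1
  nlinarith

end TabL

open TabL in
theorem tabL (hd : DgStmt) : TabLStmt := by
  intro tb tc hlk hhi l
  induction l with
  | zero =>
    intro ν lo r L j e y y' hν hlo hr1 hr2 hL he hj1 hj2 hy hy'
    simp only [pow_zero, Nat.mul_one] at hν hlo hj2 hy' ⊢
    subst hν
    have hg := allR_get hd 1 _ 31 (hlk lo (by omega)) r hr1 (by omega)
    obtain ⟨k1, k2, k3, k4⟩ := lkG_get hd tb tc lo r hg L hL
    have hj : j = 2 * lo ∨ j = 2 * lo + 1 := by omega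
    have he' : e = 0 ∨ e = 1 := by omega
    rcases hj with rfl | rfl <;> rcases he' with rfl | rfl
    · obtain rfl : y = 0 := by omega
      obtain rfl : y' = 2 := by omega
      omega
    · obtain rfl : y = 1 := by omega
      obtain rfl : y' = 1 := by omega
      omega
    · obtain rfl : y = 1 := by omega
      obtain rfl : y' = 1 := by omega
      omega
    · obtain rfl : y = 2 := by omega
      obtain rfl : y' = 0 := by omega
      omega
  | succ l ih =>
    intro ν lo r L j e y y' hν hlo hr1 hr2 hL he hj1 hj2 hy hy'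
    have hA := hhi (l + 1) ν (by omega) (by omega) (by rw [Nat.add_mul, hν]; omega)
    have hg := allR_get hd 1 _ 31 hA r hr1 (by omega)
    obtain ⟨a1, a2, a3, a4⟩ := hiN_get hd tc ν r hg (L / 2) (by omega)
    obtain ⟨b1, b2, b3, b4⟩ := hiN_get hd tc ν r hg ((L + 1) / 2) (by omega)
    have hp : 2 ^ (l + 1) = 2 * 2 ^ l := by rw [pow_succ, Nat.mul_comm]
    have hν1 : 2 * ν * 2 ^ l = 64 + lo := by rw [← hν, hp]; ring
    have hν2 : (2 * ν + 1) * 2 ^ l = 64 + (lo + 2 ^ l) := by rw [Nat.add_mul, hν1]; omega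
    have hW : 4 * 2 ^ (l + 1) * un tb r L j e = 2 * (4 * 2 ^ l * un tb r L j e) := by
      rw [hp]; ring
    rw [hW]
    rw [hp] at hlo hj2 hy'
    by_cases hc : j < 2 * (lo + 2 ^ l)
    · obtain ⟨z, hz⟩ : ∃ z, y + z = 2 * 2 ^ l := ⟨2 * 2 ^ l - y, by omega⟩
      have h := ih (2 * ν) lo r L j e y z hν1 (by omega) hr1 hr2 hL he hj1 hc hy hz
      obtain rfl : y' = 2 * z + y := by omega
      exact left_step (by omega) (by omega) h
    · obtain ⟨x, hx⟩ : ∃ x, j + e = 2 * (lo + 2 ^ l) + x := ⟨j + e - 2 * (lo + 2 ^ l), by omega⟩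
      have h := ih (2 * ν + 1) (lo + 2 ^ l) r L j e x y' hν2 (by omega) hr1 hr2 hL he
        (by omega) (by omega) hx (by omega)
      obtain rfl : y = y' + 2 * x := by omega
      exact right_step (by omega) (by omega) h

end Pool.Agent.MP_34f9b1_co.Sym

end MrgPart6

-- ======== part 7: formerly Pool.Agent.MP_34f9b1_co.Sym.LChk
section MrgPart7

namespace Pool.Agent.MP_34f9b1_co.Sym

/-- A box: lower and upper ends in units of `1/4096`. -/
abbrev Box : Type := List (Nat × Nat)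

namespace Leaf

/-- Number of vertices after `i` coordinates; bit `i` of `pat` says that the interval of
coordinate `i` repeats the previous one. -/
noncomputable def nv (pat i : Nat) : Nat × Nat :=
  Nat.rec (motive := fun _ => Nat × Nat) (1, 0)
    (fun k r => (Nat.sub (Nat.mul 2 r.1) (cond (Nat.testBit pat k) r.2 0), r.1)) i

/-- First duplicated lane at step `k`. -/
noncomputable def s0 (pat k : Nat) : Nat := cond (Nat.testBit pat k) (nv pat k).2 0

/-- Indicator of the upper end of coordinate `i`, after `d` more steps. -/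
noncomputable def mk (pat i d : Nat) : Nat :=
  Nat.rec (motive := fun _ => Nat)
    (Nat.sub (ones 48 (nv pat (Nat.succ i)).1) (ones 48 (nv pat i).1))
    (fun k r => dup 48 (nv pat (Nat.add (Nat.succ i) k)).1 (s0 pat (Nat.add (Nat.succ i) k)) r) d

/-- Repetition pattern of a box, from position `i` on, after the interval `(pl, pu)`. -/
noncomputable def pat (b : Box) : Nat → Nat → Nat → Nat :=
  List.rec (motive := fun _ => Nat → Nat → Nat → Nat) (fun _ _ _ => 0)
    (fun x _ r i pl pu => Nat.add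
      (cond (Nat.beq x.1 pl && Nat.beq x.2 pu) (Nat.pow 2 i) 0) (r (Nat.succ i) x.1 x.2)) b

/-- Vertex vectors in units of `1/4096`; `d` coordinates (with the last, free one) follow. -/
noncomputable def vecs (p O : Nat) (b : Box) : Nat → Nat → List Nat :=
  List.rec (motive := fun _ => Nat → Nat → List Nat) (fun _ _ => [])
    (fun x _ r i d => frc i fun i => frc d fun d =>
      frc (Nat.add (Nat.mul x.1 O) (Nat.mul (Nat.sub x.2 x.1) (mk p i d))) fun X =>
        X :: r (Nat.succ i) (Nat.pred d)) b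

/-- All intervals are ordered and below `4096`. -/
noncomputable def okB (b : Box) : Bool :=
  List.rec (motive := fun _ => Bool) true
    (fun x _ r => Nat.ble x.1 x.2 && Nat.ble x.2 4096 && r) b

/-- Entry `i`, zero beyond the end. -/
noncomputable def nth (l : List Nat) : Nat → Nat :=
  List.rec (motive := fun _ => Nat → Nat) (fun _ => 0)
    (fun x _ r i => Nat.rec (motive := fun _ => Nat) x (fun j _ => r j) i) l

/-- `∑ (l + u) X`. -/
noncomputable def arV (b : Box) : List Nat → Nat :=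
  List.rec (motive := fun _ => List Nat → Nat) (fun _ => 0)
    (fun x _ r l => List.rec (motive := fun _ => Nat) 0
      (fun X t _ => Nat.add (Nat.mul (Nat.add x.1 x.2) X) (r t)) l) b

/-- `∑ (l + u) ^ 2`. -/
noncomputable def arC (b : Box) : Nat :=
  List.rec (motive := fun _ => Nat) 0
    (fun x _ r => Nat.add (Nat.mul (Nat.add x.1 x.2) (Nat.add x.1 x.2)) r) b

/-- `∑ l ^ 2`. -/
noncomputable def arL (b : Box) : Nat :=
  List.rec (motive := fun _ => Nat) 0 (fun x _ r => Nat.add (Nat.mul x.1 x.1) r) b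

/-- Upper end of the last interval. -/
noncomputable def lastU (b : Box) : Nat → Nat :=
  List.rec (motive := fun _ => Nat → Nat) (fun u => u) (fun x _ r _ => r x.2) b

/-- Sum of the last `m` vertex vectors of `k`. -/
noncomputable def suf (xs : List Nat) (k m : Nat) : Nat :=
  Nat.rec (motive := fun _ => Nat) 0
    (fun j r => Nat.add r (frc (Nat.sub (Nat.pred k) j) (nth xs))) m

/-- Terms of an affine form: index (4 bits, `15` is the tail bound), sign (1), size (4). -/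
noncomputable def terms (xs : List Nat) (k HT cnt : Nat) :
    Nat → Nat → Nat → (Nat → Nat → Nat → Bool) → Bool :=
  Nat.rec (motive := fun _ => Nat → Nat → Nat → (Nat → Nat → Nat → Bool) → Bool)
    (fun p q r κ => κ p q r)
    (fun _ ih p q r κ => frc (Nat.land r 15) fun i =>
      (Nat.beq i 15 || Nat.blt i k) &&
      frc (Nat.mul (Nat.land (Nat.shiftRight r 5) 15) (cond (Nat.beq i 15) HT (nth xs i))) fun x =>
        cond (Nat.testBit r 4) (ih p (Nat.add q x) (Nat.shiftRight r 9) κ)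
          (ih (Nat.add p x) q (Nat.shiftRight r 9) κ)) cnt

/-- A level in `[0, 16384]`: relative flag (1 bit), constant (17), number of terms (3), terms. -/
noncomputable def aff (xs : List Nat) (k HT O G base r : Nat) (κ : Nat → Nat → Bool) : Bool :=
  terms xs k HT (Nat.land (Nat.shiftRight r 18) 7)
    (Nat.add (cond (Nat.testBit r 0) base 0) (Nat.mul (Nat.land (Nat.shiftRight r 1) 131071) O))
    (Nat.mul 32768 O) (Nat.shiftRight r 21) fun p q r =>
      lge G p q && frc (Nat.sub p q) fun x => lge G (Nat.mul 16384 O) x && frc r (κ x)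

/-- `2^24 Tz + 2^30` for sizes `X / 4096` and `Z = 16384 (z + 1/2)`. -/
def tz (P : Prof) (O G Z X : Nat) : Nat :=
  tev P 47 G (Nat.mul 1073741824 O) (Nat.mul 4 X) (Nat.sub (Nat.mul 16384 O) (Nat.mul 4 X))
    (lsub 47 G (Nat.add Z (Nat.mul 2 X)) (Nat.mul 8192 O))

/-- A processed row. -/
structure Rw where
  sh : Bool
  z : Nat
  r1 : Nat
  r2 : Nat
  r3 : Nat

/-- Followers of a full row: indices (4 bits each), increasing. `S` in units `1/4096`,
`C = 2^24 C + 2^31 + 2^28`. -/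
noncomputable def fol (P : Prof) (xs : List Nat) (k O G Z T1 cnt : Nat) :
    Nat → Nat → Nat → Nat → Nat → (Nat → Nat → Nat → Nat → Bool) → Bool :=
  Nat.rec (motive := fun _ => Nat → Nat → Nat → Nat → Nat → (Nat → Nat → Nat → Nat → Bool) → Bool)
    (fun _ S C um r κ => κ S C um r)
    (fun _ ih pi S C um r κ => frc (Nat.land r 15) fun i =>
      Nat.blt pi i && Nat.blt i k && frc (Nat.add S (nth xs i)) fun S' =>
        frc (lmin 47 G C (Nat.sub (Nat.add (Nat.add T1 (tz P O G Z (nth xs i)))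
          (Nat.mul 268435456 O)) (Nat.mul 4096 S'))) fun C' =>
        ih i S' C' (Nat.lor um (Nat.pow 2 i)) (Nat.shiftRight r 4) κ) cnt

/-- Full rows: first index (4 bits), pair flag (1), number of followers (3), followers. -/
noncomputable def rowsN (P : Prof) (xs : List Nat) (k HT O G cnt : Nat) :
    Nat → Nat → List Rw → Nat → (Nat → Nat → List Rw → Nat → Bool) → Bool :=
  Nat.rec (motive := fun _ => Nat → Nat → List Rw → Nat → (Nat → Nat → List Rw → Nat → Bool) → Bool)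
    (fun p um rs r κ => κ p um rs r)
    (fun _ ih p um rs r κ => frc (Nat.land r 15) fun i => Nat.blt i k &&
      frc (Nat.add p (Nat.mul 4 (nth xs i))) fun q => lge G (Nat.mul 16384 O) q &&
      frc (lmax 47 G p (Nat.sub (Nat.mul 16384 O) q)) fun Z =>
      frc (tz P O G Z (nth xs i)) fun T1 =>
      fol P xs k O G Z T1 (Nat.land (Nat.shiftRight r 5) 7) i (nth xs i)
        (Nat.mul 2483027968 O) (Nat.lor um (Nat.pow 2 i)) (Nat.shiftRight r 8) fun S C um r' =>
        cond (Nat.testBit r 4)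
          (Nat.beq (Nat.land r 4095) 304 && Nat.beq (Nat.add p q) (Nat.mul 16384 O))
          (Nat.beq (Nat.land (Nat.shiftRight r 5) 7) 0 ||
            lge G C (Nat.add (Nat.mul 4096 S) (Nat.mul 2415919104 O))) &&
        frc (Nat.sub (Nat.add (Nat.mul 2 C) (Nat.mul 536870912 O)) (Nat.mul 8192 S)) fun R1 =>
        frc (Nat.sub (Nat.add T1 (Nat.mul 3221225472 O)) (Nat.mul 8192 S)) fun R2 =>
        frc (Nat.add R2 (tz P O G Z HT)) fun R3 =>
        frc r' fun r' => ih q um (⟨false, Z, R1, R2, R3⟩ :: rs) r' κ) cnt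

/-- Followers of a shortened row. -/
noncomputable def folS (xs : List Nat) (k cnt : Nat) :
    Nat → Nat → Nat → Nat → (Nat → Nat → Nat → Bool) → Bool :=
  Nat.rec (motive := fun _ => Nat → Nat → Nat → Nat → (Nat → Nat → Nat → Bool) → Bool)
    (fun _ S um r κ => κ S um r)
    (fun _ ih pi S um r κ => frc (Nat.land r 15) fun i =>
      Nat.blt pi i && Nat.blt i k &&
        ih i (Nat.add S (nth xs i)) (Nat.lor um (Nat.pow 2 i)) (Nat.shiftRight r 4) κ) cnt

/-- The test `8 y ≤ l |Y|` with `Yb = 16384 (Y + 1/2)`, sign `sg`. -/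
def capT (O G l y Yb : Nat) (sg : Bool) : Bool :=
  Nat.ble l 8 && cond sg
    (lge G (Nat.mul l Yb) (Nat.add (Nat.mul 8 y) (Nat.mul (Nat.mul l 8192) O)))
    (lge G (Nat.mul (Nat.mul l 8192) O) (Nat.add (Nat.mul 8 y) (Nat.mul l Yb)))

/-- `2^25 (cap - SX) + 5368709120` for the second capacity; `Tb` is the room of the block. -/
def capV (O l Tb SX : Nat) : Nat :=
  Nat.sub (Nat.add
    (Nat.land (Nat.shiftRight (Nat.mul (Nat.add 8 l) Tb) 3) (Nat.mul 35184372088831 O))
    (Nat.mul (Nat.sub (Nat.add 5368709120 (Nat.mul (Nat.sub 8 l) 2097152))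
      (Nat.mul (Nat.add 8 l) 134217728)) O)) (Nat.mul 8192 SX)

/-- Shortened rows: number of pieces (3 bits, `0` is an empty row of the tail height), second
capacity flag (1), `l` (4), sign (1), rule for the given pieces (1), pieces. -/
noncomputable def rowsS (P : Prof) (xs : List Nat) (k HT O G bi Xb Tb Yb cnt : Nat) :
    Nat → Nat → List Rw → Nat → (Nat → Nat → List Rw → Nat → Bool) → Bool :=
  Nat.rec (motive := fun _ => Nat → Nat → List Rw → Nat → (Nat → Nat → List Rw → Nat → Bool) → Bool)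
    (fun p um rs r κ => κ p um rs r)
    (fun _ ih p um rs r κ => frc (Nat.land r 7) fun c =>
      frc (cond (Nat.beq c 0) HT (frc (Nat.land (Nat.shiftRight r 10) 15) (nth xs))) fun H =>
      frc (Nat.add p (Nat.mul 4 H)) fun q => lge G (Nat.mul 16384 O) q &&
      frc (lmax 47 G p (Nat.sub (Nat.mul 16384 O) q)) fun Z =>
      frc (tz P O G Z H) fun Tc =>
      folS xs k c bi 0 um (Nat.shiftRight r 10) fun S um r' =>
        frc (Nat.sub (Nat.add (Nat.mul 2 Tc) (Nat.mul 3221225472 O)) (Nat.mul 8192 S)) fun R1 =>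
        frc (Nat.sub (Nat.add Tb (Nat.mul 2130706432 O)) (Nat.mul 8192 (Nat.add S Xb))) fun R2 =>
        (cond (Nat.testBit r 3) (capT O G (Nat.land (Nat.shiftRight r 4) 15)
          (lsub 47 G (Nat.add Z (Nat.mul 2 H)) (Nat.mul 8192 O)) Yb (Nat.testBit r 8)) true) &&
        frc (cond (Nat.testBit r 3)
          (lmin 47 G R1 (capV O (Nat.land (Nat.shiftRight r 4) 15) Tb (Nat.add S Xb))) 0) fun R3 =>
        (Nat.beq c 0 || lge G (cond (Nat.testBit r 9) R3
          (lmin 47 G R1 (Nat.add R2 (Nat.mul 2 Tc)))) (Nat.mul 5368709120 O)) &&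
        frc r' fun r' => ih q um (⟨true, Z, R1, R2, R3⟩ :: rs) r' κ) cnt

/-- `c0` on the lanes of `Ol`, `c1` on the lanes of `Mu`. -/
def tv (Ol Mu c0 c1 : Nat) : Nat := Nat.add (Nat.mul c0 Ol) (Nat.mul c1 Mu)

/-- `2^25 (D + a) + 5368709120` for the sizes `AV / 4096`. -/
def mval (P : Prof) (O G AV : Nat) (w : Rw) (alt : Bool) : Nat :=
  cond w.sh (cond alt w.r3 (lmin 47 G w.r1 (Nat.add w.r2 (Nat.mul 2 (tz P O G w.z AV)))))
    (lmin 47 G (lmin 47 G w.r1 (Nat.add w.r2 (tz P O G w.z AV)))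
      (Nat.add w.r3 (Nat.mul 4096 AV)))

/-- Test `(c - 2048) / 2048 ≤ D`. -/
def o1ok (Ol Mu G lo hi c M : Nat) : Bool :=
  lge G M (tv Ol Mu (Nat.add (Nat.add 5335154688 (Nat.mul 16384 c)) (Nat.mul 262144 lo))
    (Nat.add (Nat.add 5335154688 (Nat.mul 16384 c)) (Nat.mul 262144 hi)))

/-- First option, unit `2^-32`, bias `2^42`. -/
def o1 (Ol Mu lo hi c M : Nat) : Nat :=
  Nat.add (Nat.mul lo M) (tv Ol Mu
    (Nat.sub 4398046511104 (Nat.mul lo (Nat.add 5368709120 (Nat.mul 262144 lo))))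
    (Nat.sub (Nat.add 4398046511104 (Nat.mul (Nat.mul 16384 c) (Nat.sub hi lo)))
      (Nat.add (Nat.mul lo (Nat.add 5368709120 (Nat.mul 262144 hi)))
        (Nat.mul 33554432 (Nat.sub hi lo)))))

/-- Second option. -/
def o2 (Ol Mu G lo hi n s M : Nat) : Nat :=
  lmin 47 G
    (Nat.add (Nat.mul s M) (tv Ol Mu
      (Nat.sub 4398046511104 (Nat.mul s (Nat.add (Nat.add 5368709120 (Nat.mul 262144 lo))
        (Nat.mul 65536 (Nat.mul n s)))))
      (Nat.sub 4398046511104 (Nat.mul s (Nat.add (Nat.add 5368709120 (Nat.mul 262144 hi))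
        (Nat.mul 65536 (Nat.mul n s)))))))
    (frc (Nat.mul (Nat.mul 65536 (Nat.succ n)) (Nat.add lo hi)) fun f => tv Ol Mu
      (Nat.sub (Nat.add 4398046511104 (Nat.mul f (Nat.mul 3 lo))) (Nat.mul f hi))
      (Nat.add 4398046511104 (Nat.mul f (Nat.sub (Nat.mul 3 hi) lo))))

/-- Options of the rows: type (2 bits); then alternative flag (1) and 12 bits of data. -/
noncomputable def opts (P : Prof) (O Ol Mu G AV lo hi : Nat) (rs : List Rw) :
    Nat → Nat → Nat → (Nat → Nat → Nat → Bool) → Bool :=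
  List.rec (motive := fun _ => Nat → Nat → Nat → (Nat → Nat → Nat → Bool) → Bool)
    (fun A c r κ => κ A c r)
    (fun w _ ih A c r κ => cond (Nat.beq (Nat.land r 3) 0) (ih A c (Nat.shiftRight r 2) κ)
      (frc (mval P O G AV w (Nat.testBit r 2)) fun M =>
        cond (Nat.beq (Nat.land r 3) 1)
          (frc (Nat.land (Nat.shiftRight r 3) 4095) fun d => o1ok Ol Mu G lo hi d M &&
            ih (Nat.add A (o1 Ol Mu lo hi d M)) (Nat.succ c) (Nat.shiftRight r 15) κ)
          (ih (Nat.add A (o2 Ol Mu G lo hi (Nat.land (Nat.shiftRight r 3) 7)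
            (Nat.land (Nat.shiftRight r 6) 511) M)) (Nat.succ c) (Nat.shiftRight r 15) κ))) rs

/-- The affine minorant lies below the table on `n` levels from `i0` and the rows
`r0, ..., r0 + nr - 1`; `s` is the bit offset, `t0`, `t1` the thresholds. -/
noncomputable def tabC (rc : Nat → Nat) (n s r0 κ t0 t1 nr : Nat) : Bool :=
  Nat.rec (motive := fun _ => Bool) true
    (fun d ih => frc (Nat.shiftRight (frc (Nat.add r0 d) rc) s) (fun x =>
      frc (Nat.mul (Nat.mul (Nat.mul 4 κ) d) (ones 64 n)) fun y =>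
        lge (grd 64 n) (Nat.add (Nat.land x (Nat.mul 65535 (ones 64 n))) y) t0 &&
        lge (grd 64 n)
          (Nat.add (Nat.land (Nat.shiftRight x 16) (Nat.mul 65535 (ones 64 n))) y) t1) && ih) nr

/-- Groups of classes from `hi` down to `0`: level (3 bits), `λ` (10), `κ` (10), `μ0` (16),
`μ1` (16), coupling exponent (2), number of coupled pieces (4), options. -/
noncomputable def groups (P : Prof) (tc : Nat → Nat → Nat) (xs : List Nat) (rs : List Rw)
    (k O Ol Mu G A0 C0 IR XR i0 n r0 nr fuel : Nat) : Nat → Nat → Bool :=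
  Nat.rec (motive := fun _ => Nat → Nat → Bool) (fun _ _ => false)
    (fun _ ih hi r => cond (Nat.beq hi 0) true
      (frc (Nat.land r 7) fun l => frc (Nat.sub hi (Nat.pow 2 l)) fun lo =>
        frc (Nat.shiftRight (Nat.add 64 lo) l) fun ν =>
        Nat.ble (Nat.pow 2 l) hi && Nat.beq (Nat.shiftLeft ν l) (Nat.add 64 lo) &&
        frc (Nat.land (Nat.shiftRight r 3) 1023) fun la =>
        frc (Nat.land (Nat.shiftRight r 13) 1023) fun κ =>
        frc (Nat.land (Nat.shiftRight r 23) 65535) fun m0 =>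
        frc (Nat.land (Nat.shiftRight r 39) 65535) fun m1 =>
        frc (Nat.shiftRight ν 1) (fun ρ =>
          tabC (tc ρ) n (Nat.add (Nat.mul 64 i0) (Nat.mul 32 (Nat.land ν 1))) r0 κ
            (Nat.add (Nat.mul m0 (ones 64 n)) (Nat.mul (Nat.mul 2 la) (ramp 64 n)))
            (Nat.add (Nat.mul m1 (ones 64 n)) (Nat.mul (Nat.mul 2 la) (ramp 64 n))) nr) &&
        frc (tv Ol Mu (Nat.mul 32 lo) (Nat.mul 32 hi)) fun AV =>
        opts P O Ol Mu G AV lo hi rs
          (Nat.add (Nat.add A0 (Nat.mul (Nat.mul 1024 la) IR))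
            (tv Ol Mu (Nat.mul 65536 m0) (Nat.mul 65536 m1))) 0 (Nat.shiftRight r 61) fun A c r' =>
          cond (Nat.beq (Nat.land (Nat.shiftRight r 55) 3) 0)
            (lge G A (Nat.add (Nat.mul (Nat.add C0 (Nat.mul 4398046511104 c)) O)
              (Nat.mul (Nat.mul 1024 κ) XR)))
            (frc (Nat.land (Nat.shiftRight r 57) 15) fun m =>
              frc (Nat.pow 2 (Nat.add 16 (Nat.land (Nat.shiftRight r 55) 3))) fun f =>
              Nat.ble m k && lge G (Nat.add A (Nat.mul (Nat.mul f m) AV))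
                (Nat.add (Nat.add (Nat.mul (Nat.add C0 (Nat.mul 4398046511104 c)) O)
                  (Nat.mul (Nat.mul 1024 κ) XR)) (Nat.mul f (suf xs k m)))) &&
          frc r' (ih lo))) fuel

/-- End of the layout: coverage, ranges of the two levels, groups. `h` holds the top class
(6 bits), `i0` (7), number of level steps (5), first row (5), number of row steps (3). -/
noncomputable def fin (P : Prof) (tc : Nat → Nat → Nat) (b : Box) (xs : List Nat)
    (k O Ol Mu G h p0 p um : Nat) (rs : List Rw) (r : Nat) : Bool :=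
  frc (Nat.land (Nat.shiftRight h 6) 127) fun i0 =>
  frc (Nat.land (Nat.shiftRight h 13) 31) fun ni =>
  frc (Nat.land (Nat.shiftRight h 18) 31) fun r0 =>
  frc (Nat.land (Nat.shiftRight h 23) 7) fun nr =>
  Nat.beq (Nat.succ um) (Nat.pow 2 k) && Nat.ble rs.length 12 &&
  Nat.ble 1 ni && Nat.ble (Nat.add i0 ni) 128 && Nat.ble 1 nr && Nat.ble 1 r0 &&
  Nat.ble (Nat.add r0 nr) 31 &&
  frc (Nat.mul (Nat.sub 16384 (Nat.mul 128 i0)) O) fun ti => lge G ti p &&
  frc (Nat.sub ti p) fun IR => lge G (Nat.mul (Nat.mul 128 ni) O) IR &&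
  frc (Nat.mul (Nat.sub 7936 (Nat.mul 256 r0)) O) fun bi => lge G bi p0 &&
  frc (Nat.sub bi p0) fun XR => lge G (Nat.mul (Nat.mul 256 nr) O) XR &&
  frc (Nat.mul 256 (arV b xs)) fun A0 => frc (Nat.add (Nat.mul 64 (arC b)) 2147483649) fun C0 =>
  frc (Nat.succ ni) fun n =>
  groups P tc xs rs k O Ol Mu G A0 C0 IR XR i0 n r0 (Nat.succ nr) 41 (Nat.land h 63) r

/-- The block, the shortened rows and the rows above. -/
noncomputable def obst (P : Prof) (xs : List Nat) (k HT O G p um : Nat) (rs : List Rw) (r : Nat)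
    (κ : Nat → Nat → List Rw → Nat → Bool) : Bool :=
  frc (Nat.land r 15) fun bi => Nat.blt bi k &&
  aff xs k HT O G p (Nat.shiftRight r 4) fun pb r => lge G pb p &&
  frc (Nat.add pb (Nat.mul 4 (nth xs bi))) fun qb => lge G (Nat.mul 16384 O) qb &&
  frc (tz P O G (lmax 47 G pb (Nat.sub (Nat.mul 16384 O) qb)) (nth xs bi)) fun Tb =>
  aff xs k HT O G p r fun ps r => lge G ps p &&
  rowsS P xs k HT O G bi (nth xs bi) Tb (Nat.add pb (Nat.mul 2 (nth xs bi))) (Nat.land r 7) ps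
    (Nat.lor um (Nat.pow 2 bi)) rs (Nat.shiftRight r 3) fun q um rs r =>
  aff xs k HT O G p r fun t r => lge G t q && lge G t qb &&
  rowsN P xs k HT O G (Nat.land r 7) t um rs (Nat.shiftRight r 3) κ

/-- A leaf: tail flag (1 bit), tail bound (12), ranges (26), obstacle flag (1), number of
rows (3), lower level, rows, obstacle, groups. -/
noncomputable def leaf (P : Prof) (tc : Nat → Nat → Nat) (b : Box) (r : Nat) : Bool :=
  frc b.length fun k => Nat.ble 1 k && Nat.ble k 15 && okB b &&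
  frc (pat b 0 4097 4097) fun p => frc (nv p (Nat.succ k)).1 fun n =>
  frc (ones 48 n) fun O => frc (grd 48 n) fun G => frc (mk p k 0) fun Mu =>
  frc (Nat.sub O Mu) fun Ol => frc (Nat.land (Nat.shiftRight r 1) 4095) fun c =>
  frc (Nat.land (Nat.shiftRight r 13) 67108863) fun h =>
  Nat.ble 1 (Nat.land h 63) && Nat.ble (Nat.land h 63) 40 &&
  cond (Nat.testBit r 0) (Nat.ble (lastU b 0) (Nat.mul 32 (Nat.land h 63)))
    (Nat.ble c (Nat.mul 32 (Nat.land h 63)) &&
      Nat.ble 8388608 (Nat.add (arL b) (Nat.mul c c))) &&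
  (fun xs =>
    frc (cond (Nat.testBit r 0) (frc (Nat.pred k) (nth xs)) (Nat.mul c O)) fun HT =>
    aff xs k HT O G 0 (Nat.shiftRight r 43) fun p0 r' =>
    rowsN P xs k HT O G (Nat.land (Nat.shiftRight r 40) 7) p0 0 [] r' fun q um rs r' =>
    cond (Nat.testBit r 39) (obst P xs k HT O G q um rs r' (fin P tc b xs k O Ol Mu G h p0))
      (fin P tc b xs k O Ol Mu G h p0 q um rs r')) (vecs p O b 0 k)

end Leaf

namespace Tree

/-- Lower the upper ends from coordinate `i` on. -/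
noncomputable def cutU (m : Nat) (b : Box) : Nat → Box :=
  List.rec (motive := fun _ => Nat → Box) (fun _ => [])
    (fun x _ r i => cond (Nat.beq i 0)
      (frc (cond (Nat.ble x.2 m) x.2 m) fun u => (x.1, u) :: r 0) (x :: r (Nat.pred i))) b

/-- Raise the lower ends up to coordinate `i`. -/
noncomputable def cutL (m : Nat) (b : Box) : Nat → Box :=
  List.rec (motive := fun _ => Nat → Box) (fun _ => [])
    (fun x t r i => frc (cond (Nat.ble m x.1) x.1 m) fun l =>
      (l, x.2) :: cond (Nat.beq i 0) t (r (Nat.pred i))) b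

/-- Append the interval from zero to the last upper end. -/
noncomputable def deep (b : Box) : Nat → Box :=
  List.rec (motive := fun _ => Nat → Box) (fun u => [(0, u)]) (fun x _ r _ => x :: r x.2) b

/-- One token: operations split (0), cap (1), deepen (2), end (3: prune or leaf). -/
noncomputable def tok (lf : Box → Nat → Bool) (fuel : Nat) :
    Box → List Box → Nat → (List Box → Bool) → Bool :=
  Nat.rec (motive := fun _ => Box → List Box → Nat → (List Box → Bool) → Bool)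
    (fun _ _ _ _ => false)
    (fun _ ih b st r κ => frc (Nat.land r 3) fun o =>
      cond (Nat.ble o 1)
        (frc (Nat.land (Nat.shiftRight r 2) 15) fun i =>
          frc (Nat.land (Nat.shiftRight r 6) 4095) fun m =>
          cond (Nat.beq o 0) (ih (cutU m b i) (cutL m b i :: st) (Nat.shiftRight r 18) κ)
            (Nat.blt 8388608 (Leaf.arL (cutL m b i)) && ih (cutU m b i) st (Nat.shiftRight r 18) κ))
        (cond (Nat.beq o 2) (Nat.blt b.length 15 && ih (deep b 4096) st (Nat.shiftRight r 2) κ)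
          (cond (Nat.testBit r 2) (lf b (Nat.shiftRight r 3)) (Nat.blt 8388608 (Leaf.arL b)) &&
            κ st))) fuel

/-- Equality of boxes. -/
noncomputable def eqB (b : Box) : Box → Bool :=
  List.rec (motive := fun _ => Box → Bool)
    (fun c => List.rec (motive := fun _ => Bool) true (fun _ _ _ => false) c)
    (fun x _ r c => List.rec (motive := fun _ => Bool) false
      (fun y t _ => Nat.beq x.1 y.1 && Nat.beq x.2 y.2 && r t) c) b

/-- Equality of stacks. -/
noncomputable def eqS (s : List Box) : List Box → Bool :=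
  List.rec (motive := fun _ => List Box → Bool)
    (fun c => List.rec (motive := fun _ => Bool) true (fun _ _ _ => false) c)
    (fun x _ r c => List.rec (motive := fun _ => Bool) false (fun y t _ => eqB x y && r t) c) s

/-- Run the tokens on the stack and compare with the expected stack `e`. -/
noncomputable def run (lf : Box → Nat → Bool) (e : List Box) (ts : List Nat) : List Box → Bool :=
  List.rec (motive := fun _ => List Box → Bool) (fun st => eqS st e)
    (fun t _ ih st => List.rec (motive := fun _ => Bool) false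
      (fun b st' _ => tok lf 200 b st' t ih) st) ts

end Tree

end Pool.Agent.MP_34f9b1_co.Sym

end MrgPart7

-- marker of a merged file
example : 731051 + 575169 = 731051 + 575169 := rfl
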