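import Mathlib.Tactic.Linarith
import Mathlib.Tactic.Positivity
import Pool.Agent.MP_34f9b1_co.Sym.LChk

namespace Pool.Agent.MP_34f9b1_co.Sym.G2

open Finset

theorem gl_eq (X k : ℕ) : gl X (96 * k) = dg 96 X k := by
  have h : (0xffffffffffffffffffffffff : ℕ) = Nat.pred (Nat.pow 2 96) := by decide +kernel
  unfold gl dg
  rw [h]; rfl

theorem dg_small {c : ℕ} (hc : c < 2 ^ 96) (i : ℕ) : dg 96 c i = if i = 0 then c else 0 := by
  have e : c = 2 ^ 96 * 0 + c := by omega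
  cases i with
  | zero => rw [e, DG.cons_zero _ hc]; simp
  | succ i => rw [e, DG.cons_succ _ hc, DG.dg_zero]; simp

theorem dg_unit {c : ℕ} (hc : c < 2 ^ 96) (k i : ℕ) :
    dg 96 (Nat.shiftLeft c (96 * k)) i = if i = k then c else 0 := by
  have := DG.shl' 96 c k i
  rw [show Nat.shiftLeft c (96 * k) = c <<< (96 * k) from rfl, this, dg_small hc]
  split_ifs <;> omega

theorem dg_xor (X : ℕ) {s : ℕ} (hs : s < 2 ^ 96) (k : ℕ) :
    dg 96 (Nat.xor X s) (k + 1) = dg 96 X (k + 1) := by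
  rw [DG.succ', DG.succ', show Nat.xor X s = X ^^^ s from rfl, Nat.xor_div_two_pow,
    Nat.div_eq_of_lt hs, Nat.xor_zero]

theorem dg_pk (l : List ℕ) : (∀ a ∈ l, a < 2 ^ 96) → ∀ k, dg 96 (pk l) k = l.getD k 0 := by
  induction l with
  | nil => intro _ k; exact DG.dg_zero _ _
  | cons a l ih =>
    intro h k
    have ha := h a (by simp)
    show dg 96 (2 ^ 96 * pk l + a) k = _
    cases k with
    | zero => rw [DG.cons_zero _ ha]; rfl
    | succ k => rw [DG.cons_succ _ ha, ih fun b hb => h b (by simp [hb])]; rfl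

theorem conv {R A C : ℕ} (hR : ∀ i, dg 96 R i ≤ C) (n : ℕ) : ∀ X, Bd 96 n X A →
    n * (A * C) < 2 ^ 96 → ∀ i, dg 96 (X * R) i ≤ n * (A * C) ∧
      dg 96 (X * R) i = ∑ k ∈ range (i + 1), dg 96 X k * dg 96 R (i - k) := by
  induction n with
  | zero =>
    intro X hX _ i
    have : X = 0 := Nat.le_zero.1 (DG.le_of_dg (w := 96) (by norm_num) X fun j => by
      rw [(hX j).2 (Nat.zero_le _)]; exact Nat.zero_le _)
    subst this
    simp [DG.dg_zero]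
  | succ n ih =>
    intro X hX hn i
    have h0 : X % 2 ^ 96 ≤ A := by rw [← DG.zero']; exact (hX 0).1
    have hX' : Bd 96 n (X / 2 ^ 96) A := fun j => by
      rw [← DG.succ']; exact ⟨(hX _).1, fun h => (hX _).2 (by omega)⟩
    rw [Nat.succ_mul] at hn ⊢
    have ih' := ih _ hX' (by omega)
    have e : X * R = X % 2 ^ 96 * R + (X / 2 ^ 96 * R) <<< (96 * 1) := by
      rw [Nat.shiftLeft_eq, Nat.mul_one, Nat.mul_right_comm, ← Nat.add_mul, Nat.mod_add_div']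
    have b1 : ∀ j, X % 2 ^ 96 * dg 96 R j ≤ A * C := fun j => Nat.mul_le_mul h0 (hR j)
    have m1 : ∀ j, dg 96 (X % 2 ^ 96 * R) j = X % 2 ^ 96 * dg 96 R j := fun j =>
      DG.mul' j fun j => lt_of_le_of_lt (b1 j) (by omega)
    have b2 : ∀ j, dg 96 ((X / 2 ^ 96 * R) <<< (96 * 1)) j ≤ n * (A * C) := fun j => by
      rw [DG.shl']; split_ifs
      · exact Nat.zero_le _
      · exact (ih' _).1
    rw [e, DG.add' i fun j => by rw [m1]; have := b1 j; have := b2 j; omega, m1]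
    refine ⟨by have := b1 i; have := b2 i; omega, ?_⟩
    rw [DG.shl', sum_range_succ', DG.zero' 96 X, Nat.sub_zero, Nat.add_comm]
    congr 1
    cases i with
    | zero => simp
    | succ i =>
      rw [if_neg (by omega), Nat.add_sub_cancel, (ih' i).2]
      refine sum_congr rfl fun k _ => ?_
      rw [DG.succ', Nat.add_sub_add_right]

theorem sm_eq {D B A : ℕ} (hD : Bd 96 22 D A) (hB : ∀ k, dg 96 B (k + 1) ≤ 2 ^ 23)
    (h : 21 * (A * 2 ^ 23) < 2 ^ 96) :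
    sm D B = dg 96 D 0 + ∑ k ∈ range 21, dg 96 D (k + 1) * dg 96 B (21 - k) := by
  have e : ∀ X i, dg 96 (Nat.shiftRight X 96) i = dg 96 X (i + 1) := fun X i => DG.shr' 96 X 1 i
  have := (conv (R := Nat.shiftRight B 96) (A := A) (C := 2 ^ 23) (fun i => by rw [e]; exact hB i)
    21 (Nat.shiftRight D 96) (fun i => by
      rw [e]; exact ⟨(hD _).1, fun h => (hD _).2 (by omega)⟩) h 20).2
  have e1 : gl D 0 = dg 96 D 0 := gl_eq D 0
  have e2 : ∀ Y, gl Y 1920 = dg 96 Y 20 := fun Y => gl_eq Y 20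
  unfold sm
  rw [e1, e2, Nat.add_eq, Nat.mul_eq, this]
  refine congrArg _ (sum_congr rfl fun k hk => ?_)
  rw [e, e, show 20 - k + 1 = 21 - k by have := mem_range.1 hk; omega]

/-- `X` has lanes at most `B` and represents the value `f` of a linear form. -/
def Rep (v : ℕ → ℝ) (X B : ℕ) (f : ℝ) : Prop :=
  Bd 96 22 X B ∧ ∑ i ∈ range 22, (dg 96 X i : ℝ) * v i = f

theorem Rep.add {v X Y A B f g} (h : Rep v X A f) (h' : Rep v Y B g) (hb : A + B < 2 ^ 96) :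
    Rep v (Nat.add X Y) (A + B) (f + g) := by
  have e : ∀ i, dg 96 (Nat.add X Y) i = dg 96 X i + dg 96 Y i := fun i =>
    DG.add' i fun j => by have := (h.1 j).1; have := (h'.1 j).1; omega
  refine ⟨fun i => ?_, ?_⟩
  · rw [e]
    exact ⟨Nat.add_le_add (h.1 i).1 (h'.1 i).1, fun hi => by rw [(h.1 i).2 hi, (h'.1 i).2 hi]⟩
  · rw [← h.2, ← h'.2, ← sum_add_distrib]
    exact sum_congr rfl fun i _ => by rw [e]; push_cast; ring

theorem Rep.mul {v X A f} {m M : ℕ} (h : Rep v X A f) (hm : m ≤ M) (hb : M * A < 2 ^ 96) :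
    Rep v (Nat.mul m X) (M * A) (m * f) := by
  have e : ∀ i, dg 96 (Nat.mul m X) i = m * dg 96 X i := fun i =>
    DG.mul' i fun j => lt_of_le_of_lt (Nat.mul_le_mul hm (h.1 j).1) hb
  refine ⟨fun i => ?_, ?_⟩
  · rw [e]
    exact ⟨Nat.mul_le_mul hm (h.1 i).1, fun hi => by rw [(h.1 i).2 hi, Nat.mul_zero]⟩
  · rw [← h.2, mul_sum]
    exact sum_congr rfl fun i _ => by rw [e]; push_cast; ring

theorem Rep.unit (v : ℕ → ℝ) {c C k : ℕ} (hc : c ≤ C) (hb : C < 2 ^ 96) (hk : k < 22) :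
    Rep v (Nat.shiftLeft c (96 * k)) C (c * v k) := by
  have e := dg_unit (lt_of_le_of_lt hc hb) k
  refine ⟨fun i => ?_, ?_⟩
  · rw [e]; split_ifs <;> omega
  · rw [sum_eq_single k, e, if_pos rfl]
    · intro i _ hi; rw [e, if_neg hi]; simp
    · intro h; exact absurd (mem_range.2 hk) h

theorem Rep.mono {v X A B f} (h : Rep v X A f) (hb : A ≤ B) : Rep v X B f :=
  ⟨fun i => ⟨(h.1 i).1.trans hb, (h.1 i).2⟩, h.2⟩

theorem Rep.vec (v : ℕ → ℝ) {ci cj i j k a b : ℕ} (h1 : ci ≤ 2 ^ 23) (h2 : cj ≤ 2 ^ 23)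
    (h3 : a ≤ 2 ^ 23) (h4 : b ≤ 2 ^ 23) (hi : i < 22) (hj : j < 22) (hk : k < 22) :
    Rep v (vec ci cj (96 * i) (96 * j) (96 * k) (Nat.mul a b)) (2 ^ 46 + 65536 + (2 ^ 23 + 2 ^ 23))
      (((a * b : ℕ) : ℝ) * v 0 + (65536 : ℕ) * v k + (cj * v i + ci * v j)) :=
  ((Rep.unit v (k := 0) (C := 2 ^ 46) (Nat.mul_le_mul h3 h4) (by norm_num) (by norm_num)).add
    (Rep.unit v le_rfl (by norm_num) hk) (by norm_num)).add
    ((Rep.unit v h2 (by norm_num) hi).add (Rep.unit v h1 (by norm_num) hj) (by norm_num))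
    (by norm_num)

/-- The variable stored at position `p` of a box side. -/
def pv (v : ℕ → ℝ) (p : ℕ) : ℝ := if 0 < p ∧ p < 22 then v (22 - p) else 0

/-- The point lies in the box, whose sides are stored in reverse order. -/
def InB (v : ℕ → ℝ) (LO HI : ℕ) : Prop :=
  ∀ p, (dg 96 LO (p + 1) : ℝ) ≤ pv v (p + 1) ∧ pv v (p + 1) ≤ dg 96 HI (p + 1) ∧
    dg 96 HI (p + 1) ≤ 2 ^ 23

theorem InB.lo {v LO HI} (h : InB v LO HI) (p : ℕ) : dg 96 LO (p + 1) ≤ 2 ^ 23 := by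
  have := (h p).1.trans (h p).2.1
  exact (Nat.cast_le.1 this).trans (h p).2.2

theorem fin_aux (n : ℕ) (l g lo hi : ℕ → ℕ) (v : ℕ → ℝ)
    (hb : ∀ k < n, (lo k : ℝ) ≤ v (k + 1) ∧ v (k + 1) ≤ hi k)
    (h : ∑ k ∈ range n, (l (k + 1) : ℝ) * v (k + 1) + l 0 * 1 ≤
      ∑ k ∈ range n, (g (k + 1) : ℝ) * v (k + 1) + g 0 * 1)
    (h' : g 0 - l 0 + ∑ k ∈ range n, (g (k + 1) - l (k + 1)) * hi k <
      l 0 - g 0 + ∑ k ∈ range n, (l (k + 1) - g (k + 1)) * lo k) : False := by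
  have h2 := (Nat.cast_lt (α := ℝ)).2 h'
  simp only [Nat.cast_add, Nat.cast_sum, Nat.cast_mul] at h2
  have t0 : ((l 0 - g 0 : ℕ) : ℝ) + g 0 = (g 0 - l 0 : ℕ) + l 0 := by norm_cast; omega
  have t1 : ∑ k ∈ range n, (((l (k + 1) - g (k + 1) : ℕ) : ℝ) * lo k + g (k + 1) * v (k + 1)) ≤
      ∑ k ∈ range n, (((g (k + 1) - l (k + 1) : ℕ) : ℝ) * hi k + l (k + 1) * v (k + 1)) := by
    refine sum_le_sum fun k hk => ?_
    have := hb k (mem_range.1 hk)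
    rcases le_total (l (k + 1)) (g (k + 1)) with c | c
    · rw [Nat.sub_eq_zero_of_le c, Nat.cast_sub c]
      have := mul_le_mul_of_nonneg_left this.2 (sub_nonneg.2 ((Nat.cast_le (α := ℝ)).2 c))
      rw [Nat.cast_zero]; linarith only [this]
    · rw [Nat.sub_eq_zero_of_le c, Nat.cast_sub c]
      have := mul_le_mul_of_nonneg_left this.1 (sub_nonneg.2 ((Nat.cast_le (α := ℝ)).2 c))
      rw [Nat.cast_zero]; linarith only [this]
  rw [sum_add_distrib, sum_add_distrib] at t1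
  linarith only [h, h2, t0, t1]

theorem fin_snd {v LO HI L G A f g} (hb : InB v LO HI) (h0 : v 0 = 1) (hL : Rep v L A f)
    (hG : Rep v G A g) (hA : A ≤ 2 ^ 68) (hfg : f ≤ g) (h : fin LO HI L G = true) : False := by
  have hA' : A < 2 ^ (96 - 1) := by omega
  have d1 : ∀ i, dg 96 (lsub 95 (grd 96 22) L G) i = dg 96 L i - dg 96 G i :=
    DG.lsub' (w := 96) (by norm_num) hL.1 hG.1 hA' hA'
  have d2 : ∀ i, dg 96 (lsub 95 (grd 96 22) G L) i = dg 96 G i - dg 96 L i :=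
    DG.lsub' (w := 96) (by norm_num) hG.1 hL.1 hA' hA'
  unfold fin at h
  generalize lsub 95 (grd 96 22) L G = D1, lsub 95 (grd 96 22) G L = D2 at h d1 d2
  have b1 : Bd 96 22 D1 A := fun i => by rw [d1]; have := hL.1 i; omega
  have b2 : Bd 96 22 D2 A := fun i => by rw [d2]; have := hG.1 i; omega
  have h' := Nat.lt_of_succ_le (Nat.le_of_ble_eq_true h)
  rw [sm_eq b1 hb.lo (by omega), sm_eq b2 (fun p => (hb p).2.2) (by omega)] at h'
  simp only [d1, d2] at h'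
  rw [← hL.2, ← hG.2, sum_range_succ', sum_range_succ' _ 21, h0] at hfg
  refine fin_aux 21 (dg 96 L) (dg 96 G) (fun k => dg 96 LO (21 - k)) (fun k => dg 96 HI (21 - k)) v
    (fun k hk => ?_) hfg h'
  have := hb (20 - k)
  rw [show 20 - k + 1 = 21 - k by omega, pv, if_pos (by omega),
    show 22 - (21 - k) = k + 1 by omega] at this
  exact ⟨this.1, this.2.1⟩

/-- The fact with index tuple `t`. -/
def Fct (v : ℕ → ℝ) (t : ℕ × ℕ × ℕ × ℕ × ℕ × ℕ) : Prop :=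
  v t.1 * v t.2.1 + 65536 * v t.2.2.1 ≤ v t.2.2.2.1 * v t.2.2.2.2.1 + 65536 * v t.2.2.2.2.2

/-- Position `s` of the entry `e` holds the vector offset of the variable `i`. -/
def cv (e s i : ℕ) : Bool := Nat.beq (fld e s) (Nat.mul 96 i) && Nat.ble i 21

/-- Position `s` of the entry `e` holds the box offset of the variable `i`. -/
def cb (e s i : ℕ) : Bool := Nat.beq (fld e s) (Nat.mul 96 (Nat.succ (Nat.sub 21 i))) && Nat.ble 1 i

/-- The table entry `e` codes the index tuple `t`. -/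
def cod (e : ℕ) : ℕ × ℕ × ℕ × ℕ × ℕ × ℕ → Bool
  | (i, j, k, l, m, n) => cv e 0 i && (cv e 12 j && (cv e 24 k && (cv e 36 l && (cv e 48 m &&
    (cv e 60 n && (cb e 72 i && (cb e 84 j && (cb e 96 l && cb e 108 m))))))))

theorem cv_snd {e s i : ℕ} (h : cv e s i = true) : fld e s = 96 * i ∧ i < 22 := by
  unfold cv at h
  rw [Bool.and_eq_true] at h
  exact ⟨Nat.eq_of_beq_eq_true h.1, Nat.lt_succ_of_le (Nat.le_of_ble_eq_true h.2)⟩

theorem cb_snd {e s i : ℕ} (h : cb e s i = true) : fld e s = 96 * (21 - i + 1) ∧ 0 < i := by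
  unfold cb at h
  rw [Bool.and_eq_true] at h
  exact ⟨Nat.eq_of_beq_eq_true h.1, Nat.le_of_ble_eq_true h.2⟩

/-- The index tuples. -/
def tups : List (ℕ × ℕ × ℕ × ℕ × ℕ × ℕ) :=
  [(12, 2, 13, 1, 1, 7), (1, 1, 5, 8, 2, 9), (8, 2, 9, 1, 1, 6), (8, 2, 9, 10, 2, 11),
    (1, 1, 9, 1, 1, 8), (1, 1, 17, 3, 16, 8), (1, 1, 21, 3, 20, 9), (1, 1, 15, 4, 14, 12),
    (1, 1, 19, 4, 18, 13), (3, 14, 8, 1, 1, 15), (3, 16, 8, 1, 1, 17), (3, 18, 9, 1, 1, 19),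
    (3, 20, 9, 1, 1, 21), (1, 1, 14, 1, 1, 15), (1, 1, 16, 1, 1, 17), (1, 1, 18, 1, 1, 19),
    (1, 1, 20, 1, 1, 21), (10, 14, 3, 1, 1, 15), (10, 16, 3, 1, 1, 17), (11, 18, 3, 1, 1, 19),
    (11, 20, 3, 1, 1, 21), (14, 2, 18, 15, 19, 1), (16, 2, 18, 17, 19, 1), (14, 2, 20, 15, 21, 1),
    (16, 2, 20, 17, 21, 1), (8, 11, 1, 3, 3, 3), (9, 10, 1, 3, 3, 3), (19, 2, 12, 4, 18, 7),
    (21, 2, 8, 3, 20, 6), (3, 18, 5, 19, 2, 8), (15, 2, 13, 4, 14, 7), (17, 2, 9, 3, 16, 6)]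

theorem tab0 : (List.range 32).all
    (fun q => frc (ent q) fun e => cod e (tups.getD q (12, 2, 13, 1, 1, 7))) = true := by
  decide +kernel

theorem tab (q : ℕ) (hq : q < 32) : ∃ t ∈ tups, cod (ent q) t = true := by
  refine ⟨tups.getD q (12, 2, 13, 1, 1, 7), ?_, List.all_eq_true.1 tab0 q (List.mem_range.2 hq)⟩
  rw [List.getD_eq_getElem?_getD]
  cases h : tups[q]? with
  | none => exact List.mem_cons_self
  | some t => exact List.mem_of_getElem? h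

theorem InB.at {v LO HI} (h : InB v LO HI) {i : ℕ} (h0 : 0 < i) (hi : i < 22) :
    (gl LO (96 * (21 - i + 1)) : ℝ) ≤ v i ∧ v i ≤ gl HI (96 * (21 - i + 1)) ∧
    gl LO (96 * (21 - i + 1)) ≤ 2 ^ 23 ∧ gl HI (96 * (21 - i + 1)) ≤ 2 ^ 23 := by
  have := h (21 - i)
  rw [pv, if_pos (by omega), show 22 - (21 - i + 1) = i by omega] at this
  rw [gl_eq, gl_eq]
  exact ⟨this.1, this.2.1, h.lo _, this.2.2⟩

theorem sel_eq (c m X Y : ℕ) : sel c m X Y = cond (bit c m) X Y := by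
  unfold sel bit; cases Nat.beq (Nat.land c m) 0 <;> rfl

theorem stq_eq (ih : ℕ → ℕ → ℕ → Bool) (c L G e B B' B'' : ℕ) : stq ih c L G e B B' B'' =
    ih (Nat.shiftRight c 24)
      (Nat.add L (Nat.mul (Nat.land (Nat.shiftRight c 7) 131071)
        (vec (gl B (fld e 72)) (gl B (fld e 84)) (fld e 0) (fld e 12) (fld e 24)
          (Nat.mul (gl B' (fld e 96)) (gl B'' (fld e 108))))))
      (Nat.add G (Nat.mul (Nat.land (Nat.shiftRight c 7) 131071)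
        (vec (gl B' (fld e 96)) (gl B'' (fld e 108)) (fld e 36) (fld e 48) (fld e 60)
          (Nat.mul (gl B (fld e 72)) (gl B (fld e 84)))))) := by
  unfold stq stp vec gl fld
  rfl

theorem rows_succ (LO HI f c L G : ℕ) : rows LO HI (f + 1) c L G =
    cond (Nat.beq c 0) (fin LO HI L G) (stq (rows LO HI f) c L G (ent (Nat.land c 31))
      (sel c 32 LO HI) (sel c 64 LO HI) (sel c 64 HI LO)) := by
  show Bool.rec (motive := fun _ => Bool) (stq (rows LO HI f) c L G (ent (Nat.land c 31))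
      (sel c 32 LO HI) (sel c 64 LO HI) (sel c 64 HI LO)) (fin LO HI L G) (Nat.beq c 0) = _
  cases Nat.beq c 0
  · rw [cond_false]
  · rw [cond_true]

theorem rows_snd {v LO HI} (hb : InB v LO HI) (h0 : v 0 = 1) (hF : ∀ t ∈ tups, Fct v t) (f : ℕ) :
    ∀ c L G A a g, Rep v L A a → Rep v G A g → A + f * (2 ^ 17 * (2 ^ 46 + 2 ^ 25)) ≤ 2 ^ 68 →
      a ≤ g → rows LO HI f c L G = true → False := by
  induction f with
  | zero => intro c L G A a g _ _ _ _ h; exact Bool.noConfusion h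
  | succ f ih =>
    intro c L G A a g hL hG hA hag h
    rw [rows_succ] at h
    cases hc : Nat.beq c 0
    swap
    · rw [hc, cond_true] at h; exact fin_snd hb h0 hL hG (by omega) hag h
    rw [hc, cond_false, stq_eq, sel_eq, sel_eq, sel_eq] at h
    obtain ⟨⟨i, j, k, l, m, n⟩, ht, he⟩ := tab (Nat.land c 31) (Nat.lt_succ_of_le Nat.and_le_right)
    have hf : v i * v j + 65536 * v k ≤ v l * v m + 65536 * v n := hF _ ht
    generalize ent (Nat.land c 31) = e at h he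
    simp only [cod, Bool.and_eq_true] at he
    obtain ⟨c1, c2, c3, c4, c5, c6, c7, c8, c9, c10⟩ := he
    obtain ⟨e1, hi⟩ := cv_snd c1
    obtain ⟨e2, hj⟩ := cv_snd c2
    obtain ⟨e3, hk⟩ := cv_snd c3
    obtain ⟨e4, hl⟩ := cv_snd c4
    obtain ⟨e5, hm⟩ := cv_snd c5
    obtain ⟨e6, hn⟩ := cv_snd c6
    obtain ⟨e7, i0⟩ := cb_snd c7
    obtain ⟨e8, j0⟩ := cb_snd c8
    obtain ⟨e9, l0⟩ := cb_snd c9
    obtain ⟨e10, m0⟩ := cb_snd c10
    rw [e1, e2, e3, e4, e5, e6, e7, e8, e9, e10] at h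
    have hμ : Nat.land (Nat.shiftRight c 7) 131071 ≤ 2 ^ 17 :=
      Nat.le_succ_of_le Nat.and_le_right
    generalize Nat.land (Nat.shiftRight c 7) 131071 = μ at h hμ
    obtain ⟨i1, i2, i3, i4⟩ := hb.at i0 hi
    obtain ⟨j1, j2, j3, j4⟩ := hb.at j0 hj
    obtain ⟨l1, l2, l3, l4⟩ := hb.at l0 hl
    obtain ⟨m1, m2, m3, m4⟩ := hb.at m0 hm
    obtain ⟨ci, cj, hci, hcj, a1, a2, a3⟩ : ∃ ci cj, gl (cond (bit c 32) LO HI) (96 * (21 - i + 1)) = ci ∧
        gl (cond (bit c 32) LO HI) (96 * (21 - j + 1)) = cj ∧ ci ≤ 2 ^ 23 ∧ cj ≤ 2 ^ 23 ∧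
        0 ≤ ((ci : ℝ) - v i) * (cj - v j) := by
      cases bit c 32
      · exact ⟨_, _, rfl, rfl, i4, j4, mul_nonneg (sub_nonneg.2 i2) (sub_nonneg.2 j2)⟩
      · exact ⟨_, _, rfl, rfl, i3, j3,
          mul_nonneg_of_nonpos_of_nonpos (sub_nonpos.2 i1) (sub_nonpos.2 j1)⟩
    obtain ⟨cl, cm, hcl, hcm, b1, b2, b3⟩ : ∃ cl cm, gl (cond (bit c 64) LO HI) (96 * (21 - l + 1)) = cl ∧
        gl (cond (bit c 64) HI LO) (96 * (21 - m + 1)) = cm ∧ cl ≤ 2 ^ 23 ∧ cm ≤ 2 ^ 23 ∧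
        ((cl : ℝ) - v l) * (cm - v m) ≤ 0 := by
      cases bit c 64
      · exact ⟨_, _, rfl, rfl, l4, m3,
          mul_nonpos_of_nonneg_of_nonpos (sub_nonneg.2 l2) (sub_nonpos.2 m1)⟩
      · exact ⟨_, _, rfl, rfl, l3, m4,
          mul_nonpos_of_nonpos_of_nonneg (sub_nonpos.2 l1) (sub_nonneg.2 m2)⟩
    rw [hci, hcj, hcl, hcm] at h
    refine ih _ _ _ (A + 2 ^ 17 * (2 ^ 46 + 2 ^ 25)) _ _
      ((hL.add ((Rep.vec v a1 a2 b1 b2 hi hj hk).mul hμ (by norm_num)) (by omega)).mono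
        (Nat.add_le_add_left (by norm_num) A))
      ((hG.add ((Rep.vec v b1 b2 a1 a2 hl hm hn).mul hμ (by norm_num)) (by omega)).mono
        (Nat.add_le_add_left (by norm_num) A))
      (by omega) (add_le_add hag (mul_le_mul_of_nonneg_left ?_ (Nat.cast_nonneg μ))) h
    rw [h0]; push_cast; linarith only [hf, a3, b3]

theorem chk_snd {v} (h0 : v 0 = 1) (hF : ∀ t ∈ tups, Fct v t) (t : Tr) :
    ∀ LO HI, InB v LO HI → chk t LO HI = true → False := by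
  induction t with
  | l c =>
    intro LO HI hb h
    have hz : Nat.land c 16777215 ≤ 16777215 := Nat.and_le_right
    have r := Rep.unit v (k := 0) hz (by norm_num) (by norm_num)
    exact rows_snd hb h0 hF 17 c _ _ _ _ _ r r (by norm_num) le_rfl h
  | n w a b ia ib =>
    intro LO HI hb h
    have h' : (chk a LO (Nat.xor (HI - Nat.shiftLeft (gl HI (96 * Nat.land w 31) -
        Nat.shiftRight w 5) (96 * Nat.land w 31)) (gl w (96 * 0))) &&
        chk b (Nat.xor (LO + Nat.shiftLeft (Nat.shiftRight w 5 - gl LO (96 * Nat.land w 31))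
        (96 * Nat.land w 31)) (gl w (96 * 0))) HI) = true := h
    rw [Bool.and_eq_true, gl_eq, gl_eq, gl_eq] at h'
    have hs := DG.lt' 96 w 0
    generalize dg 96 w 0 = z, Nat.land w 31 = k, Nat.shiftRight w 5 = c at h' hs
    rcases le_total (pv v k) c with hc | hc
    · refine ia _ _ (fun p => ?_) h'.1
      have u := dg_unit (lt_of_le_of_lt (Nat.sub_le (dg 96 HI k) c) (DG.lt' _ _ _)) k
      rw [dg_xor _ hs, DG.sub' (by norm_num) _ fun i => by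
        rw [u]; split_ifs with e
        · subst e; omega
        · omega, u]
      obtain ⟨p1, p2, p3⟩ := hb p
      split_ifs with e
      · subst e
        refine ⟨p1, ?_, by omega⟩
        rcases le_total (dg 96 HI (p + 1)) c with d | d
        · rw [Nat.sub_eq_zero_of_le d]; exact p2
        · rw [Nat.sub_sub_self d]; exact hc
      · exact ⟨p1, p2, p3⟩
    · refine ib _ _ (fun p => ?_) h'.2
      have hc' : c < 2 ^ 96 := by
        cases k with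
        | zero =>
          rw [pv, if_neg (by omega)] at hc
          have : c = 0 := Nat.cast_nonpos.1 hc
          omega
        | succ k =>
          have := (Nat.cast_le.1 (hc.trans (hb k).2.1)).trans (hb k).2.2
          omega
      have u := dg_unit (lt_of_le_of_lt (Nat.sub_le c (dg 96 LO k)) hc') k
      rw [dg_xor _ hs, DG.add' _ fun i => by
        have := DG.lt' 96 LO i
        rw [u]; split_ifs with e
        · subst e; omega
        · omega, u]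
      obtain ⟨p1, p2, p3⟩ := hb p
      split_ifs with e
      · subst e
        refine ⟨?_, p2, p3⟩
        rcases le_total (dg 96 LO (p + 1)) c with d | d
        · rw [Nat.add_sub_cancel' d]; exact hc
        · rw [Nat.sub_eq_zero_of_le d]; exact p1
      · exact ⟨p1, p2, p3⟩

theorem refute {u w y W T : ℕ} {tr : Tr}
    (h : chk tr (pk (lo0 u w y W)) (pk (hi0 u w y W T)) = true)
    (hT : T ≤ 8388608) (hW : W ≤ 131072) (hw : w ≤ 131072) (hy : y ≤ 65536)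
    {a d a' d' x x' s2 t2 s3 t3 z2 r2 z3 r3 : ℝ}
    (b1 : 0 ≤ a) (b2 : a ≤ 1) (b3 : 0 ≤ d) (b4 : d ≤ 1) (b5 : 0 ≤ a') (b6 : a' ≤ 1) (b7 : 0 ≤ d')
    (b8 : d' ≤ 1) (b9 : 0 ≤ x) (b10 : x ≤ 1) (b11 : 0 ≤ x') (b12 : x' ≤ 1) (b13 : 0 ≤ s2)
    (b14 : 1 ≤ t2) (b15 : 65536 * t2 ≤ T) (b16 : 0 ≤ s3) (b17 : 1 ≤ t3) (b18 : t3 ≤ 2)
    (b19 : 0 ≤ z2) (b20 : 1 ≤ r2) (b21 : 65536 * r2 ≤ T) (b22 : 0 ≤ z3) (b23 : 1 ≤ r3)
    (b24 : r3 ≤ 2)
    (f0 : 65536 * (x + x') ≤ W) (f1 : u ≤ 65536 * (a + d)) (f2 : 65536 * (a + d) ≤ w)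
    (f3 : a + d ≤ a' + d') (f4 : d ≤ a) (f5 : t3 ≤ a + 1 / 2 * s3) (f6 : r3 ≤ d + 1 / 2 * z3)
    (f7 : t2 ≤ x + y / 65536 * s2) (f8 : r2 ≤ x' + y / 65536 * z2) (f9 : a + 1 / 2 * s2 ≤ t2)
    (f10 : a + 1 / 2 * s3 ≤ t3) (f11 : d + 1 / 2 * z2 ≤ r2) (f12 : d + 1 / 2 * z3 ≤ r3)
    (f13 : s2 ≤ t2) (f14 : s3 ≤ t3) (f15 : z2 ≤ r2) (f16 : z3 ≤ r3)
    (f17 : 1 / 2 + a' * s2 ≤ t2) (f18 : 1 / 2 + a' * s3 ≤ t3) (f19 : 1 / 2 + d' * z2 ≤ r2)
    (f20 : 1 / 2 + d' * z3 ≤ r3) (f21 : z2 + s2 ≤ r2 * t2) (f22 : z2 + s3 ≤ r2 * t3)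
    (f23 : z3 + s2 ≤ r3 * t2) (f24 : z3 + s3 ≤ r3 * t3) (f25 : a * d' + 1 / 2 * (1 / 2) ≤ 1)
    (f26 : d * a' + 1 / 2 * (1 / 2) ≤ 1) : False := by
  have hu : u ≤ w := Nat.cast_le.1 (f1.trans f2)
  refine chk_snd (v := fun k => [(1 : ℝ), 0, 65536, 32768, y, u, w, W, 65536 * a, 65536 * d,
    65536 * a', 65536 * d', 65536 * x, 65536 * x', 65536 * s2, 65536 * t2, 65536 * s3, 65536 * t3,
    65536 * z2, 65536 * r2, 65536 * z3, 65536 * r3].getD k 0) rfl ?_ tr _ _ (fun p => ?_) h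
  · unfold tups
    refine List.forall_mem_cons.2 ⟨show (65536 * x) * (65536 : ℝ) + 65536 * (65536 * x') ≤
      (0 : ℝ) * (0 : ℝ) + 65536 * (W : ℝ) by linarith only [f0], ?_⟩
    refine List.forall_mem_cons.2 ⟨show (0 : ℝ) * (0 : ℝ) + 65536 * (u : ℝ) ≤
      (65536 * a) * (65536 : ℝ) + 65536 * (65536 * d) by linarith only [f1], ?_⟩
    refine List.forall_mem_cons.2 ⟨show (65536 * a) * (65536 : ℝ) + 65536 * (65536 * d) ≤
      (0 : ℝ) * (0 : ℝ) + 65536 * (w : ℝ) by linarith only [f2], ?_⟩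
    refine List.forall_mem_cons.2 ⟨show (65536 * a) * (65536 : ℝ) + 65536 * (65536 * d) ≤
      (65536 * a') * (65536 : ℝ) + 65536 * (65536 * d') by linarith only [f3], ?_⟩
    refine List.forall_mem_cons.2 ⟨show (0 : ℝ) * (0 : ℝ) + 65536 * (65536 * d) ≤
      (0 : ℝ) * (0 : ℝ) + 65536 * (65536 * a) by linarith only [f4], ?_⟩
    refine List.forall_mem_cons.2 ⟨show (0 : ℝ) * (0 : ℝ) + 65536 * (65536 * t3) ≤
      (32768 : ℝ) * (65536 * s3) + 65536 * (65536 * a) by linarith only [f5], ?_⟩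
    refine List.forall_mem_cons.2 ⟨show (0 : ℝ) * (0 : ℝ) + 65536 * (65536 * r3) ≤
      (32768 : ℝ) * (65536 * z3) + 65536 * (65536 * d) by linarith only [f6], ?_⟩
    refine List.forall_mem_cons.2 ⟨show (0 : ℝ) * (0 : ℝ) + 65536 * (65536 * t2) ≤
      (y : ℝ) * (65536 * s2) + 65536 * (65536 * x) by linarith only [f7], ?_⟩
    refine List.forall_mem_cons.2 ⟨show (0 : ℝ) * (0 : ℝ) + 65536 * (65536 * r2) ≤
      (y : ℝ) * (65536 * z2) + 65536 * (65536 * x') by linarith only [f8], ?_⟩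
    refine List.forall_mem_cons.2 ⟨show (32768 : ℝ) * (65536 * s2) + 65536 * (65536 * a) ≤
      (0 : ℝ) * (0 : ℝ) + 65536 * (65536 * t2) by linarith only [f9], ?_⟩
    refine List.forall_mem_cons.2 ⟨show (32768 : ℝ) * (65536 * s3) + 65536 * (65536 * a) ≤
      (0 : ℝ) * (0 : ℝ) + 65536 * (65536 * t3) by linarith only [f10], ?_⟩
    refine List.forall_mem_cons.2 ⟨show (32768 : ℝ) * (65536 * z2) + 65536 * (65536 * d) ≤
      (0 : ℝ) * (0 : ℝ) + 65536 * (65536 * r2) by linarith only [f11], ?_⟩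
    refine List.forall_mem_cons.2 ⟨show (32768 : ℝ) * (65536 * z3) + 65536 * (65536 * d) ≤
      (0 : ℝ) * (0 : ℝ) + 65536 * (65536 * r3) by linarith only [f12], ?_⟩
    refine List.forall_mem_cons.2 ⟨show (0 : ℝ) * (0 : ℝ) + 65536 * (65536 * s2) ≤
      (0 : ℝ) * (0 : ℝ) + 65536 * (65536 * t2) by linarith only [f13], ?_⟩
    refine List.forall_mem_cons.2 ⟨show (0 : ℝ) * (0 : ℝ) + 65536 * (65536 * s3) ≤
      (0 : ℝ) * (0 : ℝ) + 65536 * (65536 * t3) by linarith only [f14], ?_⟩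
    refine List.forall_mem_cons.2 ⟨show (0 : ℝ) * (0 : ℝ) + 65536 * (65536 * z2) ≤
      (0 : ℝ) * (0 : ℝ) + 65536 * (65536 * r2) by linarith only [f15], ?_⟩
    refine List.forall_mem_cons.2 ⟨show (0 : ℝ) * (0 : ℝ) + 65536 * (65536 * z3) ≤
      (0 : ℝ) * (0 : ℝ) + 65536 * (65536 * r3) by linarith only [f16], ?_⟩
    refine List.forall_mem_cons.2 ⟨show (65536 * a') * (65536 * s2) + 65536 * (32768 : ℝ) ≤
      (0 : ℝ) * (0 : ℝ) + 65536 * (65536 * t2) by linarith only [f17], ?_⟩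
    refine List.forall_mem_cons.2 ⟨show (65536 * a') * (65536 * s3) + 65536 * (32768 : ℝ) ≤
      (0 : ℝ) * (0 : ℝ) + 65536 * (65536 * t3) by linarith only [f18], ?_⟩
    refine List.forall_mem_cons.2 ⟨show (65536 * d') * (65536 * z2) + 65536 * (32768 : ℝ) ≤
      (0 : ℝ) * (0 : ℝ) + 65536 * (65536 * r2) by linarith only [f19], ?_⟩
    refine List.forall_mem_cons.2 ⟨show (65536 * d') * (65536 * z3) + 65536 * (32768 : ℝ) ≤
      (0 : ℝ) * (0 : ℝ) + 65536 * (65536 * r3) by linarith only [f20], ?_⟩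
    refine List.forall_mem_cons.2 ⟨show (65536 * s2) * (65536 : ℝ) + 65536 * (65536 * z2) ≤
      (65536 * t2) * (65536 * r2) + 65536 * (0 : ℝ) by linarith only [f21], ?_⟩
    refine List.forall_mem_cons.2 ⟨show (65536 * s3) * (65536 : ℝ) + 65536 * (65536 * z2) ≤
      (65536 * t3) * (65536 * r2) + 65536 * (0 : ℝ) by linarith only [f22], ?_⟩
    refine List.forall_mem_cons.2 ⟨show (65536 * s2) * (65536 : ℝ) + 65536 * (65536 * z3) ≤
      (65536 * t2) * (65536 * r3) + 65536 * (0 : ℝ) by linarith only [f23], ?_⟩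
    refine List.forall_mem_cons.2 ⟨show (65536 * s3) * (65536 : ℝ) + 65536 * (65536 * z3) ≤
      (65536 * t3) * (65536 * r3) + 65536 * (0 : ℝ) by linarith only [f24], ?_⟩
    refine List.forall_mem_cons.2 ⟨show (65536 * a) * (65536 * d') + 65536 * (0 : ℝ) ≤
      (32768 : ℝ) * (32768 : ℝ) + 65536 * (32768 : ℝ) by linarith only [f25], ?_⟩
    refine List.forall_mem_cons.2 ⟨show (65536 * d) * (65536 * a') + 65536 * (0 : ℝ) ≤
      (32768 : ℝ) * (32768 : ℝ) + 65536 * (32768 : ℝ) by linarith only [f26], ?_⟩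
    refine List.forall_mem_cons.2 ⟨show (65536 * r2) * (65536 : ℝ) + 65536 * (65536 * x) ≤
      (y : ℝ) * (65536 * z2) + 65536 * (W : ℝ) by linarith only [f0, f8], ?_⟩
    refine List.forall_mem_cons.2 ⟨show (65536 * r3) * (65536 : ℝ) + 65536 * (65536 * a) ≤
      (32768 : ℝ) * (65536 * z3) + 65536 * (w : ℝ) by linarith only [f2, f6], ?_⟩
    refine List.forall_mem_cons.2 ⟨show (32768 : ℝ) * (65536 * z2) + 65536 * (u : ℝ) ≤
      (65536 * r2) * (65536 : ℝ) + 65536 * (65536 * a) by linarith only [f1, f11], ?_⟩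
    refine List.forall_mem_cons.2 ⟨show (65536 * t2) * (65536 : ℝ) + 65536 * (65536 * x') ≤
      (y : ℝ) * (65536 * s2) + 65536 * (W : ℝ) by linarith only [f0, f7], ?_⟩
    refine List.forall_mem_cons.2 ⟨show (65536 * t3) * (65536 : ℝ) + 65536 * (65536 * d) ≤
      (32768 : ℝ) * (65536 * s3) + 65536 * (w : ℝ) by linarith only [f2, f5], ?_⟩
    exact List.forall_mem_nil _
  · rw [dg_pk _ (by simp only [lo0, List.forall_mem_cons]; simp; omega),
      dg_pk _ (by simp only [hi0, List.forall_mem_cons]; simp; omega)]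
    exact match p with
    | 0 => show ((65536 : ℕ) : ℝ) ≤ (65536 * r3) ∧ (65536 * r3) ≤ (131072 : ℕ) ∧ 131072 ≤ 2 ^ 23 from
      ⟨by rw [Nat.cast_ofNat]; linarith only [b23],
        by rw [Nat.cast_ofNat]; linarith only [b24], by omega⟩
    | 1 => show ((0 : ℕ) : ℝ) ≤ (65536 * z3) ∧ (65536 * z3) ≤ (131072 : ℕ) ∧ 131072 ≤ 2 ^ 23 from
      ⟨by rw [Nat.cast_zero]; linarith only [b22],
        by rw [Nat.cast_ofNat]; linarith only [b24, f16], by omega⟩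
    | 2 => show ((65536 : ℕ) : ℝ) ≤ (65536 * r2) ∧ (65536 * r2) ≤ (T : ℕ) ∧ T ≤ 2 ^ 23 from
      ⟨by rw [Nat.cast_ofNat]; linarith only [b20],
        by linarith only [b21], by omega⟩
    | 3 => show ((0 : ℕ) : ℝ) ≤ (65536 * z2) ∧ (65536 * z2) ≤ (T : ℕ) ∧ T ≤ 2 ^ 23 from
      ⟨by rw [Nat.cast_zero]; linarith only [b19],
        by linarith only [b21, f15], by omega⟩
    | 4 => show ((65536 : ℕ) : ℝ) ≤ (65536 * t3) ∧ (65536 * t3) ≤ (131072 : ℕ) ∧ 131072 ≤ 2 ^ 23 from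
      ⟨by rw [Nat.cast_ofNat]; linarith only [b17],
        by rw [Nat.cast_ofNat]; linarith only [b18], by omega⟩
    | 5 => show ((0 : ℕ) : ℝ) ≤ (65536 * s3) ∧ (65536 * s3) ≤ (131072 : ℕ) ∧ 131072 ≤ 2 ^ 23 from
      ⟨by rw [Nat.cast_zero]; linarith only [b16],
        by rw [Nat.cast_ofNat]; linarith only [b18, f14], by omega⟩
    | 6 => show ((65536 : ℕ) : ℝ) ≤ (65536 * t2) ∧ (65536 * t2) ≤ (T : ℕ) ∧ T ≤ 2 ^ 23 from
      ⟨by rw [Nat.cast_ofNat]; linarith only [b14],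
        by linarith only [b15], by omega⟩
    | 7 => show ((0 : ℕ) : ℝ) ≤ (65536 * s2) ∧ (65536 * s2) ≤ (T : ℕ) ∧ T ≤ 2 ^ 23 from
      ⟨by rw [Nat.cast_zero]; linarith only [b13],
        by linarith only [b15, f13], by omega⟩
    | 8 => show ((0 : ℕ) : ℝ) ≤ (65536 * x') ∧ (65536 * x') ≤ (65536 : ℕ) ∧ 65536 ≤ 2 ^ 23 from
      ⟨by rw [Nat.cast_zero]; linarith only [b11],
        by rw [Nat.cast_ofNat]; linarith only [b12], by omega⟩
    | 9 => show ((0 : ℕ) : ℝ) ≤ (65536 * x) ∧ (65536 * x) ≤ (65536 : ℕ) ∧ 65536 ≤ 2 ^ 23 from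
      ⟨by rw [Nat.cast_zero]; linarith only [b9],
        by rw [Nat.cast_ofNat]; linarith only [b10], by omega⟩
    | 10 => show ((0 : ℕ) : ℝ) ≤ (65536 * d') ∧ (65536 * d') ≤ (65536 : ℕ) ∧ 65536 ≤ 2 ^ 23 from
      ⟨by rw [Nat.cast_zero]; linarith only [b7],
        by rw [Nat.cast_ofNat]; linarith only [b8], by omega⟩
    | 11 => show ((0 : ℕ) : ℝ) ≤ (65536 * a') ∧ (65536 * a') ≤ (65536 : ℕ) ∧ 65536 ≤ 2 ^ 23 from
      ⟨by rw [Nat.cast_zero]; linarith only [b5],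
        by rw [Nat.cast_ofNat]; linarith only [b6], by omega⟩
    | 12 => show ((0 : ℕ) : ℝ) ≤ (65536 * d) ∧ (65536 * d) ≤ (65536 : ℕ) ∧ 65536 ≤ 2 ^ 23 from
      ⟨by rw [Nat.cast_zero]; linarith only [b3],
        by rw [Nat.cast_ofNat]; linarith only [b4], by omega⟩
    | 13 => show ((0 : ℕ) : ℝ) ≤ (65536 * a) ∧ (65536 * a) ≤ (65536 : ℕ) ∧ 65536 ≤ 2 ^ 23 from
      ⟨by rw [Nat.cast_zero]; linarith only [b1],
        by rw [Nat.cast_ofNat]; linarith only [b2], by omega⟩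
    | 14 => show ((W : ℕ) : ℝ) ≤ (W : ℝ) ∧ (W : ℝ) ≤ (W : ℕ) ∧ W ≤ 2 ^ 23 from
      ⟨le_rfl,
        le_rfl, by omega⟩
    | 15 => show ((w : ℕ) : ℝ) ≤ (w : ℝ) ∧ (w : ℝ) ≤ (w : ℕ) ∧ w ≤ 2 ^ 23 from
      ⟨le_rfl,
        le_rfl, by omega⟩
    | 16 => show ((u : ℕ) : ℝ) ≤ (u : ℝ) ∧ (u : ℝ) ≤ (u : ℕ) ∧ u ≤ 2 ^ 23 from
      ⟨le_rfl,
        le_rfl, by omega⟩
    | 17 => show ((y : ℕ) : ℝ) ≤ (y : ℝ) ∧ (y : ℝ) ≤ (y : ℕ) ∧ y ≤ 2 ^ 23 from
      ⟨le_rfl,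
        le_rfl, by omega⟩
    | 18 => show ((32768 : ℕ) : ℝ) ≤ (32768 : ℝ) ∧ (32768 : ℝ) ≤ (32768 : ℕ) ∧ 32768 ≤ 2 ^ 23 from
      ⟨Nat.cast_ofNat.le,
        Nat.cast_ofNat.ge, by omega⟩
    | 19 => show ((65536 : ℕ) : ℝ) ≤ (65536 : ℝ) ∧ (65536 : ℝ) ≤ (65536 : ℕ) ∧ 65536 ≤ 2 ^ 23 from
      ⟨Nat.cast_ofNat.le,
        Nat.cast_ofNat.ge, by omega⟩
    | 20 => show ((0 : ℕ) : ℝ) ≤ (0 : ℝ) ∧ (0 : ℝ) ≤ (0 : ℕ) ∧ 0 ≤ 2 ^ 23 from
      ⟨Nat.cast_zero.le,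
        Nat.cast_zero.ge, by omega⟩
    | p + 21 => by
      rw [pv, if_neg (by omega)]
      exact show ((0 : ℕ) : ℝ) ≤ 0 ∧ (0 : ℝ) ≤ (0 : ℕ) ∧ 0 ≤ 2 ^ 23 from
        ⟨Nat.cast_zero.le, Nat.cast_zero.ge, Nat.zero_le _⟩

end Pool.Agent.MP_34f9b1_co.Sym.G2
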