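import Pool.Agent.MP_34f9b1_co.Sym.Tail2
import Pool.Agent.MP_34f9b1_co.Sym.LChk
import Pool.Agent.MP_34f9b1_co.Sym.FastEq

-- ======== part 0: formerly Pool.Agent.MP_34f9b1_co.Sym.RowA
section MrgPart0

namespace Pool.Agent.MP_34f9b1_co.Sym

namespace Row

variable {P : Prof} {E : ℝ → ℝ → ℝ} {p h a b x z : ℝ}

theorem abs_yc (hah : a ≤ h) : |yc p h a| = max 0 (zz p h + a / 2) := by
  unfold yc zz
  simp only [max_def, min_def]
  split_ifs <;> first
    | (rw [abs_of_nonneg (by linarith)]; linarith)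
    | (rw [abs_of_nonpos (by linarith)]; linarith)
    | (rw [abs_of_nonneg (by linarith)])

theorem yc_le (hp : -1 / 2 ≤ p) (hq : p + h ≤ 1 / 2) (hah : a ≤ h) :
    |yc p h a| ≤ (1 - a) / 2 := by
  rw [abs_yc hah]
  unfold zz
  refine max_le (by linarith) ?_
  rcases le_total p (-p - h) with h1 | h1
  · rw [max_eq_right h1]; linarith
  · rw [max_eq_left h1]; linarith

theorem yc_self : yc p h h = p + h / 2 := by
  unfold yc
  exact max_eq_left ((min_le_right _ _).trans (by linarith))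

theorem room (hE : Ext P E) (hp : -1 / 2 ≤ p) (hq : p + h ≤ 1 / 2) (ha : 0 ≤ a) (hah : a ≤ h) :
    Tz P a (zz p h) ≤ E a (yc p h a) + E a (-yc p h a) := by
  have := hE.e1 a _ ha (yc_le hp hq hah)
  rwa [abs_yc hah] at this

theorem ratio {u v : ℝ} (huv : (0 ≤ u ∧ u ≤ v) ∨ (v ≤ u ∧ u ≤ 0)) :
    ∃ l, 0 ≤ l ∧ l ≤ 1 ∧ u = l * v := by
  by_cases hv : v = 0
  · exact ⟨0, le_rfl, zero_le_one, by rcases huv with h1 | h1 <;> linarith [h1.1, h1.2]⟩
  refine ⟨u / v, ?_, ?_, (div_mul_cancel₀ u hv).symm⟩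
  · rcases huv with h1 | h1
    · exact div_nonneg h1.1 (h1.1.trans h1.2)
    · exact div_nonneg_of_nonpos h1.2 (h1.1.trans h1.2)
  · rcases huv with h1 | h1
    · exact div_le_one_of_le₀ h1.2 (h1.1.trans h1.2)
    · exact (div_le_one_of_neg (lt_of_le_of_ne (h1.1.trans h1.2) hv)).2 h1.1

theorem nest (hE : Ext P E) (hp : -1 / 2 ≤ p) (hq : p + h ≤ 1 / 2) (hb : 0 ≤ b) (hba : b ≤ a)
    (hah : a ≤ h) :
    E a (yc p h a) ≤ E b (yc p h b) ∧ E a (-yc p h a) ≤ E b (-yc p h b) := by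
  obtain ⟨l, h0, h1, hl⟩ : ∃ l, 0 ≤ l ∧ l ≤ 1 ∧ yc p h b = l * yc p h a := by
    refine ratio ?_
    unfold yc
    simp only [max_def, min_def]
    split_ifs <;> first
      | (left; constructor <;> linarith)
      | (right; constructor <;> linarith)
  have y1 := yc_le hp hq hah
  have y2 : |-yc p h a| ≤ (1 - a) / 2 := by rwa [abs_neg]
  have r1 := hE.e3 a b _ l hb hba y1 h0 h1
  have r2 := hE.e3 a b _ l hb hba y2 h0 h1
  have r3 := hE.e2 a _ (hb.trans hba) y1
  have r4 := hE.e2 a _ (hb.trans hba) y2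
  rw [mul_neg, ← hl] at r2
  rw [← hl] at r1
  constructor <;> nlinarith

theorem ln_anti {α β : ℕ} (hα : 1024 ≤ α) (hba : b ≤ a) {y y' : ℝ} (hy : y' ≤ y) :
    a + ln α β a y ≤ b + ln α β b y' := by
  unfold ln
  have h1 : (1024 : ℝ) ≤ α := by exact_mod_cast hα
  have h2 : (0 : ℝ) ≤ β := Nat.cast_nonneg _
  nlinarith [mul_nonneg (sub_nonneg.2 h1) (sub_nonneg.2 hba), mul_nonneg h2 (sub_nonneg.2 hy)]

theorem tz_anti (hP : P.ok) (hba : b ≤ a) : Tz P a z ≤ Tz P b z := by
  obtain ⟨h1, h2, h3, h4⟩ := hP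
  have hy : max 0 (z + b / 2) ≤ max 0 (z + a / 2) := max_le_max le_rfl (by linarith)
  unfold Tz Tf
  simp only [← min_add_add_left]
  exact min_le_min (min_le_min (ln_anti h1 hba hy) (ln_anti h2 hba hy))
    (min_le_min (ln_anti h3 hba hy) (ln_anti h4 hba hy))

theorem in_of (hp : -1 / 2 ≤ p) (hq : p + h ≤ 1 / 2) (hah : a ≤ h)
    (h1 : -E a (-yc p h a) ≤ x) (h2 : x + a ≤ E a (yc p h a)) :
    In E ⟨a, x + a / 2, yc p h a⟩ :=
  ⟨yc_le hp hq hah, by dsimp only; linarith, by dsimp only; linarith⟩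

theorem line_of : ∀ (m : List ℝ) (x : ℝ),
    (∀ l₁ a l₂, m = l₁ ++ a :: l₂ → In E ⟨a, x + l₁.sum + a / 2, yc p h a⟩) → Line E p h x m
  | [], _, _ => trivial
  | b :: m, x, hm => ⟨by simpa using hm [] b m rfl, line_of m _ fun l₁ a l₂ e => by
      have := hm (b :: l₁) a l₂ (by rw [e]; rfl)
      rwa [List.sum_cons, ← add_assoc] at this⟩

theorem line_snoc : ∀ (m : List ℝ) (x : ℝ), Line E p h x m →
    In E ⟨a, x + m.sum + a / 2, yc p h a⟩ → Line E p h x (m ++ [a])
  | [], _, _, h2 => ⟨by simpa using h2, trivial⟩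
  | b :: m, x, h1, h2 => ⟨h1.1, line_snoc m _ h1.2 (by
      rwa [List.sum_cons, ← add_assoc] at h2)⟩

theorem line_pk : ∀ (m : List ℝ) (x : ℝ), Line E p h x m → (∀ a ∈ m, 0 ≤ a ∧ a ≤ h) →
    ∃ S : List Pc, S.map Pc.a = m ∧ S.Pairwise Dis ∧
      ∀ s ∈ S, In E s ∧ Strip p (p + h) s ∧ Rt x s
  | [], _, _, _ => ⟨[], rfl, List.Pairwise.nil, by simp⟩
  | b :: m, x, h1, h2 => by
    obtain ⟨S, e, hd, hs⟩ := line_pk m _ h1.2 fun a ha => h2 a (List.mem_cons_of_mem _ ha)
    obtain ⟨b0, bh⟩ := h2 b List.mem_cons_self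
    refine ⟨⟨b, x + b / 2, yc p h b⟩ :: S, by simp [e], List.pairwise_cons.2 ⟨fun t ht => ?_, hd⟩,
      fun s hs' => ?_⟩
    · have := (hs t ht).2.2
      unfold Rt at this
      exact Or.inl (by dsimp only; linarith)
    · rcases List.mem_cons.1 hs' with rfl | hs'
      · refine ⟨h1.1, ⟨?_, ?_⟩, ?_⟩
        · have := le_max_left (p + b / 2) (min 0 (p + h - b / 2))
          unfold Ab yc
          dsimp only
          linarith
        · have : max (p + b / 2) (min 0 (p + h - b / 2)) ≤ p + h - b / 2 :=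
            max_le (by linarith) (min_le_right _ _)
          unfold Be yc
          dsimp only
          linarith
        · unfold Rt
          dsimp only
          linarith
      · have := (hs s hs').2.2
        refine ⟨(hs s hs').1, (hs s hs').2.1, ?_⟩
        unfold Rt at this ⊢
        linarith

theorem line_blk (hE : Ext P E) (hp : -1 / 2 ≤ p) (hq : p + h ≤ 1 / 2) (ha : 0 ≤ a) :
    ∀ (m : List ℝ) (x : ℝ), m ≠ [] → Line E p h x m → (∀ b ∈ m, a ≤ b ∧ b ≤ h) →
      -E a (-yc p h a) ≤ x ∧ x + m.sum ≤ E a (yc p h a)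
  | [], _, h0, _, _ => absurd rfl h0
  | b :: m, x, _, h1, h2 => by
    obtain ⟨b0, bh⟩ := h2 b List.mem_cons_self
    obtain ⟨n1, n2⟩ := nest hE hp hq ha b0 bh
    obtain ⟨-, i1, i2⟩ := h1.1
    dsimp only at i1 i2
    refine ⟨by linarith, ?_⟩
    by_cases hm : m = []
    · subst hm
      simp only [List.sum_cons, List.sum_nil]
      linarith
    · have := (line_blk hE hp hq ha m _ hm h1.2 fun c hc => h2 c (List.mem_cons_of_mem _ hc)).2
      rw [List.sum_cons]
      linarith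

theorem cb_iff {T C : ℝ} : ∀ (fs : List ℝ) (S : ℝ), CB P T z C S fs ↔
    ∀ l₁ a l₂, fs = l₁ ++ a :: l₂ → C ≤ T + Tz P a z - (S + l₁.sum + a)
  | [], _ => ⟨fun _ l₁ a l₂ e => by simp at e, fun _ => trivial⟩
  | b :: m, S => by
    refine ⟨fun hc l₁ a l₂ e => ?_, fun hm => ⟨by simpa using hm [] b m rfl,
      (cb_iff m _).2 fun l₁ a l₂ e => ?_⟩⟩
    · rcases l₁ with _ | ⟨c, l₁⟩
      · obtain ⟨rfl, -⟩ := List.cons.inj e
        simpa using hc.1
      · obtain ⟨rfl, e'⟩ := List.cons.inj e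
        have := (cb_iff m _).1 hc.2 l₁ a l₂ e'
        rw [List.sum_cons]
        linarith
    · have := hm (b :: l₁) a l₂ (by rw [e]; rfl)
      rw [List.sum_cons] at this
      linarith

theorem srt_le {l : List ℝ} (hs : Srt (h :: l)) : ∀ x ∈ h :: l, 0 ≤ x ∧ x ≤ h := fun x hx =>
  ⟨hs.2 x hx, by
    rcases List.mem_cons.1 hx with rfl | hx
    · exact le_rfl
    · exact (List.pairwise_cons.1 hs.1).1 x hx⟩

theorem srt_last {l : List ℝ} (hs : Srt (l ++ [a])) : 0 ≤ a ∧ ∀ x ∈ l, a ≤ x :=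
  ⟨hs.2 a (by simp), fun x hx => (List.pairwise_append.1 hs.1).2.2 x hx a (by simp)⟩

theorem part {l l₁ l₂ : List ℝ} (h0 : ∀ x ∈ l, 0 ≤ x) (e : l = l₁ ++ a :: l₂) :
    a ∈ l ∧ 0 ≤ l₁.sum ∧ 0 ≤ l₂.sum ∧ l.sum = l₁.sum + a + l₂.sum := by
  subst e
  refine ⟨by simp, List.sum_nonneg fun x hx => h0 x (by simp [hx]),
    List.sum_nonneg fun x hx => h0 x (by simp [hx]), ?_⟩
  rw [List.sum_append, List.sum_cons, add_assoc]

theorem feasB {fs : List ℝ} {C : ℝ} (hE : Ext P E) (hp : -1 / 2 ≤ p) (hq : p + h ≤ 1 / 2)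
    (hs : Srt (h :: fs)) (hc : CB P (Tz P h (zz p h)) (zz p h) C h fs)
    (hC : fs ≠ [] → h + fs.sum ≤ C) : Feas E p h (h :: fs) := by
  have hl := srt_le hs
  have h0 := (hl h List.mem_cons_self).1
  have y1 := yc_le hp hq (le_refl h)
  have f1 := hE.e4 h _ h0 y1
  have f2 := hE.e4 h (-yc p h h) h0 (by rwa [abs_neg])
  have r0 := room hE hp hq h0 le_rfl
  have key : ∀ l₁ a l₂, h :: fs = l₁ ++ a :: l₂ → (l₁ = [] ∧ a = h) ∨
      l₁.sum + a + (h :: fs).sum ≤ Tz P h (zz p h) + Tz P a (zz p h) := by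
    intro l₁ a l₂ e
    rcases l₁ with _ | ⟨c, l₁⟩
    · exact Or.inl ⟨rfl, (List.cons.inj e).1.symm⟩
    · obtain ⟨rfl, e'⟩ := List.cons.inj e
      have r1 := (cb_iff fs _).1 hc l₁ a l₂ e'
      have r2 := hC (by rw [e']; simp)
      right
      simp only [List.sum_cons]
      linarith
  by_cases hA : ∀ l₁ a l₂, h :: fs = l₁ ++ a :: l₂ →
      -E h (-yc p h h) + l₁.sum + a ≤ E a (yc p h a)
  · refine ⟨_, -E h (-yc p h h), List.Perm.refl _, line_of _ _ fun l₁ a l₂ e => ?_⟩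
    obtain ⟨m1, m2, -, -⟩ := part hs.2 e
    have := (nest hE hp hq (hl a m1).1 (hl a m1).2 le_rfl).2
    exact in_of hp hq (hl a m1).2 (by linarith) (hA l₁ a l₂ e)
  · simp only [not_forall, not_le] at hA
    obtain ⟨k₁, c, k₂, e₀, hA⟩ := hA
    obtain ⟨c1, c2, c3, c4⟩ := part hs.2 e₀
    refine ⟨(h :: fs).reverse, E h (yc p h h) - (h :: fs).sum, List.reverse_perm _,
      line_of _ _ fun l₁ a l₂ e => ?_⟩
    have e' : h :: fs = l₂.reverse ++ a :: l₁.reverse := by
      rw [← List.reverse_reverse (h :: fs), e]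
      simp
    obtain ⟨m1, m2, m3, m4⟩ := part hs.2 e'
    rw [List.sum_reverse] at m2 m3
    rw [List.sum_reverse, List.sum_reverse] at m4
    have n1 := (nest hE hp hq (hl a m1).1 (hl a m1).2 le_rfl).1
    refine in_of hp hq (hl a m1).2 ?_ (by linarith)
    have ra := room hE hp hq (hl a m1).1 (hl a m1).2
    have rc := room hE hp hq (hl c c1).1 (hl c c1).2
    rcases key _ _ _ e₀ with ⟨rfl, rfl⟩ | k1
    · simp only [List.sum_nil] at hA
      linarith
    rcases key _ _ _ e' with ⟨e1, rfl⟩ | k2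
    · rw [List.reverse_eq_nil_iff.1 e1, List.sum_nil] at m4
      linarith
    rw [List.sum_reverse] at k2
    rcases le_total a c with hac | hac
    · have := (nest hE hp hq (hl a m1).1 hac (hl c c1).2).2
      linarith
    · have := (nest hE hp hq (hl c c1).1 hac (hl a m1).2).1
      linarith

theorem feasC {fs : List ℝ} (hE : Ext P E) (hp : -1 / 2 ≤ p) (hq : p + h ≤ 1 / 2)
    (hs : Srt (h :: fs ++ [a])) (hf : Feas E p h (h :: fs))
    (ht : h + fs.sum + 2 * a ≤ Tz P a (zz p h)) : Feas E p h (h :: fs ++ [a]) := by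
  obtain ⟨m, x, hm, hx⟩ := hf
  obtain ⟨a0, a1⟩ := srt_last hs
  have hl := srt_le (l := fs ++ [a]) hs
  have ah := a1 h List.mem_cons_self
  obtain ⟨b1, b2⟩ := line_blk hE hp hq a0 m x (fun e => by simpa [e] using hm.length_eq) hx
    fun b hb => ⟨a1 b (hm.subset hb), (hl b (List.mem_append_left [a] (hm.subset hb))).2⟩
  have s1 : m.sum = h + fs.sum := by rw [hm.sum_eq, List.sum_cons]
  have s2 : 0 ≤ m.sum :=
    List.sum_nonneg fun b hb => (hl b (List.mem_append_left [a] (hm.subset hb))).1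
  have r := room hE hp hq a0 ah
  rcases le_total (-E a (-yc p h a)) (x - a) with h1 | h1
  · refine ⟨a :: m, x - a, (hm.cons a).trans (List.perm_append_singleton a _).symm,
      in_of hp hq ah h1 (by linarith), ?_⟩
    rwa [sub_add_cancel]
  · exact ⟨m ++ [a], x, hm.append_right _,
      line_snoc m x hx (in_of hp hq ah (by linarith) (by linarith))⟩

end Row

end Pool.Agent.MP_34f9b1_co.Sym

end MrgPart0

-- ======== part 1: formerly Pool.Agent.MP_34f9b1_co.Sym.RowB
section MrgPart1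

namespace Pool.Agent.MP_34f9b1_co.Sym

namespace Row

variable {P : Prof} {E : ℝ → ℝ → ℝ} {p h a q k : ℝ}

theorem tz_le (hE : Ext P E) (hp : -1 / 2 ≤ p) (hq : p + h ≤ 1 / 2) (ha : 0 ≤ a) (hah : a ≤ h) :
    Tz P a (zz p h) ≤ 1 := by
  have y1 := yc_le hp hq hah
  have r1 := hE.e2 a _ ha y1
  have r2 := hE.e2 a (-yc p h a) ha (by rwa [abs_neg])
  have := room hE hp hq ha hah
  linarith

theorem srt_app {l l' : List ℝ} {m : ℝ} (h1 : Srt l) (h2 : Srt l') (h3 : ∀ x ∈ l, m ≤ x)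
    (h4 : ∀ x ∈ l', x ≤ m) : Srt (l ++ l') :=
  ⟨List.pairwise_append.2 ⟨h1.1, h2.1, fun x hx y hy => (h4 y hy).trans (h3 x hx)⟩,
    fun x hx => (List.mem_append.1 hx).elim (h1.2 x) (h2.2 x)⟩

theorem rowB {fs : List ℝ} {C m ht : ℝ} (hP : P.ok) (hE : Ext P E) (hp : -1 / 2 ≤ p)
    (hq : p + h ≤ 1 / 2) (hs : Srt (h :: fs)) (hm : ∀ x ∈ h :: fs, m ≤ x) (hmt : m ≤ ht)
    (hc : CB P (Tz P h (zz p h)) (zz p h) C h fs) (hf : Feas E p h (h :: fs)) :
    MS E (Strip p (p + h)) (h :: fs) m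
      (Fr fun a => max (DB P p h (h + fs.sum) C ht a) (DC P p h (h + fs.sum) a)) := by
  refine ⟨fun l => Feas E p h (h :: (fs ++ l)), by simpa using hf, ?_, ?_⟩
  · rintro l hl hlm ⟨m', x, hm', hx⟩
    have s1 : Srt (h :: (fs ++ l)) := srt_app hs hl hm hlm
    obtain ⟨S, e, hd, hS⟩ := line_pk m' x hx fun b hb => srt_le s1 b (hm'.subset hb)
    exact ⟨S, e ▸ hm', hd, fun s hs' => ⟨(hS s hs').1, (hS s hs').2.1⟩⟩
  · intro l a hl hlm hF
    have s1 : Srt (h :: (fs ++ (l ++ [a]))) := srt_app hs hl hm hlm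
    obtain ⟨a0, a1⟩ := srt_last hl
    by_cases h1 : l.sum ≤ DC P p h (h + fs.sum) a
    · left
      rw [← List.append_assoc] at s1 ⊢
      refine feasC hE hp hq s1 hF ?_
      unfold DC at h1
      rw [List.sum_append]
      linarith
    by_cases h2 : l.sum ≤ DB P p h (h + fs.sum) C ht a
    · left
      unfold DB at h2
      have c1 := min_le_left (min C ((Tz P h (zz p h) + Tz P a (zz p h)) / 2))
        ((Tz P h (zz p h) + Tz P ht (zz p h) + a) / 2)
      have c2 := min_le_right (min C ((Tz P h (zz p h) + Tz P a (zz p h)) / 2))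
        ((Tz P h (zz p h) + Tz P ht (zz p h) + a) / 2)
      have c3 := min_le_left C ((Tz P h (zz p h) + Tz P a (zz p h)) / 2)
      have c4 := min_le_right C ((Tz P h (zz p h) + Tz P a (zz p h)) / 2)
      refine feasB (C := h + fs.sum + l.sum + a) hE hp hq s1 ((cb_iff _ _).2 fun l₁ b l₂ e => ?_)
        fun _ => by simp [add_assoc]
      have key : ∀ l₃ : List ℝ, l ++ [a] = l₃ ++ b :: l₂ → h + fs.sum + l.sum + a ≤
          Tz P h (zz p h) + Tz P b (zz p h) - (h + (fs.sum + l₃.sum) + b) := by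
        intro l₃ e'
        obtain ⟨m1, -, -, m4⟩ := part hl.2 e'
        rw [List.sum_append, List.sum_singleton] at m4
        rcases l₂ with _ | ⟨c, l₂⟩
        · obtain ⟨rfl, e2⟩ := List.append_inj' e' rfl
          obtain ⟨rfl, -⟩ := List.cons.inj e2
          linarith
        · have t1 := tz_anti (z := zz p h) hP ((hlm b m1).trans hmt)
          have t2 : c ∈ l ++ [a] := by rw [e']; simp
          have t3 : a ≤ c := by
            rcases List.mem_append.1 t2 with t | t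
            · exact a1 c t
            · exact (List.mem_singleton.1 t).ge
          have t4 : 0 ≤ l₂.sum := List.sum_nonneg fun y hy => hl.2 y (by rw [e']; simp [hy])
          rw [List.sum_cons] at m4
          linarith
      rcases List.append_eq_append_iff.1 e with ⟨l₃, rfl, e'⟩ | ⟨l₃, e1, e'⟩
      · rw [List.sum_append]
        exact key l₃ e'
      · rcases l₃ with _ | ⟨c, l₃⟩
        · rw [List.append_nil] at e1
          have := key [] e'.symm
          rw [← e1]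
          simpa using this
        · obtain ⟨rfl, -⟩ := List.cons.inj e'
          have := (cb_iff fs _).1 hc l₁ b l₃ e1
          linarith
    · exact Or.inr ⟨l, a1, max_lt (not_le.1 h2) (not_le.1 h1), le_rfl⟩

theorem rowS {fs : List ℝ} {w m : ℝ} (cap : ℝ → ℝ) (hE : Ext P E) (hp : -1 / 2 ≤ p)
    (hq : p + h ≤ 1 / 2) (h0 : 0 ≤ h) (hs : Srt fs) (hm : ∀ x ∈ fs, m ≤ x ∧ x ≤ h) (hmh : m ≤ h)
    (hw : fs ≠ [] → w + fs.sum ≤ E h (yc p h h) ∧ fs.sum ≤ Tz P h (zz p h))
    (hcap : ∀ a, 0 ≤ a → a ≤ m → w + cap a ≤ E a (yc p h a)) :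
    MS E (fun s => Strip p (p + h) s ∧ Rt w s) fs m
      (Fr fun a => min (cap a) (Tz P h (zz p h)) - fs.sum - a) := by
  have r0 := room hE hp hq h0 le_rfl
  have x1 := le_max_left w (-E h (-yc p h h))
  have x2 := le_max_right w (-E h (-yc p h h))
  refine ⟨fun l => Line E p h (max w (-E h (-yc p h h))) (fs ++ l), ?_, ?_, ?_⟩
  · simp only [List.append_nil]
    refine line_of _ _ fun l₁ a l₂ e => ?_
    obtain ⟨m1, m2, m3, m4⟩ := part hs.2 e
    obtain ⟨w1, w2⟩ := hw (List.ne_nil_of_mem m1)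
    obtain ⟨n1, n2⟩ := nest hE hp hq (hs.2 a m1) (hm a m1).2 le_rfl
    have : max w (-E h (-yc p h h)) ≤ E h (yc p h h) - fs.sum :=
      max_le (by linarith) (by linarith)
    exact in_of hp hq (hm a m1).2 (by linarith) (by linarith)
  · intro l hl hlm hF
    obtain ⟨S, e, hd, hS⟩ := line_pk _ _ hF fun b hb => (List.mem_append.1 hb).elim
      (fun t => ⟨hs.2 b t, (hm b t).2⟩) fun t => ⟨hl.2 b t, (hlm b t).trans hmh⟩
    exact ⟨S, e ▸ List.Perm.refl _, hd, fun s hs' =>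
      ⟨(hS s hs').1, (hS s hs').2.1, x1.trans (hS s hs').2.2⟩⟩
  · intro l a hl hlm hF
    obtain ⟨a0, a1⟩ := srt_last hl
    have am : a ≤ m := hlm a (by simp)
    by_cases h1 : l.sum ≤ min (cap a) (Tz P h (zz p h)) - fs.sum - a
    · left
      have c1 := min_le_left (cap a) (Tz P h (zz p h))
      have c2 := min_le_right (cap a) (Tz P h (zz p h))
      have c3 := hcap a a0 am
      obtain ⟨n1, n2⟩ := nest hE hp hq a0 (am.trans hmh) le_rfl
      have s1 : 0 ≤ fs.sum := List.sum_nonneg hs.2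
      have s2 : 0 ≤ l.sum := List.sum_nonneg fun y hy => a0.trans (a1 y hy)
      have : max w (-E h (-yc p h h)) ≤ E a (yc p h a) - fs.sum - l.sum - a :=
        max_le (by linarith) (by linarith)
      simp only [← List.append_assoc]
      refine line_snoc _ _ hF (in_of hp hq (am.trans hmh) ?_ ?_) <;>
        rw [List.sum_append] <;> linarith
    · exact Or.inr ⟨l, a1, not_le.1 h1, le_rfl⟩

theorem blk {m : ℝ} (hE : Ext P E) (hp : -1 / 2 ≤ q) (hq : q + k ≤ 1 / 2) (h0 : 0 ≤ k) :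
    MS E (fun s => Strip q (q + k) s ∧ Lf (k - E k (-(q + k / 2))) s) [k] m fun _ s => 0 ≤ s := by
  have y1 : |q + k / 2| ≤ (1 - k) / 2 := abs_le.2 ⟨by linarith, by linarith⟩
  have r1 := hE.e4 k _ h0 y1
  have r2 := hE.e4 k (-(q + k / 2)) h0 (by rwa [abs_neg])
  refine ⟨fun l => l = [], rfl, ?_, fun l a _ _ e => Or.inr (by subst e; exact le_rfl)⟩
  rintro l - - rfl
  refine ⟨[⟨k, k / 2 - E k (-(q + k / 2)), q + k / 2⟩], List.Perm.refl _,
    List.pairwise_singleton _ _, fun s hs => ?_⟩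
  obtain rfl := List.mem_singleton.1 hs
  refine ⟨⟨y1, le_rfl, ?_⟩, ⟨?_, ?_⟩, ?_⟩ <;> simp only [Ab, Be, Lf] <;> linarith

theorem side (hE : Ext P E) (hp : -1 / 2 ≤ q) (hq : q + k ≤ 1 / 2) (h0 : 0 ≤ k) :
    Tz P k (zz q k) / 2 ≤ E k (-(q + k / 2)) ∨ Tz P k (zz q k) / 2 ≤ E k (q + k / 2) := by
  have r := room hE hp hq h0 le_rfl
  rw [yc_self] at r
  rcases le_total (E k (q + k / 2)) (E k (-(q + k / 2))) with h1 | h1
  · exact Or.inl (by linarith)
  · exact Or.inr (by linarith)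

theorem cap1 (hE : Ext P E) (hp : -1 / 2 ≤ p) (hq : p + h ≤ 1 / 2) (ha : 0 ≤ a) (hah : a ≤ h)
    (hk : Tz P k (zz q k) / 2 ≤ E k (-(q + k / 2))) :
    (k - E k (-(q + k / 2))) + (Tz P k (zz q k) / 2 + Tz P a (zz p h) - 1 / 2 - k) ≤
      E a (yc p h a) := by
  have r := room hE hp hq ha hah
  have r2 := hE.e2 a (-yc p h a) ha (by rw [abs_neg]; exact yc_le hp hq hah)
  linarith

theorem cap2 {l : ℝ} (hE : Ext P E) (hq1 : -1 / 2 ≤ q) (hq2 : q + k ≤ 1 / 2)
    (ha : 0 ≤ a) (hah : a ≤ h) (hak : a ≤ k) (hl0 : 0 ≤ l) (hl1 : l ≤ 1)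
    (hl : max 0 (zz p h + h / 2) ≤ l * |q + k / 2|)
    (hk : Tz P k (zz q k) / 2 ≤ E k (-(q + k / 2))) :
    (k - E k (-(q + k / 2))) + ((1 - l) / 2 + (1 + l) * Tz P k (zz q k) / 2 - k) ≤
      E a (yc p h a) := by
  have k0 := ha.trans hak
  have r := room hE hq1 hq2 k0 le_rfl
  have t1 := tz_le hE hq1 hq2 k0 le_rfl
  have y1 := yc_le hq1 hq2 (le_refl k)
  rw [yc_self] at r y1
  have u1 : |yc p h a| ≤ l * |q + k / 2| := by
    rw [abs_yc hah]
    exact (max_le_max le_rfl (by linarith)).trans hl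
  obtain ⟨t, t2, t3, t4⟩ := ratio (Or.inl ⟨abs_nonneg _, u1⟩)
  have v0 : 0 ≤ t * l := mul_nonneg t2 hl0
  have v1 : t * l ≤ l := mul_le_of_le_one_left hl0 t3
  rw [← mul_assoc] at t4
  generalize t * l = v at v0 v1 t4
  have w1 := mul_nonneg (sub_nonneg.2 v1) (sub_nonneg.2 t1)
  rw [← abs_of_nonneg v0, ← abs_mul] at t4
  rcases abs_eq_abs.1 t4 with e | e
  · have r1 := hE.e3 k a _ v ha hak y1 v0 (v1.trans hl1)
    have w2 := mul_nonneg (sub_nonneg.2 (v1.trans hl1)) (sub_nonneg.2 hk)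
    have w3 := mul_nonneg v0 (sub_nonneg.2 r)
    rw [e]
    linarith
  · have r1 := hE.e3 k a (-(q + k / 2)) v ha hak (by rwa [abs_neg]) v0 (v1.trans hl1)
    have w2 := mul_nonneg v0 (sub_nonneg.2 hk)
    rw [e, ← mul_neg]
    linarith

end Row

/-- ROW. -/
theorem row (_h : PkStmt) : RowStmt where
  tz_le := Row.tz_le
  feasB := fun _ => Row.feasB
  feasC := fun _ => Row.feasC
  rowB := Row.rowB
  rowS := Row.rowS
  blk := Row.blk
  side := Row.side
  cap1 := Row.cap1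
  cap2 := fun hE h1 h2 _ _ => Row.cap2 hE h1 h2

end Pool.Agent.MP_34f9b1_co.Sym

end MrgPart1

-- ======== part 2: formerly Pool.Agent.MP_34f9b1_co.Sym.TabA1
section MrgPart2

namespace Pool.Agent.MP_34f9b1_co.Sym.TA

/-- The vector `X` has the lanes `f i` below `n` and zero lanes from `n` on. -/
def Lv (n X : ℕ) (f : ℕ → ℕ) : Prop := ∀ i, dg 32 X i = if i < n then f i else 0

theorem Lv.val {n X : ℕ} {f : ℕ → ℕ} (h : Lv n X f) {i : ℕ} (hi : i < n) : dg 32 X i = f i := by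
  rw [h i, if_pos hi]

theorem Lv.zero {n X : ℕ} {f : ℕ → ℕ} (h : Lv n X f) {i : ℕ} (hi : n ≤ i) : dg 32 X i = 0 := by
  rw [h i, if_neg (by omega)]

theorem Lv.congr {n X : ℕ} {f g : ℕ → ℕ} (h : Lv n X f) (e : ∀ i < n, f i = g i) : Lv n X g := by
  intro i
  rw [h i]
  split_ifs with hi
  · exact e i hi
  · rfl

theorem Lv.bd {n X B : ℕ} {f : ℕ → ℕ} (h : Lv n X f) (e : ∀ i < n, f i ≤ B) : Bd 32 n X B := by
  intro i
  rw [h i]
  split_ifs with hi
  · exact ⟨e i hi, fun h' => absurd hi (by omega)⟩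
  · exact ⟨Nat.zero_le _, fun _ => rfl⟩

theorem of_bd {n X B : ℕ} (h : Bd 32 n X B) : Lv n X (dg 32 X) := by
  intro i
  split_ifs with hi
  · rfl
  · exact (h i).2 (by omega)

theorem Lv.lt (hd : DgStmt) {n X : ℕ} {f : ℕ → ℕ} (h : Lv n X f) {i : ℕ} (hi : i < n) :
    f i < 4294967296 := by
  have := hd.lt 32 X i
  rw [h.val hi] at this
  exact this

theorem Lv.mul (hd : DgStmt) {n X : ℕ} {f : ℕ → ℕ} (k : ℕ) (h : Lv n X f)
    (b : ∀ i < n, k * f i < 4294967296) : Lv n (Nat.mul k X) fun i => k * f i := by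
  intro i
  rw [hd.mul (w := 32) (k := k) (X := X) ?_ i, h i]
  · split_ifs <;> simp
  · intro j
    rw [h j]
    split_ifs with hj
    · exact b j hj
    · simp

theorem lv_ones (hd : DgStmt) (n : ℕ) : Lv n (ones 32 n) fun _ => 1 :=
  fun i => hd.ones n i (by norm_num)

theorem lv_const (hd : DgStmt) (n k : ℕ) (hk : k < 4294967296) :
    Lv n (Nat.mul k (ones 32 n)) fun _ => k :=
  ((lv_ones hd n).mul hd k fun _ _ => by omega).congr fun _ _ => by simp

theorem Lv.add (hd : DgStmt) {n X Y : ℕ} {f g : ℕ → ℕ} (h : Lv n X f) (h' : Lv n Y g)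
    (b : ∀ i < n, f i + g i < 4294967296) : Lv n (Nat.add X Y) fun i => f i + g i := by
  intro i
  rw [hd.add (w := 32) (X := X) (Y := Y) ?_ i, h i, h' i]
  · split_ifs <;> simp
  · intro j
    rw [h j, h' j]
    split_ifs with hj
    · exact b j hj
    · simp

theorem Lv.sub (hd : DgStmt) {n X Y : ℕ} {f g : ℕ → ℕ} (h : Lv n X f) (h' : Lv n Y g)
    (b : ∀ i < n, g i ≤ f i) : Lv n (Nat.sub X Y) fun i => f i - g i := by
  intro i
  rw [hd.sub (w := 32) (X := X) (Y := Y) (by norm_num) ?_ i, h i, h' i]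
  · split_ifs <;> simp
  · intro j
    rw [h j, h' j]
    split_ifs with hj
    · exact b j hj
    · simp

theorem Lv.lmin (hd : DgStmt) {n X Y : ℕ} {f g : ℕ → ℕ} (h : Lv n X f) (h' : Lv n Y g)
    (b : ∀ i < n, f i ≤ 2147483647) (b' : ∀ i < n, g i ≤ 2147483647) :
    Lv n (Sym.lmin 31 (grd 32 n) X Y) fun i => min (f i) (g i) := by
  intro i
  have := hd.lmin (w := 32) (by norm_num) (h.bd b) (h'.bd b') (by norm_num) (by norm_num) i
  refine this.trans ?_
  rw [h i, h' i]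
  split_ifs <;> simp

theorem Lv.lmax (hd : DgStmt) {n X Y : ℕ} {f g : ℕ → ℕ} (h : Lv n X f) (h' : Lv n Y g)
    (b : ∀ i < n, f i ≤ 2147483647) (b' : ∀ i < n, g i ≤ 2147483647) :
    Lv n (Sym.lmax 31 (grd 32 n) X Y) fun i => max (f i) (g i) := by
  intro i
  have := hd.lmax (w := 32) (by norm_num) (h.bd b) (h'.bd b') (by norm_num) (by norm_num) i
  refine this.trans ?_
  rw [h i, h' i]
  split_ifs <;> simp

theorem Lv.lsub (hd : DgStmt) {n X Y : ℕ} {f g : ℕ → ℕ} (h : Lv n X f) (h' : Lv n Y g)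
    (b : ∀ i < n, f i ≤ 2147483647) (b' : ∀ i < n, g i ≤ 2147483647) :
    Lv n (Sym.lsub 31 (grd 32 n) X Y) fun i => f i - g i := by
  intro i
  have := hd.lsub (w := 32) (by norm_num) (h.bd b) (h'.bd b') (by norm_num) (by norm_num) i
  refine this.trans ?_
  rw [h i, h' i]
  split_ifs <;> simp

theorem Lv.shr (hd : DgStmt) {n m k s X : ℕ} {f : ℕ → ℕ} (h : Lv n X f) (hs : s = 32 * k)
    (hn : n = m + k) : Lv m (Nat.shiftRight X s) fun i => f (i + k) := by
  intro i
  subst hs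
  have := hd.shr 32 X k i
  refine this.trans ?_
  rw [h (i + k)]
  by_cases hi : i < m
  · rw [if_pos hi, if_pos (by omega)]
  · rw [if_neg hi, if_neg (by omega)]

theorem Lv.low (hd : DgStmt) {n k X : ℕ} {f : ℕ → ℕ} (h : Lv n X f) (hk : k ≤ n) :
    Lv k (Sym.low 32 k X) f := by
  intro i
  rw [hd.low 32 k X i]
  split_ifs with hi
  · exact h.val (by omega)
  · rfl

theorem Lv.shl (hd : DgStmt) {N n m s Y : ℕ} {g : ℕ → ℕ} (h : Lv m Y g) (hs : s = 32 * n)
    (hN : N = n + m) : Lv N (Nat.shiftLeft Y s) fun i => if i < n then 0 else g (i - n) := by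
  intro i
  subst hs
  have := hd.shl 32 Y n i
  refine this.trans ?_
  by_cases hi : i < n
  · simp only [if_pos hi, ite_self]
  · simp only [if_neg hi]
    rw [h (i - n)]
    by_cases hj : i < N
    · rw [if_pos hj, if_pos (by omega)]
    · rw [if_neg hj, if_neg (by omega)]

theorem Lv.wide {N n X : ℕ} {f : ℕ → ℕ} (h : Lv n X f) (hN : n ≤ N) :
    Lv N X fun i => if i < n then f i else 0 := by
  intro i
  rw [h i]
  by_cases hi : i < n
  · simp only [if_pos hi]
    rw [if_pos (by omega)]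
  · simp only [if_neg hi, ite_self]

theorem Lv.cat (hd : DgStmt) {N n m s X Y : ℕ} {f g : ℕ → ℕ} (h : Lv n X f) (h' : Lv m Y g)
    (hs : s = 32 * n) (hN : N = n + m) :
    Lv N (Nat.add X (Nat.shiftLeft Y s)) fun i => if i < n then f i else g (i - n) := by
  refine ((h.wide (by omega)).add hd (h'.shl hd hs hN) ?_).congr ?_
  · intro i hi
    by_cases hj : i < n
    · simp only [if_pos hj]
      exact h.lt hd hj
    · simp only [if_neg hj]
      have := h'.lt hd (i := i - n) (by omega)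
      omega
  · intro i _
    by_cases hj : i < n
    · simp only [if_pos hj, Nat.add_zero]
    · simp only [if_neg hj, Nat.zero_add]

theorem Lv.dup (hd : DgStmt) {N n X : ℕ} {f : ℕ → ℕ} (h : Lv n X f) (hN : N = 2 * n) :
    Lv N (Sym.dup 32 n 0 X) fun i => if i < n then f i else f (i - n) := by
  have hb : Bd 32 n X 4294967296 := h.bd fun i hi => (h.lt hd hi).le
  have := (hd.dup (w := 32) (n := n) (s := 0) (by norm_num) (Nat.zero_le _) hb).2
  intro i
  rw [this i]
  by_cases hi : i < n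
  · simp only [if_pos hi]
    rw [if_pos (by omega), h.val hi]
  · simp only [if_neg hi, Nat.add_zero]
    rw [h (i - n)]
    by_cases hj : i < N
    · rw [if_pos hj, if_pos (by omega)]
    · rw [if_neg hj, if_neg (by omega)]

theorem Lv.hmin (hd : DgStmt) {N n X : ℕ} {f : ℕ → ℕ} (h : Lv N X f) (hN : N = n + n)
    (b : ∀ i < N, f i ≤ 2147483647) : Lv n (Tab.hmin n X) fun i => min (f i) (f (i + n)) :=
  (h.low hd (by omega)).lmin hd (h.shr hd rfl hN) (fun i hi => b i (by omega))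
    fun i hi => b (i + n) (by omega)

theorem lv_ramp (hd : DgStmt) (n : ℕ) (hn : n ≤ 4294967296) : Lv n (ramp 32 n) fun i => i := by
  induction n with
  | zero =>
    intro i
    have : dg 32 (ramp 32 0) i = 0 := by
      rw [hd.eq]
      show 0 / _ % _ = 0
      simp
    rw [this]
    simp
  | succ n ih =>
    have h1 : Lv 1 n fun _ => n := by
      intro i
      rw [hd.eq]
      rcases Nat.eq_zero_or_pos i with rfl | hi
      · simp only [Nat.mul_zero, pow_zero, Nat.div_one, Nat.lt_one_iff, if_true]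
        exact Nat.mod_eq_of_lt (by omega)
      · rw [if_neg (by omega)]
        have h2 : (2 : ℕ) ^ 32 ≤ 2 ^ (32 * i) := Nat.pow_le_pow_right (by norm_num) (by omega)
        rw [Nat.div_eq_of_lt (by omega), Nat.zero_mod]
    have := (ih (by omega)).cat hd (N := n + 1) (s := Nat.mul 32 n) h1 rfl rfl
    refine Lv.congr this ?_
    intro i hi
    by_cases hj : i < n
    · simp only [if_pos hj]
    · simp only [if_neg hj]
      omega

theorem lv_full (hd : DgStmt) (u : ℕ) :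
    Lv u (Nat.pred (Nat.pow 2 (Nat.mul 32 u))) fun _ => 4294967295 := by
  have h1 : Nat.pred (Nat.pow 2 (Nat.mul 32 u)) = Nat.mul 4294967295 (ones 32 u) := by
    have h2 : (2 ^ 32 - 1 : ℕ) ∣ 2 ^ (32 * u) - 1 := by
      have := Nat.sub_dvd_pow_sub_pow (2 ^ 32) 1 u
      rwa [one_pow, ← pow_mul] at this
    exact (Nat.mul_div_cancel' h2).symm
  rw [h1]
  exact lv_const hd u _ (by norm_num)

theorem lv_msk (hd : DgStmt) {u : ℕ} (hu : u ≤ 256) :
    Lv 2048 (Tab.msk u) fun i => if i % 256 < u then 4294967295 else 0 := by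
  have h := ((((lv_full hd u).wide hu).dup hd (N := 512) rfl).dup hd (N := 1024) rfl).dup hd
    (N := 2048) rfl
  refine Lv.congr h ?_
  intro i hi
  split_ifs <;> first | rfl | omega

theorem lv_cmsk (hd : DgStmt) {u : ℕ} (hu : u ≤ 256) :
    Lv 2048 (Tab.cmsk u) fun i => if i % 256 < u then 0 else 4294967295 := by
  refine Lv.congr ((lv_msk hd (le_refl 256)).sub hd (lv_msk hd hu) ?_) ?_
  · intro i _
    split_ifs <;> omega
  · intro i _
    split_ifs <;> omega

theorem Lv.sel (hd : DgStmt) {u X Y : ℕ} {f g : ℕ → ℕ} (hu : u ≤ 256) (h : Lv 2048 X f)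
    (h' : Lv 2048 Y g) :
    Lv 2048 (Nat.add (Nat.land X (Tab.msk u)) (Nat.land Y (Tab.cmsk u)))
      fun i => if i % 256 < u then f i else g i := by
  have key : ∀ {Z M : ℕ} {z : ℕ → ℕ} (p : ℕ → Prop) [DecidablePred p], Lv 2048 Z z →
      (Lv 2048 M fun i => if p i then 4294967295 else 0) →
      Lv 2048 (Nat.land Z M) fun i => if p i then z i else 0 := by
    intro Z M z p _ hz hm i
    rw [hd.land, hm i]
    by_cases hi : i < 2048
    · simp only [if_pos hi]
      by_cases hp : p i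
      · simp only [if_pos hp]
        have h1 := Nat.and_two_pow_sub_one_eq_mod (dg 32 Z i) 32
        have h2 := hd.lt 32 Z i
        rw [Nat.mod_eq_of_lt h2] at h1
        exact h1.trans (hz.val hi)
      · simp only [if_neg hp, Nat.and_zero]
    · simp only [if_neg hi, Nat.and_zero]
  have a := key (fun i => i % 256 < u) h (lv_msk hd hu)
  have b := key (fun i => ¬ i % 256 < u) h' ((lv_cmsk hd hu).congr fun i _ => by
    split_ifs <;> rfl)
  refine Lv.congr (a.add hd b ?_) ?_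
  · intro i hi
    have := h.lt hd hi
    have := h'.lt hd hi
    split_ifs <;> omega
  · intro i _
    split_ifs <;> omega

theorem lv_cvec (hd : DgStmt) {c0 c1 : ℕ} (h0 : c0 < 4294967296) (h1 : c1 < 4294967296) :
    Lv 2048 (Tab.cvec c0 c1) fun i => if i < 1024 then c0 else c1 :=
  (lv_const hd 1024 c0 h0).cat hd (lv_const hd 1024 c1 h1) rfl rfl

end Pool.Agent.MP_34f9b1_co.Sym.TA

end MrgPart2

-- ======== part 3: formerly Pool.Agent.MP_34f9b1_co.Sym.TabA
section MrgPart3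

namespace Pool.Agent.MP_34f9b1_co.Sym

namespace TA

attribute [local irreducible] ones grd ramp

/-- The bounds contained in `Prof.bd`. -/
structure PB (P : Prof) : Prop where
  a1 : P.a1 = 1024
  a2 : P.a2 ≤ 16383
  a3 : P.a3 ≤ 16383
  a4 : P.a4 ≤ 16383
  b1 : P.b1 ≤ 32767
  b2 : P.b2 ≤ 32767
  b3 : P.b3 ≤ 32767
  b4 : P.b4 ≤ 32767

theorem pb_of {P : Prof} (h : P.bd = true) : PB P := by
  simp only [Prof.bd, Bool.and_eq_true, Nat.beq_eq, Nat.ble_eq] at h
  obtain ⟨⟨⟨⟨⟨⟨⟨⟨⟨⟨h1, -⟩, -⟩, -⟩, h2⟩, h3⟩, h4⟩, h5⟩, h6⟩, h7⟩, h8⟩ := h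
  exact ⟨h1, h2, h3, h4, h5, h6, h7, h8⟩

/-- Lane of `z2`. -/
def zN (H i : ℕ) : ℕ := max (512 - 2 * i) (2 * i - 2 * H)

/-- Lane of the height. -/
def yN (H A i : ℕ) : ℕ := zN H i + A - 256

/-- Lane of a line. -/
def lN (α β A Y : ℕ) : ℕ := α * (512 - 2 * A) + 33554432 - β * Y

/-- Lane of `tz`. -/
def tN (P : Prof) (H A i : ℕ) : ℕ :=
  1024 * (2 * A) + min (min (lN P.a1 P.b1 A (yN H A i)) (lN P.a2 P.b2 A (yN H A i)))
    (min (lN P.a3 P.b3 A (yN H A i)) (lN P.a4 P.b4 A (yN H A i)))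

/-- Lane of `dfull`. -/
def dN (P : Prof) (w H A i : ℕ) : ℕ :=
  if w = 0 then min (tN P H H i + tN P H A i) (2 * tN P H H i + 2048 * A) + (1048576 - 4096 * (H + A))
  else 2 * tN P H A i + (1048576 - 4096 * (H + 2 * A))

theorem zN_le {H i : ℕ} (hi : i < 257) : zN H i ≤ 512 := by
  unfold zN
  omega

theorem yN_le {H A i : ℕ} (hA : A ≤ 80) (hi : i < 257) : yN H A i ≤ 336 := by
  have := zN_le (H := H) hi
  unfold yN
  omega

theorem bY_le {β Y : ℕ} (hβ : β ≤ 32767) (hY : Y ≤ 336) : β * Y ≤ 11009712 :=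
  (Nat.mul_le_mul hβ hY).trans (by norm_num)

theorem aA_le {α A : ℕ} (hα : α ≤ 16383) : α * (512 - 2 * A) ≤ 8388096 :=
  (Nat.mul_le_mul hα (Nat.sub_le _ _)).trans (by norm_num)

theorem lN_le {α β A Y : ℕ} (hα : α ≤ 16383) : lN α β A Y ≤ 41942528 := by
  have := aA_le (A := A) hα
  unfold lN
  omega

theorem tN_le {P : Prof} (hP : PB P) {H A i : ℕ} (hA : A ≤ 80) : tN P H A i ≤ 34078720 := by
  have h1 : lN P.a1 P.b1 A (yN H A i) ≤ 1024 * (512 - 2 * A) + 33554432 := by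
    unfold lN
    rw [hP.a1]
    omega
  unfold tN
  omega

theorem dN_le {P : Prof} (hP : PB P) {w H A i : ℕ} (hH : H ≤ 80) (hA : A ≤ 80) :
    dN P w H A i ≤ 69206016 := by
  have h1 := tN_le hP (H := H) (i := i) hA
  have h2 := tN_le hP (H := H) (i := i) hH
  unfold dN
  split_ifs <;> omega

theorem lv_z2 (hd : DgStmt) {H : ℕ} (hH : H ≤ 80) : Lv 257 (Tab.z2 H) (zN H) := by
  have r := (lv_ramp hd 257 (by norm_num)).mul hd 2 fun i hi => by omega
  have a := (lv_const hd 257 512 (by norm_num)).sub hd r fun i hi => by omega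
  have c := lv_const hd 257 (Nat.mul 2 H) (by rw [Nat.mul_eq]; omega)
  have b := r.lsub hd c (fun i hi => by omega) fun i hi => by rw [Nat.mul_eq]; omega
  exact a.lmax hd b (fun i hi => by omega) fun i hi => by omega

theorem lv_tln (hd : DgStmt) {α β A OA KO Y : ℕ} {y : ℕ → ℕ} (hα : α ≤ 16383) (hβ : β ≤ 32767)
    (h1 : Lv 257 OA fun _ => 512 - 2 * A) (h2 : Lv 257 KO fun _ => 33554432) (h3 : Lv 257 Y y)
    (hy : ∀ i < 257, y i ≤ 336) : Lv 257 (tln α β OA KO Y) fun i => lN α β A (y i) := by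
  have ha := aA_le (A := A) hα
  have a := (h1.mul hd α fun i hi => by omega).add hd h2 fun i hi => by omega
  have b := h3.mul hd β fun i hi => by have := bY_le hβ (hy i hi); omega
  exact a.sub hd b fun i hi => by have := bY_le hβ (hy i hi); omega

theorem lv_tz (hd : DgStmt) {P : Prof} (hP : PB P) {H A : ℕ} (hH : H ≤ 80) (hA : A ≤ 80) :
    Lv 257 (Tab.tz P H A) (tN P H A) := by
  have ko := lv_const hd 257 33554432 (by norm_num)
  have a2 := lv_const hd 257 (Nat.mul 2 A) (by rw [Nat.mul_eq]; omega)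
  have oa : Lv 257 (Nat.mul (Nat.sub 512 (Nat.mul 2 A)) (ones 32 257)) fun _ => 512 - 2 * A :=
    lv_const hd 257 (Nat.sub 512 (Nat.mul 2 A)) (by rw [Nat.sub_eq]; omega)
  have y0 := (lv_z2 hd hH).add hd (lv_const hd 257 A (by omega)) fun i hi => by
    have := zN_le (H := H) hi; omega
  have y : Lv 257 _ (yN H A) := y0.lsub hd (lv_const hd 257 256 (by norm_num))
    (fun i hi => by have := zN_le (H := H) hi; omega) fun i hi => by omega
  have hy : ∀ i < 257, yN H A i ≤ 336 := fun i hi => yN_le hA hi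
  have h1 : P.a1 ≤ 16383 := by rw [hP.a1]; norm_num
  have l1 := lv_tln hd h1 hP.b1 oa ko y hy
  have l2 := lv_tln hd hP.a2 hP.b2 oa ko y hy
  have l3 := lv_tln hd hP.a3 hP.b3 oa ko y hy
  have l4 := lv_tln hd hP.a4 hP.b4 oa ko y hy
  have m1 := l1.lmin hd l2 (fun i _ => (lN_le h1).trans (by norm_num))
    fun i _ => (lN_le hP.a2).trans (by norm_num)
  have m2 := l3.lmin hd l4 (fun i _ => (lN_le hP.a3).trans (by norm_num))
    fun i _ => (lN_le hP.a4).trans (by norm_num)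
  have m := m1.lmin hd m2 (fun i _ => (min_le_left _ _).trans ((lN_le h1).trans (by norm_num)))
    fun i _ => (min_le_left _ _).trans ((lN_le hP.a3).trans (by norm_num))
  have s := a2.mul hd 1024 fun i hi => by rw [Nat.mul_eq]; omega
  exact s.add hd m fun i hi => by
    have := tN_le hP (H := H) (i := i) hA
    exact lt_of_le_of_lt this (by norm_num)

theorem lv_dfull (hd : DgStmt) {P : Prof} (hP : PB P) (w : ℕ) {H A : ℕ} (hH : H ≤ 80)
    (hA : A ≤ 80) : Lv 257 (Tab.dfull P w H A) (dN P w H A) := by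
  have th := lv_tz hd hP hH hH
  have ta := lv_tz hd hP hH hA
  have bh : ∀ i, tN P H H i ≤ 34078720 := fun i => tN_le hP hH
  have ba : ∀ i, tN P H A i ≤ 34078720 := fun i => tN_le hP hA
  unfold Tab.dfull
  by_cases hw : w = 0
  · have e : Nat.beq w 0 = true := by rw [hw]; rfl
    rw [e, cond_true]
    have x1 := th.add hd ta fun i _ => by have := bh i; have := ba i; omega
    have c1 : Lv 257 (Nat.mul (Nat.mul 2048 A) (ones 32 257)) fun _ => 2048 * A :=
      lv_const hd 257 (Nat.mul 2048 A) (by rw [Nat.mul_eq]; omega)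
    have x2 := (th.mul hd 2 fun i _ => by have := bh i; omega).add hd c1 fun i _ => by
      have := bh i; omega
    have x3 := x1.lmin hd x2 (fun i _ => by have := bh i; have := ba i; omega) fun i _ => by
      have := bh i; omega
    have c2 : Lv 257 (Nat.mul (Nat.sub 1048576 (Nat.mul 4096 (Nat.add H A))) (ones 32 257))
        fun _ => 1048576 - 4096 * (H + A) :=
      lv_const hd 257 (Nat.sub 1048576 (Nat.mul 4096 (Nat.add H A))) (by rw [Nat.sub_eq]; omega)
    refine Lv.congr (x3.add hd c2 fun i _ => by have := bh i; have := ba i; omega) ?_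
    intro i _
    rw [dN, if_pos hw]
  · have e : Nat.beq w 0 = false := by
      cases w with
      | zero => exact absurd rfl hw
      | succ w => rfl
    rw [e, cond_false]
    have c2 : Lv 257 (Nat.mul (Nat.sub 1048576 (Nat.mul 4096 (Nat.add H (Nat.mul 2 A))))
        (ones 32 257)) fun _ => 1048576 - 4096 * (H + 2 * A) :=
      lv_const hd 257 (Nat.sub 1048576 (Nat.mul 4096 (Nat.add H (Nat.mul 2 A))))
        (by rw [Nat.sub_eq]; omega)
    refine Lv.congr ((ta.mul hd 2 fun i _ => by have := ba i; omega).add hd c2 fun i _ => by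
      have := ba i; omega) ?_
    intro i _
    rw [dN, if_neg hw]

theorem lv_dw (hd : DgStmt) {P : Prof} (hP : PB P) (w : ℕ) {H A : ℕ} (hH : H ≤ 80)
    (hA : A ≤ 80) : Lv 257 (Tab.dw P w H A) fun i => dN P w H A i / 32 := by
  intro i
  have h := hd.sublane (w := 32) (s := 5) (v := 27) 257 (Tab.dfull P w H A) i (by norm_num)
    (by norm_num)
  refine h.trans ?_
  split_ifs with hi
  · rw [(lv_dfull hd hP w hH hA).val hi]
    have := dN_le hP (w := w) (i := i) hH hA
    show _ = dN P w H A i / 32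
    omega
  · rfl

theorem lv_dpr (hd : DgStmt) {P : Prof} (hP : PB P) (w : ℕ) {H A : ℕ} (hH : H ≤ 80)
    (hA : A ≤ 80) : Lv 512 (Tab.dpr P w H A) fun i =>
      if i < 256 then dN P w H A (i + 1) / 32 else dN P w H A (i - 256) / 32 := by
  have h := lv_dw hd hP w hH hA
  have a := h.shr hd (m := 256) (k := 1) (s := 32) (by norm_num) (by norm_num)
  have b := h.low hd (k := 256) (by norm_num)
  have c := a.cat hd b (N := 512) (s := 8192) (by norm_num) (by norm_num)
  unfold Tab.dpr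
  exact c

theorem zN_real {H i : ℕ} (hi : i ≤ 256) :
    (zN H i : ℝ) = 512 * zz (((256 - i : ℕ) : ℝ) / 256 - 1 / 2) ((H : ℝ) / 256) + 256 := by
  have h1 : ((256 - i : ℕ) : ℝ) = 256 - i := by rw [Nat.cast_sub hi]; norm_num
  rw [h1, zz, zN]
  rcases le_total (512 - 2 * i) (2 * i - 2 * H) with h | h
  · rcases le_total (2 * H) (2 * i) with h2 | h2
    · have h3 : ((2 * i - 2 * H : ℕ) : ℝ) = 2 * i - 2 * H := by rw [Nat.cast_sub h2]; push_cast; ring
      have h4 : 512 + 2 * H ≤ 4 * i := by omega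
      have h5 : (512 : ℝ) + 2 * H ≤ 4 * i := by exact_mod_cast h4
      rw [max_eq_right h, h3, max_eq_right (by linarith)]
      ring
    · have h3 : i = 256 := by omega
      have h4 : 256 ≤ H := by omega
      have h5 : (256 : ℝ) ≤ H := by exact_mod_cast h4
      have h6 : 2 * i - 2 * H = 0 := by omega
      rw [max_eq_right h, h6, h3, max_eq_left (by push_cast; linarith)]
      norm_num
  · have h3 : ((512 - 2 * i : ℕ) : ℝ) = 512 - 2 * i := by
      rw [Nat.cast_sub (by omega)]; push_cast; ring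
    have h4 : 4 * i ≤ 512 + 2 * H := by omega
    have h5 : (4 : ℝ) * i ≤ 512 + 2 * H := by exact_mod_cast h4
    rw [max_eq_left h, h3, max_eq_left (by linarith)]
    ring

theorem yN_real {H A i : ℕ} (hi : i ≤ 256) :
    (yN H A i : ℝ) = 512 * max 0
      (zz (((256 - i : ℕ) : ℝ) / 256 - 1 / 2) ((H : ℝ) / 256) + (A : ℝ) / 256 / 2) := by
  have h := zN_real (H := H) hi
  generalize zz (((256 - i : ℕ) : ℝ) / 256 - 1 / 2) ((H : ℝ) / 256) = z at h ⊢
  unfold yN
  generalize zN H i = q at h ⊢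
  rcases le_total 256 (q + A) with h1 | h1
  · have h2 : (256 : ℝ) ≤ q + A := by exact_mod_cast h1
    rw [Nat.cast_sub h1, max_eq_right (by linarith)]
    push_cast
    linarith
  · have h2 : (q : ℝ) + A ≤ 256 := by exact_mod_cast h1
    rw [Nat.sub_eq_zero_of_le h1, max_eq_left (by linarith)]
    norm_num

theorem lN_real {α β A Y : ℕ} {y : ℝ} (hβ : β ≤ 32767) (hA : A ≤ 80) (hY : Y ≤ 336)
    (hy : (Y : ℝ) = 512 * y) :
    (lN α β A Y : ℝ) = 524288 * ln α β ((A : ℝ) / 256) y + 33554432 := by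
  have := bY_le hβ hY
  rw [lN, Nat.cast_sub (by omega), ln]
  push_cast [Nat.cast_sub (show 2 * A ≤ 512 by omega)]
  rw [hy]
  ring

theorem min_aff (c d x y : ℝ) (hc : 0 ≤ c) : min (c * x + d) (c * y + d) = c * min x y + d := by
  rw [min_add_add_right, mul_min_of_nonneg _ _ hc]

theorem tN_real {P : Prof} (hP : PB P) {H A i : ℕ} (hA : A ≤ 80) (hi : i ≤ 256) :
    (tN P H A i : ℝ) = 524288 * Tz P ((A : ℝ) / 256)
      (zz (((256 - i : ℕ) : ℝ) / 256 - 1 / 2) ((H : ℝ) / 256)) + 33554432 := by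
  have hy := yN_real (H := H) (A := A) hi
  have hY := yN_le (H := H) hA (show i < 257 by omega)
  rw [tN, Tz, Tf]
  push_cast
  rw [lN_real hP.b1 hA hY hy, lN_real hP.b2 hA hY hy, lN_real hP.b3 hA hY hy,
    lN_real hP.b4 hA hY hy, min_aff _ _ _ _ (by norm_num), min_aff _ _ _ _ (by norm_num),
    min_aff _ _ _ _ (by norm_num)]
  ring

theorem dN_real {P : Prof} (hP : PB P) {w H A i : ℕ} (hH : H ≤ 80) (hA : A ≤ 80) (hi : i ≤ 256) :
    (dN P w H A i : ℝ) ≤ 1048576 * DW P 256 w (256 - i) H A + 68157440 := by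
  have th := tN_real hP (H := H) hH hi
  have ta := tN_real hP (H := H) hA hi
  rw [dN, DW]
  split_ifs with hw
  · rw [DL, DT]
    push_cast [Nat.cast_sub (show 4096 * (H + A) ≤ 1048576 by omega)]
    rw [th, ta]
    generalize Tz P ((A : ℝ) / 256) _ = x
    generalize Tz P ((H : ℝ) / 256) _ = y
    rcases le_total ((y + x) / 2) (y + (A : ℝ) / 256 / 2) with h | h
    · rw [min_eq_left h]
      have := min_le_left (524288 * y + 33554432 + (524288 * x + 33554432))
        (2 * (524288 * y + 33554432) + 2048 * (A : ℝ))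
      linarith
    · rw [min_eq_right h]
      have := min_le_right (524288 * y + 33554432 + (524288 * x + 33554432))
        (2 * (524288 * y + 33554432) + 2048 * (A : ℝ))
      linarith
  · rw [DC]
    push_cast [Nat.cast_sub (show 4096 * (H + 2 * A) ≤ 1048576 by omega)]
    rw [ta]
    linarith

theorem dw_real {P : Prof} (hP : PB P) {w H A i : ℕ} (hH : H ≤ 80) (hA : A ≤ 80) (hi : i ≤ 256) :
    ((dN P w H A i / 32 : ℕ) : ℝ) ≤ 32768 * DW P 256 w (256 - i) H A + 2129920 := by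
  have h1 := dN_real hP (w := w) hH hA hi
  have h2 : ((dN P w H A i / 32 : ℕ) : ℝ) ≤ (dN P w H A i : ℝ) / ((32 : ℕ) : ℝ) := Nat.cast_div_le
  push_cast at h2
  linarith

/-- What is used of the vector of residual lengths. -/
def DG (P : Prof) (w j k D : ℕ) : Prop :=
  Bd 32 2048 D 2162688 ∧ ∀ τ < 256, ∀ i ≤ 1, ∀ e ≤ 1, ∀ e' ≤ 1,
    (dg 32 D (256 * (i + 2 * e + 4 * e') + (255 - τ)) : ℝ) ≤
      32768 * DW P 256 w (τ + i) (j + e) (k + e') + 2129920

theorem dpr_val (hd : DgStmt) {P : Prof} (hP : PB P) (w : ℕ) {H A : ℕ} (hH : H ≤ 80)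
    (hA : A ≤ 80) : ∃ f, Lv 512 (Tab.dpr P w H A) f ∧ (∀ l, f l ≤ 2162688) ∧
      ∀ τ < 256, ∀ i ≤ 1, ∀ l, l = 256 * i + (255 - τ) →
        (f l : ℝ) ≤ 32768 * DW P 256 w (τ + i) H A + 2129920 := by
  refine ⟨_, lv_dpr hd hP w hH hA, fun l => ?_, fun τ hτ i hi l hl => ?_⟩
  · have h1 := dN_le hP (w := w) (i := l + 1) hH hA
    have h2 := dN_le hP (w := w) (i := l - 256) hH hA
    show (if l < 256 then dN P w H A (l + 1) / 32 else dN P w H A (l - 256) / 32) ≤ _
    split_ifs <;> omega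
  · show (((if l < 256 then dN P w H A (l + 1) / 32 else dN P w H A (l - 256) / 32 : ℕ)) : ℝ) ≤ _
    split_ifs with h
    · have e : τ + i = 256 - (l + 1) := by omega
      rw [e]
      exact dw_real hP hH hA (by omega)
    · have e : τ + i = 256 - (l - 256) := by omega
      rw [e]
      exact dw_real hP hH hA (by omega)

theorem dg_d8 (hd : DgStmt) {P : Prof} (hP : PB P) (w : ℕ) {j k : ℕ} (hj : j ≤ 79) (hk : k ≤ 79) :
    DG P w j k (Tab.d8 P w j (j + 1) k (k + 1)) := by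
  obtain ⟨f0, a0, b0, c0⟩ := dpr_val hd hP w (H := j) (A := k) (by omega) (by omega)
  obtain ⟨f1, a1, b1, c1⟩ := dpr_val hd hP w (H := j + 1) (A := k) (by omega) (by omega)
  obtain ⟨f2, a2, b2, c2⟩ := dpr_val hd hP w (H := j) (A := k + 1) (by omega) (by omega)
  obtain ⟨f3, a3, b3, c3⟩ := dpr_val hd hP w (H := j + 1) (A := k + 1) (by omega) (by omega)
  have h : Lv 2048 (Tab.d8 P w j (j + 1) k (k + 1)) _ :=
    (a0.cat hd a1 (N := 1024) (s := 16384) rfl rfl).cat hd
      (a2.cat hd a3 (N := 1024) (s := 16384) rfl rfl) (s := 32768) rfl rfl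
  refine ⟨h.bd fun l _ => ?_, fun τ hτ i hi e he e' he' => ?_⟩
  · split_ifs
    exacts [b0 _, b1 _, b2 _, b3 _]
  · rw [h.val (by omega)]
    obtain rfl | rfl : e = 0 ∨ e = 1 := by omega
    all_goals obtain rfl | rfl : e' = 0 ∨ e' = 1 := by omega
    · rw [if_pos (by omega), if_pos (by omega)]
      exact c0 τ hτ i hi _ (by omega)
    · rw [if_neg (by omega), if_pos (by omega)]
      exact c2 τ hτ i hi _ (by omega)
    · rw [if_pos (by omega), if_neg (by omega)]
      exact c1 τ hτ i hi _ (by omega)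
    · rw [if_neg (by omega), if_neg (by omega)]
      exact c3 τ hτ i hi _ (by omega)

/-- The vertex values read from the vector `X`. -/
noncomputable def gX (X τ i e e' : ℕ) : ℝ :=
  ((dg 32 X (256 * (i + 2 * e + 4 * e') + (255 - τ)) : ℝ) - 1207959552) / 8388608

/-- Valid and small vertex values. -/
def Good (P : Prof) (j k X : ℕ) : Prop :=
  Bd 32 2048 X 1610612736 ∧ ∀ τ < 256, GOK2 P 256 τ j k (gX X τ)

theorem gok_congr {P : Prof} {N τ j k : ℕ} {g g' : ℕ → ℕ → ℕ → ℝ} (h : GOK2 P N τ j k g)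
    (e : ∀ i ≤ 1, ∀ a ≤ 1, ∀ b ≤ 1, g' i a b = g i a b) : GOK2 P N τ j k g' := by
  rcases h with h | ⟨w, D0, h⟩ | ⟨w, n, σ, a0, hσ, h⟩
  · exact Or.inl fun i hi a ha b hb => by rw [e i hi a ha b hb]; exact h i hi a ha b hb
  · exact Or.inr (Or.inl ⟨w, D0, fun i hi a ha b hb => by
      rw [e i hi a ha b hb]; exact h i hi a ha b hb⟩)
  · exact Or.inr (Or.inr ⟨w, n, σ, a0, hσ, fun i hi a ha b hb => by
      rw [e i hi a ha b hb]; exact h i hi a ha b hb⟩)

theorem good0 (hd : DgStmt) (P : Prof) (j k : ℕ) :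
    Good P j k (Nat.mul 1207959552 (ones 32 2048)) := by
  have h := lv_const hd 2048 1207959552 (by norm_num)
  refine ⟨h.bd fun _ _ => by norm_num, fun τ hτ => Or.inl fun i hi e he e' he' => ?_⟩
  rw [gX, h.val (by omega)]
  norm_num

theorem good1 (hd : DgStmt) {P : Prof} {w j k D : ℕ} (hk : k ≤ 79) (h : DG P w j k D) :
    Good P j k (Tab.val1 k D) := by
  have hb : ∀ l, dg 32 D l ≤ 2162688 := fun l => (h.1 l).1
  have d := of_bd h.1
  have m1 := d.hmin hd (n := 1024) rfl fun l _ => (hb l).trans (by norm_num)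
  have m2 := m1.hmin hd (n := 512) rfl fun l _ =>
    (min_le_left _ _).trans ((hb l).trans (by norm_num))
  have m3 := m2.hmin hd (n := 256) rfl fun l _ =>
    (min_le_left _ _).trans ((min_le_left _ _).trans ((hb l).trans (by norm_num)))
  obtain ⟨m, m4, hm⟩ : ∃ m, Lv 256 (Tab.hmin 256 (Tab.hmin 512 (Tab.hmin 1024 D))) m ∧
      ∀ u i e e', i ≤ 1 → e ≤ 1 → e' ≤ 1 → m u ≤ dg 32 D (256 * (i + 2 * e + 4 * e') + u) := by
    refine ⟨_, m3, fun u i e e' hi he he' => ?_⟩
    have e1 : 256 * (i + 2 * e + 4 * e') + u = u + 256 * i + 512 * e + 1024 * e' := by ring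
    rw [e1]
    obtain rfl | rfl : i = 0 ∨ i = 1 := by omega
    all_goals obtain rfl | rfl : e = 0 ∨ e = 1 := by omega
    all_goals obtain rfl | rfl : e' = 0 ∨ e' = 1 := by omega
    all_goals
      simp only [Nat.mul_zero, Nat.add_zero, Nat.mul_one, min_le_iff, le_refl, true_or, or_true]
  have hmb : ∀ u, m u ≤ 2162688 := fun u =>
    (hm u 0 0 0 (by omega) (by omega) (by omega)).trans (hb _)
  have r : Lv 2048 _ fun l => if l < 1024 then 0 else m (l % 256) :=
    ((((m4.dup hd (N := 512) rfl).dup hd (N := 1024) rfl)).shl hd (N := 2048) (n := 1024)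
      (s := 32768) rfl rfl).congr fun l hl => by
        split_ifs <;> first | exact congrArg m (by omega) | rfl
  have kb : ∀ l, k * dg 32 D l ≤ 170852352 := fun l =>
    (Nat.mul_le_mul hk (hb l)).trans (by norm_num)
  have x := (d.mul hd k fun l _ => by have := kb l; omega).add hd r fun l _ => by
    have := kb l
    have := hmb (l % 256)
    split_ifs <;> omega
  have c : Lv 2048 _ fun l => if l < 1024 then 1207959552 - k * 2129920
      else 1207959552 - (k + 1) * 2129920 :=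
    lv_cvec hd (c0 := Nat.sub 1207959552 (Nat.mul k 2129920))
      (c1 := Nat.sub 1207959552 (Nat.mul (Nat.succ k) 2129920))
      (by rw [Nat.sub_eq]; omega) (by rw [Nat.sub_eq]; omega)
  have v : Lv 2048 (Tab.val1 k D) _ := x.add hd c fun l _ => by
    have := kb l
    have := hmb (l % 256)
    split_ifs <;> omega
  refine ⟨v.bd fun l _ => ?_, fun τ hτ => Or.inr (Or.inl ⟨w,
    ((m (255 - τ) : ℝ) - 2129920) / 32768, fun i hi e he e' he' => ?_⟩)⟩
  · have := kb l
    have := hmb (l % 256)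
    split_ifs <;> omega
  · have h1 := h.2 τ hτ i hi e he e' he'
    have h2 : (m (255 - τ) : ℝ) ≤ dg 32 D (256 * (i + 2 * e + 4 * e') + (255 - τ)) := by
      exact_mod_cast hm (255 - τ) i e e' hi he he'
    have hk0 : (0 : ℝ) ≤ k := Nat.cast_nonneg k
    have h3 := mul_le_mul_of_nonneg_left h1 hk0
    refine ⟨by linarith, ?_⟩
    rw [gX, v.val (by omega)]
    have e2 : (256 * (i + 2 * e + 4 * e') + (255 - τ)) % 256 = 255 - τ := by omega
    rw [e2]
    obtain rfl | rfl : e' = 0 ∨ e' = 1 := by omega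
    · rw [if_pos (by omega), if_pos (by omega)]
      push_cast [Nat.cast_sub (show k * 2129920 ≤ 1207959552 by omega)] at h3 ⊢
      linarith
    · rw [if_neg (by omega), if_neg (by omega)]
      push_cast [Nat.cast_sub (show (k + 1) * 2129920 ≤ 1207959552 by omega)] at h3 ⊢
      linarith

theorem good2 (hd : DgStmt) {P : Prof} {w j k n s D : ℕ} (hk : k ≤ 79) (hn : n ≤ 7) (hs : s ≤ 511)
    (h : DG P w j k D) : Good P j k (Tab.val2 k n s D) := by
  have hb : ∀ l, dg 32 D l ≤ 2162688 := fun l => (h.1 l).1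
  have d := of_bd h.1
  have sb : ∀ l, s * dg 32 D l ≤ s * 2162688 := fun l => Nat.mul_le_mul_left s (hb l)
  have ss : 32 * n * (s * s) ≤ 58491104 :=
    (Nat.mul_le_mul (Nat.mul_le_mul_left 32 hn) (Nat.mul_le_mul hs hs)).trans (by norm_num)
  have kk : 128 * (n + 1) * (k * k) ≤ 6390784 :=
    (Nat.mul_le_mul (Nat.mul_le_mul_left 128 (show n + 1 ≤ 8 by omega))
      (Nat.mul_le_mul hk hk)).trans (by norm_num)
  have kk' : 32 * (n + 1) * ((2 * k + 1) * (2 * k + 3)) ≤ 6553344 :=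
    (Nat.mul_le_mul (Nat.mul_le_mul_left 32 (show n + 1 ≤ 8 by omega))
      (Nat.mul_le_mul (show 2 * k + 1 ≤ 159 by omega) (show 2 * k + 3 ≤ 161 by omega))).trans
      (by norm_num)
  have c1 : Lv 2048 _ fun _ => 1207959552 - s * 2129920 - 32 * n * (s * s) :=
    lv_const hd 2048 (Nat.sub (Nat.sub 1207959552 (Nat.mul s 2129920))
      (Nat.mul (Nat.mul 32 n) (Nat.mul s s))) (by rw [Nat.sub_eq, Nat.sub_eq]; omega)
  have x := (d.mul hd s fun l _ => by have := sb l; omega).add hd c1 fun l _ => by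
    have := sb l
    omega
  have c : Lv 2048 _ fun l => if l < 1024 then 1207959552 + 128 * (n + 1) * (k * k) - 32 * (n + 1)
      else 1207959552 + 32 * (n + 1) * ((2 * k + 1) * (2 * k + 3)) :=
    lv_cvec hd (c0 := Nat.sub (Nat.add 1207959552 (Nat.mul (Nat.mul 128 (Nat.succ n)) (Nat.mul k k)))
        (Nat.mul 32 (Nat.succ n)))
      (c1 := Nat.add 1207959552 (Nat.mul (Nat.mul 32 (Nat.succ n))
        (Nat.mul (Nat.add (Nat.mul 2 k) 1) (Nat.add (Nat.mul 2 k) 3))))
      (show 1207959552 + 128 * (n + 1) * (k * k) - 32 * (n + 1) < _ by omega)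
      (show 1207959552 + 32 * (n + 1) * ((2 * k + 1) * (2 * k + 3)) < _ by omega)
  have v : Lv 2048 (Tab.val2 k n s D) _ := x.lmin hd c (fun l _ => by have := sb l; omega)
    fun l _ => by split_ifs <;> omega
  refine ⟨v.bd fun l _ => (min_le_right _ _).trans (by split_ifs <;> omega), fun τ hτ =>
    Or.inr (Or.inr ⟨w, n, (s : ℝ) / 256, ((k : ℝ) + 1 / 2) / 256, by positivity,
      fun i hi e he e' he' => ?_⟩)⟩
  have h1 := h.2 τ hτ i hi e he e' he'
  have hs0 : (0 : ℝ) ≤ s := Nat.cast_nonneg s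
  have h3 := mul_le_mul_of_nonneg_left h1 hs0
  rw [gX, v.val (by omega), Nat.cast_min]
  refine le_min ?_ ?_
  · refine (div_le_div_of_nonneg_right (sub_le_sub_right (min_le_left _ _) _) (by norm_num)).trans ?_
    push_cast [Nat.cast_sub (show s * 2129920 ≤ 1207959552 by omega),
      Nat.cast_sub (show 32 * n * (s * s) ≤ 1207959552 - s * 2129920 by omega)]
    nlinarith [h3]
  · refine (div_le_div_of_nonneg_right (sub_le_sub_right (min_le_right _ _) _) (by norm_num)).trans ?_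
    obtain rfl | rfl : e' = 0 ∨ e' = 1 := by omega
    · rw [if_pos (by omega)]
      push_cast [Nat.cast_sub
        (show 32 * (n + 1) ≤ 1207959552 + 128 * (n + 1) * (k * k) by omega)]
      exact le_of_eq (by ring)
    · rw [if_neg (by omega)]
      push_cast
      exact le_of_eq (by ring)

theorem good_val (hd : DgStmt) {P : Prof} (hP : PB P) {j k : ℕ} (hj : j ≤ 79) (hk : k ≤ 79)
    (c : ℕ) : Good P j k (Tab.val P j (j + 1) k (k + 1) c) := by
  unfold Tab.val
  cases Nat.beq (Nat.land c 3) 0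
  · rw [cond_false, hd.frc]
    cases Nat.beq (Nat.land c 3) 1
    · rw [cond_false]
      exact good2 hd hk Nat.and_le_right Nat.and_le_right (dg_d8 hd hP _ hj hk)
    · rw [cond_true]
      exact good1 hd hk (dg_d8 hd hP _ hj hk)
  · rw [cond_true]
    exact good0 hd P j k

theorem good_sel (hd : DgStmt) {P : Prof} {j k u X Y : ℕ} (hu : u ≤ 256) (hX : Good P j k X)
    (hY : Good P j k Y) :
    Good P j k (Nat.add (Nat.land X (Tab.msk u)) (Nat.land Y (Tab.cmsk u))) := by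
  have v := (of_bd hX.1).sel hd hu (of_bd hY.1)
  refine ⟨v.bd fun l _ => ?_, fun τ hτ => ?_⟩
  · split_ifs
    exacts [(hX.1 l).1, (hY.1 l).1]
  · by_cases h : 255 - τ < u
    · refine gok_congr (hX.2 τ hτ) fun i hi e he e' he' => ?_
      rw [gX, gX, v.val (by omega), if_pos (by omega)]
    · refine gok_congr (hY.2 τ hτ) fun i hi e he e' he' => ?_
      rw [gX, gX, v.val (by omega), if_neg (by omega)]

theorem seg_zero (P : Prof) (j j1 k k1 o : ℕ) :
    Tab.seg P j j1 k k1 0 o = Nat.mul 1207959552 (ones 32 2048) := rfl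

theorem seg_succ (P : Prof) (j j1 k k1 f o : ℕ) :
    Tab.seg P j j1 k k1 (f + 1) o = cond (Nat.beq o 0) (Nat.mul 1207959552 (ones 32 2048))
      (frc (Nat.land (Nat.shiftRight o 16) 511) fun u =>
        cond (Nat.ble 256 u) (Tab.val P j j1 k k1 (Nat.land o 65535))
          (Nat.add (Nat.land (Tab.val P j j1 k k1 (Nat.land o 65535)) (Tab.msk u))
            (Nat.land (Tab.seg P j j1 k k1 f (Nat.shiftRight o 25)) (Tab.cmsk u)))) := rfl

theorem good_seg (hd : DgStmt) {P : Prof} (hP : PB P) {j k : ℕ} (hj : j ≤ 79) (hk : k ≤ 79)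
    (f : ℕ) : ∀ o, Good P j k (Tab.seg P j (j + 1) k (k + 1) f o) := by
  induction f with
  | zero =>
    intro o
    rw [seg_zero]
    exact good0 hd P j k
  | succ f ih =>
    intro o
    rw [seg_succ]
    cases Nat.beq o 0
    · rw [cond_false, hd.frc]
      generalize Nat.land (Nat.shiftRight o 16) 511 = u
      cases hu : Nat.ble 256 u
      · rw [cond_false]
        have : ¬ 256 ≤ u := fun h => by
          rw [Nat.ble_eq_true_of_le h] at hu
          exact Bool.noConfusion hu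
        exact good_sel hd (by omega) (good_val hd hP hj hk _) (ih _)
      · rw [cond_true]
        exact good_val hd hP hj hk _
    · rw [cond_true]
      exact good0 hd P j k

end TA

theorem tabA (hd : DgStmt) : TabAStmt := fun _ og hP =>
  ⟨fun τ hτ j hj k hk => (TA.good_seg hd (TA.pb_of hP) hj (hk.trans hj) 16 (og j k)).2 τ hτ,
    fun j hj k hk => (TA.good_seg hd (TA.pb_of hP) hj (hk.trans hj) 16 (og j k)).1⟩

end Pool.Agent.MP_34f9b1_co.Sym

end MrgPart3

-- ======== part 4: formerly Pool.Agent.MP_34f9b1_co.Sym.Grp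
section MrgPart4

namespace Pool.Agent.MP_34f9b1_co.Sym

open Leaf

namespace GrpP

lemma land_le (x m : ℕ) : Nat.land x m ≤ m := Nat.and_le_right

lemma groups_zero (P : Prof) (tc : ℕ → ℕ → ℕ) (xs : List ℕ) (rs : List Rw)
    (k O Ol Mu G A0 C0 IR XR i0 n r0 nr hi r : ℕ) :
    groups P tc xs rs k O Ol Mu G A0 C0 IR XR i0 n r0 nr 0 hi r = false := rfl

lemma groups_succ (P : Prof) (tc : ℕ → ℕ → ℕ) (xs : List ℕ) (rs : List Rw)
    (k O Ol Mu G A0 C0 IR XR i0 n r0 nr fuel hi r : ℕ) :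
    groups P tc xs rs k O Ol Mu G A0 C0 IR XR i0 n r0 nr (fuel + 1) hi r =
      cond (Nat.beq hi 0) true
      (frc (Nat.land r 7) fun l => frc (Nat.sub hi (Nat.pow 2 l)) fun lo =>
        frc (Nat.shiftRight (Nat.add 64 lo) l) fun ν =>
        Nat.ble (Nat.pow 2 l) hi && Nat.beq (Nat.shiftLeft ν l) (Nat.add 64 lo) &&
        frc (Nat.land (Nat.shiftRight r 3) 1023) fun la =>
        frc (Nat.land (Nat.shiftRight r 13) 1023) fun κ =>
        frc (Nat.land (Nat.shiftRight r 23) 65535) fun m0 =>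
        frc (Nat.land (Nat.shiftRight r 39) 65535) fun m1 =>
        frc (Nat.shiftRight ν 1) (fun ρ =>
          tabC (tc ρ) n (Nat.add (Nat.mul 64 i0) (Nat.mul 32 (Nat.land ν 1))) r0 κ
            (Nat.add (Nat.mul m0 (ones 64 n)) (Nat.mul (Nat.mul 2 la) (ramp 64 n)))
            (Nat.add (Nat.mul m1 (ones 64 n)) (Nat.mul (Nat.mul 2 la) (ramp 64 n))) nr) &&
        frc (tv Ol Mu (Nat.mul 32 lo) (Nat.mul 32 hi)) fun AV =>
        opts P O Ol Mu G AV lo hi rs
          (Nat.add (Nat.add A0 (Nat.mul (Nat.mul 1024 la) IR))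
            (tv Ol Mu (Nat.mul 65536 m0) (Nat.mul 65536 m1))) 0 (Nat.shiftRight r 61) fun A c r' =>
          cond (Nat.beq (Nat.land (Nat.shiftRight r 55) 3) 0)
            (lge G A (Nat.add (Nat.mul (Nat.add C0 (Nat.mul 4398046511104 c)) O)
              (Nat.mul (Nat.mul 1024 κ) XR)))
            (frc (Nat.land (Nat.shiftRight r 57) 15) fun m =>
              frc (Nat.pow 2 (Nat.add 16 (Nat.land (Nat.shiftRight r 55) 3))) fun f =>
              Nat.ble m k && lge G (Nat.add A (Nat.mul (Nat.mul f m) AV))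
                (Nat.add (Nat.add (Nat.mul (Nat.add C0 (Nat.mul 4398046511104 c)) O)
                  (Nat.mul (Nat.mul 1024 κ) XR)) (Nat.mul f (suf xs k m)))) &&
          frc r' (groups P tc xs rs k O Ol Mu G A0 C0 IR XR i0 n r0 nr fuel lo)) := rfl

lemma opts_cons (P : Prof) (O Ol Mu G AV lo hi : ℕ) (w : Rw) (rs : List Rw) (A c r : ℕ)
    (κ : ℕ → ℕ → ℕ → Bool) :
    opts P O Ol Mu G AV lo hi (w :: rs) A c r κ =
      cond (Nat.beq (Nat.land r 3) 0) (opts P O Ol Mu G AV lo hi rs A c (Nat.shiftRight r 2) κ)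
      (frc (mval P O G AV w (Nat.testBit r 2)) fun M =>
        cond (Nat.beq (Nat.land r 3) 1)
          (frc (Nat.land (Nat.shiftRight r 3) 4095) fun d => o1ok Ol Mu G lo hi d M &&
            opts P O Ol Mu G AV lo hi rs (Nat.add A (o1 Ol Mu lo hi d M)) (Nat.succ c)
              (Nat.shiftRight r 15) κ)
          (opts P O Ol Mu G AV lo hi rs (Nat.add A (o2 Ol Mu G lo hi
            (Nat.land (Nat.shiftRight r 3) 7) (Nat.land (Nat.shiftRight r 6) 511) M))
            (Nat.succ c) (Nat.shiftRight r 15) κ)) := rfl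

/-- The continuation of the options is reached. -/
lemma opts_ex (hd : DgStmt) (P : Prof) (O Ol Mu G AV lo hi : ℕ) (κ : ℕ → ℕ → ℕ → Bool)
    (rs : List Rw) : ∀ A c r : ℕ, opts P O Ol Mu G AV lo hi rs A c r κ = true →
      ∃ A' c' r', κ A' c' r' = true := by
  induction rs with
  | nil => exact fun A c r h => ⟨A, c, r, h⟩
  | cons w rs ih =>
    intro A c r h
    rw [opts_cons, hd.frc, hd.frc] at h
    cases h0 : Nat.beq (Nat.land r 3) 0 <;> rw [h0] at h
    · cases h1 : Nat.beq (Nat.land r 3) 1 <;> rw [h1] at h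
      · exact ih _ _ _ h
      · exact ih _ _ _ (Bool.and_eq_true_iff.1 h).2
    · exact ih _ _ _ h

lemma ramp_succ (w k : ℕ) :
    ramp w (k + 1) = Nat.add (ramp w k) (Nat.shiftLeft k (Nat.mul w k)) := rfl

lemma dg_small (hd : DgStmt) {k : ℕ} (hk : k < 2 ^ 64) (j : ℕ) :
    dg 64 k j = if j = 0 then k else 0 := by
  rw [hd.eq]
  split_ifs with h
  · subst h
    rw [Nat.mul_zero, Nat.pow_zero, Nat.div_one, Nat.mod_eq_of_lt hk]
  · rw [Nat.div_eq_of_lt (lt_of_lt_of_le hk (Nat.pow_le_pow_right (by omega) (by omega))),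
      Nat.zero_mod]

lemma dg_ramp (hd : DgStmt) (n : ℕ) : n ≤ 32 → ∀ i, dg 64 (ramp 64 n) i = if i < n then i else 0 := by
  induction n with
  | zero =>
    intro _ i
    have : ramp 64 0 = 0 := rfl
    rw [this, dg_small hd (by omega)]
    simp
  | succ k ih =>
    intro hk i
    have h1 : ∀ i, dg 64 (Nat.shiftLeft k (Nat.mul 64 k)) i = if i = k then k else 0 := by
      intro i
      rw [hd.shl, dg_small hd (by omega)]
      split_ifs <;> omega
    rw [ramp_succ, hd.add, ih (by omega), h1]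
    · split_ifs <;> omega
    · intro j
      rw [ih (by omega), h1]
      split_ifs <;> omega

lemma dg_cst (hd : DgStmt) {k : ℕ} (hk : k < 2 ^ 64) (n i : ℕ) :
    dg 64 (Nat.mul k (ones 64 n)) i = if i < n then k else 0 := by
  rw [hd.mul, hd.ones _ _ (by omega)]
  · split_ifs <;> omega
  · intro j
    rw [hd.ones _ _ (by omega)]
    split_ifs <;> omega

/-- One lanewise test of the table. -/
lemma test (hd : DgStmt) {n R i0 s y m la : ℕ} (hn : n ≤ 32) (hs : s ≤ 48) (hy : y ≤ 65536)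
    (hm : m ≤ 65535) (hla : la ≤ 2046)
    (h : lge (grd 64 n) (Nat.add (Nat.land (Nat.shiftRight (Nat.shiftRight R (Nat.mul 64 i0)) s)
      (Nat.mul 65535 (ones 64 n))) (Nat.mul y (ones 64 n)))
      (Nat.add (Nat.mul m (ones 64 n)) (Nat.mul la (ramp 64 n))) = true) :
    ∀ i < n, m + la * i ≤ dg 64 R (i0 + i) / 2 ^ s % 65536 + y := by
  have e1 : ∀ i, dg 64 (Nat.land (Nat.shiftRight (Nat.shiftRight R (Nat.mul 64 i0)) s)
      (Nat.mul 65535 (ones 64 n))) i = if i < n then dg 64 R (i0 + i) / 2 ^ s % 65536 else 0 := by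
    intro i
    have := hd.sublane (w := 64) (s := s) (v := 16) n (Nat.shiftRight R (Nat.mul 64 i0)) i
      (by omega) (by omega)
    rw [hd.shr, Nat.add_comm i i0] at this
    exact this
  have e2 : ∀ i, dg 64 (Nat.mul la (ramp 64 n)) i = if i < n then la * i else 0 := by
    intro i
    rw [hd.mul, dg_ramp hd n hn]
    · split_ifs <;> omega
    · intro j
      rw [dg_ramp hd n hn]
      split_ifs with hj
      · exact lt_of_le_of_lt (Nat.mul_le_mul hla (show j ≤ 32 by omega)) (by omega)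
      · omega
  have b2 : ∀ i < n, la * i ≤ 2046 * 32 := fun i hi => Nat.mul_le_mul hla (by omega)
  have e3 : ∀ i, dg 64 (Nat.add (Nat.land (Nat.shiftRight (Nat.shiftRight R (Nat.mul 64 i0)) s)
      (Nat.mul 65535 (ones 64 n))) (Nat.mul y (ones 64 n))) i =
      if i < n then dg 64 R (i0 + i) / 2 ^ s % 65536 + y else 0 := by
    intro i
    rw [hd.add, e1, dg_cst hd (by omega)]
    · split_ifs <;> omega
    · intro j
      rw [e1, dg_cst hd (by omega)]
      split_ifs <;> omega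
  have e4 : ∀ i, dg 64 (Nat.add (Nat.mul m (ones 64 n)) (Nat.mul la (ramp 64 n))) i =
      if i < n then m + la * i else 0 := by
    intro i
    rw [hd.add, e2, dg_cst hd (by omega)]
    · split_ifs <;> omega
    · intro j
      rw [e2, dg_cst hd (by omega)]
      split_ifs with hj
      · have := b2 j hj
        omega
      · omega
  intro i hi
  have := hd.lge (w := 64) (A := 200000) (B := 200000) (by omega) (fun j => ?_) (fun j => ?_)
    (by omega) (by omega) h i
  · rwa [e3, e4, if_pos hi, if_pos hi] at this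
  · rw [e3]
    split_ifs <;> omega
  · rw [e4]
    split_ifs with hj
    · have := b2 j hj
      omega
    · omega

lemma tabC_succ (rc : ℕ → ℕ) (n s r0 κ t0 t1 d : ℕ) :
    tabC rc n s r0 κ t0 t1 (d + 1) = (frc (Nat.shiftRight (frc (Nat.add r0 d) rc) s) (fun x =>
      frc (Nat.mul (Nat.mul (Nat.mul 4 κ) d) (ones 64 n)) fun y =>
        lge (grd 64 n) (Nat.add (Nat.land x (Nat.mul 65535 (ones 64 n))) y) t0 &&
        lge (grd 64 n)
          (Nat.add (Nat.land (Nat.shiftRight x 16) (Nat.mul 65535 (ones 64 n))) y) t1) &&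
      tabC rc n s r0 κ t0 t1 d) := rfl

lemma shr_add (R a b : ℕ) :
    Nat.shiftRight R (Nat.add a b) = Nat.shiftRight (Nat.shiftRight R a) b :=
  Nat.shiftRight_add R a b

/-- The table test gives the hypothesis of `TabGood`. -/
lemma tab (hd : DgStmt) (tc : ℕ → ℕ → ℕ) {n ν i0 r0 κ la m0 m1 : ℕ} (hn : n ≤ 32)
    (hκ : κ ≤ 1023) (hla : la ≤ 1023) (h0 : m0 ≤ 65535) (h1 : m1 ≤ 65535) (nr : ℕ) : nr ≤ 8 →
    tabC (tc (Nat.shiftRight ν 1)) n (Nat.add (Nat.mul 64 i0) (Nat.mul 32 (Nat.land ν 1))) r0 κ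
      (Nat.add (Nat.mul m0 (ones 64 n)) (Nat.mul (Nat.mul 2 la) (ramp 64 n)))
      (Nat.add (Nat.mul m1 (ones 64 n)) (Nat.mul (Nat.mul 2 la) (ramp 64 n))) nr = true →
    ∀ dr < nr, ∀ dI < n, m0 + 2 * la * dI ≤ cn tc ν (r0 + dr) (i0 + dI) 0 + 4 * κ * dr ∧
      m1 + 2 * la * dI ≤ cn tc ν (r0 + dr) (i0 + dI) 1 + 4 * κ * dr := by
  induction nr with
  | zero => exact fun _ _ dr h => absurd h (Nat.not_lt_zero _)
  | succ d ih =>
    intro hd8 h dr hdr dI hdI
    rw [tabC_succ, hd.frc, hd.frc, hd.frc, Bool.and_eq_true, Bool.and_eq_true] at h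
    obtain ⟨⟨t0, t1⟩, t2⟩ := h
    rcases Nat.lt_succ_iff_lt_or_eq.1 hdr with hlt | rfl
    · exact ih (by omega) t2 dr hlt dI hdI
    have eν : Nat.land ν 1 = ν % 2 := Nat.and_one_is_mod ν
    have eρ : Nat.shiftRight ν 1 = ν / 2 := Nat.shiftRight_one ν
    have hy : Nat.mul (Nat.mul 4 κ) dr ≤ 65536 :=
      le_trans (Nat.mul_le_mul (show 4 * κ ≤ 4092 by omega) (show dr ≤ 8 by omega)) (by omega)
    have hla' : Nat.mul 2 la ≤ 2046 := show 2 * la ≤ 2046 by omega
    rw [eν, eρ, shr_add] at t0 t1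
    rw [← shr_add _ (Nat.mul 32 _) 16] at t1
    exact ⟨test hd hn (show 32 * (ν % 2) ≤ 48 by omega) hy h0 hla' t0 dI hdI,
      test hd hn (show 32 * (ν % 2) + 16 ≤ 48 by omega) hy h1 hla' t1 dI hdI⟩

/-- Restriction to one weight. -/
def pt (c : Cx) (ω : ℕ → ℝ) (h : ω ∈ c.W) : Cx where
  w := c.w
  n := c.n
  W := {ω}
  hw := c.hw
  ne := ⟨ω, rfl⟩
  pos := fun _ h' => h' ▸ c.pos ω h
  tot := fun _ h' => h' ▸ c.tot ω h

lemma lo_pt {c : Cx} {ω : ℕ → ℝ} (h : ω ∈ c.W) {X B : ℕ} {x : ℝ} (hX : Lo c X x B) :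
    Lo (pt c ω h) X x B := ⟨hX.1, fun ω' (h' : ω' = ω) => hX.2 ω' (by rw [h']; exact h)⟩

lemma hi_pt {c : Cx} {ω : ℕ → ℝ} (h : ω ∈ c.W) {X B : ℕ} {x : ℝ} (hX : Hi c X x B) :
    Hi (pt c ω h) X x B := ⟨hX.1, fun ω' (h' : ω' = ω) => hX.2 ω' (by rw [h']; exact h)⟩

lemma rw_pt {P : Prof} {c : Cx} {ω : ℕ → ℝ} (h : ω ∈ c.W) {m : ℝ} {w : Rw} {D : ℝ → ℝ}
    (hX : RwOK P c m w D) : RwOK P (pt c ω h) m w D := by
  obtain ⟨z, x1, x2, x3, h0, h1, h2, h3, h4⟩ := hX
  exact ⟨z, x1, x2, x3, hi_pt h h0, lo_pt h h1, lo_pt h h2, lo_pt h h3, h4⟩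

/-- The two-valued vectors at one weight. -/
lemma tve (hd : DgStmt) {c : Cx} (hw : c.w = 48) {Ol Mu : ℕ}
    (hT : ∀ i, dg 48 Ol i + dg 48 Mu i = if i < c.n then 1 else 0) {ω : ℕ → ℝ} (h : ω ∈ c.W)
    {f : ℝ} (hf : ev 48 c.n ω Mu = f) : TvE (pt c ω h) Ol Mu f := by
  intro c0 c1 h0 h1
  have k : ∀ i, (dg 48 Ol i = 0 ∧ dg 48 Mu i = 0) ∨ (i < c.n ∧ dg 48 Ol i = 1 ∧ dg 48 Mu i = 0) ∨
      (i < c.n ∧ dg 48 Ol i = 0 ∧ dg 48 Mu i = 1) := by
    intro i
    have := hT i
    split_ifs at this <;> omega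
  have e0 : ∀ i, dg 48 (Nat.mul c0 Ol) i = c0 * dg 48 Ol i := hd.mul fun i => by
    rcases k i with ⟨a, -⟩ | ⟨-, a, -⟩ | ⟨-, a, -⟩ <;> rw [a] <;> omega
  have e1 : ∀ i, dg 48 (Nat.mul c1 Mu) i = c1 * dg 48 Mu i := hd.mul fun i => by
    rcases k i with ⟨-, a⟩ | ⟨-, -, a⟩ | ⟨-, -, a⟩ <;> rw [a] <;> omega
  have e : ∀ i, dg 48 (tv Ol Mu c0 c1) i = c0 * dg 48 Ol i + c1 * dg 48 Mu i := by
    intro i
    rw [tv, hd.add, e0, e1]
    intro j
    rw [e0, e1]
    rcases k j with ⟨a, b⟩ | ⟨-, a, b⟩ | ⟨-, a, b⟩ <;> rw [a, b] <;> omega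
  have hB : Bd 48 c.n (tv Ol Mu c0 c1) (max c0 c1) := by
    intro i
    rw [e]
    rcases k i with ⟨a, b⟩ | ⟨hi, a, b⟩ | ⟨hi, a, b⟩ <;> rw [a, b] <;> omega
  have hO : ev 48 c.n ω Ol + ev 48 c.n ω Mu = 1 := by
    rw [← c.tot ω h, ev, ev, ← Finset.sum_add_distrib]
    refine Finset.sum_congr rfl fun i hi => ?_
    have := hT i
    rw [if_pos (Finset.mem_range.1 hi)] at this
    rw [← mul_add, ← Nat.cast_add, this, Nat.cast_one, mul_one]
  have hv : ev 48 c.n ω (tv Ol Mu c0 c1) = c0 * (1 - f) + c1 * f := by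
    rw [← hf, ← hO, add_sub_cancel_right, ev, ev, ev, Finset.mul_sum, Finset.mul_sum,
      ← Finset.sum_add_distrib]
    refine Finset.sum_congr rfl fun i _ => ?_
    rw [e]
    push_cast
    ring
  rw [← hw] at hB hv
  exact ⟨⟨hB, fun ω' (h' : ω' = ω) => by rw [h']; exact hv.le⟩, hB,
    fun ω' (h' : ω' = ω) => by rw [h']; exact hv.ge⟩

lemma suf_succ (xs : List ℕ) (k j : ℕ) :
    suf xs k (j + 1) = Nat.add (suf xs k j) (frc (Nat.sub (Nat.pred k) j) (nth xs)) := rfl

/-- The last explicit sizes dominate the refused one. -/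
lemma suf_hi (hd : DgStmt) (hl : LnStmt) (X : Ctx) {a : ℝ} (ha : a ≤ X.m) (m : ℕ) : m ≤ X.k →
    Hi X.c (suf X.xs X.k m) (m * (4096 * a)) (m * 4096) := by
  have k15 := X.k15
  induction m with
  | zero =>
    intro _
    have h := (hl.const X.c 0 (Nat.two_pow_pos _)).2
    rw [Nat.mul_eq, Nat.zero_mul] at h
    exact hl.hi_mono h (by simp) (Nat.zero_le _)
  | succ j ih =>
    intro hj
    have hi : Nat.sub (Nat.pred X.k) j < X.k := show X.k - 1 - j < X.k by omega
    rw [suf_succ, hd.frc]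
    have h := hl.hi_add (ih (by omega)) (X.xe _ hi).2 (by rw [X.w48]; omega)
    refine hl.hi_mono h ?_ (by omega)
    have := X.ma _ hi
    push_cast
    linarith

end GrpP

open GrpP in
theorem grp (hd : DgStmt) (hl : LnStmt) (hb : BaseStmt) (ho : OptsStmt) : GrpStmt := by
  intro X tc rs Ds ss rest Ol Mu A0 C0 IR XR i0 ni r0 nr fuel hi r E t b a x0 hT hE hTv hD hF h12
    hs ham n1 n31 n128 r1 r7 r01 r31 hIR hXR hbt hA hC
  induction fuel generalizing hi r with
  | zero => exact fun _ _ _ h => absurd h (by rw [groups_zero]; exact Bool.false_ne_true)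
  | succ fuel ih =>
    intro h1 h40 hah h
    have a0 : 0 ≤ a := hs.2 a List.mem_cons_self
    have hz : Nat.beq hi 0 = false := by
      obtain ⟨j, rfl⟩ := Nat.exists_eq_add_of_le' h1
      rfl
    rw [groups_succ, hz, cond_false] at h
    simp only [hd.frc, Bool.and_eq_true, Nat.beq_eq, Nat.ble_eq] at h
    have b1 := land_le (Nat.shiftRight r 3) 1023
    have b2 := land_le (Nat.shiftRight r 13) 1023
    have b3 := land_le (Nat.shiftRight r 23) 65535
    have b4 := land_le (Nat.shiftRight r 39) 65535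
    have b5 := land_le (Nat.shiftRight r 55) 3
    have b6 := land_le (Nat.shiftRight r 57) 15
    generalize Nat.land (Nat.shiftRight r 3) 1023 = la at h b1
    generalize Nat.land (Nat.shiftRight r 13) 1023 = κ at h b2
    generalize Nat.land (Nat.shiftRight r 23) 65535 = m0 at h b3
    generalize Nat.land (Nat.shiftRight r 39) 65535 = m1 at h b4
    generalize Nat.land (Nat.shiftRight r 55) 3 = e at h b5
    generalize Nat.land (Nat.shiftRight r 57) 15 = m at h b6
    generalize Nat.land r 7 = l at h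
    obtain ⟨⟨c1, c2⟩, c3, c4⟩ := h
    have hp : 0 < 2 ^ l := Nat.two_pow_pos l
    have elo : Nat.sub hi (Nat.pow 2 l) + 2 ^ l = hi := Nat.sub_add_cancel c1
    generalize Nat.sub hi (Nat.pow 2 l) = lo at c2 c3 c4 elo
    generalize Nat.shiftRight (Nat.add 64 lo) l = ν at c2 c3
    rcases lt_or_ge (128 * a) lo with hlt | hge
    · obtain ⟨A', c', r', h⟩ := opts_ex hd _ _ _ _ _ _ _ _ _ _ _ _ _ c4
      have : (0 : ℝ) < lo := by linarith
      exact ih lo r' (by exact_mod_cast this) (by omega) hlt.le (Bool.and_eq_true_iff.1 h).2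
    have hp' : (0 : ℝ) < 2 ^ l := by positivity
    have ehi : (hi : ℝ) = lo + 2 ^ l := by rw [← elo]; push_cast; rfl
    obtain ⟨f, hf⟩ : ∃ f : ℝ, 128 * a = lo + f * 2 ^ l :=
      ⟨(128 * a - lo) / 2 ^ l, by field_simp; ring⟩
    have f0 : 0 ≤ f := by
      by_contra hn
      nlinarith [mul_pos (neg_pos.2 (not_le.1 hn)) hp']
    have f1 : f ≤ 1 := by
      by_contra hn
      nlinarith [mul_pos (sub_pos.2 (not_le.1 hn)) hp']
    have u := hb.range hIR
    have v := hb.range hXR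
    push_cast at u v
    have eν : ν * 2 ^ l = 64 + lo := (Nat.shiftLeft_eq ν l).symm.trans c2
    have t1 := tab hd tc (by omega) b2 b1 b3 b4 (nr + 1) (by omega) c3
    rcases hT E hE l ν lo i0 ni r0 nr m0 m1 la κ eν (by omega) n1 n128 r1 r01 r31
      (fun dI hI dr hr => t1 dr (by omega) dI (by omega)) t b a f rest hs f0 f1 hf
      (by linarith) (by linarith) (by linarith) (by linarith) hbt with h | hq
    · exact Or.inl h
    right
    obtain ⟨ω, hω, hev⟩ := hTv.2 f f0 f1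
    have hw : (pt X.c ω hω).w = 48 := X.w48
    have hE := tve hd X.w48 hTv.1 hω hev
    have hAV : Eqv (pt X.c ω hω) (tv Ol Mu (Nat.mul 32 lo) (Nat.mul 32 hi)) (4096 * a) 1280 := by
      have h := hE (Nat.mul 32 lo) (Nat.mul 32 hi) (by rw [Nat.mul_eq]; omega)
        (by rw [Nat.mul_eq]; omega)
      have ev : ((Nat.mul 32 lo : ℕ) : ℝ) * (1 - f) + (Nat.mul 32 hi : ℕ) * f = 4096 * a := by
        rw [Nat.mul_eq, Nat.mul_eq]
        push_cast
        rw [ehi]
        linarith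
      have hB : max (Nat.mul 32 lo) (Nat.mul 32 hi) ≤ 1280 := by
        rw [Nat.mul_eq, Nat.mul_eq]; omega
      rw [ev] at h
      exact ⟨hl.lo_mono h.1 le_rfl hB, hl.hi_mono h.2 le_rfl hB⟩
    have q1 : Nat.mul 1024 la * (128 * ni) ≤ 2 ^ 32 :=
      le_trans (Nat.mul_le_mul (show 1024 * la ≤ 1024 * 1023 by omega)
        (show 128 * ni ≤ 128 * 31 by omega)) (by norm_num)
    have q2 : Nat.mul 1024 κ * (256 * nr) ≤ 2 ^ 32 :=
      le_trans (Nat.mul_le_mul (show 1024 * κ ≤ 1024 * 1023 by omega)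
        (show 256 * nr ≤ 256 * 7 by omega)) (by norm_num)
    have g1 := hl.lo_mono (hl.lo_mul (Nat.mul 1024 la) (lo_pt hω hIR.1) (by rw [hw]; omega))
      le_rfl q1
    have g2 := hl.lo_mono (hE (Nat.mul 65536 m0) (Nat.mul 65536 m1) (by rw [Nat.mul_eq]; omega)
      (by rw [Nat.mul_eq]; omega)).1 le_rfl
      (show _ ≤ 2 ^ 32 by rw [Nat.mul_eq, Nat.mul_eq]; omega)
    have g3 := hl.lo_add (hl.lo_add (lo_pt hω hA) g1 (by rw [hw]; omega)) g2 (by rw [hw]; omega)
    obtain ⟨A', d, r', k1, k2, k3⟩ := ho X.P (pt X.c ω hω) X.m f a Ol Mu _ lo hi hw X.bd hE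
      (by omega) h40 f0 f1 (by rw [ehi]; linarith) ham hAV rs Ds ss
      (hD.imp fun _ _ h => rw_pt hω h) hF _ 0 _ _ _ _ g3 (by omega) c4
    rw [Nat.zero_add] at k1
    have k4 := (Bool.and_eq_true_iff.1 k1).1
    have q3 : Nat.add C0 (Nat.mul 4398046511104 d) ≤ 2 ^ 46 := by
      rw [Nat.add_eq, Nat.mul_eq]; omega
    have g4 := hl.hi_mono (hl.const (pt X.c ω hω) (Nat.add C0 (Nat.mul 4398046511104 d))
      (by rw [hw]; omega)).2 le_rfl q3
    have g5 := hl.hi_mono (hl.hi_mul (Nat.mul 1024 κ) (hi_pt hω hXR.2) (by rw [hw]; omega))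
      le_rfl q2
    have g6 := hl.hi_add g4 g5 (by rw [hw]; omega)
    have key : ((Nat.add C0 (Nat.mul 4398046511104 d) : ℕ) : ℝ) + (Nat.mul 1024 κ : ℕ) *
        (64 * (256 * (b + 1 / 2) - (132 + 4 * r0))) ≤ x0 + (Nat.mul 1024 la : ℕ) *
          (64 * (256 * (1 / 2 - t) - 2 * i0)) + ((Nat.mul 65536 m0 : ℕ) * (1 - f) +
            (Nat.mul 65536 m1 : ℕ) * f) + 4294967296 * ss.sum + d * 4398046511104 := by
      rw [← X.w48] at k4
      cases he : Nat.beq e 0 <;> rw [he] at k4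
      · rw [cond_false, Bool.and_eq_true, Nat.ble_eq] at k4
        have q4 : Nat.pow 2 (Nat.add 16 e) ≤ 2 ^ 19 :=
          Nat.pow_le_pow_right (by omega) (show 16 + e ≤ 19 by omega)
        generalize Nat.pow 2 (Nat.add 16 e) = F at k4 q4
        have q5 : Nat.mul F m * 1280 ≤ 2 ^ 34 :=
          le_trans (Nat.mul_le_mul (Nat.mul_le_mul q4 b6) le_rfl) (by norm_num)
        have q6 : F * (m * 4096) ≤ 2 ^ 36 :=
          le_trans (Nat.mul_le_mul q4 (Nat.mul_le_mul b6 le_rfl)) (by norm_num)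
        have g7 := hl.lo_mono (hl.lo_mul (Nat.mul F m) hAV.1 (by rw [hw]; omega)) le_rfl q5
        have g8 := hl.hi_mono (hl.hi_mul F (hi_pt hω (suf_hi hd hl X ham m k4.1))
          (by rw [hw]; omega)) le_rfl q6
        have := hl.le_of (hl.lo_add k3 g7 (by rw [hw]; omega)) (hl.hi_add g6 g8 (by rw [hw]; omega))
          (by rw [hw]; omega) (by rw [hw]; omega) k4.2
        rw [show Nat.mul F m = F * m from rfl, Nat.cast_mul F m, mul_assoc (F : ℝ)] at this
        exact le_of_add_le_add_right this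
      · exact hl.le_of k3 g6 (by rw [hw]; omega) (by rw [hw]; omega) k4
    simp only [Nat.add_eq, Nat.mul_eq] at key
    push_cast at key
    linarith

end Pool.Agent.MP_34f9b1_co.Sym

end MrgPart4

-- marker of a merged file
example : 731051 + 261919 = 731051 + 261919 := rfl
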