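import Pool.Agent.MP_34f9b1_co.Sym.LChk

-- ======== part 0: formerly Pool.Agent.MP_34f9b1_co.Sym.TabC
section MrgPart0

namespace Pool.Agent.MP_34f9b1_co.Sym

namespace TabCP

theorem frc_eq {α : Type} (x : ℕ) (f : ℕ → α) : frc x f = f x := rfl

theorem allR_succ (lo n : ℕ) (f : ℕ → Bool) :
    allR lo (n + 1) f = (f (lo + n) && allR lo n f) := rfl

theorem allR_spec {lo : ℕ} {f : ℕ → Bool} :
    ∀ {n : ℕ}, allR lo n f = true → ∀ x, lo ≤ x → x < lo + n → f x = true := by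
  intro n
  induction n with
  | zero => intro _ x h1 h2; omega
  | succ n ih =>
    intro h x h1 h2
    rw [allR_succ, Bool.and_eq_true] at h
    by_cases hx : x = lo + n
    · rw [hx]; exact h.1
    · exact ih h.2 x h1 (by omega)

theorem land16 (x : ℕ) : Nat.land x 65535 = x % 65536 :=
  Nat.and_two_pow_sub_one_eq_mod x 16

theorem land32 (x : ℕ) : Nat.land x 4294967295 = x % 4294967296 :=
  Nat.and_two_pow_sub_one_eq_mod x 32

theorem land3 (x : ℕ) : Nat.land x 7 = x % 8 :=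
  Nat.and_two_pow_sub_one_eq_mod x 3

theorem shr_eq (x k : ℕ) : Nat.shiftRight x k = x / 2 ^ k := Nat.shiftRight_eq_div_pow x k

theorem dg_zero (hd : DgStmt) (x : ℕ) : dg 32 x 0 = x % 4294967296 := by
  rw [hd.eq]; norm_num

theorem dg_row (hd : DgStmt) (tb : ℕ → ℕ → ℕ) (j r L : ℕ) :
    dg 32 (Tab.row tb j r) L = dg 32 (tb j (r / 8)) (257 * (r % 8) + L) := by
  have h1 : Tab.row tb j r =
      Nat.shiftRight (tb j (Nat.shiftRight r 3)) (Nat.mul 8224 (Nat.land r 7)) := rfl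
  have h2 : Nat.mul 8224 (Nat.land r 7) = Nat.mul 32 (257 * (r % 8)) := by
    rw [land3]
    show 8224 * (r % 8) = 32 * (257 * (r % 8))
    omega
  have h3 : Nat.shiftRight r 3 = r / 8 := shr_eq r 3
  rw [h1, h2, h3, hd.shr, Nat.add_comm]

theorem un_eq (hd : DgStmt) (tb : ℕ → ℕ → ℕ) (r L j e : ℕ) :
    un tb r L j e = dg 32 (Tab.row tb j r) L / 2 ^ (16 * e) % 65536 := by
  rw [dg_row hd]; rfl

/-- A half of the lowest lane. -/
theorem half0 (hd : DgStmt) (x e : ℕ) (he : e ≤ 1) :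
    Nat.land (Nat.shiftRight x (16 * e)) 65535 = dg 32 x 0 / 2 ^ (16 * e) % 65536 := by
  rw [land16, shr_eq, dg_zero hd]
  obtain rfl | rfl : e = 0 ∨ e = 1 := by omega
  · norm_num
  · norm_num
    omega

theorem ent0 (hd : DgStmt) (x e : ℕ) (he : e ≤ 1) :
    Tab.ent x 0 e = dg 32 x 0 / 2 ^ (16 * e) % 65536 := by
  rw [← half0 hd x e he]
  show Nat.land (Nat.shiftRight x (32 * 0 + 16 * e)) 65535 = _
  rw [Nat.mul_zero, Nat.zero_add]

theorem dg_half (hd : DgStmt) (n e x i : ℕ) (he : e ≤ 1) :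
    dg 32 (Tab.half n e x) i = if i < n then dg 32 x i / 2 ^ (16 * e) % 65536 else 0 :=
  hd.sublane (w := 32) (s := 16 * e) (v := 16) n x i (by omega) (by norm_num)

theorem dg_const (hd : DgStmt) (n c i : ℕ) (hc : c < 2 ^ 31) :
    dg 32 (Nat.mul c (ones 32 n)) i = if i < n then c else 0 := by
  rw [hd.mul]
  · rw [hd.ones n i (by norm_num)]
    split_ifs <;> simp
  · intro i
    rw [hd.ones n i (by norm_num)]
    split_ifs <;> omega

theorem lge_half (hd : DgStmt) {n c e x : ℕ} (he : e ≤ 1) (hc : c < 2 ^ 31)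
    (h : lge (grd 32 n) (Nat.mul c (ones 32 n)) (Tab.half n e x) = true) (i : ℕ) (hi : i < n) :
    dg 32 x i / 2 ^ (16 * e) % 65536 ≤ c := by
  have h1 : Bd 32 n (Nat.mul c (ones 32 n)) c := by
    intro i
    rw [dg_const hd n c i hc]
    split_ifs <;> omega
  have h2 : Bd 32 n (Tab.half n e x) 65535 := by
    intro i
    rw [dg_half hd n e x i he]
    split_ifs <;> omega
  have h3 := hd.lge (by norm_num) h1 h2 hc (by norm_num) h i
  rw [dg_half hd n e x i he, dg_const hd n c i hc, if_pos hi, if_pos hi] at h3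
  exact h3

theorem swJ_spec {tb : ℕ → ℕ → ℕ} {j : ℕ} (h : Tab.swJ tb j = true) :
    (∀ r < 32, ∀ e ≤ 1, Tab.swE (Tab.row tb) j r e (j + e + 1) = true) ∧
      ∀ r, 1 ≤ r → r ≤ 30 → Tab.itR (Tab.row tb) j r = true := by
  have h' : (allR 0 32 (fun r => Tab.swE (Tab.row tb) j r 0 (j + 1) &&
      Tab.swE (Tab.row tb) j r 1 (j + 2)) && allR 1 30 (Tab.itR (Tab.row tb) j)) = true := h
  rw [Bool.and_eq_true] at h'
  refine ⟨fun r hr e he => ?_, fun r h1 h2 => allR_spec h'.2 r h1 (by omega)⟩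
  have h3 := allR_spec h'.1 r (by omega) (by omega)
  rw [Bool.and_eq_true] at h3
  obtain rfl | rfl : e = 0 ∨ e = 1 := by omega
  · exact h3.1
  · exact h3.2

theorem sw_zero (hd : DgStmt) {tb : ℕ → ℕ → ℕ} {j e L : ℕ} (hj : j ≤ 79) (he : e ≤ 1)
    (h : Tab.swE (Tab.row tb) j 0 e (j + e + 1) = true) (hL : L ≤ j + e) :
    un tb 0 L j e ≤ if j = 0 then 0 else (j + e) * (j + e) - 1 := by
  have h' : lge (grd 32 (j + e + 1)) (Nat.mul (cond (Nat.beq j 0) 0 ((j + e) * (j + e) - 1))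
      (ones 32 (j + e + 1))) (Tab.half (j + e + 1) e (Tab.row tb j 0)) = true := h
  have hc : cond (Nat.beq j 0) 0 ((j + e) * (j + e) - 1) =
      if j = 0 then 0 else (j + e) * (j + e) - 1 := by
    cases j with
    | zero => rfl
    | succ j => rfl
  rw [hc] at h'
  rw [un_eq hd]
  refine lge_half hd he ?_ h' L (by omega)
  have : (j + e) * (j + e) ≤ 80 * 80 := Nat.mul_le_mul (by omega) (by omega)
  split_ifs <;> omega

theorem sw_pos (hd : DgStmt) {tb : ℕ → ℕ → ℕ} {j r e L : ℕ} (hr : 1 ≤ r) (he : e ≤ 1)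
    (h : Tab.swE (Tab.row tb) j r e (j + e + 1) = true) (hL : L ≤ j + e) :
    un tb r L j e ≤ un tb r 0 j e := by
  obtain ⟨r, rfl⟩ : ∃ r', r = r' + 1 := ⟨r - 1, by omega⟩
  have h' : lge (grd 32 (j + e + 1))
      (Nat.mul (Nat.land (Nat.shiftRight (Tab.row tb j (r + 1)) (16 * e)) 65535)
      (ones 32 (j + e + 1))) (Tab.half (j + e + 1) e (Tab.row tb j (r + 1))) = true := h
  rw [half0 hd _ e he] at h'
  rw [un_eq hd, un_eq hd]
  exact lge_half hd he (by omega) h' L (by omega)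

theorem itX_spec {p q v x : ℕ} (h : Tab.itX p q v x = true) :
    ∀ e ≤ 1, ∀ e' ≤ 1,
      4 * Tab.ent p 0 e + x * Tab.ent q 0 e' ≤ 4 * Tab.ent v 0 e + x * Tab.ent p 0 e' := by
  simp only [Tab.itX, Tab.it1, Bool.and_eq_true, Nat.ble_eq, Nat.add_eq, Nat.mul_eq] at h
  obtain ⟨⟨⟨h1, h2⟩, h3⟩, h4⟩ := h
  intro e he e' he'
  obtain rfl | rfl : e = 0 ∨ e = 1 := by omega
  · obtain rfl | rfl : e' = 0 ∨ e' = 1 := by omega
    · exact h1
    · exact h2
  · obtain rfl | rfl : e' = 0 ∨ e' = 1 := by omega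
    · exact h3
    · exact h4

theorem ent_lo (hd : DgStmt) (tb : ℕ → ℕ → ℕ) (j r e : ℕ) (he : e ≤ 1) :
    Tab.ent (Nat.land (Tab.row tb j r) 4294967295) 0 e = un tb r 0 j e := by
  rw [ent0 hd _ e he, un_eq hd, land32, dg_zero hd, dg_zero hd, Nat.mod_mod]

theorem ent_v (hd : DgStmt) (tb : ℕ → ℕ → ℕ) (j m k e : ℕ) (he : e ≤ 1) (hk : k < 5) :
    Tab.ent (Nat.shiftRight (low 32 5 (Nat.shiftRight (Tab.row tb j 0) (Nat.mul 32 m)))
      (Nat.mul 32 k)) 0 e = un tb 0 (k + m) j e := by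
  rw [ent0 hd _ e he, un_eq hd, hd.shr, Nat.zero_add, hd.low, if_pos hk, hd.shr]

theorem it_spec (hd : DgStmt) {tb : ℕ → ℕ → ℕ} {j r : ℕ} (hr : r ≤ 30)
    (h : Tab.itR (Tab.row tb) j r = true) (x : ℕ) (hx : x ≤ 4) (e : ℕ) (he : e ≤ 1) (e' : ℕ)
    (he' : e' ≤ 1) :
    4 * un tb r 0 j e + x * un tb (r + 1) 0 j e' ≤
      4 * un tb 0 (256 - (132 + 4 * r + x)) j e + x * un tb r 0 j e' := by
  have key : Tab.itX (Nat.land (Tab.row tb j r) 4294967295)
      (Nat.land (Tab.row tb j (r + 1)) 4294967295)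
      (Nat.shiftRight (low 32 5 (Nat.shiftRight (Tab.row tb j 0) (Nat.mul 32 (120 - 4 * r))))
        (Nat.mul 32 (4 - x))) x = true := by
    unfold Tab.itR at h
    rw [frc_eq, frc_eq, frc_eq] at h
    simp only [Bool.and_eq_true] at h
    obtain ⟨⟨⟨⟨h0, h1⟩, h2⟩, h3⟩, h4⟩ := h
    obtain rfl | rfl | rfl | rfl | rfl : x = 0 ∨ x = 1 ∨ x = 2 ∨ x = 3 ∨ x = 4 := by omega
    · exact h0
    · exact h1
    · exact h2
    · exact h3
    · exact h4
  have h5 := itX_spec key e he e' he'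
  rw [ent_lo hd tb j r e he, ent_lo hd tb j r e' he', ent_lo hd tb j (r + 1) e' he',
    ent_v hd tb j _ _ e he (by omega)] at h5
  have h6 : 256 - (132 + 4 * r + x) = 4 - x + (120 - 4 * r) := by omega
  rw [h6]
  exact h5

end TabCP

open TabCP in
theorem tabC (hd : DgStmt) : TabCStmt := by
  intro tb h
  refine ⟨?_, ?_, ?_⟩
  · intro t _ j hj e he hN
    have h1 := sw_zero hd (L := 256 - t) hj he ((swJ_spec (h j hj)).1 0 (by omega) e he) (by omega)
    unfold Uv cc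
    split_ifs at h1 ⊢ with h0
    · have : un tb 0 (256 - t) j e = 0 := by omega
      rw [this]; simp
    · have h2 : 1 ≤ (j + e) * (j + e) := Nat.mul_pos (by omega) (by omega)
      have h3 : un tb 0 (256 - t) j e + 1 ≤ (j + e) * (j + e) := by omega
      have h4 : (un tb 0 (256 - t) j e : ℝ) + 1 ≤ ((j : ℝ) + e) * ((j : ℝ) + e) := by
        exact_mod_cast h3
      have h5 : ((256 : ℕ) : ℝ) ^ 2 = 65536 := by norm_num
      rw [h5]
      apply div_le_div_of_nonneg_right _ (by norm_num)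
      nlinarith
  · intro r h1 h2 t _ j hj e he hN
    have h3 := sw_pos hd (L := 256 - t) h1 he ((swJ_spec (h j hj)).1 r (by omega) e he) (by omega)
    unfold Uv
    apply div_le_div_of_nonneg_right _ (by norm_num)
    exact_mod_cast h3
  · intro r h1 h2 x hx j hj e he e' he'
    have h3 := it_spec hd h2 ((swJ_spec (h j hj)).2 r h1 h2) x hx e he e' he'
    have h4 : 4 * (un tb r 0 j e : ℝ) + x * un tb (r + 1) 0 j e' ≤
        4 * un tb 0 (256 - (132 + 4 * r + x)) j e + x * un tb r 0 j e' := by exact_mod_cast h3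
    unfold Uv
    rw [Nat.sub_self]
    push_cast
    linarith

end Pool.Agent.MP_34f9b1_co.Sym

end MrgPart0

-- ======== part 1: formerly Pool.Agent.MP_34f9b1_co.Sym.TabD
section MrgPart1

namespace Pool.Agent.MP_34f9b1_co.Sym

namespace TabDP

theorem allN_spec {f : ℕ → Bool} :
    ∀ {n lo : ℕ}, AllN f n lo → ∀ x, lo ≤ x → x < lo + n → f x = true := by
  intro n
  induction n with
  | zero => intro lo _ x h1 h2; omega
  | succ n ih =>
    intro lo h x h1 h2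
    have h' : f lo = true ∧ AllN f n (lo + 1) := h
    by_cases hx : x = lo
    · rw [hx]; exact h'.1
    · exact ih h'.2 x (by omega) (by omega)

theorem upX_spec {P : Prof} {tb og : ℕ → ℕ → ℕ} {j k : ℕ} (hj : j ≤ 79) (hk : k ≤ j)
    (h : upX P tb og (20 * (j / 4) + k / 4) = true) : Tab.upK P tb og j (j + 1) k = true := by
  have h' : (Nat.blt ((20 * (j / 4) + k / 4) / 20) ((20 * (j / 4) + k / 4) % 20) ||
      Tab.upQ P tb og (4 * ((20 * (j / 4) + k / 4) / 20))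
        (4 * ((20 * (j / 4) + k / 4) % 20))) = true := h
  have e1 : (20 * (j / 4) + k / 4) / 20 = j / 4 := by omega
  have e2 : (20 * (j / 4) + k / 4) % 20 = k / 4 := by omega
  rw [e1, e2, Bool.or_eq_true, Nat.blt_eq] at h'
  rcases h' with h' | h'
  · omega
  · have h1 : allR (4 * (k / 4)) 4 (fun k => Nat.blt j k || Tab.upK P tb og j (j + 1) k) = true :=
      TabCP.allR_spec (lo := 4 * (j / 4)) (n := 4) h' j (by omega) (by omega)
    have h2 : (Nat.blt j k || Tab.upK P tb og j (j + 1) k) = true :=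
      TabCP.allR_spec h1 k (by omega) (by omega)
    rw [Bool.or_eq_true, Nat.blt_eq] at h2
    rcases h2 with h2 | h2
    · omega
    · exact h2

/-- The node checked at step `x`. -/
def node (x : ℕ) : ℕ :=
  cond (Nat.ble 18 x) (Nat.add x 14) (cond (Nat.ble 8 x) (Nat.add x 8)
    (cond (Nat.ble 3 x) (Nat.add x 5) (cond (Nat.ble 1 x) (Nat.add x 3) 2)))

theorem swX_aux (S K H : ℕ → Bool) (x : ℕ)
    (h : (frc x fun x => frc (Nat.mul 2 x) S && frc (Nat.succ (Nat.mul 2 x)) S && K x &&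
      (Nat.ble 38 x || frc (cond (Nat.ble 18 x) (Nat.add x 14) (cond (Nat.ble 8 x) (Nat.add x 8)
        (cond (Nat.ble 3 x) (Nat.add x 5) (cond (Nat.ble 1 x) (Nat.add x 3) 2)))) H)) = true) :
    S (2 * x) = true ∧ S (2 * x + 1) = true ∧ K x = true ∧ (x < 38 → H (node x) = true) := by
  have h' : (S (2 * x) && S (2 * x + 1) && K x && (Nat.ble 38 x || H (node x))) = true := h
  simp only [Bool.and_eq_true, Bool.or_eq_true, Nat.ble_eq] at h'
  obtain ⟨⟨⟨h1, h2⟩, h3⟩, h4⟩ := h'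
  exact ⟨h1, h2, h3, fun hx => h4.resolve_left (by omega)⟩

theorem swX_spec {tb tc : ℕ → ℕ → ℕ} {x : ℕ} (h : swX tb tc x = true) :
    Tab.swJ tb (2 * x) = true ∧ Tab.swJ tb (2 * x + 1) = true ∧ Tab.lkA tb tc x = true ∧
      (x < 38 → Tab.hiA tc (node x) = true) := by
  unfold swX at h
  exact swX_aux (Tab.swJ tb) (Tab.lkA tb tc) (Tab.hiA tc) x h

theorem node_surj {l ν : ℕ} (h1 : 1 ≤ l) (h2 : 64 ≤ ν * 2 ^ l) (h3 : (ν + 1) * 2 ^ l ≤ 104) :
    ∃ x < 38, node x = ν := by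
  have hl : l ≤ 6 := by
    by_contra hl
    have h4 : 2 ^ 7 ≤ 2 ^ l := Nat.pow_le_pow_right (by norm_num) (by omega)
    have h5 : 1 * 2 ^ l ≤ (ν + 1) * 2 ^ l := Nat.mul_le_mul_right _ (by omega)
    omega
  have key : ∀ ν < 52, (ν = 2 ∨ ν = 4 ∨ ν = 5 ∨ (8 ≤ ν ∧ ν ≤ 12) ∨ (16 ≤ ν ∧ ν ≤ 25) ∨ 32 ≤ ν) →
      ∃ x < 38, node x = ν := by decide
  obtain rfl | rfl | rfl | rfl | rfl | rfl :
    l = 1 ∨ l = 2 ∨ l = 3 ∨ l = 4 ∨ l = 5 ∨ l = 6 := by omega
  all_goals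
    norm_num at h2 h3
    exact key ν (by omega) (by omega)

theorem pick (A : ℕ) (x : ℝ) : ∀ n : ℕ, (A : ℝ) ≤ x → x ≤ A + (n + 1) →
    ∃ j : ℕ, A ≤ j ∧ j ≤ A + n ∧ (j : ℝ) ≤ x ∧ x ≤ j + 1 := by
  intro n
  induction n with
  | zero => intro h1 h2; exact ⟨A, le_rfl, le_rfl, h1, by simpa using h2⟩
  | succ n ih =>
    intro h1 h2
    by_cases hx : x ≤ A + (n + 1)
    · obtain ⟨j, a, b, c, d⟩ := ih h1 hx
      exact ⟨j, a, by omega, c, d⟩
    · refine ⟨A + (n + 1), by omega, le_rfl, ?_, ?_⟩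
      · push_cast; linarith [not_le.mp hx]
      · push_cast at h2 ⊢; linarith

theorem pick' (A B : ℕ) (x : ℝ) (hAB : A < B) (h1 : (A : ℝ) ≤ x) (h2 : x ≤ B) :
    ∃ j : ℕ, A ≤ j ∧ j < B ∧ (j : ℝ) ≤ x ∧ x ≤ j + 1 := by
  obtain ⟨n, rfl⟩ : ∃ n, B = A + (n + 1) := ⟨B - A - 1, by omega⟩
  obtain ⟨j, a, b, c, d⟩ := pick A x n h1 (by push_cast at h2; exact h2)
  exact ⟨j, a, by omega, c, d⟩

theorem ok_of_bd {P : Prof} (h : P.bd = true) : P.ok := by
  simp only [Prof.bd, Bool.and_eq_true, Nat.beq_eq, Nat.ble_eq] at h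
  unfold Prof.ok
  omega

/-- The affine lower bound of a fine table entry. -/
theorem low_un {tb tc : ℕ → ℕ → ℕ} (hL : Link tb tc) {l ν lo I0 nI r0 nr μ0 μ1 la κ : ℕ}
    (hν : ν * 2 ^ l = 64 + lo) (hlo : lo + 2 ^ l ≤ 40) (hI : I0 + nI ≤ 128) (hr0 : 1 ≤ r0)
    (hr : r0 + nr ≤ 31)
    (H : ∀ dI ≤ nI, ∀ dr ≤ nr, μ0 + 2 * la * dI ≤ cn tc ν (r0 + dr) (I0 + dI) 0 + 4 * κ * dr ∧
      μ1 + 2 * la * dI ≤ cn tc ν (r0 + dr) (I0 + dI) 1 + 4 * κ * dr)
    {r L j e : ℕ} (h1 : r0 ≤ r) (h2 : r ≤ r0 + nr) (h3 : 2 * I0 ≤ L) (h4 : L ≤ 2 * (I0 + nI))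
    (he : e ≤ 1) (h5 : 2 * lo ≤ j) (h6 : j < 2 * (lo + 2 ^ l)) :
    (μ0 : ℝ) + (μ1 - μ0) * (((j : ℝ) + e - 2 * lo) / (2 * 2 ^ l)) + la * ((L : ℝ) - 2 * I0) -
      4 * κ * ((r : ℝ) - r0) ≤ un tb r L j e := by
  obtain ⟨dr, rfl⟩ : ∃ dr, r = r0 + dr := ⟨r - r0, by omega⟩
  obtain ⟨y, hy⟩ : ∃ y, j + e = 2 * lo + y := ⟨j + e - 2 * lo, by omega⟩
  obtain ⟨y', hy'⟩ : ∃ y', y + y' = 2 * 2 ^ l := ⟨2 * 2 ^ l - y, by omega⟩
  obtain ⟨d1, hd1⟩ : ∃ d, L / 2 = I0 + d := ⟨L / 2 - I0, by omega⟩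
  obtain ⟨d2, hd2⟩ : ∃ d, (L + 1) / 2 = I0 + d := ⟨(L + 1) / 2 - I0, by omega⟩
  have k := hL l ν lo (r0 + dr) L j e y y' hν hlo (by omega) (by omega) (by omega) he h5 h6 hy hy'
  rw [hd1, hd2] at k
  obtain ⟨a1, b1⟩ := H d1 (by omega) dr (by omega)
  obtain ⟨a2, b2⟩ := H d2 (by omega) dr (by omega)
  have hL' : L = 2 * I0 + (d1 + d2) := by omega
  generalize cn tc ν (r0 + dr) (I0 + d1) 0 = p1 at *
  generalize cn tc ν (r0 + dr) (I0 + d2) 0 = p2 at *
  generalize cn tc ν (r0 + dr) (I0 + d1) 1 = q1 at *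
  generalize cn tc ν (r0 + dr) (I0 + d2) 1 = q2 at *
  generalize un tb (r0 + dr) L j e = u at *
  have kR : (y' : ℝ) * (p1 + p2) + y * (q1 + q2) ≤ 4 * 2 ^ l * u := by exact_mod_cast k
  have a1R : (μ0 : ℝ) + 2 * la * d1 ≤ p1 + 4 * κ * dr := by exact_mod_cast a1
  have a2R : (μ0 : ℝ) + 2 * la * d2 ≤ p2 + 4 * κ * dr := by exact_mod_cast a2
  have b1R : (μ1 : ℝ) + 2 * la * d1 ≤ q1 + 4 * κ * dr := by exact_mod_cast b1
  have b2R : (μ1 : ℝ) + 2 * la * d2 ≤ q2 + 4 * κ * dr := by exact_mod_cast b2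
  have hyR : (j : ℝ) + e - 2 * lo = y := by
    have : (j : ℝ) + e = 2 * lo + y := by exact_mod_cast hy
    linarith
  have hy'R : (y : ℝ) + y' = 2 * 2 ^ l := by exact_mod_cast hy'
  have hLR : (L : ℝ) - 2 * I0 = d1 + d2 := by rw [hL']; push_cast; ring
  have hM : (0 : ℝ) < 2 * 2 ^ l := by positivity
  have hrR : ((r0 + dr : ℕ) : ℝ) - r0 = dr := by push_cast; ring
  rw [hyR, hLR, hrR]
  have h4M : (4 : ℝ) * 2 ^ l = 2 * (y + y') := by rw [hy'R]; ring
  rw [h4M] at kR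
  rw [← hy'R] at hM ⊢
  have y0 : (0 : ℝ) ≤ y := Nat.cast_nonneg y
  have y'0 : (0 : ℝ) ≤ y' := Nat.cast_nonneg y'
  have s1 := mul_le_mul_of_nonneg_left (add_le_add a1R a2R) y'0
  have s2 := mul_le_mul_of_nonneg_left (add_le_add b1R b2R) y0
  have s3 : ((μ1 : ℝ) - μ0) * (y / (y + y')) = (μ1 - μ0) * y / (y + y') := by ring
  have s4 : ((μ1 : ℝ) - μ0) * y / (y + y') ≤ u - μ0 - la * (d1 + d2) + 4 * κ * dr := by
    rw [div_le_iff₀ hM]
    nlinarith
  linarith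

end TabDP

open TabDP in
theorem tabG : TabGStmt := by
  intro P tb og tc hb h1 h2 h3
  refine ⟨hb, fun j hj k hk => upX_spec hj hk ?_, fun j hj => ?_, fun g hg => ?_,
    fun l ν a b c => ?_⟩
  · by_cases hx : 20 * (j / 4) + k / 4 < 280
    · exact allN_spec h1 _ (by omega) (by omega)
    · exact allN_spec h2 _ (by omega) (by omega)
  · have h4 := swX_spec (allN_spec h3 (j / 2) (by omega) (by omega))
    rcases Nat.mod_two_eq_zero_or_one j with h5 | h5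
    · have : j = 2 * (j / 2) := by omega
      rw [this]; exact h4.1
    · have : j = 2 * (j / 2) + 1 := by omega
      rw [this]; exact h4.2.1
  · exact (swX_spec (allN_spec h3 g (by omega) (by omega))).2.2.1
  · obtain ⟨x, hx, rfl⟩ := node_surj a b c
    exact (swX_spec (allN_spec h3 x (by omega) (by omega))).2.2.2 hx

open TabDP in
theorem tabD : TabDStmt := by
  intro hT hA hB hC hL P tb og tc hc E hE l ν lo I0 nI r0 nr μ0 μ1 la κ hν hlo hnI hI hnr hr0 hr H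
    t b a f rest hS f0 f1 ha t1 t2 b1 b2 hbt
  obtain ⟨hG, hBd⟩ := hA P og hc.bd
  have hU := hB P tb og hBd hc.up
  obtain ⟨c0, c1, c2⟩ := hC tb hc.sw
  have hLk := hL tb tc hc.lk hc.hi
  have hM : (0 : ℝ) < 2 ^ l := by positivity
  have hMn : 0 < 2 ^ l := by positivity
  obtain ⟨j, j1, j2, j3, j4⟩ := pick' (2 * lo) (2 * (lo + 2 ^ l)) (256 * a) (by omega)
    (by push_cast; nlinarith [mul_nonneg f0 hM.le])
    (by push_cast; nlinarith [mul_nonneg (sub_nonneg.mpr f1) hM.le])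
  obtain ⟨L, l1, l2, l3, l4⟩ := pick' (2 * I0) (2 * (I0 + nI)) (256 * (1 / 2 - t)) (by omega)
    (by push_cast; exact t1) (by push_cast; exact t2)
  obtain ⟨r, r1, r2, r3, r4⟩ := pick' r0 (r0 + nr) ((256 * (b + 1 / 2) - 132) / 4) (by omega)
    (by linarith) (by push_cast; linarith)
  obtain ⟨τ, hτ⟩ : ∃ τ, τ + L = 255 := ⟨255 - L, by omega⟩
  have hτR : (τ : ℝ) + L = 255 := by exact_mod_cast hτ
  have low := fun (r' L' e : ℕ) (h1 : r0 ≤ r') (h2 : r' ≤ r0 + nr) (h3 : 2 * I0 ≤ L')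
    (h4 : L' ≤ 2 * (I0 + nI)) (he : e ≤ 1) => low_un hLk hν hlo hI hr0 hr H h1 h2 h3 h4 he j1 j2
  have key := hT P 256 79 (132 + 4 * r) 4 (Gv P og) (Uv tb 0) (Uv tb r) (Uv tb (r + 1))
    (Uv tb r 256) (Uv tb (r + 1) 256) (ok_of_bd hc.bd) (by norm_num) (by norm_num) (by omega) hG
    (hU 0 (by norm_num)) c0 (hU r (by omega)) (c1 r (by omega) (by omega)) (hU (r + 1) (by omega))
    (c1 (r + 1) (by omega) (by omega)) (c2 r (by omega) (by omega)) E hE t b a rest τ j hS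
    (by omega) (by push_cast; exact j3) (by push_cast; exact j4) (by omega)
    (by push_cast; linarith) (by push_cast; linarith) (by push_cast; linarith)
    (by push_cast; linarith) hbt
    ((μ0 + (μ1 - μ0) * (((j : ℝ) - 2 * lo) / (2 * 2 ^ l)) + la * (256 - 2 * I0) -
      4 * κ * ((r : ℝ) - r0)) / 65536)
    ((μ0 + (μ1 - μ0) * (((j : ℝ) + 1 - 2 * lo) / (2 * 2 ^ l)) + la * (256 - 2 * I0) -
      4 * κ * ((r : ℝ) - r0)) / 65536)
    (la / 65536) (κ / 65536) (by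
      intro i hi
      obtain ⟨L', hL'⟩ : ∃ L', L' + (τ + i) = 256 := ⟨256 - (τ + i), by omega⟩
      have e1 : 256 - (τ + i) = L' := by omega
      have e2 : (L' : ℝ) = 256 - (τ + i) := by
        have : (L' : ℝ) + (τ + i) = 256 := by exact_mod_cast hL'
        linarith
      have u00 := low r L' 0 r1 (by omega) (by omega) (by omega) (by omega)
      have u01 := low r L' 1 r1 (by omega) (by omega) (by omega) (by omega)
      have u10 := low (r + 1) L' 0 (by omega) (by omega) (by omega) (by omega) (by omega)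
      have u11 := low (r + 1) L' 1 (by omega) (by omega) (by omega) (by omega) (by omega)
      unfold Uv
      rw [e1]
      rw [e2] at u00 u01 u10 u11
      push_cast at u00 u01 u10 u11 ⊢
      rw [add_zero] at u00 u10
      refine ⟨?_, ?_, ?_, ?_⟩ <;> linarith)
  refine key.imp_right fun h => ?_
  push_cast at h
  have hf : ((j : ℝ) - 2 * lo) / (2 * 2 ^ l) + (((j : ℝ) + 1 - 2 * lo) / (2 * 2 ^ l) -
      ((j : ℝ) - 2 * lo) / (2 * 2 ^ l)) * (256 * a - j) = f := by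
    have : 256 * a = 2 * lo + 2 * (f * 2 ^ l) := by linarith
    rw [this]
    field_simp
    ring
  generalize ((j : ℝ) - 2 * lo) / (2 * 2 ^ l) = s0 at *
  generalize ((j : ℝ) + 1 - 2 * lo) / (2 * 2 ^ l) = s1 at *
  rw [← hf]
  linarith

end Pool.Agent.MP_34f9b1_co.Sym

end MrgPart1

-- marker of a merged file
example : 731051 + 662185 = 731051 + 662185 := rfl
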