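import Mathlib.Tactic.Linarith
import Mathlib.Tactic.Ring
import Mathlib.Tactic.Positivity
import Mathlib.Algebra.BigOperators.Ring.Finset
import Mathlib.Algebra.Order.Field.Basic
import Pool.Agent.MP_34f9b1_co.Sym.LChk
import Pool.Agent.MP_34f9b1_co.Sym.Tail2
import Mathlib.Tactic.IntervalCases
import Mathlib.Tactic.FieldSimp
import Pool.Agent.MP_34f9b1_co.Sym.FastEq

-- ======== part 0: formerly Pool.Agent.MP_34f9b1_co.Sym.Ln
section MrgPart0

namespace Pool.Agent.MP_34f9b1_co.Sym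

open Finset

namespace Ln

theorem ev_lin {w n X Y Z : ℕ} {ω : ℕ → ℝ} (a b : ℝ)
    (h : ∀ i, (dg w Z i : ℝ) = a * dg w X i + b * dg w Y i) :
    ev w n ω Z = a * ev w n ω X + b * ev w n ω Y := by
  unfold ev
  rw [mul_sum, mul_sum, ← sum_add_distrib]
  exact sum_congr rfl fun i _ => by rw [h i]; ring

theorem ev_le {w n X Y Z : ℕ} {ω : ℕ → ℝ} (hω : ∀ i, 0 ≤ ω i) (a b : ℝ)
    (h : ∀ i, a * dg w X i + b * dg w Y i ≤ (dg w Z i : ℝ)) :
    a * ev w n ω X + b * ev w n ω Y ≤ ev w n ω Z := by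
  unfold ev
  rw [mul_sum, mul_sum, ← sum_add_distrib]
  refine sum_le_sum fun i _ => ?_
  have := mul_le_mul_of_nonneg_left (h i) (hω i)
  linarith

theorem ev_mono {w n X Y : ℕ} {ω : ℕ → ℝ} (hω : ∀ i, 0 ≤ ω i) (h : ∀ i, dg w X i ≤ dg w Y i) :
    ev w n ω X ≤ ev w n ω Y :=
  sum_le_sum fun i _ => mul_le_mul_of_nonneg_left (Nat.cast_le.2 (h i)) (hω i)

theorem ev_nonneg {w n X : ℕ} {ω : ℕ → ℝ} (hω : ∀ i, 0 ≤ ω i) : 0 ≤ ev w n ω X :=
  sum_nonneg fun i _ => mul_nonneg (hω i) (Nat.cast_nonneg _)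

theorem dg_const (h : DgStmt) {w n k : ℕ} (hw : 0 < w) (hk : k < 2 ^ w) (i : ℕ) :
    dg w (Nat.mul k (ones w n)) i = if i < n then k else 0 := by
  rw [h.mul (fun j => by rw [h.ones n j hw]; split_ifs <;> omega), h.ones n i hw]
  split_ifs <;> omega

theorem bd_const (h : DgStmt) {w n k : ℕ} (hw : 0 < w) (hk : k < 2 ^ w) :
    Bd w n (Nat.mul k (ones w n)) k := fun i => by
  rw [dg_const h hw hk]
  split_ifs <;> omega

theorem const (h : DgStmt) (c : Cx) (k : ℕ) (hk : k < 2 ^ c.w) :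
    Eqv c (Nat.mul k (ones c.w c.n)) k k := by
  have hw : 0 < c.w := by have := c.hw; omega
  have e : ∀ ω ∈ c.W, ev c.w c.n ω (Nat.mul k (ones c.w c.n)) = k := fun ω hω => by
    unfold ev
    rw [sum_congr rfl (g := fun i => ω i * (k : ℝ)) fun i hi => by
      rw [dg_const h hw hk, if_pos (mem_range.1 hi)], ← sum_mul, c.tot ω hω, one_mul]
  exact ⟨⟨bd_const h hw hk, fun ω hω => (e ω hω).le⟩, bd_const h hw hk, fun ω hω => (e ω hω).ge⟩

theorem add (h : DgStmt) {w n X Y A B : ℕ} (hX : Bd w n X A) (hY : Bd w n Y B)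
    (hs : A + B < 2 ^ w) : (∀ i, dg w (Nat.add X Y) i = dg w X i + dg w Y i) ∧
      Bd w n (Nat.add X Y) (A + B) ∧
      ∀ ω, ev w n ω (Nat.add X Y) = ev w n ω X + ev w n ω Y := by
  have e := h.add (w := w) (X := X) (Y := Y) fun i => by
    have := (hX i).1
    have := (hY i).1
    omega
  refine ⟨e, fun i => ?_, fun ω => ?_⟩
  · have := hX i
    have := hY i
    rw [e]
    omega
  · rw [ev_lin (X := X) (Y := Y) 1 1 fun i => by rw [e]; push_cast; ring]
    ring

theorem mul (h : DgStmt) {w n X A k : ℕ} (hX : Bd w n X A) (hs : k * A < 2 ^ w) :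
    Bd w n (Nat.mul k X) (k * A) ∧ ∀ ω, ev w n ω (Nat.mul k X) = k * ev w n ω X := by
  have e := h.mul (w := w) (X := X) (k := k) fun i =>
    (Nat.mul_le_mul_left k (hX i).1).trans_lt hs
  refine ⟨fun i => ?_, fun ω => ?_⟩
  · rw [e]
    exact ⟨Nat.mul_le_mul_left k (hX i).1, fun hi => by rw [(hX i).2 hi, Nat.mul_zero]⟩
  · rw [ev_lin (X := X) (Y := X) k 0 fun i => by rw [e]; push_cast; ring]
    ring

theorem sub (h : DgStmt) {w n X Y A : ℕ} (hw : 0 < w) (hX : Bd w n X A)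
    (hl : ∀ i, dg w Y i ≤ dg w X i) :
    Bd w n (Nat.sub X Y) A ∧ ∀ ω, ev w n ω (Nat.sub X Y) = ev w n ω X - ev w n ω Y := by
  have e := h.sub hw hl
  refine ⟨fun i => ?_, fun ω => ?_⟩
  · have := hX i
    rw [e]
    omega
  · rw [ev_lin (X := X) (Y := Y) 1 (-1) fun i => by rw [e, Nat.cast_sub (hl i)]; ring]
    ring

theorem wpos (c : Cx) : 0 < c.w := by have := c.hw; omega

theorem lo_add (h : DgStmt) {c : Cx} {X Y : ℕ} {x y : ℝ} {A B : ℕ} (hX : Lo c X x A)
    (hY : Lo c Y y B) (hs : A + B < 2 ^ c.w) : Lo c (Nat.add X Y) (x + y) (A + B) :=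
  ⟨(add h hX.1 hY.1 hs).2.1, fun ω hω => by
    rw [(add h hX.1 hY.1 hs).2.2]; exact add_le_add (hX.2 ω hω) (hY.2 ω hω)⟩

theorem hi_add (h : DgStmt) {c : Cx} {X Y : ℕ} {x y : ℝ} {A B : ℕ} (hX : Hi c X x A)
    (hY : Hi c Y y B) (hs : A + B < 2 ^ c.w) : Hi c (Nat.add X Y) (x + y) (A + B) :=
  ⟨(add h hX.1 hY.1 hs).2.1, fun ω hω => by
    rw [(add h hX.1 hY.1 hs).2.2]; exact add_le_add (hX.2 ω hω) (hY.2 ω hω)⟩

theorem lo_sub (h : DgStmt) {c : Cx} {X Y : ℕ} {x y : ℝ} {A B : ℕ} (hX : Lo c X x A)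
    (hY : Hi c Y y B) (hl : ∀ i, dg c.w Y i ≤ dg c.w X i) : Lo c (Nat.sub X Y) (x - y) A :=
  ⟨(sub h (wpos c) hX.1 hl).1, fun ω hω => by
    rw [(sub h (wpos c) hX.1 hl).2]; exact sub_le_sub (hX.2 ω hω) (hY.2 ω hω)⟩

theorem hi_sub (h : DgStmt) {c : Cx} {X Y : ℕ} {x y : ℝ} {A B : ℕ} (hX : Hi c X x A)
    (hY : Lo c Y y B) (hl : ∀ i, dg c.w Y i ≤ dg c.w X i) : Hi c (Nat.sub X Y) (x - y) A :=
  ⟨(sub h (wpos c) hX.1 hl).1, fun ω hω => by
    rw [(sub h (wpos c) hX.1 hl).2]; exact sub_le_sub (hX.2 ω hω) (hY.2 ω hω)⟩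

theorem le_const (h : DgStmt) {w n Y B k : ℕ} (hw : 0 < w) (hY : Bd w n Y B) (hk : B ≤ k)
    (hs : k < 2 ^ w) (i : ℕ) : dg w Y i ≤ dg w (Nat.mul k (ones w n)) i := by
  have := hY i
  rw [dg_const h hw hs]
  split_ifs <;> omega

theorem le_bias (h : DgStmt) {w n X Y A B k : ℕ} (hw : 0 < w) (hX : Bd w n X A)
    (hY : Bd w n Y B) (hk : B ≤ k) (hs : A + k < 2 ^ w) (i : ℕ) :
    dg w Y i ≤ dg w (Nat.add X (Nat.mul k (ones w n))) i := by
  have hk' : k < 2 ^ w := by omega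
  rw [(add h hX (bd_const h hw hk') hs).1]
  exact (le_const h hw hY hk hk' i).trans (Nat.le_add_left _ _)

theorem point (w n i : ℕ) (hw : 2 ≤ w) (hi : i < n) : ∃ c : Cx, c.w = w ∧ c.n = n ∧
    (∀ X x B, Lo c X x B ↔ Bd w n X B ∧ (dg w X i : ℝ) ≤ x) ∧
    ∀ X x B, Hi c X x B ↔ Bd w n X B ∧ x ≤ (dg w X i : ℝ) := by
  have e : ∀ X, ev w n (fun j => if j = i then 1 else 0) X = dg w X i := fun X => by
    unfold ev
    rw [sum_eq_single_of_mem i (mem_range.2 hi) fun j _ hj => by simp only [if_neg hj, zero_mul]]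
    simp only [if_true, one_mul]
  refine ⟨⟨w, n, {fun j => if j = i then 1 else 0}, hw, Set.singleton_nonempty _, ?_, ?_⟩,
    rfl, rfl, fun X x B => ?_, fun X x B => ?_⟩
  · rintro ω rfl j
    dsimp only
    split_ifs
    · exact zero_le_one
    · exact le_rfl
  · rintro ω rfl
    rw [sum_eq_single_of_mem i (mem_range.2 hi) fun j _ hj => if_neg hj, if_pos rfl]
  · exact and_congr_right fun _ => ⟨fun H => e X ▸ H _ rfl, fun H ω hω => by
      rw [show ω = _ from hω, e]; exact H⟩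
  · exact and_congr_right fun _ => ⟨fun H => e X ▸ H _ rfl, fun H ω hω => by
      rw [show ω = _ from hω, e]; exact H⟩

theorem shift {n s : ℕ} (hs : s ≤ n) (g : ℕ → ℝ) :
    ∑ j ∈ Ico n (2 * n - s), g (j - n + s) = ∑ j ∈ Ico s n, g j := by
  rw [sum_Ico_eq_sum_range, sum_Ico_eq_sum_range, show 2 * n - s - n = n - s by omega]
  exact sum_congr rfl fun j _ => by rw [show n + j - n + s = s + j by omega]

/-- The split weights. -/
noncomputable def spl (n s : ℕ) (ω : ℕ → ℝ) (r : ℝ) (j : ℕ) : ℝ :=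
  if j < s then ω j else if j < n then (1 - r) * ω j else r * ω (j - n + s)

theorem spl_top {n s : ℕ} (hs : s ≤ n) (ω g : ℕ → ℝ) (r : ℝ) :
    ∑ j ∈ Ico n (2 * n - s), spl n s ω r j * g (j - n + s) = r * ∑ j ∈ Ico s n, ω j * g j := by
  rw [← shift hs fun j => ω j * g j, mul_sum]
  refine sum_congr rfl fun j hj => ?_
  have := (mem_Ico.1 hj).1
  rw [spl, if_neg (by omega), if_neg (by omega), mul_assoc]

theorem spl_sum {n s : ℕ} (hs : s ≤ n) (ω g : ℕ → ℝ) (r : ℝ) :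
    ∑ j ∈ range (2 * n - s), spl n s ω r j * (if j < n then g j else g (j - n + s)) =
      ∑ j ∈ range n, ω j * g j := by
  rw [← sum_range_add_sum_Ico _ (show n ≤ 2 * n - s by omega), ← sum_range_add_sum_Ico _ hs,
    ← sum_range_add_sum_Ico (fun j => ω j * g j) hs]
  have e1 : ∑ j ∈ range s, spl n s ω r j * (if j < n then g j else g (j - n + s)) =
      ∑ j ∈ range s, ω j * g j := sum_congr rfl fun j hj => by
    have := mem_range.1 hj
    rw [spl, if_pos this, if_pos (by omega)]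
  have e2 : ∑ j ∈ Ico s n, spl n s ω r j * (if j < n then g j else g (j - n + s)) =
      (1 - r) * ∑ j ∈ Ico s n, ω j * g j := by
    rw [mul_sum]
    refine sum_congr rfl fun j hj => ?_
    have := mem_Ico.1 hj
    rw [spl, if_neg (by omega), if_pos this.2, if_pos this.2, mul_assoc]
  have e3 : ∑ j ∈ Ico n (2 * n - s), spl n s ω r j * (if j < n then g j else g (j - n + s)) =
      r * ∑ j ∈ Ico s n, ω j * g j := by
    rw [← spl_top hs]
    refine sum_congr rfl fun j hj => ?_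
    have := (mem_Ico.1 hj).1
    rw [if_neg (by omega)]
  rw [e1, e2, e3]
  ring

theorem dup (h : DgStmt) (w n s : ℕ) (ω : ℕ → ℝ) (f : ℝ) (hw : 0 < w) (hs : s ≤ n)
    (hω : ∀ i, 0 ≤ ω i) (ht : ∑ i ∈ range n, ω i = 1) (h0 : 0 ≤ f)
    (h1 : f ≤ ∑ i ∈ Ico s n, ω i) :
    ∃ ω' : ℕ → ℝ, (∀ i, 0 ≤ ω' i) ∧ ∑ i ∈ range (2 * n - s), ω' i = 1 ∧
      ∑ i ∈ Ico n (2 * n - s), ω' i = f ∧
      ∀ X B, Bd w n X B → ev w (2 * n - s) ω' (Sym.dup w n s X) = ev w n ω X := by
  obtain ⟨r, r0, r1, r2⟩ : ∃ r : ℝ, 0 ≤ r ∧ r ≤ 1 ∧ r * ∑ i ∈ Ico s n, ω i = f := by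
    rcases (h0.trans h1).eq_or_lt with e | e
    · exact ⟨0, le_rfl, zero_le_one, by linarith⟩
    · exact ⟨f / ∑ i ∈ Ico s n, ω i, div_nonneg h0 e.le, (div_le_one e).2 h1,
        div_mul_cancel₀ _ e.ne'⟩
  refine ⟨spl n s ω r, fun i => ?_, ?_, ?_, fun X B hX => ?_⟩
  · unfold spl
    split_ifs
    · exact hω i
    · exact mul_nonneg (sub_nonneg.2 r1) (hω i)
    · exact mul_nonneg r0 (hω _)
  · have := spl_sum hs ω (fun _ => 1) r
    simp only [ite_self, mul_one] at this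
    rw [this, ht]
  · have := spl_top hs ω (fun _ => 1) r
    simp only [mul_one] at this
    rw [this, r2]
  · unfold ev
    rw [← spl_sum hs ω (fun j => (dg w X j : ℝ)) r]
    refine sum_congr rfl fun j _ => ?_
    rw [(h.dup hw hs hX).2 j]
    split_ifs <;> rfl

end Ln

open Ln in
theorem lns (h : DgStmt) : LnStmt where
  lo_mono := fun hX hx hB =>
    ⟨fun i => ⟨(hX.1 i).1.trans hB, (hX.1 i).2⟩, fun ω hω => (hX.2 ω hω).trans hx⟩
  hi_mono := fun hX hx hB =>
    ⟨fun i => ⟨(hX.1 i).1.trans hB, (hX.1 i).2⟩, fun ω hω => hx.trans (hX.2 ω hω)⟩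
  const := Ln.const h
  lo_add := Ln.lo_add h
  hi_add := Ln.hi_add h
  lo_mul := fun k hX hs => ⟨(mul h hX.1 hs).1, fun ω hω => by
    rw [(mul h hX.1 hs).2]; exact mul_le_mul_of_nonneg_left (hX.2 ω hω) (Nat.cast_nonneg k)⟩
  hi_mul := fun k hX hs => ⟨(mul h hX.1 hs).1, fun ω hω => by
    rw [(mul h hX.1 hs).2]; exact mul_le_mul_of_nonneg_left (hX.2 ω hω) (Nat.cast_nonneg k)⟩
  lo_sub := Ln.lo_sub h
  hi_sub := Ln.hi_sub h
  lo_bsub := fun {c _ _ _ _ _ _} k hX hY hk hs =>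
    Ln.lo_sub h (Ln.lo_add h hX (Ln.const h c k (by omega)).1 hs) hY
      (le_bias h (wpos c) hX.1 hY.1 hk hs)
  hi_bsub := fun {c _ _ _ _ _ _} k hX hY hk hs =>
    Ln.hi_sub h (Ln.hi_add h hX (Ln.const h c k (by omega)).2 hs) hY
      (le_bias h (wpos c) hX.1 hY.1 hk hs)
  lo_csub := fun {c _ _ _} k hY hk hs =>
    Ln.lo_sub h (Ln.const h c k hs).1 hY (le_const h (wpos c) hY.1 hk hs)
  hi_csub := fun {c _ _ _} k hY hk hs =>
    Ln.hi_sub h (Ln.const h c k hs).2 hY (le_const h (wpos c) hY.1 hk hs)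
  lo_min := fun {c _ _ _ _ _ _} hX hY hA hB => by
    have e := h.lmin (wpos c) hX.1 hY.1 hA hB
    refine ⟨fun i => ?_, fun ω hω => le_min ?_ ?_⟩
    · have := hX.1 i
      have := hY.1 i
      rw [e]
      omega
    · exact (ev_mono (c.pos ω hω) fun i => by rw [e]; exact min_le_left _ _).trans (hX.2 ω hω)
    · exact (ev_mono (c.pos ω hω) fun i => by rw [e]; exact min_le_right _ _).trans (hY.2 ω hω)
  hi_max := fun {c _ _ _ _ _ _} hX hY hA hB => by
    have e := h.lmax (wpos c) hX.1 hY.1 hA hB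
    refine ⟨fun i => ?_, fun ω hω => max_le ?_ ?_⟩
    · have := hX.1 i
      have := hY.1 i
      rw [e]
      omega
    · exact (hX.2 ω hω).trans (ev_mono (c.pos ω hω) fun i => by rw [e]; exact le_max_left _ _)
    · exact (hY.2 ω hω).trans (ev_mono (c.pos ω hω) fun i => by rw [e]; exact le_max_right _ _)
  hi_lsub := fun {c X Y _ _ _ _} hX hY hA hB => by
    have e := h.lsub (wpos c) hX.1 hY.1 hA hB
    refine ⟨fun i => ?_, fun ω hω => max_le (ev_nonneg (c.pos ω hω)) ?_⟩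
    · have := hX.1 i
      rw [e]
      omega
    · have h1 := ev_le (n := c.n) (X := X) (Y := Y)
        (Z := lsub (c.w - 1) (grd c.w c.n) X Y) (c.pos ω hω) 1 (-1) fun i => by
          have : (dg c.w X i : ℝ) ≤ (dg c.w X i - dg c.w Y i : ℕ) + (dg c.w Y i : ℝ) := by
            exact_mod_cast le_tsub_add
          rw [e]
          linarith
      have h2 := hX.2 ω hω
      have h3 := hY.2 ω hω
      linarith
  le_of := fun {c _ _ _ _ _ _} hX hY hA hB hl => by
    obtain ⟨ω, hω⟩ := c.ne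
    exact (hY.2 ω hω).trans
      ((ev_mono (c.pos ω hω) (h.lge (wpos c) hX.1 hY.1 hA hB hl)).trans (hX.2 ω hω))
  bd_of := fun {w n _ _} k hw hX hA hk hl i => by
    have hk' : k < 2 ^ w := hk.trans_le (Nat.pow_le_pow_right (by omega) (by omega))
    exact ⟨(h.lge hw (bd_const h hw hk') hX hk hA hl i).trans (bd_const h hw hk' i).1, (hX i).2⟩
  point := Ln.point
  dup := Ln.dup h

end Pool.Agent.MP_34f9b1_co.Sym

end MrgPart0

-- ======== part 1: formerly Pool.Agent.MP_34f9b1_co.Sym.Pk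
section MrgPart1

namespace Pool.Agent.MP_34f9b1_co.Sym

namespace PkAux

variable {E : ℝ → ℝ → ℝ} {Q Q' R O : Pc → Prop} {l l' ex ex' : List ℝ} {m m' : ℝ}
  {L L' : ℝ → ℝ → Prop}

theorem mono (h : ∀ s, Q s → Q' s) : Pk E Q l → Pk E Q' l := by
  rintro ⟨S, h1, h2, h3⟩
  exact ⟨S, h1, h2, fun s hs => ⟨(h3 s hs).1, h s (h3 s hs).2⟩⟩

theorem sub (h : List.Subperm l' l) : Pk E Q l → Pk E Q l' := by
  rintro ⟨S, h1, h2, h3⟩
  obtain ⟨k, h4, h5⟩ := h.trans h1.symm.subperm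
  obtain ⟨S', h6, rfl⟩ := List.sublist_map_iff.1 h5
  exact ⟨S', h4, h2.sublist h6, fun s hs => h3 s (h6.subset hs)⟩

theorem union (h : Sep Q R) : Pk E Q l → Pk E R l' → Pk E (fun s => Q s ∨ R s) (l ++ l') := by
  rintro ⟨S, h1, h2, h3⟩ ⟨T, h4, h5, h6⟩
  refine ⟨S ++ T, by rw [List.map_append]; exact h1.append h4,
    List.pairwise_append.2 ⟨h2, h5, fun s hs t ht => h s t (h3 s hs).2 (h6 t ht).2⟩,
    fun s hs => ?_⟩
  rcases List.mem_append.1 hs with hs | hs
  · exact ⟨(h3 s hs).1, Or.inl (h3 s hs).2⟩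
  · exact ⟨(h6 s hs).1, Or.inr (h6 s hs).2⟩

theorem transport {E' : ℝ → ℝ → ℝ} (f : Pc → Pc) (ha : ∀ s, (f s).a = s.a)
    (hd : ∀ s t, Dis s t → Dis (f s) (f t)) (hi : ∀ s, In E s → Q s → In E' (f s) ∧ Q' (f s)) :
    Pk E Q l → Pk E' Q' l := by
  rintro ⟨S, h1, h2, h3⟩
  refine ⟨S.map f, ?_, h2.map f fun s t => hd s t, fun s hs => ?_⟩
  · rw [List.map_map]
    have : Pc.a ∘ f = Pc.a := funext ha
    rwa [this]
  · obtain ⟨t, ht, rfl⟩ := List.mem_map.1 hs
    exact hi t (h3 t ht).1 (h3 t ht).2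

theorem flip {b : ℝ} : Pk E (Ab b) l → Pk E (Be (-b)) l := by
  refine transport (fun s => ⟨s.a, -s.x, -s.y⟩) (fun _ => rfl) (fun s t h => ?_)
    fun s ⟨h1, h2, h3⟩ h4 => ⟨⟨?_, ?_, ?_⟩, ?_⟩
  · simp only [Dis] at h ⊢
    rcases h with h | h | h | h
    · exact Or.inr (Or.inl (by linarith))
    · exact Or.inl (by linarith)
    · exact Or.inr (Or.inr (Or.inr (by linarith)))
    · exact Or.inr (Or.inr (Or.inl (by linarith)))
  · simpa only [abs_neg] using h1
  · simp only [neg_neg]; linarith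
  · simp only; linarith
  · simp only [Ab, Be] at h4 ⊢; linarith

theorem ext_mirror {P : Prof} (h : Ext P E) : Ext P fun a y => E a (-y) where
  e1 a y h1 h2 := by
    have := h.e1 a y h1 h2
    simp only [neg_neg]; linarith
  e2 a y h1 h2 := h.e2 a (-y) h1 (by rwa [abs_neg])
  e3 a a' y l h1 h2 h3 h4 h5 := by
    have := h.e3 a a' (-y) l h1 h2 (by rwa [abs_neg]) h4 h5
    rwa [mul_neg] at this
  e4 a y h1 h2 := h.e4 a (-y) h1 (by rwa [abs_neg])

theorem mirror : Pk (fun a y => E a (-y)) (fun _ => True) l → Pk E (fun _ => True) l := by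
  refine transport (fun s => ⟨s.a, s.x, -s.y⟩) (fun _ => rfl) (fun s t h => ?_)
    fun s ⟨h1, h2, h3⟩ _ => ⟨⟨?_, h2, h3⟩, trivial⟩
  · simp only [Dis] at h ⊢
    rcases h with h | h | h | h
    · exact Or.inl h
    · exact Or.inr (Or.inl h)
    · exact Or.inr (Or.inr (Or.inr (by linarith)))
    · exact Or.inr (Or.inr (Or.inl (by linarith)))
  · simpa only [abs_neg] using h1

theorem srt_sub (h : List.Sublist l' l) (hs : Srt l) : Srt l' :=
  ⟨hs.1.sublist h, fun x hx => hs.2 x (h.subset hx)⟩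

theorem sqs_append (l l' : List ℝ) : sqs (l ++ l') = sqs l + sqs l' := by
  simp only [sqs, List.map_append, List.sum_append]

theorem sqs_perm (h : List.Perm l l') : sqs l = sqs l' := (h.map _).sum_eq

theorem sqs_cons (a : ℝ) (l : List ℝ) : sqs (a :: l) = a ^ 2 + sqs l := by
  simp only [sqs, List.map_cons, List.sum_cons]

theorem sqs_nil : sqs [] = 0 := rfl

theorem sqs_nonneg (l : List ℝ) : 0 ≤ sqs l := by
  induction l with
  | nil => exact le_rfl
  | cons a l ih => rw [sqs_cons]; positivity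

theorem ms_nil : MS E Q [] m fun _ s => 0 ≤ s :=
  ⟨fun l => l = [], rfl, fun l _ _ h => ⟨[], by simp [h], List.Pairwise.nil, by simp⟩,
    fun l _ _ _ _ => Or.inr (sqs_nonneg l)⟩

theorem ms_mono (h1 : ∀ s, Q s → Q' s) (h2 : List.Subperm ex' ex) (h3 : m' ≤ m)
    (h4 : ∀ a s, 0 ≤ a → a ≤ m' → L a s → L' a s) : MS E Q ex m L → MS E Q' ex' m' L' := by
  rintro ⟨F, f1, f2, f3⟩
  refine ⟨F, f1, fun l hl hm hF => mono h1 (sub (h2.append (List.Subperm.refl l))
    (f2 l hl (fun x hx => (hm x hx).trans h3) hF)), fun l a hl hm hF => ?_⟩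
  exact (f3 l a hl (fun x hx => (hm x hx).trans h3) hF).imp id
    (h4 a _ (hl.2 a (by simp)) (hm a (by simp)))

theorem ms_union (h : Sep Q R) : MS E Q ex m L → MS E R ex' m L' →
    MS E (fun s => Q s ∨ R s) (ex ++ ex') m (Plus L L') := by
  rintro ⟨F, f1, f2, f3⟩ ⟨G, g1, g2, g3⟩
  refine ⟨fun l => ∃ l1 l2, List.Perm l (l1 ++ l2) ∧ List.Sublist l1 l ∧ List.Sublist l2 l ∧
    F l1 ∧ G l2, ⟨[], [], List.Perm.refl _, List.Sublist.refl _, List.Sublist.refl _, f1, g1⟩,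
    ?_, ?_⟩
  · rintro l hl hm ⟨l1, l2, h1, h2, h3, h4, h5⟩
    refine sub (List.Perm.subperm ?_)
      (union h (f2 l1 (srt_sub h2 hl) (fun x hx => hm x (h2.subset hx)) h4)
        (g2 l2 (srt_sub h3 hl) (fun x hx => hm x (h3.subset hx)) h5))
    refine (h1.append_left _).trans ?_
    simp only [List.append_assoc]
    exact (List.perm_append_comm_assoc _ _ _).append_left _
  · rintro l a hl hm ⟨l1, l2, h1, h2, h3, h4, h5⟩
    have k2 : List.Sublist (l1 ++ [a]) (l ++ [a]) := h2.append_right _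
    have k3 : List.Sublist (l2 ++ [a]) (l ++ [a]) := h3.append_right _
    rcases f3 l1 a (srt_sub k2 hl) (fun x hx => hm x (k2.subset hx)) h4 with p | p
    · refine Or.inl ⟨l1 ++ [a], l2, (h1.append_right _).trans ?_, k2,
        h3.trans (List.sublist_append_left _ _), p, h5⟩
      simp only [List.append_assoc]
      exact List.perm_append_comm.append_left _
    rcases g3 l2 a (srt_sub k3 hl) (fun x hx => hm x (k3.subset hx)) h5 with q | q
    · refine Or.inl ⟨l1, l2 ++ [a], ?_, h2.trans (List.sublist_append_left _ _), k3, h4, q⟩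
      rw [← List.append_assoc]
      exact h1.append_right _
    · exact Or.inr ⟨sqs l1, sqs l2, by rw [sqs_perm h1, sqs_append], p, q⟩

theorem ms_run (h : Sep Q O) (hM : MS E Q ex m L) (hl : Srt l) (hm : ∀ x ∈ l, x ≤ m) :
    Pk E (fun s => Q s ∨ O s) (ex ++ l) ∨
      ∃ l1 a l2, l = l1 ++ a :: l2 ∧ L a (sqs l1) ∧ ¬ Pk E O (a :: l2) := by
  obtain ⟨F, f1, f2, f3⟩ := hM
  have key : ∀ l2 l1 : List ℝ, l = l1 ++ l2 → F l1 → Pk E (fun s => Q s ∨ O s) (ex ++ l) ∨
      ∃ l1 a l2, l = l1 ++ a :: l2 ∧ L a (sqs l1) ∧ ¬ Pk E O (a :: l2) := by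
    intro l2
    induction l2 with
    | nil =>
      intro l1 e hF
      rw [List.append_nil] at e
      exact Or.inl (mono (fun _ => Or.inl) (f2 l hl hm (e ▸ hF)))
    | cons a l2 ih =>
      intro l1 e hF
      have e' : l = (l1 ++ [a]) ++ l2 := by rw [e, List.append_assoc]; rfl
      have k : List.Sublist (l1 ++ [a]) l := e' ▸ List.sublist_append_left _ _
      have k1 : List.Sublist l1 l := (List.sublist_append_left _ _).trans k
      rcases f3 l1 a (srt_sub k hl) (fun x hx => hm x (k.subset hx)) hF with p | p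
      · exact ih _ e' p
      by_cases q : Pk E O (a :: l2)
      · have := union h (f2 l1 (srt_sub k1 hl) (fun x hx => hm x (k1.subset hx)) hF) q
        rw [List.append_assoc, ← e] at this
        exact Or.inl this
      · exact Or.inr ⟨l1, a, l2, e, p, q⟩
  exact key l [] rfl f1

theorem sqs_ge_mul {a : ℝ} (ha : 0 ≤ a) (r : List ℝ) (h : ∀ x ∈ r, a ≤ x) :
    a * r.sum ≤ sqs r ∧ r.length * a ^ 2 ≤ sqs r := by
  induction r with
  | nil => simp [sqs]
  | cons x r ih =>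
    obtain ⟨h1, h2⟩ := ih fun y hy => h y (List.mem_cons_of_mem _ hy)
    have h3 := h x List.mem_cons_self
    rw [sqs_cons, List.sum_cons, List.length_cons]
    push_cast
    constructor <;> nlinarith

theorem sqs_ge_tan (σ : ℝ) (r : List ℝ) : σ * r.sum - r.length * σ ^ 2 / 4 ≤ sqs r := by
  induction r with
  | nil => simp [sqs]
  | cons x r ih =>
    rw [sqs_cons, List.sum_cons, List.length_cons]
    push_cast
    nlinarith [sq_nonneg (x - σ / 2)]

theorem area0 {D : ℝ → ℝ} {a s : ℝ} : Fr D a s → 0 ≤ s := fun ⟨r, _, _, h⟩ =>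
  (sqs_nonneg r).trans h

theorem area1 {D : ℝ → ℝ} {a s lo d d0 : ℝ} (h : Fr D a s) (h1 : 0 ≤ lo) (h2 : lo ≤ a)
    (h3 : d ≤ D a) (h4 : d0 ≤ d) : lo * d + d0 * (a - lo) ≤ s := by
  obtain ⟨r, r1, r2, r3⟩ := h
  have ha : 0 ≤ a := h1.trans h2
  have h5 := (sqs_ge_mul ha r r1).1
  have h6 : a * d ≤ a * r.sum := mul_le_mul_of_nonneg_left (h3.trans r2.le) ha
  have h7 := mul_nonneg (sub_nonneg.2 h2) (sub_nonneg.2 h4)
  nlinarith

theorem area2 {D : ℝ → ℝ} {a s d : ℝ} (n : ℕ) (σ a0 : ℝ) (h : Fr D a s) (h1 : 0 ≤ a)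
    (h2 : 0 ≤ σ) (h3 : d ≤ D a) :
    min (σ * d - n * σ ^ 2 / 4) ((n + 1) * (2 * a0 * a - a0 ^ 2)) ≤ s := by
  obtain ⟨r, r1, r2, r3⟩ := h
  rcases le_or_gt r.length n with hn | hn
  · refine (min_le_left _ _).trans (le_trans ?_ ((sqs_ge_tan σ r).trans r3))
    have h4 : σ * d ≤ σ * r.sum := mul_le_mul_of_nonneg_left (h3.trans r2.le) h2
    have h5 : (r.length : ℝ) * σ ^ 2 ≤ n * σ ^ 2 :=
      mul_le_mul_of_nonneg_right (Nat.cast_le.2 hn) (sq_nonneg σ)
    linarith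
  · refine (min_le_right _ _).trans (le_trans ?_ ((sqs_ge_mul h1 r r1).2.trans r3))
    have h4 : (n : ℝ) + 1 ≤ r.length := by exact_mod_cast hn
    have h5 : 2 * a0 * a - a0 ^ 2 ≤ a ^ 2 := by nlinarith [sq_nonneg (a - a0)]
    exact (mul_le_mul_of_nonneg_left h5 (by positivity)).trans
      (mul_le_mul_of_nonneg_right h4 (sq_nonneg a))

end PkAux

theorem pk : PkStmt :=
  ⟨PkAux.mono, PkAux.sub, PkAux.union, PkAux.flip, PkAux.ext_mirror, PkAux.mirror, PkAux.ms_nil,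
    PkAux.ms_mono, PkAux.ms_union, PkAux.ms_run, PkAux.area0, PkAux.area1, PkAux.area2⟩

end Pool.Agent.MP_34f9b1_co.Sym

end MrgPart1

-- ======== part 2: formerly Pool.Agent.MP_34f9b1_co.Sym.TabB
section MrgPart2

namespace Pool.Agent.MP_34f9b1_co.Sym

namespace TabB

open Tab

attribute [local irreducible] dg

theorem d_const (hd : DgStmt) (k n i : ℕ) (hk : k < 4294967296) :
    dg 32 (Nat.mul k (ones 32 n)) i = if i < n then k else 0 := by
  rw [hd.mul, hd.ones n i (by decide)]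
  · split_ifs <;> simp
  · intro i
    rw [hd.ones n i (by decide)]
    split_ifs <;> omega

theorem d_small (hd : DgStmt) (k i : ℕ) (hk : k < 4294967296) :
    dg 32 k i = if i < 1 then k else 0 := by
  have h := d_const hd k 1 i hk
  have h1 : ones 32 1 = 1 := by decide
  rw [h1] at h
  simpa using h

theorem d_full (hd : DgStmt) (n i : ℕ) :
    dg 32 (Nat.pred (Nat.pow 2 (Nat.mul 32 n))) i = if i < n then 4294967295 else 0 := by
  have h : (2 ^ 32 - 1) ∣ (2 ^ 32) ^ n - 1 := Nat.sub_one_dvd_pow_sub_one _ _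
  rw [← pow_mul] at h
  have h2 : Nat.pred (Nat.pow 2 (Nat.mul 32 n)) = Nat.mul 4294967295 (ones 32 n) :=
    (Nat.mul_div_cancel' h).symm
  rw [h2]
  exact d_const hd 4294967295 n i (by decide)

theorem d_grd (hd : DgStmt) (n i : ℕ) :
    dg 32 (grd 32 n) i = if i < n then 2147483648 else 0 := by
  have h : ∀ y : ℕ, Nat.shiftLeft y (Nat.pred 32) = Nat.mul 2147483648 y := fun y =>
    (Nat.shiftLeft_eq y 31).trans (Nat.mul_comm _ _)
  unfold grd
  rw [h]
  exact d_const hd 2147483648 n i (by decide)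

attribute [local irreducible] ones grd low dup lmin

theorem d_rep8 (hd : DgStmt) {x B : ℕ} (hx : Bd 32 257 x B) :
    Bd 32 2056 (rep8 x) B ∧ ∀ p < 8, ∀ L < 257, dg 32 (rep8 x) (257 * p + L) = dg 32 x L := by
  obtain ⟨b1, e1⟩ := hd.dup (s := 0) (by decide) (by decide) hx
  obtain ⟨b2, e2⟩ := hd.dup (n := 514) (s := 0) (by decide) (by decide) b1
  obtain ⟨b3, e3⟩ := hd.dup (n := 1028) (s := 0) (by decide) (by decide) b2
  refine ⟨b3, fun p hp L hL => ?_⟩
  unfold rep8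
  rw [e3, e2, e2, e1, e1, e1, e1]
  split_ifs <;> exact congrArg _ (by omega)

theorem d_gA (hd : DgStmt) (x i : ℕ) :
    dg 32 (Nat.add (low 32 256 (Nat.shiftRight x 8192)) (Nat.shiftLeft 1610612736 8192)) i =
      if i < 256 then dg 32 x (i + 256) else if i = 256 then 1610612736 else 0 := by
  have h1 : ∀ i, dg 32 (low 32 256 (Nat.shiftRight x 8192)) i =
      if i < 256 then dg 32 x (i + 256) else 0 := fun i => by
    rw [hd.low, ← hd.shr 32 x 256 i]
  have h2 : ∀ i, dg 32 (Nat.shiftLeft 1610612736 8192) i =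
      if i = 256 then 1610612736 else 0 := fun i => by
    have h := hd.shl 32 1610612736 256 i
    rw [d_small hd 1610612736 _ (by decide)] at h
    refine Eq.trans h ?_
    split_ifs <;> omega
  rw [hd.add, h1, h2]
  · split_ifs <;> omega
  · intro i
    rw [h1, h2]
    have := hd.lt 32 x (i + 256)
    split_ifs <;> omega

theorem d_gB (hd : DgStmt) (x i : ℕ) :
    dg 32 (Nat.add (Nat.shiftLeft (low 32 256 x) 32) 1610612736) i =
      if i = 0 then 1610612736 else if i ≤ 256 then dg 32 x (i - 1) else 0 := by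
  have h1 : ∀ i, dg 32 (Nat.shiftLeft (low 32 256 x) 32) i =
      if i = 0 then 0 else if i ≤ 256 then dg 32 x (i - 1) else 0 := fun i => by
    have h := hd.shl 32 (low 32 256 x) 1 i
    rw [hd.low] at h
    refine Eq.trans h ?_
    split_ifs <;> omega
  rw [hd.add, h1, d_small hd 1610612736 _ (by decide)]
  · split_ifs <;> omega
  · intro i
    rw [h1, d_small hd 1610612736 _ (by decide)]
    have := hd.lt 32 x (i - 1)
    split_ifs <;> omega

theorem d_gmin (hd : DgStmt) {x : ℕ} (hx : ∀ i, dg 32 x i ≤ 1610612736) :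
    Bd 32 257 (gmin x) 1610612736 ∧ (∀ u < 256, dg 32 (gmin x) u ≤ dg 32 x (u + 256)) ∧
      ∀ u < 256, dg 32 (gmin x) (u + 1) ≤ dg 32 x u := by
  have bA : Bd 32 257
      (Nat.add (low 32 256 (Nat.shiftRight x 8192)) (Nat.shiftLeft 1610612736 8192))
      1610612736 := fun i => by
    rw [d_gA hd]
    have := hx (i + 256)
    constructor
    · split_ifs <;> omega
    · intro h
      split_ifs <;> omega
  have bB : Bd 32 257 (Nat.add (Nat.shiftLeft (low 32 256 x) 32) 1610612736) 1610612736 :=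
    fun i => by
    rw [d_gB hd]
    have := hx (i - 1)
    constructor
    · split_ifs <;> omega
    · intro h
      split_ifs <;> omega
  have h : ∀ i, dg 32 (gmin x) i = min _ _ :=
    hd.lmin (w := 32) (by decide) bA bB (by decide) (by decide)
  refine ⟨fun i => ?_, fun u hu => ?_, fun u hu => ?_⟩
  · rw [h]
    have a := bA i
    have b := bB i
    constructor
    · omega
    · intro hi
      have := a.2 hi
      omega
  · rw [h, d_gA hd, if_pos hu]
    exact min_le_left _ _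
  · rw [h, d_gB hd, if_neg (by omega), if_pos (by omega)]
    exact min_le_right _ _

attribute [local irreducible] gmin

theorem cq_le (j h : ℕ) (hh : h ≤ 80) : cq j h ≤ 819200 := by
  have : h * h ≤ 80 * 80 := Nat.mul_le_mul hh hh
  unfold cq
  cases Nat.beq j 0
  · show 128 * (h * h) - 32 ≤ 819200
    omega
  · show 0 ≤ 819200
    omega

attribute [local irreducible] rep8

theorem d_rhs (hd : DgStmt) {x : ℕ} (hx : ∀ i, dg 32 x i ≤ 1610612736) (j h : ℕ) (hh : h ≤ 80) :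
    Bd 32 2056 (rhs j h x) 1611431936 ∧ ∀ p < 8, ∀ L, L + h ≤ 256 →
      dg 32 (rhs j h x) (257 * p + L) = dg 32 (gmin x) (L + h) + cq j h := by
  have hc := cq_le j h hh
  have hg := (d_gmin hd hx).1
  have h1 : ∀ i, dg 32 (Nat.shiftRight (Nat.add (gmin x) (Nat.mul (cq j h) (ones 32 257)))
      (Nat.mul 32 h)) i = dg 32 (gmin x) (i + h) + if i + h < 257 then cq j h else 0 := fun i => by
    rw [hd.shr, hd.add, d_const hd (cq j h) 257 _ (by omega)]
    intro i
    rw [d_const hd (cq j h) 257 _ (by omega)]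
    have := (hg i).1
    split_ifs <;> omega
  have hb : Bd 32 257 (Nat.shiftRight (Nat.add (gmin x) (Nat.mul (cq j h) (ones 32 257)))
      (Nat.mul 32 h)) 1611431936 := fun i => by
    rw [h1]
    have a := hg (i + h)
    constructor
    · split_ifs <;> omega
    · intro hi
      rw [a.2 (by omega), if_neg (by omega)]
  obtain ⟨b, e⟩ := d_rep8 hd hb
  refine ⟨b, fun p hp L hL => ?_⟩
  unfold rhs
  rw [e p hp L (by omega), h1, if_pos (by omega)]

theorem d_xu (hd : DgStmt) (tb : ℕ → ℕ → ℕ) (j e b : ℕ) (he : e ≤ 1) (i : ℕ) :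
    dg 32 (xu tb j e b) i =
      if i < 2056 then 128 * (dg 32 (tb j b) i / 2 ^ (16 * e) % 65536) else 0 := by
  have h1 : ∀ i, dg 32 (Nat.land (Nat.shiftRight (tb j b) (Nat.mul 16 e))
      (Nat.mul 65535 (ones 32 2056))) i =
      if i < 2056 then dg 32 (tb j b) i / 2 ^ (16 * e) % 65536 else 0 := fun i =>
    hd.sublane (w := 32) (s := 16 * e) (v := 16) 2056 (tb j b) i (by omega) (by decide)
  unfold xu
  rw [hd.mul, h1]
  · split_ifs <;> rfl
  · intro i
    rw [h1]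
    split_ifs <;> omega

theorem d_hmsk (hd : DgStmt) (h : ℕ) (hh : h ≤ 80) (p : ℕ) (hp : p < 8) (L : ℕ) (h1 : h ≤ L)
    (h2 : L < 257) : dg 32 (hmsk h) (257 * p + L) = 4294967295 := by
  have e0 : ∀ i, dg 32 (Nat.sub (Nat.pred (Nat.pow 2 (Nat.mul 32 257)))
      (Nat.pred (Nat.pow 2 (Nat.mul 32 h)))) i =
      (if i < 257 then 4294967295 else 0) - if i < h then 4294967295 else 0 := fun i => by
    rw [hd.sub (by decide), d_full hd, d_full hd]
    intro i
    rw [d_full hd, d_full hd]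
    split_ifs <;> omega
  have hb : Bd 32 257 (Nat.sub (Nat.pred (Nat.pow 2 (Nat.mul 32 257)))
      (Nat.pred (Nat.pow 2 (Nat.mul 32 h)))) 4294967295 := fun i => by
    rw [e0]
    constructor
    · split_ifs <;> omega
    · intro hi
      split_ifs <;> omega
  have e := (d_rep8 hd hb).2 p hp L h2
  rw [e0, if_pos h2, if_neg (by omega)] at e
  exact e

attribute [local irreducible] xu hmsk rhs

theorem d_lhs (hd : DgStmt) (tb : ℕ → ℕ → ℕ) (j e h b : ℕ) (he : e ≤ 1) (hh : h ≤ 80) :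
    (∀ i, dg 32 (lhs tb j e h b) i ≤ 2147483648) ∧ ∀ p < 8, ∀ L, L + h ≤ 256 →
      dg 32 (lhs tb j e h b) (257 * p + L) +
        (128 * (dg 32 (tb j b) (257 * p + (L + h)) / 2 ^ (16 * e) % 65536) + 1207959552) =
        2147483648 := by
  have h1 : ∀ i, dg 32 (Nat.add (xu tb j e b) (Nat.mul 1207959552 (ones 32 2056))) i =
      if i < 2056 then 128 * (dg 32 (tb j b) i / 2 ^ (16 * e) % 65536) + 1207959552 else 0 :=
    fun i => by
    rw [hd.add, d_xu hd tb j e b he, d_const hd 1207959552 2056 _ (by decide)]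
    · split_ifs <;> rfl
    · intro i
      rw [d_xu hd tb j e b he, d_const hd 1207959552 2056 _ (by decide)]
      split_ifs <;> omega
  have h2 : ∀ i, dg 32 (lhs tb j e h b) i = (if i < 2056 then 2147483648 else 0) -
      ((if i + h < 2056 then 128 * (dg 32 (tb j b) (i + h) / 2 ^ (16 * e) % 65536) + 1207959552
        else 0) &&& dg 32 (hmsk h) (i + h)) := fun i => by
    unfold lhs
    rw [hd.sub (by decide), d_grd hd, hd.shr, hd.land, h1]
    intro i
    rw [d_grd hd, hd.shr, hd.land, h1]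
    refine le_trans Nat.and_le_left ?_
    split_ifs <;> omega
  refine ⟨fun i => ?_, fun p hp L hL => ?_⟩
  · rw [h2]
    refine le_trans (Nat.sub_le _ _) ?_
    split_ifs <;> omega
  · rw [h2, Nat.add_assoc, d_hmsk hd h hh p hp (L + h) (by omega) (by omega),
      if_pos (by omega), if_pos (by omega)]
    have a : ∀ y : ℕ, y &&& 4294967295 = y % 4294967296 := fun y =>
      Nat.and_two_pow_sub_one_eq_mod y 32
    rw [a]
    omega

attribute [local irreducible] lhs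

theorem upB_le (hd : DgStmt) (tb : ℕ → ℕ → ℕ) (j e h k e' b : ℕ) {x : ℕ}
    (hx : ∀ i, dg 32 x i ≤ 1610612736) (he : e ≤ 1) (he' : e' ≤ 1) (hh : h ≤ 80)
    (hu : upB tb j e h k e' (rhs j h x) b = true) (p : ℕ) (hp : p < 8) (L : ℕ) (hL : L + h ≤ 256) :
    128 * (dg 32 (tb j b) (257 * p + (L + h)) / 2 ^ (16 * e) % 65536) + 1207959552 ≤
      128 * (dg 32 (tb k b) (257 * p + L) / 2 ^ (16 * e') % 65536) +
        (dg 32 (gmin x) (L + h) + cq j h) := by
  obtain ⟨r1, r2⟩ := d_rhs hd hx j h hh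
  obtain ⟨l1, l2⟩ := d_lhs hd tb j e h b he hh
  have hxu : ∀ i, dg 32 (xu tb k e' b) i ≤ 8388608 := fun i => by
    rw [d_xu hd tb k e' b he']
    split_ifs <;> omega
  have a1 : ∀ i, dg 32 (Nat.add (xu tb k e' b) (rhs j h x)) i =
      dg 32 (xu tb k e' b) i + dg 32 (rhs j h x) i := hd.add fun i => by
    have := hxu i
    have := (r1 i).1
    omega
  have a2 : ∀ i, dg 32 (Nat.add (Nat.add (xu tb k e' b) (rhs j h x)) (lhs tb j e h b)) i =
      dg 32 (Nat.add (xu tb k e' b) (rhs j h x)) i + dg 32 (lhs tb j e h b) i :=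
    hd.add fun i => by
      rw [a1]
      have := hxu i
      have := (r1 i).1
      have := l1 i
      omega
  have hu' := Nat.eq_of_beq_eq_true hu
  have a3 := hd.land 32 (Nat.add (Nat.add (xu tb k e' b) (rhs j h x)) (lhs tb j e h b))
    (grd 32 2056) (257 * p + L)
  rw [hu', d_grd hd, if_pos (by omega)] at a3
  have a4 := le_trans (le_of_eq a3) Nat.and_le_left
  rw [a2, a1, d_xu hd tb k e' b he', if_pos (by omega), r2 p hp L hL] at a4
  have := l2 p hp L hL
  omega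

theorem upE_le (hd : DgStmt) (tb : ℕ → ℕ → ℕ) (j e h k e' : ℕ) {x : ℕ}
    (hx : ∀ i, dg 32 x i ≤ 1610612736) (he : e ≤ 1) (he' : e' ≤ 1) (hh : h ≤ 80)
    (hu : upE tb j e h k e' x = true) (r : ℕ) (hr : r < 32) (L : ℕ) (hL : L + h ≤ 256) :
    128 * un tb r (L + h) j e + 1207959552 ≤
      128 * un tb r L k e' + (dg 32 (gmin x) (L + h) + cq j h) := by
  unfold upE at hu
  rw [hd.frc] at hu
  simp only [Bool.and_eq_true] at hu
  obtain ⟨⟨⟨u0, u1⟩, u2⟩, u3⟩ := hu
  have hb : upB tb j e h k e' (rhs j h x) (r / 8) = true := by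
    have : r / 8 = 0 ∨ r / 8 = 1 ∨ r / 8 = 2 ∨ r / 8 = 3 := by omega
    rcases this with h | h | h | h <;> rw [h] <;> assumption
  exact upB_le hd tb j e h k e' (r / 8) hx he he' hh hb (r % 8) (by omega) L hL

theorem upK_E (hd : DgStmt) (P : Prof) (tb og : ℕ → ℕ → ℕ) (j k : ℕ)
    (hu : upK P tb og j (j + 1) k = true) (e : ℕ) (he : e ≤ 1) (e' : ℕ) (he' : e' ≤ 1) :
    upE tb j e (j + e) k e'
      (Nat.shiftRight (gs P og j k) (Nat.mul 32 (512 * (e + 2 * e')))) = true := by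
  unfold upK at hu
  rw [hd.frc, hd.frc] at hu
  simp only [Bool.and_eq_true] at hu
  obtain ⟨⟨⟨u0, u1⟩, u2⟩, u3⟩ := hu
  interval_cases e <;> interval_cases e'
  · exact u0
  · exact u2
  · exact u1
  · exact u3

theorem cq_cast (j e : ℕ) : (cq j (j + e) : ℝ) = 8388608 * cc 256 j e := by
  unfold cq cc
  by_cases hj : j = 0
  · subst hj
    simp
  · have hb : Nat.beq j 0 = false := by
      cases j with
      | zero => exact absurd rfl hj
      | succ n => rfl
    have h1 : 1 * 1 ≤ (j + e) * (j + e) := Nat.mul_le_mul (by omega) (by omega)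
    rw [hb, if_neg hj]
    show ((128 * ((j + e) * (j + e)) - 32 : ℕ) : ℝ) = _
    rw [Nat.cast_sub (by omega)]
    push_cast
    ring

end TabB

open TabB in
theorem tabB (hd : DgStmt) : TabBStmt := by
  intro P tb og hB hK r hr τ hτ j hj k hk i hi e he e' he' hle
  have hx : ∀ m, dg 32 (Nat.shiftRight (gs P og j k) (Nat.mul 32 (512 * (e + 2 * e')))) m ≤
      1610612736 := fun m => by
    rw [hd.shr]
    exact (hB j hj k hk _).1
  have h1 := upE_le hd tb j e (j + e) k e' hx he he' (by omega)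
    (upK_E hd P tb og j k (hK j hj k hk) e he e' he') r hr (256 - (τ + i + (j + e))) (by omega)
  have hL : 256 - (τ + i + (j + e)) + (j + e) = 256 - (τ + i) := by omega
  rw [hL] at h1
  obtain ⟨-, g1, g0⟩ := d_gmin hd hx
  have h2 : dg 32 (Tab.gmin (Nat.shiftRight (gs P og j k) (Nat.mul 32 (512 * (e + 2 * e')))))
      (256 - (τ + i)) ≤ dg 32 (gs P og j k) (256 * (i + 2 * e + 4 * e') + (255 - τ)) := by
    interval_cases i
    · have a := g0 (255 - τ) (by omega)
      rw [hd.shr] at a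
      convert a using 2 <;> omega
    · have a := g1 (255 - τ) (by omega)
      rw [hd.shr] at a
      convert a using 2 <;> omega
  have h3 : 128 * un tb r (256 - (τ + i)) j e + 1207959552 ≤
      128 * un tb r (256 - (τ + i + (j + e))) k e' +
        (dg 32 (gs P og j k) (256 * (i + 2 * e + 4 * e') + (255 - τ)) + Tab.cq j (j + e)) := by
    omega
  have h4 : ((128 * un tb r (256 - (τ + i)) j e + 1207959552 : ℕ) : ℝ) ≤
      ((128 * un tb r (256 - (τ + i + (j + e))) k e' +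
        (dg 32 (gs P og j k) (256 * (i + 2 * e + 4 * e') + (255 - τ)) +
          Tab.cq j (j + e)) : ℕ) : ℝ) := Nat.cast_le.2 h3
  push_cast at h4
  rw [cq_cast] at h4
  unfold Uv Gv
  linarith

end Pool.Agent.MP_34f9b1_co.Sym

end MrgPart2

-- ======== part 3: formerly Pool.Agent.MP_34f9b1_co.Sym.Vec
section MrgPart3

namespace Pool.Agent.MP_34f9b1_co.Sym

open Leaf

namespace VecAux

theorem nv_succ (p i : ℕ) : nv p (i + 1) = (2 * (nv p i).1 - s0 p i, (nv p i).1) := rfl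

theorem s0_cases (p i : ℕ) : s0 p i = 0 ∨ (Nat.testBit p i = true ∧ s0 p i = (nv p i).2) := by
  unfold s0
  cases Nat.testBit p i
  · exact Or.inl rfl
  · exact Or.inr ⟨rfl, rfl⟩

theorem nv_le (p i : ℕ) : (nv p i).2 ≤ (nv p i).1 := by
  induction i with
  | zero => exact Nat.zero_le _
  | succ i ih =>
    rw [nv_succ]
    rcases s0_cases p i with h | ⟨_, h⟩ <;> simp only [h] <;> omega

theorem s0_le (p i : ℕ) : s0 p i ≤ (nv p i).1 := by
  have := nv_le p i
  rcases s0_cases p i with h | ⟨_, h⟩ <;> omega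

theorem n_mono (p i : ℕ) : (nv p i).1 ≤ (nv p (i + 1)).1 := nv_le p (i + 1)

theorem mk_zero (p i : ℕ) :
    mk p i 0 = Nat.sub (ones 48 (nv p (i + 1)).1) (ones 48 (nv p i).1) := rfl

theorem mk_succ (p i d : ℕ) :
    mk p i (d + 1) = dup 48 (nv p (i + 1 + d)).1 (s0 p (i + 1 + d)) (mk p i d) := rfl

theorem dg_mk0 (hd : DgStmt) (p i t : ℕ) :
    dg 48 (mk p i 0) t = if (nv p i).1 ≤ t ∧ t < (nv p (i + 1)).1 then 1 else 0 := by
  have hm := n_mono p i
  rw [mk_zero, hd.sub (by norm_num)]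
  · rw [hd.ones _ _ (by norm_num), hd.ones _ _ (by norm_num)]
    split_ifs <;> omega
  · intro u
    rw [hd.ones _ _ (by norm_num), hd.ones _ _ (by norm_num)]
    split_ifs <;> omega

theorem bd_mk (hd : DgStmt) (p i d : ℕ) : Bd 48 (nv p (i + 1 + d)).1 (mk p i d) 1 := by
  induction d with
  | zero =>
    intro t
    rw [dg_mk0 hd]
    refine ⟨by split_ifs <;> omega, fun h => ?_⟩
    have h' : (nv p (i + 1)).1 ≤ t := h
    rw [if_neg (by omega)]
  | succ d ih =>
    rw [mk_succ]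
    exact (hd.dup (by norm_num) (s0_le p (i + 1 + d)) ih).1

theorem ev_mk0 (hd : DgStmt) (p i : ℕ) (ω : ℕ → ℝ) :
    ev 48 (nv p (i + 1)).1 ω (mk p i 0) = ∑ t ∈ Finset.Ico (nv p i).1 (nv p (i + 1)).1, ω t := by
  unfold ev
  rw [← Finset.sum_range_add_sum_Ico _ (n_mono p i)]
  rw [Finset.sum_eq_zero, zero_add]
  · refine Finset.sum_congr rfl fun t ht => ?_
    rw [dg_mk0 hd, if_pos (Finset.mem_Ico.1 ht)]
    simp
  · intro t ht
    have := Finset.mem_range.1 ht
    rw [dg_mk0 hd, if_neg (by omega)]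
    simp

theorem stage (hd : DgStmt) (hl : LnStmt) (p : ℕ) (F : ℕ → ℝ) (h0 : ∀ q, 0 ≤ F q)
    (h1 : ∀ q, F q ≤ 1) (hm : ∀ q, Nat.testBit p (q + 1) = true → F (q + 1) ≤ F q) (i : ℕ) :
    ∃ ω : ℕ → ℝ, (∀ t, 0 ≤ ω t) ∧ ∑ t ∈ Finset.range (nv p i).1, ω t = 1 ∧
      ∀ q d, q + 1 + d = i → ev 48 (nv p i).1 ω (mk p q d) = F q := by
  induction i with
  | zero =>
    refine ⟨fun _ => 1, fun _ => zero_le_one, ?_, fun q d h => by omega⟩
    show ∑ t ∈ Finset.range 1, (1 : ℝ) = 1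
    simp
  | succ i ih =>
    obtain ⟨ω, hp, ht, hq⟩ := ih
    have hf : F i ≤ ∑ t ∈ Finset.Ico (s0 p i) (nv p i).1, ω t := by
      have hz : s0 p i = 0 → F i ≤ ∑ t ∈ Finset.Ico (s0 p i) (nv p i).1, ω t := by
        intro h
        rw [h, ← Finset.range_eq_Ico, ht]
        exact h1 i
      rcases s0_cases p i with h | ⟨hb, h⟩
      · exact hz h
      · cases i with
        | zero => exact hz h
        | succ j =>
          have e : s0 p (j + 1) = (nv p j).1 := h
          rw [e, ← ev_mk0 hd, hq j 0 rfl]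
          exact hm j hb
    obtain ⟨ω', hp', ht', hi', he'⟩ :=
      hl.dup 48 (nv p i).1 (s0 p i) ω (F i) (by norm_num) (s0_le p i) hp ht (h0 i) hf
    refine ⟨ω', hp', ht', fun q d h => ?_⟩
    cases d with
    | zero =>
      have e : q = i := by omega
      subst e
      rw [ev_mk0 hd]
      exact hi'
    | succ d =>
      have e : q + 1 + d = i := by omega
      rw [mk_succ, e]
      have hb := bd_mk hd p q d
      rw [e] at hb
      exact (he' _ _ hb).trans (hq q d e)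

theorem pat_nil (i pl pu : ℕ) : pat [] i pl pu = 0 := rfl

theorem pat_cons (x : ℕ × ℕ) (t : Box) (i pl pu : ℕ) : pat (x :: t) i pl pu =
    cond (Nat.beq x.1 pl && Nat.beq x.2 pu) (2 ^ i) 0 + pat t (i + 1) x.1 x.2 := rfl

theorem pat_shift (b : Box) : ∀ i pl pu, pat b (i + 1) pl pu = 2 * pat b i pl pu := by
  induction b with
  | nil => intro i pl pu; rfl
  | cons x t ih =>
    intro i pl pu
    rw [pat_cons, pat_cons, ih (i + 1)]
    cases (Nat.beq x.1 pl && Nat.beq x.2 pu)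
    · simp only [cond_false]; omega
    · simp only [cond_true]; omega

theorem pat_bit (b : Box) : ∀ pl pu j, Nat.testBit (pat b 0 pl pu) j = true →
    j < b.length ∧ b.getD j (0, 0) = ((pl, pu) :: b).getD j (0, 0) := by
  induction b with
  | nil => intro pl pu j h; rw [pat_nil] at h; simp at h
  | cons x t ih =>
    intro pl pu j h
    rw [pat_cons, pat_shift] at h
    cases j with
    | zero =>
      refine ⟨by simp, ?_⟩
      cases hc : (Nat.beq x.1 pl && Nat.beq x.2 pu)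
      · rw [hc] at h
        simp only [cond_false, Nat.testBit_zero, decide_eq_true_eq] at h
        omega
      · rw [Bool.and_eq_true, Nat.beq_eq, Nat.beq_eq] at hc
        show x = (pl, pu)
        exact Prod.ext hc.1 hc.2
    | succ j =>
      rw [Nat.testBit_succ] at h
      have e : (cond (Nat.beq x.1 pl && Nat.beq x.2 pu) (2 ^ 0) 0 + 2 * pat t 0 x.1 x.2) / 2 =
          pat t 0 x.1 x.2 := by
        cases (Nat.beq x.1 pl && Nat.beq x.2 pu)
        · simp only [cond_false]; omega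
        · simp only [cond_true]; omega
      rw [e] at h
      obtain ⟨h1, h2⟩ := ih x.1 x.2 j h
      exact ⟨by simpa using h1, h2⟩

theorem okB_cons (x : ℕ × ℕ) (t : Box) :
    okB (x :: t) = (Nat.ble x.1 x.2 && Nat.ble x.2 4096 && okB t) := rfl

theorem okB_get (b : Box) (h : okB b = true) : ∀ j,
    (b.getD j (0, 0)).1 ≤ (b.getD j (0, 0)).2 ∧ (b.getD j (0, 0)).2 ≤ 4096 := by
  induction b with
  | nil => intro j; simp
  | cons x t ih =>
    rw [okB_cons, Bool.and_eq_true, Bool.and_eq_true, Nat.ble_eq, Nat.ble_eq] at h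
    intro j
    cases j with
    | zero => exact h.1
    | succ j => exact ih h.2 j

theorem vecs_cons (p O : ℕ) (x : ℕ × ℕ) (t : Box) (i d : ℕ) : vecs p O (x :: t) i d =
    Nat.add (Nat.mul x.1 O) (Nat.mul (x.2 - x.1) (mk p i d)) :: vecs p O t (i + 1) (d - 1) := rfl

theorem nth_vecs (p O : ℕ) (b : Box) : ∀ i d j, j < b.length →
    nth (vecs p O b i d) j = Nat.add (Nat.mul (b.getD j (0, 0)).1 O)
      (Nat.mul ((b.getD j (0, 0)).2 - (b.getD j (0, 0)).1) (mk p (i + j) (d - j))) := by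
  induction b with
  | nil => intro i d j h; simp at h
  | cons x t ih =>
    intro i d j h
    rw [vecs_cons]
    cases j with
    | zero => rfl
    | succ j =>
      have h' : j < t.length := by simpa using h
      have e := ih (i + 1) (d - 1) j h'
      have e1 : i + 1 + j = i + (j + 1) := by omega
      have e2 : d - 1 - j = d - (j + 1) := by omega
      rw [e1, e2] at e
      exact e

theorem dg_vec (hd : DgStmt) {n M lo up : ℕ} (hM : Bd 48 n M 1) (h1 : lo ≤ up) (h2 : up ≤ 4096)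
    (t : ℕ) : dg 48 (Nat.add (Nat.mul lo (ones 48 n)) (Nat.mul (up - lo) M)) t =
      lo * (if t < n then 1 else 0) + (up - lo) * dg 48 M t := by
  have a1 : ∀ u, lo * dg 48 (ones 48 n) u ≤ lo := fun u => by
    rw [hd.ones _ _ (by norm_num)]
    split_ifs <;> omega
  have a2 : ∀ u, (up - lo) * dg 48 M u ≤ up - lo := fun u => by
    have := Nat.mul_le_mul_left (up - lo) (hM u).1
    omega
  have b1 := hd.mul (w := 48) (k := lo) (X := ones 48 n) (fun u => by have := a1 u; omega)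
  have b2 := hd.mul (w := 48) (k := up - lo) (X := M) (fun u => by have := a2 u; omega)
  rw [hd.add (fun u => by rw [b1, b2]; have := a1 u; have := a2 u; omega), b1, b2,
    hd.ones _ _ (by norm_num)]

theorem bd_vec (hd : DgStmt) {n M lo up : ℕ} (hM : Bd 48 n M 1) (h1 : lo ≤ up) (h2 : up ≤ 4096) :
    Bd 48 n (Nat.add (Nat.mul lo (ones 48 n)) (Nat.mul (up - lo) M)) 4096 := by
  intro t
  rw [dg_vec hd hM h1 h2]
  have a2 := Nat.mul_le_mul_left (up - lo) (hM t).1
  refine ⟨by split_ifs <;> omega, fun h => ?_⟩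
  rw [if_neg (by omega), (hM t).2 h]
  simp

theorem ev_vec (hd : DgStmt) {n M lo up : ℕ} (hM : Bd 48 n M 1) (h1 : lo ≤ up) (h2 : up ≤ 4096)
    (ω : ℕ → ℝ) (ht : ∑ t ∈ Finset.range n, ω t = 1) :
    ev 48 n ω (Nat.add (Nat.mul lo (ones 48 n)) (Nat.mul (up - lo) M)) =
      lo + ((up : ℝ) - lo) * ev 48 n ω M := by
  unfold ev
  have e : (lo : ℝ) = ∑ t ∈ Finset.range n, ω t * lo := by
    rw [← Finset.sum_mul, ht, one_mul]
  rw [Finset.mul_sum]
  conv_rhs => congr; rw [e]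
  rw [← Finset.sum_add_distrib]
  refine Finset.sum_congr rfl fun t h => ?_
  rw [dg_vec hd hM h1 h2, if_pos (Finset.mem_range.1 h)]
  push_cast [Nat.cast_sub h1]
  ring

theorem srt_get {l : List ℝ} (h : Srt l) (j : ℕ) : l.getD (j + 1) 0 ≤ l.getD j 0 := by
  induction l generalizing j with
  | nil => simp
  | cons x t ih =>
    have ht : Srt t := ⟨(List.pairwise_cons.1 h.1).2, fun y hy => h.2 y (List.mem_cons_of_mem _ hy)⟩
    cases j with
    | zero =>
      cases t with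
      | nil => exact h.2 x (by simp)
      | cons y u => exact (List.pairwise_cons.1 h.1).1 y (by simp)
    | succ j => exact ih ht j

/-- Relative position of `x` in the interval `I`. -/
noncomputable def rel (I : ℕ × ℕ) (x : ℝ) : ℝ := (x - I.1) / ((I.2 : ℝ) - I.1)

theorem rel_nonneg {I : ℕ × ℕ} {x : ℝ} (h : (I.1 : ℝ) ≤ x) (h' : x ≤ I.2) : 0 ≤ rel I x :=
  div_nonneg (by linarith) (by linarith)

theorem rel_le {I : ℕ × ℕ} {x : ℝ} (h : (I.1 : ℝ) ≤ x) (h' : x ≤ I.2) : rel I x ≤ 1 :=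
  div_le_one_of_le₀ (by linarith) (by linarith)

theorem rel_mono {I : ℕ × ℕ} {x y : ℝ} (h : (I.1 : ℝ) ≤ x) (h' : x ≤ I.2) (hy : y ≤ x) :
    rel I y ≤ rel I x :=
  div_le_div_of_nonneg_right (by linarith) (by linarith)

theorem rel_eq {I : ℕ × ℕ} {x : ℝ} (h : (I.1 : ℝ) ≤ x) (h' : x ≤ I.2) :
    (I.1 : ℝ) + ((I.2 : ℝ) - I.1) * rel I x = x := by
  unfold rel
  by_cases e : (I.2 : ℝ) - I.1 = 0
  · rw [e, zero_mul]
    linarith
  · field_simp
    ring

end VecAux

open VecAux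

theorem vec (hd : DgStmt) (hl : LnStmt) : VecStmt := by
  intro b l hb hs hI
  generalize hp : pat b 0 4097 4097 = p
  have hM : ∀ j < b.length, Bd 48 (nv p (b.length + 1)).1 (mk p j (b.length - j)) 1 := by
    intro j hj
    have h := bd_mk hd p j (b.length - j)
    rwa [show j + 1 + (b.length - j) = b.length + 1 by omega] at h
  have key : ∀ f : ℝ, 0 ≤ f → f ≤ 1 → ∃ ω : ℕ → ℝ, ((∀ t, 0 ≤ ω t) ∧
      ∑ t ∈ Finset.range (nv p (b.length + 1)).1, ω t = 1 ∧
      ∀ j < b.length, ev 48 (nv p (b.length + 1)).1 ω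
        (nth (vecs p (ones 48 (nv p (b.length + 1)).1) b 0 b.length) j) = 4096 * l.getD j 0) ∧
      ev 48 (nv p (b.length + 1)).1 ω (mk p b.length 0) = f := by
    intro f f0 f1
    obtain ⟨ω, h0, h1, h2⟩ := stage hd hl p
      (fun q => if q < b.length then rel (b.getD q (0, 0)) (4096 * l.getD q 0) else f)
      (fun q => by
        split_ifs with h
        · exact rel_nonneg (hI q h).1 (hI q h).2
        · exact f0)
      (fun q => by
        split_ifs with h
        · exact rel_le (hI q h).1 (hI q h).2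
        · exact f1)
      (fun q h => by
        rw [← hp] at h
        obtain ⟨a1, a2⟩ := pat_bit b _ _ _ h
        have a3 : b.getD (q + 1) (0, 0) = b.getD q (0, 0) := a2
        have a4 : q < b.length := by omega
        rw [if_pos a1, if_pos a4, a3]
        have := srt_get hs q
        exact rel_mono (hI q a4).1 (hI q a4).2 (by linarith))
      (b.length + 1)
    refine ⟨ω, ⟨h0, h1, fun j hj => ?_⟩, ?_⟩
    · rw [nth_vecs _ _ _ _ _ _ hj, Nat.zero_add,
        ev_vec hd (hM j hj) (okB_get b hb j).1 (okB_get b hb j).2 ω h1,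
        h2 j (b.length - j) (by omega), if_pos hj]
      exact rel_eq (hI j hj).1 (hI j hj).2
    · rw [h2 b.length 0 rfl, if_neg (lt_irrefl _)]
  refine ⟨⟨48, (nv p (b.length + 1)).1, {ω | (∀ t, 0 ≤ ω t) ∧
      ∑ t ∈ Finset.range (nv p (b.length + 1)).1, ω t = 1 ∧
      ∀ j < b.length, ev 48 (nv p (b.length + 1)).1 ω
        (nth (vecs p (ones 48 (nv p (b.length + 1)).1) b 0 b.length) j) = 4096 * l.getD j 0},
      by norm_num, ?_, fun ω h => h.1, fun ω h => h.2.1⟩, rfl, rfl, fun j hj => ?_, fun t => ?_,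
      fun f f0 f1 => ?_⟩
  · obtain ⟨ω, h, _⟩ := key 0 le_rfl zero_le_one
    exact ⟨ω, h⟩
  · have hB : Bd 48 (nv p (b.length + 1)).1
        (nth (vecs p (ones 48 (nv p (b.length + 1)).1) b 0 b.length) j) 4096 := by
      rw [nth_vecs _ _ _ _ _ _ hj, Nat.zero_add]
      exact bd_vec hd (hM j hj) (okB_get b hb j).1 (okB_get b hb j).2
    exact ⟨⟨hB, fun ω h => (h.2.2 j hj).le⟩, ⟨hB, fun ω h => (h.2.2 j hj).ge⟩⟩
  · have hB : Bd 48 (nv p (b.length + 1)).1 (mk p b.length 0) 1 := bd_mk hd p b.length 0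
    have hle : ∀ u, dg 48 (mk p b.length 0) u ≤ dg 48 (ones 48 (nv p (b.length + 1)).1) u := by
      intro u
      rw [hd.ones _ _ (by norm_num)]
      have a1 := (hB u).1
      have a2 := (hB u).2
      split_ifs <;> omega
    show dg 48 (Nat.sub (ones 48 (nv p (b.length + 1)).1) (mk p b.length 0)) t +
      dg 48 (mk p b.length 0) t = if t < (nv p (b.length + 1)).1 then 1 else 0
    rw [hd.sub (by norm_num) hle, Nat.sub_add_cancel (hle t), hd.ones _ _ (by norm_num)]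
  · obtain ⟨ω, h, h'⟩ := key f f0 f1
    exact ⟨ω, h, h'⟩

end Pool.Agent.MP_34f9b1_co.Sym

end MrgPart3

-- ======== part 4: formerly Pool.Agent.MP_34f9b1_co.Sym.Obst
section MrgPart4

/-! Row OBST: soundness of the block and of the shortened rows. -/

namespace Pool.Agent.MP_34f9b1_co.Sym

open Leaf

namespace Obst

lemma land_le (r n : ℕ) : Nat.land r n ≤ n := Nat.and_le_right

lemma tz_low {P : Prof} (hP : P.bd = true) {a z : ℝ} (h0 : 0 ≤ a) (h1 : a ≤ 1) (hz : z ≤ 1 / 2) :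
    -32 ≤ Tz P a z := by
  simp only [Prof.bd, Bool.and_eq_true, Nat.ble_eq] at hP
  obtain ⟨⟨⟨⟨-, b1⟩, b2⟩, b3⟩, b4⟩ := hP
  have hy0 : 0 ≤ max 0 (z + a / 2) := le_max_left _ _
  have hy1 : max 0 (z + a / 2) ≤ 1 := max_le zero_le_one (by linarith)
  have key : ∀ α β : ℕ, β ≤ 32767 → -32 ≤ ln α β a (max 0 (z + a / 2)) := fun α β hβ => by
    have e1 : (β : ℝ) ≤ 32767 := by exact_mod_cast hβ
    have e2 : (0 : ℝ) ≤ α * (1 - a) := mul_nonneg (Nat.cast_nonneg _) (by linarith)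
    have e3 : (β : ℝ) * max 0 (z + a / 2) ≤ 32767 * 1 := mul_le_mul e1 hy1 hy0 (by norm_num)
    unfold ln
    linarith
  have := le_min (le_min (key P.a1 _ b1) (key P.a2 _ b2)) (le_min (key P.a3 _ b3) (key P.a4 _ b4))
  unfold Tz Tf
  linarith

section Lanes

variable (hd : DgStmt) (hl : LnStmt) {c : Cx} (hw : c.w = 48)
include hl hw

lemma eadd {X Y : ℕ} {x y : ℝ} {A B : ℕ} (hX : Eqv c X x A) (hY : Eqv c Y y B)
    (h : A + B < 2 ^ 48) : Eqv c (Nat.add X Y) (x + y) (A + B) :=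
  ⟨hl.lo_add hX.1 hY.1 (hw ▸ h), hl.hi_add hX.2 hY.2 (hw ▸ h)⟩

lemma emul {X : ℕ} {x : ℝ} {A : ℕ} (k : ℕ) (hX : Eqv c X x A) (h : k * A < 2 ^ 48) :
    Eqv c (Nat.mul k X) (k * x) (k * A) :=
  ⟨hl.lo_mul k hX.1 (hw ▸ h), hl.hi_mul k hX.2 (hw ▸ h)⟩

lemma econst (k : ℕ) (h : k < 2 ^ 48) : Eqv c (Nat.mul k (ones 48 c.n)) k k := by
  have := hl.const c k (hw ▸ h)
  rwa [hw] at this

lemma ezero : Eqv c 0 0 0 := by
  have := econst hl hw 0 (by norm_num)
  rwa [Nat.mul_eq, Nat.zero_mul, Nat.cast_zero] at this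

lemma lbsub {X Y : ℕ} {x y : ℝ} {A B : ℕ} (k : ℕ) (hX : Lo c X x A) (hY : Hi c Y y B) (h1 : B ≤ k)
    (h2 : A + k < 2 ^ 48) :
    Lo c (Nat.sub (Nat.add X (Nat.mul k (ones 48 c.n))) Y) (x + k - y) (A + k) := by
  have := hl.lo_bsub k hX hY h1 (hw ▸ h2)
  rwa [hw] at this

lemma lmin' {X Y : ℕ} {x y : ℝ} {A B : ℕ} (hX : Lo c X x A) (hY : Lo c Y y B) (h1 : A < 2 ^ 47)
    (h2 : B < 2 ^ 47) : Lo c (lmin 47 (grd 48 c.n) X Y) (min x y) (min A B) := by
  have := hl.lo_min hX hY (by rw [hw]; exact h1) (by rw [hw]; exact h2)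
  rwa [hw] at this

lemma hlsub {X Y : ℕ} {x y : ℝ} {A B : ℕ} (hX : Hi c X x A) (hY : Lo c Y y B) (h1 : A < 2 ^ 47)
    (h2 : B < 2 ^ 47) : Hi c (lsub 47 (grd 48 c.n) X Y) (max 0 (x - y)) A := by
  have := hl.hi_lsub hX hY (by rw [hw]; exact h1) (by rw [hw]; exact h2)
  rwa [hw] at this

lemma leof {X Y : ℕ} {x y : ℝ} {A B : ℕ} (hX : Lo c X x A) (hY : Hi c Y y B) (h1 : A < 2 ^ 47)
    (h2 : B < 2 ^ 47) (h : lge (grd 48 c.n) X Y = true) : y ≤ x :=
  hl.le_of hX hY (by rw [hw]; exact h1) (by rw [hw]; exact h2) (by rw [hw]; exact h)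

lemma capT_ok {l y Yb : ℕ} {sg : Bool} {u Y : ℝ} (hy : Hi c y (16384 * u) 24576)
    (hY : Eqv c Yb (16384 * (Y + 1 / 2)) 24576)
    (h : capT (ones 48 c.n) (grd 48 c.n) l y Yb sg = true) : l ≤ 8 ∧ u ≤ l / 8 * |Y| := by
  simp only [capT, Bool.and_eq_true, Nat.ble_eq] at h
  obtain ⟨h8, h⟩ := h
  refine ⟨h8, ?_⟩
  have e1 := emul hl hw l hY (by omega)
  have e2 := econst hl hw (Nat.mul l 8192) (by rw [Nat.mul_eq]; omega)
  have e3 := hl.hi_mul 8 hy (by rw [hw]; norm_num)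
  have hl0 : (0 : ℝ) ≤ l := Nat.cast_nonneg _
  cases sg
  · have := leof hl hw e2.1 (hl.hi_add e3 e1.2 (by rw [hw]; omega))
      (by rw [Nat.mul_eq]; omega) (by omega) h
    have e4 := mul_le_mul_of_nonneg_left (neg_le_abs Y) hl0
    simp only [Nat.mul_eq, Nat.cast_mul, Nat.cast_ofNat] at this
    linarith
  · have := leof hl hw e1.1 (hl.hi_add e3 e2.2 (by rw [hw, Nat.mul_eq]; omega))
      (by omega) (by rw [Nat.mul_eq]; omega) h
    have e4 := mul_le_mul_of_nonneg_left (le_abs_self Y) hl0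
    simp only [Nat.mul_eq, Nat.cast_mul, Nat.cast_ofNat] at this
    linarith

include hd

omit hl in
lemma lo_div {X : ℕ} {x : ℝ} {A : ℕ} (hX : Lo c X x A) :
    Lo c (Nat.land (Nat.shiftRight X 3) (Nat.mul 35184372088831 (ones 48 c.n))) (x / 8) A := by
  have h : ∀ i, dg 48 (Nat.land (Nat.shiftRight X 3) (Nat.mul 35184372088831 (ones 48 c.n))) i =
      if i < c.n then dg 48 X i / 2 ^ 3 % 2 ^ 45 else 0 := fun i =>
    hd.sublane (s := 3) (v := 45) c.n X i (by norm_num) (by norm_num)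
  have h8 : ∀ i, 8 * dg 48 (Nat.land (Nat.shiftRight X 3)
      (Nat.mul 35184372088831 (ones 48 c.n))) i ≤ dg 48 X i := fun i => by
    rw [h]; split_ifs <;> omega
  obtain ⟨h1, h2⟩ := hX
  rw [hw] at h1 h2
  refine ⟨?_, fun ω hω => ?_⟩
  · rw [hw]
    intro i
    have := h8 i
    have := h1 i
    omega
  · rw [hw, le_div_iff₀ (by norm_num)]
    refine le_trans ?_ (h2 ω hω)
    unfold ev
    rw [Finset.sum_mul]
    refine Finset.sum_le_sum fun i _ => ?_
    rw [mul_assoc]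
    refine mul_le_mul_of_nonneg_left ?_ (c.pos ω hω i)
    rw [mul_comm]
    exact_mod_cast h8 i

lemma capV_ok {l Tb SX : ℕ} {T s : ℝ} (h8 : l ≤ 8)
    (hT : Lo c Tb (16777216 * T + 1073741824) 1107296256) (hS : Hi c SX (4096 * s) 32768) :
    Lo c (capV (ones 48 c.n) l Tb SX)
      (33554432 * ((1 - l / 8) / 2 + (1 + l / 8) * T / 2 - s) + 5368709120) (2 ^ 40) := by
  have e1 := lo_div hd hw (hl.lo_mul (Nat.add 8 l) hT (by rw [hw, Nat.add_eq]; omega))
  have e2 := hl.hi_mul 8192 hS (by rw [hw]; norm_num)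
  have e3 := lbsub hl hw (Nat.sub (Nat.add 5368709120 (Nat.mul (Nat.sub 8 l) 2097152))
    (Nat.mul (Nat.add 8 l) 134217728)) e1 e2
    (by simp only [Nat.add_eq, Nat.mul_eq, Nat.sub_eq]; omega)
    (by simp only [Nat.add_eq, Nat.mul_eq, Nat.sub_eq]; omega)
  refine hl.lo_mono e3 (le_of_eq ?_) (by simp only [Nat.add_eq, Nat.mul_eq, Nat.sub_eq]; omega)
  simp only [Nat.add_eq, Nat.mul_eq, Nat.sub_eq]
  rw [Nat.cast_sub (by omega)]
  push_cast [Nat.cast_sub h8]
  ring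

end Lanes

lemma folS_succ (xs : List ℕ) (k n pi S um r : ℕ) (κ : ℕ → ℕ → ℕ → Bool) :
    folS xs k (n + 1) pi S um r κ = (Nat.blt pi (Nat.land r 15) && Nat.blt (Nat.land r 15) k &&
      folS xs k n (Nat.land r 15) (Nat.add S (nth xs (Nat.land r 15)))
        (Nat.lor um (Nat.pow 2 (Nat.land r 15))) (Nat.shiftRight r 4) κ) := rfl

lemma folS_ok (hl : LnStmt) (hb : BaseStmt) (X : Ctx) (κ : ℕ → ℕ → ℕ → Bool) (cnt : ℕ) :
    ∀ (pi S um r B : ℕ) (s : ℝ), Eqv X.c S (4096 * s) B → B + 4096 * cnt < 2 ^ 48 →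
      folS X.xs X.k cnt pi S um r κ = true →
      ∃ S' um' r' fs, κ S' um' r' = true ∧ Eqv X.c S' (4096 * (s + List.sum fs)) (B + 4096 * cnt) ∧
        Srt fs ∧ (∀ x ∈ fs, X.m ≤ x ∧ x ≤ X.a (Nat.land r 15)) ∧
        (cnt ≠ 0 → pi < Nat.land r 15 ∧ Nat.land r 15 < X.k) ∧ (cnt = 0 → fs = []) ∧
        List.Subperm (pcs X.k X.a um') (pcs X.k X.a um ++ fs) := by
  induction cnt with
  | zero =>
    intro pi S um r B s hS _ h
    exact ⟨S, um, r, [], h, by simpa using hS, ⟨List.Pairwise.nil, by simp⟩, by simp, by simp,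
      fun _ => rfl, by simp [List.Subperm.refl]⟩
  | succ n ih =>
    intro pi S um r B s hS hB h
    have hB2 : B + 4096 + 4096 * n < 2 ^ 48 := by omega
    have hB1 : B + 4096 < 2 ^ 48 := (Nat.le_add_right _ _).trans_lt hB2
    rw [folS_succ] at h
    simp only [Bool.and_eq_true, Nat.blt_eq] at h
    obtain ⟨⟨h1, h2⟩, h⟩ := h
    have e1 := eadd hl X.w48 hS (X.xe _ h2) hB1
    rw [← mul_add] at e1
    obtain ⟨S', um', r', fs, k1, k2, k3, k4, k5, k6, k7⟩ := ih _ _ _ _ _ _ e1 hB2 h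
    have hle : ∀ x ∈ fs, x ≤ X.a (Nat.land r 15) := fun x hx => by
      have := k5 fun h0 => by rw [k6 h0] at hx; cases hx
      exact (k4 x hx).2.trans (X.anti _ _ this.1.le this.2)
    refine ⟨S', um', r', X.a (Nat.land r 15) :: fs, k1, ?_, ⟨List.pairwise_cons.mpr ⟨hle, k3.1⟩, ?_⟩,
      ?_, fun _ => ⟨h1, h2⟩, fun h => absurd h n.succ_ne_zero, ?_⟩
    · rw [List.sum_cons, ← add_assoc, show B + 4096 * (n + 1) = B + 4096 + 4096 * n by ring]
      exact k2
    · intro x hx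
      rcases List.mem_cons.mp hx with rfl | hx
      · exact X.m0.trans (X.ma _ h2)
      · exact k3.2 x hx
    · intro x hx
      rcases List.mem_cons.mp hx with rfl | hx
      · exact ⟨X.ma _ h2, le_rfl⟩
      · exact ⟨(k4 x hx).1, hle x hx⟩
    · refine k7.trans ?_
      rw [List.append_cons]
      exact (hb.pcs1 _ _ _ _).append (List.Subperm.refl _)

/-- `u` is bounded by one of the two capacities. -/
def Cp (P : Prof) (T k Y z h a u : ℝ) : Prop :=
  u ≤ T / 2 + Tz P a z - 1 / 2 - k ∨ ∃ l : ℝ, 0 ≤ l ∧ l ≤ 1 ∧ max 0 (z + h / 2) ≤ l * |Y| ∧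
    u ≤ (1 - l) / 2 + (1 + l) * T / 2 - k

lemma row_ok (hd : DgStmt) (hl : LnStmt) (hb : BaseStmt) {P : Prof} {c : Cx} (hw : c.w = 48)
    (hP : P.bd = true) {Z H Tc S Xb Tb Yb l : ℕ} {b3 b8 b9 e : Bool} {m T k Y z h s : ℝ}
    (hZ : Hi c Z (16384 * (z + 1 / 2)) 16384) (hH : Eqv c H (4096 * h) 4096)
    (hTc : Lo c Tc (16777216 * Tz P h z + 1073741824) 1107296256) (hS : Eqv c S (4096 * s) 28672)
    (hX : Eqv c Xb (4096 * k) 4096) (hT : Lo c Tb (16777216 * T + 1073741824) 1107296256)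
    (hY : Eqv c Yb (16384 * (Y + 1 / 2)) 24576) (hz : z ≤ 1 / 2) (hm : m ≤ 1) {R1 R2 R3 : ℕ}
    (e1 : R1 = Nat.sub (Nat.add (Nat.mul 2 Tc) (Nat.mul 3221225472 (ones 48 c.n))) (Nat.mul 8192 S))
    (e2 : R2 = Nat.sub (Nat.add Tb (Nat.mul 2130706432 (ones 48 c.n)))
      (Nat.mul 8192 (Nat.add S Xb)))
    (e3 : R3 = cond b3 (lmin 47 (grd 48 c.n) R1 (capV (ones 48 c.n) l Tb (Nat.add S Xb))) 0)
    (t1 : cond b3 (capT (ones 48 c.n) (grd 48 c.n) l (lsub 47 (grd 48 c.n)
      (Nat.add Z (Nat.mul 2 H)) (Nat.mul 8192 (ones 48 c.n))) Yb b8) true = true)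
    (t2 : (e || lge (grd 48 c.n) (cond b9 R3 (lmin 47 (grd 48 c.n) R1 (Nat.add R2 (Nat.mul 2 Tc))))
      (Nat.mul 5368709120 (ones 48 c.n))) = true) :
    ∃ cap : ℝ → ℝ, RwOK P c m ⟨true, Z, R1, R2, R3⟩ (fun a => min (cap a) (Tz P h z) - s - a) ∧
      (∀ a, Cp P T k Y z h a (cap a)) ∧ (e = false → s ≤ Tz P h z ∧ Cp P T k Y z h h s) := by
  have hSX := eadd hl hw hS hX (by norm_num)
  rw [← mul_add] at hSX
  have h2T := hl.lo_mul 2 hTc (by rw [hw]; norm_num)
  have r1 : Lo c R1 (33554432 * (Tz P h z - s) + 5368709120) 5502926848 :=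
    hl.lo_mono (e1 ▸ lbsub hl hw 3221225472 h2T (hl.hi_mul 8192 hS.2 (by rw [hw]; norm_num))
      (by norm_num) (by norm_num)) (le_of_eq (by push_cast; ring)) (by norm_num)
  have r2 : Lo c R2 (33554432 * (T / 2 - 1 / 2 - k - s) + 3221225472) 3238002688 :=
    hl.lo_mono (e2 ▸ lbsub hl hw 2130706432 hT (hl.hi_mul 8192 hSX.2 (by rw [hw]; norm_num))
      (by norm_num) (by norm_num)) (le_of_eq (by push_cast; ring)) (by norm_num)
  have hO := (econst hl hw 5368709120 (by norm_num)).2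
  have t3 : e = false → b9 = false → s ≤ Tz P h z ∧ Cp P T k Y z h h s := by
    rintro rfl rfl
    rw [Bool.false_or, cond_false] at t2
    have := leof hl hw (lmin' hl hw r1 (hl.lo_add r2 h2T (by rw [hw]; norm_num)) (by norm_num)
      (by norm_num)) hO (by norm_num) (by norm_num) t2
    rw [le_min_iff] at this
    push_cast at this
    exact ⟨by linarith [this.1], Or.inl (by linarith [this.2])⟩
  cases b3
  · rw [cond_false] at e3
    have r3 : Lo c R3 0 0 := e3 ▸ (ezero hl hw).1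
    refine ⟨fun a => T / 2 + Tz P a z - 1 / 2 - k, ⟨z, _, _, _, hZ, r1,
      hl.lo_mono r2 le_rfl (by norm_num), hl.lo_mono r3 le_rfl (by norm_num), fun a a0 a1 =>
        ⟨fun _ => ?_, fun h => by cases h⟩⟩, fun a => Or.inl le_rfl, fun he => ?_⟩
    · have n1 := hb.nonneg r1
      have n2 := hb.nonneg r2
      have n3 := tz_low hP a0 (a1.trans hm) hz
      rcases le_total (T / 2 + Tz P a z - 1 / 2 - k) (Tz P h z) with h | h
      · simp only [min_eq_left h]
        exact ⟨(min_le_right _ _).trans (by linarith), by linarith⟩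
      · simp only [min_eq_right h]
        exact ⟨(min_le_left _ _).trans (by linarith), by linarith⟩
    · cases b9
      · exact t3 he rfl
      · rw [he, Bool.false_or, cond_true] at t2
        have := leof hl hw r3 hO (by norm_num) (by norm_num) t2
        norm_num at this
  · rw [cond_true] at e3 t1
    have hy := hlsub hl hw (hl.hi_add hZ (hl.hi_mul 2 hH.2 (by rw [hw]; norm_num))
      (by rw [hw]; norm_num)) (econst hl hw 8192 (by norm_num)).1 (by norm_num) (by norm_num)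
    obtain ⟨h8, hc⟩ := capT_ok hl hw (u := max 0 (z + h / 2)) (hl.hi_mono hy (by
      rw [mul_max_of_nonneg _ _ (by norm_num)]
      exact max_le_max (by norm_num) (le_of_eq (by push_cast; ring))) (by norm_num)) hY t1
    have r3 := lmin' hl hw r1 (capV_ok hd hl hw h8 hT hSX.2) (by norm_num) (by norm_num)
    rw [← e3] at r3
    have l0 : (0 : ℝ) ≤ l / 8 := by positivity
    have l1 : (l : ℝ) / 8 ≤ 1 := by
      have : (l : ℝ) ≤ 8 := by exact_mod_cast h8
      linarith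
    refine ⟨fun a => max (T / 2 + Tz P a z - 1 / 2 - k) ((1 - l / 8) / 2 + (1 + l / 8) * T / 2 - k),
      ⟨z, _, _, _, hZ, r1, hl.lo_mono r2 le_rfl (by norm_num), hl.lo_mono r3 le_rfl (by norm_num),
        fun a _ _ => ⟨fun _ => ?_, fun h => by cases h⟩⟩, fun a => ?_, fun he => ?_⟩
    · have m1 := le_max_left (T / 2 + Tz P a z - 1 / 2 - k) ((1 - l / 8) / 2 + (1 + l / 8) * T / 2 - k)
      have m2 := le_max_right (T / 2 + Tz P a z - 1 / 2 - k) ((1 - l / 8) / 2 + (1 + l / 8) * T / 2 - k)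
      beta_reduce
      generalize max (T / 2 + Tz P a z - 1 / 2 - k) ((1 - l / 8) / 2 + (1 + l / 8) * T / 2 - k) = M
        at m1 m2 ⊢
      rcases le_total M (Tz P h z) with h | h
      · simp only [min_eq_left h]
        exact ⟨(min_le_right _ _).trans (by linarith), (min_le_right _ _).trans (by linarith)⟩
      · simp only [min_eq_right h]
        exact ⟨(min_le_left _ _).trans (by linarith), (min_le_left _ _).trans (by linarith)⟩
    · rcases le_total (T / 2 + Tz P a z - 1 / 2 - k) ((1 - l / 8) / 2 + (1 + l / 8) * T / 2 - k)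
        with h | h
      · exact Or.inr ⟨_, l0, l1, hc, (max_eq_right h).le⟩
      · exact Or.inl (max_eq_left h).le
    · cases b9
      · exact t3 he rfl
      · rw [he, Bool.false_or, cond_true] at t2
        have := leof hl hw r3 hO (by norm_num) (by norm_num) t2
        rw [le_min_iff] at this
        push_cast at this
        exact ⟨by linarith [this.1], Or.inr ⟨_, l0, l1, hc, by linarith [this.2]⟩⟩

/-- The side condition on the room function. -/
def HH (P : Prof) (q k : ℝ) (E : ℝ → ℝ → ℝ) : Prop := Tz P k (zz q k) / 2 ≤ E k (-(q + k / 2))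

/-- The region below, the block and the shortened rows. -/
def Reg (E : ℝ → ℝ → ℝ) (x0 x q k y0 y : ℝ) (s : Pc) : Prop :=
  Strip x0 x s ∨ (Strip q (q + k) s ∧ Lf (k - E k (-(q + k / 2))) s) ∨
    (Strip y0 y s ∧ Rt (k - E k (-(q + k / 2))) s)

/-- The invariant of the shortened rows. -/
def Inv (X : Ctx) (x0 x q k y0 y : ℝ) (um : ℕ) (rs : List Rw) : Prop :=
  ∃ Ds, List.Forall₂ (RwOK X.P X.c X.m) rs Ds ∧ ∀ E, Ext X.P E → HH X.P q k E →
    MS E (Reg E x0 x q k y0 y) (pcs X.k X.a um) X.m (LL Ds)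

lemma cp_ok (hr : RowStmt) {P : Prof} {E : ℝ → ℝ → ℝ} {q k p h a u : ℝ} (hE : Ext P E)
    (q0 : -1 / 2 ≤ q) (q1 : q + k ≤ 1 / 2) (p0 : -1 / 2 ≤ p) (p1 : p + h ≤ 1 / 2) (a0 : 0 ≤ a)
    (a1 : a ≤ h) (a2 : a ≤ k) (hH : HH P q k E)
    (hc : Cp P (Tz P k (zz q k)) k (q + k / 2) (zz p h) h a u) :
    (k - E k (-(q + k / 2))) + u ≤ E a (yc p h a) := by
  rcases hc with hc | ⟨l, l0, l1, h1, hc⟩
  · linarith [hr.cap1 hE p0 p1 a0 a1 hH]
  · linarith [hr.cap2 hE q0 q1 p0 p1 a0 a1 a2 l0 l1 h1 hH]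

lemma rowsS_succ (P : Prof) (xs : List ℕ) (k HT O G bi Xb Tb Yb n p um : ℕ) (rs : List Rw) (r : ℕ)
    (κ : ℕ → ℕ → List Rw → ℕ → Bool) :
    rowsS P xs k HT O G bi Xb Tb Yb (n + 1) p um rs r κ = frc (Nat.land r 7) fun c =>
      frc (cond (Nat.beq c 0) HT (frc (Nat.land (Nat.shiftRight r 10) 15) (nth xs))) fun H =>
      frc (Nat.add p (Nat.mul 4 H)) fun q => lge G (Nat.mul 16384 O) q &&
      frc (lmax 47 G p (Nat.sub (Nat.mul 16384 O) q)) fun Z =>
      frc (tz P O G Z H) fun Tc =>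
      folS xs k c bi 0 um (Nat.shiftRight r 10) fun S um r' =>
        frc (Nat.sub (Nat.add (Nat.mul 2 Tc) (Nat.mul 3221225472 O)) (Nat.mul 8192 S)) fun R1 =>
        frc (Nat.sub (Nat.add Tb (Nat.mul 2130706432 O)) (Nat.mul 8192 (Nat.add S Xb))) fun R2 =>
        (cond (Nat.testBit r 3) (capT O G (Nat.land (Nat.shiftRight r 4) 15)
          (lsub 47 G (Nat.add Z (Nat.mul 2 H)) (Nat.mul 8192 O)) Yb (Nat.testBit r 8)) true) &&
        frc (cond (Nat.testBit r 3)
          (lmin 47 G R1 (capV O (Nat.land (Nat.shiftRight r 4) 15) Tb (Nat.add S Xb))) 0) fun R3 =>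
        (Nat.beq c 0 || lge G (cond (Nat.testBit r 9) R3
          (lmin 47 G R1 (Nat.add R2 (Nat.mul 2 Tc)))) (Nat.mul 5368709120 O)) &&
        frc r' fun r' =>
          rowsS P xs k HT O G bi Xb Tb Yb n q um (⟨true, Z, R1, R2, R3⟩ :: rs) r' κ := rfl

lemma lev_range (hb : BaseStmt) {c : Cx} {p : ℕ} {x : ℝ} (h : Lev c p x) :
    -1 / 2 ≤ x ∧ x ≤ 1 / 2 := by
  have := hb.range h
  push_cast at this
  constructor <;> linarith [this.1, this.2]

lemma rowsS_ok (hd : DgStmt) (hl : LnStmt) (hb : BaseStmt) (hp : PkStmt) (hr : RowStmt) (X : Ctx)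
    {bi Tb Yb : ℕ} {x0 x q y0 : ℝ} (hbi : bi < X.k) (q0 : -1 / 2 ≤ q) (q1 : q + X.a bi ≤ 1 / 2)
    (hx : x ≤ y0) (hT : Lo X.c Tb (16777216 * Tz X.P (X.a bi) (zz q (X.a bi)) + 1073741824)
      1107296256) (hY : Eqv X.c Yb (16384 * (q + X.a bi / 2 + 1 / 2)) 24576)
    (κ : ℕ → ℕ → List Rw → ℕ → Bool) (cnt : ℕ) :
    ∀ (p um : ℕ) (rs : List Rw) (r : ℕ) (y : ℝ), Lev X.c p y → y0 ≤ y →
      Inv X x0 x q (X.a bi) y0 y um rs →
      rowsS X.P X.xs X.k X.HT (ones 48 X.c.n) (grd 48 X.c.n) bi (nth X.xs bi) Tb Yb cnt p um rs r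
        κ = true →
      ∃ p' um' rs' r' y', κ p' um' rs' r' = true ∧ Lev X.c p' y' ∧ y0 ≤ y' ∧
        Inv X x0 x q (X.a bi) y0 y' um' rs' := by
  induction cnt with
  | zero => exact fun p um rs r y h1 h2 h3 h => ⟨p, um, rs, r, y, h, h1, h2, h3⟩
  | succ n ih =>
    intro p um rs r y h1 h2 ⟨Ds, hD, hM⟩ h
    rw [rowsS_succ] at h
    simp only [hd.frc] at h
    rw [Bool.and_eq_true] at h
    obtain ⟨g1, h⟩ := h
    have c7 := land_le r 7
    obtain ⟨S, um', r', fs, h, k2, k3, k4, k5, k6, k7⟩ := folS_ok hl hb X _ _ _ _ _ _ 0 0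
      (by simpa using ezero hl X.w48) (by omega) h
    simp only [Bool.and_eq_true] at h
    obtain ⟨g2, g3, h⟩ := h
    obtain ⟨t, t1, t2, t3, t4⟩ : ∃ t : ℝ, Eqv X.c (cond (Nat.beq (Nat.land r 7) 0) X.HT
        (nth X.xs (Nat.land (Nat.shiftRight r 10) 15))) (4096 * t) 4096 ∧ X.m ≤ t ∧
        (∀ x ∈ fs, X.m ≤ x ∧ x ≤ t) ∧
        (fs ≠ [] → Nat.beq (Nat.land r 7) 0 = false ∧ t ≤ X.a bi) := by
      cases hc : Nat.beq (Nat.land r 7) 0
      · have := k5 (Nat.ne_of_beq_eq_false hc)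
        exact ⟨_, X.xe _ this.2, X.ma _ this.2, k4, fun _ => ⟨rfl, X.anti _ _ this.1.le this.2⟩⟩
      · have := k6 (Nat.eq_of_beq_eq_true hc)
        exact ⟨_, X.he, X.mh, by simp [this], fun h => absurd this h⟩
    have t0 := X.m0.trans t2
    have l2 := hb.step X.w48 h1 t1 g1
    have hZ := hb.zz X.w48 h1 l2
    have y1 := lev_range hb h1
    have y2 := lev_range hb l2
    obtain ⟨cap, c1, c2, c3⟩ := row_ok hd hl hb X.w48 X.bd (m := X.m) (s := fs.sum) hZ t1
      (hb.tev X.w48 X.bd hZ t1) ⟨hl.lo_mono k2.1 (by simp) (by omega),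
        hl.hi_mono k2.2 (by simp) (by omega)⟩ (X.xe _ hbi) hT hY
      (max_le (by linarith) (by linarith)) (by linarith) rfl rfl rfl g2 g3
    refine ih _ _ _ _ _ l2 (by linarith) ⟨_, List.Forall₂.cons c1 hD, fun E hE hH => ?_⟩ h
    have m1 := hr.rowS (w := X.a bi - E (X.a bi) (-(q + X.a bi / 2))) cap hE y1.1 y2.2 t0 k3 t3 t2
      (fun hf => ⟨cp_ok hr hE q0 q1 y1.1 y2.2 t0 le_rfl (t4 hf).2 hH (c3 (t4 hf).1).2,
        (c3 (t4 hf).1).1⟩)
      fun a a0 a1 => cp_ok hr hE q0 q1 y1.1 y2.2 a0 (a1.trans t2) (a1.trans (X.ma _ hbi)) hH (c2 a)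
    refine hp.ms_mono ?_ k7 le_rfl (fun a s _ _ => hb.ll1) (hp.ms_union ?_ (hM E hE hH) m1)
    · rintro s ((h | h | h) | h)
      · exact Or.inl h
      · exact Or.inr (Or.inl h)
      · exact Or.inr (Or.inr ⟨⟨h.1.1, le_trans h.1.2 (by linarith)⟩, h.2⟩)
      · exact Or.inr (Or.inr ⟨⟨h2.trans h.1.1, h.1.2⟩, h.2⟩)
    · rintro s u (h | h | h) hu
      · exact Or.inr (Or.inr (Or.inl (le_trans h.2 (hx.trans (h2.trans hu.1.1)))))
      · exact Or.inl (le_trans h.2 hu.2)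
      · exact Or.inr (Or.inr (Or.inl (le_trans h.1.2 hu.1.1)))

end Obst

open Obst in
theorem obstS (hd : DgStmt) (hl : LnStmt) (hb : BaseStmt) (hp : PkStmt) (hr : RowStmt)
    (hn : RowNStmt) : ObstStmt := by
  intro X p um rs r κ x0 x h1 h2 ⟨Ds, hD, hM⟩ h
  simp only [obst, hd.frc, Bool.and_eq_true, Nat.blt_eq] at h
  obtain ⟨hbi, h⟩ := h
  obtain ⟨pb, r1, q, h, l1⟩ := hb.aff X h1 h
  simp only [Bool.and_eq_true] at h
  obtain ⟨g1, g2, h⟩ := h
  obtain ⟨ps, r2, y0, h, l3⟩ := hb.aff X h1 h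
  rw [Bool.and_eq_true] at h
  obtain ⟨g3, h⟩ := h
  have e1 := X.xe _ hbi
  have l2 := hb.step X.w48 l1 e1 g2
  have xq := hb.le X.w48 l1 h1 g1
  have xy := hb.le X.w48 l3 h1 g3
  have q0 := (lev_range hb l1).1
  have q1 := (lev_range hb l2).2
  have k0 := X.m0.trans (X.ma _ hbi)
  have hY := eadd hl X.w48 l1 (emul hl X.w48 2 e1 (by norm_num)) (by norm_num)
  obtain ⟨p', um', rs', r3, y, h, l4, y1, Ds', hD', hM'⟩ := rowsS_ok hd hl hb hp hr X (x0 := x0) hbi
    q0 q1 xy (hb.tev X.w48 X.bd (hb.zz X.w48 l1 l2) e1)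
    ⟨hl.lo_mono hY.1 (le_of_eq (by push_cast; ring)) le_rfl,
      hl.hi_mono hY.2 (le_of_eq (by push_cast; ring)) le_rfl⟩ _ _ _ _ _ _ _ l3 le_rfl
    ⟨Ds, hD, fun E hE _ => hp.ms_mono (fun s h => h.elim Or.inl fun h => Or.inr (Or.inl h))
      (hb.pcs1 _ _ _ _) le_rfl
      (fun a s _ _ ⟨s1, s2, h1, ⟨ss, h2, h3⟩, h4⟩ => ⟨ss, h2, by linarith⟩)
      (hp.ms_union (fun s u h hu => Or.inr (Or.inr (Or.inl (le_trans h.2 (xq.trans hu.1.1)))))
        (hM E hE trivial) (hr.blk hE q0 q1 k0))⟩ h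
  obtain ⟨t, r4, yt, h, l5⟩ := hb.aff X h1 h
  simp only [Bool.and_eq_true] at h
  obtain ⟨⟨g4, g5⟩, h⟩ := h
  have z1 := hb.le X.w48 l5 l4 g4
  have z2 := hb.le X.w48 l5 l2 g5
  obtain ⟨q', um'', rs'', r5, y', f1, f2, f3, f4⟩ := hn X (HH X.P q (X.a (Nat.land r 15))) _ _ _ _ _ κ
    x0 yt l5 (by linarith) ⟨Ds', hD', fun E hE hH => hp.ms_mono (by
      rintro s (h | h | h)
      · exact ⟨h.1, le_trans h.2 (by linarith)⟩
      · exact ⟨(h2.trans xq).trans h.1.1, le_trans h.1.2 z2⟩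
      · exact ⟨(h2.trans xy).trans h.1.1, le_trans h.1.2 z1⟩) (List.Subperm.refl _) le_rfl
      (fun _ _ _ _ h => h) (hM' E hE hH)⟩ h
  refine ⟨_, q', um'', rs'', r5, y', fun E hE => ?_, f1, f2, by linarith, f4⟩
  refine (hr.side hE q0 q1 k0).imp id fun h => ?_
  simpa only [HH, neg_neg] using h

end Pool.Agent.MP_34f9b1_co.Sym

end MrgPart4

-- ======== part 5: formerly Pool.Agent.MP_34f9b1_co.Sym.Tree
section MrgPart5

namespace Pool.Agent.MP_34f9b1_co.Sym

namespace TreeAux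

open _root_.Pool.Agent.MP_34f9b1_co.Sym.Tree

theorem frc_eq {α : Type} (x : Nat) (f : Nat → α) : frc x f = f x := rfl

theorem getD_succ (l : List ℝ) (i : ℕ) : l.getD (i + 1) 0 = l.tail.getD i 0 := by
  cases l <;> simp

theorem inB_nil (l : List ℝ) : InB [] l := fun i hi => absurd hi (by simp)

theorem inB_cons (x : ℕ × ℕ) (b : Box) (l : List ℝ) :
    InB (x :: b) l ↔ ((x.1 : ℝ) ≤ 4096 * l.getD 0 0 ∧ 4096 * l.getD 0 0 ≤ x.2) ∧ InB b l.tail := by
  constructor
  · intro h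
    refine ⟨h 0 (Nat.succ_pos _), fun i hi => ?_⟩
    have := h (i + 1) (Nat.succ_lt_succ hi)
    rwa [getD_succ, List.getD_cons_succ] at this
  · rintro ⟨h0, h⟩ i hi
    cases i with
    | zero => exact h0
    | succ i =>
      rw [getD_succ, List.getD_cons_succ]
      exact h i (Nat.lt_of_succ_lt_succ hi)

theorem srt_tail {l : List ℝ} (h : Srt l) : Srt l.tail := by
  cases l with
  | nil => exact h
  | cons a t => exact ⟨(List.pairwise_cons.1 h.1).2, fun x hx => h.2 x (List.mem_cons_of_mem _ hx)⟩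

theorem head_nonneg {l : List ℝ} (h : Srt l) : 0 ≤ l.getD 0 0 := by
  cases l with
  | nil => simp
  | cons a t => exact h.2 a List.mem_cons_self

theorem step_le {l : List ℝ} (h : Srt l) : l.tail.getD 0 0 ≤ l.getD 0 0 := by
  cases l with
  | nil => simp
  | cons a t =>
    cases t with
    | nil => exact h.2 a List.mem_cons_self
    | cons c t => exact (List.pairwise_cons.1 h.1).1 c List.mem_cons_self

theorem le_head : ∀ (i : ℕ) {l : List ℝ}, Srt l → l.getD i 0 ≤ l.getD 0 0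
  | 0, _, _ => le_rfl
  | i + 1, l, h => by
    rw [getD_succ]
    exact (le_head i (srt_tail h)).trans (step_le h)

theorem sqs_tail (l : List ℝ) : sqs l = (l.getD 0 0) ^ 2 + sqs l.tail := by
  cases l <;> simp [sqs]

theorem sqs_nonneg (l : List ℝ) : 0 ≤ sqs l := by
  induction l with
  | nil => simp [sqs]
  | cons a t ih =>
    rw [sqs_tail]
    exact add_nonneg (sq_nonneg _) ih

theorem cutU_nil (m i : ℕ) : cutU m [] i = [] := rfl

theorem cutU_zero (m : ℕ) (x : ℕ × ℕ) (b : Box) :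
    cutU m (x :: b) 0 = (x.1, cond (Nat.ble x.2 m) x.2 m) :: cutU m b 0 := rfl

theorem cutU_succ (m i : ℕ) (x : ℕ × ℕ) (b : Box) :
    cutU m (x :: b) (i + 1) = x :: cutU m b i := rfl

theorem cutL_nil (m i : ℕ) : cutL m [] i = [] := rfl

theorem cutL_zero (m : ℕ) (x : ℕ × ℕ) (b : Box) :
    cutL m (x :: b) 0 = (cond (Nat.ble m x.1) x.1 m, x.2) :: b := rfl

theorem cutL_succ (m i : ℕ) (x : ℕ × ℕ) (b : Box) :
    cutL m (x :: b) (i + 1) = (cond (Nat.ble m x.1) x.1 m, x.2) :: cutL m b i := rfl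

theorem inB_cutU (m : ℕ) : ∀ (b : Box) (i : ℕ) (l : List ℝ), Srt l → InB b l →
    4096 * l.getD i 0 ≤ m → InB (cutU m b i) l
  | [], _, l, _, _, _ => inB_nil l
  | x :: b, 0, l, hs, hb, hm => by
    rw [cutU_zero, inB_cons]
    rw [inB_cons] at hb
    refine ⟨⟨hb.1.1, ?_⟩, inB_cutU m b 0 l.tail (srt_tail hs) hb.2 ?_⟩
    · cases Nat.ble x.2 m
      · exact hm
      · exact hb.1.2
    · have := step_le hs
      linarith
  | x :: b, i + 1, l, hs, hb, hm => by
    rw [cutU_succ, inB_cons]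
    rw [inB_cons] at hb
    rw [getD_succ] at hm
    exact ⟨hb.1, inB_cutU m b i l.tail (srt_tail hs) hb.2 hm⟩

theorem inB_cutL (m : ℕ) : ∀ (b : Box) (i : ℕ) (l : List ℝ), Srt l → InB b l →
    (m : ℝ) ≤ 4096 * l.getD i 0 → InB (cutL m b i) l
  | [], _, l, _, _, _ => inB_nil l
  | x :: b, 0, l, _, hb, hm => by
    rw [cutL_zero, inB_cons]
    rw [inB_cons] at hb
    refine ⟨⟨?_, hb.1.2⟩, hb.2⟩
    cases Nat.ble m x.1
    · exact hm
    · exact hb.1.1
  | x :: b, i + 1, l, hs, hb, hm => by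
    rw [cutL_succ, inB_cons]
    rw [inB_cons] at hb
    have h0 := le_head (i + 1) hs
    refine ⟨⟨?_, hb.1.2⟩, inB_cutL m b i l.tail (srt_tail hs) hb.2 (by rwa [getD_succ] at hm)⟩
    cases Nat.ble m x.1
    · show (m : ℝ) ≤ _
      linarith
    · exact hb.1.1

theorem deep_nil (u : ℕ) : deep [] u = [(0, u)] := rfl

theorem deep_cons (x : ℕ × ℕ) (b : Box) (u : ℕ) : deep (x :: b) u = x :: deep b x.2 := rfl

theorem inB_deep : ∀ (b : Box) (u : ℕ) (l : List ℝ), Srt l → InB b l →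
    4096 * l.getD 0 0 ≤ u → InB (deep b u) l
  | [], u, l, hs, _, hu => by
    rw [deep_nil, inB_cons]
    have := head_nonneg hs
    refine ⟨⟨?_, hu⟩, inB_nil _⟩
    show ((0 : ℕ) : ℝ) ≤ _
    rw [Nat.cast_zero]
    linarith
  | x :: b, _, l, hs, hb, _ => by
    rw [deep_cons, inB_cons]
    rw [inB_cons] at hb
    refine ⟨hb.1, inB_deep b x.2 l.tail (srt_tail hs) hb.2 ?_⟩
    have := step_le hs
    have := hb.1.2
    linarith

theorem arL_cons (x : ℕ × ℕ) (b : Box) : Leaf.arL (x :: b) = x.1 * x.1 + Leaf.arL b := rfl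

theorem arL_le : ∀ (b : Box) (l : List ℝ), InB b l → (Leaf.arL b : ℝ) ≤ 16777216 * sqs l
  | [], l, _ => by
    have := sqs_nonneg l
    show ((0 : ℕ) : ℝ) ≤ _
    rw [Nat.cast_zero]
    linarith
  | x :: b, l, hb => by
    rw [inB_cons] at hb
    have h1 := arL_le b l.tail hb.2
    have h0 : (0 : ℝ) ≤ x.1 := Nat.cast_nonneg _
    have h2 := mul_le_mul hb.1.1 hb.1.1 h0 (h0.trans hb.1.1)
    rw [arL_cons, sqs_tail, Nat.cast_add, Nat.cast_mul]
    nlinarith

theorem good_prune (P : Prof) (b : Box) (h : Nat.blt 8388608 (Leaf.arL b) = true) : Good P b := by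
  intro E _ l _ hq _ hb
  have h1 := arL_le b l hb
  have h2 : (8388608 : ℕ) < Leaf.arL b := Nat.blt_eq.mp h
  have h3 : ((8388608 : ℕ) : ℝ) < (Leaf.arL b : ℝ) := Nat.cast_lt.2 h2
  rw [Nat.cast_ofNat] at h3
  exfalso
  linarith

theorem good_split (P : Prof) (b : Box) (m i : ℕ) (hU : Good P (cutU m b i))
    (hL : Good P (cutL m b i)) : Good P b := by
  intro E hE l hs hq hn hb
  rcases le_total (4096 * l.getD i 0) (m : ℝ) with h | h
  · exact hU E hE l hs hq hn (inB_cutU m b i l hs hb h)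
  · exact hL E hE l hs hq hn (inB_cutL m b i l hs hb h)

theorem head_le {l : List ℝ} (hq : sqs l ≤ 1 / 2) : 4096 * l.getD 0 0 ≤ ((4096 : ℕ) : ℝ) := by
  have h1 := sqs_tail l
  have h2 := sqs_nonneg l.tail
  rw [Nat.cast_ofNat]
  nlinarith [sq_nonneg (l.getD 0 0 - 1)]

theorem good_deep (P : Prof) (b : Box) (h : Good P (deep b 4096)) : Good P b :=
  fun E hE l hs hq hn hb => h E hE l hs hq hn (inB_deep b 4096 l hs hb (head_le hq))

theorem tok_succ (lf : Box → ℕ → Bool) (n : ℕ) (b : Box) (st : List Box) (r : ℕ)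
    (κ : List Box → Bool) :
    tok lf (n + 1) b st r κ =
      cond (Nat.ble (Nat.land r 3) 1)
        (cond (Nat.beq (Nat.land r 3) 0)
          (tok lf n (cutU (Nat.land (Nat.shiftRight r 6) 4095) b (Nat.land (Nat.shiftRight r 2) 15))
            (cutL (Nat.land (Nat.shiftRight r 6) 4095) b (Nat.land (Nat.shiftRight r 2) 15) :: st)
            (Nat.shiftRight r 18) κ)
          (Nat.blt 8388608 (Leaf.arL
              (cutL (Nat.land (Nat.shiftRight r 6) 4095) b (Nat.land (Nat.shiftRight r 2) 15))) &&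
            tok lf n
              (cutU (Nat.land (Nat.shiftRight r 6) 4095) b (Nat.land (Nat.shiftRight r 2) 15)) st
              (Nat.shiftRight r 18) κ))
        (cond (Nat.beq (Nat.land r 3) 2)
          (Nat.blt b.length 15 && tok lf n (deep b 4096) st (Nat.shiftRight r 2) κ)
          (cond (Nat.testBit r 2) (lf b (Nat.shiftRight r 3)) (Nat.blt 8388608 (Leaf.arL b)) &&
            κ st)) := rfl

theorem tok_sound (P : Prof) (lf : Box → ℕ → Bool) (hlf : ∀ b r, lf b r = true → Good P b) :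
    ∀ (n : ℕ) (b : Box) (st : List Box) (r : ℕ) (κ : List Box → Bool),
      tok lf n b st r κ = true →
      ∃ st', κ st' = true ∧ ((∀ c ∈ st', Good P c) → Good P b ∧ ∀ c ∈ st, Good P c) := by
  intro n
  induction n with
  | zero => intro b st r κ h; exact absurd h Bool.false_ne_true
  | succ n ih =>
    intro b st r κ h
    rw [tok_succ] at h
    generalize Nat.land (Nat.shiftRight r 6) 4095 = m at h
    generalize Nat.land (Nat.shiftRight r 2) 15 = i at h
    generalize Nat.ble (Nat.land r 3) 1 = o1 at h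
    generalize Nat.beq (Nat.land r 3) 0 = o2 at h
    generalize Nat.beq (Nat.land r 3) 2 = o3 at h
    generalize Nat.testBit r 2 = o4 at h
    cases o1
    · rw [cond_false] at h
      cases o3
      · rw [cond_false, Bool.and_eq_true] at h
        refine ⟨st, h.2, fun hs => ⟨?_, hs⟩⟩
        cases o4
        · exact good_prune P b h.1
        · exact hlf b _ h.1
      · rw [cond_true, Bool.and_eq_true] at h
        obtain ⟨st', h1, h2⟩ := ih _ _ _ _ h.2
        exact ⟨st', h1, fun hs => ⟨good_deep P b (h2 hs).1, (h2 hs).2⟩⟩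
    · rw [cond_true] at h
      cases o2
      · rw [cond_false, Bool.and_eq_true] at h
        obtain ⟨st', h1, h2⟩ := ih _ _ _ _ h.2
        exact ⟨st', h1, fun hs =>
          ⟨good_split P b m i (h2 hs).1 (good_prune P _ h.1), (h2 hs).2⟩⟩
      · rw [cond_true] at h
        obtain ⟨st', h1, h2⟩ := ih _ _ _ _ h
        exact ⟨st', h1, fun hs =>
          ⟨good_split P b m i (h2 hs).1 ((h2 hs).2 _ List.mem_cons_self),
            fun c hc => (h2 hs).2 c (List.mem_cons_of_mem _ hc)⟩⟩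

theorem eqB_cons (x y : ℕ × ℕ) (b c : Box) :
    eqB (x :: b) (y :: c) = (Nat.beq x.1 y.1 && Nat.beq x.2 y.2 && eqB b c) := rfl

theorem eqB_eq : ∀ b c : Box, eqB b c = true → b = c
  | [], [], _ => rfl
  | [], _ :: _, h => absurd h Bool.false_ne_true
  | _ :: _, [], h => absurd h Bool.false_ne_true
  | x :: b, y :: c, h => by
    rw [eqB_cons, Bool.and_eq_true, Bool.and_eq_true] at h
    rw [eqB_eq b c h.2, Prod.ext (Nat.eq_of_beq_eq_true h.1.1) (Nat.eq_of_beq_eq_true h.1.2)]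

theorem eqS_cons (x y : Box) (b c : List Box) :
    eqS (x :: b) (y :: c) = (eqB x y && eqS b c) := rfl

theorem eqS_eq : ∀ b c : List Box, eqS b c = true → b = c
  | [], [], _ => rfl
  | [], _ :: _, h => absurd h Bool.false_ne_true
  | _ :: _, [], h => absurd h Bool.false_ne_true
  | x :: b, y :: c, h => by
    rw [eqS_cons, Bool.and_eq_true] at h
    rw [eqS_eq b c h.2, eqB_eq x y h.1]

theorem run_nil (lf : Box → ℕ → Bool) (e st : List Box) : run lf e [] st = eqS st e := rfl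

theorem run_cons (lf : Box → ℕ → Bool) (e : List Box) (t : ℕ) (ts : List ℕ) (b : Box)
    (st : List Box) : run lf e (t :: ts) (b :: st) = tok lf 200 b st t (run lf e ts) := rfl

theorem run_sound (P : Prof) (lf : Box → ℕ → Bool) (hlf : ∀ b r, lf b r = true → Good P b)
    (e : List Box) (he : ∀ b ∈ e, Good P b) :
    ∀ (ts : List ℕ) (st : List Box), run lf e ts st = true → ∀ b ∈ st, Good P b
  | [], st, h => by
    rw [run_nil] at h
    rw [eqS_eq st e h]
    exact he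
  | _ :: _, [], _ => fun _ hb => absurd hb List.not_mem_nil
  | t :: ts, b :: st, h => by
    rw [run_cons] at h
    obtain ⟨st', h1, h2⟩ := tok_sound P lf hlf _ _ _ _ _ h
    have h3 := h2 (run_sound P lf hlf e he ts st' h1)
    intro c hc
    rcases List.mem_cons.1 hc with rfl | hc
    · exact h3.1
    · exact h3.2 c hc

theorem sqs_pad (l : List ℝ) (n : ℕ) : sqs (l ++ List.replicate n 0) = sqs l := by
  simp [sqs]

theorem srt_pad {l : List ℝ} (h : Srt l) (n : ℕ) : Srt (l ++ List.replicate n 0) := by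
  refine ⟨List.pairwise_append.2 ⟨h.1, ?_, ?_⟩, ?_⟩
  · exact List.pairwise_replicate.2 (Or.inr le_rfl)
  · intro a ha b hb
    rw [List.eq_of_mem_replicate hb]
    exact h.2 a ha
  · intro x hx
    rcases List.mem_append.1 hx with hx | hx
    · exact h.2 x hx
    · rw [List.eq_of_mem_replicate hx]

end TreeAux

open TreeAux in
theorem tree (hp : PkStmt) : TreeStmt := by
  intro P
  refine ⟨fun hg E hE l hs hq => ?_, fun lf hlf e ts st h he => run_sound P lf hlf e he ts st h⟩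
  have hs' := srt_pad hs 16
  have hq' : sqs (l ++ List.replicate 16 0) ≤ 1 / 2 := by rwa [sqs_pad]
  refine hp.sub (List.sublist_append_left l (List.replicate 16 0)).subperm
    (hg E hE _ hs' hq' (by simp) (inB_deep [] 4096 _ hs' (inB_nil _) (head_le hq')))

end Pool.Agent.MP_34f9b1_co.Sym

end MrgPart5

-- marker of a merged file
example : 731051 + 156363 = 731051 + 156363 := rfl
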