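import Pool.Agent.MP_34f9b1_co.Sym.LChk
import Pool.Agent.MP_34f9b1_co.Sym.Tree
import Pool.Agent.MP_34f9b1_co.Sym.Grp
import Pool.Agent.MP_34f9b1_co.Sym.Tail2
import Pool.Agent.MP_34f9b1_co.Sym.TabD
import Pool.Agent.MP_34f9b1_co.Sym.FastEq

namespace Pool.Agent.MP_34f9b1_co.Sym

theorem leafAll : LeafStmt :=
  have hb := base dgs (lns dgs)
  have hn := rowN dgs (lns dgs) hb pk (row pk)
  leafS dgs (lns dgs) hb pk (vec dgs (lns dgs)) hn (obstS dgs (lns dgs) hb pk (row pk) hn)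
    (finS dgs (lns dgs) hb pk (grp dgs (lns dgs) hb (optsS dgs (lns dgs) hb pk)))

theorem tabAll (P : Prof) (tb og tc : ℕ → ℕ → ℕ) (hb : P.bd = true)
    (h1 : AllN (upX P tb og) 280 0) (h2 : AllN (upX P tb og) 120 280)
    (h3 : AllN (swX tb tc) 40 0) : TabGood P tc :=
  tabD (tail2 pk (row pk)) (tabA dgs) (tabB dgs) (tabC dgs) (tabL dgs) P tb og tc
    (tabG P tb og tc hb h1 h2 h3)

theorem decS_root : Tree.decS 536870913 = [[(0, 4096)]] := by decide +kernel

theorem decS_zero : Tree.decS 0 = [] := by decide +kernel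

theorem packP_of (P : Prof) (tc : ℕ → ℕ → ℕ) (hb : P.bd = true) (hT : TabGood P tc)
    (h : Tree.RunOK (Fast.leafF P tc) 536870913 0) : PackP P := by
  refine (tree pk P).1 (h (Good P) ?_ ?_ _ ?_)
  · intro e ts st hh he b hb'
    rw [Fast.runF_eq] at hh
    exact (tree pk P).2 _ (fun b r x => leafAll P tc hb hT b r (Fast.leafF_sound P tc b r x))
      e ts st hh he b hb'
  · rw [decS_zero]
    intro b hb'
    cases hb'
  · rw [decS_root]
    exact List.mem_singleton.2 rfl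

end Pool.Agent.MP_34f9b1_co.Sym
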