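import Pool.Agent.MP_34f9b1_co.Sym.Main
import Pool.Agent.MP_34f9b1_co.Sym.Fast2Eq

namespace Pool.Agent.MP_34f9b1_co.Sym

theorem packP_of2 (P : Prof) (tw : ℕ → ℕ) (hb : P.bd = true) (hT : TabGood P (Fast2.tcOf tw))
    (h : Fast2.RunOK (Fast2.leafF P tw) 536870913 0) : PackP P :=
  (tree pk P).1 (Fast2.good_of ((tree pk P).2 _ (leafAll P _ hb hT)) h)

end Pool.Agent.MP_34f9b1_co.Sym
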