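import Pool.Agent.MP_34f9b1_co.Sym.Av

namespace Pool.Agent.MP_34f9b1_co.Sym

namespace Tail

theorem sqs_cons (a : ℝ) (l : List ℝ) : sqs (a :: l) = a ^ 2 + sqs l := by
  simp [sqs]

theorem sqs_app (l l' : List ℝ) : sqs (l ++ l') = sqs l + sqs l' := by
  simp [sqs]

theorem sqs_nonneg (l : List ℝ) : 0 ≤ sqs l :=
  List.sum_nonneg fun x hx => by
    obtain ⟨y, -, rfl⟩ := List.mem_map.1 hx
    positivity

theorem cc_le {N j : ℕ} {h : ℝ} (hN : 0 < N) :
    (1 - (N * h - j)) * cc N j 0 + (N * h - j) * cc N j 1 ≤ h ^ 2 := by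
  have h0 : (0 : ℝ) < N := by exact_mod_cast hN
  unfold cc
  split_ifs with h1
  · simpa using sq_nonneg h
  · rw [← mul_div_assoc, ← mul_div_assoc, ← add_div, div_le_iff₀ (by positivity)]
    push_cast
    linarith [sq_nonneg (N * h - j - 1 / 2)]

/-- Average of a function of the class bit. -/
theorem av_bit {x d z : ℝ} {j : ℕ} (hx : 0 ≤ x) (hz : 0 ≤ z) (h1 : (j : ℝ) ≤ d) (h2 : d ≤ j + 1)
    (Z : ℕ → ℝ) :
    Av x (x + d) z (fun a b _ => Z (b - a - j)) = (1 - (d - j)) * Z 0 + (d - j) * Z 1 := by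
  have h3 : 0 ≤ x + d := by linarith [Nat.cast_nonneg (α := ℝ) j]
  have h4 := av_aff hx h3 hz (Z 0 - j * (Z 1 - Z 0)) (-(Z 1 - Z 0)) (Z 1 - Z 0) 0
  have h5 : ∀ th, 0 ≤ th → Z (⌊x + d + th⌋₊ - ⌊x + th⌋₊ - j) = Z 0 - j * (Z 1 - Z 0) +
      -(Z 1 - Z 0) * ⌊x + th⌋₊ + (Z 1 - Z 0) * ⌊x + d + th⌋₊ + 0 * ⌊z + th⌋₊ := by
    intro th h0
    obtain ⟨e, he, h6⟩ := step' hx h0 h1 h2
    rw [h6, Nat.add_sub_cancel_left, Nat.add_sub_cancel_left]
    interval_cases e <;> push_cast <;> ring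
  refine (le_antisymm (av_mono fun th h0 _ => (h5 th h0).le)
    (av_mono fun th h0 _ => (h5 th h0).ge)).trans (h4.trans (by ring))

/-- The averaged cell values are dominated by the area of the followers. -/
theorem av_g (hp : PkStmt) {P : Prof} {N τ j j' : ℕ} {g : ℕ → ℕ → ℕ → ℝ} (hN : 0 < N)
    (hg : GOK P N τ j j' g) {t h a s : ℝ} {D : ℝ → ℝ} (h1 : (τ : ℝ) ≤ N * (t + 1 / 2))
    (h2 : N * (t + 1 / 2) ≤ τ + 1) (h3 : (j : ℝ) ≤ N * h) (h4 : N * h ≤ j + 1)
    (h5 : (j' : ℝ) ≤ N * a) (h6 : N * a ≤ j' + 1) (hD : DT P t h a ≤ D a) (hF : Fr D a s) :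
    Av (N * (t + 1 / 2)) (N * (t + 1 / 2) + N * h) (N * (t + 1 / 2) + N * h + N * a)
      (fun A B C => g (A - τ) (B - A - j) (C - B - j')) ≤ s := by
  have h0 : (0 : ℝ) < N := by exact_mod_cast hN
  set x := (N : ℝ) * (t + 1 / 2) with hx
  have hx0 : 0 ≤ x := (Nat.cast_nonneg τ).trans h1
  have hy0 : 0 ≤ x + N * h := add_nonneg hx0 ((Nat.cast_nonneg j).trans h3)
  have hz0 : 0 ≤ x + N * h + N * a := add_nonneg hy0 ((Nat.cast_nonneg j').trans h5)
  have ha : 0 ≤ a := by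
    exact nonneg_of_mul_nonneg_right ((Nat.cast_nonneg j').trans h5) h0
  have key : ∀ th, 0 ≤ th → th < 1 → ∃ i ≤ 1, ∃ e ≤ 1, ∃ e' ≤ 1,
      g (⌊x + th⌋₊ - τ) (⌊x + N * h + th⌋₊ - ⌊x + th⌋₊ - j)
        (⌊x + N * h + N * a + th⌋₊ - ⌊x + N * h + th⌋₊ - j') = g i e e' ∧
      DT P ((N : ℝ)⁻¹ * ⌊x + th⌋₊ - 1 / 2) ((N : ℝ)⁻¹ * (⌊x + N * h + th⌋₊ - ⌊x + th⌋₊))
        ((N : ℝ)⁻¹ * (⌊x + N * h + N * a + th⌋₊ - ⌊x + N * h + th⌋₊)) =
        DL P N (τ + i) (j + e) (j' + e') ∧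
      (⌊x + N * h + N * a + th⌋₊ : ℝ) = ⌊x + N * h + th⌋₊ + (j' + e') := by
    intro th t0 t1
    obtain ⟨i, hi, e1⟩ := cell t0 t1 h1 h2
    obtain ⟨e, he, e2⟩ := step' hx0 t0 h3 h4
    obtain ⟨e', he', e3⟩ := step' hy0 t0 h5 h6
    refine ⟨i, hi, e, he, e', he', ?_, ?_, ?_⟩
    · rw [e3, e2, e1]
      simp only [Nat.add_sub_cancel_left]
    · rw [e3, e2, e1, DL]
      congr 1 <;> push_cast <;> ring
    · rw [e3]; push_cast; ring
  have hJ := jn_dt hx0 hy0 hz0 P (N : ℝ)⁻¹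
  rw [Jn] at hJ
  have hJ' : DT P ((N : ℝ)⁻¹ * x - 1 / 2) ((N : ℝ)⁻¹ * (x + N * h - x))
      ((N : ℝ)⁻¹ * (x + N * h + N * a - (x + N * h))) = DT P t h a := by
    congr 1
    · rw [hx]; field_simp; ring
    · field_simp; ring
    · field_simp; ring
  rw [hJ'] at hJ
  set d := Av x (x + N * h) (x + N * h + N * a) fun A B C =>
    DT P ((N : ℝ)⁻¹ * A - 1 / 2) ((N : ℝ)⁻¹ * (B - A)) ((N : ℝ)⁻¹ * (C - B)) with hd
  rcases hg with hg | ⟨D0, hg⟩ | ⟨n, σ, a0, hσ, hg⟩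
  · refine le_trans (av_mono (G := fun _ _ _ => 0) fun th t0 t1 => ?_)
      ((av_const 0).le.trans (hp.area0 hF))
    obtain ⟨i, hi, e, he, e', he', e1, -⟩ := key th t0 t1
    exact e1 ▸ hg i hi e he e' he'
  · have h7 : D0 ≤ d := by
      refine (av_const D0).ge.trans (av_mono fun th t0 t1 => ?_)
      obtain ⟨i, hi, e, he, e', he', -, e2, -⟩ := key th t0 t1
      exact e2 ▸ (hg i hi e he e' he').1
    refine le_trans ?_ (hp.area1 (lo := j' / N) hF (by positivity)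
      (by rw [div_le_iff₀ h0]; linarith) (hJ.trans hD) h7)
    refine (av_mono (G := fun A B C => (j' : ℝ) / N * DT P ((N : ℝ)⁻¹ * A - 1 / 2)
      ((N : ℝ)⁻¹ * (B - A)) ((N : ℝ)⁻¹ * (C - B)) +
      (-D0 * j' / N + 0 * A + -D0 / N * B + D0 / N * C)) fun th t0 t1 => ?_).trans (le_of_eq ?_)
    · obtain ⟨i, hi, e, he, e', he', e1, e2, e3⟩ := key th t0 t1
      rw [e1, e2, e3]
      exact (hg i hi e he e' he').2.trans (le_of_eq (by ring))
    · rw [av_add, av_mul, av_aff hx0 hy0 hz0, ← hd]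
      field_simp; ring
  · refine le_trans (le_min ?_ ?_) (hp.area2 n σ a0 hF ha hσ (hJ.trans hD))
    · refine (av_mono (G := fun A B C => σ * DT P ((N : ℝ)⁻¹ * A - 1 / 2)
        ((N : ℝ)⁻¹ * (B - A)) ((N : ℝ)⁻¹ * (C - B)) + -(n * σ ^ 2 / 4)) fun th t0 t1 => ?_).trans
        (le_of_eq ?_)
      · obtain ⟨i, hi, e, he, e', he', e1, e2, -⟩ := key th t0 t1
        rw [e1, e2]
        exact (hg i hi e he e' he').trans (min_le_left _ _)
      · rw [av_add, av_mul, av_const, ← hd]; ring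
    · refine (av_mono (G := fun A B C => (n + 1) * (-2 * a0 * 0 - a0 ^ 2) + 0 * A +
        -((n + 1) * 2 * a0 / N) * B + (n + 1) * 2 * a0 / N * C) fun th t0 t1 => ?_).trans
        (le_of_eq ?_)
      · obtain ⟨i, hi, e, he, e', he', e1, -, e3⟩ := key th t0 t1
        rw [e1, e3]
        exact ((hg i hi e he e' he').trans (min_le_right _ _)).trans (le_of_eq (by ring))
      · rw [av_aff hx0 hy0 hz0]
        field_simp; ring

theorem av_two {x y : ℝ} (z z' : ℝ) (F : ℕ → ℕ → ℝ) :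
    Av x y z (fun A B _ => F A B) = Av x y z' fun A B _ => F A B := rfl

theorem av_shift {x y z : ℝ} (w : ℝ) (F : ℕ → ℕ → ℝ) :
    Av x y z (fun A B _ => F A B) = Av w x y fun _ A B => F A B := rfl

theorem cls {N j : ℕ} {a h : ℝ} (ha : 0 ≤ N * a) (h1 : N * a ≤ N * h) (h2 : N * h ≤ j + 1) :
    ∃ j' ≤ j, (j' : ℝ) ≤ N * a ∧ N * a ≤ j' + 1 := by
  rcases le_total ⌊N * a⌋₊ j with h3 | h3
  · exact ⟨_, h3, Nat.floor_le ha, (Nat.lt_floor_add_one _).le⟩
  · exact ⟨j, le_rfl, (Nat.cast_le.2 h3).trans (Nat.floor_le ha), h1.trans h2⟩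

/-- Next-fit rows above a level, with a reserve region `Rg`. -/
theorem top (hp : PkStmt) (hr : RowStmt) {P : Prof} {N J : ℕ}
    {g : ℕ → ℕ → ℕ → ℕ → ℕ → ℕ → ℝ} {X : ℕ → ℕ → ℕ → ℝ} {Z : ℕ → ℕ → ℝ} (hP : P.ok) (hN : 0 < N)
    (hG : GV P N J g) (hU : Up N J g X) (hS : Sw N J X Z) {E : ℝ → ℝ → ℝ} (hE : Ext P E)
    {Rg : Pc → Prop} {t0 : ℝ} (ht0 : -1 / 2 ≤ t0) (hsep : Sep (Ab t0) Rg)
    (hRg : ∀ (a : ℝ) (l : List ℝ) (j : ℕ), Srt (a :: l) → j ≤ J → (j : ℝ) ≤ N * a →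
      N * a ≤ j + 1 → Pk E Rg (a :: l) ∨
        (1 - (N * a - j)) * Z j 0 + (N * a - j) * Z j 1 ≤ sqs (a :: l)) (n : ℕ) :
    ∀ (l : List ℝ) (h t z : ℝ) (j : ℕ), l.length < n → Srt (h :: l) → j ≤ J → (j : ℝ) ≤ N * h →
      N * h ≤ j + 1 → t0 ≤ t → t ≤ 1 / 2 → Pk E (fun s => Ab t s ∨ Rg s) (h :: l) ∨
        Av (N * (t + 1 / 2)) (N * (t + 1 / 2) + N * h) z (fun A B _ => X A j (B - A - j)) ≤
          sqs (h :: l) := by
  have h0 : (0 : ℝ) < N := by exact_mod_cast hN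
  induction n with
  | zero => exact fun l _ _ _ _ h => absurd h (Nat.not_lt_zero _)
  | succ n ih =>
    intro l h t z j hl hs hj h1 h2 h3 h4
    have hx0 : 0 ≤ (N : ℝ) * (t + 1 / 2) := mul_nonneg h0.le (by linarith)
    have hx1 : (N : ℝ) * (t + 1 / 2) ≤ N := by linarith only [mul_le_mul_of_nonneg_left h4 h0.le]
    have hh : 0 ≤ h := hs.2 h List.mem_cons_self
    by_cases h5 : t + h ≤ 1 / 2
    · have h6 : -1 / 2 ≤ t := ht0.trans h3
      have hs1 : Srt [h] := ⟨List.pairwise_singleton _ _, fun x hx => by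
        rw [List.mem_singleton.1 hx]; exact hh⟩
      have hm := hr.rowB (C := 2) (m := h) (ht := h) (fs := []) hP hE h6 h5 hs1
        (fun x hx => (List.mem_singleton.1 hx).ge) le_rfl trivial
        (hr.feasB (C := 2) hP hE h6 h5 hs1 trivial fun h => absurd rfl h)
      have hs2 := List.pairwise_cons.1 hs.1
      rcases hp.ms_run (O := fun s => Ab (t + h) s ∨ Rg s) (l := l) (fun s s' q1 q2 => by
          rcases q2 with q2 | q2
          · exact Or.inr (Or.inr (Or.inl (le_trans q1.2 q2)))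
          · exact hsep s s' (h3.trans q1.1) q2) hm
        ⟨hs2.2, fun x hx => hs.2 x (List.mem_cons_of_mem _ hx)⟩ hs2.1 with
        h7 | ⟨l1, a, l2, rfl, h7, h8⟩
      · refine Or.inl (hp.mono (fun s q => ?_) h7)
        rcases q with q | q | q
        · exact Or.inl q.1
        · exact Or.inl (le_trans (by linarith) q)
        · exact Or.inr q
      have ha : a ∈ l1 ++ a :: l2 := by simp
      have ha0 := hs.2 a (List.mem_cons_of_mem _ ha)
      have ha1 := hs2.1 a ha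
      obtain ⟨j', q1, q2, q3⟩ := cls (mul_nonneg h0.le ha0) (mul_le_mul_of_nonneg_left ha1 h0.le) h2
      obtain ⟨τ, q4, q5, q6⟩ := cls (N := N) (j := N - 1) (h := 1) hx0
        (by linarith) (by rw [Nat.cast_pred hN]; linarith)
      have h9 := (ih l2 a (t + h) 0 j' (by simp at hl; omega)
        ⟨(List.pairwise_append.1 hs2.2).2.1, fun x hx =>
          hs.2 x (List.mem_cons_of_mem _ (List.mem_append_right _ hx))⟩
        (q1.trans hj) q2 q3 (by linarith) h5).resolve_left h8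
      have h10 := av_g hp hN (hG τ (by omega) j hj j' q1) q5 q6 h1 h2 q2 q3 (by
        refine le_trans ?_ (le_max_left _ _)
        have := hr.tz_le hE h6 h5 hh le_rfl
        have := hr.tz_le hE h6 h5 ha0 ha1
        rw [DB, DT, min_eq_right (a := 2) (by linarith), List.sum_nil, add_zero]
        refine le_of_eq ?_
        congr 3
        ring) h7
      have h11 := (av_bit (z := N * (t + 1 / 2) + N * h + N * a) hx0 (by positivity) h1 h2
        (cc N j)).le.trans (cc_le hN)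
      rw [show (N : ℝ) * (t + h + 1 / 2) = N * (t + 1 / 2) + N * h by ring] at h9
      right
      rw [sqs_cons, sqs_app, ← add_assoc]
      refine le_trans ?_ (add_le_add (add_le_add h11 h10) h9)
      rw [av_two z (N * (t + 1 / 2) + N * h + N * a) fun A B => X A j (B - A - j),
        av_shift (N * (t + 1 / 2)) fun A B => X A j' (B - A - j'), ← av_add, ← av_add]
      refine av_mono fun th t0 t1 => ?_
      obtain ⟨i, hi, e1⟩ := cell t0 t1 q5 q6
      obtain ⟨e, he, e2⟩ := step' hx0 t0 h1 h2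
      obtain ⟨e', he', e3⟩ := step' (x := N * (t + 1 / 2) + N * h) (by positivity) t0 q2 q3
      have e4 := floor_le (x := N * (t + 1 / 2) + N * h) (N := N) t1
        (by linarith only [mul_le_mul_of_nonneg_left h5 h0.le])
      rw [e2, e1] at e4
      rw [e3, e2, e1]
      simp only [Nat.add_sub_cancel_left]
      exact hU τ (by omega) j hj j' q1 i hi e he e' he' e4
    · refine (hRg h l j hs hj h1 h2).imp (hp.mono fun s => Or.inr) fun h6 => le_trans ?_ h6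
      rw [← av_bit hx0 le_rfl h1 h2 (Z j), av_two z 0 fun A B => X A j (B - A - j)]
      refine av_mono fun th t0 t1 => ?_
      obtain ⟨e, he, e2⟩ := step' hx0 t0 h1 h2
      have e4 : N ≤ ⌊N * (t + 1 / 2) + N * h + th⌋₊ := Nat.le_floor
        (by linarith only [mul_le_mul_of_nonneg_left (not_le.1 h5).le h0.le, t0])
      rw [e2] at e4
      rw [e2]
      simp only [Nat.add_sub_cancel_left]
      exact hS _ (floor_le t1 hx1) j hj e he e4

end Tail

open Tail in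
theorem tail (h : PkStmt) (hr : RowStmt) : TailStmt := by
  intro P N J x0 c g V U0 U1 Z0 Z1 hP hN hc hxc hG uV sV u0 s0 u1 s1 hI E hE t b a l τ j hs hj
    j1 j2 hτ t1 t2 b1 b2 hbt μ0 μ1 lam κ hμ
  have h0 : (0 : ℝ) < N := by exact_mod_cast hN
  have c0 : (0 : ℝ) < c := by exact_mod_cast hc
  have hb0 : 0 ≤ (N : ℝ) * (b + 1 / 2) := (Nat.cast_nonneg _).trans b1
  have ht0 : 0 ≤ (N : ℝ) * (t + 1 / 2) := (Nat.cast_nonneg _).trans t1
  have hb1 : -1 / 2 ≤ b := by linarith only [nonneg_of_mul_nonneg_right hb0 h0]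
  have hb2 : b ≤ 1 / 2 := by
    have : (x0 : ℝ) + c ≤ N := by exact_mod_cast hxc
    exact le_of_mul_le_mul_left (by linarith only [this, b2]) h0
  have ht1 : -1 / 2 ≤ t := by linarith only [nonneg_of_mul_nonneg_right ht0 h0]
  have ht2 : t ≤ 1 / 2 := by
    have : (τ : ℝ) + 1 ≤ N := by exact_mod_cast hτ
    exact le_of_mul_le_mul_left (by linarith only [this, t2]) h0
  obtain ⟨s, hsc⟩ : ∃ s : ℝ, s * c = N * (b + 1 / 2) - x0 := ⟨_, div_mul_cancel₀ _ c0.ne'⟩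
  have r0 : 0 ≤ s := nonneg_of_mul_nonneg_left (by linarith only [hsc, b1]) c0
  have r1 : 0 ≤ 1 - s := nonneg_of_mul_nonneg_left (by linarith only [hsc, b2]) c0
  have key := top h hr (X := fun p q r => (1 - s) * U0 p q r + s * U1 p q r)
    (Z := fun q r => (1 - s) * Z0 q r + s * Z1 q r) hP hN hG
    (fun τ q1 j q2 j' q3 i q4 e q5 e' q6 q7 => by
      linarith [mul_le_mul_of_nonneg_left (u0 τ q1 j q2 j' q3 i q4 e q5 e' q6 q7) r1,
        mul_le_mul_of_nonneg_left (u1 τ q1 j q2 j' q3 i q4 e q5 e' q6 q7) r0])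
    (fun t q1 j q2 e q3 q4 => add_le_add (mul_le_mul_of_nonneg_left (s0 t q1 j q2 e q3 q4) r1)
      (mul_le_mul_of_nonneg_left (s1 t q1 j q2 e q3 q4) r0)) hE (Rg := Be (-b)) ht1
    (fun s s' q1 q2 => Or.inr (Or.inr (Or.inr (le_trans q2 (hbt.trans q1)))))
    (fun a l j hs hj j1 j2 => by
      refine (top h hr hP hN hG uV sV hE (Rg := fun _ => False) hb1 (fun _ _ _ q => q.elim)
        (fun a l j _ _ _ _ => Or.inr ((cc_le hN).trans (by
          rw [sqs_cons]; linarith [sqs_nonneg l]))) _ l a b 0 j (Nat.lt_succ_self _) hs hj j1 j2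
        le_rfl hb2).imp (fun q => h.flip (h.mono (fun s q => q.resolve_right id) q))
        fun q => le_trans ?_ q
      obtain ⟨e', he', k0, k1⟩ : ∃ e' ≤ 1, Z1 j 0 - Z0 j 0 ≤ Z1 j e' - Z0 j e' ∧
          Z1 j 1 - Z0 j 1 ≤ Z1 j e' - Z0 j e' := by
        rcases le_total (Z1 j 0 - Z0 j 0) (Z1 j 1 - Z0 j 1) with q | q
        · exact ⟨1, le_rfl, q, le_rfl⟩
        · exact ⟨0, zero_le_one, le_rfl, q⟩
      set k := Z1 j e' - Z0 j e' with hk
      have q1 : Av (N * (b + 1 / 2)) (N * (b + 1 / 2) + N * a) 0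
          (fun A B _ => c * Z0 j (B - A - j) + (-k * x0 + k * A + 0 * B + 0 * (0 : ℕ))) ≤
          Av (N * (b + 1 / 2)) (N * (b + 1 / 2) + N * a) 0
          (fun A B _ => c * V A j (B - A - j)) := by
        refine av_mono fun th t0 t1 => ?_
        obtain ⟨e, he, e2⟩ := step' hb0 t0 j1 j2
        obtain ⟨x, hx⟩ := Nat.exists_eq_add_of_le
          (Nat.le_floor (show (x0 : ℝ) ≤ N * (b + 1 / 2) + th by linarith))
        have e4 := floor_le (N := x0 + c) t1 (by push_cast; exact b2)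
        rw [e2, hx]
        simp only [Nat.add_sub_cancel_left]
        refine le_trans (le_of_eq ?_) (hI x (by omega) j hj e he e' he')
        push_cast; ring
      have q2 := av_aff hb0 (add_nonneg hb0 ((Nat.cast_nonneg _).trans j1)) le_rfl (-k * x0) k 0 0
      simp only [zero_mul, add_zero] at q1 q2
      rw [av_add, av_mul, av_mul, av_bit hb0 le_rfl j1 j2, q2] at q1
      refine le_of_mul_le_mul_left (le_trans ?_ q1) c0
      have f0 : 0 ≤ N * a - j := by linarith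
      have f1 : 0 ≤ 1 - (N * a - j) := by linarith
      have q3 : -k * x0 + k * (N * (b + 1 / 2)) = c * (s * k) := by
        linear_combination (-k) * hsc
      rw [q3, ← mul_add]
      refine mul_le_mul_of_nonneg_left ?_ c0.le
      linarith [mul_le_mul_of_nonneg_left k0 (mul_nonneg f1 r0),
        mul_le_mul_of_nonneg_left k1 (mul_nonneg f0 r0)])
    _ l a t 0 j (Nat.lt_succ_self _) hs hj j1 j2 le_rfl ht2
  refine key.imp id fun q => le_trans ?_ q
  have q1 := av_aff ht0 (add_nonneg ht0 ((Nat.cast_nonneg _).trans j1)) le_rfl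
    (μ0 - (μ1 - μ0) * j - κ * (s * c)) (-lam - (μ1 - μ0)) (μ1 - μ0) 0
  refine le_trans (le_of_eq ?_) (q1.ge.trans (av_mono fun th t0 t3 => ?_))
  · rw [hsc]; ring
  · obtain ⟨i, hi, e1⟩ := cell t0 t3 t1 t2
    obtain ⟨e, he, e2⟩ := step' ht0 t0 j1 j2
    obtain ⟨m1, m2, m3, m4⟩ := hμ i hi
    rw [e2, e1]
    simp only [Nat.add_sub_cancel_left]
    interval_cases e <;> push_cast
    · linarith [mul_le_mul_of_nonneg_left m1 r1, mul_le_mul_of_nonneg_left m3 r0]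
    · linarith [mul_le_mul_of_nonneg_left m2 r1, mul_le_mul_of_nonneg_left m4 r0]

end Pool.Agent.MP_34f9b1_co.Sym
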